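import Mathlib

namespace V1180.Un

open Polynomial

/-- Multiset form of the convexity of {w : c |w|^2 < Im w}. -/
lemma mean_aux (c : ℝ) (hc : 0 ≤ c) (W : Multiset ℂ) (hW : ∀ w ∈ W, c * Complex.normSq w < w.im) :
    c * Complex.normSq W.sum ≤ (W.card : ℝ) * W.sum.im ∧
      (W ≠ 0 → c * Complex.normSq W.sum < (W.card : ℝ) * W.sum.im) := by
  induction W using Multiset.induction_on with
  | empty => simp
  | cons w W ih =>
    obtain ⟨ih1, -⟩ := ih (fun v hv => hW v (Multiset.mem_cons_of_mem hv))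
    have hw := hW w (Multiset.mem_cons_self w W)
    have key : c * Complex.normSq (w ::ₘ W).sum < ((w ::ₘ W).card : ℝ) * (w ::ₘ W).sum.im := by
      rw [Multiset.sum_cons, Multiset.card_cons]
      push_cast
      obtain ⟨S, hS⟩ : ∃ S, S = W.sum := ⟨_, rfl⟩
      obtain ⟨m, hm⟩ : ∃ m : ℝ, m = (W.card : ℝ) := ⟨_, rfl⟩
      have hm0 : 0 ≤ m := by rw [hm]; positivity
      rw [← hS, ← hm]
      rw [← hS, ← hm] at ih1
      rcases eq_or_lt_of_le hm0 with h0 | h0
      · have : W = 0 := by
          rw [← Multiset.card_eq_zero]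
          have : (W.card : ℝ) = 0 := by rw [← hm, ← h0]
          exact_mod_cast this
        have hS0 : S = 0 := by rw [hS, this]; simp
        rw [hS0, ← h0]
        simpa using hw
      · rw [Complex.normSq_apply] at ih1 hw ⊢
        simp only [Complex.add_re, Complex.add_im]
        have h1 : m * (c * ((w.re + S.re) * (w.re + S.re) + (w.im + S.im) * (w.im + S.im))) <
            m * ((m + 1) * (w.im + S.im)) := by
          have h2 : 0 ≤ (S.re - m * w.re) ^ 2 + (S.im - m * w.im) ^ 2 := by positivity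
          have h3 : 0 ≤ c * ((S.re - m * w.re) ^ 2 + (S.im - m * w.im) ^ 2) := by positivity
          have h4 : 0 < (m + 1) * m * (w.im - c * (w.re * w.re + w.im * w.im)) := by
            apply mul_pos (by positivity); linarith
          have h5 : 0 ≤ (m + 1) * (m * S.im - c * (S.re * S.re + S.im * S.im)) := by
            apply mul_nonneg (by positivity); linarith
          nlinarith
        exact lt_of_mul_lt_mul_left h1 h0.le
    exact ⟨key.le, fun _ => key⟩

lemma grace_core (R : Multiset ℂ) (hR : ∀ z ∈ R, 0 < z.im) (hne : R ≠ 0) (s : ℂ) (hs : s.im ≤ 0)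
    (t : ℝ) :
    (t : ℂ) * R.card + (1 - t - t * s) * (R.map fun z => 1 / (s - z)).sum ≠ 0 := by
  obtain ⟨W, hWd⟩ : ∃ W, W = R.map fun z => 1 / (s - z) := ⟨_, rfl⟩
  rw [← hWd]
  have hWc : W.card = R.card := by rw [hWd, Multiset.card_map]
  have hW : ∀ w ∈ W, (-s.im) * Complex.normSq w < w.im := by
    intro w hw
    rw [hWd, Multiset.mem_map] at hw
    obtain ⟨z, hz, rfl⟩ := hw
    have hz' := hR z hz
    have hd : (s - z).im < 0 := by simp; linarith
    have hn : 0 < Complex.normSq (s - z) := by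
      rw [Complex.normSq_pos]; intro h; rw [h] at hd; simp at hd
    rw [one_div, Complex.normSq_inv, Complex.inv_im, ← div_eq_mul_inv]
    apply div_lt_div_of_pos_right _ hn
    simp; linarith
  have hW0 : W ≠ 0 := by
    intro h
    apply hne
    rw [← Multiset.card_eq_zero, ← hWc, h]; simp
  obtain ⟨-, h⟩ := mean_aux (-s.im) (by linarith) W hW
  have hk := h hW0
  rw [hWc] at hk
  obtain ⟨S, hS⟩ : ∃ S, S = W.sum := ⟨_, rfl⟩
  obtain ⟨m, hm⟩ : ∃ m : ℝ, m = (R.card : ℝ) := ⟨_, rfl⟩
  have hm' : ((R.card : ℕ) : ℂ) = (m : ℂ) := by rw [hm]; simp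
  rw [← hS] at hk ⊢
  rw [hm']
  rw [← hm] at hk
  intro hzero
  have hmp : 0 ≤ m := by rw [hm]; positivity
  have hSim : 0 < S.im := by
    have : 0 ≤ -s.im * Complex.normSq S := mul_nonneg (by linarith) (Complex.normSq_nonneg _)
    by_contra hcon
    push Not at hcon
    nlinarith
  have hre := congrArg Complex.re hzero
  have him := congrArg Complex.im hzero
  simp only [Complex.add_re, Complex.add_im, Complex.mul_re, Complex.mul_im, Complex.sub_re,
    Complex.sub_im, Complex.ofReal_re, Complex.ofReal_im, Complex.one_re, Complex.one_im,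
    Complex.zero_re, Complex.zero_im, mul_zero, zero_mul, sub_zero, add_zero] at hre him
  rw [Complex.normSq_apply] at hk
  -- multiply by conj S and take imaginary part
  have key : t * (m * S.im + s.im * (S.re * S.re + S.im * S.im)) = 0 := by
    linear_combination S.im * hre - S.re * him
  have ht : t = 0 := by
    rcases mul_eq_zero.mp key with h | h
    · exact h
    · exfalso; linarith
  rw [ht] at hre him
  simp at hre him
  linarith


/-- The polynomial s ↦ Λ((1 + (1+s) X)^m). -/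
noncomputable def gpoly (Λ : ℂ[X] →ₗ[ℂ] ℂ) (m : ℕ) : ℂ[X] :=
  ∑ j ∈ Finset.range (m + 1), C ((m.choose j : ℂ) * Λ (X ^ j * (1 + X) ^ (m - j))) * X ^ j

lemma expand_aux (m : ℕ) (s : ℂ) :
    (1 + C (1 + s) * X : ℂ[X]) ^ m =
      ∑ j ∈ Finset.range (m + 1), (s ^ j * (m.choose j : ℂ)) • (X ^ j * (1 + X) ^ (m - j) : ℂ[X]) := by
  have h : (1 + C (1 + s) * X : ℂ[X]) = C s * X + (1 + X) := by
    rw [C_add, C_1]; ring
  rw [h, add_pow]
  refine Finset.sum_congr rfl fun j _ => ?_
  rw [mul_pow, smul_eq_C_mul, C_mul, C_pow]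
  have : C (m.choose j : ℂ) = ((m.choose j : ℕ) : ℂ[X]) := by simp
  rw [this]; ring

lemma gpoly_eval (Λ : ℂ[X] →ₗ[ℂ] ℂ) (m : ℕ) (s : ℂ) :
    (gpoly Λ m).eval s = Λ ((1 + C (1 + s) * X) ^ m) := by
  rw [expand_aux, map_sum, gpoly, eval_finsetSum]
  refine Finset.sum_congr rfl fun j _ => ?_
  rw [map_smul, smul_eq_mul]
  simp only [eval_mul, eval_C, eval_pow, eval_X]
  ring

lemma gpoly_coeff (Λ : ℂ[X] →ₗ[ℂ] ℂ) (m i : ℕ) (hi : i ≤ m) :
    (gpoly Λ m).coeff i = (m.choose i : ℂ) * Λ (X ^ i * (1 + X) ^ (m - i)) := by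
  rw [gpoly, finsetSum_coeff]
  rw [Finset.sum_eq_single i]
  · rw [coeff_C_mul, coeff_X_pow, if_pos rfl, mul_one]
  · intro j _ hj
    rw [coeff_C_mul, coeff_X_pow, if_neg (Ne.symm hj), mul_zero]
  · intro h; exact absurd (Finset.mem_range.mpr (by omega)) h

lemma gpoly_natDegree (Λ : ℂ[X] →ₗ[ℂ] ℂ) (m : ℕ) (h : Λ (X ^ m) ≠ 0) :
    (gpoly Λ m).natDegree = m := by
  apply natDegree_eq_of_le_of_coeff_ne_zero
  · apply natDegree_sum_le_of_forall_le
    intro j hj
    refine (natDegree_C_mul_X_pow_le _ _).trans ?_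
    have := Finset.mem_range.mp hj; omega
  · rw [gpoly_coeff Λ m m le_rfl]; simpa using h

lemma gpoly_deriv_eval (Λ : ℂ[X] →ₗ[ℂ] ℂ) (m : ℕ) (s : ℂ) :
    (gpoly Λ (m + 1)).derivative.eval s = (m + 1 : ℂ) * Λ (X * (1 + C (1 + s) * X) ^ m) := by
  rw [expand_aux, Finset.mul_sum, map_sum, gpoly, derivative_sum, eval_finsetSum,
    Finset.sum_range_succ']
  simp only [pow_zero, mul_one, derivative_C, eval_zero, add_zero]
  rw [Finset.mul_sum]
  refine Finset.sum_congr rfl fun j hj => ?_
  have hj' := Finset.mem_range.mp hj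
  rw [derivative_C_mul_X_pow]
  simp only [eval_mul, eval_C, eval_pow, eval_X, Nat.add_sub_cancel]
  rw [show X * ((s ^ j * (m.choose j : ℂ)) • (X ^ j * (1 + X) ^ (m - j)) : ℂ[X]) =
    (s ^ j * (m.choose j : ℂ)) • (X ^ (j + 1) * (1 + X) ^ (m - j)) from by
      rw [smul_eq_C_mul, smul_eq_C_mul]; ring]
  rw [map_smul, smul_eq_mul, show m + 1 - (j + 1) = m - j from by omega]
  have hc : ((m + 1).choose (j + 1) : ℂ) * ((j + 1 : ℕ) : ℂ) = (m + 1 : ℂ) * (m.choose j : ℂ) := by
    have := Nat.add_one_mul_choose_eq m j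
    have h2 : (((m + 1) * m.choose j : ℕ) : ℂ) = (((m + 1).choose (j + 1) * (j + 1) : ℕ) : ℂ) := by
      rw [this]
    push_cast at h2 ⊢
    exact h2.symm
  linear_combination (Λ (X ^ (j + 1) * (1 + X) ^ (m - j)) * s ^ j) * hc

/-- The Grace step. -/
lemma step (Λ : ℂ[X] →ₗ[ℂ] ℂ) (m : ℕ)
    (h1 : ∀ s : ℂ, s.im ≤ 0 → Λ ((1 + C (1 + s) * X) ^ (m + 1)) ≠ 0)
    (h2 : Λ (X ^ (m + 1)) ≠ 0) (t : ℝ) :
    (∀ s : ℂ, s.im ≤ 0 → Λ ((X + C (t : ℂ)) * (1 + C (1 + s) * X) ^ m) ≠ 0) ∧
      Λ ((X + C (t : ℂ)) * X ^ m) ≠ 0 := by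
  obtain ⟨g, hg⟩ : ∃ g, g = gpoly Λ (m + 1) := ⟨_, rfl⟩
  have hsp : g.Splits := IsAlgClosed.splits g
  have hdeg : g.natDegree = m + 1 := by rw [hg]; exact gpoly_natDegree Λ (m + 1) h2
  have hg0 : g ≠ 0 := by intro h; rw [h] at hdeg; simp at hdeg
  have hcard : g.roots.card = m + 1 := by rw [← hsp.natDegree_eq_card_roots, hdeg]
  have hroots : ∀ z ∈ g.roots, 0 < z.im := by
    intro z hz
    by_contra hcon
    push Not at hcon
    apply h1 z hcon
    rw [← gpoly_eval, ← hg]
    exact (mem_roots hg0).mp hz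
  have hne : g.roots ≠ 0 := by
    intro h; rw [h] at hcard; simp at hcard
  constructor
  · intro s hs
    have hev : g.eval s ≠ 0 := by rw [hg, gpoly_eval]; exact h1 s hs
    have hd := hsp.eval_derivative_eq_eval_mul_sum hev
    have hc := grace_core g.roots hroots hne s hs t
    rw [hcard] at hc
    have hid : (X + C (t : ℂ)) * (1 + C (1 + s) * X) ^ m =
        (t : ℂ) • (1 + C (1 + s) * X) ^ (m + 1) +
          (1 - t - t * s) • (X * (1 + C (1 + s) * X) ^ m) := by
      rw [smul_eq_C_mul, smul_eq_C_mul]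
      simp only [C_add, C_sub, C_mul, C_1]
      ring
    rw [hid, map_add, map_smul, map_smul, smul_eq_mul, smul_eq_mul, ← gpoly_eval, ← hg]
    have hd2 : (m + 1 : ℂ) * Λ (X * (1 + C (1 + s) * X) ^ m) =
        g.eval s * (g.roots.map fun z => 1 / (s - z)).sum := by
      rw [← gpoly_deriv_eval, ← hg, hd]
    intro hzero
    apply hc
    have hm1 : (m + 1 : ℂ) ≠ 0 := by exact_mod_cast Nat.succ_ne_zero m
    have : g.eval s * ((t : ℂ) * ((m + 1 : ℕ) : ℂ) +
        (1 - t - t * s) * (g.roots.map fun z => 1 / (s - z)).sum) = 0 := by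
      push_cast
      linear_combination (m + 1 : ℂ) * hzero - (1 - t - t * s) * hd2
    exact (mul_eq_zero.mp this).resolve_left hev
  · have hnext := hsp.nextCoeff_eq_neg_sum_roots_mul_leadingCoeff
    rw [nextCoeff_of_natDegree_pos (by omega), leadingCoeff, hdeg, Nat.add_sub_cancel, hg,
      gpoly_coeff Λ (m + 1) m (by omega), gpoly_coeff Λ (m + 1) (m + 1) le_rfl, ← hg] at hnext
    simp only [Nat.choose_self, Nat.sub_self, pow_zero, mul_one, Nat.cast_one, one_mul,
      show m + 1 - m = 1 from by omega, pow_one] at hnext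
    have hch : ((m + 1).choose m : ℂ) = (m + 1 : ℂ) := by
      rw [show (m + 1).choose m = m + 1 from Nat.choose_succ_self_right m]; push_cast; ring
    rw [hch] at hnext
    have e1 : X ^ m * (1 + X) = (X ^ m + X ^ (m + 1) : ℂ[X]) := by ring
    rw [e1, map_add] at hnext
    have e2 : (X + C (t : ℂ)) * X ^ m = (X ^ (m + 1) + (t : ℂ) • X ^ m : ℂ[X]) := by
      rw [smul_eq_C_mul]; ring
    rw [e2, map_add, map_smul, smul_eq_mul]
    intro hzero
    have hsum : ((m + 1 : ℝ) : ℂ) * (1 - t) = t * g.roots.sum := by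
      have : Λ (X ^ (m + 1)) * (((m + 1 : ℝ) : ℂ) * (1 - t) - t * g.roots.sum) = 0 := by
        push_cast
        linear_combination (m + 1 : ℂ) * hzero - (t : ℂ) * hnext
      have := (mul_eq_zero.mp this).resolve_left h2
      linear_combination this
    have him : 0 < g.roots.sum.im := by
      have hpos : ∀ R : Multiset ℂ, (∀ z ∈ R, 0 < z.im) → R ≠ 0 → 0 < R.sum.im := by
        intro R
        induction R using Multiset.induction_on with
        | empty => intro _ h; exact absurd rfl h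
        | cons w W ih =>
          intro h _
          rw [Multiset.sum_cons, Complex.add_im]
          have hw := h w (Multiset.mem_cons_self w W)
          by_cases hW : W = 0
          · rw [hW]; simpa using hw
          · have := ih (fun z hz => h z (Multiset.mem_cons_of_mem hz)) hW
            linarith
      exact hpos g.roots hroots hne
    have h3 := congrArg Complex.im hsum
    have h4 := congrArg Complex.re hsum
    simp only [Complex.mul_im, Complex.mul_re, Complex.sub_im, Complex.sub_re, Complex.ofReal_re,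
      Complex.ofReal_im, Complex.one_im, Complex.one_re, zero_mul, mul_zero, add_zero, sub_zero,
      sub_self] at h3 h4
    have ht : t = 0 := by
      rcases mul_eq_zero.mp h3.symm with h | h
      · exact h
      · exfalso; linarith
    rw [ht] at h4
    have : (0 : ℝ) < m + 1 := by positivity
    simp at h4
    linarith

/-- Grace-Walsh-Szegő for the closed lower half plane, in functional form. -/
lemma grace (T : Multiset ℝ) : ∀ Λ : ℂ[X] →ₗ[ℂ] ℂ,
    (∀ s : ℂ, s.im ≤ 0 → Λ ((1 + C (1 + s) * X) ^ T.card) ≠ 0) → Λ (X ^ T.card) ≠ 0 →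
    Λ (T.map fun t : ℝ => X + C (t : ℂ)).prod ≠ 0 := by
  induction T using Multiset.induction_on with
  | empty =>
    intro Λ h1 _
    simpa using h1 0 (by simp)
  | cons t T ih =>
    intro Λ h1 h2
    rw [Multiset.card_cons] at h1 h2
    obtain ⟨k1, k2⟩ := step Λ T.card h1 h2 t
    have := ih (Λ.comp (LinearMap.mulLeft ℂ (X + C (t : ℂ)))) (by
      intro s hs; simpa using k1 s hs) (by simpa using k2)
    rw [Multiset.map_cons, Multiset.prod_cons]
    simpa using this

/-- Positivity version for a real point. -/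
lemma grace_real (T : Multiset ℝ) (hT : ∀ t ∈ T, 0 ≤ t ∧ t ≤ 1) : ∀ (c : ℝ) (Λ : ℂ[X] →ₗ[ℂ] ℂ),
    (∀ j ≤ T.card, 0 < c * (Λ (X ^ j * (1 + X) ^ (T.card - j))).re) →
    0 < c * (Λ (T.map fun t : ℝ => X + C (t : ℂ)).prod).re := by
  induction T using Multiset.induction_on with
  | empty =>
    intro c Λ h
    simpa using h 0 (by simp)
  | cons t T ih =>
    intro c Λ h
    rw [Multiset.card_cons] at h
    obtain ⟨ht0, ht1⟩ := hT t (Multiset.mem_cons_self t T)
    have := ih (fun u hu => hT u (Multiset.mem_cons_of_mem hu)) c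
      (Λ.comp (LinearMap.mulLeft ℂ (X + C (t : ℂ)))) (by
      intro j hj
      have h1 := h j (by omega)
      have h2 := h (j + 1) (by omega)
      rw [show T.card + 1 - (j + 1) = T.card - j from by omega] at h2
      rw [show T.card + 1 - j = (T.card - j) + 1 from by omega] at h1
      have hid : (X + C (t : ℂ)) * (X ^ j * (1 + X) ^ (T.card - j)) =
          (t : ℂ) • (X ^ j * (1 + X) ^ (T.card - j + 1)) +
            ((1 - t : ℝ) : ℂ) • (X ^ (j + 1) * (1 + X) ^ (T.card - j)) := by
        rw [smul_eq_C_mul, smul_eq_C_mul]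
        simp only [Complex.ofReal_sub, Complex.ofReal_one, C_sub, C_1]
        ring
      simp only [LinearMap.comp_apply, LinearMap.mulLeft_apply]
      rw [hid, map_add, map_smul, map_smul, smul_eq_mul, smul_eq_mul, Complex.add_re,
        Complex.re_ofReal_mul, Complex.re_ofReal_mul]
      have e : c * (t * (Λ (X ^ j * (1 + X) ^ (T.card - j + 1))).re +
          (1 - t) * (Λ (X ^ (j + 1) * (1 + X) ^ (T.card - j))).re) =
          t * (c * (Λ (X ^ j * (1 + X) ^ (T.card - j + 1))).re) +
          (1 - t) * (c * (Λ (X ^ (j + 1) * (1 + X) ^ (T.card - j))).re) := by ring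
      rw [e]
      rcases eq_or_lt_of_le ht0 with h0 | h0
      · rw [← h0]; simpa using h2
      · have : 0 ≤ 1 - t := by linarith
        positivity)
    rw [Multiset.map_cons, Multiset.prod_cons]
    simpa using this

end V1180.Un
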