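import Mathlib
import Pool.Agent.V1180.UnA

namespace V1180.Un

open Polynomial ComplexConjugate

/-- final complex inequality -/
lemma fin_ineq (G : ℝ) (hG : 0 ≤ G) (L Z s : ℂ) (hs : s.im ≤ 0) (hs0 : s ≠ 0) (hs1 : s ≠ -1)
    (hZ : ‖Z‖ ≤ Real.sqrt ‖s‖ * G)
    (heq : (‖s‖ : ℂ) * Z - s * conj Z = (‖s‖ : ℂ) * ((1 + s) * L + (1 - s) * G))
    (hL : 0 < L.im) : ‖L‖ ≤ G := by
  obtain ⟨σ, hσ, hσr, hσi⟩ : ∃ σ : ℂ, σ ^ 2 = s ∧ 0 ≤ σ.re ∧ σ.im ≤ 0 := by
    obtain ⟨σ, hσ⟩ := IsAlgClosed.exists_pow_nat_eq s (n := 2) (by norm_num)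
    have h2 : 2 * (σ.re * σ.im) ≤ 0 := by
      have : (σ ^ 2).im = 2 * (σ.re * σ.im) := by rw [sq, Complex.mul_im]; ring
      rw [← this, hσ]; exact hs
    rcases le_total 0 σ.re with h | h <;> rcases le_total σ.im 0 with h' | h'
    · exact ⟨σ, hσ, h, h'⟩
    · rcases eq_or_lt_of_le h with h0 | h0
      · exact ⟨-σ, by rw [neg_sq]; exact hσ, by simp [← h0], by simpa using h'⟩
      · rcases eq_or_lt_of_le h' with h0' | h0'
        · exact ⟨σ, hσ, h, by rw [← h0']⟩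
        · exfalso; nlinarith [mul_pos h0 h0']
    · rcases eq_or_lt_of_le h with h0 | h0
      · exact ⟨σ, hσ, by rw [h0], h'⟩
      · rcases eq_or_lt_of_le h' with h0' | h0'
        · exact ⟨-σ, by rw [neg_sq]; exact hσ, by simpa using h, by simp [h0']⟩
        · exfalso; nlinarith [mul_pos_of_neg_of_neg h0 h0']
    · exact ⟨-σ, by rw [neg_sq]; exact hσ, by simpa using h, by simpa using h'⟩
  have hr : ‖s‖ = ‖σ‖ ^ 2 := by rw [← hσ, norm_pow]
  have hσ0 : 0 < ‖σ‖ := by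
    rw [norm_pos_iff]; intro h; apply hs0; rw [← hσ, h]; simp
  have hsqrt : Real.sqrt ‖s‖ = ‖σ‖ := by rw [hr, Real.sqrt_sq (norm_nonneg _)]
  rw [hsqrt] at hZ
  obtain ⟨A, hA⟩ : ∃ A, A = σ.re := ⟨_, rfl⟩
  obtain ⟨B, hB⟩ : ∃ B, B = -σ.im := ⟨_, rfl⟩
  have hσI : σ.im = -B := by rw [hB]; ring
  have hA0 : 0 ≤ A := by rw [hA]; exact hσr
  have hB0 : 0 ≤ B := by rw [hB]; linarith
  obtain ⟨r, hrr⟩ : ∃ r, r = ‖s‖ := ⟨_, rfl⟩
  have hr2 : r = A ^ 2 + B ^ 2 := by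
    rw [hrr, hr, Complex.sq_norm, Complex.normSq_apply, ← hA, hσI]; ring
  have hr0 : 0 < r := by rw [hrr]; exact norm_pos_iff.mpr hs0
  have hsre : s.re = A ^ 2 - B ^ 2 := by
    rw [← hσ, sq, Complex.mul_re, ← hA, hσI]; ring
  have hsim : s.im = -2 * A * B := by
    rw [← hσ, sq, Complex.mul_im, ← hA, hσI]; ring
  obtain ⟨P, hP⟩ : ∃ P, P = Z.re := ⟨_, rfl⟩
  obtain ⟨Q, hQ⟩ : ∃ Q, Q = Z.im := ⟨_, rfl⟩
  obtain ⟨l1, hl1⟩ : ∃ l, l = L.re := ⟨_, rfl⟩
  obtain ⟨l2, hl2⟩ : ∃ l, l = L.im := ⟨_, rfl⟩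
  rw [← hrr] at heq
  have hre := congrArg Complex.re heq
  have him := congrArg Complex.im heq
  simp only [Complex.add_re, Complex.add_im, Complex.mul_re, Complex.mul_im, Complex.sub_re,
    Complex.sub_im, Complex.ofReal_re, Complex.ofReal_im, Complex.one_re, Complex.one_im,
    Complex.conj_re, Complex.conj_im, mul_zero, zero_mul, sub_zero, add_zero, zero_add, zero_sub,
    hsre, hsim, ← hP, ← hQ, ← hl1, ← hl2] at hre him
  -- η = Im (Z conj σ) / r = (A Q + B P)/r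
  obtain ⟨η, hη⟩ : ∃ η, η = (A * Q + B * P) / r := ⟨_, rfl⟩
  have hηr : η * r = A * Q + B * P := by rw [hη]; field_simp
  have hηG : |η| ≤ G := by
    have h1 : |A * Q + B * P| ≤ ‖Z‖ * ‖σ‖ := by
      have : (Z * conj σ).im = A * Q + B * P := by
        rw [Complex.mul_im, Complex.conj_re, Complex.conj_im, ← hA, hσI, ← hP, ← hQ]; ring
      rw [← this]
      refine (Complex.abs_im_le_norm _).trans ?_
      rw [norm_mul, Complex.norm_conj]
    have h2 : ‖Z‖ * ‖σ‖ ≤ r * G := by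
      calc ‖Z‖ * ‖σ‖ ≤ (‖σ‖ * G) * ‖σ‖ := mul_le_mul_of_nonneg_right hZ hσ0.le
        _ = r * G := by rw [hrr, hr]; ring
    rw [hη, abs_div, abs_of_pos hr0, div_le_iff₀ hr0]
    linarith
  have hη2 : η ^ 2 ≤ G ^ 2 := by
    rw [← abs_of_nonneg hG] at hηG
    exact sq_le_sq.mpr hηG
  have hR : 2 * η * B = (1 + A ^ 2 - B ^ 2) * l1 + 2 * A * B * l2 + (1 - A ^ 2 + B ^ 2) * G := by
    have : r * (2 * η * B) =
        r * ((1 + A ^ 2 - B ^ 2) * l1 + 2 * A * B * l2 + (1 - A ^ 2 + B ^ 2) * G) := by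
      have e : r * (2 * η * B) = 2 * B * (A * Q + B * P) := by rw [← hηr]; ring
      rw [e]
      have e2 : r * P = (A ^ 2 + B ^ 2) * P := by rw [← hr2]
      linear_combination hre - e2
    exact mul_left_cancel₀ hr0.ne' this
  have hI : 2 * η * A = (1 + A ^ 2 - B ^ 2) * l2 - 2 * A * B * l1 + 2 * A * B * G := by
    have : r * (2 * η * A) =
        r * ((1 + A ^ 2 - B ^ 2) * l2 - 2 * A * B * l1 + 2 * A * B * G) := by
      have e : r * (2 * η * A) = 2 * A * (A * Q + B * P) := by rw [← hηr]; ring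
      rw [e]
      have e2 : r * Q = (A ^ 2 + B ^ 2) * Q := by rw [← hr2]
      linear_combination him - e2
    exact mul_left_cancel₀ hr0.ne' this
  obtain ⟨D, hD⟩ : ∃ D, D = (1 + A ^ 2 - B ^ 2) ^ 2 + 4 * A ^ 2 * B ^ 2 := ⟨_, rfl⟩
  have hD0 : 0 < D := by
    have h0 : 0 ≤ D := by rw [hD]; positivity
    rcases eq_or_lt_of_le h0 with h | h
    · exfalso
      apply hs1
      have k1 : (1 + A ^ 2 - B ^ 2) ^ 2 = 0 := by
        have : 0 ≤ 4 * A ^ 2 * B ^ 2 := by positivity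
        nlinarith [sq_nonneg (1 + A ^ 2 - B ^ 2)]
      have k2 : (2 * A * B) ^ 2 = 0 := by nlinarith [sq_nonneg (1 + A ^ 2 - B ^ 2)]
      have k1' := pow_eq_zero_iff (two_ne_zero) |>.mp k1
      have k2' := pow_eq_zero_iff (two_ne_zero) |>.mp k2
      apply Complex.ext
      · rw [hsre]; simp only [Complex.neg_re, Complex.one_re]; linarith
      · rw [hsim]; simp only [Complex.neg_im, Complex.one_im, neg_zero]; linarith
    · exact h
  have h6 : D * l2 = 2 * A * (η * (1 + r) - 2 * B * G) := by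
    rw [hD, hr2]
    linear_combination (-(1 + A ^ 2 - B ^ 2)) * hI - (2 * A * B) * hR
  have hl2p : 0 < l2 := by rw [hl2]; exact hL
  have hA1 : 0 < 2 * A * (η * (1 + r) - 2 * B * G) := by rw [← h6]; positivity
  have hfac : 0 < η * (1 + r) - 2 * B * G := by
    by_contra hcon
    push Not at hcon
    have : 2 * A * (η * (1 + r) - 2 * B * G) ≤ 0 :=
      mul_nonpos_of_nonneg_of_nonpos (by positivity) hcon
    linarith
  have h7 : D * (l1 ^ 2 + l2 ^ 2 - G ^ 2) =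
      4 * (η ^ 2 * r - (A ^ 2 - B ^ 2) * G ^ 2 - G * η * B * (1 + r)) := by
    have hW1 : (1 + A ^ 2 - B ^ 2) * l1 + 2 * A * B * l2 = 2 * η * B - (1 - A ^ 2 + B ^ 2) * G := by
      linarith
    have hW2 : (1 + A ^ 2 - B ^ 2) * l2 - 2 * A * B * l1 = 2 * η * A - 2 * A * B * G := by
      linarith
    have : D * (l1 ^ 2 + l2 ^ 2) = ((1 + A ^ 2 - B ^ 2) * l1 + 2 * A * B * l2) ^ 2 +
        ((1 + A ^ 2 - B ^ 2) * l2 - 2 * A * B * l1) ^ 2 := by rw [hD]; ring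
    rw [hW1, hW2] at this
    have e : D * (l1 ^ 2 + l2 ^ 2 - G ^ 2) = D * (l1 ^ 2 + l2 ^ 2) - D * G ^ 2 := by ring
    rw [e, this, hD, hr2]; ring
  have h8 : D * (l1 ^ 2 + l2 ^ 2 - G ^ 2) ≤ 0 := by
    rw [h7]
    have k1 : 0 ≤ (G * B) * (η * (1 + r) - 2 * B * G) := mul_nonneg (mul_nonneg hG hB0) hfac.le
    have k2 : 0 ≤ r * (G ^ 2 - η ^ 2) := mul_nonneg hr0.le (by linarith)
    have e : η ^ 2 * r - (A ^ 2 - B ^ 2) * G ^ 2 - G * η * B * (1 + r) =
        -((G * B) * (η * (1 + r) - 2 * B * G)) - r * (G ^ 2 - η ^ 2) := by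
      linear_combination (G ^ 2) * hr2
    rw [e]; linarith
  have h9 : l1 ^ 2 + l2 ^ 2 ≤ G ^ 2 := by
    by_contra hcon
    push Not at hcon
    have := mul_pos hD0 (sub_pos.mpr hcon)
    linarith
  have h10 : ‖L‖ ^ 2 ≤ G ^ 2 := by
    rw [Complex.sq_norm, Complex.normSq_apply, ← hl1, ← hl2]; nlinarith
  exact abs_le_of_sq_le_sq' h10 hG |>.2

/-- The weights. -/
noncomputable def om (a r : ℝ) (m : ℕ) : ℝ := ∏ j ∈ Finset.range m, ((a + j) / ((j + 1) * r))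

lemma om_pos {a r : ℝ} (ha : 0 < a) (hr : 0 < r) (m : ℕ) : 0 < om a r m := by
  apply Finset.prod_pos; intro j _; positivity

lemma om_succ {a r : ℝ} (hr : 0 < r) (m : ℕ) :
    r * ((m + 1) * om a r (m + 1)) = (a + m) * om a r m := by
  rw [om, Finset.prod_range_succ, ← om]
  have : (0 : ℝ) < m + 1 := by positivity
  field_simp

lemma energy (a : ℝ) (ha : 0 < a) (x s : ℂ) (τ : ℕ → ℂ) (h0 : τ 0 = 1)
    (h1 : (a : ℂ) * τ 1 = (a + (1 + s) * x) * τ 0)
    (hrec : ∀ k : ℕ, ((a : ℂ) + (k + 1)) * τ (k + 2) =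
      (a + (k + 1) * (1 - s) + (1 + s) * x) * τ (k + 1) + (k + 1) * s * τ k)
    (n : ℕ) (hn : τ (n + 1) = 0) (hs : s.im ≤ 0) (hs0 : s ≠ 0) (hs1 : s ≠ -1) (hx : 0 < x.im) :
    ‖x + a / 2‖ ≤ n + a / 2 := by
  obtain ⟨r, hr⟩ : ∃ r, r = ‖s‖ := ⟨_, rfl⟩
  have hr0 : 0 < r := by rw [hr]; exact norm_pos_iff.mpr hs0
  obtain ⟨z, hz⟩ : ∃ z : ℕ → ℂ, z = fun m => (((a + m) * om a r m : ℝ) : ℂ) * (τ (m + 1) * conj (τ m)) :=
    ⟨_, rfl⟩
  obtain ⟨S, hS⟩ : ∃ S : ℕ → ℂ, S = fun N => ∑ m ∈ Finset.range N, z m := ⟨_, rfl⟩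
  obtain ⟨E, hE⟩ : ∃ E : ℕ → ℝ, E = fun N => ∑ m ∈ Finset.range N, om a r m * ‖τ m‖ ^ 2 := ⟨_, rfl⟩
  obtain ⟨F, hF⟩ : ∃ F : ℕ → ℝ, F = fun N => ∑ m ∈ Finset.range N, m * (om a r m * ‖τ m‖ ^ 2) :=
    ⟨_, rfl⟩
  have hSs : ∀ N, S (N + 1) = S N + z N := fun N => by rw [hS]; exact Finset.sum_range_succ _ _
  have hEs : ∀ N, E (N + 1) = E N + om a r N * ‖τ N‖ ^ 2 := fun N => by
    rw [hE]; exact Finset.sum_range_succ _ _
  have hFs : ∀ N, F (N + 1) = F N + N * (om a r N * ‖τ N‖ ^ 2) := fun N => by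
    rw [hF]; exact Finset.sum_range_succ _ _
  have hS0 : S 0 = 0 := by rw [hS]; simp
  have hE0 : E 0 = 0 := by rw [hE]; simp
  have hF0 : F 0 = 0 := by rw [hF]; simp
  have hnorm : ∀ w : ℂ, w * conj w = ((‖w‖ ^ 2 : ℝ) : ℂ) := fun w => by
    rw [Complex.mul_conj, Complex.sq_norm]
  -- claim 1
  have c1 : ∀ N, (r : ℂ) * S (N + 1) = r * ((a + (1 + s) * x) * E (N + 1) + (1 - s) * F (N + 1)) +
      s * conj (S N) := by
    intro N
    induction N with
    | zero =>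
      have h1' : (a : ℂ) * τ 1 = a + (1 + s) * x := by rw [h1, h0, mul_one]
      have hz0 : z 0 = a + (1 + s) * x := by
        rw [← h1', hz]
        simp only [om, Finset.range_zero, Finset.prod_empty, zero_add, h0, map_one, mul_one]
        push_cast; ring
      have ho : om a r 0 = 1 := by simp [om]
      rw [hSs, hEs, hFs, hS0, hE0, hF0, hz0, ho, h0, map_zero]
      simp
    | succ N ih =>
      rw [hSs (N + 1), hEs (N + 1), hFs (N + 1)]
      have hzN : (r : ℂ) * z (N + 1) = r * ((a + (N + 1) * (1 - s) + (1 + s) * x) *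
          ((om a r (N + 1) * ‖τ (N + 1)‖ ^ 2 : ℝ) : ℂ)) + s * conj (z N) := by
        rw [hz]
        simp only [map_mul, Complex.conj_ofReal, Complex.conj_conj]
        have e1 := hrec N
        have e2 := hnorm (τ (N + 1))
        have e3 : (r : ℂ) * (((N : ℂ) + 1) * (om a r (N + 1) : ℂ)) =
            (((a + N) * om a r N : ℝ) : ℂ) := by
          rw [← om_succ hr0 N]; push_cast; ring
        push_cast at e2 e3 ⊢
        linear_combination (r : ℂ) * (om a r (N + 1) : ℂ) * conj (τ (N + 1)) * e1 +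
          (r : ℂ) * (om a r (N + 1) : ℂ) * (a + (N + 1) * (1 - s) + (1 + s) * x) * e2 +
          s * τ N * conj (τ (N + 1)) * e3
      rw [mul_add, ih, hzN, hSs N, map_add]
      push_cast
      ring
  -- claim 2
  obtain ⟨q, hq⟩ : ∃ q, q = Real.sqrt r := ⟨_, rfl⟩
  have hq0 : 0 < q := by rw [hq]; exact Real.sqrt_pos.mpr hr0
  have hq2 : q ^ 2 = r := by rw [hq]; exact Real.sq_sqrt hr0.le
  have c2 : ∀ N, ‖S N‖ ≤ q / 2 * (a * E N + F N + F (N + 1)) := by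
    intro N
    induction N with
    | zero => rw [hS0, hE0, hFs, hF0]; simp
    | succ N ih =>
      rw [hSs, hEs, hFs (N + 1), hFs N]
      rw [hFs N] at ih
      refine (norm_add_le _ _).trans ?_
      have hzn : ‖z N‖ ≤ q / 2 * ((a + N) * (om a r N * ‖τ N‖ ^ 2) +
          (N + 1) * (om a r (N + 1) * ‖τ (N + 1)‖ ^ 2)) := by
        rw [hz]
        simp only [norm_mul, Complex.norm_real, Complex.norm_conj, Real.norm_eq_abs]
        have ho := om_pos ha hr0 N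
        have ho1 := om_pos ha hr0 (N + 1)
        rw [abs_of_pos (by positivity : (0 : ℝ) < a + N), abs_of_pos ho]
        obtain ⟨u, hu⟩ : ∃ u, u = ‖τ (N + 1)‖ := ⟨_, rfl⟩
        obtain ⟨v, hv⟩ : ∃ v, v = ‖τ N‖ := ⟨_, rfl⟩
        rw [← hu, ← hv]
        have e3 := om_succ (a := a) hr0 N
        obtain ⟨κ, hκ⟩ : ∃ κ : ℝ, κ = (N + 1) * om a r (N + 1) := ⟨_, rfl⟩
        have hκ0 : 0 < κ := by rw [hκ]; positivity
        have e4 : (a + N) * om a r N = r * κ := by rw [hκ, ← e3]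
        have goal1 : q / 2 * ((a + N) * (om a r N * v ^ 2) + (N + 1) * (om a r (N + 1) * u ^ 2)) =
            q / 2 * (r * κ * v ^ 2 + κ * u ^ 2) := by
          linear_combination (q / 2 * v ^ 2) * e4 - (q / 2 * u ^ 2) * hκ
        rw [goal1, e4]
        have : 0 ≤ q * κ * (q * v - u) ^ 2 := by positivity
        have e6 : q / 2 * (r * κ * v ^ 2 + κ * u ^ 2) - r * κ * (u * v) =
            (q * κ * (q * v - u) ^ 2) / 2 := by
          rw [← hq2]; ring
        linarith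
      have e5 : (N : ℝ) + 1 = ((N + 1 : ℕ) : ℝ) := by push_cast; ring
      rw [e5] at hzn
      calc ‖S N‖ + ‖z N‖ ≤ _ := add_le_add ih hzn
        _ = _ := by push_cast; ring
  -- conclusion
  have hSn : S (n + 1) = S n := by rw [hSs, hz]; simp [hn]
  have hEpos : 0 < E (n + 1) := by
    rw [hE]
    apply Finset.sum_pos'
    · intro i _; have := om_pos ha hr0 i; positivity
    · refine ⟨0, by simp, ?_⟩
      rw [h0]; simp [om]
  have hEnn : ∀ N, 0 ≤ om a r N * ‖τ N‖ ^ 2 := fun N => by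
    have := om_pos ha hr0 N; positivity
  have hFle : ∀ N, F (N + 1) ≤ N * E (N + 1) := by
    intro N
    induction N with
    | zero => rw [hFs, hF0]; simp
    | succ N ih =>
      rw [hFs (N + 1), hEs (N + 1)]
      push_cast
      have hEp : 0 ≤ E (N + 1) := by rw [hE]; exact Finset.sum_nonneg fun i _ => hEnn i
      nlinarith
  have hFnn : ∀ N, 0 ≤ F N := fun N => by
    rw [hF]; exact Finset.sum_nonneg fun i _ => mul_nonneg (by positivity) (hEnn i)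
  obtain ⟨G, hG⟩ : ∃ G, G = a / 2 * E (n + 1) + F (n + 1) := ⟨_, rfl⟩
  have hG0 : 0 ≤ G := by rw [hG]; have := hFnn (n + 1); positivity
  have hmain := fin_ineq G hG0 ((x + a / 2) * E (n + 1)) (S n) s hs hs0 hs1 (by
    have h3 := c2 n
    rw [← hr, ← hq]
    refine h3.trans ?_
    have h4 := hEs n
    have h5 := hFs n
    have h6 := hEnn n
    rw [hG]
    have : a * E n + F n + F (n + 1) ≤ 2 * (a / 2 * E (n + 1) + F (n + 1)) := by
      have : 0 ≤ (n : ℝ) * (om a r n * ‖τ n‖ ^ 2) := by positivity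
      nlinarith
    nlinarith) (by
    rw [← hr]
    have h3 := c1 n
    rw [hSn] at h3
    rw [hG]
    push_cast
    linear_combination h3) (by
    rw [Complex.im_mul_ofReal]
    have : (x + a / 2 : ℂ).im = x.im := by
      rw [Complex.add_im]
      have : ((a : ℂ) / 2).im = 0 := by
        rw [show (a : ℂ) / 2 = ((a / 2 : ℝ) : ℂ) from by push_cast; ring]; simp
      rw [this, add_zero]
    rw [this]; positivity)
  rw [norm_mul, Complex.norm_real, Real.norm_eq_abs, abs_of_pos hEpos] at hmain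
  have h7 := hFle n
  have : ‖x + a / 2‖ * E (n + 1) ≤ (n + a / 2) * E (n + 1) := by
    rw [hG] at hmain; nlinarith
  exact le_of_mul_le_mul_right this hEpos

end V1180.Un
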