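import Mathlib
import Pool.Agent.V1180.UnB

namespace V1180.Un

open Polynomial ComplexConjugate

/-- Value at x of the basis polynomial e_k. -/
noncomputable def Ev (a : ℝ) (x : ℂ) (k : ℕ) : ℂ := ∏ j ∈ Finset.range k, ((x - j) / (a + j))

/-- The functional F ↦ P(x) where L_a(P) = F. -/
noncomputable def Lam (a : ℝ) (x : ℂ) : ℂ[X] →ₗ[ℂ] ℂ :=
  (Polynomial.basisMonomials ℂ).constr ℂ (Ev a x)

lemma Lam_pow (a : ℝ) (x : ℂ) (k : ℕ) : Lam a x (X ^ k) = Ev a x k := by
  rw [← monomial_one_right_eq_X_pow, Lam]
  have := (Polynomial.basisMonomials ℂ).constr_basis ℂ (Ev a x) k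
  rwa [coe_basisMonomials] at this

lemma apos {a : ℝ} (ha : 0 < a) (k : ℕ) : ((a : ℂ) + k) ≠ 0 := by
  intro h
  have := congrArg Complex.re h
  simp at this
  have hk : (0 : ℝ) ≤ k := by positivity
  linarith

lemma Ev_succ {a : ℝ} (ha : 0 < a) (x : ℂ) (k : ℕ) :
    ((a : ℂ) + k) * Ev a x (k + 1) = (x - k) * Ev a x k := by
  rw [Ev, Finset.prod_range_succ, ← Ev]
  have := apos ha k
  field_simp

lemma Lam_key {a : ℝ} (ha : 0 < a) (x : ℂ) (G : ℂ[X]) :
    (a : ℂ) * Lam a x (X * G) + Lam a x (X * (1 + X) * derivative G) = x * Lam a x G := by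
  induction G using Polynomial.induction_on' with
  | add p q hp hq =>
    rw [mul_add, map_add, derivative_add, mul_add (X * (1 + X)), map_add, map_add]
    linear_combination hp + hq
  | monomial n c =>
    have hmon : (monomial n c : ℂ[X]) = c • X ^ n := by rw [smul_X_eq_monomial]
    rw [hmon, mul_smul_comm c X, map_smul, derivative_smul, mul_smul_comm c (X * (1 + X)), map_smul,
      map_smul]
    simp only [smul_eq_mul]
    rcases n with _ | k
    · have e := Ev_succ ha x 0
      have h0 : Lam a x (X ^ 0) = 1 := by rw [Lam_pow]; simp [Ev]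
      have h1 : Lam a x (X * X ^ 0) = Ev a x 1 := by
        rw [pow_zero, mul_one, ← pow_one (X : ℂ[X]), Lam_pow]
      rw [h1, h0]
      have : Ev a x 0 = 1 := by simp [Ev]
      rw [this] at e
      simp at e ⊢
      linear_combination c * e
    · have e := Ev_succ ha x (k + 1)
      have h1 : Lam a x (X * X ^ (k + 1)) = Ev a x (k + 2) := by
        rw [← pow_succ', Lam_pow]
      have h2 : Lam a x (X * (1 + X) * derivative (X ^ (k + 1))) =
          (k + 1 : ℂ) * (Ev a x (k + 1) + Ev a x (k + 2)) := by
        rw [derivative_X_pow, show X * (1 + X) * (C ((k + 1 : ℕ) : ℂ) * X ^ (k + 1 - 1)) =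
          ((k + 1 : ℕ) : ℂ) • (X ^ (k + 1) + X ^ (k + 2) : ℂ[X]) from by
            rw [smul_eq_C_mul, Nat.add_sub_cancel]; ring]
        rw [map_smul, map_add, Lam_pow, Lam_pow, smul_eq_mul]; push_cast; ring
      rw [h1, h2, Lam_pow]
      push_cast at e
      linear_combination c * e

/-- τ_m(s) -/
noncomputable def tau (a : ℝ) (x s : ℂ) (m : ℕ) : ℂ := Lam a x ((1 + C (1 + s) * X) ^ m)

lemma tau_zero (a : ℝ) (x s : ℂ) : tau a x s 0 = 1 := by
  have := Lam_pow a x 0
  rw [tau]; rw [pow_zero] at this ⊢; rw [this]; simp [Ev]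

lemma tau_one {a : ℝ} (ha : 0 < a) (x s : ℂ) :
    (a : ℂ) * tau a x s 1 = (a + (1 + s) * x) * tau a x s 0 := by
  have h0 : Lam a x 1 = 1 := by have := tau_zero a x s; rwa [tau, pow_zero] at this
  have h1 : Lam a x X = Ev a x 1 := by have := Lam_pow a x 1; rwa [pow_one] at this
  have e := Ev_succ ha x 0
  have : Ev a x 0 = 1 := by simp [Ev]
  rw [this] at e
  rw [tau_zero, tau, pow_one, map_add, h0, ← smul_eq_C_mul, map_smul, h1, smul_eq_mul]
  simp at e
  linear_combination (1 + s) * e

lemma tau_rec {a : ℝ} (ha : 0 < a) (x s : ℂ) (k : ℕ) :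
    ((a : ℂ) + (k + 1)) * tau a x s (k + 2) =
      (a + (k + 1) * (1 - s) + (1 + s) * x) * tau a x s (k + 1) + (k + 1) * s * tau a x s k := by
  have key := Lam_key ha x ((1 + C (1 + s) * X) ^ (k + 1))
  rw [show Lam a x ((1 + C (1 + s) * X) ^ (k + 1)) = tau a x s (k + 1) from rfl] at key
  have e1 : (1 + s) * Lam a x (X * (1 + C (1 + s) * X) ^ (k + 1)) =
      tau a x s (k + 2) - tau a x s (k + 1) := by
    rw [tau, tau, ← map_sub, ← smul_eq_mul, ← map_smul, smul_eq_C_mul]
    congr 1; ring
  have e2 : (1 + s) * Lam a x (X * (1 + X) * derivative ((1 + C (1 + s) * X) ^ (k + 1))) =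
      (k + 1 : ℂ) * (tau a x s (k + 2) + (s - 1) * tau a x s (k + 1) - s * tau a x s k) := by
    have hd : derivative ((1 + C (1 + s) * X : ℂ[X]) ^ (k + 1)) =
        C ((k + 1 : ℂ)) * (1 + C (1 + s) * X) ^ k * C (1 + s) := by
      rw [derivative_pow_succ]
      simp
    rw [hd]
    simp only [tau]
    rw [← smul_eq_mul (1 + s), ← map_smul, ← smul_eq_mul (s - 1), ← map_smul,
      ← smul_eq_mul s (Lam a x _), ← map_smul, ← map_add, ← map_sub,
      ← smul_eq_mul (k + 1 : ℂ), ← map_smul]
    congr 1
    simp only [smul_eq_C_mul, C_add, C_sub, C_1]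
    ring
  linear_combination (1 + s) * key - (a : ℂ) * e1 - e2

lemma Lam_XY {a : ℝ} (ha : 0 < a) (x : ℂ) (i : ℕ) : ∀ j : ℕ,
    Lam a x (X ^ j * (1 + X) ^ i) * (∏ l ∈ Finset.range (j + i), ((a : ℂ) + l)) =
      (∏ l ∈ Finset.range j, (x - l)) * ∏ l ∈ Finset.range i, (x + a + l) := by
  induction i with
  | zero =>
    intro j
    rw [pow_zero, mul_one, Lam_pow, Ev, add_zero, Finset.range_zero, Finset.prod_empty, mul_one,
      ← Finset.prod_mul_distrib]
    exact Finset.prod_congr rfl fun l _ => div_mul_cancel₀ _ (apos ha l)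
  | succ i ih =>
    intro j
    have h1 := ih j
    have h2 := ih (j + 1)
    rw [show j + 1 + i = (j + i) + 1 from by ring] at h2
    rw [show j + (i + 1) = (j + i) + 1 from by ring]
    rw [Finset.prod_range_succ _ (j + i)] at h2 ⊢
    rw [Finset.prod_range_succ _ j] at h2
    rw [Finset.prod_range_succ _ i]
    have hp : (X ^ j * (1 + X) ^ (i + 1) : ℂ[X]) = X ^ j * (1 + X) ^ i + X ^ (j + 1) * (1 + X) ^ i := by
      ring
    rw [hp, map_add]
    push_cast at h2 ⊢
    linear_combination ((a : ℂ) + (j + i)) * h1 + h2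

/-- complex points outside the disc -/
lemma nonzero_im {a : ℝ} (ha : 0 < a) (n : ℕ) (x : ℂ) (hx : 0 < x.im)
    (hout : n + a / 2 < ‖x + a / 2‖) (T : Multiset ℝ) (hT : T.card = n + 1) :
    Lam a x (T.map fun t : ℝ => X + C (t : ℂ)).prod ≠ 0 := by
  apply grace
  · intro s hs
    rw [hT]
    change tau a x s (n + 1) ≠ 0
    by_cases hs0 : s = 0
    · subst hs0
      have hne : ∀ k : ℕ, (a : ℂ) + k + x ≠ 0 := by
        intro k h
        have := congrArg Complex.im h
        simp at this
        linarith
      have : ∀ m : ℕ, tau a x 0 m ≠ 0 ∧ tau a x 0 (m + 1) ≠ 0 := by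
        intro m
        induction m with
        | zero =>
          refine ⟨by rw [tau_zero]; exact one_ne_zero, ?_⟩
          have h := tau_one ha x 0
          intro h1
          rw [zero_add] at h1
          rw [h1, tau_zero] at h
          have := hne 0
          apply this
          simp at h ⊢
          linear_combination -h
        | succ m ih =>
          refine ⟨ih.2, ?_⟩
          have h := tau_rec ha x 0 m
          intro h1
          rw [show m + 1 + 1 = m + 2 from rfl] at h1
          rw [h1] at h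
          have := mul_ne_zero (hne (m + 1)) ih.2
          apply this
          push_cast
          linear_combination -h
      exact (this n).2
    · by_cases hs1 : s = -1
      · subst hs1
        have : tau a x (-1) (n + 1) = 1 := by
          have h0 := tau_zero a x (-1)
          rw [tau] at h0 ⊢
          rw [← h0]
          congr 1
          simp
        rw [this]; exact one_ne_zero
      · intro h0
        have := energy a ha x s (tau a x s) (tau_zero a x s) (tau_one ha x s)
          (fun k => tau_rec ha x s k) n h0 hs hs0 hs1 hx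
        linarith
  · rw [hT, Lam_pow, Ev, Finset.prod_ne_zero_iff]
    intro j _
    apply div_ne_zero _ (apos ha j)
    intro h
    have := congrArg Complex.im h
    simp at this
    linarith

/-- real points outside the disc -/
lemma nonzero_real {a : ℝ} (ha : 0 < a) (n : ℕ) (y : ℝ)
    (hout : (n : ℝ) < y ∨ y < -(a + n)) (T : Multiset ℝ) (hT : T.card = n + 1)
    (hT1 : ∀ t ∈ T, 0 ≤ t ∧ t ≤ 1) :
    Lam a y (T.map fun t : ℝ => X + C (t : ℂ)).prod ≠ 0 := by
  have main : ∃ c : ℝ, 0 < c * (Lam a y (T.map fun t : ℝ => X + C (t : ℂ)).prod).re := by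
    have hform : ∀ j i : ℕ, (Lam a y (X ^ j * (1 + X) ^ i)).re =
        ((∏ l ∈ Finset.range j, (y - l)) * ∏ l ∈ Finset.range i, (y + a + l)) /
          (∏ l ∈ Finset.range (j + i), (a + (l : ℝ))) := by
      intro j i
      have h := Lam_XY ha (y : ℂ) i j
      have hp : (∏ l ∈ Finset.range (j + i), ((a : ℂ) + l)) ≠ 0 := by
        rw [Finset.prod_ne_zero_iff]; intro l _; exact apos ha l
      rw [← eq_div_iff hp] at h
      rw [h]
      have : ((∏ l ∈ Finset.range j, ((y : ℂ) - l)) * ∏ l ∈ Finset.range i, ((y : ℂ) + a + l)) /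
          (∏ l ∈ Finset.range (j + i), ((a : ℂ) + l)) =
          (((∏ l ∈ Finset.range j, (y - l)) * ∏ l ∈ Finset.range i, (y + a + l)) /
          (∏ l ∈ Finset.range (j + i), (a + (l : ℝ))) : ℝ) := by push_cast; rfl
      rw [this, Complex.ofReal_re]
    rcases hout with h | h
    · refine ⟨1, grace_real T hT1 1 _ ?_⟩
      intro j hj
      rw [hform, one_mul]
      rw [hT] at hj ⊢
      apply div_pos
      · apply mul_pos
        · apply Finset.prod_pos
          intro l hl
          have hl' := Finset.mem_range.mp hl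
          have : (l : ℝ) ≤ n := by exact_mod_cast (by omega : l ≤ n)
          linarith
        · apply Finset.prod_pos
          intro l hl
          have : (0 : ℝ) ≤ l := by positivity
          have : (0 : ℝ) ≤ n := by positivity
          linarith
      · apply Finset.prod_pos; intro l _; positivity
    · refine ⟨(-1) ^ (n + 1), grace_real T hT1 _ _ ?_⟩
      intro j hj
      rw [hform]
      rw [hT] at hj ⊢
      have e : ((-1 : ℝ)) ^ (n + 1) * (((∏ l ∈ Finset.range j, (y - l)) *
          ∏ l ∈ Finset.range (n + 1 - j), (y + a + l)) /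
          (∏ l ∈ Finset.range (j + (n + 1 - j)), (a + (l : ℝ)))) =
          ((∏ l ∈ Finset.range j, (-(y - l))) * ∏ l ∈ Finset.range (n + 1 - j), (-(y + a + l))) /
          (∏ l ∈ Finset.range (j + (n + 1 - j)), (a + (l : ℝ))) := by
        rw [Finset.prod_neg, Finset.prod_neg, Finset.card_range, Finset.card_range]
        have : ((-1 : ℝ)) ^ (n + 1) = (-1) ^ j * (-1) ^ (n + 1 - j) := by
          rw [← pow_add]; congr 1; omega
        rw [this]; ring
      rw [e]
      apply div_pos
      · apply mul_pos
        · apply Finset.prod_pos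
          intro l hl
          have : (0 : ℝ) ≤ l := by positivity
          have : (0 : ℝ) ≤ n := by positivity
          linarith
        · apply Finset.prod_pos
          intro l hl
          have hl' := Finset.mem_range.mp hl
          have : (l : ℝ) ≤ n := by exact_mod_cast (by omega : l ≤ n)
          linarith
      · apply Finset.prod_pos; intro l _; positivity
  obtain ⟨c, hc⟩ := main
  intro h
  rw [h] at hc
  simp at hc

end V1180.Un
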