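import Pool.Agent.V1180.Bub

set_option autoImplicit false

/-! Weak derivatives of radial functions in `R^3` with a mild singularity at the origin. -/

open Set Filter Topology MeasureTheory Metric
open scoped ContDiff ENNReal

namespace Pool.Agent.V1180.Rad3

open Pool.Agent.V1180.Bub

/-- radial profile as a function of `|x|²` -/
structure Prof (w w1 w2 : ℝ → ℝ) : Prop where
  hd1 : ∀ t, 0 < t → HasDerivAt w (w1 t) t
  hd2 : ∀ t, 0 < t → HasDerivAt w1 (w2 t) t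
  hc2 : ∀ t, 0 < t → ContinuousAt w2 t
  bd : ∀ T, 0 < T → ∃ D, 0 ≤ D ∧ ∀ t, 0 < t → t ≤ T →
    |w t| ≤ D ∧ |w1 t| ≤ D / √t ∧ |w2 t| ≤ D / (t * √t)

/-- test functions -/
def Test (η : Vec 3 → ℝ) : Prop := ContDiff ℝ ∞ η ∧ HasCompactSupport η

theorem pd_cont {η : Vec 3 → ℝ} (hη : Test η) (i : Fin 3) : Continuous (pd i η) := by
  have h1 : ContDiff ℝ ∞ (fderiv ℝ η) := hη.1.fderiv_right (by simp)
  exact (h1.clm_apply contDiff_const).continuous

theorem pd_comp {η : Vec 3 → ℝ} (hη : Test η) (i : Fin 3) : HasCompactSupport (pd i η) :=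
  (hη.2.fderiv (𝕜 := ℝ)).comp_left (g := fun L : Vec 3 →L[ℝ] ℝ =>
    L (EuclideanSpace.single i 1)) (by simp)

theorem ibp {f : Vec 3 → ℝ} {η : Vec 3 → ℝ} (hη : Test η) (i : Fin 3)
    (hf : Differentiable ℝ f) (hf' : Continuous (pd i f)) :
    ∫ x, f x * pd i η x = - ∫ x, pd i f x * η x := by
  exact integral_mul_fderiv_eq_neg_fderiv_mul_of_integrable (μ := volume)
    (f := f) (g := η) (v := EuclideanSpace.single i 1)
    ((hf'.mul hη.1.continuous).integrable_of_hasCompactSupport hη.2.mul_left)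
    ((hf.continuous.mul (pd_cont hη i)).integrable_of_hasCompactSupport (pd_comp hη i).mul_left)
    ((hf.continuous.mul hη.1.continuous).integrable_of_hasCompactSupport hη.2.mul_left)
    (fun x _ => hf x) (fun x _ => hη.1.differentiable (by simp) x)

section Gen

variable {E : Type*} [NormedAddCommGroup E] [InnerProductSpace ℝ E]

/-- derivative of `u(|x|² + ε)` -/
theorem fderiv_rad {u u' : ℝ → ℝ} {ε : ℝ} (hε : 0 < ε)
    (hu : ∀ t, 0 < t → HasDerivAt u (u' t) t) (x : E) :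
    DifferentiableAt ℝ (fun x : E => u (‖x‖ ^ 2 + ε)) x ∧
    ∀ v, fderiv ℝ (fun x : E => u (‖x‖ ^ 2 + ε)) x v = u' (‖x‖ ^ 2 + ε) * (2 * inner ℝ x v) := by
  have h1 : HasFDerivAt (fun x : E => ‖x‖ ^ 2 + ε) (2 • innerSL ℝ x) x := by
    have := (hasFDerivAt_id x).norm_sq.add_const ε
    simpa using this
  have hpos : 0 < ‖x‖ ^ 2 + ε := by positivity
  have h2 := (hu _ hpos).comp_hasFDerivAt x h1
  refine ⟨h2.differentiableAt, fun v => ?_⟩
  have h3 := h2.fderiv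
  have h4 : (u ∘ fun x : E => ‖x‖ ^ 2 + ε) = fun x : E => u (‖x‖ ^ 2 + ε) := rfl
  rw [h4] at h3
  rw [h3]
  simp

end Gen

variable {w w1 w2 : ℝ → ℝ}

theorem comp_cont {u : ℝ → ℝ} {ε : ℝ} (hε : 0 < ε) (hu : ∀ t, 0 < t → ContinuousAt u t) :
    Continuous (fun x : Vec 3 => u (‖x‖ ^ 2 + ε)) := by
  rw [continuous_iff_continuousAt]
  intro x
  have h1 : ContinuousAt (fun x : Vec 3 => ‖x‖ ^ 2 + ε) x := by fun_prop
  exact ContinuousAt.comp (hu _ (by positivity)) h1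

theorem pd_rad {u u' : ℝ → ℝ} {ε : ℝ} (hε : 0 < ε)
    (hu : ∀ t, 0 < t → HasDerivAt u (u' t) t) (i : Fin 3) (x : Vec 3) :
    pd i (fun x : Vec 3 => u (‖x‖ ^ 2 + ε)) x = 2 * x i * u' (‖x‖ ^ 2 + ε) := by
  unfold pd
  rw [(fderiv_rad hε hu x).2, EuclideanSpace.inner_single_right]
  simp
  ring

theorem coord_cont (i : Fin 3) : Continuous (fun x : Vec 3 => x i) :=
  (EuclideanSpace.proj i : Vec 3 →L[ℝ] ℝ).continuous

/-- first identity, regularised -/
theorem id1_eps (hp : Prof w w1 w2) {ε : ℝ} (hε : 0 < ε) {η : Vec 3 → ℝ} (hη : Test η)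
    (i : Fin 3) : ∫ x : Vec 3, w (‖x‖ ^ 2 + ε) * pd i η x =
      - ∫ x : Vec 3, (2 * x i * w1 (‖x‖ ^ 2 + ε)) * η x := by
  have h1 := ibp (f := fun x : Vec 3 => w (‖x‖ ^ 2 + ε)) hη i
    (fun x => (fderiv_rad hε hp.hd1 x).1) (by
      have : pd i (fun x : Vec 3 => w (‖x‖ ^ 2 + ε)) =
          fun x : Vec 3 => 2 * x i * w1 (‖x‖ ^ 2 + ε) := by
        ext x; exact pd_rad hε hp.hd1 i x
      rw [this]
      exact (continuous_const.mul (coord_cont i)).mul
        (comp_cont hε fun t ht => (hp.hd2 t ht).continuousAt))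
  rw [h1]
  congr 2
  ext x
  rw [pd_rad hε hp.hd1 i x]

/-- second identity, regularised -/
theorem id2_eps (hp : Prof w w1 w2) {ε : ℝ} (hε : 0 < ε) {η : Vec 3 → ℝ} (hη : Test η) :
    ∑ i, ∫ x : Vec 3, (2 * x i * w1 (‖x‖ ^ 2 + ε)) * pd i η x =
      - ∫ x : Vec 3, (6 * w1 (‖x‖ ^ 2 + ε) + 4 * ‖x‖ ^ 2 * w2 (‖x‖ ^ 2 + ε)) * η x := by
  have hpd : ∀ (i : Fin 3) (x : Vec 3), pd i (fun x : Vec 3 => 2 * x i * w1 (‖x‖ ^ 2 + ε)) x =
      2 * w1 (‖x‖ ^ 2 + ε) + 4 * (x i) ^ 2 * w2 (‖x‖ ^ 2 + ε) := by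
    intro i x
    have hd1 : DifferentiableAt ℝ (fun x : Vec 3 => 2 * x i) x := by
      have : DifferentiableAt ℝ (EuclideanSpace.proj i : Vec 3 →L[ℝ] ℝ) x :=
        ContinuousLinearMap.differentiableAt _
      exact this.const_mul 2
    have hd2 := (fderiv_rad (E := Vec 3) hε hp.hd2 x).1
    have h1 := fderiv_mul_apply hd1 hd2 (EuclideanSpace.single i 1)
    have h2 : fderiv ℝ (fun x : Vec 3 => 2 * x i) x (EuclideanSpace.single i 1) = 2 := by
      have h3 := pd_coord (0 : Vec 3) x i i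
      unfold pd at h3
      simp only [PiLp.zero_apply, sub_zero, if_true] at h3
      have hd3 : DifferentiableAt ℝ (fun x : Vec 3 => x i) x := by
        have : DifferentiableAt ℝ (EuclideanSpace.proj i : Vec 3 →L[ℝ] ℝ) x :=
          ContinuousLinearMap.differentiableAt _
        exact this
      rw [fderiv_const_mul hd3]
      simp only [smul_apply, h3]
      simp
    have h4 := pd_rad hε hp.hd2 i x
    unfold pd at h4 ⊢
    rw [h1, h2, h4]
    ring
  have hdiff : ∀ i : Fin 3, Differentiable ℝ (fun x : Vec 3 => 2 * x i * w1 (‖x‖ ^ 2 + ε)) := by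
    intro i x
    have hd1 : DifferentiableAt ℝ (fun x : Vec 3 => 2 * x i) x := by
      have : DifferentiableAt ℝ (EuclideanSpace.proj i : Vec 3 →L[ℝ] ℝ) x :=
        ContinuousLinearMap.differentiableAt _
      exact this.const_mul 2
    exact hd1.mul (fderiv_rad (E := Vec 3) hε hp.hd2 x).1
  have hcw1 : Continuous (fun x : Vec 3 => w1 (‖x‖ ^ 2 + ε)) :=
    comp_cont hε fun t ht => (hp.hd2 t ht).continuousAt
  have hcw2 : Continuous (fun x : Vec 3 => w2 (‖x‖ ^ 2 + ε)) := comp_cont hε hp.hc2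
  have hc : ∀ i : Fin 3, Continuous (fun x : Vec 3 => 2 * w1 (‖x‖ ^ 2 + ε) +
      4 * (x i) ^ 2 * w2 (‖x‖ ^ 2 + ε)) := by
    intro i
    exact (continuous_const.mul hcw1).add
      ((continuous_const.mul ((coord_cont i).pow 2)).mul hcw2)
  have h1 : ∀ i : Fin 3, ∫ x : Vec 3, (2 * x i * w1 (‖x‖ ^ 2 + ε)) * pd i η x =
      - ∫ x : Vec 3, (2 * w1 (‖x‖ ^ 2 + ε) + 4 * (x i) ^ 2 * w2 (‖x‖ ^ 2 + ε)) * η x := by
    intro i
    have h2 := ibp (f := fun x : Vec 3 => 2 * x i * w1 (‖x‖ ^ 2 + ε)) hη i (hdiff i) (by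
      have : pd i (fun x : Vec 3 => 2 * x i * w1 (‖x‖ ^ 2 + ε)) =
          fun x : Vec 3 => 2 * w1 (‖x‖ ^ 2 + ε) + 4 * (x i) ^ 2 * w2 (‖x‖ ^ 2 + ε) := by
        ext x; exact hpd i x
      rw [this]
      exact hc i)
    rw [h2]
    congr 2
    ext x
    rw [hpd]
  simp_rw [h1]
  rw [Finset.sum_neg_distrib, ← integral_finsetSum]
  · congr 2
    ext x
    rw [Fin.sum_univ_three]
    have hn : ‖x‖ ^ 2 = (x 0) ^ 2 + (x 1) ^ 2 + (x 2) ^ 2 := by
      rw [EuclideanSpace.norm_sq_eq, Fin.sum_univ_three]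
      simp
    have hn' : 4 * ‖x‖ ^ 2 * w2 (‖x‖ ^ 2 + ε) * η x =
        4 * ((x 0) ^ 2 + (x 1) ^ 2 + (x 2) ^ 2) * w2 (‖x‖ ^ 2 + ε) * η x := by rw [← hn]
    linear_combination -hn'
  · intro i _
    exact ((hc i).mul hη.1.continuous).integrable_of_hasCompactSupport hη.2.mul_left

/-- `|x|^{-1}` is locally integrable -/
theorem inv_norm_int (R : ℝ) : IntegrableOn (fun x : Vec 3 => ‖x‖⁻¹) (ball 0 R) := by
  have h := (integrableOn_fun_norm_addHaar (E := Vec 3) (volume : Measure (Vec 3))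
    (f := fun y : ℝ => y⁻¹) (r := R)).2
  apply h
  have h1 : IntegrableOn (fun y : ℝ => y) (Ioo 0 R) :=
    (continuous_id.continuousOn.integrableOn_compact isCompact_Icc).mono_set Ioo_subset_Icc_self
  refine h1.congr_fun ?_ measurableSet_Ioo
  intro y hy
  have : y ≠ 0 := hy.1.ne'
  simp
  field_simp

theorem inv_norm_mul {f : Vec 3 → ℝ} (hf : Continuous f) (hc : HasCompactSupport f) :
    Integrable (fun x : Vec 3 => ‖x‖⁻¹ * f x) := by
  obtain ⟨C, hC⟩ := hc.exists_bound_of_continuous hf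
  obtain ⟨R, hR⟩ := hc.isBounded.subset_ball 0
  have h1 : IntegrableOn (fun x : Vec 3 => ‖x‖⁻¹ * f x) (ball 0 R) :=
    (inv_norm_int R).mul_bdd (c := C) hf.aestronglyMeasurable (ae_of_all _ hC)
  refine (integrableOn_iff_integrable_of_support_subset ?_).1 h1
  intro x hx
  have : f x ≠ 0 := fun h => hx (by simp [h])
  exact hR (subset_tsupport _ this)

theorem ae_ne_zero : ∀ᵐ x : Vec 3, x ≠ 0 := by
  rw [ae_iff]
  simp

theorem eps_lim (x : Vec 3) : Tendsto (fun k : ℕ => ‖x‖ ^ 2 + 1 / ((k:ℝ) + 1)) atTop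
    (𝓝 (‖x‖ ^ 2)) := by
  have := (tendsto_one_div_add_atTop_nhds_zero_nat (𝕜 := ℝ)).const_add (‖x‖ ^ 2)
  simpa using this

theorem eps_le (k : ℕ) : 0 < 1 / ((k:ℝ) + 1) ∧ 1 / ((k:ℝ) + 1) ≤ 1 := by
  constructor
  · positivity
  · rw [div_le_one (by positivity)]
    have : (0:ℝ) ≤ k := Nat.cast_nonneg k
    linarith

/-- bounds for `x` in a ball -/
theorem bounds (hp : Prof w w1 w2) (R : ℝ) : ∃ D, 0 ≤ D ∧ ∀ (ε : ℝ) (x : Vec 3), 0 < ε → ε ≤ 1 →
    ‖x‖ ≤ R → |w (‖x‖ ^ 2 + ε)| ≤ D ∧ (∀ i, |2 * x i * w1 (‖x‖ ^ 2 + ε)| ≤ 2 * D) ∧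
      (x ≠ 0 → |6 * w1 (‖x‖ ^ 2 + ε) + 4 * ‖x‖ ^ 2 * w2 (‖x‖ ^ 2 + ε)| ≤ 10 * D * ‖x‖⁻¹) := by
  obtain ⟨D, hD, hb⟩ := hp.bd (R ^ 2 + 1) (by positivity)
  refine ⟨D, hD, fun ε x hε hε1 hx => ?_⟩
  have hR : 0 ≤ R := (norm_nonneg _).trans hx
  set τ := ‖x‖ ^ 2 + ε with hτ
  have hτ0 : 0 < τ := by positivity
  have hτT : τ ≤ R ^ 2 + 1 := by
    have : ‖x‖ ^ 2 ≤ R ^ 2 := by gcongr
    linarith
  obtain ⟨b0, b1, b2⟩ := hb τ hτ0 hτT
  have hs : ‖x‖ ≤ √τ := by
    apply Real.le_sqrt_of_sq_le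
    linarith
  have hs0 : 0 < √τ := Real.sqrt_pos.2 hτ0
  refine ⟨b0, fun i => ?_, fun hx0 => ?_⟩
  · have hi : |x i| ≤ ‖x‖ := by
      have := PiLp.norm_apply_le x i
      simpa using this
    rw [abs_mul, abs_mul, abs_of_pos (by norm_num : (0:ℝ) < 2)]
    calc 2 * |x i| * |w1 τ| ≤ 2 * √τ * (D / √τ) := by
          gcongr
          exact hi.trans hs
      _ = 2 * D := by field_simp
  · have hx1 : 0 < ‖x‖ := norm_pos_iff.2 hx0
    have h1 : D / √τ ≤ D * ‖x‖⁻¹ := by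
      rw [div_eq_mul_inv]; gcongr
    have h2 : ‖x‖ ^ 2 * |w2 τ| ≤ D * ‖x‖⁻¹ := by
      calc ‖x‖ ^ 2 * |w2 τ| ≤ τ * (D / (τ * √τ)) := by
            gcongr; linarith
        _ = D / √τ := by field_simp
        _ ≤ _ := h1
    calc |6 * w1 τ + 4 * ‖x‖ ^ 2 * w2 τ| ≤ |6 * w1 τ| + |4 * ‖x‖ ^ 2 * w2 τ| := abs_add_le _ _
      _ = 6 * |w1 τ| + 4 * (‖x‖ ^ 2 * |w2 τ|) := by
          rw [abs_mul, abs_mul, abs_of_pos (by norm_num : (0:ℝ) < 6),
            abs_of_nonneg (by positivity : 0 ≤ 4 * ‖x‖ ^ 2)]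
          ring
      _ ≤ 6 * (D * ‖x‖⁻¹) + 4 * (D * ‖x‖⁻¹) := by
          gcongr
          exact b1.trans h1
      _ = _ := by ring

theorem supp_norm {f : Vec 3 → ℝ} {R : ℝ} (hR : tsupport f ⊆ ball 0 R) {x : Vec 3}
    (hx : f x ≠ 0) : ‖x‖ ≤ R := by
  have := hR (subset_tsupport _ hx)
  rw [mem_ball_zero_iff] at this
  exact this.le

/-- first identity -/
theorem id1 (hp : Prof w w1 w2) {η : Vec 3 → ℝ} (hη : Test η) (i : Fin 3) :
    ∫ x : Vec 3, w (‖x‖ ^ 2) * pd i η x = - ∫ x : Vec 3, (2 * x i * w1 (‖x‖ ^ 2)) * η x := by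
  obtain ⟨R, hR⟩ := hη.2.isBounded.subset_ball 0
  have hR' : tsupport (pd i η) ⊆ ball 0 R := by
    refine (closure_mono ?_).trans ((tsupport_fderiv_subset ℝ).trans hR)
    intro x hx h
    apply hx
    unfold pd
    rw [h]; rfl
  obtain ⟨D, hD, hb⟩ := bounds hp R
  have L1 : Tendsto (fun k : ℕ => ∫ x : Vec 3, w (‖x‖ ^ 2 + 1 / ((k:ℝ) + 1)) * pd i η x) atTop
      (𝓝 (∫ x : Vec 3, w (‖x‖ ^ 2) * pd i η x)) := by
    apply tendsto_integral_of_dominated_convergence (fun x => D * |pd i η x|)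
    · intro k
      exact ((comp_cont (eps_le k).1 fun t ht => (hp.hd1 t ht).continuousAt).mul
        (pd_cont hη i)).aestronglyMeasurable
    · exact (((pd_cont hη i).integrable_of_hasCompactSupport (pd_comp hη i)).abs).const_mul D
    · intro k
      refine ae_of_all _ fun x => ?_
      rw [norm_mul, Real.norm_eq_abs, Real.norm_eq_abs]
      by_cases hx : pd i η x = 0
      · simp [hx]
      · exact mul_le_mul_of_nonneg_right
          (hb _ x (eps_le k).1 (eps_le k).2 (supp_norm hR' hx)).1 (abs_nonneg _)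
    · filter_upwards [ae_ne_zero] with x hx
      have hpos : 0 < ‖x‖ ^ 2 := by have := norm_pos_iff.2 hx; positivity
      exact (((hp.hd1 _ hpos).continuousAt.tendsto.comp (eps_lim x))).mul_const _
  have L2 : Tendsto (fun k : ℕ => ∫ x : Vec 3, (2 * x i * w1 (‖x‖ ^ 2 + 1 / ((k:ℝ) + 1))) * η x)
      atTop (𝓝 (∫ x : Vec 3, (2 * x i * w1 (‖x‖ ^ 2)) * η x)) := by
    apply tendsto_integral_of_dominated_convergence (fun x => 2 * D * |η x|)
    · intro k
      exact (((continuous_const.mul (coord_cont i)).mul (comp_cont (eps_le k).1 fun t ht =>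
        (hp.hd2 t ht).continuousAt)).mul hη.1.continuous).aestronglyMeasurable
    · exact ((hη.1.continuous.integrable_of_hasCompactSupport hη.2).abs).const_mul _
    · intro k
      refine ae_of_all _ fun x => ?_
      rw [norm_mul, Real.norm_eq_abs, Real.norm_eq_abs]
      by_cases hx : η x = 0
      · simp [hx]
      · exact mul_le_mul_of_nonneg_right
          ((hb _ x (eps_le k).1 (eps_le k).2 (supp_norm hR hx)).2.1 i) (abs_nonneg _)
    · filter_upwards [ae_ne_zero] with x hx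
      have hpos : 0 < ‖x‖ ^ 2 := by have := norm_pos_iff.2 hx; positivity
      exact ((((hp.hd2 _ hpos).continuousAt.tendsto.comp (eps_lim x))).const_mul _).mul_const _
  refine tendsto_nhds_unique L1 ?_
  refine L2.neg.congr fun k => ?_
  rw [id1_eps hp (eps_le k).1 hη i]

/-- second identity -/
theorem id2 (hp : Prof w w1 w2) {η : Vec 3 → ℝ} (hη : Test η) :
    ∑ i, ∫ x : Vec 3, (2 * x i * w1 (‖x‖ ^ 2)) * pd i η x =
      - ∫ x : Vec 3, (6 * w1 (‖x‖ ^ 2) + 4 * ‖x‖ ^ 2 * w2 (‖x‖ ^ 2)) * η x := by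
  obtain ⟨R, hR⟩ := hη.2.isBounded.subset_ball 0
  have hR' : ∀ i, tsupport (pd i η) ⊆ ball 0 R := by
    intro i
    refine (closure_mono ?_).trans ((tsupport_fderiv_subset ℝ).trans hR)
    intro x hx h
    apply hx
    unfold pd
    rw [h]; rfl
  obtain ⟨D, hD, hb⟩ := bounds hp R
  have L1 : ∀ i, Tendsto (fun k : ℕ => ∫ x : Vec 3, (2 * x i * w1 (‖x‖ ^ 2 + 1 / ((k:ℝ) + 1))) *
      pd i η x) atTop (𝓝 (∫ x : Vec 3, (2 * x i * w1 (‖x‖ ^ 2)) * pd i η x)) := by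
    intro i
    apply tendsto_integral_of_dominated_convergence (fun x => 2 * D * |pd i η x|)
    · intro k
      exact (((continuous_const.mul (coord_cont i)).mul (comp_cont (eps_le k).1 fun t ht =>
        (hp.hd2 t ht).continuousAt)).mul (pd_cont hη i)).aestronglyMeasurable
    · exact (((pd_cont hη i).integrable_of_hasCompactSupport (pd_comp hη i)).abs).const_mul _
    · intro k
      refine ae_of_all _ fun x => ?_
      rw [norm_mul, Real.norm_eq_abs, Real.norm_eq_abs]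
      by_cases hx : pd i η x = 0
      · simp [hx]
      · exact mul_le_mul_of_nonneg_right
          ((hb _ x (eps_le k).1 (eps_le k).2 (supp_norm (hR' i) hx)).2.1 i) (abs_nonneg _)
    · filter_upwards [ae_ne_zero] with x hx
      have hpos : 0 < ‖x‖ ^ 2 := by have := norm_pos_iff.2 hx; positivity
      exact ((((hp.hd2 _ hpos).continuousAt.tendsto.comp (eps_lim x))).const_mul _).mul_const _
  have L2 : Tendsto (fun k : ℕ => ∫ x : Vec 3, (6 * w1 (‖x‖ ^ 2 + 1 / ((k:ℝ) + 1)) +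
      4 * ‖x‖ ^ 2 * w2 (‖x‖ ^ 2 + 1 / ((k:ℝ) + 1))) * η x)
      atTop (𝓝 (∫ x : Vec 3, (6 * w1 (‖x‖ ^ 2) + 4 * ‖x‖ ^ 2 * w2 (‖x‖ ^ 2)) * η x)) := by
    have hdom : Integrable (fun x : Vec 3 => 10 * D * (‖x‖⁻¹ * |η x|)) :=
      (inv_norm_mul hη.1.continuous.abs hη.2.abs).const_mul _
    apply tendsto_integral_of_dominated_convergence (fun x => 10 * D * (‖x‖⁻¹ * |η x|))
    · intro k
      have c1 : Continuous (fun x : Vec 3 => w1 (‖x‖ ^ 2 + 1 / ((k:ℝ) + 1))) :=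
        comp_cont (eps_le k).1 fun t ht => (hp.hd2 t ht).continuousAt
      have c2 : Continuous (fun x : Vec 3 => w2 (‖x‖ ^ 2 + 1 / ((k:ℝ) + 1))) :=
        comp_cont (eps_le k).1 hp.hc2
      have c3 : Continuous (fun x : Vec 3 => 4 * ‖x‖ ^ 2) := by fun_prop
      exact (((continuous_const.mul c1).add (c3.mul c2)).mul
        hη.1.continuous).aestronglyMeasurable
    · exact hdom
    · intro k
      filter_upwards [ae_ne_zero] with x hx0
      rw [norm_mul, Real.norm_eq_abs, Real.norm_eq_abs]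
      by_cases hx : η x = 0
      · simp [hx]
      · have := (hb _ x (eps_le k).1 (eps_le k).2 (supp_norm hR hx)).2.2 hx0
        calc _ ≤ 10 * D * ‖x‖⁻¹ * |η x| := mul_le_mul_of_nonneg_right this (abs_nonneg _)
          _ = _ := by ring
    · filter_upwards [ae_ne_zero] with x hx
      have hpos : 0 < ‖x‖ ^ 2 := by have := norm_pos_iff.2 hx; positivity
      exact (((((hp.hd2 _ hpos).continuousAt.tendsto.comp (eps_lim x))).const_mul _).add
        ((((hp.hc2 _ hpos).tendsto.comp (eps_lim x))).const_mul _)).mul_const _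
  refine tendsto_nhds_unique (tendsto_finsetSum _ fun i _ => L1 i) ?_
  refine L2.neg.congr fun k => ?_
  rw [id2_eps hp (eps_le k).1 hη]

end Pool.Agent.V1180.Rad3
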