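import Mathlib

/-!
# Two interleaved Liouville numbers

`sx 0 = ∑ 2^{-(2k)!}` and `sx 1 = ∑ 2^{-(2k+1)!}`; they are linearly independent over `ℚ`
together with `1`, and for every `n` one of them is approximated very well by a fraction with
denominator a power of two with exponent `< n`.
-/

set_option autoImplicit false

namespace Pool.Agent.V1180.Cond

open Finset

/-- the number `∑ 2^{-(2k+e)!}` -/
noncomputable def sx (e : ℕ) : ℝ := ∑' k : ℕ, (1 / 2 : ℝ) ^ ((2 * k + e).factorial)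

/-- partial sums -/
noncomputable def sp (e k : ℕ) : ℝ := ∑ j ∈ range (k + 1), (1 / 2 : ℝ) ^ ((2 * j + e).factorial)

lemma fac_add (m j : ℕ) (hm : 1 ≤ m) : m.factorial + j ≤ (m + 2 * j).factorial := by
  have := Nat.add_factorial_le_factorial_add (2 * j) hm
  rw [Nat.add_comm (2 * j) m] at this
  omega


lemma sx_summable (e : ℕ) : Summable (fun k : ℕ => (1 / 2 : ℝ) ^ ((2 * k + e).factorial)) := by
  refine Summable.of_nonneg_of_le (fun k => by positivity) (fun k => ?_)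
    (summable_geometric_two)
  apply pow_le_pow_of_le_one (by norm_num) (by norm_num)
  calc k ≤ 2 * k + e := by omega
    _ ≤ _ := Nat.self_le_factorial _

lemma sx_sub (e k : ℕ) : sx e - sp e k
    = ∑' j : ℕ, (1 / 2 : ℝ) ^ ((2 * (j + (k + 1)) + e).factorial) := by
  have := (sx_summable e).sum_add_tsum_nat_add (k + 1)
  unfold sx sp
  linarith

lemma tail_summable (e k : ℕ) :
    Summable (fun j : ℕ => (1 / 2 : ℝ) ^ ((2 * (j + (k + 1)) + e).factorial)) :=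
  (summable_nat_add_iff (f := fun j : ℕ => (1 / 2 : ℝ) ^ ((2 * j + e).factorial)) (k + 1)).2
    (sx_summable e)

lemma tail_lower (e k : ℕ) : (1 / 2 : ℝ) ^ ((2 * (k + 1) + e).factorial) ≤ sx e - sp e k := by
  rw [sx_sub]
  have := (tail_summable e k).le_tsum 0 (fun j _ => by positivity)
  simpa using this

lemma tail_upper (e k : ℕ) : sx e - sp e k ≤ 2 * (1 / 2 : ℝ) ^ ((2 * (k + 1) + e).factorial) := by
  rw [sx_sub]
  have h1 : ∀ j : ℕ, (1 / 2 : ℝ) ^ ((2 * (j + (k + 1)) + e).factorial)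
      ≤ (1 / 2 : ℝ) ^ ((2 * (k + 1) + e).factorial) * (1 / 2 : ℝ) ^ j := by
    intro j
    rw [← pow_add]
    apply pow_le_pow_of_le_one (by norm_num) (by norm_num)
    have := fac_add (2 * (k + 1) + e) j (by omega)
    have h2 : 2 * (k + 1) + e + 2 * j = 2 * (j + (k + 1)) + e := by ring
    rwa [h2] at this
  have h2 := Summable.tsum_le_tsum h1 (tail_summable e k)
    (summable_geometric_two.mul_left _)
  refine h2.trans ?_
  rw [tsum_mul_left, tsum_geometric_two]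
  linarith

lemma tail_pos (e k : ℕ) : 0 < sx e - sp e k :=
  lt_of_lt_of_le (by positivity) (tail_lower e k)

lemma sp_nonneg (e k : ℕ) : 0 ≤ sp e k := Finset.sum_nonneg (fun _ _ => by positivity)

lemma sx_pos (e : ℕ) : 0 < sx e := by
  have := tail_pos e 0
  have := sp_nonneg e 0
  linarith

lemma sx_le_one (e : ℕ) (he : e ≤ 1) : sx e ≤ 1 := by
  have h := tail_upper e 0
  have h1 : sp e 0 ≤ 1 / 2 := by
    unfold sp
    rw [Finset.sum_range_one]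
    interval_cases e <;> norm_num
  have h2 : (1 / 2 : ℝ) ^ ((2 * (0 + 1) + e).factorial) ≤ 1 / 4 := by
    interval_cases e
    · norm_num
    · norm_num [Nat.factorial]
  linarith

/-- the partial sums become integers after multiplication with `2^{m!}` -/
lemma sp_int (e k m : ℕ) (h : 2 * k + e ≤ m) :
    ∃ P : ℕ, (2 : ℝ) ^ (m.factorial) * sp e k = P := by
  refine ⟨∑ j ∈ range (k + 1), 2 ^ (m.factorial - (2 * j + e).factorial), ?_⟩
  unfold sp
  rw [Finset.mul_sum]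
  push_cast
  apply Finset.sum_congr rfl
  intro j hj
  have hj' : j ≤ k := by simpa [Nat.lt_succ_iff] using hj
  have h1 : (2 * j + e).factorial ≤ m.factorial := Nat.factorial_le (by omega)
  rw [pow_sub₀ (2 : ℝ) (by norm_num) h1, one_div, inv_pow]

lemma pow_cmp (L A K : ℕ) (h : L + K + 1 ≤ A) :
    (2:ℝ) ^ L * (1 / 2 : ℝ) ^ A * 2 ^ K ≤ 1 / 2 := by
  have h1 : (1 / 2 : ℝ) ^ A ≤ (1 / 2 : ℝ) ^ (L + K + 1) :=
    pow_le_pow_of_le_one (by norm_num) (by norm_num) h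
  calc (2:ℝ) ^ L * (1 / 2 : ℝ) ^ A * 2 ^ K ≤ (2:ℝ) ^ L * (1 / 2 : ℝ) ^ (L + K + 1) * 2 ^ K := by
        gcongr
    _ = ((2:ℝ) * (1/2)) ^ L * ((2:ℝ) * (1/2)) ^ K * (1/2) := by
        rw [mul_pow, mul_pow, pow_add, pow_add]; ring
    _ = 1 / 2 := by norm_num

lemma pow_cmp2 (B A K : ℕ) (h : A + K + 1 ≤ B) :
    (1 / 2 : ℝ) ^ B * 2 ^ K ≤ (1 / 2 : ℝ) ^ A / 2 := by
  have h1 : (1 / 2 : ℝ) ^ B ≤ (1 / 2 : ℝ) ^ (A + K + 1) :=
    pow_le_pow_of_le_one (by norm_num) (by norm_num) h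
  calc (1 / 2 : ℝ) ^ B * 2 ^ K ≤ (1 / 2 : ℝ) ^ (A + K + 1) * 2 ^ K := by gcongr
    _ = (1 / 2 : ℝ) ^ A * ((2:ℝ) * (1/2)) ^ K * (1/2) := by
        rw [mul_pow, pow_add, pow_add]; ring
    _ = (1 / 2 : ℝ) ^ A / 2 := by norm_num; ring

lemma pow_cmp3 (a b d : ℕ) (δ : ℝ) (h : a + 1 + b + 1 ≤ d) (hδ : δ ≤ 2 * (1 / 2 : ℝ) ^ d) :
    (2:ℝ) ^ a * δ < (1 / 2 : ℝ) ^ b := by
  have e1 : (1 / 2 : ℝ) ^ d ≤ (1 / 2 : ℝ) ^ (a + 1 + b + 1) :=
    pow_le_pow_of_le_one (by norm_num) (by norm_num) h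
  calc (2:ℝ) ^ a * δ
      ≤ (2:ℝ) ^ a * (2 * (1 / 2 : ℝ) ^ (a + 1 + b + 1)) := by
        gcongr; linarith
    _ = ((2:ℝ) * (1/2)) ^ a * ((1 / 2 : ℝ) ^ b / 2) := by
        rw [mul_pow, pow_add, pow_add, pow_add]; ring
    _ = (1 / 2 : ℝ) ^ b / 2 := by norm_num
    _ < (1 / 2 : ℝ) ^ b := by
        have : (0:ℝ) < (1 / 2 : ℝ) ^ b := by positivity
        linarith

/-- `1, sx 0, sx 1` are linearly independent over the integers -/
lemma lin_indep (p q r : ℤ) (h : (p : ℝ) + q * sx 0 + r * sx 1 = 0) : p = 0 ∧ q = 0 ∧ r = 0 := by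
  -- a bound for the sizes
  obtain ⟨K, hK⟩ : ∃ K : ℕ, 4 * (|(q : ℝ)| + |(r : ℝ)| + 1) < 2 ^ K :=
    pow_unbounded_of_one_lt _ (by norm_num)
  obtain ⟨k, hk⟩ : ∃ k, k = K + 1 := ⟨_, rfl⟩
  have hA : (2 * (k + 1) + 0).factorial = (2 * k + 2).factorial := by ring_nf
  have hB : (2 * (k + 1) + 1).factorial = (2 * k + 3).factorial := by ring_nf
  have h0l := tail_lower 0 k
  have h0u := tail_upper 0 k
  have h1l := tail_lower 1 k
  have h1u := tail_upper 1 k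
  rw [hA] at h0l h0u
  rw [hB] at h1l h1u
  obtain ⟨L, hL⟩ : ∃ L, L = (2 * k + 1).factorial := ⟨_, rfl⟩
  have hL1 : 1 ≤ L := hL ▸ Nat.factorial_pos _
  have hA2 : (2 * k + 2).factorial = (2 * k + 2) * L := hL ▸ Nat.factorial_succ (2 * k + 1)
  have hB2 : (2 * k + 3).factorial = (2 * k + 3) * ((2 * k + 2) * L) := by
    rw [← hA2]; exact Nat.factorial_succ (2 * k + 2)
  -- numeric comparison
  have hALK : L + K + 1 ≤ (2 * k + 2).factorial := by
    rw [hA2]; nlinarith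
  have hBAK : (2 * k + 2).factorial + K + 1 ≤ (2 * k + 3).factorial := by
    rw [hB2, hA2]; nlinarith
  obtain ⟨fA, hfA⟩ : ∃ fA, fA = (2 * k + 2).factorial := ⟨_, rfl⟩
  obtain ⟨fB, hfB⟩ : ∃ fB, fB = (2 * k + 3).factorial := ⟨_, rfl⟩
  rw [← hfA] at h0l h0u hALK hBAK
  rw [← hfB] at h1l h1u hBAK
  obtain ⟨a, ha⟩ : ∃ a, a = (1 / 2 : ℝ) ^ fA := ⟨_, rfl⟩
  obtain ⟨b, hb⟩ : ∃ b, b = (1 / 2 : ℝ) ^ fB := ⟨_, rfl⟩
  rw [← ha] at h0l h0u
  rw [← hb] at h1l h1u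
  have ha0 : 0 < a := by rw [ha]; positivity
  have hb0 : 0 < b := by rw [hb]; positivity
  have hK2 : (0:ℝ) < 2 ^ K := by positivity
  have haL : (2:ℝ) ^ L * a * 2 ^ K ≤ 1 / 2 := ha ▸ pow_cmp _ _ _ hALK
  have hba : b * 2 ^ K ≤ a / 2 := by rw [ha, hb]; exact pow_cmp2 _ _ _ hBAK
  have hq0 := abs_nonneg (q : ℝ)
  have hr0 := abs_nonneg (r : ℝ)
  -- the integer part vanishes
  obtain ⟨P0, hP0⟩ := sp_int 0 k (2 * k + 1) (by omega)
  obtain ⟨P1, hP1⟩ := sp_int 1 k (2 * k + 1) (by omega)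
  rw [← hL] at hP0 hP1
  obtain ⟨E, hE⟩ : ∃ E, E = (q : ℝ) * (sx 0 - sp 0 k) + r * (sx 1 - sp 1 k) := ⟨_, rfl⟩
  have hEabs : |E| ≤ 2 * a * (|(q:ℝ)| + |(r:ℝ)|) := by
    have e1 : |(q : ℝ) * (sx 0 - sp 0 k)| ≤ |(q:ℝ)| * (2 * a) := by
      rw [abs_mul, abs_of_pos (tail_pos 0 k)]; gcongr
    have hb2 : b ≤ a := by
      have : b * 1 ≤ b * 2 ^ K := by
        gcongr; exact one_le_pow₀ (by norm_num)
      linarith
    have e2 : |(r : ℝ) * (sx 1 - sp 1 k)| ≤ |(r:ℝ)| * (2 * a) := by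
      rw [abs_mul, abs_of_pos (tail_pos 1 k)]
      gcongr
      linarith
    calc |E| ≤ |(q : ℝ) * (sx 0 - sp 0 k)| + |(r : ℝ) * (sx 1 - sp 1 k)| := by
          rw [hE]; exact abs_add_le _ _
      _ ≤ _ := by linarith
  have hint : (2:ℝ) ^ L * E = ((-(2 ^ L * p + q * P0 + r * P1) : ℤ) : ℝ) := by
    push_cast
    have : (p:ℝ) + q * sp 0 k + r * sp 1 k + E = 0 := by rw [hE]; linarith
    rw [← hP0, ← hP1]
    linear_combination (2:ℝ) ^ L * this
  have hE0 : E = 0 := by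
    have h1 : |(2:ℝ) ^ L * E| < 1 := by
      rw [abs_mul, abs_of_pos (by positivity : (0:ℝ) < 2 ^ L)]
      have h2 : (2:ℝ) ^ L * |E| ≤ (2:ℝ) ^ L * (2 * a * (|(q:ℝ)| + |(r:ℝ)|)) := by gcongr
      have h3 : (2:ℝ) ^ L * (2 * a * (|(q:ℝ)| + |(r:ℝ)|)) ≤ (2:ℝ) ^ L * (a * 2 ^ K) := by
        gcongr (2:ℝ) ^ L * ?_
        nlinarith
      nlinarith
    rw [hint] at h1
    have h4 : (-(2 ^ L * p + q * P0 + r * P1) : ℤ) = 0 := by
      rw [← Int.cast_abs] at h1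
      have : |(-(2 ^ L * p + q * P0 + r * P1) : ℤ)| < 1 := by exact_mod_cast h1
      exact Int.abs_lt_one_iff.1 this
    rw [h4] at hint
    have : (2:ℝ) ^ L ≠ 0 := by positivity
    simpa [this] using hint
  -- hence `q = 0`
  have hq : q = 0 := by
    by_contra hne
    have h1 : (1:ℝ) ≤ |(q:ℝ)| := by
      rw [← Int.cast_abs]; exact_mod_cast Int.one_le_abs hne
    have h2 : |(q : ℝ) * (sx 0 - sp 0 k)| = |(r : ℝ) * (sx 1 - sp 1 k)| := by
      have : (q : ℝ) * (sx 0 - sp 0 k) = -((r : ℝ) * (sx 1 - sp 1 k)) := by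
        rw [hE] at hE0; linarith
      rw [this, abs_neg]
    rw [abs_mul, abs_mul, abs_of_pos (tail_pos 0 k), abs_of_pos (tail_pos 1 k)] at h2
    have h3 : a ≤ |(q:ℝ)| * (sx 0 - sp 0 k) := by nlinarith
    have h4 : |(r:ℝ)| * (sx 1 - sp 1 k) ≤ |(r:ℝ)| * (2 * b) := by gcongr
    have h5 : |(r:ℝ)| * (2 * b) ≤ b * 2 ^ K := by nlinarith
    linarith
  subst hq
  have hr : r = 0 := by
    have h1 : (r:ℝ) * (sx 1 - sp 1 k) = 0 := by
      rw [hE] at hE0; simpa using hE0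
    rcases mul_eq_zero.1 h1 with h2 | h2
    · exact_mod_cast h2
    · exact absurd h2 (tail_pos 1 k).ne'
  subst hr
  have hp : (p:ℝ) = 0 := by simpa using h
  exact ⟨by exact_mod_cast hp, rfl, rfl⟩

/-- very good approximations at every scale -/
lemma good_approx (c : ℝ) (hc : 0 < c) : ∃ M : ℕ, ∀ n : ℕ, M ≤ n →
    ∃ e : ℕ, e ≤ 1 ∧ ∃ l : ℕ, l < n ∧ ∃ P : ℕ, P < 2 ^ n ∧
      0 < (2:ℝ) ^ l * sx e - P ∧ (2:ℝ) ^ l * sx e - P < c ^ n := by
  obtain ⟨K, hK⟩ : ∃ K : ℕ, (1 / 2 : ℝ) ^ K < c := exists_pow_lt_of_lt_one hc (by norm_num)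
  refine ⟨(K + 3).factorial + 1, fun n hn => ?_⟩
  -- the scale
  have hex : ∃ m : ℕ, n ≤ m.factorial := ⟨n, Nat.self_le_factorial n⟩
  classical
  have hm0 := Nat.find_spec hex
  have hmK : K + 3 < Nat.find hex := by
    by_contra hcon
    push Not at hcon
    have := Nat.factorial_le hcon
    omega
  obtain ⟨m, hm⟩ : ∃ m, Nat.find hex = m + 1 := ⟨Nat.find hex - 1, by omega⟩
  have hm1 : n ≤ (m + 1).factorial := hm ▸ hm0
  have hm2 : m.factorial < n := by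
    have := Nat.find_min hex (m := m) (by omega)
    omega
  have hmK' : K + 3 ≤ m := by omega
  obtain ⟨k, e, he, hke⟩ : ∃ k e : ℕ, e ≤ 1 ∧ m = 2 * k + e :=
    ⟨m / 2, m % 2, by omega, by omega⟩
  obtain ⟨P, hP⟩ := sp_int e k m (by omega)
  have hpos : (0:ℝ) < 2 ^ m.factorial := by positivity
  have hn2 : 0 < (2:ℝ) ^ m.factorial * sx e - P := by
    rw [← hP, ← mul_sub]
    exact mul_pos hpos (tail_pos e k)
  refine ⟨e, he, m.factorial, hm2, P, ?_, hn2, ?_⟩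
  · have h1 : (P:ℝ) < 2 ^ m.factorial := by
      have := sx_le_one e he
      nlinarith
    have h2 : P < 2 ^ m.factorial := by exact_mod_cast h1
    exact h2.trans (Nat.pow_lt_pow_right (by norm_num) hm2)
  · rw [← hP, ← mul_sub]
    have h1 := tail_upper e k
    have h2 : 2 * (k + 1) + e = m + 2 := by omega
    rw [h2] at h1
    have h3 : (m + 2).factorial = (m + 2) * (m + 1).factorial := Nat.factorial_succ (m + 1)
    have h4 : (m + 1).factorial = (m + 1) * m.factorial := Nat.factorial_succ m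
    have h5 : m.factorial + 1 + K * (m + 1).factorial + 1 ≤ (m + 2).factorial := by
      rw [h3]
      have h6 : m.factorial ≤ (m + 1).factorial := Nat.factorial_le (by omega)
      have h7 : 1 ≤ (m + 1).factorial := Nat.factorial_pos _
      nlinarith
    have hcn : (1 / 2 : ℝ) ^ (K * (m + 1).factorial) ≤ c ^ n ∨ 1 ≤ c := by
      by_cases hc1 : 1 ≤ c
      · exact Or.inr hc1
      · left
        push Not at hc1
        rw [pow_mul]
        calc ((1 / 2 : ℝ) ^ K) ^ (m + 1).factorial ≤ c ^ (m + 1).factorial := by gcongr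
          _ ≤ c ^ n := pow_le_pow_of_le_one hc.le hc1.le hm1
    have hmain : (2:ℝ) ^ m.factorial * (sx e - sp e k) < (1 / 2 : ℝ) ^ (K * (m + 1).factorial) :=
      pow_cmp3 _ _ _ _ h5 h1
    rcases hcn with h | h
    · exact hmain.trans_le h
    · refine hmain.trans_le ?_
      calc (1 / 2 : ℝ) ^ (K * (m + 1).factorial) ≤ 1 := pow_le_one₀ (by norm_num) (by norm_num)
        _ ≤ c ^ n := one_le_pow₀ h

end Pool.Agent.V1180.Cond
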