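import Mathlib
import Pool.Agent.V1180.CondNum

/-!
# The maps: four Moebius maps fixing `0` and one quadratic map

Letters `0,1,2,3` are the Moebius maps `x ↦ (x/2)/(1 - κ d x)` with `d = 0, 1, sx 0, sx 1`,
the letter `4` is the quadratic map `x ↦ 1 - (x-C)²/(20R²)`.
-/

set_option autoImplicit false

namespace Pool.Agent.V1180.Cond

open Set

/-- composition along a word (the last letter is applied first) -/
def comp {N : ℕ} (f : Fin N → ℝ → ℝ) : List (Fin N) → ℝ → ℝ
  | [], x => x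
  | i :: w, x => f i (comp f w x)

lemma comp_append {N : ℕ} (f : Fin N → ℝ → ℝ) (u v : List (Fin N)) (x : ℝ) :
    comp f (u ++ v) x = comp f u (comp f v x) := by
  induction u with
  | nil => rfl
  | cons a u ih => simp only [List.cons_append, comp, ih]

/-- the digits -/
noncomputable def dig (a : Fin 5) : ℝ :=
  if a = 1 then 1 else if a = 2 then sx 0 else if a = 3 then sx 1 else 0

lemma dig_nonneg (a : Fin 5) : 0 ≤ dig a := by
  unfold dig
  have := sx_pos 0
  have := sx_pos 1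
  split_ifs <;> linarith

lemma dig_le (a : Fin 5) : dig a ≤ 1 := by
  unfold dig
  have := sx_le_one 0 (by norm_num)
  have := sx_le_one 1 (by norm_num)
  split_ifs <;> linarith

/-- the digit sums -/
noncomputable def M : List (Fin 5) → ℝ
  | [] => 0
  | a :: w => dig a + 2 * M w

/-- the scaled digit sums -/
noncomputable def S : List (Fin 5) → ℝ
  | [] => 0
  | a :: w => S w + (1 / 2 : ℝ) ^ w.length * dig a

lemma S_eq (w : List (Fin 5)) : S w = 2 * (1 / 2 : ℝ) ^ w.length * M w := by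
  induction w with
  | nil => simp [S, M]
  | cons a w ih =>
    simp only [S, M, List.length_cons, pow_succ]
    rw [ih]; ring

lemma S_nonneg (w : List (Fin 5)) : 0 ≤ S w := by
  induction w with
  | nil => simp [S]
  | cons a w ih =>
    simp only [S]
    have := dig_nonneg a
    positivity

lemma S_le (w : List (Fin 5)) : S w ≤ 2 - 2 * (1 / 2 : ℝ) ^ w.length := by
  induction w with
  | nil => simp [S]
  | cons a w ih =>
    simp only [S, List.length_cons, pow_succ]
    have h1 := dig_le a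
    have h2 : (0:ℝ) < (1 / 2 : ℝ) ^ w.length := by positivity
    nlinarith

lemma S_le_two (w : List (Fin 5)) : S w ≤ 2 := by
  have := S_le w
  have h2 : (0:ℝ) < (1 / 2 : ℝ) ^ w.length := by positivity
  linarith

lemma S_cons_ge (a : Fin 5) (w : List (Fin 5)) : S w ≤ S (a :: w) := by
  simp only [S]
  have := dig_nonneg a
  have : 0 ≤ (1 / 2 : ℝ) ^ w.length * dig a := by positivity
  linarith

/-- integer coordinates of the digit sums -/
def cnt (b : Fin 5) : List (Fin 5) → ℕ
  | [] => 0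
  | a :: w => (if a = b then 1 else 0) + 2 * cnt b w

lemma M_eq (w : List (Fin 5)) : M w = cnt 1 w + cnt 2 w * sx 0 + cnt 3 w * sx 1 := by
  induction w with
  | nil => simp [M, cnt]
  | cons a w ih =>
    simp only [M, cnt, ih, dig]
    fin_cases a <;> simp <;> ring

lemma M_inj (u v : List (Fin 5)) (hl : u.length = v.length) (hu : ∀ a ∈ u, a ≠ 4)
    (hv : ∀ a ∈ v, a ≠ 4) (h : M u = M v) : u = v := by
  have h1 : cnt 1 u = cnt 1 v ∧ cnt 2 u = cnt 2 v ∧ cnt 3 u = cnt 3 v := by
    rw [M_eq, M_eq] at h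
    have := lin_indep ((cnt 1 u : ℤ) - cnt 1 v) ((cnt 2 u : ℤ) - cnt 2 v)
      ((cnt 3 u : ℤ) - cnt 3 v) (by push_cast; linear_combination h)
    omega
  obtain ⟨h1, h2, h3⟩ := h1
  clear h
  induction u generalizing v with
  | nil =>
    cases v with
    | nil => rfl
    | cons b v => simp at hl
  | cons a u ih =>
    cases v with
    | nil => simp at hl
    | cons b v =>
      simp only [cnt] at h1 h2 h3
      have ha : a ≠ 4 := hu a (by simp)
      have hb : b ≠ 4 := hv b (by simp)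
      have hab : a = b := by
        revert ha hb h1 h2 h3
        fin_cases a <;> fin_cases b <;> simp <;> omega
      subst hab
      congr 1
      exact ih v (by simpa using hl) (fun c hc => hu c (by simp [hc]))
        (fun c hc => hv c (by simp [hc])) (by omega) (by omega) (by omega)

lemma S_inj (u v : List (Fin 5)) (hl : u.length = v.length) (hu : ∀ a ∈ u, a ≠ 4)
    (hv : ∀ a ∈ v, a ≠ 4) (h : S u = S v) : u = v := by
  apply M_inj u v hl hu hv
  rw [S_eq, S_eq, hl] at h
  have : (2:ℝ) * (1 / 2 : ℝ) ^ v.length ≠ 0 := by positivity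
  exact mul_left_cancel₀ this h

/-- the five maps on the line -/
noncomputable def fr (κ C R : ℝ) (a : Fin 5) (x : ℝ) : ℝ :=
  if a = 4 then 1 - (x - C) ^ 2 / (20 * R ^ 2) else (x / 2) / (1 - κ * dig a * x)

lemma fr_four (κ C R x : ℝ) : fr κ C R 4 x = 1 - (x - C) ^ 2 / (20 * R ^ 2) := by
  simp [fr]

lemma fr_D (κ C R : ℝ) (a : Fin 5) (ha : a ≠ 4) (x : ℝ) :
    fr κ C R a x = (x / 2) / (1 - κ * dig a * x) := by
  simp [fr, ha]

/-- standing assumptions -/
structure Good (κ C R : ℝ) : Prop where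
  κpos : 0 < κ
  κR : κ * R = 1 / 10
  R1 : 1 ≤ R
  C1 : 2 * R < C
  C2 : C < 3 * R
  gen : ∀ u v : List (Fin 5), S u ≠ S v →
    (1 / 2 : ℝ) ^ u.length + κ * S u * C ≠ (1 / 2 : ℝ) ^ v.length + κ * S v * C

/-- the formula for the compositions of the Moebius maps -/
lemma comp_D {κ C R : ℝ} (h : Good κ C R) (w : List (Fin 5)) (hw : ∀ a ∈ w, a ≠ 4) (x : ℝ)
    (hx : κ * S w * x < 1) :
    comp (fr κ C R) w x = (1 / 2 : ℝ) ^ w.length * x / (1 - κ * S w * x) := by
  induction w with
  | nil => simp [comp, S]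
  | cons a w ih =>
    have hk := h.κpos
    have hS := S_nonneg w
    have hS' := S_cons_ge a w
    have hx' : κ * S w * x < 1 := by
      rcases le_or_gt x 0 with h0 | h0
      · have : κ * S w * x ≤ 0 := mul_nonpos_of_nonneg_of_nonpos (by positivity) h0
        linarith
      · refine lt_of_le_of_lt ?_ hx
        gcongr
    have ihx := ih (fun c hc => hw c (by simp [hc])) hx'
    simp only [comp]
    rw [fr_D _ _ _ _ (hw a (by simp)), ihx]
    have hd1 : 0 < 1 - κ * S w * x := by linarith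
    have hd2 : 0 < 1 - κ * S (a :: w) * x := by linarith
    have hd3 : 1 - κ * dig a * ((1 / 2 : ℝ) ^ w.length * x / (1 - κ * S w * x))
        = (1 - κ * S (a :: w) * x) / (1 - κ * S w * x) := by
      rw [eq_div_iff hd1.ne', sub_mul, mul_assoc (κ * dig a), div_mul_cancel₀ _ hd1.ne']
      simp only [S]; ring
    rw [hd3, List.length_cons, pow_succ]
    have key : ∀ A p q : ℝ, p ≠ 0 → q ≠ 0 → (A * x / p / 2) / (q / p) = A * (1 / 2) * x / q := by
      intro A p q hp hq
      field_simp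
    exact key _ _ _ hd1.ne' hd2.ne'

/-- inverse branch of the compositions of the Moebius maps -/
noncomputable def E (κ : ℝ) (w : List (Fin 5)) (c : ℝ) : ℝ :=
  c / ((1 / 2 : ℝ) ^ w.length + κ * S w * c)

lemma E_den {κ : ℝ} (hk : 0 < κ) (w : List (Fin 5)) {c : ℝ} (hc : 0 ≤ c) :
    0 < (1 / 2 : ℝ) ^ w.length + κ * S w * c := by
  have := S_nonneg w
  positivity

lemma E_lt_one {κ : ℝ} (hk : 0 < κ) (w : List (Fin 5)) {c : ℝ} (hc : 0 ≤ c) :
    κ * S w * E κ w c < 1 := by
  have hd := E_den hk w hc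
  unfold E
  rw [mul_div_assoc', div_lt_one hd]
  have : (0:ℝ) < (1 / 2 : ℝ) ^ w.length := by positivity
  linarith

lemma E_nonneg {κ : ℝ} (hk : 0 < κ) (w : List (Fin 5)) {c : ℝ} (hc : 0 ≤ c) : 0 ≤ E κ w c :=
  div_nonneg hc (E_den hk w hc).le

lemma comp_E {κ C R : ℝ} (h : Good κ C R) (w : List (Fin 5)) (hw : ∀ a ∈ w, a ≠ 4) {c : ℝ}
    (hc : 0 ≤ c) : comp (fr κ C R) w (E κ w c) = c := by
  rw [comp_D h w hw _ (E_lt_one h.κpos w hc)]
  have hd := E_den h.κpos w hc
  have h1 : 1 - κ * S w * E κ w c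
      = (1 / 2 : ℝ) ^ w.length / ((1 / 2 : ℝ) ^ w.length + κ * S w * c) := by
    unfold E
    field_simp
    ring
  rw [h1]
  unfold E
  have h2 : (1 / 2 : ℝ) ^ w.length ≠ 0 := by positivity
  have key : ∀ A D : ℝ, A ≠ 0 → D ≠ 0 → A * (c / D) / (A / D) = c := by
    intro A D hA hD
    field_simp
  exact key _ _ h2 hd.ne'

/-- strict monotonicity of the formula -/
lemma comp_D_lt {κ C R : ℝ} (h : Good κ C R) (w : List (Fin 5)) (hw : ∀ a ∈ w, a ≠ 4) {x y : ℝ}
    (hxy : x < y) (hy : κ * S w * y < 1) :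
    comp (fr κ C R) w x < comp (fr κ C R) w y := by
  have hk := h.κpos
  have hS := S_nonneg w
  have hx : κ * S w * x < 1 := lt_of_le_of_lt (by gcongr) hy
  rw [comp_D h w hw x hx, comp_D h w hw y hy]
  rw [div_lt_div_iff₀ (by linarith) (by linarith)]
  have : (0:ℝ) < (1 / 2 : ℝ) ^ w.length := by positivity
  nlinarith

lemma lt_one_of_le {κ : ℝ} (hk : 0 < κ) (w : List (Fin 5)) {c x : ℝ} (hc : 0 ≤ c)
    (hx : x ≤ E κ w c) : κ * S w * x < 1 := by
  have hS := S_nonneg w
  exact lt_of_le_of_lt (by gcongr) (E_lt_one hk w hc)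

lemma comp_D_mem {κ C R : ℝ} (h : Good κ C R) (w : List (Fin 5)) (hw : ∀ a ∈ w, a ≠ 4) {c x : ℝ}
    (hc : 0 ≤ c) (hx0 : 0 ≤ x) (hx : x ≤ E κ w c) :
    comp (fr κ C R) w x ∈ Icc 0 c := by
  have hk := h.κpos
  have h1 := lt_one_of_le hk w hc hx
  constructor
  · rw [comp_D h w hw x h1]
    apply div_nonneg (by positivity) (by linarith)
  · rcases hx.eq_or_lt with h2 | h2
    · rw [h2, comp_E h w hw hc]
    · have := comp_D_lt h w hw h2 (E_lt_one hk w hc)
      rw [comp_E h w hw hc] at this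
      exact this.le

lemma comp_D_analytic {κ C R : ℝ} (h : Good κ C R) (w : List (Fin 5)) (hw : ∀ a ∈ w, a ≠ 4)
    {x : ℝ} (hx : κ * S w * x < 1) : AnalyticAt ℝ (comp (fr κ C R) w) x := by
  have h1 : AnalyticAt ℝ (fun y : ℝ => (1 / 2 : ℝ) ^ w.length * y / (1 - κ * S w * y)) x := by
    apply AnalyticAt.div
    · fun_prop
    · fun_prop
    · linarith
  refine h1.congr ?_
  have : ∀ᶠ y in nhds x, κ * S w * y < 1 := by
    apply (continuous_const.mul continuous_id).continuousAt.eventually_lt continuousAt_const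
    simpa using hx
  filter_upwards [this] with y hy
  exact (comp_D h w hw y hy).symm

/-- each map is a nice self-map of the unit interval -/
lemma fr_mem {κ C R : ℝ} (h : Good κ C R) (a : Fin 5) {x : ℝ} (hx : x ∈ Icc (0:ℝ) 1) :
    fr κ C R a x ∈ Icc (0:ℝ) 1 := by
  have hk := h.κpos
  have hR := h.R1
  have hκ : κ ≤ 1 / 10 := by
    have := h.κR
    nlinarith
  by_cases ha : a = 4
  · subst ha
    rw [fr_four]
    have h1 := h.C1
    have h2 := h.C2
    have hR2 : 0 < 20 * R ^ 2 := by positivity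
    constructor
    · have : (x - C) ^ 2 / (20 * R ^ 2) ≤ 1 := by
        rw [div_le_one hR2]
        nlinarith [hx.1, hx.2]
      linarith
    · have : 0 ≤ (x - C) ^ 2 / (20 * R ^ 2) := by positivity
      linarith
  · rw [fr_D _ _ _ _ ha]
    have h1 := dig_nonneg a
    have h2 := dig_le a
    have h3 : κ * dig a * x ≤ 1 / 10 := by
      calc κ * dig a * x ≤ (1 / 10) * 1 * 1 := by
            gcongr
            · exact hx.1
            · exact hx.2
        _ = 1 / 10 := by norm_num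
    constructor
    · apply div_nonneg (by linarith [hx.1]) (by linarith)
    · rw [div_le_one (by linarith)]
      linarith [hx.2]

lemma comp_mem {κ C R : ℝ} (h : Good κ C R) (u : List (Fin 5)) {x : ℝ} (hx : x ∈ Icc (0:ℝ) 1) :
    comp (fr κ C R) u x ∈ Icc (0:ℝ) 1 := by
  induction u with
  | nil => exact hx
  | cons a u ih => exact fr_mem h a ih

/-- the quadratic map on `[0, 2C]` -/
lemma four_mem {κ C R : ℝ} (h : Good κ C R) {x : ℝ} (hx : x ∈ Icc (0:ℝ) (2 * C)) :
    fr κ C R 4 x ∈ Icc (0:ℝ) 1 := by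
  rw [fr_four]
  have h1 := h.C1
  have h2 := h.C2
  have hR := h.R1
  have hR2 : 0 < 20 * R ^ 2 := by positivity
  constructor
  · have : (x - C) ^ 2 / (20 * R ^ 2) ≤ 1 := by
      rw [div_le_one hR2]
      nlinarith [hx.1, hx.2]
    linarith
  · have : 0 ≤ (x - C) ^ 2 / (20 * R ^ 2) := by positivity
    linarith

lemma four_analytic (κ C R x : ℝ) : AnalyticAt ℝ (fr κ C R 4) x := by
  have : fr κ C R 4 = fun x => 1 - (x - C) ^ 2 / (20 * R ^ 2) := by
    funext x; exact fr_four κ C R x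
  rw [this]
  by_cases hR : R = 0
  · subst hR; simp; exact analyticAt_const
  · apply AnalyticAt.sub analyticAt_const
    apply AnalyticAt.div
    · fun_prop
    · exact analyticAt_const
    · positivity

lemma four_inj {κ C R : ℝ} (h : Good κ C R) : InjOn (fr κ C R 4) (Icc 0 C) := by
  intro x hx y hy hxy
  rw [fr_four, fr_four] at hxy
  have hR := h.R1
  have hR2 : (20 * R ^ 2) ≠ 0 := by positivity
  have h1 : (x - C) ^ 2 / (20 * R ^ 2) = (y - C) ^ 2 / (20 * R ^ 2) := by linarith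
  rw [div_left_inj' hR2] at h1
  have h2 : C - x = C - y := by
    apply (sq_eq_sq₀ (by linarith [hx.2]) (by linarith [hy.2])).1
    linarith [h1]
  linarith

lemma κ_le {κ C R : ℝ} (h : Good κ C R) : κ ≤ 1 / 10 := by
  have := h.κR
  have := h.κpos
  have := h.R1
  nlinarith

lemma S_mul_lt {κ C R : ℝ} (h : Good κ C R) (w : List (Fin 5)) {x : ℝ} (hx : x ≤ 1) :
    κ * S w * x ≤ 1 / 5 := by
  have h1 := κ_le h
  have h2 := S_nonneg w
  have h3 := S_le_two w
  have hk := h.κpos
  rcases le_or_gt x 0 with h0 | h0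
  · have : κ * S w * x ≤ 0 := mul_nonpos_of_nonneg_of_nonpos (by positivity) h0
    linarith
  · calc κ * S w * x ≤ (1/10) * 2 * 1 := by gcongr
      _ = 1 / 5 := by norm_num

lemma fr_analytic {κ C R : ℝ} (h : Good κ C R) (a : Fin 5) {x : ℝ} (hx : x ∈ Icc (0:ℝ) 1) :
    AnalyticAt ℝ (fr κ C R a) x := by
  by_cases ha : a = 4
  · subst ha; exact four_analytic κ C R x
  · have h1 := comp_D_analytic h [a] (by simpa using ha) (x := x)
      (lt_of_le_of_lt (S_mul_lt h [a] hx.2) (by norm_num))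
    exact h1

lemma fr_inj {κ C R : ℝ} (h : Good κ C R) (a : Fin 5) : InjOn (fr κ C R a) (Icc 0 1) := by
  by_cases ha : a = 4
  · subst ha
    apply (four_inj h).mono
    apply Icc_subset_Icc le_rfl
    have := h.C1
    have := h.R1
    linarith
  · intro x hx y hy hxy
    by_contra hne
    have hlt : ∀ z : ℝ, z ∈ Icc (0:ℝ) 1 → κ * S [a] * z < 1 := fun z hz =>
      lt_of_le_of_lt (S_mul_lt h [a] hz.2) (by norm_num)
    rcases lt_or_gt_of_ne hne with h1 | h1
    · have := comp_D_lt h [a] (by simpa using ha) h1 (hlt y hy)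
      simp only [comp] at this
      linarith
    · have := comp_D_lt h [a] (by simpa using ha) h1 (hlt x hx)
      simp only [comp] at this
      linarith

lemma comp_analytic {κ C R : ℝ} (h : Good κ C R) (u : List (Fin 5)) {x : ℝ}
    (hx : x ∈ Icc (0:ℝ) 1) : AnalyticAt ℝ (comp (fr κ C R) u) x := by
  induction u with
  | nil => exact analyticAt_id
  | cons a u ih => exact (fr_analytic h a (comp_mem h u hx)).comp ih

lemma comp_inj {κ C R : ℝ} (h : Good κ C R) (u : List (Fin 5)) :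
    InjOn (comp (fr κ C R) u) (Icc 0 1) := by
  induction u with
  | nil => intro x _ y _ hxy; exact hxy
  | cons a u ih =>
    intro x hx y hy hxy
    exact ih hx hy (fr_inj h a (comp_mem h u hx) (comp_mem h u hy) hxy)

/-! ## words containing the letter `4` -/

lemma star_comp (f : Fin 5 → ℝ → ℝ) (u' w : List (Fin 5)) (x : ℝ) :
    comp f (u' ++ 4 :: w) x = comp f u' (f 4 (comp f w x)) := by
  rw [comp_append]; rfl

lemma star_mem {κ C R : ℝ} (h : Good κ C R) (u' w : List (Fin 5)) (hw : ∀ a ∈ w, a ≠ 4) {x : ℝ}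
    (hx : x ∈ Icc (0:ℝ) (E κ w (2 * C))) : comp (fr κ C R) (u' ++ 4 :: w) x ∈ Icc (0:ℝ) 1 := by
  rw [star_comp]
  have hC : 0 ≤ 2 * C := by linarith [h.C1, h.R1]
  exact comp_mem h u' (four_mem h (comp_D_mem h w hw hC hx.1 hx.2))

lemma star_analytic {κ C R : ℝ} (h : Good κ C R) (u' w : List (Fin 5)) (hw : ∀ a ∈ w, a ≠ 4)
    {x : ℝ} (hx : x ∈ Icc (0:ℝ) (E κ w (2 * C))) :
    AnalyticAt ℝ (comp (fr κ C R) (u' ++ 4 :: w)) x := by
  have hC : 0 ≤ 2 * C := by linarith [h.C1, h.R1]
  have h1 := comp_D_analytic h w hw (lt_one_of_le h.κpos w hC hx.2)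
  have h2 : AnalyticAt ℝ (fr κ C R 4 ∘ comp (fr κ C R) w) x :=
    (four_analytic κ C R (comp (fr κ C R) w x)).comp h1
  have h3 : AnalyticAt ℝ (comp (fr κ C R) u' ∘ (fr κ C R 4 ∘ comp (fr κ C R) w)) x :=
    AnalyticAt.comp_of_eq
      (comp_analytic h u' (four_mem h (comp_D_mem h w hw hC hx.1 hx.2))) h2 rfl
  have : comp (fr κ C R) (u' ++ 4 :: w)
      = comp (fr κ C R) u' ∘ (fr κ C R 4 ∘ comp (fr κ C R) w) := by
    funext y; exact star_comp _ _ _ _
  rw [this]; exact h3

lemma star_inj {κ C R : ℝ} (h : Good κ C R) (u' w : List (Fin 5)) (hw : ∀ a ∈ w, a ≠ 4) :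
    InjOn (comp (fr κ C R) (u' ++ 4 :: w)) (Icc (0:ℝ) (E κ w C)) := by
  have hC : 0 ≤ C := by linarith [h.C1, h.R1]
  intro x hx y hy hxy
  rw [star_comp, star_comp] at hxy
  have hx1 := comp_D_mem h w hw hC hx.1 hx.2
  have hy1 := comp_D_mem h w hw hC hy.1 hy.2
  have hsub : Icc (0:ℝ) C ⊆ Icc 0 (2 * C) := Icc_subset_Icc le_rfl (by linarith)
  have h1 := comp_inj h u' (four_mem h (hsub hx1)) (four_mem h (hsub hy1)) hxy
  have h2 := four_inj h hx1 hy1 h1
  by_contra hne
  rcases lt_or_gt_of_ne hne with h3 | h3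
  · have := comp_D_lt h w hw h3 (lt_one_of_le h.κpos w hC hy.2)
    linarith
  · have := comp_D_lt h w hw h3 (lt_one_of_le h.κpos w hC hx.2)
    linarith

lemma E_lt {κ : ℝ} (hk : 0 < κ) (w : List (Fin 5)) {c d : ℝ} (hc : 0 ≤ c) (hcd : c < d) :
    E κ w c < E κ w d := by
  unfold E
  rw [div_lt_div_iff₀ (E_den hk w hc) (E_den hk w (hc.trans hcd.le))]
  have : (0:ℝ) < (1 / 2 : ℝ) ^ w.length := by positivity
  nlinarith

/-- the fold: two different points close to `E w C` with the same image -/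
lemma star_fold {κ C R : ℝ} (h : Good κ C R) (u' w : List (Fin 5)) (hw : ∀ a ∈ w, a ≠ 4) {Y : ℝ}
    (hY : E κ w C < Y) : ∃ x ∈ Icc (0:ℝ) Y, ∃ y ∈ Icc (0:ℝ) Y, x ≠ y ∧
      comp (fr κ C R) (u' ++ 4 :: w) x = comp (fr κ C R) (u' ++ 4 :: w) y := by
  have hCp : 0 < C := by linarith [h.C1, h.R1]
  have hk := h.κpos
  -- choose `δ` with `E w (C + δ) ≤ Y`
  have hcont : ContinuousAt (fun c => E κ w c) C := by
    unfold E
    refine ContinuousAt.div (f := fun c => c)
      (g := fun c => (1 / 2 : ℝ) ^ w.length + κ * S w * c) (by fun_prop) (by fun_prop) ?_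
    exact (E_den hk w hCp.le).ne'
  have hev : ∀ᶠ c in nhds C, E κ w c < Y := hcont.eventually_lt continuousAt_const hY
  obtain ⟨δ, hδ, hball⟩ := Metric.eventually_nhds_iff.1 hev
  set t := min (δ / 2) (C / 2) with ht
  have ht0 : 0 < t := lt_min (by linarith) (by linarith)
  have htC : t ≤ C / 2 := min_le_right _ _
  have htδ : t ≤ δ / 2 := min_le_left _ _
  have h1 : E κ w (C + t) < Y := by
    apply hball
    rw [Real.dist_eq, add_sub_cancel_left, abs_of_pos ht0]
    linarith
  have h2 : E κ w (C - t) < E κ w (C + t) := E_lt hk w (by linarith) (by linarith)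
  refine ⟨E κ w (C - t), ⟨E_nonneg hk w (by linarith), by linarith⟩, E κ w (C + t),
    ⟨E_nonneg hk w (by linarith), h1.le⟩, h2.ne, ?_⟩
  rw [star_comp, star_comp, comp_E h w hw (by linarith), comp_E h w hw (by linarith),
    fr_four, fr_four]
  congr 2
  ring

lemma one_lt_E {κ C R : ℝ} (h : Good κ C R) (w : List (Fin 5)) : 1 < E κ w C := by
  have hCp : 0 < C := by linarith [h.C1, h.R1]
  unfold E
  rw [one_lt_div (E_den h.κpos w hCp.le)]
  have h1 : (1 / 2 : ℝ) ^ w.length ≤ 1 := pow_le_one₀ (by norm_num) (by norm_num)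
  have h2 : κ * S w * C ≤ 3 / 5 := by
    have hs := S_le_two w
    have hs0 := S_nonneg w
    have hk := h.κpos
    calc κ * S w * C ≤ κ * 2 * (3 * R) := by
          gcongr
          exact h.C2.le
      _ = 6 * (κ * R) := by ring
      _ = 3 / 5 := by rw [h.κR]; norm_num
  linarith [h.C1, h.R1]

/-- decomposition of a word -/
lemma decomp (u : List (Fin 5)) : (∀ a ∈ u, a ≠ 4) ∨
    ∃ u' w : List (Fin 5), u = u' ++ 4 :: w ∧ ∀ a ∈ w, a ≠ 4 := by
  induction u with
  | nil => left; simp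
  | cons a t ih =>
    rcases ih with h | ⟨u', w, h1, h2⟩
    · by_cases ha : a = 4
      · right; exact ⟨[], t, by simp [ha], h⟩
      · left
        intro b hb
        rcases List.mem_cons.1 hb with rfl | hb
        · exact ha
        · exact h b hb
    · right; exact ⟨a :: u', w, by simp [h1], h2⟩

end Pool.Agent.V1180.Cond
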