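import Mathlib
import Pool.Agent.V1180.CondMap

/-!
# No two words of the same length are simultaneously conjugate to similarities
-/

set_option autoImplicit false

namespace Pool.Agent.V1180.Cond

open Set Filter Topology

/-- identity theorem on an interval containing `[0,1]` -/
lemma ident {p q : ℝ → ℝ} {Y : ℝ} (hY : 1 ≤ Y) (hp : AnalyticOnNhd ℝ p (Icc 0 Y))
    (hq : AnalyticOnNhd ℝ q (Icc 0 Y)) (h : ∀ x ∈ Icc (0:ℝ) 1, p x = q x) :
    EqOn p q (Icc 0 Y) := by
  apply hp.eqOn_of_preconnected_of_eventuallyEq hq isPreconnected_Icc (z₀ := 1/2)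
  · constructor <;> linarith
  · have : Icc (0:ℝ) 1 ∈ 𝓝 (1/2 : ℝ) := Icc_mem_nhds (by norm_num) (by norm_num)
    filter_upwards [this] with x hx using h x hx

/-- The relation that `φ` and `ψ` are conjugate to similarities by the same `g`, prolonged. -/
lemma prolong {g φ ψ : ℝ → ℝ} {Y l1 t1 l2 t2 : ℝ} (hY : 1 ≤ Y)
    (hg : AnalyticOnNhd ℝ g (Icc 0 1))
    (hφ : ∀ x ∈ Icc (0:ℝ) Y, AnalyticAt ℝ φ x) (hφm : ∀ x ∈ Icc (0:ℝ) Y, φ x ∈ Icc (0:ℝ) 1)
    (hψ : ∀ x ∈ Icc (0:ℝ) Y, AnalyticAt ℝ ψ x) (hψm : ∀ x ∈ Icc (0:ℝ) Y, ψ x ∈ Icc (0:ℝ) 1)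
    (hl1 : l1 ≠ 0) (hl2 : l2 ≠ 0)
    (h1 : ∀ x ∈ Icc (0:ℝ) 1, g (φ x) = l1 * g x + t1)
    (h2 : ∀ x ∈ Icc (0:ℝ) 1, g (ψ x) = l2 * g x + t2) :
    ∀ x ∈ Icc (0:ℝ) Y, (g (φ x) - t1) / l1 = (g (ψ x) - t2) / l2 := by
  have hp : AnalyticOnNhd ℝ (fun x => (g (φ x) - t1) / l1) (Icc 0 Y) := by
    intro x hx
    have : AnalyticAt ℝ (fun x => g (φ x)) x := (hg _ (hφm x hx)).comp (hφ x hx)
    exact (this.sub analyticAt_const).div analyticAt_const hl1
  have hq : AnalyticOnNhd ℝ (fun x => (g (ψ x) - t2) / l2) (Icc 0 Y) := by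
    intro x hx
    have : AnalyticAt ℝ (fun x => g (ψ x)) x := (hg _ (hψm x hx)).comp (hψ x hx)
    exact (this.sub analyticAt_const).div analyticAt_const hl2
  apply ident hY hp hq
  intro x hx
  show (g (φ x) - t1) / l1 = (g (ψ x) - t2) / l2
  rw [h1 x hx, h2 x hx, add_sub_cancel_right, add_sub_cancel_right,
    mul_div_cancel_left₀ _ hl1, mul_div_cancel_left₀ _ hl2]

lemma inj_transfer {g φ ψ : ℝ → ℝ} {Y l1 t1 l2 t2 : ℝ} (hY : 1 ≤ Y)
    (hg : AnalyticOnNhd ℝ g (Icc 0 1)) (hgi : InjOn g (Icc 0 1))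
    (hφ : ∀ x ∈ Icc (0:ℝ) Y, AnalyticAt ℝ φ x) (hφm : ∀ x ∈ Icc (0:ℝ) Y, φ x ∈ Icc (0:ℝ) 1)
    (hψ : ∀ x ∈ Icc (0:ℝ) Y, AnalyticAt ℝ ψ x) (hψm : ∀ x ∈ Icc (0:ℝ) Y, ψ x ∈ Icc (0:ℝ) 1)
    (hl1 : l1 ≠ 0) (hl2 : l2 ≠ 0)
    (h1 : ∀ x ∈ Icc (0:ℝ) 1, g (φ x) = l1 * g x + t1)
    (h2 : ∀ x ∈ Icc (0:ℝ) 1, g (ψ x) = l2 * g x + t2)
    (hi : InjOn φ (Icc 0 Y)) : InjOn ψ (Icc 0 Y) := by
  have hp := prolong hY hg hφ hφm hψ hψm hl1 hl2 h1 h2
  intro x hx y hy hxy
  apply hi hx hy
  apply hgi (hφm x hx) (hφm y hy)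
  have e1 := hp x hx
  have e2 := hp y hy
  rw [hxy, ← e2, div_left_inj' hl1] at e1
  linarith

/-- `u` and `v` are conjugate to similarities by the same injective analytic map -/
def Sh (f : Fin 5 → ℝ → ℝ) (u v : List (Fin 5)) : Prop :=
  ∃ g : ℝ → ℝ, AnalyticOnNhd ℝ g (Icc 0 1) ∧ InjOn g (Icc 0 1) ∧
    ∃ l1 t1 l2 t2 : ℝ, l1 ≠ 0 ∧ |l1| < 1 ∧ l2 ≠ 0 ∧ |l2| < 1 ∧
      (∀ x ∈ Icc (0:ℝ) 1, g (comp f u x) = l1 * g x + t1) ∧
      (∀ x ∈ Icc (0:ℝ) 1, g (comp f v x) = l2 * g x + t2)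

lemma Sh.symm {f : Fin 5 → ℝ → ℝ} {u v : List (Fin 5)} (h : Sh f u v) : Sh f v u := by
  obtain ⟨g, hg, hgi, l1, t1, l2, t2, a, b, c, d, e, k⟩ := h
  exact ⟨g, hg, hgi, l2, t2, l1, t1, c, d, a, b, k, e⟩

/-- two words with the letter `4` -/
lemma star_star_le {κ C R : ℝ} (h : Good κ C R) {u' w v' z : List (Fin 5)}
    (hw : ∀ a ∈ w, a ≠ 4) (hz : ∀ a ∈ z, a ≠ 4)
    (hS : Sh (fr κ C R) (u' ++ 4 :: w) (v' ++ 4 :: z)) : E κ z C ≤ E κ w C := by
  by_contra hlt
  push Not at hlt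
  obtain ⟨g, hg, hgi, l1, t1, l2, t2, a, b, c, d, e, k⟩ := hS
  have hCp : 0 < C := by linarith [h.C1, h.R1]
  set Y := min (E κ z C) (E κ w (2 * C)) with hYdef
  have hYw : E κ w C < Y := lt_min hlt (E_lt h.κpos w hCp.le (by linarith))
  have hYz : Y ≤ E κ z C := min_le_left _ _
  have hYw2 : Y ≤ E κ w (2 * C) := min_le_right _ _
  have hz2 : E κ z C ≤ E κ z (2 * C) := (E_lt h.κpos z hCp.le (by linarith)).le
  have h1Y : 1 ≤ Y := ((one_lt_E h w).trans hYw).le
  have hinj : InjOn (comp (fr κ C R) (u' ++ 4 :: w)) (Icc 0 Y) := by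
    refine inj_transfer h1Y hg hgi ?_ ?_ ?_ ?_ c a k e ?_
    · exact fun x hx => star_analytic h v' z hz ⟨hx.1, hx.2.trans (hYz.trans hz2)⟩
    · exact fun x hx => star_mem h v' z hz ⟨hx.1, hx.2.trans (hYz.trans hz2)⟩
    · exact fun x hx => star_analytic h u' w hw ⟨hx.1, hx.2.trans hYw2⟩
    · exact fun x hx => star_mem h u' w hw ⟨hx.1, hx.2.trans hYw2⟩
    · exact (star_inj h v' z hz).mono (Icc_subset_Icc le_rfl hYz)
  obtain ⟨x, hx, y, hy, hne, heq⟩ := star_fold h u' w hw hYw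
  exact hne (hinj hx hy heq)

lemma E_C_inj {κ C R : ℝ} (h : Good κ C R) {w z : List (Fin 5)}
    (hw : ∀ a ∈ w, a ≠ 4) (hz : ∀ a ∈ z, a ≠ 4) (he : E κ z C = E κ w C) : w = z := by
  have hCp : 0 < C := by linarith [h.C1, h.R1]
  unfold E at he
  rw [div_eq_div_iff (E_den h.κpos z hCp.le).ne' (E_den h.κpos w hCp.le).ne'] at he
  have h1 := mul_left_cancel₀ hCp.ne' he
  have hS : S w = S z := by
    by_contra hne
    exact h.gen w z hne h1
  rw [hS] at h1
  have h2 : (1 / 2 : ℝ) ^ w.length = (1 / 2 : ℝ) ^ z.length := by linarith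
  have h3 : w.length = z.length :=
    pow_right_injective₀ (by norm_num : (0:ℝ) < 1/2) (by norm_num) h2
  exact S_inj w z h3 hw hz hS

/-- powers of a word -/
def rep (u : List (Fin 5)) : ℕ → List (Fin 5)
  | 0 => []
  | k + 1 => rep u k ++ u

lemma rep_mem {u : List (Fin 5)} (hu : ∀ a ∈ u, a ≠ 4) (k : ℕ) : ∀ a ∈ rep u k, a ≠ 4 := by
  induction k with
  | zero => intro a ha; simp [rep] at ha
  | succ k ih =>
    intro a ha
    rcases List.mem_append.1 ha with h | h
    · exact ih a h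
    · exact hu a h

lemma rep_length (u : List (Fin 5)) (k : ℕ) : (rep u k).length = k * u.length := by
  induction k with
  | zero => simp [rep]
  | succ k ih => simp [rep, ih]; ring

lemma rep_conj {κ C R : ℝ} (h : Good κ C R) {g : ℝ → ℝ} {u : List (Fin 5)} {l c : ℝ}
    (h1 : ∀ x ∈ Icc (0:ℝ) 1, g (comp (fr κ C R) u x) - c = l * (g x - c)) (k : ℕ) :
    ∀ x ∈ Icc (0:ℝ) 1, g (comp (fr κ C R) (rep u k) x) - c = l ^ k * (g x - c) := by
  induction k with
  | zero => intro x _; simp [rep, comp]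
  | succ k ih =>
    intro x hx
    simp only [rep]
    rw [comp_append, ih _ (comp_mem h u hx), h1 x hx]
    ring

lemma comp_zero {κ C R : ℝ} (h : Good κ C R) {u : List (Fin 5)} (hu : ∀ a ∈ u, a ≠ 4) :
    comp (fr κ C R) u 0 = 0 := by
  rw [comp_D h u hu 0 (by simp)]; simp

/-- for words without the letter `4` the similarity fixes `g 0` -/
lemma fix_zero {κ C R : ℝ} (h : Good κ C R) {g : ℝ → ℝ} {u : List (Fin 5)} {l t : ℝ}
    (hu : ∀ a ∈ u, a ≠ 4)
    (h1 : ∀ x ∈ Icc (0:ℝ) 1, g (comp (fr κ C R) u x) = l * g x + t) :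
    ∀ x ∈ Icc (0:ℝ) 1, g (comp (fr κ C R) u x) - g 0 = l * (g x - g 0) := by
  have h0 := h1 0 (by simp)
  rw [comp_zero h hu] at h0
  intro x hx
  rw [h1 x hx]
  linarith

/-- one word with and one word without the letter `4` -/
lemma D_star {κ C R : ℝ} (h : Good κ C R) {u v' z : List (Fin 5)}
    (hu : ∀ a ∈ u, a ≠ 4) (hz : ∀ a ∈ z, a ≠ 4) :
    ¬ Sh (fr κ C R) u (v' ++ 4 :: z) := by
  rintro ⟨g, hg, hgi, l1, t1, l2, t2, a, b, c, d, e, k⟩
  have hCp : 0 < C := by linarith [h.C1, h.R1]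
  have hfix := fix_zero h hu e
  have hrep := fun n => rep_conj h (c := g 0) hfix n
  have hrep' : ∀ n, ∀ x ∈ Icc (0:ℝ) 1, g (comp (fr κ C R) (rep u n) x)
      = l1 ^ n * g x + (g 0 - l1 ^ n * g 0) := by
    intro n x hx
    have := hrep n x hx
    linarith
  -- the points `x_n = E (rep u n) 1`
  have hbig : ∀ n, E κ (rep u n) 1 ≤ E κ z C := by
    intro n
    by_contra hlt
    push Not at hlt
    set Y := min (E κ (rep u n) 1) (E κ z (2 * C)) with hYdef
    have hYw : E κ z C < Y := lt_min hlt (E_lt h.κpos z hCp.le (by linarith))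
    have hY1 : Y ≤ E κ (rep u n) 1 := min_le_left _ _
    have hY2 : Y ≤ E κ z (2 * C) := min_le_right _ _
    have h1Y : 1 ≤ Y := ((one_lt_E h z).trans hYw).le
    have hinj : InjOn (comp (fr κ C R) (v' ++ 4 :: z)) (Icc 0 Y) := by
      refine inj_transfer h1Y hg hgi ?_ ?_ ?_ ?_ (pow_ne_zero n a) c (hrep' n) k ?_
      · exact fun x hx => comp_D_analytic h _ (rep_mem hu n)
          (lt_one_of_le h.κpos _ zero_le_one (hx.2.trans hY1))
      · exact fun x hx => comp_D_mem h _ (rep_mem hu n) zero_le_one hx.1 (hx.2.trans hY1)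
      · exact fun x hx => star_analytic h v' z hz ⟨hx.1, hx.2.trans hY2⟩
      · exact fun x hx => star_mem h v' z hz ⟨hx.1, hx.2.trans hY2⟩
      · intro x hx y hy hxy
        by_contra hne
        have hx1 := lt_one_of_le h.κpos (rep u n) zero_le_one (hx.2.trans hY1)
        have hy1 := lt_one_of_le h.κpos (rep u n) zero_le_one (hy.2.trans hY1)
        rcases lt_or_gt_of_ne hne with h3 | h3
        · have := comp_D_lt h _ (rep_mem hu n) h3 hy1
          linarith
        · have := comp_D_lt h _ (rep_mem hu n) h3 hx1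
          linarith
    obtain ⟨x, hx, y, hy, hne, heq⟩ := star_fold h v' z hz hYw
    exact hne (hinj hx hy heq)
  -- blow-up
  have hone : ∀ n, 1 ≤ E κ (rep u n) 1 := by
    intro n
    have hd := E_den h.κpos (rep u n) (c := 1) zero_le_one
    have h1 := S_mul_lt h (rep u n) (x := 1) le_rfl
    unfold E
    rcases Nat.eq_zero_or_pos (rep u n).length with h0 | h0
    · have h2 : rep u n = [] := List.length_eq_zero_iff.1 h0
      rw [h2]; simp [S]
    · rw [one_le_div hd]
      have : (1 / 2 : ℝ) ^ (rep u n).length ≤ (1 / 2 : ℝ) ^ 1 :=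
        pow_le_pow_of_le_one (by norm_num) (by norm_num) h0
      linarith
  have hval : ∀ n, (g 1 - g 0) / l1 ^ n + g 0
      = (g (comp (fr κ C R) (v' ++ 4 :: z) (E κ (rep u n) 1)) - t2) / l2 := by
    intro n
    have hz2 : E κ z C ≤ E κ z (2 * C) := (E_lt h.κpos z hCp.le (by linarith)).le
    have hp := prolong (hone n) hg
      (fun x hx => comp_D_analytic h _ (rep_mem hu n)
          (lt_one_of_le h.κpos _ zero_le_one hx.2))
      (fun x hx => comp_D_mem h _ (rep_mem hu n) zero_le_one hx.1 hx.2)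
      (fun x hx => star_analytic h v' z hz ⟨hx.1, hx.2.trans ((hbig n).trans hz2)⟩)
      (fun x hx => star_mem h v' z hz ⟨hx.1, hx.2.trans ((hbig n).trans hz2)⟩)
      (pow_ne_zero n a) c (hrep' n) k (E κ (rep u n) 1)
      ⟨E_nonneg h.κpos _ zero_le_one, le_rfl⟩
    rw [comp_E h _ (rep_mem hu n) zero_le_one] at hp
    rw [← hp]
    have := pow_ne_zero n a
    field_simp
    ring
  -- boundedness of `g` on the unit interval
  obtain ⟨B, hB⟩ : ∃ B, ∀ y ∈ Icc (0:ℝ) 1, |g y| ≤ B := by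
    have hc : ContinuousOn g (Icc 0 1) := hg.continuousOn
    obtain ⟨B, hB⟩ := isCompact_Icc.exists_bound_of_continuousOn hc
    exact ⟨B, fun y hy => by simpa using hB y hy⟩
  have hg10 : g 1 - g 0 ≠ 0 := by
    intro h0
    have : (1:ℝ) = 0 := hgi (by simp) (by simp) (by linarith)
    norm_num at this
  have hbd : ∀ n, |g 1 - g 0| ≤ |l1| ^ n * ((B + |t2|) / |l2| + |g 0|) := by
    intro n
    have hz2 : E κ z C ≤ E κ z (2 * C) := (E_lt h.κpos z hCp.le (by linarith)).le
    have hmem := star_mem h v' z hz (x := E κ (rep u n) 1)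
      ⟨E_nonneg h.κpos _ zero_le_one, (hbig n).trans hz2⟩
    have h1 : (g 1 - g 0) / l1 ^ n
        = (g (comp (fr κ C R) (v' ++ 4 :: z) (E κ (rep u n) 1)) - t2) / l2 - g 0 := by
      linarith [hval n]
    have h2 : |(g 1 - g 0) / l1 ^ n| ≤ (B + |t2|) / |l2| + |g 0| := by
      rw [h1]
      calc _ ≤ |(g (comp (fr κ C R) (v' ++ 4 :: z) (E κ (rep u n) 1)) - t2) / l2| + |g 0| :=
            abs_sub _ _
        _ ≤ _ := by
            rw [abs_div]
            gcongr
            calc _ ≤ |g (comp (fr κ C R) (v' ++ 4 :: z) (E κ (rep u n) 1))| + |t2| := abs_sub _ _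
              _ ≤ _ := by gcongr; exact hB _ hmem
    rw [abs_div, abs_pow] at h2
    have hl : 0 < |l1| ^ n := pow_pos (abs_pos.2 a) n
    rw [div_le_iff₀ hl] at h2
    linarith
  have hlim : Tendsto (fun n : ℕ => |l1| ^ n * ((B + |t2|) / |l2| + |g 0|)) atTop (𝓝 0) := by
    have := (tendsto_pow_atTop_nhds_zero_of_lt_one (abs_nonneg l1) b).mul_const
      ((B + |t2|) / |l2| + |g 0|)
    simpa using this
  have := ge_of_tendsto' hlim hbd
  exact hg10 (abs_nonpos_iff.1 this)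

/-- an injective continuous function on `[0,1]`: distances to `g 0` are strictly increasing -/
lemma mono_dist {g : ℝ → ℝ} (hg : ContinuousOn g (Icc 0 1)) (hgi : InjOn g (Icc 0 1)) :
    (∀ x ∈ Icc (0:ℝ) 1, ∀ y ∈ Icc (0:ℝ) 1, x < y → g x - g 0 < g y - g 0) ∨
    (∀ x ∈ Icc (0:ℝ) 1, ∀ y ∈ Icc (0:ℝ) 1, x < y → g 0 - g x < g 0 - g y) := by
  rcases hg.strictMonoOn_of_injOn_Icc' (by norm_num) hgi with h | h
  · left; intro x hx y hy hxy; have := h hx hy hxy; linarith
  · right; intro x hx y hy hxy; have := h hx hy hxy; linarith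

/-- two words without the letter `4`, comparison of multipliers -/
lemma mult_le {κ C R : ℝ} (h : Good κ C R) {g : ℝ → ℝ} {u v : List (Fin 5)} {l1 l2 : ℝ}
    (hl : u.length = v.length) (hn : 1 ≤ u.length)
    (hu : ∀ a ∈ u, a ≠ 4) (hv : ∀ a ∈ v, a ≠ 4)
    (hg : ∀ x ∈ Icc (0:ℝ) 1, ∀ y ∈ Icc (0:ℝ) 1, x < y → g x - g 0 < g y - g 0)
    (h1 : ∀ x ∈ Icc (0:ℝ) 1, g (comp (fr κ C R) u x) - g 0 = l1 * (g x - g 0))
    (h2 : ∀ x ∈ Icc (0:ℝ) 1, g (comp (fr κ C R) v x) - g 0 = l2 * (g x - g 0))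
    (hl1 : 0 < l1) (hl2 : 0 < l2) : l2 ≤ l1 := by
  by_contra hlt
  push Not at hlt
  have hone : (1:ℝ) ∈ Icc (0:ℝ) 1 := by simp
  have hD : 0 < g 1 - g 0 := by
    have := hg 0 (by simp) 1 (by simp) one_pos
    linarith
  -- `l2^(k+1) ≤ l1^k`
  have key : ∀ k : ℕ, l2 ^ (k + 1) ≤ l1 ^ k := by
    intro k
    have e1 := rep_conj h (c := g 0) h1 k 1 hone
    have e2 := rep_conj h (c := g 0) h2 (k + 1) 1 hone
    have m1 := comp_mem h (rep u k) hone
    have m2 := comp_mem h (rep v (k + 1)) hone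
    have hle : comp (fr κ C R) (rep v (k + 1)) 1 ≤ comp (fr κ C R) (rep u k) 1 := by
      have s1 := S_mul_lt h (rep u k) (x := 1) le_rfl
      have s2 := S_mul_lt h (rep v (k + 1)) (x := 1) le_rfl
      have n1 : 0 ≤ κ * S (rep u k) * 1 := by
        have := S_nonneg (rep u k); have := h.κpos; positivity
      rw [comp_D h _ (rep_mem hu k) 1 (by linarith),
        comp_D h _ (rep_mem hv (k + 1)) 1 (by linarith)]
      rw [rep_length, rep_length, ← hl]
      have hp : (0:ℝ) < (1 / 2 : ℝ) ^ (k * u.length) := by positivity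
      have hp2 : (1 / 2 : ℝ) ^ ((k + 1) * u.length) ≤ (1 / 2 : ℝ) ^ (k * u.length) * (1 / 2) := by
        rw [← pow_succ]
        apply pow_le_pow_of_le_one (by norm_num) (by norm_num)
        nlinarith
      rw [div_le_div_iff₀ (by linarith) (by linarith)]
      nlinarith
    have hle2 : g (comp (fr κ C R) (rep v (k + 1)) 1) - g 0
        ≤ g (comp (fr κ C R) (rep u k) 1) - g 0 := by
      rcases hle.eq_or_lt with h3 | h3
      · rw [h3]
      · exact (hg _ m2 _ m1 h3).le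
    rw [e1, e2] at hle2
    exact le_of_mul_le_mul_right hle2 hD
  -- contradiction
  have hlim : Tendsto (fun k : ℕ => (l1 / l2) ^ k) atTop (𝓝 0) :=
    tendsto_pow_atTop_nhds_zero_of_lt_one (by positivity) ((div_lt_one hl2).2 hlt)
  have : l2 ≤ 0 := by
    apply ge_of_tendsto' hlim
    intro k
    rw [div_pow, le_div_iff₀ (by positivity)]
    have := key k
    rw [pow_succ] at this
    linarith
  linarith

lemma mult_pos {κ C R : ℝ} (h : Good κ C R) {g : ℝ → ℝ} {u : List (Fin 5)} {l1 : ℝ}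
    (hu : ∀ a ∈ u, a ≠ 4)
    (hg : ∀ x ∈ Icc (0:ℝ) 1, ∀ y ∈ Icc (0:ℝ) 1, x < y → g x - g 0 < g y - g 0)
    (h1 : ∀ x ∈ Icc (0:ℝ) 1, g (comp (fr κ C R) u x) - g 0 = l1 * (g x - g 0)) : 0 < l1 := by
  have hone : (1:ℝ) ∈ Icc (0:ℝ) 1 := by simp
  have hD : 0 < g 1 - g 0 := by
    have := hg 0 (by simp) 1 (by simp) one_pos
    linarith
  have m1 := comp_mem h u hone
  have hpos : 0 < comp (fr κ C R) u 1 := by
    have s1 := S_mul_lt h u (x := 1) le_rfl
    rw [comp_D h u hu 1 (by linarith)]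
    apply div_pos (by positivity) (by linarith)
  have := hg 0 (by simp) _ m1 hpos
  rw [h1 1 hone] at this
  have h3 : 0 < l1 * (g 1 - g 0) := by linarith
  exact (pos_iff_pos_of_mul_pos h3).2 hD

/-- two words without the letter `4`: increasing case -/
lemma DD_aux {κ C R : ℝ} (h : Good κ C R) {g : ℝ → ℝ} {u v : List (Fin 5)} {l1 l2 : ℝ}
    (hl : u.length = v.length) (hn : 1 ≤ u.length)
    (hu : ∀ a ∈ u, a ≠ 4) (hv : ∀ a ∈ v, a ≠ 4)
    (hg : ∀ x ∈ Icc (0:ℝ) 1, ∀ y ∈ Icc (0:ℝ) 1, x < y → g x - g 0 < g y - g 0)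
    (h1 : ∀ x ∈ Icc (0:ℝ) 1, g (comp (fr κ C R) u x) - g 0 = l1 * (g x - g 0))
    (h2 : ∀ x ∈ Icc (0:ℝ) 1, g (comp (fr κ C R) v x) - g 0 = l2 * (g x - g 0)) : l1 = l2 := by
  have p1 := mult_pos h hu hg h1
  have p2 := mult_pos h hv hg h2
  exact le_antisymm (mult_le h hl.symm (hl ▸ hn) hv hu hg h2 h1 p2 p1)
    (mult_le h hl hn hu hv hg h1 h2 p1 p2)

lemma S_of_eq {κ C R : ℝ} (h : Good κ C R) {u v : List (Fin 5)}
    (hu : ∀ a ∈ u, a ≠ 4) (hv : ∀ a ∈ v, a ≠ 4) (hl : u.length = v.length)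
    (he : comp (fr κ C R) u 1 = comp (fr κ C R) v 1) : u = v := by
  have s1 := S_mul_lt h u (x := 1) le_rfl
  have s2 := S_mul_lt h v (x := 1) le_rfl
  rw [comp_D h u hu 1 (by linarith), comp_D h v hv 1 (by linarith), hl] at he
  have hp : (1 / 2 : ℝ) ^ v.length * 1 ≠ 0 := by positivity
  rw [div_eq_div_iff (by linarith) (by linarith)] at he
  have h1 := mul_left_cancel₀ hp he
  apply S_inj u v hl hu hv
  have := h.κpos
  have h2 : κ * S u = κ * S v := by linarith
  exact mul_left_cancel₀ this.ne' h2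

/-- two words without the letter `4` -/
lemma D_D {κ C R : ℝ} (h : Good κ C R) {u v : List (Fin 5)}
    (hl : u.length = v.length) (hn : 1 ≤ u.length)
    (hu : ∀ a ∈ u, a ≠ 4) (hv : ∀ a ∈ v, a ≠ 4) (hS : Sh (fr κ C R) u v) : u = v := by
  obtain ⟨g, hg, hgi, l1, t1, l2, t2, a, b, c, d, e, k⟩ := hS
  have hf1 := fix_zero h hu e
  have hf2 := fix_zero h hv k
  have hone : (1:ℝ) ∈ Icc (0:ℝ) 1 := by simp
  have hll : l1 = l2 := by
    rcases mono_dist hg.continuousOn hgi with hm | hm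
    · exact DD_aux h hl hn hu hv hm hf1 hf2
    · refine DD_aux h (g := fun x => - g x) hl hn hu hv (fun x hx y hy hxy => ?_)
        (fun x hx => ?_) (fun x hx => ?_)
      · have := hm x hx y hy hxy; linarith
      · have := hf1 x hx; linarith
      · have := hf2 x hx; linarith
  apply S_of_eq h hu hv hl
  apply hgi (comp_mem h u hone) (comp_mem h v hone)
  have e1 := hf1 1 hone
  have e2 := hf2 1 hone
  rw [hll] at e1
  linarith

/-- the last letters agree -/
lemma last_eq {κ C R : ℝ} (h : Good κ C R) {p q : List (Fin 5)} {a b : Fin 5}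
    (hl : p.length = q.length) (hS : Sh (fr κ C R) (p ++ [a]) (q ++ [b])) : a = b := by
  rcases decomp (p ++ [a]) with hu | ⟨u', w, hu, hw⟩
  · rcases decomp (q ++ [b]) with hv | ⟨v', z, hv, hz⟩
    · have := D_D h (by simp [hl]) (by simp) hu hv hS
      have h2 := congrArg List.getLast? this
      simpa using h2
    · rw [hv] at hS
      exact absurd hS (D_star h hu hz)
  · rcases decomp (q ++ [b]) with hv | ⟨v', z, hv, hz⟩
    · rw [hu] at hS
      exact absurd hS.symm (D_star h hv hw)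
    · rw [hu, hv] at hS
      have h1 := star_star_le h hw hz hS
      have h2 := star_star_le h hz hw hS.symm
      have h3 := E_C_inj h hw hz (le_antisymm h1 h2)
      subst h3
      have g1 := congrArg List.getLast? hu
      have g2 := congrArg List.getLast? hv
      simp only [List.getLast?_append, List.getLast?_singleton] at g1 g2
      have g3 : ((4 : Fin 5) :: w).getLast?.isSome := by simp
      obtain ⟨y, hy⟩ := Option.isSome_iff_exists.1 g3
      rw [hy] at g1 g2
      simp at g1 g2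
      rw [g1, g2]

/-- rotation of the words by one letter -/
lemma rotate {κ C R : ℝ} (h : Good κ C R) {p q : List (Fin 5)} {a : Fin 5}
    (hS : Sh (fr κ C R) (p ++ [a]) (q ++ [a])) : Sh (fr κ C R) (a :: p) (a :: q) := by
  obtain ⟨g, hg, hgi, l1, t1, l2, t2, n1, b1, n2, b2, e, k⟩ := hS
  have hA : AnalyticOnNhd ℝ (fun x => (g (comp (fr κ C R) p x) - t1) / l1) (Icc 0 1) := by
    intro x hx
    have : AnalyticAt ℝ (fun x => g (comp (fr κ C R) p x)) x :=
      (hg _ (comp_mem h p hx)).comp (comp_analytic h p hx)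
    exact (this.sub analyticAt_const).div analyticAt_const n1
  have hB : AnalyticOnNhd ℝ (fun x => (g (comp (fr κ C R) q x) - t2) / l2) (Icc 0 1) := by
    intro x hx
    have : AnalyticAt ℝ (fun x => g (comp (fr κ C R) q x)) x :=
      (hg _ (comp_mem h q hx)).comp (comp_analytic h q hx)
    exact (this.sub analyticAt_const).div analyticAt_const n2
  -- values on the image of the last letter
  have c1 : ∀ x ∈ Icc (0:ℝ) 1,
      (g (comp (fr κ C R) p (fr κ C R a x)) - t1) / l1 = g x := by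
    intro x hx
    have := e x hx
    rw [comp_append] at this
    simp only [comp] at this
    rw [this]; field_simp; ring
  have c2 : ∀ x ∈ Icc (0:ℝ) 1,
      (g (comp (fr κ C R) q (fr κ C R a x)) - t2) / l2 = g x := by
    intro x hx
    have := k x hx
    rw [comp_append] at this
    simp only [comp] at this
    rw [this]; field_simp; ring
  have hhalf : (1/2:ℝ) ∈ Icc (0:ℝ) 1 := by constructor <;> norm_num
  have hAB : EqOn (fun x => (g (comp (fr κ C R) p x) - t1) / l1)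
      (fun x => (g (comp (fr κ C R) q x) - t2) / l2) (Icc 0 1) := by
    apply hA.eqOn_of_preconnected_of_frequently_eq hB isPreconnected_Icc
      (z₀ := fr κ C R a (1/2)) (fr_mem h a hhalf)
    have ht : Tendsto (fr κ C R a) (𝓝[≠] (1/2 : ℝ)) (𝓝[≠] (fr κ C R a (1/2))) := by
      apply tendsto_nhdsWithin_iff.2
      constructor
      · exact ((fr_analytic h a hhalf).continuousAt.tendsto).mono_left nhdsWithin_le_nhds
      · have : Icc (0:ℝ) 1 ∈ 𝓝 (1/2 : ℝ) := Icc_mem_nhds (by norm_num) (by norm_num)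
        filter_upwards [nhdsWithin_le_nhds this, self_mem_nhdsWithin] with x hx hne heq
        exact hne (fr_inj h a hx hhalf heq)
    apply ht.frequently
    apply Eventually.frequently
    have : Icc (0:ℝ) 1 ∈ 𝓝 (1/2 : ℝ) := Icc_mem_nhds (by norm_num) (by norm_num)
    filter_upwards [nhdsWithin_le_nhds this] with x hx
    rw [c1 x hx, c2 x hx]
  refine ⟨fun x => (g (comp (fr κ C R) p x) - t1) / l1, hA, ?_, l1, t1, l2, t2, n1, b1, n2, b2,
    ?_, ?_⟩
  · intro x hx y hy hxy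
    dsimp only at hxy
    rw [div_left_inj' n1] at hxy
    exact comp_inj h p hx hy (hgi (comp_mem h p hx) (comp_mem h p hy) (by linarith))
  · intro x hx
    simp only [comp]
    rw [c1 _ (comp_mem h p hx)]
    field_simp
    ring
  · intro x hx
    have h1 := hAB hx
    dsimp only at h1
    simp only [comp]
    rw [c1 _ (comp_mem h q hx), h1]
    field_simp
    ring

/-- two words of the same length which are conjugate to similarities by the same analytic
injective map are equal -/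
theorem Sh_eq {κ C R : ℝ} (h : Good κ C R) (n : ℕ) : ∀ p q z : List (Fin 5),
    p.length = n → q.length = n → Sh (fr κ C R) (z ++ p) (z ++ q) → p = q := by
  induction n with
  | zero =>
    intro p q z hp hq _
    rw [List.length_eq_zero_iff.1 hp, List.length_eq_zero_iff.1 hq]
  | succ n ih =>
    intro p q z hp hq hS
    obtain ⟨p', a, rfl⟩ : ∃ p' a, p = p' ++ [a] := by
      rcases List.eq_nil_or_concat p with h0 | ⟨p', a, h0⟩
      · rw [h0] at hp; simp at hp
      · exact ⟨p', a, by simpa using h0⟩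
    obtain ⟨q', b, rfl⟩ : ∃ q' b, q = q' ++ [b] := by
      rcases List.eq_nil_or_concat q with h0 | ⟨q', b, h0⟩
      · rw [h0] at hq; simp at hq
      · exact ⟨q', b, by simpa using h0⟩
    have hp' : p'.length = n := by simpa using hp
    have hq' : q'.length = n := by simpa using hq
    rw [← List.append_assoc, ← List.append_assoc] at hS
    have hab := last_eq h (by simp [hp', hq']) hS
    subst hab
    have hr := rotate h hS
    rw [← List.cons_append, ← List.cons_append] at hr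
    have := ih p' q' (a :: z) hp' hq' hr
    rw [this]

/-! ## no exact overlaps -/

/-- equality on the unit interval -/
def Eq01 (f : Fin 5 → ℝ → ℝ) (u v : List (Fin 5)) : Prop :=
  ∀ x ∈ Icc (0:ℝ) 1, comp f u x = comp f v x

lemma Eq01.symm {f : Fin 5 → ℝ → ℝ} {u v : List (Fin 5)} (h : Eq01 f u v) : Eq01 f v u :=
  fun x hx => (h x hx).symm

lemma eq_star_le {κ C R : ℝ} (h : Good κ C R) {u' w v' z : List (Fin 5)}
    (hw : ∀ a ∈ w, a ≠ 4) (hz : ∀ a ∈ z, a ≠ 4)
    (hS : Eq01 (fr κ C R) (u' ++ 4 :: w) (v' ++ 4 :: z)) : E κ z C ≤ E κ w C := by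
  by_contra hlt
  push Not at hlt
  have hCp : 0 < C := by linarith [h.C1, h.R1]
  set Y := min (E κ z C) (E κ w (2 * C)) with hYdef
  have hYw : E κ w C < Y := lt_min hlt (E_lt h.κpos w hCp.le (by linarith))
  have hYz : Y ≤ E κ z C := min_le_left _ _
  have hYw2 : Y ≤ E κ w (2 * C) := min_le_right _ _
  have hz2 : E κ z C ≤ E κ z (2 * C) := (E_lt h.κpos z hCp.le (by linarith)).le
  have h1Y : 1 ≤ Y := ((one_lt_E h w).trans hYw).le
  have heq := ident h1Y (p := comp (fr κ C R) (u' ++ 4 :: w)) (q := comp (fr κ C R) (v' ++ 4 :: z))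
    (fun x hx => star_analytic h u' w hw ⟨hx.1, hx.2.trans hYw2⟩)
    (fun x hx => star_analytic h v' z hz ⟨hx.1, hx.2.trans (hYz.trans hz2)⟩) hS
  obtain ⟨x, hx, y, hy, hne, hxy⟩ := star_fold h u' w hw hYw
  rw [heq hx, heq hy] at hxy
  exact hne (star_inj h v' z hz ⟨hx.1, hx.2.trans hYz⟩ ⟨hy.1, hy.2.trans hYz⟩ hxy)

lemma eq_D_star {κ C R : ℝ} (h : Good κ C R) {u v' z : List (Fin 5)}
    (hu : ∀ a ∈ u, a ≠ 4) (hz : ∀ a ∈ z, a ≠ 4) :
    ¬ Eq01 (fr κ C R) u (v' ++ 4 :: z) := by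
  intro hS
  have hCp : 0 < C := by linarith [h.C1, h.R1]
  have hz2 : E κ z C ≤ E κ z (2 * C) := (E_lt h.κpos z hCp.le (by linarith)).le
  have hE2 : 1 ≤ E κ u 2 := by
    have hd := E_den h.κpos u (c := 2) (by norm_num)
    have h1 := S_mul_lt h u (x := 1) le_rfl
    unfold E
    rw [one_le_div hd]
    have : (1 / 2 : ℝ) ^ u.length ≤ 1 := pow_le_one₀ (by norm_num) (by norm_num)
    linarith
  rcases le_or_gt (E κ u 2) (E κ z C) with hc | hc
  · have heq := ident hE2 (p := comp (fr κ C R) u) (q := comp (fr κ C R) (v' ++ 4 :: z))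
      (fun x hx => comp_D_analytic h u hu (lt_one_of_le h.κpos u (by norm_num) hx.2))
      (fun x hx => star_analytic h v' z hz ⟨hx.1, hx.2.trans (hc.trans hz2)⟩) hS
    have hm : E κ u 2 ∈ Icc 0 (E κ u 2) := ⟨E_nonneg h.κpos u (by norm_num), le_rfl⟩
    have h1 := heq hm
    rw [comp_E h u hu (by norm_num)] at h1
    have h2 := star_mem h v' z hz (x := E κ u 2) ⟨hm.1, hc.trans hz2⟩
    rw [← h1] at h2
    linarith [h2.2]
  · set Y := min (E κ u 2) (E κ z (2 * C)) with hYdef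
    have hYw : E κ z C < Y := lt_min hc (E_lt h.κpos z hCp.le (by linarith))
    have hY1 : Y ≤ E κ u 2 := min_le_left _ _
    have hY2 : Y ≤ E κ z (2 * C) := min_le_right _ _
    have h1Y : 1 ≤ Y := ((one_lt_E h z).trans hYw).le
    have heq := ident h1Y (p := comp (fr κ C R) u) (q := comp (fr κ C R) (v' ++ 4 :: z))
      (fun x hx => comp_D_analytic h u hu
        (lt_one_of_le h.κpos u (by norm_num) (hx.2.trans hY1)))
      (fun x hx => star_analytic h v' z hz ⟨hx.1, hx.2.trans hY2⟩) hS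
    obtain ⟨x, hx, y, hy, hne, hxy⟩ := star_fold h v' z hz hYw
    rw [← heq hx, ← heq hy] at hxy
    have hx1 := lt_one_of_le h.κpos u (by norm_num : (0:ℝ) ≤ 2) (hx.2.trans hY1)
    have hy1 := lt_one_of_le h.κpos u (by norm_num : (0:ℝ) ≤ 2) (hy.2.trans hY1)
    rcases lt_or_gt_of_ne hne with h3 | h3
    · have := comp_D_lt h u hu h3 hy1
      linarith
    · have := comp_D_lt h u hu h3 hx1
      linarith

lemma eq_D_D {κ C R : ℝ} (h : Good κ C R) {u v : List (Fin 5)}
    (hu : ∀ a ∈ u, a ≠ 4) (hv : ∀ a ∈ v, a ≠ 4)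
    (hS : Eq01 (fr κ C R) u v) : u = v := by
  have hl : u.length = v.length := by
    have su := fun x (hx : x ≤ (1:ℝ)) => S_mul_lt h u hx
    have sv := fun x (hx : x ≤ (1:ℝ)) => S_mul_lt h v hx
    have e1 := hS 1 (by simp)
    have e2 := hS (1/2) (by constructor <;> norm_num)
    rw [comp_D h u hu _ (by linarith [su 1 le_rfl]),
      comp_D h v hv _ (by linarith [sv 1 le_rfl]),
      div_eq_div_iff (by linarith [su 1 le_rfl]) (by linarith [sv 1 le_rfl])] at e1
    rw [comp_D h u hu _ (by linarith [su (1/2) (by norm_num)]),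
      comp_D h v hv _ (by linarith [sv (1/2) (by norm_num)]),
      div_eq_div_iff (by linarith [su (1/2) (by norm_num)])
        (by linarith [sv (1/2) (by norm_num)])] at e2
    have : (1 / 2 : ℝ) ^ u.length = (1 / 2 : ℝ) ^ v.length := by linarith
    exact pow_right_injective₀ (by norm_num : (0:ℝ) < 1/2) (by norm_num) this
  exact S_of_eq h hu hv hl (hS 1 (by simp))

lemma eq_cancel {κ C R : ℝ} (h : Good κ C R) {u' v' w : List (Fin 5)}
    (hS : Eq01 (fr κ C R) (u' ++ w) (v' ++ w)) : Eq01 (fr κ C R) u' v' := by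
  have hhalf : (1/2:ℝ) ∈ Icc (0:ℝ) 1 := by constructor <;> norm_num
  have hA : AnalyticOnNhd ℝ (comp (fr κ C R) u') (Icc 0 1) := fun x hx => comp_analytic h u' hx
  have hB : AnalyticOnNhd ℝ (comp (fr κ C R) v') (Icc 0 1) := fun x hx => comp_analytic h v' hx
  have hAB : EqOn (comp (fr κ C R) u') (comp (fr κ C R) v') (Icc 0 1) := by
    apply hA.eqOn_of_preconnected_of_frequently_eq hB isPreconnected_Icc
      (z₀ := comp (fr κ C R) w (1/2)) (comp_mem h w hhalf)
    have ht : Tendsto (comp (fr κ C R) w) (𝓝[≠] (1/2 : ℝ))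
        (𝓝[≠] (comp (fr κ C R) w (1/2))) := by
      apply tendsto_nhdsWithin_iff.2
      constructor
      · exact ((comp_analytic h w hhalf).continuousAt.tendsto).mono_left nhdsWithin_le_nhds
      · have : Icc (0:ℝ) 1 ∈ 𝓝 (1/2 : ℝ) := Icc_mem_nhds (by norm_num) (by norm_num)
        filter_upwards [nhdsWithin_le_nhds this, self_mem_nhdsWithin] with x hx hne heq
        exact hne (comp_inj h w hx hhalf heq)
    apply ht.frequently
    apply Eventually.frequently
    have : Icc (0:ℝ) 1 ∈ 𝓝 (1/2 : ℝ) := Icc_mem_nhds (by norm_num) (by norm_num)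
    filter_upwards [nhdsWithin_le_nhds this] with x hx
    have := hS x hx
    rwa [comp_append, comp_append] at this
  exact hAB

/-- distinct words give distinct maps on the unit interval -/
theorem Eq01_eq {κ C R : ℝ} (h : Good κ C R) (n : ℕ) : ∀ u v : List (Fin 5),
    u.length + v.length ≤ n → Eq01 (fr κ C R) u v → u = v := by
  induction n using Nat.strong_induction_on with
  | _ n ih =>
    intro u v hn hS
    rcases decomp u with hu | ⟨u', w, hu, hw⟩
    · rcases decomp v with hv | ⟨v', z, hv, hz⟩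
      · exact eq_D_D h hu hv hS
      · rw [hv] at hS
        exact absurd hS (eq_D_star h hu hz)
    · rcases decomp v with hv | ⟨v', z, hv, hz⟩
      · rw [hu] at hS
        exact absurd hS.symm (eq_D_star h hv hw)
      · rw [hu, hv] at hS
        have h1 := eq_star_le h hw hz hS
        have h2 := eq_star_le h hz hw hS.symm
        have h3 := E_C_inj h hw hz (le_antisymm h1 h2)
        subst h3
        have h4 := eq_cancel h hS
        have h5 := ih (u'.length + v'.length) (by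
          rw [hu, hv] at hn
          simp only [List.length_append, List.length_cons] at hn
          omega) u' v' le_rfl h4
        rw [hu, hv, h5]

/-! ## super-exponential condensation -/

/-- words with letters `0, 1` and prescribed digit sum -/
lemma exists_word (n : ℕ) : ∀ P : ℕ, P < 2 ^ n → ∃ w : List (Fin 5), w.length = n ∧
    (∀ a ∈ w, a ≠ 4) ∧ M w = P := by
  induction n with
  | zero =>
    intro P hP
    exact ⟨[], rfl, by simp, by simp at hP; simp [M, hP]⟩
  | succ n ih =>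
    intro P hP
    obtain ⟨w, h1, h2, h3⟩ := ih (P / 2) (by rw [pow_succ] at hP; omega)
    rcases Nat.mod_two_eq_zero_or_one P with h0 | h0
    · refine ⟨0 :: w, by simp [h1], ?_, ?_⟩
      · intro a ha
        rcases List.mem_cons.1 ha with rfl | ha
        · decide
        · exact h2 a ha
      · have : P = 2 * (P / 2) := by omega
        simp only [M, h3, dig]
        rw [if_neg (by decide), if_neg (by decide), if_neg (by decide)]
        rw [zero_add]
        exact_mod_cast this.symm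
    · refine ⟨1 :: w, by simp [h1], ?_, ?_⟩
      · intro a ha
        rcases List.mem_cons.1 ha with rfl | ha
        · decide
        · exact h2 a ha
      · have : P = 1 + 2 * (P / 2) := by omega
        have h4 : dig 1 = 1 := by simp [dig]
        simp only [M, h3, h4]
        exact_mod_cast this.symm

/-- a word with one letter `b` at a given place -/
lemma exists_word2 (b : Fin 5) (hb : b ≠ 4) (n : ℕ) : ∀ l : ℕ, l < n →
    ∃ w : List (Fin 5), w.length = n ∧ (∀ a ∈ w, a ≠ 4) ∧ M w = 2 ^ l * dig b := by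
  induction n with
  | zero => intro l hl; omega
  | succ n ih =>
    intro l hl
    rcases Nat.eq_zero_or_pos l with h0 | h0
    · obtain ⟨w, h1, h2, h3⟩ := exists_word n 0 (by positivity)
      refine ⟨b :: w, by simp [h1], ?_, ?_⟩
      · intro a ha
        rcases List.mem_cons.1 ha with rfl | ha
        · exact hb
        · exact h2 a ha
      · simp [M, h3, h0]
    · obtain ⟨w, h1, h2, h3⟩ := ih (l - 1) (by omega)
      refine ⟨0 :: w, by simp [h1], ?_, ?_⟩
      · intro a ha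
        rcases List.mem_cons.1 ha with rfl | ha
        · decide
        · exact h2 a ha
      · simp only [M, h3]
        have h4 : dig 0 = 0 := by simp [dig]
        rw [h4, zero_add, ← mul_assoc, ← pow_succ']
        congr 2
        omega

/-- the distance of two compositions is controlled by the digit sums -/
lemma comp_dist {κ C R : ℝ} (h : Good κ C R) {u v : List (Fin 5)}
    (hu : ∀ a ∈ u, a ≠ 4) (hv : ∀ a ∈ v, a ≠ 4) (hl : u.length = v.length)
    (hn : 1 ≤ u.length) {x : ℝ} (hx : x ∈ Icc (0:ℝ) 1) :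
    |comp (fr κ C R) u x - comp (fr κ C R) v x| ≤ |M u - M v| := by
  have su := S_mul_lt h u hx.2
  have sv := S_mul_lt h v hx.2
  have hk := h.κpos
  have hk1 := κ_le h
  rw [comp_D h u hu x (by linarith), comp_D h v hv x (by linarith), ← hl]
  have d1 : (4/5:ℝ) ≤ 1 - κ * S u * x := by linarith
  have d2 : (4/5:ℝ) ≤ 1 - κ * S v * x := by linarith
  have hq : (1 / 2 : ℝ) ^ u.length ≤ 1 / 2 := by
    calc (1 / 2 : ℝ) ^ u.length ≤ (1 / 2 : ℝ) ^ 1 :=
          pow_le_pow_of_le_one (by norm_num) (by norm_num) hn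
      _ = 1 / 2 := by norm_num
  have hq0 : (0:ℝ) < (1 / 2 : ℝ) ^ u.length := by positivity
  have e1 : (1 / 2 : ℝ) ^ u.length * x / (1 - κ * S u * x)
      - (1 / 2 : ℝ) ^ u.length * x / (1 - κ * S v * x)
      = ((1 / 2 : ℝ) ^ u.length * x * (κ * x)) * (S u - S v)
        / ((1 - κ * S u * x) * (1 - κ * S v * x)) := by
    rw [div_sub_div _ _ (by linarith) (by linarith)]
    congr 1
    ring
  have e2 : S u - S v = 2 * (1 / 2 : ℝ) ^ u.length * (M u - M v) := by
    rw [S_eq u, S_eq v, ← hl]; ring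
  have e3 : |(1 / 2 : ℝ) ^ u.length * x * (κ * x) * (S u - S v)|
      = |(1 / 2 : ℝ) ^ u.length * x * (κ * x)| * (|2 * (1 / 2 : ℝ) ^ u.length| * |M u - M v|) := by
    rw [abs_mul, e2, abs_mul (2 * (1 / 2 : ℝ) ^ u.length)]
  rw [e1, abs_div, e3]
  have hden : (16/25:ℝ) ≤ |(1 - κ * S u * x) * (1 - κ * S v * x)| := by
    rw [abs_of_pos (by positivity)]
    nlinarith
  rw [div_le_iff₀ (by linarith)]
  have hc : |(1 / 2 : ℝ) ^ u.length * x * (κ * x)| ≤ 1 / 20 := by
    rw [abs_of_nonneg (by have := hx.1; positivity)]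
    calc (1 / 2 : ℝ) ^ u.length * x * (κ * x) ≤ (1/2) * 1 * ((1/10) * 1) := by
          have := hx.1
          have := hx.2
          gcongr
      _ = 1 / 20 := by norm_num
  have hc2 : |2 * (1 / 2 : ℝ) ^ u.length| ≤ 1 := by
    rw [abs_of_pos (by positivity)]; linarith
  have hM := abs_nonneg (M u - M v)
  calc |(1 / 2 : ℝ) ^ u.length * x * (κ * x)| * (|2 * (1 / 2 : ℝ) ^ u.length| * |M u - M v|)
      ≤ (1/20) * (1 * |M u - M v|) := by gcongr
    _ ≤ |M u - M v| * (16/25) := by linarith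
    _ ≤ |M u - M v| * |(1 - κ * S u * x) * (1 - κ * S v * x)| := by gcongr

/-- super-exponential condensation -/
theorem condense {κ C R : ℝ} (h : Good κ C R) (c : ℝ) (hc : 0 < c) :
    ∃ K : ℕ, ∀ n : ℕ, K ≤ n → ∃ u v : List (Fin 5), u.length = n ∧ v.length = n ∧ u ≠ v ∧
      ∃ B : ℝ, B < c ^ n ∧
        ∀ x ∈ Icc (0:ℝ) 1, |comp (fr κ C R) u x - comp (fr κ C R) v x| ≤ B := by
  obtain ⟨K, hK⟩ := good_approx c hc
  refine ⟨K, fun n hn => ?_⟩
  obtain ⟨e, he, l, hl, P, hP, h1, h2⟩ := hK n hn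
  obtain ⟨b, hb, hbd⟩ : ∃ b : Fin 5, b ≠ 4 ∧ dig b = sx e := by
    interval_cases e
    · exact ⟨2, by decide, by simp [dig]⟩
    · exact ⟨3, by decide, by simp [dig]⟩
  obtain ⟨u, u1, u2, u3⟩ := exists_word2 b hb n l hl
  obtain ⟨v, v1, v2, v3⟩ := exists_word n P hP
  rw [hbd] at u3
  refine ⟨u, v, u1, v1, ?_, |M u - M v|, ?_, ?_⟩
  · intro huv
    rw [huv, v3] at u3
    rw [← u3] at h1
    simp at h1
  · rw [u3, v3, abs_of_pos h1]; exact h2
  · intro x hx
    exact comp_dist h u2 v2 (u1.trans v1.symm) (by omega) hx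

end Pool.Agent.V1180.Cond
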