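import Mathlib

set_option autoImplicit false

/-! An explicit smooth bubble in `R^3`: `w(x) = ρ² (x-y) (ρ² + |x-y|²)^{-3/2}`. -/

open Set Filter Topology MeasureTheory Metric
open scoped ContDiff ENNReal

namespace Pool.Agent.V1180.Bub

section Gen

variable {E : Type*} [NormedAddCommGroup E] [InnerProductSpace ℝ E]

/-- `t = (ρ² + |x-y|²)^{-1/2}` -/
noncomputable def tt (ρ : ℝ) (y x : E) : ℝ := (√(ρ ^ 2 + ‖x - y‖ ^ 2))⁻¹

variable {ρ : ℝ} (y x : E)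

theorem s_pos (hρ : 0 < ρ) : 0 < ρ ^ 2 + ‖x - y‖ ^ 2 := by positivity

theorem tt_pos (hρ : 0 < ρ) : 0 < tt ρ y x := inv_pos.2 (Real.sqrt_pos.2 (s_pos y x hρ))

theorem tt_sq (hρ : 0 < ρ) : tt ρ y x ^ 2 * (ρ ^ 2 + ‖x - y‖ ^ 2) = 1 := by
  unfold tt
  rw [inv_pow, Real.sq_sqrt (s_pos y x hρ).le]
  exact inv_mul_cancel₀ (s_pos y x hρ).ne'

theorem tt_contDiff (hρ : 0 < ρ) : ContDiff ℝ ∞ (tt ρ y) := by
  unfold tt
  have h1 : ContDiff ℝ ∞ (fun x : E => ρ ^ 2 + ‖x - y‖ ^ 2) :=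
    contDiff_const.add ((contDiff_norm_sq ℝ).comp (contDiff_id.sub contDiff_const))
  exact (h1.sqrt fun x => (s_pos y x hρ).ne').inv
    fun x => (Real.sqrt_pos.2 (s_pos y x hρ)).ne'

theorem tt_fderiv (hρ : 0 < ρ) (v : E) :
    fderiv ℝ (tt ρ y) x v = - (tt ρ y x) ^ 3 * inner ℝ (x - y) v := by
  have h1 : HasFDerivAt (fun x : E => ρ ^ 2 + ‖x - y‖ ^ 2) (2 • innerSL ℝ (x - y)) x := by
    have := ((hasFDerivAt_id x).sub_const y).norm_sq.const_add (ρ ^ 2)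
    simpa using this
  have hs := s_pos y x hρ
  have h2 := (h1.sqrt hs.ne')
  have h3 := (hasDerivAt_inv (Real.sqrt_pos.2 hs).ne').comp_hasFDerivAt x h2
  have h4 : ((fun y => y⁻¹) ∘ fun y_1 : E => √(ρ ^ 2 + ‖y_1 - y‖ ^ 2)) = tt ρ y := rfl
  rw [h4] at h3
  rw [h3.fderiv]
  have : √(ρ ^ 2 + ‖x - y‖ ^ 2) ≠ 0 := (Real.sqrt_pos.2 hs).ne'
  simp only [tt]
  rw [smul_apply, smul_apply, smul_apply, innerSL_apply_apply]
  simp
  field_simp

/-- derivative of a product `c * (affine) * t^m` -/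
theorem fderiv_mul_apply {f g : E → ℝ} {x : E} (hf : DifferentiableAt ℝ f x)
    (hg : DifferentiableAt ℝ g x) (v : E) :
    fderiv ℝ (fun z => f z * g z) x v = f x * fderiv ℝ g x v + g x * fderiv ℝ f x v := by
  rw [fderiv_fun_mul hf hg]
  simp

theorem tt_pow_fderiv (hρ : 0 < ρ) (m : ℕ) (v : E) :
    fderiv ℝ (fun z => tt ρ y z ^ (m + 1)) x v =
      - (m + 1) * (tt ρ y x) ^ (m + 3) * inner ℝ (x - y) v := by
  have hd : DifferentiableAt ℝ (tt ρ y) x :=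
    ((tt_contDiff y hρ).differentiable (by simp)) x
  have h1 := ((hasDerivAt_pow (m + 1) (tt ρ y x)).comp_hasFDerivAt x hd.hasFDerivAt).fderiv
  have h2 : ((fun x => x ^ (m + 1)) ∘ tt ρ y) = fun z => tt ρ y z ^ (m + 1) := rfl
  rw [h2] at h1
  rw [h1]
  simp only [smul_apply, smul_eq_mul, tt_fderiv y x hρ]
  push_cast
  simp
  ring

end Gen

/-- `R^n` -/
abbrev Vec (n : ℕ) := EuclideanSpace ℝ (Fin n)

/-- `n × k` matrices with the Frobenius norm -/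
abbrev Mat (n k : ℕ) := EuclideanSpace ℝ (Fin n × Fin k)

/-- the `i`-th partial derivative -/
noncomputable def pd {n : ℕ} {F : Type} [NormedAddCommGroup F] [NormedSpace ℝ F] (i : Fin n)
    (φ : Vec n → F) (x : Vec n) : F :=
  fderiv ℝ φ x (EuclideanSpace.single i 1)

/-- the bubble -/
noncomputable def bub (ρ : ℝ) (y x : Vec 3) : Vec 3 := (ρ ^ 2 * tt ρ y x ^ 3) • (x - y)

/-- its gradient -/
noncomputable def gb (ρ : ℝ) (y x : Vec 3) : Mat 3 3 := WithLp.toLp 2 fun ik =>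
  ρ ^ 2 * ((if ik.1 = ik.2 then tt ρ y x ^ 3 else 0) -
    3 * (x ik.1 - y ik.1) * (x ik.2 - y ik.2) * tt ρ y x ^ 5)

/-- its Laplacian -/
noncomputable def lb (ρ : ℝ) (y x : Vec 3) : Vec 3 := (-15 * ρ ^ 4 * tt ρ y x ^ 7) • (x - y)

variable {ρ : ℝ} (y x : Vec 3)

theorem pd_coord (i k : Fin 3) : pd i (fun z : Vec 3 => z k - y k) x = if i = k then 1 else 0 := by
  unfold pd
  rw [fderiv_sub_const]
  have : (fun z : Vec 3 => z k) = (EuclideanSpace.proj k : Vec 3 →L[ℝ] ℝ) := rfl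
  rw [this, ContinuousLinearMap.fderiv]
  by_cases h : i = k
  · subst h; simp
  · simp [h, Ne.symm h]

theorem pd_tt (hρ : 0 < ρ) (m : ℕ) (i : Fin 3) :
    pd i (fun z => tt ρ y z ^ (m + 1)) x = - (m + 1) * (tt ρ y x) ^ (m + 3) * (x i - y i) := by
  unfold pd
  rw [tt_pow_fderiv y x hρ, EuclideanSpace.inner_single_right]
  simp

theorem pd_mul {f g : Vec 3 → ℝ} (hf : ContDiff ℝ ∞ f) (hg : ContDiff ℝ ∞ g) (i : Fin 3) :
    pd i (fun z => f z * g z) x = f x * pd i g x + g x * pd i f x := by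
  unfold pd
  exact fderiv_mul_apply (hf.differentiable (by simp) x) (hg.differentiable (by simp) x) _

theorem coord_contDiff (k : Fin 3) : ContDiff ℝ ∞ (fun z : Vec 3 => z k - y k) := by
  have : ContDiff ℝ ∞ (EuclideanSpace.proj k : Vec 3 →L[ℝ] ℝ) :=
    ContinuousLinearMap.contDiff _
  exact this.sub contDiff_const

theorem bub_apply (k : Fin 3) : bub ρ y x k = (ρ ^ 2 * tt ρ y x ^ 3) * (x k - y k) := by
  simp [bub]

theorem bub_contDiff (hρ : 0 < ρ) : ContDiff ℝ ∞ (bub ρ y) := by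
  unfold bub
  exact (contDiff_const.mul ((tt_contDiff y hρ).pow 3)).smul (contDiff_id.sub contDiff_const)

theorem bubk_contDiff (hρ : 0 < ρ) (k : Fin 3) : ContDiff ℝ ∞ (fun z => bub ρ y z k) := by
  have : (fun z => bub ρ y z k) = fun z => (ρ ^ 2 * tt ρ y z ^ 3) * (z k - y k) := by
    ext z; exact bub_apply y z k
  rw [this]
  exact (contDiff_const.mul ((tt_contDiff y hρ).pow 3)).mul (coord_contDiff y k)

theorem pd_bub (hρ : 0 < ρ) (i k : Fin 3) :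
    pd i (fun z => bub ρ y z k) x = gb ρ y x (i, k) := by
  have : (fun z => bub ρ y z k) = fun z => (ρ ^ 2 * tt ρ y z ^ 3) * (z k - y k) := by
    ext z; exact bub_apply y z k
  rw [this, pd_mul x (contDiff_const.mul ((tt_contDiff y hρ).pow 3)) (coord_contDiff y k),
    pd_coord, pd_mul x contDiff_const ((tt_contDiff y hρ).pow 3), pd_tt y x hρ 2]
  have h0 : pd i (fun _ : Vec 3 => ρ ^ 2) x = 0 := by simp [pd]
  rw [h0]
  by_cases h : i = k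
  · subst h
    simp [gb]
    ring
  · simp [gb, h]
    ring

theorem gbk_contDiff (hρ : 0 < ρ) (i k : Fin 3) : ContDiff ℝ ∞ (fun z => gb ρ y z (i, k)) := by
  have : (fun z => gb ρ y z (i, k)) = pd i (fun z => bub ρ y z k) := by
    ext z; exact (pd_bub y z hρ i k).symm
  rw [this]
  have h1 : ContDiff ℝ ∞ (fderiv ℝ (fun z => bub ρ y z k)) :=
    (bubk_contDiff y hρ k).fderiv_right (by simp)
  exact h1.clm_apply contDiff_const

theorem pd_gb (hρ : 0 < ρ) (k : Fin 3) :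
    ∑ i, pd i (fun z => gb ρ y z (i, k)) x = lb ρ y x k := by
  have hc := tt_contDiff (ρ := ρ) y hρ
  have e : ∀ i : Fin 3, (fun z => gb ρ y z (i, k)) = fun z =>
      ρ ^ 2 * (if i = k then (1:ℝ) else 0) * tt ρ y z ^ 3 +
        (-3 * ρ ^ 2) * ((z i - y i) * ((z k - y k) * tt ρ y z ^ 5)) := by
    intro i
    ext z
    by_cases h : i = k
    · subst h
      simp [gb]
      ring
    · simp [gb, h]
      ring
  have padd : ∀ (i : Fin 3) {f g : Vec 3 → ℝ}, ContDiff ℝ ∞ f → ContDiff ℝ ∞ g →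
      pd i (fun z => f z + g z) x = pd i f x + pd i g x := by
    intro i f g hf hg
    unfold pd
    rw [fderiv_fun_add (hf.differentiable (by simp) x) (hg.differentiable (by simp) x)]
    rfl
  have pconst : ∀ (i : Fin 3) (c : ℝ) {f : Vec 3 → ℝ}, ContDiff ℝ ∞ f →
      pd i (fun z => c * f z) x = c * pd i f x := by
    intro i c f hf
    rw [pd_mul x contDiff_const hf]
    have h0 : pd i (fun _ : Vec 3 => c) x = 0 := by simp [pd]
    rw [h0]; ring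
  have key : ∀ i : Fin 3, pd i (fun z => gb ρ y z (i, k)) x =
      ρ ^ 2 * (if i = k then (1:ℝ) else 0) * (-3 * tt ρ y x ^ 5 * (x i - y i)) +
        (-3 * ρ ^ 2) * ((x i - y i) * ((x k - y k) * (-5 * tt ρ y x ^ 7 * (x i - y i)) +
          tt ρ y x ^ 5 * (if i = k then (1:ℝ) else 0)) + ((x k - y k) * tt ρ y x ^ 5) * 1) := by
    intro i
    rw [e i, padd i (contDiff_const.mul (hc.pow 3)) (contDiff_const.mul
      ((coord_contDiff y i).mul ((coord_contDiff y k).mul (hc.pow 5)))),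
      pconst i _ (hc.pow 3), pd_tt y x hρ 2, pconst i _ ((coord_contDiff y i).mul
      ((coord_contDiff y k).mul (hc.pow 5))), pd_mul x (coord_contDiff y i)
      ((coord_contDiff y k).mul (hc.pow 5)), pd_mul x (coord_contDiff y k) (hc.pow 5),
      pd_tt y x hρ 4, pd_coord, pd_coord]
    push_cast
    simp only [if_true]
    ring
  simp_rw [key]
  have hs := tt_sq (ρ := ρ) y x hρ
  have hn : ‖x - y‖ ^ 2 = (x 0 - y 0) ^ 2 + (x 1 - y 1) ^ 2 + (x 2 - y 2) ^ 2 := by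
    rw [EuclideanSpace.norm_sq_eq, Fin.sum_univ_three]
    simp
  rw [hn] at hs
  have hlb : lb ρ y x k = -15 * ρ ^ 4 * tt ρ y x ^ 7 * (x k - y k) := by simp [lb]
  rw [hlb]
  generalize tt ρ y x = t at hs ⊢
  have ht5 : t ^ 5 = t ^ 7 * (ρ ^ 2 + ((x 0 - y 0) ^ 2 + (x 1 - y 1) ^ 2 + (x 2 - y 2) ^ 2)) := by
    linear_combination (-t ^ 5) * hs
  rw [ht5, Fin.sum_univ_three]
  fin_cases k <;> simp <;> ring


/-! ### Estimates -/

/-- the size `a = ρ² t³` -/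
noncomputable def aa (ρ : ℝ) (y x : Vec 3) : ℝ := ρ ^ 2 * tt ρ y x ^ 3

theorem aa_pos (hρ : 0 < ρ) : 0 < aa ρ y x := by
  have := tt_pos y x hρ
  unfold aa; positivity

theorem norm_tt_le (hρ : 0 < ρ) : ‖x - y‖ * tt ρ y x ≤ 1 := by
  have h := tt_sq y x hρ
  have ht := tt_pos y x hρ
  have : (‖x - y‖ * tt ρ y x) ^ 2 ≤ 1 ^ 2 := by nlinarith [sq_nonneg (ρ * tt ρ y x)]
  exact (sq_le_sq₀ (by positivity) zero_le_one).1 this

theorem rho_tt_le (hρ : 0 < ρ) : ρ * tt ρ y x ≤ 1 := by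
  have h := tt_sq y x hρ
  have ht := tt_pos y x hρ
  have : (ρ * tt ρ y x) ^ 2 ≤ 1 ^ 2 := by nlinarith [sq_nonneg (‖x - y‖ * tt ρ y x)]
  exact (sq_le_sq₀ (by positivity) zero_le_one).1 this

theorem aa_le_inv (hρ : 0 < ρ) : aa ρ y x ≤ ρ⁻¹ := by
  have h := rho_tt_le y x hρ
  have ht := tt_pos y x hρ
  have h3 : (ρ * tt ρ y x) ^ 3 ≤ 1 := pow_le_one₀ (by positivity) h
  rw [le_inv_comm₀ (aa_pos y x hρ) hρ, le_inv_comm₀ hρ (aa_pos y x hρ)]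
  rw [le_inv_comm₀ (aa_pos y x hρ) hρ]
  rw [← one_div, le_div_iff₀ (aa_pos y x hρ)]
  unfold aa
  calc ρ * (ρ ^ 2 * tt ρ y x ^ 3) = (ρ * tt ρ y x) ^ 3 := by ring
    _ ≤ 1 := h3

theorem aa_le_far (hρ : 0 < ρ) {R : ℝ} (hR : 0 < R) (h : R ≤ ‖x - y‖) :
    aa ρ y x ≤ ρ ^ 2 / R ^ 3 := by
  have h1 := norm_tt_le y x hρ
  have ht := tt_pos y x hρ
  have h2 : R * tt ρ y x ≤ 1 := (mul_le_mul_of_nonneg_right h ht.le).trans h1
  have h3 : (R * tt ρ y x) ^ 3 ≤ 1 := pow_le_one₀ (by positivity) h2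
  rw [le_div_iff₀ (by positivity)]
  unfold aa
  calc ρ ^ 2 * tt ρ y x ^ 3 * R ^ 3 = ρ ^ 2 * (R * tt ρ y x) ^ 3 := by ring
    _ ≤ ρ ^ 2 * 1 := by gcongr
    _ = ρ ^ 2 := mul_one _

theorem bub_norm (hρ : 0 < ρ) : ‖bub ρ y x‖ = aa ρ y x * ‖x - y‖ := by
  unfold bub
  rw [norm_smul, Real.norm_of_nonneg]
  · rfl
  · exact (aa_pos y x hρ).le

theorem bub_le (hρ : 0 < ρ) : ‖bub ρ y x‖ ≤ ρ ^ 2 * tt ρ y x ^ 2 := by
  rw [bub_norm y x hρ]
  have h1 := norm_tt_le y x hρ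
  have ht := tt_pos y x hρ
  unfold aa
  calc ρ ^ 2 * tt ρ y x ^ 3 * ‖x - y‖ = ρ ^ 2 * tt ρ y x ^ 2 * (‖x - y‖ * tt ρ y x) := by ring
    _ ≤ ρ ^ 2 * tt ρ y x ^ 2 * 1 := by gcongr
    _ = _ := mul_one _

theorem bub_le_one (hρ : 0 < ρ) : ‖bub ρ y x‖ ≤ 1 := by
  refine (bub_le y x hρ).trans ?_
  have h := rho_tt_le y x hρ
  have ht := tt_pos y x hρ
  rw [← mul_pow]
  exact pow_le_one₀ (by positivity) h

theorem bub_le_far (hρ : 0 < ρ) {R : ℝ} (hR : 0 < R) (h : R ≤ ‖x - y‖) :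
    ‖bub ρ y x‖ ≤ ρ ^ 2 / R ^ 2 := by
  refine (bub_le y x hρ).trans ?_
  have h1 := norm_tt_le y x hρ
  have ht := tt_pos y x hρ
  have h2 : R * tt ρ y x ≤ 1 := (mul_le_mul_of_nonneg_right h ht.le).trans h1
  have h3 : (R * tt ρ y x) ^ 2 ≤ 1 := pow_le_one₀ (by positivity) h2
  rw [le_div_iff₀ (by positivity)]
  calc ρ ^ 2 * tt ρ y x ^ 2 * R ^ 2 = ρ ^ 2 * (R * tt ρ y x) ^ 2 := by ring
    _ ≤ ρ ^ 2 * 1 := by gcongr
    _ = ρ ^ 2 := mul_one _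

theorem lb_norm_le (hρ : 0 < ρ) : ‖lb ρ y x‖ ≤ 15 * aa ρ y x ^ 2 := by
  have h1 := norm_tt_le y x hρ
  have ht := tt_pos y x hρ
  unfold lb aa
  rw [norm_smul, Real.norm_eq_abs, abs_of_nonpos (by
    have : 0 < ρ ^ 4 * tt ρ y x ^ 7 := by positivity
    linarith)]
  calc -(-15 * ρ ^ 4 * tt ρ y x ^ 7) * ‖x - y‖ =
      15 * (ρ ^ 2 * tt ρ y x ^ 3) ^ 2 * (‖x - y‖ * tt ρ y x) := by ring
    _ ≤ 15 * (ρ ^ 2 * tt ρ y x ^ 3) ^ 2 * 1 := by gcongr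
    _ = _ := mul_one _

/-- the identity matrix -/
noncomputable def idm : Mat 3 3 := WithLp.toLp 2 fun ik => if ik.1 = ik.2 then 1 else 0

theorem norm_idm_gb (c : ℝ) : ‖c • idm + gb ρ y x‖ ^ 2 =
    2 * (c + aa ρ y x) ^ 2 + (c + aa ρ y x - 3 * ρ ^ 2 * tt ρ y x ^ 5 * ‖x - y‖ ^ 2) ^ 2 := by
  have hn : ‖x - y‖ ^ 2 = (x 0 - y 0) ^ 2 + (x 1 - y 1) ^ 2 + (x 2 - y 2) ^ 2 := by
    rw [EuclideanSpace.norm_sq_eq, Fin.sum_univ_three]
    simp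
  rw [hn, EuclideanSpace.norm_sq_eq, Fintype.sum_prod_type]
  simp only [Fin.sum_univ_three, Real.norm_eq_abs, sq_abs]
  simp [idm, gb, aa]
  ring

theorem gb_norm_le (hρ : 0 < ρ) : ‖gb ρ y x‖ ≤ 3 * aa ρ y x := by
  have h := norm_idm_gb (ρ := ρ) y x 0
  rw [zero_smul, zero_add, zero_add] at h
  have h1 := norm_tt_le y x hρ
  have ht := tt_pos y x hρ
  have ha := aa_pos y x hρ
  have h3 : 3 * ρ ^ 2 * tt ρ y x ^ 5 * ‖x - y‖ ^ 2 = 3 * aa ρ y x * (‖x - y‖ * tt ρ y x) ^ 2 := by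
    unfold aa; ring
  have h4 : (‖x - y‖ * tt ρ y x) ^ 2 ≤ 1 := pow_le_one₀ (by positivity) h1
  have h5 : 0 ≤ (‖x - y‖ * tt ρ y x) ^ 2 := by positivity
  rw [h3] at h
  generalize (‖x - y‖ * tt ρ y x) ^ 2 = m at *
  have h6 : (aa ρ y x - 3 * aa ρ y x * m) ^ 2 ≤ (2 * aa ρ y x) ^ 2 := by
    apply sq_le_sq'
    · nlinarith
    · nlinarith
  have h7 : ‖gb ρ y x‖ ^ 2 ≤ (3 * aa ρ y x) ^ 2 := by
    rw [h]; nlinarith
  exact (sq_le_sq₀ (norm_nonneg _) (by positivity)).1 h7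

theorem idm_gb_ge (hρ : 0 < ρ) : 1.4 * (1 + aa ρ y x) ≤ ‖idm + gb ρ y x‖ := by
  have h := norm_idm_gb (ρ := ρ) y x 1
  rw [one_smul] at h
  have ha := aa_pos y x hρ
  have h7 : (1.4 * (1 + aa ρ y x)) ^ 2 ≤ ‖idm + gb ρ y x‖ ^ 2 := by
    rw [h]
    nlinarith [sq_nonneg (1 + aa ρ y x - 3 * ρ ^ 2 * tt ρ y x ^ 5 * ‖x - y‖ ^ 2)]
  exact (sq_le_sq₀ (by positivity) (norm_nonneg _)).1 h7

theorem idm_norm : ‖idm‖ ≤ 1.8 := by
  have h7 : ‖idm‖ ^ 2 ≤ 1.8 ^ 2 := by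
    rw [EuclideanSpace.norm_sq_eq, Fintype.sum_prod_type]
    simp [Fin.sum_univ_three, idm]
    norm_num
  exact (sq_le_sq₀ (norm_nonneg _) (by norm_num)).1 h7

/-! ### Integrals -/

/-- the profile integral -/
noncomputable def JJ (p : ℝ) : ℝ := ∫ z : Vec 3, (1 + ‖z‖ ^ 2) ^ (-(3 * p) / 2)

theorem JJ_integrable {p : ℝ} (hp : 1 < p) :
    Integrable (fun z : Vec 3 => (1 + ‖z‖ ^ 2) ^ (-(3 * p) / 2)) := by
  apply integrable_rpow_neg_one_add_norm_sq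
  simp
  linarith

theorem aa_eq (hρ : 0 < ρ) (p : ℝ) :
    aa ρ y x ^ p = ρ ^ (-p) * (1 + ‖ρ⁻¹ • (x - y)‖ ^ 2) ^ (-(3 * p) / 2) := by
  have hs := s_pos y x hρ
  have e1 : aa ρ y x = ρ⁻¹ * (1 + ‖ρ⁻¹ • (x - y)‖ ^ 2) ^ (-(3 / 2 : ℝ)) := by
    have e2 : 1 + ‖ρ⁻¹ • (x - y)‖ ^ 2 = ρ⁻¹ ^ 2 * (ρ ^ 2 + ‖x - y‖ ^ 2) := by
      rw [norm_smul, mul_pow, Real.norm_of_nonneg (by positivity)]
      field_simp
    rw [e2, Real.mul_rpow (by positivity) hs.le]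
    have e3 : (ρ ^ 2 + ‖x - y‖ ^ 2) ^ (-(3 / 2 : ℝ)) = tt ρ y x ^ 3 := by
      unfold tt
      rw [Real.sqrt_eq_rpow, ← Real.rpow_neg hs.le, ← Real.rpow_mul_natCast hs.le]
      norm_num
    have e4 : (ρ⁻¹ ^ 2) ^ (-(3 / 2 : ℝ)) = ρ ^ 3 := by
      rw [← Real.rpow_natCast, ← Real.rpow_mul (by positivity), ← Real.rpow_natCast,
        Real.inv_rpow hρ.le, ← Real.rpow_neg hρ.le]
      norm_num
    rw [e3, e4]
    unfold aa
    field_simp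
  rw [e1, Real.mul_rpow (by positivity) (by positivity), Real.inv_rpow hρ.le,
    ← Real.rpow_neg hρ.le, ← Real.rpow_mul (by positivity)]
  congr 2
  ring

theorem aa_integrable (hρ : 0 < ρ) {p : ℝ} (hp : 1 < p) :
    Integrable (fun x => aa ρ y x ^ p) := by
  simp_rw [aa_eq y _ hρ p]
  apply Integrable.const_mul
  have h1 := (JJ_integrable hp).comp_smul (R := ρ⁻¹) (by positivity)
  exact h1.comp_sub_right y

theorem aa_integral (hρ : 0 < ρ) (p : ℝ) :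
    ∫ x, aa ρ y x ^ p = ρ ^ (3 - p) * JJ p := by
  simp_rw [aa_eq y _ hρ p]
  rw [integral_const_mul]
  have h1 := integral_sub_right_eq_self (μ := (volume : Measure (Vec 3)))
    (fun x : Vec 3 => (1 + ‖ρ⁻¹ • x‖ ^ 2) ^ (-(3 * p) / 2)) y
  have h2 := Measure.integral_comp_smul (volume : Measure (Vec 3))
    (fun x : Vec 3 => (1 + ‖x‖ ^ 2) ^ (-(3 * p) / 2)) ρ⁻¹
  rw [h1, h2]
  unfold JJ
  simp only [finrank_euclideanSpace, Fintype.card_fin, smul_eq_mul]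
  rw [← mul_assoc]
  congr 1
  rw [abs_of_pos (by positivity), inv_pow, inv_inv, ← Real.rpow_natCast, ← Real.rpow_add hρ]
  congr 1
  push_cast
  ring

end Pool.Agent.V1180.Bub
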