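import Pool.Agent.V1180.Bub

set_option autoImplicit false

/-! The sum of bubbles. -/

open Set Filter Topology MeasureTheory Metric
open scoped ContDiff ENNReal

namespace Pool.Agent.V1180.Bub

/-- `b i = 2^{-i}` -/
noncomputable def b (i : ℕ) : ℝ := (1 / 2) ^ i

/-- the centres -/
noncomputable def yc (i : ℕ) : Vec 3 := b i • EuclideanSpace.single 0 1

/-- the scales -/
noncomputable def rh (i : ℕ) : ℝ := b i ^ 3 / 64

theorem b_pos (i : ℕ) : 0 < b i := by unfold b; positivity

theorem b_le_one (i : ℕ) : b i ≤ 1 := pow_le_one₀ (by norm_num) (by norm_num)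

theorem rh_pos (i : ℕ) : 0 < rh i := by have := b_pos i; unfold rh; positivity

theorem b_half {i j : ℕ} (h : i < j) : b j ≤ b i / 2 := by
  unfold b
  calc ((1:ℝ) / 2) ^ j ≤ (1 / 2) ^ (i + 1) :=
        pow_le_pow_of_le_one (by norm_num) (by norm_num) h
    _ = (1 / 2) ^ i / 2 := by rw [pow_succ]; ring

theorem b_hasSum : HasSum b 2 := hasSum_geometric_two

theorem b_sum : Summable b := b_hasSum.summable

theorem yc_sub (i j : ℕ) : ‖yc i - yc j‖ = |b i - b j| := by
  unfold yc
  rw [← sub_smul, norm_smul, PiLp.norm_single]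
  simp

theorem yc_norm (i : ℕ) : ‖yc i‖ = b i := by
  unfold yc
  rw [norm_smul, PiLp.norm_single, Real.norm_of_nonneg (b_pos i).le]
  simp

/-- at every point all bubbles but one are far -/
theorem far_of_near {x : Vec 3} {j : ℕ} (hj : ‖x - yc j‖ < b j / 4) {i : ℕ} (hi : i ≠ j) :
    b i / 4 ≤ ‖x - yc i‖ := by
  have h1 : ‖yc j - yc i‖ ≤ ‖x - yc j‖ + ‖x - yc i‖ := by
    have : yc j - yc i = (x - yc i) - (x - yc j) := by abel
    rw [this, add_comm]
    exact norm_sub_le _ _
  rw [yc_sub] at h1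
  have hbi := b_pos i
  have hbj := b_pos j
  rcases lt_or_gt_of_ne hi with h | h
  · have := b_half h
    have h2 : b i - b j ≤ |b j - b i| := by rw [abs_sub_comm]; exact le_abs_self _
    linarith
  · have := b_half h
    have h2 : b j - b i ≤ |b j - b i| := le_abs_self _
    linarith

theorem exists_main (x : Vec 3) : ∃ j, ∀ i, i ≠ j → b i / 4 ≤ ‖x - yc i‖ := by
  by_cases h : ∃ j, ‖x - yc j‖ < b j / 4
  · obtain ⟨j, hj⟩ := h
    exact ⟨j, fun i hi => far_of_near hj hi⟩
  · push Not at h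
    exact ⟨0, fun i _ => h i⟩

theorem aa_far {x : Vec 3} {i : ℕ} (h : b i / 4 ≤ ‖x - yc i‖) :
    aa (rh i) (yc i) x ≤ b i / 64 := by
  have hb := b_pos i
  refine (aa_le_far _ _ (rh_pos i) (by positivity) h).trans ?_
  have h1 := b_le_one i
  unfold rh
  have : (b i ^ 3 / 64) ^ 2 / (b i / 4) ^ 3 = b i ^ 3 / 64 := by
    field_simp
    norm_num
  rw [this]
  have h2 : b i ^ 3 ≤ b i := by
    calc b i ^ 3 = b i * b i ^ 2 := by ring
      _ ≤ b i * 1 := by gcongr; exact pow_le_one₀ hb.le h1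
      _ = b i := mul_one _
  linarith

theorem bub_far {x : Vec 3} {i : ℕ} (h : b i / 4 ≤ ‖x - yc i‖) :
    ‖bub (rh i) (yc i) x‖ ≤ b i / 256 := by
  have hb := b_pos i
  refine (bub_le_far _ _ (rh_pos i) (by positivity) h).trans ?_
  have h1 := b_le_one i
  unfold rh
  have : (b i ^ 3 / 64) ^ 2 / (b i / 4) ^ 2 = b i ^ 4 / 256 := by
    field_simp
    norm_num
  rw [this]
  have h2 : b i ^ 4 ≤ b i := by
    calc b i ^ 4 = b i * b i ^ 3 := by ring
      _ ≤ b i * 1 := by gcongr; exact pow_le_one₀ hb.le h1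
      _ = b i := mul_one _
  linarith

theorem gb_far {x : Vec 3} {i : ℕ} (h : b i / 4 ≤ ‖x - yc i‖) :
    ‖gb (rh i) (yc i) x‖ ≤ 3 / 64 * b i := by
  have := aa_far h
  have h2 := gb_norm_le (yc i) x (rh_pos i)
  linarith

theorem lb_far {x : Vec 3} {i : ℕ} (h : b i / 4 ≤ ‖x - yc i‖) :
    ‖lb (rh i) (yc i) x‖ ≤ 1 / 64 * b i := by
  have h1 := aa_far h
  have h2 := lb_norm_le (yc i) x (rh_pos i)
  have h3 := aa_pos (yc i) x (rh_pos i)
  have hb := b_pos i
  have hb1 := b_le_one i
  have h4 : aa (rh i) (yc i) x ^ 2 ≤ (b i / 64) ^ 2 := by gcongr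
  have h5 : (b i / 64) ^ 2 ≤ b i / 4096 := by nlinarith
  linarith

/-- splitting off the main term -/
theorem split_main {F : Type} [NormedAddCommGroup F] [CompleteSpace F] {G : ℕ → F} {j : ℕ}
    {C : ℝ} (h : ∀ i, i ≠ j → ‖G i‖ ≤ C * b i) : Summable G ∧ ‖(∑' i, G i) - G j‖ ≤ C * 2 := by
  have hs : Summable G := by
    apply Summable.of_norm_bounded_eventually (g := fun i => C * b i) (b_sum.mul_left C)
    have : ∀ᶠ i : ℕ in cofinite, i ≠ j := by
      simp [Filter.eventually_cofinite]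
    exact this.mono fun i hi => h i hi
  refine ⟨hs, ?_⟩
  rw [hs.tsum_eq_add_tsum_ite j, add_sub_cancel_left]
  apply tsum_of_norm_bounded (b_hasSum.mul_left C)
  intro i
  by_cases hi : i = j
  · rw [if_pos hi, norm_zero]
    have : 0 ≤ C * b (j + 1) := (norm_nonneg _).trans (h (j + 1) (by omega))
    have hC : 0 ≤ C := by
      by_contra hcon
      push Not at hcon
      nlinarith [b_pos (j + 1)]
    exact mul_nonneg hC (b_pos i).le
  · rw [if_neg hi]
    exact h i hi

/-- the map -/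
noncomputable def uu (x : Vec 3) : Vec 3 := x + ∑' i, bub (rh i) (yc i) x

/-- its gradient -/
noncomputable def Du (x : Vec 3) : Mat 3 3 := idm + ∑' i, gb (rh i) (yc i) x

/-- its Laplacian -/
noncomputable def Lu (x : Vec 3) : Vec 3 := ∑' i, lb (rh i) (yc i) x

theorem sum_bub (x : Vec 3) : Summable fun i => bub (rh i) (yc i) x := by
  obtain ⟨j, hj⟩ := exists_main x
  exact (split_main (C := 1 / 256) fun i hi => by
    have := bub_far (hj i hi)
    linarith).1

theorem sum_gb (x : Vec 3) : Summable fun i => gb (rh i) (yc i) x := by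
  obtain ⟨j, hj⟩ := exists_main x
  exact (split_main (C := 3 / 64) fun i hi => gb_far (hj i hi)).1

theorem sum_lb (x : Vec 3) : Summable fun i => lb (rh i) (yc i) x := by
  obtain ⟨j, hj⟩ := exists_main x
  exact (split_main (C := 1 / 64) fun i hi => lb_far (hj i hi)).1

theorem Du_ge {x : Vec 3} {j : ℕ} (hj : ∀ i, i ≠ j → b i / 4 ≤ ‖x - yc i‖) :
    1 + aa (rh j) (yc j) x ≤ ‖Du x‖ := by
  have h1 := (split_main (G := fun i => gb (rh i) (yc i) x) (C := 3 / 64)
    fun i hi => gb_far (hj i hi)).2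
  have h2 := idm_gb_ge (yc j) x (rh_pos j)
  have h3 := aa_pos (yc j) x (rh_pos j)
  have h4 : ‖idm + gb (rh j) (yc j) x‖ ≤ ‖Du x‖ + ‖(∑' i, gb (rh i) (yc i) x) -
      gb (rh j) (yc j) x‖ := by
    have : idm + gb (rh j) (yc j) x = Du x - ((∑' i, gb (rh i) (yc i) x) -
      gb (rh j) (yc j) x) := by
      unfold Du; abel
    rw [this]
    exact norm_sub_le _ _
  linarith

theorem Du_le {x : Vec 3} {j : ℕ} (hj : ∀ i, i ≠ j → b i / 4 ≤ ‖x - yc i‖) :
    ‖Du x‖ ≤ 3 * (1 + aa (rh j) (yc j) x) := by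
  have h1 := (split_main (G := fun i => gb (rh i) (yc i) x) (C := 3 / 64)
    fun i hi => gb_far (hj i hi)).2
  have h2 := gb_norm_le (yc j) x (rh_pos j)
  have h3 := idm_norm
  have h4 : ‖Du x‖ ≤ ‖idm‖ + ‖gb (rh j) (yc j) x‖ + ‖(∑' i, gb (rh i) (yc i) x) -
      gb (rh j) (yc j) x‖ := by
    have : Du x = idm + gb (rh j) (yc j) x + ((∑' i, gb (rh i) (yc i) x) -
      gb (rh j) (yc j) x) := by
      unfold Du; abel
    calc ‖Du x‖ = ‖idm + gb (rh j) (yc j) x + ((∑' i, gb (rh i) (yc i) x) -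
      gb (rh j) (yc j) x)‖ := congrArg _ this
      _ ≤ _ := norm_add₃_le
  linarith

theorem Lu_le (x : Vec 3) : ‖Lu x‖ ≤ 15 * ‖Du x‖ ^ 2 := by
  obtain ⟨j, hj⟩ := exists_main x
  have h1 := (split_main (G := fun i => lb (rh i) (yc i) x) (C := 1 / 64)
    fun i hi => lb_far (hj i hi)).2
  have h2 := lb_norm_le (yc j) x (rh_pos j)
  have h3 := Du_ge hj
  have h5 := aa_pos (yc j) x (rh_pos j)
  have h4 : ‖Lu x‖ ≤ ‖lb (rh j) (yc j) x‖ + ‖(∑' i, lb (rh i) (yc i) x) -
      lb (rh j) (yc j) x‖ := by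
    have : Lu x = lb (rh j) (yc j) x + ((∑' i, lb (rh i) (yc i) x) -
      lb (rh j) (yc j) x) := by
      unfold Lu; abel
    calc ‖Lu x‖ = _ := congrArg _ this
      _ ≤ _ := norm_add_le _ _
  have h6 : (1 + aa (rh j) (yc j) x) ^ 2 ≤ ‖Du x‖ ^ 2 := by gcongr
  nlinarith

theorem uu_le (x : Vec 3) : ‖uu x‖ ≤ ‖x‖ + 2 := by
  obtain ⟨j, hj⟩ := exists_main x
  have h1 := (split_main (G := fun i => bub (rh i) (yc i) x) (C := 1 / 256) fun i hi => by
    have := bub_far (hj i hi)
    linarith).2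
  have h2 := bub_le_one (yc j) x (rh_pos j)
  have h4 : ‖uu x‖ ≤ ‖x‖ + ‖bub (rh j) (yc j) x‖ + ‖(∑' i, bub (rh i) (yc i) x) -
      bub (rh j) (yc j) x‖ := by
    have : uu x = x + bub (rh j) (yc j) x + ((∑' i, bub (rh i) (yc i) x) -
      bub (rh j) (yc j) x) := by
      unfold uu; abel
    calc ‖uu x‖ = _ := congrArg _ this
      _ ≤ _ := norm_add₃_le
  linarith

theorem Du_pos (x : Vec 3) : 0 < ‖Du x‖ := by
  obtain ⟨j, hj⟩ := exists_main x
  have := Du_ge hj
  have h5 := aa_pos (yc j) x (rh_pos j)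
  linarith

/-! ### measurability -/

theorem measurable_tsum' {F : Type} [NormedAddCommGroup F] [NormedSpace ℝ F]
    [MeasurableSpace F] [BorelSpace F] {G : ℕ → Vec 3 → F}
    (hG : ∀ i, Continuous (G i)) (hs : ∀ x, Summable fun i => G i x) :
    StronglyMeasurable fun x => ∑' i, G i x := by
  have h1 : ∀ n, StronglyMeasurable fun x => ∑ i ∈ Finset.range n, G i x := fun n =>
    (continuous_finsetSum _ fun i _ => hG i).stronglyMeasurable
  refine stronglyMeasurable_of_tendsto atTop h1 ?_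
  rw [tendsto_pi_nhds]
  intro x
  exact (hs x).hasSum.tendsto_sum_nat

theorem gb_continuous (i : ℕ) : Continuous (gb (rh i) (yc i)) := by
  have : gb (rh i) (yc i) = fun x => WithLp.toLp 2 fun ik => gb (rh i) (yc i) x (ik.1, ik.2) := by
    ext x ik
    rfl
  rw [this]
  apply (PiLp.continuous_toLp 2 _).comp
  exact continuous_pi fun ik => (gbk_contDiff (yc i) (rh_pos i) ik.1 ik.2).continuous

theorem lb_continuous (i : ℕ) : Continuous (lb (rh i) (yc i)) := by
  unfold lb
  exact (continuous_const.mul ((tt_contDiff (yc i) (rh_pos i)).continuous.pow 7)).smul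
    (continuous_id.sub continuous_const)

theorem bub_continuous (i : ℕ) : Continuous (bub (rh i) (yc i)) :=
  (bub_contDiff (yc i) (rh_pos i)).continuous

theorem aa_continuous (i : ℕ) : Continuous (aa (rh i) (yc i)) := by
  unfold aa
  exact continuous_const.mul ((tt_contDiff (yc i) (rh_pos i)).continuous.pow 3)

theorem uu_meas : StronglyMeasurable uu :=
  stronglyMeasurable_id.add (measurable_tsum' bub_continuous sum_bub)

theorem Du_meas : StronglyMeasurable Du :=
  stronglyMeasurable_const.add (measurable_tsum' gb_continuous sum_gb)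

theorem Lu_meas : StronglyMeasurable Lu := measurable_tsum' lb_continuous sum_lb

/-! ### `L^1` summability in the unit ball -/

theorem aa_sq_int (i : ℕ) : Integrable (fun x => aa (rh i) (yc i) x ^ 2) := by
  have := aa_integrable (yc i) (rh_pos i) (p := 2) (by norm_num)
  simpa using this

theorem aa_sq_integral (i : ℕ) : ∫ x, aa (rh i) (yc i) x ^ 2 = rh i * JJ 2 := by
  have := aa_integral (yc i) (rh_pos i) 2
  norm_num at this
  simpa using this

theorem rh_le (i : ℕ) : rh i ≤ b i := by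
  have hb := b_pos i
  have h1 := b_le_one i
  have h2 : b i ^ 3 ≤ b i := by
    calc b i ^ 3 = b i * b i ^ 2 := by ring
      _ ≤ b i * 1 := by gcongr; exact pow_le_one₀ hb.le h1
      _ = b i := mul_one _
  unfold rh
  linarith [b_pos i]

theorem rh_le_sq (i : ℕ) : rh i ≤ b i ^ 2 := by
  have hb := b_pos i
  have h1 := b_le_one i
  have h2 : b i ^ 3 ≤ b i ^ 2 := pow_le_pow_of_le_one hb.le h1 (by norm_num)
  unfold rh
  nlinarith [sq_nonneg (b i)]

theorem JJ_nonneg (p : ℝ) : 0 ≤ JJ p := integral_nonneg fun z => by positivity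

theorem aa_sq_summable : Summable fun i => ∫ x in ball (0 : Vec 3) 1, aa (rh i) (yc i) x ^ 2 := by
  refine Summable.of_nonneg_of_le (fun i => integral_nonneg fun x => sq_nonneg _) (fun i => ?_)
    (b_sum.mul_right (JJ 2))
  calc ∫ x in ball (0 : Vec 3) 1, aa (rh i) (yc i) x ^ 2 ≤ ∫ x, aa (rh i) (yc i) x ^ 2 :=
        setIntegral_le_integral (aa_sq_int i) (ae_of_all _ fun x => sq_nonneg _)
    _ = rh i * JJ 2 := aa_sq_integral i
    _ ≤ b i * JJ 2 := by gcongr; exacts [JJ_nonneg 2, rh_le i]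

theorem intOn_of_continuous {F : Type} [NormedAddCommGroup F] {f : Vec 3 → F}
    (hf : Continuous f) : IntegrableOn f (ball (0 : Vec 3) 1) :=
  (hf.continuousOn.integrableOn_compact (isCompact_closedBall 0 1)).mono_set ball_subset_closedBall

instance fin_ball : IsFiniteMeasure ((volume : Measure (Vec 3)).restrict (ball (0 : Vec 3) 1)) :=
  ⟨by rw [Measure.restrict_apply_univ]; exact measure_ball_lt_top⟩

theorem aa_summable : Summable fun i => ∫ x in ball (0 : Vec 3) 1, aa (rh i) (yc i) x := by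
  set V := (volume : Measure (Vec 3)).real (ball (0 : Vec 3) 1) with hV
  have hV0 : 0 ≤ V := measureReal_nonneg
  refine Summable.of_nonneg_of_le (fun i => integral_nonneg fun x => (aa_pos _ _ (rh_pos i)).le)
    (fun i => ?_) (b_sum.mul_right (V + JJ 2))
  have hb := b_pos i
  have hsq : IntegrableOn (fun x => aa (rh i) (yc i) x ^ 2) (ball (0 : Vec 3) 1) :=
    (aa_sq_int i).integrableOn
  calc ∫ x in ball (0 : Vec 3) 1, aa (rh i) (yc i) x
      ≤ ∫ x in ball (0 : Vec 3) 1, (b i + (b i)⁻¹ * aa (rh i) (yc i) x ^ 2) := by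
        apply integral_mono (intOn_of_continuous (aa_continuous i))
          ((integrable_const (b i)).add (hsq.const_mul _))
        intro x
        change aa (rh i) (yc i) x ≤ b i + (b i)⁻¹ * aa (rh i) (yc i) x ^ 2
        have : 0 ≤ (b i)⁻¹ * (aa (rh i) (yc i) x - b i) ^ 2 := by positivity
        have e : (b i)⁻¹ * (aa (rh i) (yc i) x - b i) ^ 2 =
            (b i)⁻¹ * aa (rh i) (yc i) x ^ 2 - 2 * aa (rh i) (yc i) x + b i := by
          field_simp
          ring
        have := aa_pos (yc i) x (rh_pos i)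
        linarith
    _ = b i * V + (b i)⁻¹ * ∫ x in ball (0 : Vec 3) 1, aa (rh i) (yc i) x ^ 2 := by
        rw [integral_add (integrable_const (b i)) (hsq.const_mul _), integral_const_mul]
        simp [hV, mul_comm]
    _ ≤ b i * V + (b i)⁻¹ * (rh i * JJ 2) := by
        gcongr
        rw [← aa_sq_integral]
        exact setIntegral_le_integral (aa_sq_int i) (ae_of_all _ fun x => sq_nonneg _)
    _ ≤ b i * V + (b i)⁻¹ * (b i ^ 2 * JJ 2) := by
        gcongr
        exacts [JJ_nonneg 2, rh_le_sq i]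
    _ = b i * (V + JJ 2) := by field_simp

end Pool.Agent.V1180.Bub
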