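import Pool.Agent.V1180.Bub2

set_option autoImplicit false

/-! `L^p` bounds for the gradient of the sum of bubbles. -/

open Set Filter Topology MeasureTheory Metric
open scoped ContDiff ENNReal

namespace Pool.Agent.V1180.Bub

theorem pow_bound {p a : ℝ} (hp : 0 ≤ p) (ha : 0 ≤ a) : (3 * (1 + a)) ^ p ≤ 6 ^ p * (1 + a ^ p) := by
  have h1 : 3 * (1 + a) ≤ 6 * max 1 a := by
    have := le_max_left 1 a
    have := le_max_right 1 a
    linarith
  calc (3 * (1 + a)) ^ p ≤ (6 * max 1 a) ^ p := Real.rpow_le_rpow (by positivity) h1 hp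
    _ = 6 ^ p * (max 1 a) ^ p := Real.mul_rpow (by norm_num) (by positivity)
    _ ≤ 6 ^ p * (1 + a ^ p) := by
        gcongr
        rcases le_total 1 a with h | h
        · rw [max_eq_right h]; linarith
        · rw [max_eq_left h, Real.one_rpow]
          linarith [Real.rpow_nonneg ha p]

open Classical in
theorem Du_rpow {p : ℝ} (hp : 1 < p) {I : Set ℕ} {x : Vec 3}
    (hI : ∀ j, ‖x - yc j‖ < b j / 4 → j ∈ I) :
    ‖Du x‖ₑ ^ p ≤ ENNReal.ofReal (6 ^ p) *
      (1 + ∑' j, if j ∈ I then ENNReal.ofReal (aa (rh j) (yc j) x ^ p) else 0) := by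
  have hp0 : 0 ≤ p := by linarith
  have e0 : ‖Du x‖ₑ ^ p = ENNReal.ofReal (‖Du x‖ ^ p) := by
    rw [← ofReal_norm, ENNReal.ofReal_rpow_of_nonneg (norm_nonneg _) hp0]
  rw [e0]
  by_cases h : ∃ j, ‖x - yc j‖ < b j / 4
  · obtain ⟨j, hj⟩ := h
    have h1 := Du_le (x := x) (j := j) fun i hi => far_of_near hj hi
    have ha := aa_pos (yc j) x (rh_pos j)
    have h2 : ‖Du x‖ ^ p ≤ 6 ^ p * (1 + aa (rh j) (yc j) x ^ p) :=
      (Real.rpow_le_rpow (norm_nonneg _) h1 hp0).trans (pow_bound hp0 ha.le)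
    refine (ENNReal.ofReal_le_ofReal h2).trans ?_
    rw [ENNReal.ofReal_mul (by positivity), ENNReal.ofReal_add zero_le_one (by positivity),
      ENNReal.ofReal_one]
    gcongr
    have := ENNReal.le_tsum (f := fun j => if j ∈ I then
      ENNReal.ofReal (aa (rh j) (yc j) x ^ p) else 0) j
    simpa [hI j hj] using this
  · push Not at h
    have h1 := Du_le (x := x) (j := 0) fun i _ => h i
    have h3 := aa_far (h 0)
    have h4 := b_le_one 0
    have ha := aa_pos (yc 0) x (rh_pos 0)
    have h5 : ‖Du x‖ ≤ 6 := by linarith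
    have h2 : ‖Du x‖ ^ p ≤ 6 ^ p * 1 := by
      rw [mul_one]
      exact Real.rpow_le_rpow (norm_nonneg _) h5 hp0
    refine (ENNReal.ofReal_le_ofReal h2).trans ?_
    rw [ENNReal.ofReal_mul (by positivity), ENNReal.ofReal_one]
    gcongr
    exact le_self_add

open Classical in
theorem Du_lintegral {p : ℝ} (hp : 1 < p) {I : Set ℕ} {S : Set (Vec 3)} (hS : MeasurableSet S)
    (hI : ∀ x ∈ S, ∀ j, ‖x - yc j‖ < b j / 4 → j ∈ I) :
    ∫⁻ x in S, ‖Du x‖ₑ ^ p ≤ ENNReal.ofReal (6 ^ p) *
      (volume S + ∑' j, if j ∈ I then ENNReal.ofReal (rh j ^ (3 - p) * JJ p) else 0) := by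
  calc ∫⁻ x in S, ‖Du x‖ₑ ^ p ≤ ∫⁻ x in S, ENNReal.ofReal (6 ^ p) *
      (1 + ∑' j, if j ∈ I then ENNReal.ofReal (aa (rh j) (yc j) x ^ p) else 0) := by
        apply setLIntegral_mono' hS
        intro x hx
        exact Du_rpow hp (hI x hx)
    _ = ENNReal.ofReal (6 ^ p) * (volume S + ∑' j, ∫⁻ x in S, if j ∈ I then
          ENNReal.ofReal (aa (rh j) (yc j) x ^ p) else 0) := by
        have hm : ∀ j, Measurable fun x => if j ∈ I then
          ENNReal.ofReal (aa (rh j) (yc j) x ^ p) else 0 := by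
          intro j
          by_cases h : j ∈ I
          · simp only [h, if_true]
            exact ENNReal.measurable_ofReal.comp
              ((aa_continuous j).measurable.pow_const p)
          · simp only [h, if_false]
            exact measurable_const
        rw [lintegral_const_mul' _ _ ENNReal.ofReal_ne_top, lintegral_add_left measurable_const,
          lintegral_tsum fun j => (hm j).aemeasurable]
        simp
    _ ≤ _ := by
        gcongr with j
        by_cases h : j ∈ I
        · simp only [h, if_true]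
          calc ∫⁻ x in S, ENNReal.ofReal (aa (rh j) (yc j) x ^ p)
              ≤ ∫⁻ x, ENNReal.ofReal (aa (rh j) (yc j) x ^ p) := setLIntegral_le_lintegral _ _
            _ = ENNReal.ofReal (∫ x, aa (rh j) (yc j) x ^ p) := by
                rw [ofReal_integral_eq_lintegral_ofReal (aa_integrable _ (rh_pos j) hp)]
                exact ae_of_all _ fun x => Real.rpow_nonneg (aa_pos _ _ (rh_pos j)).le _
            _ = ENNReal.ofReal (rh j ^ (3 - p) * JJ p) := by
                rw [aa_integral _ (rh_pos j)]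
        · simp only [h, if_false]
          simp

/-- the geometric sum -/
theorem bp_summable {p : ℝ} (hp : p < 3) : Summable fun j => b j ^ (3 - p) := by
  have h1 : ∀ j, b j ^ (3 - p) = (((1:ℝ) / 2) ^ (3 - p)) ^ j := by
    intro j
    unfold b
    rw [← Real.rpow_natCast, ← Real.rpow_mul (by norm_num), mul_comm,
      Real.rpow_mul (by norm_num), Real.rpow_natCast]
  simp_rw [h1]
  apply summable_geometric_of_lt_one (by positivity)
  exact Real.rpow_lt_one (by norm_num) (by norm_num) (by linarith)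

open Classical in
theorem tsum_bound {p : ℝ} (hp : p < 3) {I : Set ℕ} {A : ℝ} (hA : 0 ≤ A)
    (hI : ∀ j ∈ I, rh j ≤ A * b j) :
    ∑' j, (if j ∈ I then ENNReal.ofReal (rh j ^ (3 - p) * JJ p) else 0) ≤
      ENNReal.ofReal (A ^ (3 - p) * (∑' j, b j ^ (3 - p)) * JJ p) := by
  have h3 : 0 < 3 - p := by linarith
  calc ∑' j, (if j ∈ I then ENNReal.ofReal (rh j ^ (3 - p) * JJ p) else 0)
      ≤ ∑' j, ENNReal.ofReal (A ^ (3 - p) * b j ^ (3 - p) * JJ p) := by
        gcongr with j
        by_cases h : j ∈ I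
        · simp only [h, if_true]
          apply ENNReal.ofReal_le_ofReal
          apply mul_le_mul_of_nonneg_right _ (JJ_nonneg p)
          rw [← Real.mul_rpow hA (b_pos j).le]
          exact Real.rpow_le_rpow (rh_pos j).le (hI j h) h3.le
        · simp [h]
    _ = ENNReal.ofReal (∑' j, A ^ (3 - p) * b j ^ (3 - p) * JJ p) := by
        rw [ENNReal.ofReal_tsum_of_nonneg]
        · intro j
          have := b_pos j
          have := JJ_nonneg p
          positivity
        · exact ((bp_summable hp).mul_left _).mul_right _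
    _ = _ := by
        congr 1
        rw [tsum_mul_right, tsum_mul_left]

/-- `Du ∈ L^p` of the unit ball -/
theorem Du_memLp {p : ℝ} (hp : 1 < p) (hp3 : p < 3) :
    MemLp Du (ENNReal.ofReal p) (volume.restrict (ball (0 : Vec 3) 1)) := by
  classical
  refine ⟨Du_meas.aestronglyMeasurable, ?_⟩
  have hp0 : ENNReal.ofReal p ≠ 0 := by
    simp; linarith
  rw [eLpNorm_lt_top_iff_lintegral_rpow_enorm_lt_top hp0 ENNReal.ofReal_ne_top,
    ENNReal.toReal_ofReal (by linarith)]
  refine lt_of_le_of_lt (Du_lintegral hp (I := univ) measurableSet_ball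
    fun x _ j _ => mem_univ j) ?_
  have h1 := tsum_bound hp3 (I := univ) zero_le_one (fun j _ => by
    rw [one_mul]; exact rh_le j)
  apply ENNReal.mul_lt_top ENNReal.ofReal_lt_top
  exact ENNReal.add_lt_top.2 ⟨measure_ball_lt_top, lt_of_le_of_lt h1 ENNReal.ofReal_lt_top⟩

/-- the Morrey quantity -/
noncomputable def MM (p : ℝ) (x0 : Vec 3) (r : ℝ) : ℝ :=
  (1 / r ^ ((3 : ℝ) - p)) * ∫ x in ball x0 r, ‖Du x‖ ^ p

theorem MM_le {p : ℝ} (hp : 1 < p) {x0 : Vec 3} {r : ℝ} (hr : 0 < r) {B : ℝ} (hB : 0 ≤ B)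
    (h : ∫⁻ x in ball x0 r, ‖Du x‖ₑ ^ p ≤ ENNReal.ofReal B) :
    0 ≤ MM p x0 r ∧ MM p x0 r ≤ (1 / r ^ ((3 : ℝ) - p)) * B := by
  have hp0 : 0 ≤ p := by linarith
  unfold MM
  have h1 : 0 ≤ ∫ x in ball x0 r, ‖Du x‖ ^ p := integral_nonneg fun x => by positivity
  refine ⟨by positivity, ?_⟩
  gcongr
  rw [integral_eq_lintegral_of_nonneg_ae (ae_of_all _ fun x => by positivity)
    (Du_meas.norm.measurable.pow_const p).aestronglyMeasurable]
  apply ENNReal.toReal_le_of_le_ofReal hB
  refine le_trans (le_of_eq ?_) h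
  congr 1
  ext x
  rw [← ofReal_norm, ENNReal.ofReal_rpow_of_nonneg (norm_nonneg _) hp0]

theorem vol_ball (x0 : Vec 3) {r : ℝ} (hr : 0 < r) : volume (ball x0 r) =
    ENNReal.ofReal (r ^ 3 * (volume : Measure (Vec 3)).real (ball 0 1)) := by
  rw [Measure.addHaar_ball _ _ hr.le, ENNReal.ofReal_mul (by positivity)]
  simp [measureReal_def, ENNReal.ofReal_toReal measure_ball_lt_top.ne]

theorem MM_zero {p : ℝ} (hp : 1 < p) (hp3 : p < 3) :
    Tendsto (MM p 0) (𝓝[>] 0) (𝓝 0) := by
  classical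
  set V := (volume : Measure (Vec 3)).real (ball 0 1) with hV
  have hV0 : 0 ≤ V := measureReal_nonneg
  set S := (∑' j, b j ^ (3 - p)) * JJ p with hS
  have hS0 : 0 ≤ S := mul_nonneg (tsum_nonneg fun j => by have := b_pos j; positivity) (JJ_nonneg p)
  have h3 : 0 < 3 - p := by linarith
  have key : ∀ r : ℝ, 0 < r → 0 ≤ MM p 0 r ∧
      MM p 0 r ≤ 6 ^ p * (r ^ p * V + 4 ^ (3 - p) * r ^ (3 - p) * S) := by
    intro r hr
    have h1 := Du_lintegral hp (I := {j | b j < 2 * r}) (S := ball (0 : Vec 3) r)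
      measurableSet_ball (fun x hx j hj => by
        rw [mem_ball_zero_iff] at hx
        have h2 : ‖yc j‖ ≤ ‖x‖ + ‖x - yc j‖ := by
          have : yc j = x - (x - yc j) := by abel
          calc ‖yc j‖ = _ := congrArg _ this
            _ ≤ _ := norm_sub_le _ _
        rw [yc_norm] at h2
        have := b_pos j
        simp only [mem_setOf_eq]
        linarith)
    have h2 := tsum_bound hp3 (I := {j | b j < 2 * r}) (A := (2 * r) ^ 2) (by positivity)
      (fun j hj => by
        have hb := b_pos j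
        have hj' : b j < 2 * r := hj
        have h5 : b j ^ 2 ≤ (2 * r) ^ 2 := by gcongr
        unfold rh
        calc b j ^ 3 / 64 ≤ b j ^ 3 := by
              have : 0 < b j ^ 3 := by positivity
              linarith
          _ = b j ^ 2 * b j := by ring
          _ ≤ (2 * r) ^ 2 * b j := by gcongr)
    rw [mul_assoc, ← hS] at h2
    have h4 : ∫⁻ x in ball (0 : Vec 3) r, ‖Du x‖ₑ ^ p ≤
        ENNReal.ofReal (6 ^ p * (r ^ 3 * V + ((2 * r) ^ 2) ^ (3 - p) * S)) := by
      refine h1.trans ?_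
      rw [ENNReal.ofReal_mul (by positivity), ENNReal.ofReal_add (by positivity) (by positivity),
        vol_ball 0 hr]
      gcongr
    obtain ⟨h5, h6⟩ := MM_le hp hr (by positivity) h4
    refine ⟨h5, h6.trans (le_of_eq ?_)⟩
    have e1 : ((2 * r) ^ 2) ^ (3 - p) = 4 ^ (3 - p) * (r ^ (3 - p) * r ^ (3 - p)) := by
      rw [← Real.mul_rpow hr.le hr.le, ← Real.mul_rpow (by norm_num) (by positivity)]
      congr 1
      ring
    have e2 : r ^ 3 = r ^ (3 - p) * r ^ p := by
      rw [← Real.rpow_add hr, ← Real.rpow_natCast]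
      congr 1
      push_cast
      ring
    have hpos : 0 < r ^ (3 - p) := by positivity
    rw [e1, e2]
    field_simp
  have hlim : Tendsto (fun r : ℝ => 6 ^ p * (r ^ p * V + 4 ^ (3 - p) * r ^ (3 - p) * S))
      (𝓝[>] 0) (𝓝 0) := by
    have hp0 : 0 < p := by linarith
    have c1 : Tendsto (fun r : ℝ => r ^ p) (𝓝[>] 0) (𝓝 0) := by
      have := (Real.continuousAt_rpow_const 0 p (Or.inr hp0.le)).tendsto
      rw [Real.zero_rpow hp0.ne'] at this
      exact this.mono_left nhdsWithin_le_nhds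
    have c2 : Tendsto (fun r : ℝ => r ^ (3 - p)) (𝓝[>] 0) (𝓝 0) := by
      have := (Real.continuousAt_rpow_const 0 (3 - p) (Or.inr h3.le)).tendsto
      rw [Real.zero_rpow h3.ne'] at this
      exact this.mono_left nhdsWithin_le_nhds
    have := ((c1.mul_const V).add ((c2.const_mul (4 ^ (3 - p))).mul_const S)).const_mul (6 ^ p)
    simpa using this
  refine squeeze_zero' ?_ ?_ hlim
  · filter_upwards [self_mem_nhdsWithin] with r hr using (key r hr).1
  · filter_upwards [self_mem_nhdsWithin] with r hr using (key r hr).2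

/-- away from the origin the gradient is locally bounded -/
theorem Du_bdd {δ : ℝ} (hδ : 0 < δ) {x : Vec 3} (hx : δ ≤ ‖x‖) :
    ‖Du x‖ ≤ 3 * (2 + 125 / δ ^ 3) := by
  by_cases h : ∃ j, ‖x - yc j‖ < b j / 4
  · obtain ⟨j, hj⟩ := h
    have h1 := Du_le (x := x) (j := j) fun i hi => far_of_near hj hi
    have h2 := aa_le_inv (yc j) x (rh_pos j)
    have h3 : ‖x‖ ≤ ‖yc j‖ + ‖x - yc j‖ := by
      have : x = yc j + (x - yc j) := by abel
      calc ‖x‖ = _ := congrArg _ this
        _ ≤ _ := norm_add_le _ _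
    rw [yc_norm] at h3
    have hb := b_pos j
    have h4 : 4 / 5 * δ ≤ b j := by linarith
    have h5 : (rh j)⁻¹ ≤ 125 / δ ^ 3 := by
      unfold rh
      rw [inv_div, div_le_div_iff₀ (by positivity) (by positivity)]
      have : (4 / 5 * δ) ^ 3 ≤ b j ^ 3 := by gcongr
      nlinarith
    linarith
  · push Not at h
    have h1 := Du_le (x := x) (j := 0) fun i _ => h i
    have h3 := aa_far (h 0)
    have h4 := b_le_one 0
    have : 0 < 125 / δ ^ 3 := by positivity
    linarith

theorem MM_ne {p : ℝ} (hp : 1 < p) (hp3 : p < 3) {x0 : Vec 3} (hx0 : x0 ≠ 0) :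
    Tendsto (MM p x0) (𝓝[>] 0) (𝓝 0) := by
  have hn : 0 < ‖x0‖ := norm_pos_iff.2 hx0
  set δ := ‖x0‖ / 2 with hδ
  have hδ0 : 0 < δ := by positivity
  set K := 3 * (2 + 125 / δ ^ 3) with hK
  have hK0 : 0 ≤ K := by positivity
  set V := (volume : Measure (Vec 3)).real (ball 0 1) with hV
  have hV0 : 0 ≤ V := measureReal_nonneg
  have hp0 : 0 < p := by linarith
  have key : ∀ r : ℝ, 0 < r → r < δ → 0 ≤ MM p x0 r ∧ MM p x0 r ≤ K ^ p * V * r ^ p := by
    intro r hr hrδ
    have h4 : ∫⁻ x in ball x0 r, ‖Du x‖ₑ ^ p ≤ ENNReal.ofReal (K ^ p * (r ^ 3 * V)) := by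
      rw [ENNReal.ofReal_mul (by positivity), ← vol_ball x0 hr]
      calc ∫⁻ x in ball x0 r, ‖Du x‖ₑ ^ p ≤ ∫⁻ x in ball x0 r, ENNReal.ofReal (K ^ p) := by
            apply setLIntegral_mono' measurableSet_ball
            intro x hx
            rw [← ofReal_norm, ENNReal.ofReal_rpow_of_nonneg (norm_nonneg _) hp0.le]
            apply ENNReal.ofReal_le_ofReal
            apply Real.rpow_le_rpow (norm_nonneg _) _ hp0.le
            apply Du_bdd hδ0
            rw [mem_ball, dist_eq_norm] at hx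
            have : ‖x0‖ ≤ ‖x‖ + ‖x - x0‖ := by
              have : x0 = x - (x - x0) := by abel
              calc ‖x0‖ = _ := congrArg _ this
                _ ≤ _ := norm_sub_le _ _
            linarith
        _ = _ := by rw [lintegral_const, Measure.restrict_apply_univ]
    obtain ⟨h5, h6⟩ := MM_le hp hr (by positivity) h4
    refine ⟨h5, h6.trans (le_of_eq ?_)⟩
    have e2 : r ^ 3 = r ^ (3 - p) * r ^ p := by
      rw [← Real.rpow_add hr, ← Real.rpow_natCast]
      congr 1
      push_cast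
      ring
    have hpos : 0 < r ^ (3 - p) := by positivity
    rw [e2]
    field_simp
  have hlim : Tendsto (fun r : ℝ => K ^ p * V * r ^ p) (𝓝[>] 0) (𝓝 0) := by
    have c1 : Tendsto (fun r : ℝ => r ^ p) (𝓝[>] 0) (𝓝 0) := by
      have := (Real.continuousAt_rpow_const 0 p (Or.inr hp0.le)).tendsto
      rw [Real.zero_rpow hp0.ne'] at this
      exact this.mono_left nhdsWithin_le_nhds
    simpa using c1.const_mul (K ^ p * V)
  have hev : ∀ᶠ r in 𝓝[>] (0:ℝ), 0 < r ∧ r < δ := by
    filter_upwards [Ioo_mem_nhdsGT hδ0] with r hr using hr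
  refine squeeze_zero' ?_ ?_ hlim
  · filter_upwards [hev] with r hr using (key r hr.1 hr.2).1
  · filter_upwards [hev] with r hr using (key r hr.1 hr.2).2

end Pool.Agent.V1180.Bub
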