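import Mathlib

/-! # Capacitary inradii, part a: definitions, Jensen, translations, the local inequality -/

set_option autoImplicit false

open MeasureTheory Set Filter Topology
open scoped ENNReal NNReal

namespace Pool.Agent.V1180.CI

abbrev EE (N : ℕ) := EuclideanSpace ℝ (Fin N)

/-- energy -/
noncomputable def En {N : ℕ} (p : ℝ) (φ : EE N → ℝ) : ℝ≥0∞ := ∫⁻ x, ‖fderiv ℝ φ x‖ₑ ^ p

/-- admissible test functions -/
structure Adm {N : ℕ} (S U : Set (EE N)) (φ : EE N → ℝ) : Prop where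
  smooth : ContDiff ℝ (⊤ : ℕ∞) φ
  cs : HasCompactSupport φ
  supp : tsupport φ ⊆ U
  one_le : ∀ x ∈ S, 1 ≤ φ x

/-- the capacity of `S` relative to `U` -/
noncomputable def cap {N : ℕ} (p : ℝ) (S U : Set (EE N)) : ℝ≥0∞ :=
  ⨅ (φ : EE N → ℝ) (_ : Adm S U φ), En p φ

theorem cap_le {N : ℕ} {p : ℝ} {S U : Set (EE N)} {φ : EE N → ℝ} (h : Adm S U φ) :
    cap p S U ≤ En p φ := iInf₂_le φ h

theorem jensen {α : Type*} [MeasurableSpace α] (ν : Measure α) [IsProbabilityMeasure ν] {p : ℝ}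
    (hp : 1 < p) {g : α → ℝ≥0∞} (hg : AEMeasurable g ν) :
    (∫⁻ a, g a ∂ν) ^ p ≤ ∫⁻ a, g a ^ p ∂ν := by
  have hpq := Real.HolderConjugate.conjExponent hp
  have h := ENNReal.lintegral_mul_le_Lp_mul_Lq ν hpq hg (aemeasurable_const (b := (1 : ℝ≥0∞)))
  simp only [Pi.mul_apply, mul_one, ENNReal.one_rpow, lintegral_const, measure_univ] at h
  have h2 := ENNReal.rpow_le_rpow h (by linarith : (0 : ℝ) ≤ p)
  rwa [← ENNReal.rpow_mul, one_div, inv_mul_cancel₀ (by linarith), ENNReal.rpow_one] at h2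

theorem add_rpow {p : ℝ} (hp : 1 < p) (a b : ℝ≥0∞) :
    (a + b) ^ p ≤ 2 ^ (p - 1) * (a ^ p + b ^ p) :=
  ENNReal.rpow_add_le_mul_rpow_add_rpow a b hp.le

variable {N : ℕ}

theorem meas_fderiv {φ : EE N → ℝ} (h : ContDiff ℝ (⊤ : ℕ∞) φ) :
    Continuous (fderiv ℝ φ) := h.continuous_fderiv (by simp)

theorem diff {φ : EE N → ℝ} (h : ContDiff ℝ (⊤ : ℕ∞) φ) : Differentiable ℝ φ :=
  h.differentiable (by simp)

/-- `∫ |φ(y+h) - φ(y)|^p dy ≤ |h|^p ∫ |∇φ|^p` -/
theorem translate {p : ℝ} (hp : 1 < p) {φ : EE N → ℝ} (hφ : ContDiff ℝ (⊤ : ℕ∞) φ) (h : EE N) :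
    ∫⁻ y, ‖φ (y + h) - φ y‖ₑ ^ p ≤ ‖h‖ₑ ^ p * En p φ := by
  have hc := meas_fderiv hφ
  have hd := diff hφ
  have h1 : ∀ y, ‖φ (y + h) - φ y‖ₑ ^ p ≤
      ∫⁻ t in Icc (0:ℝ) 1, ‖h‖ₑ ^ p * ‖fderiv ℝ φ (y + t • h)‖ₑ ^ p := by
    intro y
    have hder : ∀ t : ℝ, HasDerivAt (fun t : ℝ => φ (y + t • h)) (fderiv ℝ φ (y + t • h) h) t := by
      intro t
      have h1 : HasDerivAt (fun t : ℝ => y + t • h) h t := by
        have := ((hasDerivAt_id t).smul_const h).const_add y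
        simpa using this
      exact (hd (y + t • h)).hasFDerivAt.comp_hasDerivAt t h1
    have hcont : Continuous (fun t : ℝ => fderiv ℝ φ (y + t • h) h) := by
      have : Continuous (fun t : ℝ => fderiv ℝ φ (y + t • h)) := by
        apply hc.comp
        fun_prop
      exact this.clm_apply continuous_const
    have e1 : φ (y + h) - φ y = ∫ t in (0:ℝ)..1, fderiv ℝ φ (y + t • h) h := by
      rw [intervalIntegral.integral_eq_sub_of_hasDerivAt (fun t _ => hder t)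
        (hcont.intervalIntegrable _ _)]
      simp
    have e2 : ‖φ (y + h) - φ y‖ₑ ≤ ∫⁻ t in Icc (0:ℝ) 1, ‖h‖ₑ * ‖fderiv ℝ φ (y + t • h)‖ₑ := by
      rw [e1, intervalIntegral.integral_of_le zero_le_one, ← integral_Icc_eq_integral_Ioc]
      refine (enorm_integral_le_lintegral_enorm _).trans (lintegral_mono fun t => ?_)
      rw [mul_comm]
      exact ContinuousLinearMap.le_opENorm _ _
    haveI : IsProbabilityMeasure (volume.restrict (Icc (0:ℝ) 1)) := ⟨by simp⟩
    have hm : Measurable (fun t : ℝ => ‖h‖ₑ * ‖fderiv ℝ φ (y + t • h)‖ₑ) := by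
      have : Continuous (fun t : ℝ => fderiv ℝ φ (y + t • h)) := by
        apply hc.comp
        fun_prop
      exact (measurable_const.mul this.enorm.measurable)
    refine (ENNReal.rpow_le_rpow e2 (by linarith)).trans ((jensen _ hp hm.aemeasurable).trans ?_)
    refine lintegral_mono fun t => ?_
    rw [ENNReal.mul_rpow_of_nonneg _ _ (by linarith)]
  refine (lintegral_mono h1).trans ?_
  have hmm : Measurable (Function.uncurry fun (y : EE N) (t : ℝ) =>
      ‖h‖ₑ ^ p * ‖fderiv ℝ φ (y + t • h)‖ₑ ^ p) := by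
    have : Continuous (fun z : EE N × ℝ => fderiv ℝ φ (z.1 + z.2 • h)) := by
      apply hc.comp
      fun_prop
    exact (measurable_const.mul (this.enorm.measurable.pow_const p))
  rw [lintegral_lintegral_swap hmm.aemeasurable]
  have h2 : ∀ t : ℝ, ∫⁻ y, ‖h‖ₑ ^ p * ‖fderiv ℝ φ (y + t • h)‖ₑ ^ p = ‖h‖ₑ ^ p * En p φ := by
    intro t
    rw [lintegral_const_mul]
    · congr 1
      exact lintegral_add_right_eq_self (fun y => ‖fderiv ℝ φ y‖ₑ ^ p) (t • h)
    · have : Continuous (fun y : EE N => fderiv ℝ φ (y + t • h)) := by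
        apply hc.comp
        fun_prop
      exact this.enorm.measurable.pow_const p
  simp only [h2]
  simp

end Pool.Agent.V1180.CI
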