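import Pool.Agent.V1180.CIa

/-! # Capacitary inradii, part b: the local inequality and its integrated form -/

set_option autoImplicit false

open MeasureTheory Set Filter Topology Metric
open scoped ENNReal NNReal

namespace Pool.Agent.V1180.CI

variable {N : ℕ}

structure Eta (η : EE N → ℝ) (C : ℝ) : Prop where
  nonneg : 0 ≤ C
  smooth : ContDiff ℝ (⊤ : ℕ∞) η
  supp : ∀ x, η x ≠ 0 → ‖x‖ ≤ 3 / 2
  one : ∀ x, ‖x‖ ≤ 1 → η x = 1
  zero_le : ∀ x, 0 ≤ η x
  le_one : ∀ x, η x ≤ 1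
  bound : ∀ x, ‖fderiv ℝ η x‖ ≤ C

theorem exists_eta : ∃ (η : EE N → ℝ) (C : ℝ), Eta η C := by
  let f : ContDiffBump (0 : EE N) := ⟨1, 3 / 2, by norm_num, by norm_num⟩
  have hs : ContDiff ℝ (⊤ : ℕ∞) f := f.contDiff
  obtain ⟨C, hC⟩ := (f.hasCompactSupport.fderiv (𝕜 := ℝ)).exists_bound_of_continuous
    (hs.continuous_fderiv (by simp))
  refine ⟨f, C, (norm_nonneg _).trans (hC 0), hs, ?_, ?_, fun x => f.nonneg, fun x => f.le_one, hC⟩
  · intro x hx
    have : x ∈ Function.support f := hx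
    rw [f.support_eq] at this
    have h2 : dist x 0 < 3 / 2 := this
    rw [dist_zero_right] at h2
    exact h2.le
  · intro x hx
    exact f.one_of_mem_closedBall (by simpa [f] using hx)

theorem local_ineq {p : ℝ} (hp : 1 < p) {η : EE N → ℝ} {C : ℝ} (hη : Eta η C) {φ : EE N → ℝ}
    (hφ : ContDiff ℝ (⊤ : ℕ∞) φ) {S : Set (EE N)} {y : EE N}
    (h1 : ∀ x ∈ S ∩ closedBall y 1, 1 ≤ φ x) (hy : φ y < 1) :
    ENNReal.ofReal (1 - φ y) ^ p * cap p (S ∩ closedBall y 1) (ball y 2) ≤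
      2 ^ (p - 1) * ∫⁻ x in ball y 2,
        (‖fderiv ℝ φ x‖ₑ ^ p + ENNReal.ofReal C ^ p * ‖φ x - φ y‖ₑ ^ p) := by
  set a : ℝ := 1 - φ y with ha
  have ha0 : 0 < a := by simp only [ha]; linarith
  set ψ : EE N → ℝ := fun x => η (x - y) * ((φ x - φ y) / a) with hψ
  have hηs : ContDiff ℝ (⊤ : ℕ∞) (fun x => η (x - y)) :=
    hη.smooth.comp (contDiff_id.sub contDiff_const)
  have hq : ContDiff ℝ (⊤ : ℕ∞) (fun x => (φ x - φ y) / a) := (hφ.sub contDiff_const).div_const a
  have hψs : ContDiff ℝ (⊤ : ℕ∞) ψ := hηs.mul hq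
  have hz : ∀ x, x ∉ closedBall y (3 / 2) → ψ x = 0 := by
    intro x hx
    have : η (x - y) = 0 := by
      by_contra h
      apply hx
      have := hη.supp _ h
      rwa [mem_closedBall, dist_eq_norm]
    simp [hψ, this]
  have hts : tsupport ψ ⊆ closedBall y (3 / 2) := by
    apply closure_minimal _ isClosed_closedBall
    intro x hx
    by_contra h
    exact hx (hz x h)
  have hadm : Adm (S ∩ closedBall y 1) (ball y 2) ψ := by
    refine ⟨hψs, HasCompactSupport.intro (isCompact_closedBall y (3 / 2)) hz, ?_, ?_⟩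
    · exact hts.trans (closedBall_subset_ball (by norm_num))
    · intro x hx
      have h2 := h1 x hx
      have h3 : η (x - y) = 1 := hη.one _ (by
        have := hx.2
        rwa [mem_closedBall, dist_eq_norm] at this)
      simp only [hψ, h3, one_mul]
      rw [le_div_iff₀ ha0]
      simp only [ha]
      linarith
  have hb : ∀ x, ‖fderiv ℝ ψ x‖ₑ ^ p ≤ (ball y 2).indicator (fun x => ENNReal.ofReal a⁻¹ ^ p *
      (2 ^ (p - 1) * (‖fderiv ℝ φ x‖ₑ ^ p + ENNReal.ofReal C ^ p * ‖φ x - φ y‖ₑ ^ p))) x := by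
    intro x
    by_cases hx : x ∈ ball y 2
    · rw [indicator_of_mem hx]
      have e1 : fderiv ℝ ψ x = η (x - y) • (a⁻¹ • fderiv ℝ φ x) +
          ((φ x - φ y) / a) • fderiv ℝ η (x - y) := by
        have d1 : DifferentiableAt ℝ (fun x => η (x - y)) x := (diff hηs) x
        have d2 : DifferentiableAt ℝ (fun x => (φ x - φ y) / a) x := (diff hq) x
        have e3 : fderiv ℝ (fun x => (φ x - φ y) / a) x = a⁻¹ • fderiv ℝ φ x := by
          have : (fun x => (φ x - φ y) / a) = fun x => a⁻¹ • (φ x - φ y) := by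
            funext x; simp [div_eq_inv_mul]
          rw [this, fderiv_fun_const_smul ((diff hφ x).sub_const _), fderiv_sub_const]
        have e4 : fderiv ℝ (fun x => η (x - y)) x = fderiv ℝ η (x - y) := by
          rw [fderiv_comp_sub]
        simp only [hψ]
        rw [fderiv_fun_mul d1 d2, e3, e4]
      have e2 : ‖fderiv ℝ ψ x‖ ≤ a⁻¹ * (‖fderiv ℝ φ x‖ + C * ‖φ x - φ y‖) := by
        rw [e1]
        refine (norm_add_le _ _).trans ?_
        rw [norm_smul, norm_smul, norm_smul, norm_div, Real.norm_of_nonneg ha0.le,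
          Real.norm_of_nonneg (inv_nonneg.2 ha0.le), Real.norm_of_nonneg (hη.zero_le _)]
        have h5 := hη.le_one (x - y)
        have h6 := hη.bound (x - y)
        have h7 : 0 ≤ a⁻¹ * ‖fderiv ℝ φ x‖ := by positivity
        have h8 : η (x - y) * (a⁻¹ * ‖fderiv ℝ φ x‖) ≤ 1 * (a⁻¹ * ‖fderiv ℝ φ x‖) :=
          mul_le_mul_of_nonneg_right h5 h7
        have h9 : ‖φ x - φ y‖ / a * ‖fderiv ℝ η (x - y)‖ ≤ ‖φ x - φ y‖ / a * C :=
          mul_le_mul_of_nonneg_left h6 (by positivity)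
        have h10 : a⁻¹ * (‖fderiv ℝ φ x‖ + C * ‖φ x - φ y‖) =
          1 * (a⁻¹ * ‖fderiv ℝ φ x‖) + ‖φ x - φ y‖ / a * C := by
          rw [div_eq_mul_inv]; ring
        rw [h10]
        exact add_le_add h8 h9
      have e3 : ‖fderiv ℝ ψ x‖ₑ ≤ ENNReal.ofReal a⁻¹ *
          (‖fderiv ℝ φ x‖ₑ + ENNReal.ofReal C * ‖φ x - φ y‖ₑ) := by
        rw [← ofReal_norm, ← ofReal_norm, ← ofReal_norm, ← ENNReal.ofReal_mul hη.nonneg,
          ← ENNReal.ofReal_add (norm_nonneg _) (mul_nonneg hη.nonneg (norm_nonneg _)),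
          ← ENNReal.ofReal_mul (inv_nonneg.2 ha0.le)]
        exact ENNReal.ofReal_le_ofReal e2
      refine (ENNReal.rpow_le_rpow e3 (by linarith)).trans ?_
      rw [ENNReal.mul_rpow_of_nonneg _ _ (by linarith)]
      refine mul_le_mul' le_rfl ((add_rpow hp _ _).trans ?_)
      rw [ENNReal.mul_rpow_of_nonneg _ _ (by linarith)]
    · rw [indicator_of_notMem hx]
      have : x ∉ tsupport ψ := fun h => hx (closedBall_subset_ball (by norm_num) (hts h))
      rw [fderiv_of_notMem_tsupport ℝ this, ← ofReal_norm, norm_zero, ENNReal.ofReal_zero,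
        ENNReal.zero_rpow_of_pos (by linarith)]
  have hcap := cap_le (p := p) hadm
  have h2 : En p ψ ≤ ENNReal.ofReal a⁻¹ ^ p * (2 ^ (p - 1) * ∫⁻ x in ball y 2,
        (‖fderiv ℝ φ x‖ₑ ^ p + ENNReal.ofReal C ^ p * ‖φ x - φ y‖ₑ ^ p)) := by
    refine (lintegral_mono hb).trans ?_
    rw [lintegral_indicator measurableSet_ball]
    have hm : Measurable (fun x => ‖fderiv ℝ φ x‖ₑ ^ p + ENNReal.ofReal C ^ p * ‖φ x - φ y‖ₑ ^ p) := by
      have m1 := ((meas_fderiv hφ).enorm.measurable.pow_const p)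
      have m2 : Measurable (fun x => ‖φ x - φ y‖ₑ ^ p) :=
        ((hφ.continuous.sub continuous_const).enorm.measurable.pow_const p)
      exact m1.add (measurable_const.mul m2)
    rw [lintegral_const_mul' _ _ (ENNReal.rpow_ne_top_of_nonneg (by linarith) ENNReal.ofReal_ne_top),
      lintegral_const_mul' _ _ (ENNReal.rpow_ne_top_of_nonneg (by linarith) (by simp))]
  refine (mul_le_mul' le_rfl (hcap.trans h2)).trans ?_
  rw [← mul_assoc, ← ENNReal.mul_rpow_of_nonneg _ _ (by linarith : (0:ℝ) ≤ p),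
    ← ENNReal.ofReal_mul ha0.le, mul_inv_cancel₀ ha0.ne']
  simp

/-- the integrated form -/
theorem integrated {p : ℝ} (hp : 1 < p) {η : EE N → ℝ} {C : ℝ} (hη : Eta η C) {φ : EE N → ℝ}
    (hφ : ContDiff ℝ (⊤ : ℕ∞) φ) {S : Set (EE N)} {R : ℝ}
    (h1 : ∀ x ∈ S ∩ closedBall 0 R, 1 ≤ φ x) {b : ℝ≥0∞}
    (hb : ∀ y ∈ closedBall (0 : EE N) (R - 1), b ≤ cap p (S ∩ closedBall y 1) (ball y 2)) :
    b * ∫⁻ y in closedBall (0 : EE N) (R - 1), ENNReal.ofReal (1 - φ y) ^ p ≤
      2 ^ (p - 1) * (1 + ENNReal.ofReal C ^ p * 2 ^ p) * volume (ball (0 : EE N) 2) * En p φ := by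
  have hp0 : 0 < p := by linarith
  have hmf := ((meas_fderiv hφ).enorm.measurable.pow_const p)
  have hm1 : Measurable (fun y => ENNReal.ofReal (1 - φ y) ^ p) :=
    ((continuous_const.sub hφ.continuous).measurable.ennreal_ofReal.pow_const p)
  rw [← lintegral_const_mul _ hm1]
  -- pointwise
  have hpt : ∀ y ∈ closedBall (0 : EE N) (R - 1), b * ENNReal.ofReal (1 - φ y) ^ p ≤
      2 ^ (p - 1) * ∫⁻ h in ball (0 : EE N) 2,
        (‖fderiv ℝ φ (y + h)‖ₑ ^ p + ENNReal.ofReal C ^ p * ‖φ (y + h) - φ y‖ₑ ^ p) := by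
    intro y hy
    by_cases h2 : φ y < 1
    · have h3 : ∀ x ∈ S ∩ closedBall y 1, 1 ≤ φ x := by
        intro x hx
        refine h1 x ⟨hx.1, ?_⟩
        have h4 := hx.2
        rw [mem_closedBall] at h4 hy ⊢
        calc dist x 0 ≤ dist x y + dist y 0 := dist_triangle _ _ _
          _ ≤ R := by linarith
      have h5 := local_ineq hp hη hφ h3 h2
      have h6 : ∫⁻ x in ball y 2,
          (‖fderiv ℝ φ x‖ₑ ^ p + ENNReal.ofReal C ^ p * ‖φ x - φ y‖ₑ ^ p) =
          ∫⁻ h in ball (0 : EE N) 2,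
          (‖fderiv ℝ φ (y + h)‖ₑ ^ p + ENNReal.ofReal C ^ p * ‖φ (y + h) - φ y‖ₑ ^ p) := by
        rw [← lintegral_indicator measurableSet_ball, ← lintegral_indicator measurableSet_ball,
          ← lintegral_add_left_eq_self _ y]
        congr 1
        funext h
        have : (y + h ∈ ball y 2) ↔ h ∈ ball (0 : EE N) 2 := by
          simp [mem_ball, dist_eq_norm]
        by_cases hh : h ∈ ball (0 : EE N) 2
        · rw [indicator_of_mem hh, indicator_of_mem (this.2 hh)]
        · rw [indicator_of_notMem hh, indicator_of_notMem (fun h' => hh (this.1 h'))]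
      rw [h6] at h5
      refine le_trans ?_ h5
      rw [mul_comm]
      exact mul_le_mul' le_rfl (hb y hy)
    · have : ENNReal.ofReal (1 - φ y) = 0 := ENNReal.ofReal_of_nonpos (by linarith)
      rw [this, ENNReal.zero_rpow_of_pos hp0, mul_zero]
      exact bot_le
  have hmm : Measurable (Function.uncurry fun (y : EE N) (h : EE N) =>
      (‖fderiv ℝ φ (y + h)‖ₑ ^ p + ENNReal.ofReal C ^ p * ‖φ (y + h) - φ y‖ₑ ^ p)) := by
    have c1 : Continuous (fun z : EE N × EE N => fderiv ℝ φ (z.1 + z.2)) :=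
      (meas_fderiv hφ).comp (continuous_fst.add continuous_snd)
    have c2 : Continuous (fun z : EE N × EE N => φ (z.1 + z.2) - φ z.1) :=
      (hφ.continuous.comp (continuous_fst.add continuous_snd)).sub
        (hφ.continuous.comp continuous_fst)
    exact (c1.enorm.measurable.pow_const p).add
      (measurable_const.mul (c2.enorm.measurable.pow_const p))
  calc ∫⁻ y in closedBall (0 : EE N) (R - 1), b * ENNReal.ofReal (1 - φ y) ^ p
      ≤ ∫⁻ y in closedBall (0 : EE N) (R - 1), 2 ^ (p - 1) * ∫⁻ h in ball (0 : EE N) 2,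
        (‖fderiv ℝ φ (y + h)‖ₑ ^ p + ENNReal.ofReal C ^ p * ‖φ (y + h) - φ y‖ₑ ^ p) :=
        setLIntegral_mono' measurableSet_closedBall hpt
    _ ≤ ∫⁻ y, 2 ^ (p - 1) * ∫⁻ h in ball (0 : EE N) 2,
        (‖fderiv ℝ φ (y + h)‖ₑ ^ p + ENNReal.ofReal C ^ p * ‖φ (y + h) - φ y‖ₑ ^ p) :=
        setLIntegral_le_lintegral _ _
    _ = 2 ^ (p - 1) * ∫⁻ y, ∫⁻ h in ball (0 : EE N) 2,
        (‖fderiv ℝ φ (y + h)‖ₑ ^ p + ENNReal.ofReal C ^ p * ‖φ (y + h) - φ y‖ₑ ^ p) := by
        rw [lintegral_const_mul']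
        exact ENNReal.rpow_ne_top_of_nonneg (by linarith) (by simp)
    _ = 2 ^ (p - 1) * ∫⁻ h in ball (0 : EE N) 2, ∫⁻ y,
        (‖fderiv ℝ φ (y + h)‖ₑ ^ p + ENNReal.ofReal C ^ p * ‖φ (y + h) - φ y‖ₑ ^ p) := by
        rw [lintegral_lintegral_swap hmm.aemeasurable]
    _ ≤ 2 ^ (p - 1) * ∫⁻ h in ball (0 : EE N) 2, (1 + ENNReal.ofReal C ^ p * 2 ^ p) * En p φ := by
        refine mul_le_mul' le_rfl (setLIntegral_mono' measurableSet_ball fun h hh => ?_)
        have m1 : Measurable (fun y => ‖fderiv ℝ φ (y + h)‖ₑ ^ p) := by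
          have : Continuous (fun y => fderiv ℝ φ (y + h)) :=
            (meas_fderiv hφ).comp (continuous_id.add continuous_const)
          exact this.enorm.measurable.pow_const p
        have m2 : Measurable (fun y => ‖φ (y + h) - φ y‖ₑ ^ p) := by
          have : Continuous (fun y => φ (y + h) - φ y) :=
            (hφ.continuous.comp (continuous_id.add continuous_const)).sub hφ.continuous
          exact this.enorm.measurable.pow_const p
        rw [lintegral_add_left m1, lintegral_const_mul _ m2,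
          lintegral_add_right_eq_self (fun y => ‖fderiv ℝ φ y‖ₑ ^ p) h, add_mul, one_mul]
        refine add_le_add le_rfl ?_
        rw [mul_assoc]
        refine mul_le_mul' le_rfl ((translate hp hφ h).trans (mul_le_mul' ?_ le_rfl))
        refine ENNReal.rpow_le_rpow ?_ hp0.le
        rw [← ofReal_norm]
        have : ‖h‖ ≤ 2 := by
          have := mem_ball_zero_iff.1 hh
          exact this.le
        calc ENNReal.ofReal ‖h‖ ≤ ENNReal.ofReal 2 := ENNReal.ofReal_le_ofReal this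
          _ = 2 := by simp
    _ = _ := by
        rw [lintegral_const, Measure.restrict_apply_univ]
        ring

end Pool.Agent.V1180.CI
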