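import Pool.Agent.V1180.CIb

/-! # Capacitary inradii, part c: scaling and averaging -/

set_option autoImplicit false

open MeasureTheory Set Filter Topology Metric
open scoped ENNReal NNReal Convolution

namespace Pool.Agent.V1180.CI

variable {N : ℕ}

theorem lint_affine {f : EE N → ℝ≥0∞} (hf : Measurable f) {a : ℝ} (ha : 0 < a) (x0 : EE N) :
    ∫⁻ x, f (a • x + x0) = ENNReal.ofReal ((a ^ N)⁻¹) * ∫⁻ x, f x := by
  have h1 : ∫⁻ x, f (a • x + x0) = ∫⁻ x, f (x + x0) ∂(Measure.map (fun x : EE N => a • x) volume) := by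
    rw [lintegral_map (show Measurable (fun x => f (x + x0)) from hf.comp (measurable_id.add_const x0))
      (measurable_const_smul a)]
  have h2 := Measure.map_addHaar_smul (volume : Measure (EE N)) ha.ne'
  rw [h1, show (Measure.map (fun x : EE N => a • x) volume) = Measure.map (a • ·) volume from rfl, h2,
    lintegral_smul_measure, lintegral_add_right_eq_self f x0, finrank_euclideanSpace_fin,
    abs_of_nonneg (by positivity), smul_eq_mul]

theorem En_affine {p : ℝ} (hp : 1 < p) {φ : EE N → ℝ} (hφ : ContDiff ℝ (⊤ : ℕ∞) φ) {a : ℝ}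
    (ha : 0 < a) (x0 : EE N) :
    En p (fun x => φ (a • x + x0)) = ENNReal.ofReal (a ^ p * (a ^ N)⁻¹) * En p φ := by
  have h1 : ∀ x, fderiv ℝ (fun x => φ (a • x + x0)) x = a • fderiv ℝ φ (a • x + x0) := by
    intro x
    have h2 : HasFDerivAt (fun x : EE N => a • x + x0) (a • ContinuousLinearMap.id ℝ (EE N)) x :=
      ((hasFDerivAt_id x).const_smul a).add_const x0
    have h3 := ((diff hφ (a • x + x0)).hasFDerivAt).comp x h2
    have h4 : (fderiv ℝ φ (a • x + x0)).comp (a • ContinuousLinearMap.id ℝ (EE N)) =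
        a • fderiv ℝ φ (a • x + x0) := by
      ext v
      simp
    rw [h4] at h3
    exact h3.fderiv
  have h5 : ∀ x, ‖fderiv ℝ (fun x => φ (a • x + x0)) x‖ₑ ^ p =
      ENNReal.ofReal a ^ p * ‖fderiv ℝ φ (a • x + x0)‖ₑ ^ p := by
    intro x
    rw [h1, ← ENNReal.mul_rpow_of_nonneg _ _ (by linarith : (0:ℝ) ≤ p), ← ofReal_norm, norm_smul,
      Real.norm_of_nonneg ha.le, ENNReal.ofReal_mul ha.le, ofReal_norm]
  have hm := ((meas_fderiv hφ).enorm.measurable.pow_const p)
  unfold En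
  simp only [h5]
  rw [lintegral_const_mul' _ _ (ENNReal.rpow_ne_top_of_nonneg (by linarith) ENNReal.ofReal_ne_top),
    lint_affine (f := fun x => ‖fderiv ℝ φ x‖ₑ ^ p) hm ha x0, ← mul_assoc,
    ENNReal.ofReal_rpow_of_nonneg ha.le (by linarith), ← ENNReal.ofReal_mul (by positivity)]

/-- averages over a ball -/
noncomputable def fc (N : ℕ) (ε : ℝ) : EE N → ℝ :=
  (ball (0 : EE N) ε).indicator (fun _ => ((volume (ball (0 : EE N) ε))⁻¹).toReal)

noncomputable def nu (N : ℕ) (ε : ℝ) : Measure (EE N) :=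
  (volume (ball (0 : EE N) ε))⁻¹ • volume.restrict (ball (0 : EE N) ε)

noncomputable def av (ε : ℝ) (φ : EE N → ℝ) (w : EE N) : ℝ := ∫ t, φ (w - t) ∂(nu N ε)

theorem nu_prob {ε : ℝ} (hε : 0 < ε) : IsProbabilityMeasure (nu N ε) := by
  refine ⟨?_⟩
  unfold nu
  rw [Measure.smul_apply, Measure.restrict_apply_univ, smul_eq_mul]
  exact ENNReal.inv_mul_cancel (measure_ball_pos _ _ hε).ne' measure_ball_lt_top.ne

theorem av_eq_conv {ε : ℝ} {φ : EE N → ℝ} (w : EE N) :
    av ε φ w = (fc N ε ⋆[ContinuousLinearMap.lsmul ℝ ℝ, volume] φ) w := by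
  unfold av nu
  rw [integral_smul_measure, convolution_def, ← integral_smul, ← integral_indicator measurableSet_ball]
  congr 1
  funext t
  unfold fc
  by_cases ht : t ∈ ball (0 : EE N) ε
  · simp [indicator_of_mem ht]
  · simp [indicator_of_notMem ht]

theorem fc_loc {ε : ℝ} : LocallyIntegrable (fc N ε) volume := by
  apply Integrable.locallyIntegrable
  unfold fc
  rw [integrable_indicator_iff measurableSet_ball]
  exact integrableOn_const measure_ball_lt_top.ne

theorem av_smooth {ε : ℝ} {φ : EE N → ℝ} (hφ : ContDiff ℝ (⊤ : ℕ∞) φ) (hc : HasCompactSupport φ) :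
    ContDiff ℝ (⊤ : ℕ∞) (av ε φ) := by
  have : av ε φ = (fc N ε ⋆[ContinuousLinearMap.lsmul ℝ ℝ, volume] φ) := funext av_eq_conv
  rw [this]
  exact hc.contDiff_convolution_right _ fc_loc hφ

theorem av_fderiv {ε : ℝ} (hε : 0 < ε) {φ : EE N → ℝ} (hφ : ContDiff ℝ (⊤ : ℕ∞) φ) (hc : HasCompactSupport φ)
    (w : EE N) : ‖fderiv ℝ (av ε φ) w‖ₑ ≤ ∫⁻ t, ‖fderiv ℝ φ (w - t)‖ₑ ∂(nu N ε) := by
  have : av ε φ = (fc N ε ⋆[ContinuousLinearMap.lsmul ℝ ℝ, volume] φ) := funext av_eq_conv
  rw [this]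
  have h1 := (hc.hasFDerivAt_convolution_right (ContinuousLinearMap.lsmul ℝ ℝ) (μ := volume)
    (fc_loc (N := N) (ε := ε)) (hφ.of_le (by exact_mod_cast le_top)) w).fderiv
  rw [h1, convolution_def]
  refine (enorm_integral_le_lintegral_enorm _).trans ?_
  unfold nu
  have hctop : (volume (ball (0 : EE N) ε))⁻¹ ≠ ⊤ :=
    ENNReal.inv_ne_top.2 (measure_ball_pos _ _ hε).ne'
  rw [lintegral_smul_measure, smul_eq_mul, ← lintegral_const_mul' _ _ hctop,
    ← lintegral_indicator measurableSet_ball]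
  refine lintegral_mono fun t => ?_
  have e1 : ∀ (s : ℝ) (f : EE N →L[ℝ] ℝ),
      ((ContinuousLinearMap.lsmul ℝ ℝ).precompR (EE N) s) f = s • f := by
    intro s f
    ext v
    simp [ContinuousLinearMap.precompR]
  rw [e1]
  unfold fc
  by_cases ht : t ∈ ball (0 : EE N) ε
  · rw [indicator_of_mem ht, indicator_of_mem ht, enorm_smul, ← ofReal_norm,
      Real.norm_of_nonneg ENNReal.toReal_nonneg, ENNReal.ofReal_toReal hctop]
  · rw [indicator_of_notMem ht, indicator_of_notMem ht, zero_smul, ← ofReal_norm, norm_zero,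
      ENNReal.ofReal_zero]

theorem av_energy {p : ℝ} (hp : 1 < p) {ε : ℝ} (hε : 0 < ε) {φ : EE N → ℝ}
    (hφ : ContDiff ℝ (⊤ : ℕ∞) φ) (hc : HasCompactSupport φ) : En p (av ε φ) ≤ En p φ := by
  have := nu_prob (N := N) hε
  have hcont := meas_fderiv hφ
  have h1 : ∀ w, ‖fderiv ℝ (av ε φ) w‖ₑ ^ p ≤ ∫⁻ t, ‖fderiv ℝ φ (w - t)‖ₑ ^ p ∂(nu N ε) := by
    intro w
    refine (ENNReal.rpow_le_rpow (av_fderiv hε hφ hc w) (by linarith)).trans ?_
    apply jensen _ hp
    have : Continuous (fun t => fderiv ℝ φ (w - t)) := hcont.comp (continuous_const.sub continuous_id)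
    exact this.enorm.measurable.aemeasurable
  unfold En
  refine (lintegral_mono h1).trans ?_
  have hmm : Measurable (Function.uncurry fun (w : EE N) (t : EE N) => ‖fderiv ℝ φ (w - t)‖ₑ ^ p) := by
    have : Continuous (fun z : EE N × EE N => fderiv ℝ φ (z.1 - z.2)) :=
      hcont.comp (continuous_fst.sub continuous_snd)
    exact this.enorm.measurable.pow_const p
  rw [lintegral_lintegral_swap hmm.aemeasurable]
  have h2 : ∀ t : EE N, ∫⁻ w, ‖fderiv ℝ φ (w - t)‖ₑ ^ p = En p φ := by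
    intro t
    exact lintegral_sub_right_eq_self (fun w => ‖fderiv ℝ φ w‖ₑ ^ p) t
  simp only [h2, lintegral_const, measure_univ, mul_one]
  exact le_refl _

theorem av_support {ε M : ℝ} {φ : EE N → ℝ} (h : ∀ x, φ x ≠ 0 → ‖x‖ ≤ M) {w : EE N}
    (hw : av ε φ w ≠ 0) : ‖w‖ ≤ M + ε := by
  by_contra hc
  push Not at hc
  apply hw
  unfold av nu
  rw [integral_smul_measure]
  rw [setIntegral_eq_zero_of_forall_eq_zero]
  · simp
  · intro t ht
    by_contra h2
    have h3 := h _ h2
    have h4 : ‖t‖ < ε := mem_ball_zero_iff.1 ht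
    have h5 : ‖w‖ ≤ ‖w - t‖ + ‖t‖ := by
      calc ‖w‖ = ‖(w - t) + t‖ := by simp
        _ ≤ _ := norm_add_le _ _
    linarith

theorem av_lower {p : ℝ} (hp : 1 < p) {ε R κ : ℝ} (hε : 0 < ε) (hκ : 0 ≤ κ) {φ : EE N → ℝ}
    (hφ : ContDiff ℝ (⊤ : ℕ∞) φ) (hc : HasCompactSupport φ)
    (hk : (volume (ball (0 : EE N) ε))⁻¹ * ∫⁻ y in closedBall (0 : EE N) R,
      ENNReal.ofReal (1 - φ y) ^ p ≤ ENNReal.ofReal κ ^ p) {w : EE N} (hw : ‖w‖ + ε ≤ R) :
    1 - κ ≤ av ε φ w := by
  have := nu_prob (N := N) hε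
  have hp0 : 0 < p := by linarith
  obtain ⟨C, hC⟩ := hc.exists_bound_of_continuous hφ.continuous
  have hint : Integrable (fun t => φ (w - t)) (nu N ε) := by
    refine Integrable.of_bound ?_ C (Eventually.of_forall fun t => hC _)
    exact (hφ.continuous.comp (continuous_const.sub continuous_id)).aestronglyMeasurable
  have h1 : 1 - av ε φ w = ∫ t, (1 - φ (w - t)) ∂(nu N ε) := by
    rw [integral_sub (integrable_const _) hint]
    simp [av]
  have hint2 : Integrable (fun t => 1 - φ (w - t)) (nu N ε) := (integrable_const _).sub hint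
  have h2 : ENNReal.ofReal (1 - av ε φ w) ≤ ∫⁻ t, ENNReal.ofReal (1 - φ (w - t)) ∂(nu N ε) := by
    rw [h1]
    have h3 : ∫ t, (1 - φ (w - t)) ∂(nu N ε) ≤ ∫ t, max (1 - φ (w - t)) 0 ∂(nu N ε) :=
      integral_mono hint2 (hint2.pos_part) (fun t => le_max_left _ _)
    refine (ENNReal.ofReal_le_ofReal h3).trans ?_
    rw [ofReal_integral_eq_lintegral_ofReal hint2.pos_part
      (Eventually.of_forall fun t => le_max_right _ _)]
    refine lintegral_mono fun t => ?_
    rcases le_total (1 - φ (w - t)) 0 with h | h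
    · rw [max_eq_right h]; simp
    · rw [max_eq_left h]
  have h4 : (∫⁻ t, ENNReal.ofReal (1 - φ (w - t)) ∂(nu N ε)) ^ p ≤ ENNReal.ofReal κ ^ p := by
    have hm : Measurable (fun t => ENNReal.ofReal (1 - φ (w - t))) :=
      (continuous_const.sub (hφ.continuous.comp
        (continuous_const.sub continuous_id))).measurable.ennreal_ofReal
    refine (jensen _ hp hm.aemeasurable).trans (le_trans ?_ hk)
    unfold nu
    rw [lintegral_smul_measure, smul_eq_mul]
    refine mul_le_mul' le_rfl ?_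
    rw [← lintegral_indicator measurableSet_ball, ← lintegral_indicator measurableSet_closedBall,
      ← lintegral_sub_left_eq_self _ w]
    refine lintegral_mono fun t => ?_
    by_cases ht : w - t ∈ ball (0 : EE N) ε
    · rw [indicator_of_mem ht, indicator_of_mem]
      · simp
      rw [mem_closedBall_zero_iff]
      have h7 := mem_ball_zero_iff.1 ht
      calc ‖t‖ = ‖w - (w - t)‖ := by simp
        _ ≤ ‖w‖ + ‖w - t‖ := norm_sub_le _ _
        _ ≤ R := by linarith
    · rw [indicator_of_notMem ht]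
      exact bot_le
  have h5 : ENNReal.ofReal (1 - av ε φ w) ≤ ENNReal.ofReal κ := by
    refine h2.trans ?_
    rwa [ENNReal.rpow_le_rpow_iff hp0] at h4
  rw [ENNReal.ofReal_le_ofReal_iff hκ] at h5
  linarith

end Pool.Agent.V1180.CI
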