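import Pool.Agent.V1180.CIc

/-! # Capacitary inradii, part d: scaling of capacities, positivity, finiteness -/

set_option autoImplicit false

open MeasureTheory Set Filter Topology Metric
open scoped ENNReal NNReal

namespace Pool.Agent.V1180.CI

variable {N : ℕ}

theorem cap_mono {p : ℝ} {S S' U U' : Set (EE N)} (hS : S ⊆ S') (hU : U' ⊆ U) :
    cap p S U ≤ cap p S' U' := by
  refine le_iInf₂ fun φ h => cap_le ⟨h.smooth, h.cs, h.supp.trans hU, fun x hx => h.one_le x (hS hx)⟩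

noncomputable def aff (a : ℝ) (ha : a ≠ 0) (x0 : EE N) : EE N ≃ₜ EE N :=
  (Homeomorph.smulOfNeZero a ha).trans (Homeomorph.addRight x0)

theorem aff_apply {a : ℝ} (ha : a ≠ 0) (x0 x : EE N) : aff a ha x0 x = a • x + x0 := rfl

theorem Adm.affine {S U : Set (EE N)} {φ : EE N → ℝ} (h : Adm S U φ) {a : ℝ} (ha : 0 < a)
    (x0 : EE N) : Adm ((fun x => a • x + x0) ⁻¹' S) ((fun x => a • x + x0) ⁻¹' U)
      (fun x => φ (a • x + x0)) := by
  have hcomp : (fun x => φ (a • x + x0)) = φ ∘ (aff a ha.ne' x0) := rfl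
  refine ⟨?_, ?_, ?_, fun x hx => h.one_le _ hx⟩
  · exact h.smooth.comp ((contDiff_const_smul a).add contDiff_const)
  · rw [hcomp]
    exact h.cs.comp_homeomorph _
  · rw [hcomp, tsupport_comp_eq_preimage]
    intro x hx
    exact h.supp hx

theorem cap_affine_le {p : ℝ} (hp : 1 < p) {a : ℝ} (ha : 0 < a) (x0 : EE N) (S U : Set (EE N)) :
    cap p ((fun x => a • x + x0) ⁻¹' S) ((fun x => a • x + x0) ⁻¹' U) ≤
      ENNReal.ofReal (a ^ p * (a ^ N)⁻¹) * cap p S U := by
  have hk : 0 < a ^ p * (a ^ N)⁻¹ := by positivity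
  unfold cap
  rw [ENNReal.mul_iInf_of_ne (by simpa using hk) ENNReal.ofReal_ne_top]
  refine le_iInf fun φ => ?_
  rw [ENNReal.mul_iInf_of_ne (by simpa using hk) ENNReal.ofReal_ne_top]
  refine le_iInf fun h => ?_
  rw [← En_affine hp h.smooth ha x0]
  exact iInf₂_le _ (h.affine ha x0)

theorem cap_affine {p : ℝ} (hp : 1 < p) {a : ℝ} (ha : 0 < a) (x0 : EE N) (S U : Set (EE N)) :
    cap p ((fun x => a • x + x0) ⁻¹' S) ((fun x => a • x + x0) ⁻¹' U) =
      ENNReal.ofReal (a ^ p * (a ^ N)⁻¹) * cap p S U := by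
  refine le_antisymm (cap_affine_le hp ha x0 S U) ?_
  have h := cap_affine_le hp (inv_pos.2 ha) (-(a⁻¹ • x0)) ((fun x => a • x + x0) ⁻¹' S)
    ((fun x => a • x + x0) ⁻¹' U)
  have e : ∀ W : Set (EE N), (fun x : EE N => a⁻¹ • x + -(a⁻¹ • x0)) ⁻¹'
      ((fun x => a • x + x0) ⁻¹' W) = W := by
    intro W
    ext x
    simp only [mem_preimage]
    have : a • (a⁻¹ • x + -(a⁻¹ • x0)) + x0 = x := by
      rw [smul_add, smul_neg, smul_smul, smul_smul, mul_inv_cancel₀ ha.ne', one_smul, one_smul]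
      simp
    rw [this]
  rw [e, e] at h
  have hk : 0 < a ^ p * (a ^ N)⁻¹ := by positivity
  calc ENNReal.ofReal (a ^ p * (a ^ N)⁻¹) * cap p S U
      ≤ ENNReal.ofReal (a ^ p * (a ^ N)⁻¹) * (ENNReal.ofReal (a⁻¹ ^ p * (a⁻¹ ^ N)⁻¹) *
        cap p ((fun x => a • x + x0) ⁻¹' S) ((fun x => a • x + x0) ⁻¹' U)) := mul_le_mul' le_rfl h
    _ = cap p ((fun x => a • x + x0) ⁻¹' S) ((fun x => a • x + x0) ⁻¹' U) := by
        rw [← mul_assoc, ← ENNReal.ofReal_mul hk.le]
        have : a ^ p * (a ^ N)⁻¹ * (a⁻¹ ^ p * (a⁻¹ ^ N)⁻¹) = 1 := by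
          rw [Real.inv_rpow ha.le, inv_pow, inv_inv]
          have h1 : a ^ p ≠ 0 := (Real.rpow_pos_of_pos ha p).ne'
          have h2 : a ^ N ≠ 0 := by positivity
          field_simp
        rw [this]
        simp

theorem pre_closedBall {a : ℝ} (ha : 0 < a) (x0 z : EE N) (r : ℝ) :
    (fun x : EE N => a • x + x0) ⁻¹' closedBall (a • z + x0) (a * r) = closedBall z r := by
  ext x
  simp only [mem_preimage, mem_closedBall, dist_eq_norm]
  have : a • x + x0 - (a • z + x0) = a • (x - z) := by rw [smul_sub]; abel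
  rw [this, norm_smul, Real.norm_of_nonneg ha.le]
  exact mul_le_mul_iff_right₀ ha

theorem pre_ball {a : ℝ} (ha : 0 < a) (x0 z : EE N) (r : ℝ) :
    (fun x : EE N => a • x + x0) ⁻¹' ball (a • z + x0) (a * r) = ball z r := by
  ext x
  simp only [mem_preimage, mem_ball, dist_eq_norm]
  have : a • x + x0 - (a • z + x0) = a • (x - z) := by rw [smul_sub]; abel
  rw [this, norm_smul, Real.norm_of_nonneg ha.le]
  exact mul_lt_mul_iff_right₀ ha

theorem Eta.adm {η : EE N → ℝ} {C : ℝ} (h : Eta η C) : Adm (closedBall 0 1) (ball 0 2) η := by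
  have hts : tsupport η ⊆ closedBall 0 (3 / 2) := by
    apply closure_minimal _ isClosed_closedBall
    intro x hx
    rw [mem_closedBall_zero_iff]
    exact h.supp x hx
  refine ⟨h.smooth, ?_, hts.trans (closedBall_subset_ball (by norm_num)), fun x hx => ?_⟩
  · exact (isCompact_closedBall (0 : EE N) (3 / 2)).of_isClosed_subset (isClosed_tsupport _) hts
  · rw [h.one x (mem_closedBall_zero_iff.1 hx)]

theorem capR_lt_top {p : ℝ} (hp : 1 < p) : cap p (closedBall (0 : EE N) 1) (ball 0 2) < ⊤ := by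
  obtain ⟨η, C, h⟩ := exists_eta (N := N)
  refine (cap_le h.adm).trans_lt ?_
  have hb : ∀ x, ‖fderiv ℝ η x‖ₑ ^ p ≤
      (ball (0 : EE N) 2).indicator (fun _ => ENNReal.ofReal C ^ p) x := by
    intro x
    by_cases hx : x ∈ ball (0 : EE N) 2
    · rw [indicator_of_mem hx]
      refine ENNReal.rpow_le_rpow ?_ (by linarith)
      rw [← ofReal_norm]
      exact ENNReal.ofReal_le_ofReal (h.bound x)
    · have : x ∉ tsupport η := fun hh => hx (h.adm.supp hh)
      rw [fderiv_of_notMem_tsupport ℝ this, ← ofReal_norm, norm_zero, ENNReal.ofReal_zero,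
        ENNReal.zero_rpow_of_pos (by linarith)]
      exact bot_le
  refine (lintegral_mono hb).trans_lt ?_
  rw [lintegral_indicator measurableSet_ball, lintegral_const, Measure.restrict_apply_univ]
  exact ENNReal.mul_lt_top (ENNReal.rpow_lt_top_of_nonneg (by linarith) ENNReal.ofReal_ne_top)
    measure_ball_lt_top

theorem capA_pos {p : ℝ} (hp : 1 < p) (hpN : p < N) : 0 < cap p (closedBall (0 : EE N) 1) univ := by
  have hN : 0 < N := by
    rcases Nat.eq_zero_or_pos N with h | h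
    · subst h; simp at hpN; linarith
    · exact h
  have hNr : (0:ℝ) < N := by exact_mod_cast hN
  set P : ℝ≥0 := ⟨p, by linarith⟩ with hP
  have hp0 : 0 < p := by linarith
  have hq0 : 0 < p⁻¹ - (N:ℝ)⁻¹ := by
    have := inv_strictAnti₀ hp0 hpN
    linarith
  set Q : ℝ≥0 := ⟨(p⁻¹ - (N:ℝ)⁻¹)⁻¹, inv_nonneg.2 hq0.le⟩ with hQ
  have hQpos : (0:ℝ) < Q := by
    change 0 < (p⁻¹ - (N:ℝ)⁻¹)⁻¹
    exact inv_pos.2 hq0
  set K : ℝ≥0∞ := ((SNormLESNormFDerivOfEqConst ℝ (volume : Measure (EE N)) (P : ℝ) : ℝ≥0) : ℝ≥0∞) with hK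
  have key : ∀ φ : EE N → ℝ, Adm (closedBall (0 : EE N) 1) univ φ →
      ((volume (closedBall (0 : EE N) 1)) ^ (1 / (Q:ℝ)) / K) ^ p ≤ En p φ := by
    intro φ h
    have h1 := eLpNorm_le_eLpNorm_fderiv_of_eq (volume : Measure (EE N)) (p := P) (p' := Q)
      (h.smooth.of_le (by exact_mod_cast le_top)) h.cs
      (by rw [← NNReal.coe_le_coe]; exact hp.le) (by rw [finrank_euclideanSpace_fin]; exact hN)
      (by
        rw [finrank_euclideanSpace_fin]
        change ((p⁻¹ - (N:ℝ)⁻¹)⁻¹)⁻¹ = p⁻¹ - (N:ℝ)⁻¹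
        rw [inv_inv])
    have h2 : (volume (closedBall (0 : EE N) 1)) ^ (1 / (Q:ℝ)) ≤ eLpNorm φ Q volume := by
      rw [eLpNorm_eq_lintegral_rpow_enorm_toReal (by
        simp only [ne_eq, ENNReal.coe_eq_zero]
        intro h0
        rw [h0] at hQpos
        simp at hQpos) ENNReal.coe_ne_top, ENNReal.coe_toReal]
      refine ENNReal.rpow_le_rpow ?_ (by positivity)
      have : (volume (closedBall (0 : EE N) 1)) =
          ∫⁻ x, (closedBall (0 : EE N) 1).indicator (fun _ => (1 : ℝ≥0∞)) x := by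
        rw [lintegral_indicator measurableSet_closedBall]
        simp
      rw [this]
      refine lintegral_mono fun x => ?_
      by_cases hx : x ∈ closedBall (0 : EE N) 1
      · rw [indicator_of_mem hx]
        have h3 := h.one_le x hx
        have h4 : (1:ℝ≥0∞) ≤ ‖φ x‖ₑ := by
          rw [← ofReal_norm, ← ENNReal.ofReal_one]
          apply ENNReal.ofReal_le_ofReal
          rw [Real.norm_eq_abs]
          exact h3.trans (le_abs_self _)
        exact ENNReal.one_le_rpow h4 hQpos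
      · rw [indicator_of_notMem hx]
        exact bot_le
    have h5 : (volume (closedBall (0 : EE N) 1)) ^ (1 / (Q:ℝ)) / K ≤ eLpNorm (fderiv ℝ φ) P volume :=
      ENNReal.div_le_of_le_mul' (h2.trans h1)
    have h6 := ENNReal.rpow_le_rpow h5 hp0.le
    rw [eLpNorm_eq_lintegral_rpow_enorm_toReal (by
        simp only [ne_eq, ENNReal.coe_eq_zero]
        intro h0
        have : (P:ℝ) = 0 := by rw [h0]; rfl
        change p = 0 at this
        linarith) ENNReal.coe_ne_top, ENNReal.coe_toReal, ← ENNReal.rpow_mul,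
        show (P:ℝ) = p from rfl, one_div_mul_cancel hp0.ne', ENNReal.rpow_one] at h6
    exact h6
  have hpos : 0 < ((volume (closedBall (0 : EE N) 1)) ^ (1 / (Q:ℝ)) / K) ^ p := by
    apply ENNReal.rpow_pos_of_nonneg _ hp0.le
    apply ENNReal.div_pos _ ENNReal.coe_ne_top
    have : 0 < (volume (closedBall (0 : EE N) 1)) ^ (1 / (Q:ℝ)) :=
      ENNReal.rpow_pos (measure_closedBall_pos _ _ one_pos) measure_closedBall_lt_top.ne
    exact this.ne'
  exact hpos.trans_le (le_iInf₂ key)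

end Pool.Agent.V1180.CI
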