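import Pool.Agent.V1180.CId

/-! # Capacitary inradii, part e: continuity in the inner radius -/

set_option autoImplicit false

open MeasureTheory Set Filter Topology Metric
open scoped ENNReal NNReal RealInnerProductSpace

namespace Pool.Agent.V1180.CI

variable {N : ℕ}

/-- radial stretching -/
noncomputable def gs (s b : ℝ) (x : EE N) : EE N := (s + b * ‖x‖ ^ 2) • x

theorem gs_smooth (s b : ℝ) : ContDiff ℝ (⊤ : ℕ∞) (gs (N := N) s b) :=
  (contDiff_const.add (contDiff_const.mul (contDiff_norm_sq ℝ))).smul contDiff_id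

theorem gs_norm {s b : ℝ} (hs : 0 ≤ s) (hb : 0 ≤ b) (x : EE N) :
    ‖gs s b x‖ = (s + b * ‖x‖ ^ 2) * ‖x‖ := by
  unfold gs
  rw [norm_smul, Real.norm_of_nonneg (by positivity)]

theorem gs_anti {s b : ℝ} (hs : 0 < s) (hb : 0 ≤ b) (x y : EE N) :
    s * dist x y ≤ dist (gs s b x) (gs s b y) := by
  rw [dist_eq_norm, dist_eq_norm]
  have h1 : s * ‖x - y‖ ^ 2 ≤ ⟪gs s b x - gs s b y, x - y⟫ := by
    have e1 : gs s b x - gs s b y = s • (x - y) + b • (‖x‖ ^ 2 • x - ‖y‖ ^ 2 • y) := by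
      unfold gs
      rw [add_smul, add_smul, smul_sub, smul_sub, smul_smul, smul_smul]
      abel
    rw [e1, inner_add_left, inner_smul_left, inner_smul_left, real_inner_self_eq_norm_sq]
    simp only [conj_trivial]
    have h2 : 0 ≤ ⟪‖x‖ ^ 2 • x - ‖y‖ ^ 2 • y, x - y⟫ := by
      have e2 : ⟪‖x‖ ^ 2 • x - ‖y‖ ^ 2 • y, x - y⟫ =
          ‖x‖ ^ 4 + ‖y‖ ^ 4 - (‖x‖ ^ 2 + ‖y‖ ^ 2) * ⟪x, y⟫ := by
        rw [inner_sub_left, inner_sub_right, inner_sub_right, real_inner_smul_left,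
          real_inner_smul_left, real_inner_smul_left, real_inner_smul_left,
          real_inner_self_eq_norm_sq, real_inner_self_eq_norm_sq, real_inner_comm y x]
        ring
      rw [e2]
      have h3 := real_inner_le_norm x y
      have h4 : (‖x‖ ^ 2 + ‖y‖ ^ 2) * ⟪x, y⟫ ≤ (‖x‖ ^ 2 + ‖y‖ ^ 2) * (‖x‖ * ‖y‖) :=
        mul_le_mul_of_nonneg_left h3 (by positivity)
      have h5 : 0 ≤ (‖x‖ - ‖y‖) ^ 2 * (‖x‖ ^ 2 + ‖x‖ * ‖y‖ + ‖y‖ ^ 2) := by positivity
      nlinarith [h4, h5]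
    nlinarith [mul_nonneg hb h2]
  have h6 := real_inner_le_norm (gs s b x - gs s b y) (x - y)
  rcases eq_or_lt_of_le (norm_nonneg (x - y)) with h0 | h0
  · rw [← h0]; simp
  · have h7 : s * ‖x - y‖ * ‖x - y‖ ≤ ‖gs s b x - gs s b y‖ * ‖x - y‖ := by nlinarith
    exact le_of_mul_le_mul_right h7 h0

theorem gs_measure {s b : ℝ} (hs : 0 < s) (hb : 0 ≤ b) (A : Set (EE N)) :
    volume (gs s b ⁻¹' A) ≤ ENNReal.ofReal (s⁻¹) ^ (N : ℝ) * volume A := by
  have hanti : AntilipschitzWith (Real.toNNReal s⁻¹) (gs (N := N) s b) := by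
    apply AntilipschitzWith.of_le_mul_dist
    intro x y
    rw [Real.coe_toNNReal _ (inv_nonneg.2 hs.le)]
    have := gs_anti hs hb x y
    rw [inv_mul_eq_div, le_div_iff₀ hs]
    linarith
  have h1 := hanti.hausdorffMeasure_preimage_le (d := (N : ℝ)) (by positivity) A
  have h2 := Measure.isAddLeftInvariant_eq_smul (volume : Measure (EE N)) (Measure.hausdorffMeasure (N : ℝ))
  rw [h2]
  simp only [Measure.smul_apply, Measure.nnreal_smul_coe_apply]
  calc _ ≤ (Measure.addHaarScalarFactor (volume : Measure (EE N)) (Measure.hausdorffMeasure (N:ℝ)) : ℝ≥0∞) *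
        ((Real.toNNReal s⁻¹ : ℝ≥0∞) ^ (N : ℝ) * Measure.hausdorffMeasure (N : ℝ) A) := mul_le_mul' le_rfl h1
    _ = _ := by
        rw [show ENNReal.ofReal s⁻¹ = (Real.toNNReal s⁻¹ : ℝ≥0∞) from rfl]
        ring

theorem gs_lint {s b : ℝ} (hs : 0 < s) (hb : 0 ≤ b) {f : EE N → ℝ≥0∞} (hf : Measurable f) :
    ∫⁻ x, f (gs s b x) ≤ ENNReal.ofReal (s⁻¹) ^ (N : ℝ) * ∫⁻ x, f x := by
  have hg : Measurable (gs (N := N) s b) := (gs_smooth s b).continuous.measurable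
  rw [← lintegral_map hf hg, ← smul_eq_mul, ← lintegral_smul_measure]
  refine lintegral_mono' ?_ le_rfl
  refine Measure.le_iff.2 fun A hA => ?_
  rw [Measure.map_apply hg hA, Measure.smul_apply, smul_eq_mul]
  exact gs_measure hs hb A

theorem gs_fderiv {s b : ℝ} (hs : 0 ≤ s) (hb : 0 ≤ b) (x : EE N) :
    ‖fderiv ℝ (gs s b) x‖ ≤ s + 3 * b * ‖x‖ ^ 2 := by
  have h1 : HasFDerivAt (fun x : EE N => s + b * ‖x‖ ^ 2) (b • (2 • (innerSL ℝ x))) x :=
    ((hasStrictFDerivAt_norm_sq x).hasFDerivAt.const_mul b).const_add s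
  have h2 := h1.smul (hasFDerivAt_id x)
  have h3 : fderiv ℝ (gs s b) x = _ := h2.fderiv
  rw [h3]
  refine ContinuousLinearMap.opNorm_le_bound _ (by positivity) fun v => ?_
  have e1 : ((s + b * ‖x‖ ^ 2) • ContinuousLinearMap.id ℝ (EE N) +
      (b • (2 • (innerSL ℝ x))).smulRight (id x)) v = (s + b * ‖x‖ ^ 2) • v + (b * (2 * ⟪x, v⟫)) • x := by
    simp
  rw [e1]
  refine (norm_add_le _ _).trans ?_
  rw [norm_smul, norm_smul, Real.norm_of_nonneg (by positivity : 0 ≤ s + b * ‖x‖ ^ 2), norm_mul,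
    norm_mul, Real.norm_of_nonneg hb, Real.norm_of_nonneg (by norm_num : (0:ℝ) ≤ 2)]
  have h4 := norm_inner_le_norm (𝕜 := ℝ) x v
  have h5 : b * (2 * ‖⟪x, v⟫‖) * ‖x‖ ≤ b * (2 * (‖x‖ * ‖v‖)) * ‖x‖ := by
    gcongr
  nlinarith [h5]

/-- the comparison for one `s` -/
theorem cap_stretch {p : ℝ} (hp : 1 < p) {s b : ℝ} (hs : 0 < s) (hb : 0 ≤ b) (h4 : s + 4 * b = 1) :
    cap p (closedBall (0 : EE N) 1) (ball 0 2) ≤
      ENNReal.ofReal (s + 12 * b) ^ p * ENNReal.ofReal (s⁻¹) ^ (N : ℝ) *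
        cap p (closedBall (0 : EE N) (s + b)) (ball 0 2) := by
  have hL : 0 < s + 12 * b := by positivity
  have hk0 : ENNReal.ofReal (s + 12 * b) ^ p * ENNReal.ofReal (s⁻¹) ^ (N : ℝ) ≠ 0 := by
    apply mul_ne_zero
    · exact (ENNReal.rpow_pos (by simpa using hL) ENNReal.ofReal_ne_top).ne'
    · exact (ENNReal.rpow_pos (by simpa using hs) ENNReal.ofReal_ne_top).ne'
  have hk1 : ENNReal.ofReal (s + 12 * b) ^ p * ENNReal.ofReal (s⁻¹) ^ (N : ℝ) ≠ ⊤ := by
    apply ENNReal.mul_ne_top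
    · exact ENNReal.rpow_ne_top_of_nonneg (by linarith) ENNReal.ofReal_ne_top
    · exact ENNReal.rpow_ne_top_of_nonneg (by positivity) ENNReal.ofReal_ne_top
  conv_rhs => unfold cap
  rw [ENNReal.mul_iInf_of_ne hk0 hk1]
  refine le_iInf fun φ => ?_
  rw [ENNReal.mul_iInf_of_ne hk0 hk1]
  refine le_iInf fun h => ?_
  have hsm : ContDiff ℝ (⊤ : ℕ∞) (φ ∘ gs s b) := h.smooth.comp (gs_smooth s b)
  have hts : tsupport (φ ∘ gs s b) ⊆ gs s b ⁻¹' (tsupport φ) :=
    tsupport_comp_subset_preimage φ (gs_smooth s b).continuous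
  have hin : ∀ x, x ∈ tsupport (φ ∘ gs s b) → ‖x‖ < 2 := by
    intro x hx
    have h1 := h.supp (hts hx)
    rw [mem_ball_zero_iff, gs_norm hs.le hb] at h1
    by_contra h2
    push Not at h2
    have h7 : (4:ℝ) ≤ ‖x‖ ^ 2 := by nlinarith
    have h3 : (1:ℝ) ≤ s + b * ‖x‖ ^ 2 := by nlinarith [mul_le_mul_of_nonneg_left h7 hb]
    nlinarith
  have hadm : Adm (closedBall (0 : EE N) 1) (ball 0 2) (φ ∘ gs s b) := by
    refine ⟨hsm, ?_, fun x hx => mem_ball_zero_iff.2 (hin x hx), fun x hx => h.one_le _ ?_⟩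
    · refine (isCompact_closedBall (0 : EE N) 2).of_isClosed_subset (isClosed_tsupport _) ?_
      intro x hx
      exact mem_closedBall_zero_iff.2 (hin x hx).le
    · rw [mem_closedBall_zero_iff] at hx ⊢
      rw [gs_norm hs.le hb]
      have h0 := norm_nonneg x
      have h5 : ‖x‖ ^ 2 ≤ 1 := by nlinarith
      have h6 : s + b * ‖x‖ ^ 2 ≤ s + b := by nlinarith
      calc (s + b * ‖x‖ ^ 2) * ‖x‖ ≤ (s + b) * 1 := mul_le_mul h6 hx h0 (by positivity)
        _ = s + b := mul_one _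
  refine (cap_le hadm).trans ?_
  have hb2 : ∀ x, ‖fderiv ℝ (φ ∘ gs s b) x‖ₑ ^ p ≤
      ENNReal.ofReal (s + 12 * b) ^ p * ‖fderiv ℝ φ (gs s b x)‖ₑ ^ p := by
    intro x
    by_cases hx : x ∈ tsupport (φ ∘ gs s b)
    · have h2 := hin x hx
      rw [fderiv_comp x (diff h.smooth _) ((gs_smooth s b).differentiable (by simp) x),
        ← ENNReal.mul_rpow_of_nonneg _ _ (by linarith : (0:ℝ) ≤ p)]
      refine ENNReal.rpow_le_rpow ?_ (by linarith)
      rw [← ofReal_norm, ← ofReal_norm, ← ENNReal.ofReal_mul hL.le]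
      refine ENNReal.ofReal_le_ofReal ((ContinuousLinearMap.opNorm_comp_le _ _).trans ?_)
      rw [mul_comm]
      refine mul_le_mul_of_nonneg_right ((gs_fderiv hs.le hb x).trans ?_) (norm_nonneg _)
      have h0 := norm_nonneg x
      have h5 : ‖x‖ ^ 2 ≤ 4 := by nlinarith
      nlinarith
    · rw [fderiv_of_notMem_tsupport ℝ hx, ← ofReal_norm, norm_zero, ENNReal.ofReal_zero,
        ENNReal.zero_rpow_of_pos (by linarith)]
      exact bot_le
  refine (lintegral_mono hb2).trans ?_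
  rw [lintegral_const_mul' _ _ (ENNReal.rpow_ne_top_of_nonneg (by linarith) ENNReal.ofReal_ne_top),
    mul_assoc]
  exact mul_le_mul' le_rfl (gs_lint hs hb (f := fun x => ‖fderiv ℝ φ x‖ₑ ^ p)
    ((meas_fderiv h.smooth).enorm.measurable.pow_const p))

/-- continuity in the inner radius, relative case -/
theorem cont_ball {p : ℝ} (hp : 1 < p) {θ : ℝ} (h0 : 0 < θ) (h1 : θ < 1) : ∃ s : ℝ, 0 < s ∧ s < 1 ∧
    ENNReal.ofReal θ * cap p (closedBall (0 : EE N) 1) (ball 0 2) ≤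
      cap p (closedBall (0 : EE N) s) (ball 0 2) := by
  have ht : Tendsto (fun t : ℝ => θ * ((1 - 4 * t + 12 * t) ^ p * ((1 - 4 * t)⁻¹) ^ (N:ℝ)))
      (𝓝[>] 0) (𝓝 θ) := by
    have hc : ContinuousAt (fun t : ℝ => θ * ((1 - 4 * t + 12 * t) ^ p * ((1 - 4 * t)⁻¹) ^ (N:ℝ))) 0 := by
      apply ContinuousAt.mul continuousAt_const
      apply ContinuousAt.mul
      · apply ContinuousAt.rpow_const (by fun_prop)
        right; linarith
      · apply ContinuousAt.rpow_const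
        · apply ContinuousAt.inv₀ (by fun_prop)
          norm_num
        · right; positivity
    have := hc.tendsto
    simp only [mul_zero, sub_zero, add_zero, inv_one, Real.one_rpow, mul_one] at this
    exact this.mono_left nhdsWithin_le_nhds
  have e1 := ht.eventually (gt_mem_nhds h1)
  have e2 : ∀ᶠ t : ℝ in 𝓝[>] 0, t < 1 / 4 :=
    nhdsWithin_le_nhds (gt_mem_nhds (by norm_num))
  have e3 : ∀ᶠ t : ℝ in 𝓝[>] 0, 0 < t := eventually_mem_nhdsWithin
  obtain ⟨t, ht1, ht2, ht3⟩ := (e1.and (e2.and e3)).exists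
  have hs : 0 < 1 - 4 * t := by linarith
  refine ⟨1 - 4 * t + t, by linarith, by linarith, ?_⟩
  have h := cap_stretch (N := N) hp hs ht3.le (by ring)
  refine (mul_le_mul' le_rfl h).trans ?_
  rw [← mul_assoc]
  have h2 : ENNReal.ofReal θ * (ENNReal.ofReal (1 - 4 * t + 12 * t) ^ p *
      ENNReal.ofReal ((1 - 4 * t)⁻¹) ^ (N : ℝ)) ≤ 1 := by
    rw [ENNReal.ofReal_rpow_of_nonneg (by linarith) (by linarith),
      ENNReal.ofReal_rpow_of_nonneg (inv_nonneg.2 hs.le) (by positivity),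
      ← ENNReal.ofReal_mul (by positivity), ← ENNReal.ofReal_mul h0.le, ← ENNReal.ofReal_one]
    exact ENNReal.ofReal_le_ofReal ht1.le
  calc _ ≤ 1 * cap p (closedBall (0 : EE N) (1 - 4 * t + t)) (ball 0 2) := mul_le_mul' h2 le_rfl
    _ = _ := one_mul _

end Pool.Agent.V1180.CI
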