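import Pool.Agent.V1180.CIe

/-! # Capacitary inradii, part f: self-improvement -/

set_option autoImplicit false

open MeasureTheory Set Filter Topology Metric
open scoped ENNReal NNReal

namespace Pool.Agent.V1180.CI

variable {N : ℕ}

/-- the dilated set `R U` -/
def V (U : Set (EE N)) (R : ℝ) : Set (EE N) := (fun x : EE N => R⁻¹ • x + 0) ⁻¹' U

structure Good (p : ℝ) (U : Set (EE N)) : Prop where
  sub : ball 0 2 ⊆ U
  cont : ∀ θ : ℝ, 0 < θ → θ < 1 → ∃ s : ℝ, 0 < s ∧ s < 1 ∧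
    ENNReal.ofReal θ * cap p (closedBall (0 : EE N) 1) U ≤ cap p (closedBall (0 : EE N) s) U
  avs : ∀ R ε : ℝ, 0 < R → 0 < ε → ∀ φ : EE N → ℝ, HasCompactSupport φ → tsupport φ ⊆ V U R →
    tsupport (fun x => av ε φ ((1 + ε / (2 * R)) • x)) ⊆ V U R

theorem good_univ {p : ℝ} (hp : 1 < p) : Good p (univ : Set (EE N)) := by
  refine ⟨subset_univ _, ?_, fun R ε _ _ φ _ _ => fun x _ => mem_univ _⟩
  intro θ h0 h1
  have ht : Tendsto (fun t : ℝ => θ * (t ^ p * (t ^ N)⁻¹)) (𝓝[<] 1) (𝓝 θ) := by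
    have hc : ContinuousAt (fun t : ℝ => θ * (t ^ p * (t ^ N)⁻¹)) 1 := by
      apply ContinuousAt.mul continuousAt_const
      apply ContinuousAt.mul
      · apply ContinuousAt.rpow_const (by fun_prop)
        left; norm_num
      · apply ContinuousAt.inv₀ (by fun_prop)
        norm_num
    have := hc.tendsto
    simp only [Real.one_rpow, one_pow, inv_one, mul_one] at this
    exact this.mono_left nhdsWithin_le_nhds
  have e1 := ht.eventually (gt_mem_nhds h1)
  have e2 : ∀ᶠ t : ℝ in 𝓝[<] 1, 0 < t := nhdsWithin_le_nhds (lt_mem_nhds (by norm_num))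
  have e3 : ∀ᶠ t : ℝ in 𝓝[<] 1, t < 1 := eventually_mem_nhdsWithin
  obtain ⟨s, hs1, hs2, hs3⟩ := (e1.and (e2.and e3)).exists
  refine ⟨s, hs2, hs3, ?_⟩
  have h := cap_affine hp hs2 (0 : EE N) (closedBall 0 s) univ
  have e : (fun x : EE N => s • x + 0) ⁻¹' closedBall 0 s = closedBall 0 1 := by
    have := pre_closedBall hs2 (0 : EE N) 0 1
    rwa [smul_zero, add_zero, mul_one] at this
  rw [e, preimage_univ] at h
  rw [h, ← mul_assoc, ← ENNReal.ofReal_mul h0.le]
  calc _ ≤ 1 * cap p (closedBall (0 : EE N) s) univ := by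
        refine mul_le_mul' ?_ le_rfl
        rw [← ENNReal.ofReal_one]
        exact ENNReal.ofReal_le_ofReal hs1.le
    _ = _ := one_mul _

theorem V_ball {R : ℝ} (hR : 0 < R) : V (ball (0 : EE N) 2) R = ball 0 (2 * R) := by
  unfold V
  have := pre_ball (inv_pos.2 hR) (0 : EE N) 0 (2 * R)
  rwa [smul_zero, add_zero, show R⁻¹ * (2 * R) = 2 by field_simp] at this

theorem good_ball {p : ℝ} (hp : 1 < p) : Good p (ball (0 : EE N) 2) := by
  refine ⟨le_rfl, fun θ h0 h1 => cont_ball hp h0 h1, ?_⟩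
  intro R ε hR hε φ hc hs
  rw [V_ball hR] at hs ⊢
  obtain ⟨M, hM, hM2⟩ := exists_lt_subset_ball (isClosed_tsupport φ) hs
  have h1 : ∀ x, φ x ≠ 0 → ‖x‖ ≤ M := fun x hx =>
    (mem_ball_zero_iff.1 (hM2 (subset_tsupport _ hx))).le
  have hlam : 0 < 1 + ε / (2 * R) := by positivity
  have h2 : tsupport (fun x => av ε φ ((1 + ε / (2 * R)) • x)) ⊆
      closedBall 0 ((M + ε) / (1 + ε / (2 * R))) := by
    apply closure_minimal _ isClosed_closedBall
    intro x hx
    have h3 := av_support h1 hx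
    rw [norm_smul, Real.norm_of_nonneg hlam.le] at h3
    rw [mem_closedBall_zero_iff, le_div_iff₀ hlam]
    linarith
  refine h2.trans (closedBall_subset_ball ?_)
  rw [div_lt_iff₀ hlam]
  have : 2 * R * (1 + ε / (2 * R)) = 2 * R + ε := by field_simp
  rw [this]
  linarith

noncomputable def kR (p : ℝ) (N : ℕ) (R : ℝ) : ℝ := R⁻¹ ^ p * ((R⁻¹) ^ N)⁻¹

theorem kR_pos {p : ℝ} {R : ℝ} (hR : 0 < R) : 0 < kR p N R := by unfold kR; positivity

theorem capV {p : ℝ} (hp : 1 < p) {R : ℝ} (hR : 0 < R) (U : Set (EE N)) (s : ℝ) :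
    cap p (closedBall (0 : EE N) (s * R)) (V U R) =
      ENNReal.ofReal (kR p N R) * cap p (closedBall (0 : EE N) s) U := by
  have h := cap_affine hp (inv_pos.2 hR) (0 : EE N) (closedBall 0 s) U
  have e := pre_closedBall (inv_pos.2 hR) (0 : EE N) 0 (s * R)
  rw [smul_zero, add_zero, show R⁻¹ * (s * R) = s by field_simp] at e
  rw [e] at h
  exact h

theorem av_cs {lam ε : ℝ} (hl : 0 < lam) {φ : EE N → ℝ} (hc : HasCompactSupport φ) :
    HasCompactSupport (fun x => av ε φ (lam • x)) := by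
  obtain ⟨M, hM⟩ := hc.isCompact.isBounded.subset_closedBall 0
  have h1 : ∀ x, φ x ≠ 0 → ‖x‖ ≤ M := fun x hx =>
    (mem_closedBall_zero_iff.1 (hM (subset_tsupport _ hx)))
  refine HasCompactSupport.intro (isCompact_closedBall 0 ((M + ε) / lam)) ?_
  intro x hx
  by_contra h
  have h3 := av_support h1 h
  rw [norm_smul, Real.norm_of_nonneg hl.le] at h3
  apply hx
  rw [mem_closedBall_zero_iff, le_div_iff₀ hl]
  linarith

theorem En_const_mul {p : ℝ} (hp : 1 < p) {c : ℝ} (hc : 0 ≤ c) {f : EE N → ℝ}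
    (hf : ContDiff ℝ (⊤ : ℕ∞) f) : En p (fun x => c * f x) = ENNReal.ofReal c ^ p * En p f := by
  unfold En
  rw [← lintegral_const_mul' _ _ (ENNReal.rpow_ne_top_of_nonneg (by linarith) ENNReal.ofReal_ne_top)]
  congr 1
  funext x
  rw [fderiv_const_mul (diff hf x), ← ENNReal.mul_rpow_of_nonneg _ _ (by linarith : (0:ℝ) ≤ p),
    ← ofReal_norm, ← ofReal_norm, norm_smul, Real.norm_of_nonneg hc, ENNReal.ofReal_mul hc]

theorem exists_kappa {p γ θ : ℝ} (h : γ < θ) : ∃ κ : ℝ, 0 < κ ∧ κ < 1 ∧ γ < θ * (1 - κ) ^ p := by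
  have ht : Tendsto (fun t : ℝ => θ * (1 - t) ^ p) (𝓝[>] 0) (𝓝 θ) := by
    have hc : ContinuousAt (fun t : ℝ => θ * (1 - t) ^ p) 0 := by
      apply ContinuousAt.mul continuousAt_const
      apply ContinuousAt.rpow_const (by fun_prop)
      left; norm_num
    have := hc.tendsto
    simp only [sub_zero, Real.one_rpow, mul_one] at this
    exact this.mono_left nhdsWithin_le_nhds
  have e1 := ht.eventually (lt_mem_nhds h)
  have e2 : ∀ᶠ t : ℝ in 𝓝[>] 0, t < 1 := nhdsWithin_le_nhds (gt_mem_nhds (by norm_num))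
  have e3 : ∀ᶠ t : ℝ in 𝓝[>] 0, 0 < t := eventually_mem_nhdsWithin
  obtain ⟨s, hs1, hs2, hs3⟩ := (e1.and (e2.and e3)).exists
  exact ⟨s, hs3, hs2, hs1⟩

/-- choice of the radius -/
theorem exists_R {p : ℝ} (hp : 1 < p) {ε0 κ : ℝ} (hε : 0 < ε0) (hκ : 0 < κ) {K c b v : ℝ≥0∞}
    (hK : K < ⊤) (hc : c < ⊤) (hb : b ≠ 0) (hv : v ≠ 0) (hv' : v ≠ ⊤) :
    ∃ R : ℝ, 1 < R ∧ R⁻¹ ≤ ε0 ∧ (ENNReal.ofReal ((ε0 * R) ^ N) * v)⁻¹ *
      (K * (ENNReal.ofReal (kR p N R) * c) / b) ≤ ENNReal.ofReal κ ^ p := by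
  set D : ℝ≥0∞ := K * c * b⁻¹ * v⁻¹ * ENNReal.ofReal ((ε0 ^ N)⁻¹) with hD
  have hDtop : D ≠ ⊤ := by
    refine ENNReal.mul_ne_top (ENNReal.mul_ne_top (ENNReal.mul_ne_top (ENNReal.mul_ne_top hK.ne hc.ne)
      (ENNReal.inv_ne_top.2 hb)) (ENNReal.inv_ne_top.2 hv)) ENNReal.ofReal_ne_top
  set d : ℝ := D.toReal with hd
  have hd0 : 0 ≤ d := ENNReal.toReal_nonneg
  have hDd : D = ENNReal.ofReal d := (ENNReal.ofReal_toReal hDtop).symm
  set R : ℝ := max 2 (max (ε0⁻¹) ((d + 1) / κ)) with hR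
  have hR2 : 2 ≤ R := le_max_left _ _
  have hR0 : 0 < R := by linarith
  have hR3 : ε0⁻¹ ≤ R := (le_max_left _ _).trans (le_max_right _ _)
  have hR4 : (d + 1) / κ ≤ R := (le_max_right _ _).trans (le_max_right _ _)
  refine ⟨R, by linarith, ?_, ?_⟩
  · rw [inv_le_comm₀ hR0 hε]; exact hR3
  · have e1 : (ENNReal.ofReal ((ε0 * R) ^ N) * v)⁻¹ * (K * (ENNReal.ofReal (kR p N R) * c) / b) =
        ENNReal.ofReal (R⁻¹ ^ p) * D := by
      rw [ENNReal.mul_inv (Or.inr hv') (Or.inr hv), ← ENNReal.ofReal_inv_of_pos (by positivity), hD,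
        ENNReal.div_eq_inv_mul]
      have e2 : ENNReal.ofReal (((ε0 * R) ^ N)⁻¹) * ENNReal.ofReal (kR p N R) =
          ENNReal.ofReal (R⁻¹ ^ p) * ENNReal.ofReal ((ε0 ^ N)⁻¹) := by
        rw [← ENNReal.ofReal_mul (by positivity), ← ENNReal.ofReal_mul (by positivity)]
        congr 1
        unfold kR
        rw [mul_pow, inv_pow, inv_inv]
        field_simp
      calc _ = (ENNReal.ofReal (((ε0 * R) ^ N)⁻¹) * ENNReal.ofReal (kR p N R)) *
            (K * c * b⁻¹ * v⁻¹) := by ring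
        _ = _ := by rw [e2]; ring
    rw [e1, hDd, ← ENNReal.ofReal_mul (by positivity), ENNReal.ofReal_rpow_of_nonneg hκ.le (by linarith)]
    apply ENNReal.ofReal_le_ofReal
    have h1 : R⁻¹ ≤ κ / (d + 1) := by
      rw [inv_le_comm₀ hR0 (by positivity), inv_div]
      exact hR4
    have h2 : R⁻¹ ^ p ≤ (κ / (d + 1)) ^ p := Real.rpow_le_rpow (by positivity) h1 (by linarith)
    have h3 : (κ / (d + 1)) ^ p = κ ^ p / (d + 1) ^ p := Real.div_rpow hκ.le (by positivity) p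
    have h4 : d + 1 ≤ (d + 1) ^ p := by
      calc d + 1 = (d + 1) ^ (1:ℝ) := (Real.rpow_one _).symm
        _ ≤ (d + 1) ^ p := Real.rpow_le_rpow_of_exponent_le (by linarith) hp.le
    calc R⁻¹ ^ p * d ≤ κ ^ p / (d + 1) ^ p * d := by
          rw [← h3]; exact mul_le_mul_of_nonneg_right h2 hd0
      _ = κ ^ p * (d / (d + 1) ^ p) := by ring
      _ ≤ κ ^ p * 1 := by
          apply mul_le_mul_of_nonneg_left _ (by positivity)
          rw [div_le_one (by positivity)]
          linarith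
      _ = κ ^ p := mul_one _

theorem core {p : ℝ} (hp : 1 < p) (hpN : p < N) {U : Set (EE N)} (hU : Good p U) {γ β : ℝ}
    (hγ0 : 0 < γ) (hγ1 : γ < 1) (hβ : 0 < β) : ∃ R : ℝ, 1 < R ∧ ∀ F : Set (EE N),
      cap p (F ∩ closedBall 0 R) (V U R) ≤ ENNReal.ofReal γ * cap p (closedBall 0 R) (V U R) →
      ∃ y : EE N, cap p (F ∩ closedBall y 1) (ball y 2) ≤
        ENNReal.ofReal β * cap p (closedBall (0 : EE N) 1) univ := by
  have hp0 : 0 < p := by linarith
  have hApos := capA_pos (N := N) hp hpN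
  have hRtop := capR_lt_top (N := N) hp
  set cU := cap p (closedBall (0 : EE N) 1) U with hcU
  have h1 : cap p (closedBall (0 : EE N) 1) univ ≤ cU := cap_mono le_rfl (subset_univ _)
  have h2 : cU ≤ cap p (closedBall (0 : EE N) 1) (ball 0 2) := cap_mono le_rfl hU.sub
  have hU0 : cU ≠ 0 := (hApos.trans_le h1).ne'
  have hUtop : cU ≠ ⊤ := (h2.trans_lt hRtop).ne
  set γ' : ℝ := (1 + γ) / 2 with hγ'
  set θ : ℝ := (1 + γ') / 2 with hθ
  have g1 : γ < γ' := by simp only [hγ']; linarith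
  have g2 : γ' < 1 := by simp only [hγ']; linarith
  have g3 : γ' < θ := by simp only [hθ]; linarith
  have g4 : θ < 1 := by simp only [hθ]; linarith
  have g5 : 0 < θ := by linarith
  obtain ⟨κ, hκ0, hκ1, hκ⟩ := exists_kappa (p := p) g3
  obtain ⟨s0, hs0, hs1, hs⟩ := hU.cont θ g5 g4
  set ε0 : ℝ := (1 - s0) / 4 with hε0
  have hε0p : 0 < ε0 := by simp only [hε0]; linarith
  obtain ⟨η, C, hη⟩ := exists_eta (N := N)
  set K : ℝ≥0∞ := 2 ^ (p - 1) * (1 + ENNReal.ofReal C ^ p * 2 ^ p) * volume (ball (0 : EE N) 2) with hK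
  have hKtop : K < ⊤ := by
    refine ENNReal.mul_lt_top (ENNReal.mul_lt_top ?_ ?_) measure_ball_lt_top
    · exact ENNReal.rpow_lt_top_of_nonneg (by linarith) (by simp)
    · refine ENNReal.add_lt_top.2 ⟨ENNReal.one_lt_top, ENNReal.mul_lt_top ?_ ?_⟩
      · exact ENNReal.rpow_lt_top_of_nonneg hp0.le ENNReal.ofReal_ne_top
      · exact ENNReal.rpow_lt_top_of_nonneg hp0.le (by simp)
  set b : ℝ≥0∞ := ENNReal.ofReal β * cap p (closedBall (0 : EE N) 1) univ with hb
  have hb0 : b ≠ 0 := mul_ne_zero (by simpa using hβ) hApos.ne'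
  have hbtop : b ≠ ⊤ := ENNReal.mul_ne_top ENNReal.ofReal_ne_top ((h1.trans h2).trans_lt hRtop).ne
  obtain ⟨R, hR1, hR2, hR3⟩ := exists_R (N := N) hp hε0p hκ0 hKtop hRtop hb0
    (v := volume (ball (0 : EE N) 1)) (measure_ball_pos _ _ one_pos).ne' measure_ball_lt_top.ne
  have hR0 : 0 < R := by linarith
  refine ⟨R, hR1, fun F hF => ?_⟩
  by_contra hcon
  push Not at hcon
  have hcapR : cap p (closedBall (0 : EE N) R) (V U R) = ENNReal.ofReal (kR p N R) * cU := by
    have := capV hp hR0 U 1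
    rwa [one_mul] at this
  set cR := cap p (closedBall (0 : EE N) R) (V U R) with hcR
  have hk0 : ENNReal.ofReal (kR p N R) ≠ 0 := by simpa using kR_pos hR0
  have hcR0 : cR ≠ 0 := by rw [hcapR]; exact mul_ne_zero hk0 hU0
  have hcRtop : cR ≠ ⊤ := by rw [hcapR]; exact ENNReal.mul_ne_top ENNReal.ofReal_ne_top hUtop
  have hlt : cap p (F ∩ closedBall 0 R) (V U R) < ENNReal.ofReal γ' * cR := by
    refine hF.trans_lt ?_
    exact ENNReal.mul_lt_mul_left hcR0 hcRtop ((ENNReal.ofReal_lt_ofReal_iff (by linarith)).2 g1)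
  unfold cap at hlt
  simp only [iInf_lt_iff] at hlt
  obtain ⟨φ, h, hφ⟩ := hlt
  have hI := integrated hp hη h.smooth (S := F) (R := R) h.one_le (b := b) (fun y _ => (hcon y).le)
  set I := ∫⁻ y in closedBall (0 : EE N) (R - 1), ENNReal.ofReal (1 - φ y) ^ p with hIdef
  have hEn : En p φ ≤ ENNReal.ofReal (kR p N R) * cap p (closedBall (0 : EE N) 1) (ball 0 2) := by
    refine hφ.le.trans ?_
    rw [hcapR]
    calc ENNReal.ofReal γ' * (ENNReal.ofReal (kR p N R) * cU)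
        ≤ 1 * (ENNReal.ofReal (kR p N R) * cU) := by
          refine mul_le_mul' ?_ le_rfl
          rw [← ENNReal.ofReal_one]
          exact ENNReal.ofReal_le_ofReal g2.le
      _ ≤ _ := by rw [one_mul]; exact mul_le_mul' le_rfl h2
  have hI2 : I ≤ K * (ENNReal.ofReal (kR p N R) * cap p (closedBall (0 : EE N) 1) (ball 0 2)) / b := by
    rw [ENNReal.le_div_iff_mul_le (Or.inl hb0) (Or.inl hbtop), mul_comm]
    exact hI.trans (mul_le_mul' le_rfl hEn)
  set ε : ℝ := ε0 * R with hε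
  have hεp : 0 < ε := by positivity
  have hvol : volume (ball (0 : EE N) ε) = ENNReal.ofReal ((ε0 * R) ^ N) * volume (ball (0 : EE N) 1) := by
    have := Measure.addHaar_ball_of_pos (volume : Measure (EE N)) 0 hεp
    rwa [finrank_euclideanSpace_fin] at this
  have hlow : ∀ w : EE N, ‖w‖ + ε ≤ R - 1 → 1 - κ ≤ av ε φ w := by
    intro w hw
    refine av_lower hp hεp hκ0.le h.smooth h.cs ?_ hw
    rw [hvol]
    exact (mul_le_mul' le_rfl hI2).trans hR3
  set lam : ℝ := 1 + ε / (2 * R) with hlam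
  have hlam2 : lam = 1 + ε0 / 2 := by
    simp only [hlam, hε]; field_simp
  have hlam1 : 1 ≤ lam := by rw [hlam2]; linarith
  have hlam0 : 0 < lam := by linarith
  have hcinv : 0 < (1 - κ)⁻¹ := inv_pos.2 (by linarith)
  have hsm : ContDiff ℝ (⊤ : ℕ∞) (fun x => av ε φ (lam • x)) :=
    (av_smooth h.smooth h.cs).comp (contDiff_const_smul lam)
  have hadm : Adm (closedBall (0 : EE N) (s0 * R)) (V U R) (fun x => (1 - κ)⁻¹ * av ε φ (lam • x)) := by
    refine ⟨contDiff_const.mul hsm, ?_, ?_, ?_⟩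
    · exact (av_cs hlam0 h.cs).mul_left
    · refine Subset.trans ?_ (hU.avs R ε hR0 hεp φ h.cs h.supp)
      apply closure_mono
      intro x hx
      rw [Function.mem_support] at hx ⊢
      intro h0
      apply hx
      have : av ε φ (lam • x) = 0 := h0
      rw [this, mul_zero]
    · intro x hx
      rw [mem_closedBall_zero_iff] at hx
      have h5 : ‖lam • x‖ + ε ≤ R - 1 := by
        rw [norm_smul, Real.norm_of_nonneg hlam0.le]
        have h6 : lam * ‖x‖ ≤ lam * (s0 * R) := mul_le_mul_of_nonneg_left hx hlam0.le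
        have h7 : 1 ≤ ε0 * R := by
          have := mul_le_mul_of_nonneg_right hR2 hR0.le
          rwa [inv_mul_cancel₀ hR0.ne'] at this
        have h8 : lam * (s0 * R) + ε + ε0 * R ≤ R := by
          rw [hlam2, hε]
          have : (1 + ε0 / 2) * s0 + 2 * ε0 ≤ 1 := by
            simp only [hε0]
            nlinarith
          nlinarith
        linarith
      have h6 := hlow _ h5
      rw [inv_mul_eq_div, le_div_iff₀ (by linarith)]
      linarith
  have hE : En p (fun x => (1 - κ)⁻¹ * av ε φ (lam • x)) ≤ ENNReal.ofReal ((1 - κ)⁻¹) ^ p * En p φ := by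
    rw [En_const_mul hp hcinv.le hsm]
    refine mul_le_mul' le_rfl ?_
    have h5 := En_affine hp (av_smooth (ε := ε) h.smooth h.cs) hlam0 0
    simp only [add_zero] at h5
    rw [h5]
    have h6 : lam ^ p * (lam ^ N)⁻¹ ≤ 1 := by
      rw [mul_inv_le_iff₀ (by positivity), one_mul, ← Real.rpow_natCast]
      exact Real.rpow_le_rpow_of_exponent_le hlam1 hpN.le
    calc _ ≤ 1 * En p (av ε φ) := by
          refine mul_le_mul' ?_ le_rfl
          rw [← ENNReal.ofReal_one]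
          exact ENNReal.ofReal_le_ofReal h6
      _ ≤ _ := by rw [one_mul]; exact av_energy hp hεp h.smooth h.cs
  have hfin : ENNReal.ofReal θ * cR ≤ ENNReal.ofReal ((1 - κ)⁻¹) ^ p * (ENNReal.ofReal γ' * cR) := by
    calc ENNReal.ofReal θ * cR = ENNReal.ofReal (kR p N R) * (ENNReal.ofReal θ * cU) := by
          rw [hcapR]; ring
      _ ≤ ENNReal.ofReal (kR p N R) * cap p (closedBall (0 : EE N) s0) U := mul_le_mul' le_rfl hs
      _ = cap p (closedBall (0 : EE N) (s0 * R)) (V U R) := (capV hp hR0 U s0).symm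
      _ ≤ _ := cap_le hadm
      _ ≤ _ := hE
      _ ≤ _ := mul_le_mul' le_rfl hφ.le
  have hlt2 : ENNReal.ofReal ((1 - κ)⁻¹) ^ p * (ENNReal.ofReal γ' * cR) < ENNReal.ofReal θ * cR := by
    rw [← mul_assoc, ENNReal.ofReal_rpow_of_nonneg hcinv.le hp0.le, ← ENNReal.ofReal_mul (by positivity)]
    refine ENNReal.mul_lt_mul_left hcR0 hcRtop ((ENNReal.ofReal_lt_ofReal_iff g5).2 ?_)
    rw [Real.inv_rpow (by linarith), inv_mul_lt_iff₀ (Real.rpow_pos_of_pos (by linarith) p)]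
    rw [mul_comm]
    exact hκ
  exact absurd hfin (not_le.2 hlt2)

end Pool.Agent.V1180.CI
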