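import Pool.Agent.V1180.CIf

/-! # Capacitary inradii, part g: one step for arbitrary balls -/

set_option autoImplicit false

open MeasureTheory Set Filter Topology Metric
open scoped ENNReal NNReal

namespace Pool.Agent.V1180.CI

variable {N : ℕ}

/-- from a ball of radius `R a` to a ball of radius `a` -/
theorem step {p : ℝ} (hp : 1 < p) {U : Set (EE N)} {γ β R : ℝ} (hR : 0 < R)
    (hcore : ∀ F : Set (EE N),
      cap p (F ∩ closedBall 0 R) (V U R) ≤ ENNReal.ofReal γ * cap p (closedBall 0 R) (V U R) →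
      ∃ y : EE N, cap p (F ∩ closedBall y 1) (ball y 2) ≤
        ENNReal.ofReal β * cap p (closedBall (0 : EE N) 1) univ)
    {Ω : Set (EE N)} {x0 : EE N} {r : ℝ} (hr : 0 < r) {W : Set (EE N)}
    (hW : (fun x : EE N => (r / R) • x + x0) ⁻¹' W = V U R)
    (h : cap p (closedBall x0 r \ Ω) W ≤ ENNReal.ofReal γ * cap p (closedBall x0 r) W) :
    ∃ z : EE N, cap p (closedBall z (r / R) \ Ω) (ball z (2 * (r / R))) ≤
      ENNReal.ofReal β * cap p (closedBall z (r / R)) univ := by
  have ha : 0 < r / R := by positivity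
  set a := r / R with hadef
  have haR : a * R = r := by simp only [hadef]; field_simp
  set k : ℝ≥0∞ := ENNReal.ofReal (a ^ p * (a ^ N)⁻¹) with hk
  have hk0 : k ≠ 0 := by
    have : 0 < a ^ p * (a ^ N)⁻¹ := by positivity
    simpa [hk] using this
  have hktop : k ≠ ⊤ := ENNReal.ofReal_ne_top
  have e1 : (fun x : EE N => a • x + x0) ⁻¹' closedBall x0 r = closedBall 0 R := by
    have := pre_closedBall ha x0 0 R
    rwa [smul_zero, zero_add, haR] at this
  set F : Set (EE N) := ((fun x : EE N => a • x + x0) ⁻¹' Ω)ᶜ with hF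
  have e2 : (fun x : EE N => a • x + x0) ⁻¹' (closedBall x0 r \ Ω) = F ∩ closedBall 0 R := by
    rw [preimage_diff, e1, diff_eq, inter_comm]
  have h1 := cap_affine hp ha x0 (closedBall x0 r \ Ω) W
  have h2 := cap_affine hp ha x0 (closedBall x0 r) W
  rw [e2, hW] at h1
  rw [e1, hW] at h2
  obtain ⟨y, hy⟩ := hcore F (by
    rw [h1, h2]
    calc _ ≤ k * (ENNReal.ofReal γ * cap p (closedBall x0 r) W) := mul_le_mul' le_rfl h
      _ = _ := by rw [← hk]; ring)
  refine ⟨a • y + x0, ?_⟩
  set z := a • y + x0 with hz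
  have e3 : (fun x : EE N => a • x + x0) ⁻¹' closedBall z a = closedBall y 1 := by
    have := pre_closedBall ha x0 y 1
    rwa [mul_one] at this
  have e4 : (fun x : EE N => a • x + x0) ⁻¹' ball z (2 * a) = ball y 2 := by
    have := pre_ball ha x0 y 2
    rwa [mul_comm a 2] at this
  have e5 : (fun x : EE N => a • x + x0) ⁻¹' (closedBall z a \ Ω) = F ∩ closedBall y 1 := by
    rw [preimage_diff, e3, diff_eq, inter_comm]
  have h3 := cap_affine hp ha x0 (closedBall z a \ Ω) (ball z (2 * a))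
  rw [e5, e4] at h3
  have e6 : (fun x : EE N => a • x + z) ⁻¹' closedBall z a = closedBall 0 1 := by
    have := pre_closedBall ha z 0 1
    rwa [mul_one, smul_zero, zero_add] at this
  have h4 := cap_affine hp ha z (closedBall z a) univ
  rw [e6, preimage_univ] at h4
  rw [h3, h4] at hy
  have h5 : k * cap p (closedBall z a \ Ω) (ball z (2 * a)) ≤
      k * (ENNReal.ofReal β * cap p (closedBall z a) univ) := by
    calc _ ≤ _ := hy
      _ = _ := by rw [← hk]; ring
  exact (ENNReal.mul_le_mul_iff_right hk0 hktop).1 h5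

theorem main {p : ℝ} (hp : 1 < p) (hpN : p < N) {γ β : ℝ} (hγ0 : 0 < γ) (hγ1 : γ < 1)
    (hβ : 0 < β) : ∃ R : ℝ, 1 < R ∧ ∀ (Ω : Set (EE N)) (x0 : EE N) (r : ℝ), 0 < r →
      (cap p (closedBall x0 r \ Ω) (ball x0 (2 * r)) ≤
        ENNReal.ofReal γ * cap p (closedBall x0 r) (ball x0 (2 * r)) ∨
       cap p (closedBall x0 r \ Ω) univ ≤ ENNReal.ofReal γ * cap p (closedBall x0 r) univ) →
      ∃ (z : EE N) (r' : ℝ), 0 < r' ∧ r ≤ R * r' ∧
        cap p (closedBall z r' \ Ω) (ball z (2 * r')) ≤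
          ENNReal.ofReal β * cap p (closedBall z r') univ := by
  obtain ⟨R1, hR1, h1⟩ := core hp hpN (good_ball (N := N) hp) hγ0 hγ1 hβ
  obtain ⟨R2, hR2, h2⟩ := core hp hpN (good_univ (N := N) hp) hγ0 hγ1 hβ
  have hR1' : 0 < R1 := by linarith
  have hR2' : 0 < R2 := by linarith
  refine ⟨max R1 R2, hR1.trans_le (le_max_left _ _), fun Ω x0 r hr h => ?_⟩
  rcases h with h | h
  · obtain ⟨z, hz⟩ := step hp hR1' h1 hr (W := ball x0 (2 * r)) (by
      rw [V_ball hR1']
      have := pre_ball (show 0 < r / R1 by positivity) x0 0 (2 * R1)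
      rwa [smul_zero, zero_add, show r / R1 * (2 * R1) = 2 * r by field_simp] at this) h
    refine ⟨z, r / R1, by positivity, ?_, hz⟩
    calc r = R1 * (r / R1) := by field_simp
      _ ≤ _ := mul_le_mul_of_nonneg_right (le_max_left _ _) (by positivity)
  · obtain ⟨z, hz⟩ := step hp hR2' h2 hr (W := univ) rfl h
    refine ⟨z, r / R2, by positivity, ?_, hz⟩
    calc r = R2 * (r / R2) := by field_simp
      _ ≤ _ := mul_le_mul_of_nonneg_right (le_max_right _ _) (by positivity)

end Pool.Agent.V1180.CI
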