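import Mathlib

set_option autoImplicit false

/-!
# Laplace concentration on an interval
-/

namespace Pool.Agent.V1180.CP

open Real MeasureTheory Filter Topology Set

theorem conc_tail {K η : ℝ} (hK : 0 < K) (hη : 0 < η) (B : ℝ) :
    Tendsto (fun m : ℕ => B * ((m : ℝ) * exp (-(K * m * η ^ 2)))) atTop (𝓝 0) := by
  have h1 := Real.tendsto_pow_mul_exp_neg_atTop_nhds_zero 1
  have h2 : Tendsto (fun m : ℕ => K * η ^ 2 * (m : ℝ)) atTop atTop :=
    Tendsto.const_mul_atTop (by positivity) tendsto_natCast_atTop_atTop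
  have h3 := (h1.comp h2).const_mul (B / (K * η ^ 2))
  rw [mul_zero] at h3
  refine h3.congr fun m => ?_
  simp only [Function.comp, pow_one]
  have : K * η ^ 2 ≠ 0 := by positivity
  rw [show -(K * (m:ℝ) * η ^ 2) = -(K * η ^ 2 * m) by ring]
  field_simp

/-- concentration -/
theorem conc {a b zs : ℝ} (hab : a < b) {f : ℕ → ℝ → ℝ} (hf : ∀ m, Continuous (f m))
    (h0 : ∀ m, ∀ z ∈ Icc a b, 0 ≤ f m z) {c1 C K : ℝ} (hc1 : 0 < c1) (hC : 0 < C) (hK : 0 < K)
    (hlow : ∀ m : ℕ, 1 ≤ m → c1 / Real.sqrt m ≤ ∫ z in a..b, f m z)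
    (hup : ∀ m : ℕ, 1 ≤ m → ∀ z ∈ Icc a b, f m z ≤ C * exp (-(K * m * (z - zs) ^ 2)))
    {w : ℝ → ℝ} (hw : Continuous w) :
    Tendsto (fun m => (∫ z in a..b, f m z * w z) / ∫ z in a..b, f m z) atTop (𝓝 (w zs)) := by
  obtain ⟨M, hM⟩ : ∃ M, ∀ z ∈ Icc a b, |w z - w zs| ≤ M := by
    have hc : ContinuousOn (fun z => w z - w zs) (Icc a b) := by fun_prop
    obtain ⟨M, hM⟩ := isCompact_Icc.exists_bound_of_continuousOn hc
    exact ⟨M, hM⟩
  have hM0 : 0 ≤ M := (abs_nonneg _).trans (hM a ⟨le_rfl, hab.le⟩)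
  rw [Metric.tendsto_atTop]
  intro ε hε
  obtain ⟨η, hη, hη2⟩ := Metric.continuous_iff.1 hw zs (ε / 2) (by positivity)
  have ht := conc_tail hK hη (M * C * (b - a) / c1)
  obtain ⟨N, hN⟩ := (Metric.tendsto_atTop.1 ht) (ε / 2) (by positivity)
  refine ⟨max N 1, fun m hm => ?_⟩
  have hm1 : 1 ≤ m := (le_max_right _ _).trans hm
  have hmN : N ≤ m := (le_max_left _ _).trans hm
  have hmR : (1 : ℝ) ≤ m := by exact_mod_cast hm1
  have hsm : 0 < Real.sqrt m := Real.sqrt_pos.2 (by linarith)
  have hI : 0 < ∫ z in a..b, f m z := lt_of_lt_of_le (by positivity) (hlow m hm1)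
  have e1 : (∫ z in a..b, f m z * w z) / (∫ z in a..b, f m z) - w zs =
      (∫ z in a..b, f m z * (w z - w zs)) / ∫ z in a..b, f m z := by
    have : ∫ z in a..b, f m z * (w z - w zs) = (∫ z in a..b, f m z * w z) - w zs * ∫ z in a..b, f m z := by
      rw [← intervalIntegral.integral_const_mul, ← intervalIntegral.integral_sub]
      · apply intervalIntegral.integral_congr
        intro z _
        dsimp only
        ring
      · exact ((hf m).mul hw).intervalIntegrable _ _
      · exact ((hf m).const_mul _).intervalIntegrable _ _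
    rw [this]
    field_simp
  rw [Real.dist_eq, e1, abs_div, abs_of_pos hI, div_lt_iff₀ hI]
  have e2 : |∫ z in a..b, f m z * (w z - w zs)| ≤
      ∫ z in a..b, (ε / 2 * f m z + M * C * exp (-(K * m * η ^ 2))) := by
    rw [← Real.norm_eq_abs]
    apply intervalIntegral.norm_integral_le_of_norm_le hab.le
    · refine Eventually.of_forall fun z hz => ?_
      have hz' : z ∈ Icc a b := ⟨hz.1.le, hz.2⟩
      rw [Real.norm_eq_abs, abs_mul, abs_of_nonneg (h0 m z hz')]
      by_cases hd : dist z zs < η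
      · have h1 := hη2 z hd
        rw [Real.dist_eq] at h1
        have h2 : f m z * |w z - w zs| ≤ f m z * (ε / 2) := mul_le_mul_of_nonneg_left h1.le (h0 m z hz')
        have h3 : 0 ≤ M * C * exp (-(K * m * η ^ 2)) := by positivity
        linarith
      · push Not at hd
        rw [Real.dist_eq] at hd
        have h1 : η ^ 2 ≤ (z - zs) ^ 2 := by
          rw [← sq_abs (z - zs)]
          exact pow_le_pow_left₀ hη.le hd 2
        have h2 : f m z ≤ C * exp (-(K * m * η ^ 2)) := by
          refine (hup m hm1 z hz').trans ?_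
          apply mul_le_mul_of_nonneg_left _ hC.le
          apply Real.exp_le_exp.2
          have : K * m * η ^ 2 ≤ K * m * (z - zs) ^ 2 := mul_le_mul_of_nonneg_left h1 (by positivity)
          linarith
        have h3 := hM z hz'
        have h4 : f m z * |w z - w zs| ≤ C * exp (-(K * m * η ^ 2)) * M :=
          mul_le_mul h2 h3 (abs_nonneg _) (by positivity)
        have h5 : 0 ≤ ε / 2 * f m z := mul_nonneg (by positivity) (h0 m z hz')
        linarith
    · apply Continuous.intervalIntegrable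
      have := hf m
      fun_prop
  refine lt_of_le_of_lt e2 ?_
  rw [intervalIntegral.integral_add (((hf m).const_mul _).intervalIntegrable _ _) intervalIntegrable_const,
    intervalIntegral.integral_const_mul, intervalIntegral.integral_const, smul_eq_mul]
  have h6 := hN m hmN
  rw [Real.dist_eq, sub_zero] at h6
  have h7 := lt_of_le_of_lt (le_abs_self _) h6
  have h8 := hlow m hm1
  have h9 : c1 / m ≤ c1 / Real.sqrt m := by
    apply div_le_div_of_nonneg_left hc1.le hsm
    rw [Real.sqrt_le_left (by linarith)]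
    nlinarith
  have h10 : (b - a) * (M * C * exp (-(K * m * η ^ 2))) =
      (M * C * (b - a) / c1 * (m * exp (-(K * m * η ^ 2)))) * (c1 / m) := by
    have : (m : ℝ) ≠ 0 := by linarith
    field_simp
  rw [h10]
  have h11 : (M * C * (b - a) / c1 * (m * exp (-(K * m * η ^ 2)))) * (c1 / m) <
      ε / 2 * (c1 / m) := mul_lt_mul_of_pos_right h7 (by positivity)
  have h12 : ε / 2 * (c1 / m) ≤ ε / 2 * ∫ z in a..b, f m z :=
    mul_le_mul_of_nonneg_left (h9.trans h8) (by positivity)
  linarith

/-- upper bound of the integral -/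
theorem upper {a b zs : ℝ} (hab : a < b) {f : ℝ → ℝ} (hf : Continuous f)
    {C K m : ℝ} (hC : 0 < C) (hK : 0 < K) (hm : 0 < m)
    (hup : ∀ z ∈ Icc a b, f z ≤ C * exp (-(K * m * (z - zs) ^ 2))) :
    ∫ z in a..b, f z ≤ C * Real.sqrt (π / K) / Real.sqrt m := by
  have hint : Integrable (fun z : ℝ => exp (-(K * m) * z ^ 2)) := integrable_exp_neg_mul_sq (by positivity)
  have hint2 : Integrable (fun z : ℝ => C * exp (-(K * m) * (z - zs) ^ 2)) := (hint.comp_sub_right zs).const_mul C
  have h1 : ∫ z in a..b, f z ≤ ∫ z in a..b, C * exp (-(K * m) * (z - zs) ^ 2) := by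
    apply intervalIntegral.integral_mono_on hab.le (hf.intervalIntegrable _ _)
      (Continuous.intervalIntegrable (by fun_prop) _ _)
    intro z hz
    have := hup z hz
    rwa [show -(K * m) * (z - zs) ^ 2 = -(K * m * (z - zs) ^ 2) by ring]
  refine h1.trans ?_
  rw [intervalIntegral.integral_of_le hab.le]
  have h2 : ∫ z in Ioc a b, C * exp (-(K * m) * (z - zs) ^ 2) ≤ ∫ z, C * exp (-(K * m) * (z - zs) ^ 2) :=
    setIntegral_le_integral hint2 (Eventually.of_forall fun z => by positivity)
  refine h2.trans (le_of_eq ?_)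
  rw [integral_const_mul, integral_sub_right_eq_self (fun z => exp (-(K * m) * z ^ 2)) zs, integral_gaussian]
  rw [← div_div, Real.sqrt_div (by positivity), mul_div_assoc]

end Pool.Agent.V1180.CP
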