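import Pool.Agent.V1180.CPa

set_option autoImplicit false

/-!
# The weight `|1 - z^2/c^2|^n |z^2/s^2 - 1|^m` and its two-sided bounds
-/

namespace Pool.Agent.V1180.CP

open Real MeasureTheory Filter Topology Set

theorem exp_low {u : ℝ} (h : |u| ≤ 1 / 5) : exp (u - 2 * u ^ 2) ≤ 1 + u := by
  obtain ⟨h1, h2⟩ := abs_le.1 h
  have hx : |u - 2 * u ^ 2| ≤ 1 := by
    rw [abs_le]
    constructor <;> nlinarith
  have h3 := Real.abs_exp_sub_one_sub_id_le hx
  have h4 := (abs_le.1 h3).2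
  have h5 : (u - 2 * u ^ 2) ^ 2 ≤ 2 * u ^ 2 := by
    have : (u - 2 * u ^ 2) ^ 2 = u ^ 2 * (1 - 2 * u) ^ 2 := by ring
    rw [this]
    have h6 : (1 - 2 * u) ^ 2 ≤ 2 := by nlinarith
    nlinarith [sq_nonneg u]
  linarith

theorem exp_up {r u : ℝ} (hr : 0 < r) (h1 : -1 ≤ u) (h2 : u ≤ r) :
    1 + u ≤ exp (u - 1 / (8 * (1 + r)) * u ^ 2) := by
  set k := 1 / (8 * (1 + r)) with hk
  have hk0 : 0 < k := by positivity
  have hk1 : k ≤ 1 / 8 := by
    rw [hk]
    apply one_div_le_one_div_of_le (by norm_num)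
    linarith
  have hkr : k * r ≤ 1 / 8 := by
    rw [hk, div_mul_eq_mul_div, one_mul, div_le_div_iff₀ (by positivity) (by norm_num)]
    linarith
  rcases le_total 0 u with hu | hu
  · have hx : 0 ≤ u - k * u ^ 2 := by
      have : u - k * u ^ 2 = u * (1 - k * u) := by ring
      rw [this]
      apply mul_nonneg hu
      nlinarith
    have h3 := Real.quadratic_le_exp_of_nonneg hx
    have h4 : k * u ≤ 1 / 8 := (mul_le_mul_of_nonneg_left h2 hk0.le).trans hkr
    have h5 : k * u ^ 2 ≤ (u - k * u ^ 2) ^ 2 / 2 := by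
      have e : (u - k * u ^ 2) ^ 2 = u ^ 2 * (1 - k * u) ^ 2 := by ring
      rw [e]
      have h6 : (7 / 8 : ℝ) ^ 2 ≤ (1 - k * u) ^ 2 := pow_le_pow_left₀ (by norm_num) (by linarith) 2
      nlinarith [sq_nonneg u]
    linarith
  · have h3 : exp (u - k * u ^ 2) = exp u * exp (-(k * u ^ 2)) := by
      rw [← Real.exp_add]
      ring_nf
    rw [h3]
    have h4 : |u| ≤ 1 := by
      rw [abs_le]
      constructor <;> linarith
    have h5 := Real.exp_bound h4 (n := 3) (by norm_num)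
    have h6 : ∑ m ∈ Finset.range 3, u ^ m / (m.factorial : ℝ) = 1 + u + u ^ 2 / 2 := by
      simp [Finset.sum_range_succ, Nat.factorial]
    rw [h6] at h5
    have h7 := (abs_le.1 h5).1
    have h8 : |u| ^ 3 ≤ u ^ 2 := by
      have : |u| ^ 3 = |u| * u ^ 2 := by
        rw [pow_succ, sq_abs]
        ring
      rw [this]
      nlinarith [sq_nonneg u]
    have h9 : 1 + u + u ^ 2 / 4 ≤ exp u := by
      norm_num [Nat.factorial] at h7
      nlinarith
    have h10 : 1 - k * u ^ 2 ≤ exp (-(k * u ^ 2)) := by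
      have := Real.add_one_le_exp (-(k * u ^ 2))
      linarith
    have hu2 : u ^ 2 ≤ 1 := by nlinarith
    have h11 : 0 ≤ 1 - k * u ^ 2 := by nlinarith
    have h12 : 0 ≤ 1 + u + u ^ 2 / 4 := by nlinarith [sq_nonneg u]
    have h13 : (1 + u + u ^ 2 / 4) * (1 - k * u ^ 2) ≤ exp u * exp (-(k * u ^ 2)) :=
      mul_le_mul h9 h10 h11 (Real.exp_pos _).le
    have h14 : 1 + u ≤ (1 + u + u ^ 2 / 4) * (1 - k * u ^ 2) := by
      have e : (1 + u + u ^ 2 / 4) * (1 - k * u ^ 2) - (1 + u) = u ^ 2 * (1 / 4 - k * (1 + u + u ^ 2 / 4)) := by ring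
      have h15 : k * (1 + u + u ^ 2 / 4) ≤ 1 / 4 := by nlinarith
      have h16 : 0 ≤ u ^ 2 * (1 / 4 - k * (1 + u + u ^ 2 / 4)) := mul_nonneg (sq_nonneg _) (by linarith)
      linarith
    linarith

/-- the exponent of the outer factor -/
noncomputable def nn (r : ℝ) (m : ℕ) : ℕ := ⌈r * m⌉₊

/-- the weight -/
noncomputable def F (r Z : ℝ) (m : ℕ) (z : ℝ) : ℝ :=
  |1 - z ^ 2 / (1 + Z + r)| ^ nn r m * |z ^ 2 / Z - 1| ^ m

variable {r Z : ℝ}

theorem F_cont (m : ℕ) : Continuous (F r Z m) := by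
  unfold F
  fun_prop

theorem F_nonneg (m : ℕ) (z : ℝ) : 0 ≤ F r Z m z := by
  unfold F
  positivity

theorem F_neg (m : ℕ) (z : ℝ) : F r Z m (-z) = F r Z m z := by
  unfold F
  rw [neg_sq]

theorem nn_ge (m : ℕ) : r * m ≤ nn r m := Nat.le_ceil _

theorem nn_le (hr : 0 < r) (m : ℕ) : (nn r m : ℝ) ≤ r * m + 1 := (Nat.ceil_lt_add_one (by positivity)).le

/-- inner upper bound -/
theorem F_in_up (hr : 0 < r) (hZ : 0 < Z) (m : ℕ) {z : ℝ} (hz : z ^ 2 ≤ Z) :
    F r Z m z ≤ 1 * exp (-(1 / Z * m * (z - 0) ^ 2)) := by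
  unfold F
  have h1 : |1 - z ^ 2 / (1 + Z + r)| ≤ 1 := by
    have : z ^ 2 / (1 + Z + r) ≤ 1 := by
      rw [div_le_one (by positivity)]
      linarith
    have : 0 ≤ z ^ 2 / (1 + Z + r) := by positivity
    rw [abs_le]
    constructor <;> linarith
  have h2 : |z ^ 2 / Z - 1| ≤ exp (-(z ^ 2 / Z)) := by
    have h3 : z ^ 2 / Z ≤ 1 := by
      rw [div_le_one hZ]
      exact hz
    rw [abs_of_nonpos (by linarith)]
    have := Real.add_one_le_exp (-(z ^ 2 / Z))
    linarith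
  have h4 : |z ^ 2 / Z - 1| ^ m ≤ exp (-(z ^ 2 / Z)) ^ m := pow_le_pow_left₀ (abs_nonneg _) h2 m
  have h5 : |1 - z ^ 2 / (1 + Z + r)| ^ nn r m ≤ 1 := pow_le_one₀ (abs_nonneg _) h1
  have h6 : exp (-(z ^ 2 / Z)) ^ m = exp (-(1 / Z * m * (z - 0) ^ 2)) := by
    rw [← Real.exp_nat_mul]
    congr 1
    ring
  rw [← h6]
  exact mul_le_mul h5 h4 (by positivity) (by norm_num)

/-- inner lower bound -/
theorem F_in_low (hr : 0 < r) (hZ : 0 < Z) (m : ℕ) (hm : 1 ≤ m) {z : ℝ} (hz : z ^ 2 ≤ Z / (2 * (r + 2) * m)) :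
    1 / 2 ≤ F r Z m z := by
  have hmR : (1 : ℝ) ≤ m := by exact_mod_cast hm
  have hn := nn_le hr m
  have hN : ((nn r m + m : ℕ) : ℝ) ≤ (r + 2) * m := by
    push_cast
    nlinarith
  have hz1 : z ^ 2 / Z ≤ 1 / (2 * (r + 2) * m) := by
    rw [div_le_iff₀ hZ]
    calc z ^ 2 ≤ Z / (2 * (r + 2) * m) := hz
      _ = 1 / (2 * (r + 2) * m) * Z := by ring
  have hz0 : 0 ≤ z ^ 2 / Z := by positivity
  have h2 : 1 / (2 * (r + 2) * m) ≤ 1 / 2 := by
    apply one_div_le_one_div_of_le (by norm_num)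
    nlinarith
  have hzZ : z ^ 2 / (1 + Z + r) ≤ z ^ 2 / Z := div_le_div_of_nonneg_left (by positivity) hZ (by linarith)
  have h3 : (1 - z ^ 2 / Z) ^ (nn r m + m) ≤ F r Z m z := by
    unfold F
    rw [pow_add]
    apply mul_le_mul _ _ (by apply pow_nonneg; linarith) (by positivity)
    · apply pow_le_pow_left₀ (by linarith)
      rw [abs_of_nonneg (by linarith)]
      linarith
    · apply pow_le_pow_left₀ (by linarith)
      rw [abs_of_nonpos (by linarith)]
      linarith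
  have h4 := one_add_mul_le_pow (a := -(z ^ 2 / Z)) (by linarith) (nn r m + m)
  have h5 : ((nn r m + m : ℕ) : ℝ) * (z ^ 2 / Z) ≤ 1 / 2 := by
    calc ((nn r m + m : ℕ) : ℝ) * (z ^ 2 / Z) ≤ ((r + 2) * m) * (1 / (2 * (r + 2) * m)) :=
          mul_le_mul hN hz1 hz0 (by positivity)
      _ = 1 / 2 := by
          field_simp
  have h6 : 1 + -(z ^ 2 / Z) = 1 - z ^ 2 / Z := by ring
  rw [h6] at h4
  have h7 : ((nn r m + m : ℕ) : ℝ) * -(z ^ 2 / Z) = -(((nn r m + m : ℕ) : ℝ) * (z ^ 2 / Z)) := by ring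
  rw [h7] at h4
  linarith

/-- the critical equation in product form -/
theorem crit (hr : 0 < r) (hZ : 0 < Z) (heq : r * log ((r + 1 + Z) / r) + log Z = 0) (x : ℝ) :
    (r / (1 + Z + r)) ^ (r * x) = Z ^ x := by
  have h1 : 0 < r / (1 + Z + r) := by positivity
  rw [Real.rpow_def_of_pos h1, Real.rpow_def_of_pos hZ]
  congr 1
  have h2 : log (r / (1 + Z + r)) = -log ((r + 1 + Z) / r) := by
    rw [← Real.log_inv, inv_div]
    congr 2
    ring
  rw [h2]
  linear_combination (-x) * heq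

/-- outer formula -/
theorem F_out (hr : 0 < r) (hZ : 0 < Z) (m : ℕ) {z : ℝ} (h1 : Z ≤ z ^ 2) (h2 : z ^ 2 ≤ 1 + Z + r) :
    F r Z m z = (r / (1 + Z + r)) ^ nn r m * (1 / Z) ^ m *
      ((1 - (z ^ 2 - (1 + Z)) / r) ^ nn r m * (1 + (z ^ 2 - (1 + Z))) ^ m) := by
  unfold F
  have e1 : |1 - z ^ 2 / (1 + Z + r)| = r / (1 + Z + r) * (1 - (z ^ 2 - (1 + Z)) / r) := by
    rw [abs_of_nonneg (by
      rw [sub_nonneg, div_le_one (by positivity)]
      exact h2)]
    field_simp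
    ring
  have e2 : |z ^ 2 / Z - 1| = 1 / Z * (1 + (z ^ 2 - (1 + Z))) := by
    rw [abs_of_nonneg (by
      rw [sub_nonneg, le_div_iff₀ hZ]
      linarith)]
    field_simp
    ring
  rw [e1, e2, mul_pow, mul_pow]
  ring

theorem base_up (hr : 0 < r) (hZ : 0 < Z) (heq : r * log ((r + 1 + Z) / r) + log Z = 0) (m : ℕ) :
    (r / (1 + Z + r)) ^ nn r m * (1 / Z) ^ m ≤ 1 := by
  have h0 : 0 < r / (1 + Z + r) := by positivity
  have h1 : r / (1 + Z + r) ≤ 1 := by
    rw [div_le_one (by positivity)]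
    linarith
  have h2 : (r / (1 + Z + r)) ^ nn r m ≤ Z ^ m := by
    rw [← Real.rpow_natCast (r / (1 + Z + r)), ← Real.rpow_natCast Z, ← crit hr hZ heq]
    exact Real.rpow_le_rpow_of_exponent_ge h0 h1 (nn_ge m)
  calc (r / (1 + Z + r)) ^ nn r m * (1 / Z) ^ m ≤ Z ^ m * (1 / Z) ^ m :=
        mul_le_mul_of_nonneg_right h2 (by positivity)
    _ = 1 := by
        rw [← mul_pow]
        field_simp
        simp

theorem base_low (hr : 0 < r) (hZ : 0 < Z) (heq : r * log ((r + 1 + Z) / r) + log Z = 0) (m : ℕ) :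
    r / (1 + Z + r) ≤ (r / (1 + Z + r)) ^ nn r m * (1 / Z) ^ m := by
  have h0 : 0 < r / (1 + Z + r) := by positivity
  have h1 : r / (1 + Z + r) ≤ 1 := by
    rw [div_le_one (by positivity)]
    linarith
  have h2 : Z ^ m * (r / (1 + Z + r)) ≤ (r / (1 + Z + r)) ^ nn r m := by
    rw [← Real.rpow_natCast (r / (1 + Z + r)), ← Real.rpow_natCast Z, ← crit hr hZ heq]
    have e : (r / (1 + Z + r)) ^ (r * (m:ℝ)) * (r / (1 + Z + r)) = (r / (1 + Z + r)) ^ (r * (m:ℝ) + 1) := by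
      rw [Real.rpow_add h0, Real.rpow_one]
    rw [e]
    exact Real.rpow_le_rpow_of_exponent_ge h0 h1 (nn_le hr m)
  calc r / (1 + Z + r) = (Z ^ m * (r / (1 + Z + r))) * (1 / Z) ^ m := by
        rw [mul_comm (Z ^ m), mul_assoc, ← mul_pow]
        field_simp
        simp
    _ ≤ _ := mul_le_mul_of_nonneg_right h2 (by positivity)

/-- outer upper bound -/
theorem F_out_up (hr : 0 < r) (hZ : 0 < Z) (heq : r * log ((r + 1 + Z) / r) + log Z = 0) (m : ℕ) {z : ℝ}
    (hz0 : 0 ≤ z) (h1 : Z ≤ z ^ 2) (h2 : z ^ 2 ≤ 1 + Z + r) :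
    F r Z m z ≤ exp (1 / r) * exp (-(1 / (8 * (1 + r)) * m * (z - Real.sqrt (1 + Z)) ^ 2)) := by
  rw [F_out hr hZ m h1 h2]
  set u := z ^ 2 - (1 + Z) with hu
  have hu1 : -1 ≤ u := by linarith
  have hu2 : u ≤ r := by linarith
  set k := 1 / (8 * (1 + r)) with hk
  have hk0 : 0 < k := by positivity
  have a1 : 0 ≤ 1 - u / r := by
    rw [sub_nonneg, div_le_one hr]
    exact hu2
  have a2 : 1 - u / r ≤ exp (-(u / r)) := by
    have := Real.add_one_le_exp (-(u / r))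
    linarith
  have a3 : (1 - u / r) ^ nn r m ≤ exp (-(u / r)) ^ nn r m := pow_le_pow_left₀ a1 a2 _
  have a4 : (1 + u) ^ m ≤ exp (u - k * u ^ 2) ^ m := pow_le_pow_left₀ (by linarith) (exp_up hr hu1 hu2) _
  have a5 : (1 - u / r) ^ nn r m * (1 + u) ^ m ≤ exp (1 / r) * exp (-(k * m * u ^ 2)) := by
    calc (1 - u / r) ^ nn r m * (1 + u) ^ m ≤ exp (-(u / r)) ^ nn r m * exp (u - k * u ^ 2) ^ m :=
          mul_le_mul a3 a4 (pow_nonneg (by linarith) _) (by positivity)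
      _ = exp (-((nn r m : ℝ) - r * m) * u / r + -(k * m * u ^ 2)) := by
          rw [← Real.exp_nat_mul, ← Real.exp_nat_mul, ← Real.exp_add]
          congr 1
          field_simp
          ring
      _ ≤ exp (1 / r + -(k * m * u ^ 2)) := by
          apply Real.exp_le_exp.2
          have b1 := nn_ge (r := r) m
          have b2 := nn_le hr m
          have b3 : -((nn r m : ℝ) - r * m) * u ≤ 1 := by nlinarith
          have b4 : -((nn r m : ℝ) - r * m) * u / r ≤ 1 / r := div_le_div_of_nonneg_right b3 hr.le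
          linarith
      _ = _ := by rw [Real.exp_add]
  have a6 : exp (-(k * m * u ^ 2)) ≤ exp (-(k * m * (z - Real.sqrt (1 + Z)) ^ 2)) := by
    apply Real.exp_le_exp.2
    have hτ : 1 ≤ Real.sqrt (1 + Z) := by
      rw [Real.one_le_sqrt]
      linarith
    have hτ2 : Real.sqrt (1 + Z) ^ 2 = 1 + Z := Real.sq_sqrt (by positivity)
    have e : u ^ 2 = (z - Real.sqrt (1 + Z)) ^ 2 * (z + Real.sqrt (1 + Z)) ^ 2 := by
      have e0 : u = (z - Real.sqrt (1 + Z)) * (z + Real.sqrt (1 + Z)) := by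
        rw [hu]
        linear_combination hτ2
      rw [e0]
      ring
    have h3 : (1 : ℝ) ≤ (z + Real.sqrt (1 + Z)) ^ 2 := by nlinarith
    have h4 : (z - Real.sqrt (1 + Z)) ^ 2 ≤ u ^ 2 := by
      rw [e]
      nlinarith [sq_nonneg (z - Real.sqrt (1 + Z))]
    have h5 : k * m * (z - Real.sqrt (1 + Z)) ^ 2 ≤ k * m * u ^ 2 := mul_le_mul_of_nonneg_left h4 (by positivity)
    linarith
  have hb := base_up hr hZ heq m
  calc (r / (1 + Z + r)) ^ nn r m * (1 / Z) ^ m * ((1 - u / r) ^ nn r m * (1 + u) ^ m)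
      ≤ 1 * (exp (1 / r) * exp (-(k * m * u ^ 2))) :=
        mul_le_mul hb a5 (mul_nonneg (pow_nonneg a1 _) (pow_nonneg (by linarith) _)) (by norm_num)
    _ = exp (1 / r) * exp (-(k * m * u ^ 2)) := one_mul _
    _ ≤ _ := mul_le_mul_of_nonneg_left a6 (Real.exp_pos _).le

/-- outer lower bound -/
theorem F_out_low (hr : 0 < r) (hZ : 0 < Z) (heq : r * log ((r + 1 + Z) / r) + log Z = 0) (m : ℕ) (hm : 1 ≤ m)
    {z : ℝ} (h1 : 1 + Z ≤ z ^ 2) (h2 : z ^ 2 ≤ 1 + Z + min 1 r / 5 / Real.sqrt m) :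
    r / (1 + Z + r) * exp (-(1 / r + 2 * ((r + 1) / r ^ 2 + 1))) ≤ F r Z m z := by
  have hmR : (1 : ℝ) ≤ m := by exact_mod_cast hm
  have hsm : 1 ≤ Real.sqrt m := by
    rw [Real.one_le_sqrt]
    exact hmR
  set u := z ^ 2 - (1 + Z) with hu
  have hmin : min 1 r ≤ 1 := min_le_left _ _
  have hminr : min 1 r ≤ r := min_le_right _ _
  have hmin0 : 0 < min 1 r := lt_min one_pos hr
  have hu0 : 0 ≤ u := by linarith
  have hu1 : u ≤ min 1 r / 5 / Real.sqrt m := by linarith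
  have hu2 : u ≤ min 1 r / 5 := hu1.trans (div_le_self (by positivity) hsm)
  have hu3 : m * u ^ 2 ≤ 1 := by
    have e1 : u * Real.sqrt m ≤ 1 := by
      calc u * Real.sqrt m ≤ (min 1 r / 5 / Real.sqrt m) * Real.sqrt m := mul_le_mul_of_nonneg_right hu1 (by positivity)
        _ = min 1 r / 5 := by field_simp
        _ ≤ 1 := by linarith
    have e2 : m * u ^ 2 = (u * Real.sqrt m) ^ 2 := by
      rw [mul_pow, Real.sq_sqrt (by linarith)]
      ring
    rw [e2]
    have : 0 ≤ u * Real.sqrt m := by positivity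
    nlinarith
  have hr2 : z ^ 2 ≤ 1 + Z + r := by linarith
  rw [F_out hr hZ m (by linarith) hr2, ← hu]
  have b1 : exp (u - 2 * u ^ 2) ≤ 1 + u := exp_low (by
    rw [abs_of_nonneg hu0]
    linarith)
  have b2 : exp (-(u / r) - 2 * (-(u / r)) ^ 2) ≤ 1 + -(u / r) := exp_low (by
    rw [abs_neg, abs_of_nonneg (by positivity), div_le_iff₀ hr]
    linarith)
  have b3 : exp (u - 2 * u ^ 2) ^ m ≤ (1 + u) ^ m := pow_le_pow_left₀ (Real.exp_pos _).le b1 m
  have b4 : exp (-(u / r) - 2 * (-(u / r)) ^ 2) ^ nn r m ≤ (1 - u / r) ^ nn r m := by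
    apply pow_le_pow_left₀ (Real.exp_pos _).le
    linarith
  have b5 : exp (-(1 / r + 2 * ((r + 1) / r ^ 2 + 1))) ≤ (1 - u / r) ^ nn r m * (1 + u) ^ m := by
    calc exp (-(1 / r + 2 * ((r + 1) / r ^ 2 + 1)))
        ≤ exp ((nn r m : ℝ) * (-(u / r) - 2 * (-(u / r)) ^ 2) + m * (u - 2 * u ^ 2)) := by
          apply Real.exp_le_exp.2
          have c1 := nn_ge (r := r) m
          have c2 := nn_le hr m
          have c3 : (nn r m : ℝ) ≤ (r + 1) * m := by nlinarith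
          have e : (nn r m : ℝ) * (-(u / r) - 2 * (-(u / r)) ^ 2) + m * (u - 2 * u ^ 2) =
            -(((nn r m : ℝ) - r * m) * u / r) - 2 * ((nn r m : ℝ) * u ^ 2 / r ^ 2 + m * u ^ 2) := by
            field_simp
            ring
          rw [e]
          have c4 : ((nn r m : ℝ) - r * m) * u / r ≤ 1 / r := by
            apply div_le_div_of_nonneg_right _ hr.le
            have : u ≤ 1 := by linarith
            nlinarith
          have c5 : (nn r m : ℝ) * u ^ 2 / r ^ 2 ≤ (r + 1) / r ^ 2 := by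
            apply div_le_div_of_nonneg_right _ (by positivity)
            nlinarith [sq_nonneg u]
          linarith
      _ = exp (-(u / r) - 2 * (-(u / r)) ^ 2) ^ nn r m * exp (u - 2 * u ^ 2) ^ m := by
          rw [← Real.exp_nat_mul, ← Real.exp_nat_mul, ← Real.exp_add]
      _ ≤ _ := mul_le_mul b4 b3 (by positivity) (by
          apply pow_nonneg
          have : u / r ≤ 1 / 5 := by
            rw [div_le_iff₀ hr]
            linarith
          linarith)
  exact mul_le_mul (base_low hr hZ heq m) b5 (by positivity) (by positivity)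

end Pool.Agent.V1180.CP
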