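import Pool.Agent.V1180.CPb

set_option autoImplicit false

/-!
# Limits of the weighted integrals
-/

namespace Pool.Agent.V1180.CP

open Real MeasureTheory Filter Topology Set

variable {r Z : ℝ}

theorem low_in (hr : 0 < r) (hZ : 0 < Z) (m : ℕ) (hm : 1 ≤ m) :
    Real.sqrt (Z / (2 * (r + 2))) / Real.sqrt m ≤ ∫ z in (-Real.sqrt Z)..(Real.sqrt Z), F r Z m z := by
  have hmR : (1 : ℝ) ≤ m := by exact_mod_cast hm
  set l := Real.sqrt (Z / (2 * (r + 2))) / Real.sqrt m with hl
  have hl0 : 0 < l := by positivity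
  have hl2 : l ^ 2 = Z / (2 * (r + 2) * m) := by
    rw [hl, div_pow, Real.sq_sqrt (by positivity), Real.sq_sqrt (by linarith), div_div]
  have hls : l ≤ Real.sqrt Z := by
    apply Real.le_sqrt_of_sq_le
    rw [hl2]
    apply div_le_self hZ.le
    nlinarith
  have h1 : ∫ z in (-l)..l, F r Z m z ≤ ∫ z in (-Real.sqrt Z)..(Real.sqrt Z), F r Z m z := by
    apply intervalIntegral.integral_mono_interval (by linarith) (by linarith) hls
    · exact Eventually.of_forall fun z => F_nonneg m z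
    · exact (F_cont m).intervalIntegrable _ _
  have h2 : ∫ z in (-l)..l, (1 / 2 : ℝ) ≤ ∫ z in (-l)..l, F r Z m z := by
    apply intervalIntegral.integral_mono_on (by linarith) intervalIntegrable_const
      ((F_cont m).intervalIntegrable _ _)
    intro z hz
    apply F_in_low hr hZ m hm
    rw [← hl2]
    exact sq_le_sq' hz.1 hz.2
  have h3 : ∫ z in (-l)..l, (1 / 2 : ℝ) = l := by
    rw [intervalIntegral.integral_const, smul_eq_mul]
    ring
  linarith

/-- the constant of the outer lower bound -/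
noncomputable def c0 (r Z : ℝ) : ℝ :=
  (min 1 r / 5 / (2 * Real.sqrt (1 + Z) + 1)) * (r / (1 + Z + r) * exp (-(1 / r + 2 * ((r + 1) / r ^ 2 + 1))))

theorem c0_pos (hr : 0 < r) (hZ : 0 < Z) : 0 < c0 r Z := by
  unfold c0
  have : 0 < min 1 r := lt_min one_pos hr
  positivity

theorem low_out (hr : 0 < r) (hZ : 0 < Z) (heq : r * log ((r + 1 + Z) / r) + log Z = 0) (m : ℕ) (hm : 1 ≤ m) :
    c0 r Z / Real.sqrt m ≤ ∫ z in (Real.sqrt Z)..(Real.sqrt (1 + Z + r)), F r Z m z := by
  have hmR : (1 : ℝ) ≤ m := by exact_mod_cast hm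
  have hsm : 1 ≤ Real.sqrt m := by
    rw [Real.one_le_sqrt]
    exact hmR
  have hmin : 0 < min 1 r := lt_min one_pos hr
  have hmin1 : min 1 r ≤ 1 := min_le_left _ _
  have hminr : min 1 r ≤ r := min_le_right _ _
  set T := Real.sqrt (1 + Z) with hT
  have hT1 : 1 ≤ T := by
    rw [hT, Real.one_le_sqrt]
    linarith
  have hT2 : T ^ 2 = 1 + Z := Real.sq_sqrt (by positivity)
  set θ := min 1 r / 5 / (2 * T + 1) with hθ
  have hθ0 : 0 < θ := by positivity
  have hθ1 : θ * (2 * T + 1) = min 1 r / 5 := by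
    rw [hθ]
    field_simp
  have hθ2 : θ ≤ 1 := by nlinarith
  set l := θ / Real.sqrt m with hl
  have hl0 : 0 < l := by positivity
  have hl1 : l ≤ θ := div_le_self hθ0.le hsm
  have hkey : (T + l) ^ 2 ≤ 1 + Z + min 1 r / 5 / Real.sqrt m := by
    have e : (T + l) ^ 2 = T ^ 2 + l * (2 * T + l) := by ring
    have e2 : l * (2 * T + l) ≤ l * (2 * T + 1) := mul_le_mul_of_nonneg_left (by linarith) hl0.le
    have e3 : l * (2 * T + 1) = min 1 r / 5 / Real.sqrt m := by
      rw [hl, div_mul_eq_mul_div, hθ1]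
    rw [e, hT2]
    linarith
  have hlc : T + l ≤ Real.sqrt (1 + Z + r) := by
    apply Real.le_sqrt_of_sq_le
    refine hkey.trans ?_
    have : min 1 r / 5 / Real.sqrt m ≤ min 1 r / 5 := div_le_self (by positivity) hsm
    linarith
  have hsT : Real.sqrt Z ≤ T := Real.sqrt_le_sqrt (by linarith)
  have h1 : ∫ z in T..(T + l), F r Z m z ≤ ∫ z in (Real.sqrt Z)..(Real.sqrt (1 + Z + r)), F r Z m z := by
    apply intervalIntegral.integral_mono_interval hsT (by linarith) hlc
    · exact Eventually.of_forall fun z => F_nonneg m z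
    · exact (F_cont m).intervalIntegrable _ _
  have h2 : ∫ z in T..(T + l), (r / (1 + Z + r) * exp (-(1 / r + 2 * ((r + 1) / r ^ 2 + 1)))) ≤
      ∫ z in T..(T + l), F r Z m z := by
    apply intervalIntegral.integral_mono_on (by linarith) intervalIntegrable_const
      ((F_cont m).intervalIntegrable _ _)
    intro z hz
    apply F_out_low hr hZ heq m hm
    · rw [← hT2]
      exact pow_le_pow_left₀ (by linarith) hz.1 2
    · refine le_trans ?_ hkey
      exact pow_le_pow_left₀ (by linarith [hz.1]) hz.2 2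
  rw [intervalIntegral.integral_const, smul_eq_mul] at h2
  have h3 : c0 r Z / Real.sqrt m = (T + l - T) * (r / (1 + Z + r) * exp (-(1 / r + 2 * ((r + 1) / r ^ 2 + 1)))) := by
    unfold c0
    rw [← hT, ← hθ, hl]
    ring
  rw [h3]
  exact h2.trans h1

theorem s_lt_c (hr : 0 < r) (hZ : 0 < Z) : Real.sqrt Z < Real.sqrt (1 + Z + r) :=
  Real.sqrt_lt_sqrt hZ.le (by linarith)

theorem up_out (hr : 0 < r) (hZ : 0 < Z) (heq : r * log ((r + 1 + Z) / r) + log Z = 0) (m : ℕ) (z : ℝ)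
    (hz : z ∈ Icc (Real.sqrt Z) (Real.sqrt (1 + Z + r))) :
    F r Z m z ≤ exp (1 / r) * exp (-(1 / (8 * (1 + r)) * m * (z - Real.sqrt (1 + Z)) ^ 2)) := by
  have h0 : 0 ≤ z := (Real.sqrt_nonneg _).trans hz.1
  apply F_out_up hr hZ heq m h0
  · have := pow_le_pow_left₀ (Real.sqrt_nonneg _) hz.1 2
    rwa [Real.sq_sqrt hZ.le] at this
  · have := pow_le_pow_left₀ h0 hz.2 2
    rwa [Real.sq_sqrt (by positivity)] at this

theorem up_in (hr : 0 < r) (hZ : 0 < Z) (m : ℕ) (z : ℝ)
    (hz : z ∈ Icc (-Real.sqrt Z) (Real.sqrt Z)) :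
    F r Z m z ≤ 1 * exp (-(1 / Z * m * (z - 0) ^ 2)) := by
  apply F_in_up hr hZ m
  have := sq_le_sq' hz.1 hz.2
  rwa [Real.sq_sqrt hZ.le] at this

theorem lim_in (hr : 0 < r) (hZ : 0 < Z) {w : ℝ → ℝ} (hw : Continuous w) :
    Tendsto (fun m => (∫ z in (-Real.sqrt Z)..(Real.sqrt Z), F r Z m z * w z) /
      ∫ z in (-Real.sqrt Z)..(Real.sqrt Z), F r Z m z) atTop (𝓝 (w 0)) := by
  have hs : 0 < Real.sqrt Z := Real.sqrt_pos.2 hZ
  exact conc (by linarith) (fun m => F_cont m) (fun m z _ => F_nonneg m z)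
    (c1 := Real.sqrt (Z / (2 * (r + 2)))) (C := 1) (K := 1 / Z) (by positivity) (by norm_num) (by positivity)
    (fun m hm => low_in hr hZ m hm) (fun m _ z hz => up_in hr hZ m z hz) hw

theorem lim_out (hr : 0 < r) (hZ : 0 < Z) (heq : r * log ((r + 1 + Z) / r) + log Z = 0)
    {w : ℝ → ℝ} (hw : Continuous w) :
    Tendsto (fun m => (∫ z in (Real.sqrt Z)..(Real.sqrt (1 + Z + r)), F r Z m z * w z) /
      ∫ z in (Real.sqrt Z)..(Real.sqrt (1 + Z + r)), F r Z m z) atTop (𝓝 (w (Real.sqrt (1 + Z)))) := by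
  exact conc (s_lt_c hr hZ) (fun m => F_cont m) (fun m z _ => F_nonneg m z)
    (c1 := c0 r Z) (C := exp (1 / r)) (K := 1 / (8 * (1 + r))) (c0_pos hr hZ) (by positivity) (by positivity)
    (fun m hm => low_out hr hZ heq m hm) (fun m _ z hz => up_out hr hZ heq m z hz) hw

/-- the quotient of the outer and the inner integral -/
noncomputable def rho (r Z : ℝ) (m : ℕ) : ℝ :=
  (∫ z in (Real.sqrt Z)..(Real.sqrt (1 + Z + r)), F r Z m z) / ∫ z in (-Real.sqrt Z)..(Real.sqrt Z), F r Z m z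

theorem rho_bdd (hr : 0 < r) (hZ : 0 < Z) (heq : r * log ((r + 1 + Z) / r) + log Z = 0) :
    ∃ A B : ℝ, 0 < A ∧ ∀ m : ℕ, 1 ≤ m → rho r Z m ∈ Icc A B := by
  have hs : 0 < Real.sqrt Z := Real.sqrt_pos.2 hZ
  refine ⟨c0 r Z / Real.sqrt (π / (1 / Z)),
    exp (1 / r) * Real.sqrt (π / (1 / (8 * (1 + r)))) / Real.sqrt (Z / (2 * (r + 2))), ?_, ?_⟩
  · have := c0_pos hr hZ
    have := Real.pi_pos
    positivity
  · intro m hm
    have hmR : (1 : ℝ) ≤ m := by exact_mod_cast hm
    have hsm : 0 < Real.sqrt m := Real.sqrt_pos.2 (by linarith)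
    have a1 := low_in hr hZ m hm
    have a2 := low_out hr hZ heq m hm
    have a3 := upper (a := -Real.sqrt Z) (b := Real.sqrt Z) (zs := 0) (by linarith) (F_cont m) (C := 1) (K := 1 / Z)
      (m := m) (by norm_num) (by positivity) (by linarith) (fun z hz => up_in hr hZ m z hz)
    have a4 := upper (zs := Real.sqrt (1 + Z)) (s_lt_c hr hZ) (F_cont m) (C := exp (1 / r)) (K := 1 / (8 * (1 + r)))
      (m := m) (by positivity) (by positivity) (by linarith) (fun z hz => up_out hr hZ heq m z hz)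
    have hc := c0_pos hr hZ
    have hpi := Real.pi_pos
    have hin : 0 < ∫ z in (-Real.sqrt Z)..(Real.sqrt Z), F r Z m z := lt_of_lt_of_le (by positivity) a1
    unfold rho
    constructor
    · calc c0 r Z / Real.sqrt (π / (1 / Z)) = (c0 r Z / Real.sqrt m) / (1 * Real.sqrt (π / (1 / Z)) / Real.sqrt m) := by
            have : Real.sqrt (π / (1 / Z)) ≠ 0 := by positivity
            field_simp
        _ ≤ _ := div_le_div₀ (by exact (le_of_lt (lt_of_lt_of_le (by positivity) a2))) a2 hin a3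
    · calc _ ≤ (exp (1 / r) * Real.sqrt (π / (1 / (8 * (1 + r)))) / Real.sqrt m) /
            (Real.sqrt (Z / (2 * (r + 2))) / Real.sqrt m) :=
            div_le_div₀ (by positivity) a4 (by positivity) a1
        _ = _ := by
            have : Real.sqrt (Z / (2 * (r + 2))) ≠ 0 := by positivity
            field_simp

/-- a subsequence of even exponents along which the quotient converges -/
theorem subseq (hr : 0 < r) (hZ : 0 < Z) (heq : r * log ((r + 1 + Z) / r) + log Z = 0) :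
    ∃ (ρ : ℝ) (φ : ℕ → ℕ), 0 < ρ ∧ StrictMono φ ∧ Tendsto (fun k => rho r Z (2 * φ k)) atTop (𝓝 ρ) := by
  obtain ⟨A, B, hA, hAB⟩ := rho_bdd hr hZ heq
  obtain ⟨ρ, hρ, φ, hφ, hlim⟩ := (isCompact_Icc (a := A) (b := B)).tendsto_subseq
    (x := fun k => rho r Z (2 * (k + 1))) (fun k => hAB _ (by omega))
  refine ⟨ρ, fun k => φ k + 1, lt_of_lt_of_le hA hρ.1, ?_, hlim⟩
  intro a b hab
  have := hφ hab
  simpa using this

end Pool.Agent.V1180.CP
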