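import Mathlib

set_option autoImplicit false

/-!
# A density statement in the plane
-/

namespace Pool.Agent.V1180.CP

open Filter Topology Set

theorem near_zero {A C : ℝ} (hA : A < 0) (hC : 0 < C) (ε : ℝ) (hε : 0 < ε) :
    ∃ j k : ℕ, 1 ≤ j ∧ 1 ≤ k ∧ |(k : ℝ) * C + j * A| < ε := by
  have hA' : 0 < -A := by linarith
  set ξ := C / (-A) with hξ
  have hξ0 : 0 < ξ := by positivity
  obtain ⟨n, hn⟩ := exists_nat_gt (max (1 / ξ) ((-A) / ε))
  have hn1 : 1 / ξ < n := (le_max_left _ _).trans_lt hn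
  have hn2 : (-A) / ε < n := (le_max_right _ _).trans_lt hn
  have hn0 : 0 < n := by
    have : (0 : ℝ) < n := lt_trans (by positivity) hn1
    exact_mod_cast this
  obtain ⟨j, k, hk0, hkn, hjk⟩ := Real.exists_int_int_abs_mul_sub_le ξ hn0
  have hnR : (0 : ℝ) < n := by exact_mod_cast hn0
  have h1 : 1 / ((n : ℝ) + 1) < ξ := by
    rw [div_lt_iff₀ (by positivity)]
    have := (div_lt_iff₀ hξ0).1 hn1
    nlinarith
  have hkR : (1 : ℝ) ≤ k := by exact_mod_cast hk0
  have hj : 0 < j := by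
    have h2 := (abs_le.1 hjk).2
    have h3 : (0 : ℝ) < j := by nlinarith
    exact_mod_cast h3
  refine ⟨j.toNat, k.toNat, by omega, by omega, ?_⟩
  have ej : ((j.toNat : ℕ) : ℝ) = (j : ℝ) := by
    have : ((j.toNat : ℕ) : ℤ) = j := Int.toNat_of_nonneg hj.le
    exact_mod_cast this
  have ek : ((k.toNat : ℕ) : ℝ) = (k : ℝ) := by
    have : ((k.toNat : ℕ) : ℤ) = k := Int.toNat_of_nonneg hk0.le
    exact_mod_cast this
  rw [ej, ek]
  have hAne : A ≠ 0 := hA.ne
  have e : (k : ℝ) * C + j * A = (-A) * (k * ξ - j) := by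
    have : (-A) * ξ = C := by
      rw [hξ]
      field_simp
    linear_combination (-(k : ℝ)) * this
  rw [e, abs_mul, abs_of_pos hA']
  calc (-A) * |k * ξ - j| ≤ (-A) * (1 / (n + 1)) := mul_le_mul_of_nonneg_left hjk hA'.le
    _ < ε := by
      rw [mul_one_div, div_lt_iff₀ (by positivity)]
      have := (div_lt_iff₀ hε).1 hn2
      nlinarith

/-- a closed additive submonoid of the line with two incommensurable elements of opposite sign -/
theorem line_full (N : AddSubmonoid ℝ) (hN : IsClosed (N : Set ℝ)) {A C : ℝ} (hA : A < 0) (hC : 0 < C)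
    (hAN : A ∈ N) (hCN : C ∈ N) (hirr : Irrational (C / A)) (t : ℝ) : t ∈ N := by
  have hnA : -A ∈ N := by
    have : -A ∈ closure (N : Set ℝ) := by
      rw [Metric.mem_closure_iff]
      intro ε hε
      obtain ⟨j, k, hj, hk, h⟩ := near_zero hA hC ε hε
      refine ⟨k • C + (j - 1) • A, N.add_mem (N.nsmul_mem hCN _) (N.nsmul_mem hAN _), ?_⟩
      rw [Real.dist_eq, nsmul_eq_mul, nsmul_eq_mul, Nat.cast_sub hj]
      push_cast
      rw [abs_sub_comm]
      convert h using 2
      ring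
    rwa [hN.closure_eq] at this
  have hnC : -C ∈ N := by
    have : -C ∈ closure (N : Set ℝ) := by
      rw [Metric.mem_closure_iff]
      intro ε hε
      obtain ⟨j, k, hj, hk, h⟩ := near_zero hA hC ε hε
      refine ⟨(k - 1) • C + j • A, N.add_mem (N.nsmul_mem hCN _) (N.nsmul_mem hAN _), ?_⟩
      rw [Real.dist_eq, nsmul_eq_mul, nsmul_eq_mul, Nat.cast_sub hk]
      push_cast
      rw [abs_sub_comm]
      convert h using 2
      ring
    rwa [hN.closure_eq] at this
  let H : AddSubgroup ℝ :=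
    { carrier := {t | t ∈ N ∧ -t ∈ N}
      zero_mem' := ⟨N.zero_mem, by simpa using N.zero_mem⟩
      add_mem' := by
        rintro a b ⟨h1, h2⟩ ⟨h3, h4⟩
        refine ⟨N.add_mem h1 h3, ?_⟩
        rw [neg_add]
        exact N.add_mem h2 h4
      neg_mem' := by
        rintro a ⟨h1, h2⟩
        exact ⟨h2, by simpa using h1⟩ }
  have hsub : AddSubgroup.closure {C, A} ≤ H := by
    rw [AddSubgroup.closure_le]
    rintro x (rfl | rfl)
    · exact ⟨hCN, hnC⟩
    · exact ⟨hAN, hnA⟩
  have hd : Dense ((AddSubgroup.closure {C, A} : AddSubgroup ℝ) : Set ℝ) :=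
    dense_addSubgroupClosure_pair_iff.2 hirr
  have h5 : t ∈ closure ((AddSubgroup.closure {C, A} : AddSubgroup ℝ) : Set ℝ) := hd t
  have h6 : ((AddSubgroup.closure {C, A} : AddSubgroup ℝ) : Set ℝ) ⊆ (N : Set ℝ) := fun x hx => (hsub hx).1
  have h7 := closure_mono h6 h5
  rwa [hN.closure_eq] at h7

/-- **Density.** -/
theorem plane_dense {a b g e : ℝ} (hA : a + b < 0) (hC : 0 < g + e) (h1 : Irrational ((g + e) / (a + b)))
    (h2 : Irrational ((a - b) / (g - e))) (p q : ℕ) (x y ε : ℝ) (hε : 0 < ε) :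
    ∃ d1 d2 d3 d4 : ℕ, |d1 * a + (p + 2 * d2 : ℕ) * g + (q + 2 * d3 : ℕ) * e + d4 * b - x| < ε ∧
      |d1 * b + (p + 2 * d2 : ℕ) * e + (q + 2 * d3 : ℕ) * g + d4 * a - y| < ε := by
  let S : AddSubmonoid (ℝ × ℝ) :=
    { carrier := {u | ∃ d1 d2 d3 d4 : ℕ, u = (d1 * a + 2 * d2 * g + 2 * d3 * e + d4 * b,
        d1 * b + 2 * d2 * e + 2 * d3 * g + d4 * a)}
      zero_mem' := ⟨0, 0, 0, 0, by simp; rfl⟩
      add_mem' := by
        rintro u v ⟨d1, d2, d3, d4, rfl⟩ ⟨f1, f2, f3, f4, rfl⟩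
        refine ⟨d1 + f1, d2 + f2, d3 + f3, d4 + f4, ?_⟩
        rw [Prod.mk_add_mk]
        push_cast
        congr 1 <;> ring }
  let T : AddSubmonoid (ℝ × ℝ) := S.topologicalClosure
  have hTc : IsClosed (T : Set (ℝ × ℝ)) := S.isClosed_topologicalClosure
  have hST : ∀ u ∈ S, u ∈ T := fun u hu => S.le_topologicalClosure hu
  have v1 : ((a, b) : ℝ × ℝ) ∈ T := hST _ ⟨1, 0, 0, 0, by simp⟩
  have v4 : ((b, a) : ℝ × ℝ) ∈ T := hST _ ⟨0, 0, 0, 1, by simp⟩
  have v2 : ((2 * g, 2 * e) : ℝ × ℝ) ∈ T := hST _ ⟨0, 1, 0, 0, by simp⟩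
  have v3 : ((2 * e, 2 * g) : ℝ × ℝ) ∈ T := hST _ ⟨0, 0, 1, 0, by simp⟩
  -- the diagonal
  have hdiag : ∀ t : ℝ, ((t, t) : ℝ × ℝ) ∈ T := by
    let N : AddSubmonoid ℝ :=
      { carrier := {t | ((t, t) : ℝ × ℝ) ∈ T}
        zero_mem' := T.zero_mem
        add_mem' := fun {s t} hs ht => T.add_mem hs ht }
    have hNc : IsClosed (N : Set ℝ) := hTc.preimage (by fun_prop : Continuous fun t : ℝ => (t, t))
    have hAN : a + b ∈ N := by
      have := T.add_mem v1 v4
      rw [Prod.mk_add_mk, add_comm b a] at this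
      exact this
    have hCN : 2 * (g + e) ∈ N := by
      have := T.add_mem v2 v3
      rw [Prod.mk_add_mk, add_comm (2 * e) (2 * g), ← mul_add] at this
      exact this
    have hirr : Irrational (2 * (g + e) / (a + b)) := by
      rw [mul_div_assoc]
      exact_mod_cast h1.ratCast_mul (q := 2) (by norm_num)
    exact fun t => line_full N hNc hA (by linarith) hAN hCN hirr t
  have nv4 : ((-b, -a) : ℝ × ℝ) ∈ T := by
    have := T.add_mem v1 (hdiag (-(a + b)))
    rw [Prod.mk_add_mk] at this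
    convert this using 2 <;> ring
  have nv1 : ((-a, -b) : ℝ × ℝ) ∈ T := by
    have := T.add_mem v4 (hdiag (-(a + b)))
    rw [Prod.mk_add_mk] at this
    convert this using 2 <;> ring
  have nv3 : ((-(2 * e), -(2 * g)) : ℝ × ℝ) ∈ T := by
    have := T.add_mem v2 (hdiag (-(2 * (g + e))))
    rw [Prod.mk_add_mk] at this
    convert this using 2 <;> ring
  have nv2 : ((-(2 * g), -(2 * e)) : ℝ × ℝ) ∈ T := by
    have := T.add_mem v3 (hdiag (-(2 * (g + e))))
    rw [Prod.mk_add_mk] at this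
    convert this using 2 <;> ring
  -- the antidiagonal
  have hanti : ∀ t : ℝ, ((t, -t) : ℝ × ℝ) ∈ T := by
    let N : AddSubmonoid ℝ :=
      { carrier := {t | ((t, -t) : ℝ × ℝ) ∈ T}
        zero_mem' := by
          change (((0 : ℝ), -(0 : ℝ)) : ℝ × ℝ) ∈ T
          rw [neg_zero]
          exact T.zero_mem
        add_mem' := by
          intro s t hs ht
          have := T.add_mem hs ht
          rw [Prod.mk_add_mk, ← neg_add] at this
          exact this }
    have hNc : IsClosed (N : Set ℝ) := hTc.preimage (by fun_prop : Continuous fun t : ℝ => (t, -t))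
    have m1 : a - b ∈ N := by
      have := T.add_mem v1 nv4
      rw [Prod.mk_add_mk] at this
      change ((a - b, -(a - b)) : ℝ × ℝ) ∈ T
      convert this using 2 <;> ring
    have m2 : -(a - b) ∈ N := by
      have := T.add_mem v4 nv1
      rw [Prod.mk_add_mk] at this
      change ((-(a - b), -(-(a - b))) : ℝ × ℝ) ∈ T
      convert this using 2 <;> ring
    have m3 : 2 * (g - e) ∈ N := by
      have := T.add_mem v2 nv3
      rw [Prod.mk_add_mk] at this
      change ((2 * (g - e), -(2 * (g - e))) : ℝ × ℝ) ∈ T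
      convert this using 2 <;> ring
    have m4 : -(2 * (g - e)) ∈ N := by
      have := T.add_mem v3 nv2
      rw [Prod.mk_add_mk] at this
      change ((-(2 * (g - e)), -(-(2 * (g - e)))) : ℝ × ℝ) ∈ T
      convert this using 2 <;> ring
    have hne1 : g - e ≠ 0 := by
      intro h
      rw [h, div_zero] at h2
      exact h2.ne_zero rfl
    have hne2 : a - b ≠ 0 := by
      intro h
      rw [h, zero_div] at h2
      exact h2.ne_zero rfl
    -- choose signs
    have key : ∀ u v : ℝ, u ∈ N → -u ∈ N → v ∈ N → -v ∈ N → u ≠ 0 → v ≠ 0 → Irrational (u / v) → ∀ t, t ∈ N := by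
      intro u v hu hu' hv hv' hu0 hv0 hirr t
      rcases lt_or_gt_of_ne hv0 with hv1 | hv1
      · rcases lt_or_gt_of_ne hu0 with hu1 | hu1
        · refine line_full N hNc hv1 (by linarith : 0 < -u) hv hu' ?_ t
          rw [neg_div]
          exact hirr.neg
        · exact line_full N hNc hv1 hu1 hv hu hirr t
      · rcases lt_or_gt_of_ne hu0 with hu1 | hu1
        · refine line_full N hNc (by linarith : -v < 0) (by linarith : 0 < -u) hv' hu' ?_ t
          rw [neg_div_neg_eq]
          exact hirr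
        · refine line_full N hNc (by linarith : -v < 0) hu1 hv' hu ?_ t
          rw [div_neg]
          exact hirr.neg
    refine key (a - b) (2 * (g - e)) m1 m2 m3 m4 hne2 (mul_ne_zero two_ne_zero hne1) ?_
    have : (a - b) / (2 * (g - e)) = ((1 / 2 : ℚ) : ℝ) * ((a - b) / (g - e)) := by
      push_cast
      field_simp
    rw [this]
    exact h2.ratCast_mul (by norm_num)
  have hall : ∀ u : ℝ × ℝ, u ∈ T := by
    rintro ⟨x, y⟩
    have := T.add_mem (hdiag ((x + y) / 2)) (hanti ((x - y) / 2))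
    rw [Prod.mk_add_mk] at this
    convert this using 2 <;> ring
  have hmem : ((x - p * g - q * e, y - p * e - q * g) : ℝ × ℝ) ∈ closure (S : Set (ℝ × ℝ)) := hall _
  rw [Metric.mem_closure_iff] at hmem
  obtain ⟨u, ⟨d1, d2, d3, d4, rfl⟩, hu⟩ := hmem ε hε
  rw [Prod.dist_eq, max_lt_iff, Real.dist_eq, Real.dist_eq] at hu
  refine ⟨d1, d2, d3, d4, ?_, ?_⟩
  · have h3 := hu.1
    rw [abs_sub_comm] at h3
    refine lt_of_eq_of_lt ?_ h3
    congr 1
    push_cast
    ring
  · have h3 := hu.2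
    rw [abs_sub_comm] at h3
    refine lt_of_eq_of_lt ?_ h3
    congr 1
    push_cast
    ring

end Pool.Agent.V1180.CP
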