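import Mathlib

set_option autoImplicit false

/-!
# Choice of the parameters
-/

namespace Pool.Agent.V1180.CP

open Real MeasureTheory Filter Topology Set

/-- the critical function -/
noncomputable def hh (r Z : ℝ) : ℝ := r * log ((r + 1 + Z) / r) + log Z

theorem hh_mono {r Z1 Z2 : ℝ} (hr : 0 < r) (h1 : 0 < Z1) (h : Z1 < Z2) : hh r Z1 < hh r Z2 := by
  unfold hh
  have a1 : log Z1 < log Z2 := Real.log_lt_log h1 h
  have a2 : log ((r + 1 + Z1) / r) ≤ log ((r + 1 + Z2) / r) :=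
    Real.log_le_log (by positivity) (div_le_div_of_nonneg_right (by linarith) hr.le)
  have a3 := mul_le_mul_of_nonneg_left a2 hr.le
  linarith

theorem hh_cont {r Z : ℝ} (hr : 0 < r) (hZ : 0 < Z) : ContinuousAt (fun r => hh r Z) r := by
  unfold hh
  have h1 : (r + 1 + Z) / r ≠ 0 := by positivity
  have h2 : r ≠ 0 := hr.ne'
  fun_prop (disch := assumption)

theorem exZ {r : ℝ} (hr : 0 < r) : ∃ Z : ℝ, 0 < Z ∧ Z < 1 ∧ hh r Z = 0 := by
  set Z0 := exp (-(r * log ((r + 2) / r)) - 1) with hZ0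
  have hl : 0 < log ((r + 2) / r) := Real.log_pos (by
    rw [lt_div_iff₀ hr]
    linarith)
  have h0 : 0 < Z0 := Real.exp_pos _
  have h1 : Z0 ≤ 1 := by
    rw [hZ0, Real.exp_le_one_iff]
    have : 0 < r * log ((r + 2) / r) := by positivity
    linarith
  have h2 : hh r Z0 < 0 := by
    unfold hh
    rw [hZ0, Real.log_exp, ← hZ0]
    have : log ((r + 1 + Z0) / r) ≤ log ((r + 2) / r) :=
      Real.log_le_log (by positivity) (div_le_div_of_nonneg_right (by linarith) hr.le)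
    have := mul_le_mul_of_nonneg_left this hr.le
    linarith
  have h3 : 0 < hh r 1 := by
    unfold hh
    rw [Real.log_one, show r + 1 + 1 = r + 2 by ring]
    positivity
  have hc : ContinuousOn (fun Z => hh r Z) (Icc Z0 1) := by
    intro Z hZ
    apply ContinuousAt.continuousWithinAt
    unfold hh
    have a0 : 0 < Z := lt_of_lt_of_le h0 hZ.1
    have a1 : (r + 1 + Z) / r ≠ 0 := by positivity
    have a2 : Z ≠ 0 := a0.ne'
    have a3 : r ≠ 0 := hr.ne'
    fun_prop (disch := assumption)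
  obtain ⟨Z, hZ, hZ2⟩ := intermediate_value_Icc h1 hc ⟨h2.le, h3.le⟩
  refine ⟨Z, lt_of_lt_of_le h0 hZ.1, lt_of_le_of_ne hZ.2 ?_, hZ2⟩
  rintro rfl
  simp only at hZ2
  linarith

/-- the solution -/
noncomputable def zf (r : ℝ) : ℝ := if h : 0 < r then (exZ h).choose else 1

theorem zf_spec {r : ℝ} (hr : 0 < r) : 0 < zf r ∧ zf r < 1 ∧ hh r (zf r) = 0 := by
  unfold zf
  rw [dif_pos hr]
  exact (exZ hr).choose_spec

theorem zf_cont {r : ℝ} (hr : 0 < r) : ContinuousAt zf r := by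
  obtain ⟨h0, h1, h2⟩ := zf_spec hr
  have hpos : ∀ᶠ x in 𝓝 r, 0 < x := lt_mem_nhds hr
  unfold ContinuousAt
  rw [tendsto_order]
  constructor
  · intro a ha
    rcases le_or_gt a 0 with ha0 | ha0
    · filter_upwards [hpos] with x hx
      exact lt_of_le_of_lt ha0 (zf_spec hx).1
    · have h3 : hh r a < 0 := by rw [← h2]; exact hh_mono hr ha0 ha
      have h4 : ∀ᶠ x in 𝓝 r, hh x a < 0 := (hh_cont hr ha0).eventually (gt_mem_nhds h3)
      filter_upwards [hpos, h4] with x hx h5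
      by_contra hcon
      push Not at hcon
      obtain ⟨b0, b1, b2⟩ := zf_spec hx
      rcases hcon.eq_or_lt with h6 | h6
      · rw [← h6, b2] at h5
        exact lt_irrefl _ h5
      · have := hh_mono hx b0 h6
        linarith
  · intro a ha
    have ha0 : 0 < a := h0.trans ha
    have h3 : 0 < hh r a := by rw [← h2]; exact hh_mono hr h0 ha
    have h4 : ∀ᶠ x in 𝓝 r, 0 < hh x a := (hh_cont hr ha0).eventually (lt_mem_nhds h3)
    filter_upwards [hpos, h4] with x hx h5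
    by_contra hcon
    push Not at hcon
    obtain ⟨b0, b1, b2⟩ := zf_spec hx
    rcases hcon.eq_or_lt with h6 | h6
    · rw [h6, b2] at h5
      exact lt_irrefl _ h5
    · have := hh_mono hx ha0 h6
      linarith

/-- the logarithms -/
noncomputable def la (r Z : ℝ) : ℝ := log ((Real.sqrt (1 + Z + r) - Real.sqrt (1 + Z)) / Real.sqrt (1 + Z + r))
noncomputable def lb (r Z : ℝ) : ℝ := log ((Real.sqrt (1 + Z + r) + Real.sqrt (1 + Z)) / Real.sqrt (1 + Z + r))
noncomputable def lg (Z : ℝ) : ℝ := log ((Real.sqrt (1 + Z) - Real.sqrt Z) / Real.sqrt Z)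
noncomputable def le (Z : ℝ) : ℝ := log ((Real.sqrt (1 + Z) + Real.sqrt Z) / Real.sqrt Z)

section
variable {r Z : ℝ}

theorem ct_pos (hr : 0 < r) (hZ : 0 < Z) : 0 < Real.sqrt (1 + Z + r) - Real.sqrt (1 + Z) := by
  have := Real.sqrt_lt_sqrt (by positivity : 0 ≤ 1 + Z) (by linarith : 1 + Z < 1 + Z + r)
  linarith

theorem ts_pos (hZ : 0 < Z) : 0 < Real.sqrt (1 + Z) - Real.sqrt Z := by
  have := Real.sqrt_lt_sqrt hZ.le (by linarith : Z < 1 + Z)
  linarith

theorem lab (hr : 0 < r) (hZ : 0 < Z) : la r Z + lb r Z = log (r / (1 + Z + r)) := by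
  unfold la lb
  have h1 := ct_pos hr hZ
  have h2 : 0 < Real.sqrt (1 + Z + r) := Real.sqrt_pos.2 (by positivity)
  have h3 : 0 ≤ Real.sqrt (1 + Z) := Real.sqrt_nonneg _
  have e1 : Real.sqrt (1 + Z + r) ^ 2 = 1 + Z + r := Real.sq_sqrt (by positivity)
  have e2 : Real.sqrt (1 + Z) ^ 2 = 1 + Z := Real.sq_sqrt (by positivity)
  rw [← Real.log_mul (by positivity) (by positivity)]
  congr 1
  rw [div_mul_div_comm, ← sq (Real.sqrt (1 + Z + r)), e1]
  congr 1
  have : (Real.sqrt (1 + Z + r) - Real.sqrt (1 + Z)) * (Real.sqrt (1 + Z + r) + Real.sqrt (1 + Z)) =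
    Real.sqrt (1 + Z + r) ^ 2 - Real.sqrt (1 + Z) ^ 2 := by ring
  rw [this, e1, e2]
  ring

theorem lge (hZ : 0 < Z) : lg Z + le Z = -log Z := by
  unfold lg le
  have h1 := ts_pos hZ
  have h2 : 0 < Real.sqrt Z := Real.sqrt_pos.2 hZ
  have h3 : 0 ≤ Real.sqrt (1 + Z) := Real.sqrt_nonneg _
  have e1 : Real.sqrt Z ^ 2 = Z := Real.sq_sqrt hZ.le
  have e2 : Real.sqrt (1 + Z) ^ 2 = 1 + Z := Real.sq_sqrt (by positivity)
  rw [← Real.log_mul (by positivity) (by positivity), ← Real.log_inv]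
  congr 1
  rw [div_mul_div_comm, ← sq (Real.sqrt Z), e1]
  have : (Real.sqrt (1 + Z) - Real.sqrt Z) * (Real.sqrt (1 + Z) + Real.sqrt Z) =
    Real.sqrt (1 + Z) ^ 2 - Real.sqrt Z ^ 2 := by ring
  rw [this, e1, e2]
  ring

theorem lab_sub (hr : 0 < r) (hZ : 0 < Z) :
    lb r Z - la r Z = log ((Real.sqrt (1 + Z + r) + Real.sqrt (1 + Z)) ^ 2 / r) := by
  unfold la lb
  have h1 := ct_pos hr hZ
  have h2 : 0 < Real.sqrt (1 + Z + r) := Real.sqrt_pos.2 (by positivity)
  have h3 : 0 ≤ Real.sqrt (1 + Z) := Real.sqrt_nonneg _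
  have e1 : Real.sqrt (1 + Z + r) ^ 2 = 1 + Z + r := Real.sq_sqrt (by positivity)
  have e2 : Real.sqrt (1 + Z) ^ 2 = 1 + Z := Real.sq_sqrt (by positivity)
  rw [← Real.log_div (by positivity) (by positivity)]
  congr 1
  rw [div_div_div_cancel_right₀ h2.ne', div_eq_div_iff h1.ne' hr.ne']
  have : r = (Real.sqrt (1 + Z + r) - Real.sqrt (1 + Z)) * (Real.sqrt (1 + Z + r) + Real.sqrt (1 + Z)) := by
    have : (Real.sqrt (1 + Z + r) - Real.sqrt (1 + Z)) * (Real.sqrt (1 + Z + r) + Real.sqrt (1 + Z)) =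
      Real.sqrt (1 + Z + r) ^ 2 - Real.sqrt (1 + Z) ^ 2 := by ring
    rw [this, e1, e2]
    ring
  linear_combination (Real.sqrt (1 + Z + r) + Real.sqrt (1 + Z)) * this

theorem lge_sub (hZ : 0 < Z) : le Z - lg Z = 2 * log (Real.sqrt (1 + Z) + Real.sqrt Z) := by
  unfold lg le
  have h1 := ts_pos hZ
  have h2 : 0 < Real.sqrt Z := Real.sqrt_pos.2 hZ
  have h3 : 0 ≤ Real.sqrt (1 + Z) := Real.sqrt_nonneg _
  have e1 : Real.sqrt Z ^ 2 = Z := Real.sq_sqrt hZ.le
  have e2 : Real.sqrt (1 + Z) ^ 2 = 1 + Z := Real.sq_sqrt (by positivity)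
  rw [← Real.log_div (by positivity) (by positivity), div_div_div_cancel_right₀ h2.ne']
  have e3 : (Real.sqrt (1 + Z) + Real.sqrt Z) / (Real.sqrt (1 + Z) - Real.sqrt Z) =
      (Real.sqrt (1 + Z) + Real.sqrt Z) ^ 2 := by
    rw [div_eq_iff h1.ne']
    have : (Real.sqrt (1 + Z) + Real.sqrt Z) ^ 2 * (Real.sqrt (1 + Z) - Real.sqrt Z) =
      (Real.sqrt (1 + Z) + Real.sqrt Z) * (Real.sqrt (1 + Z) ^ 2 - Real.sqrt Z ^ 2) := by ring
    rw [this, e1, e2]
    ring
  rw [e3, Real.log_pow]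
  push_cast
  ring

theorem lge_pos (hZ : 0 < Z) : 0 < le Z - lg Z := by
  rw [lge_sub hZ]
  have h1 : 1 < Real.sqrt (1 + Z) := by
    rw [Real.lt_sqrt (by norm_num)]
    linarith
  have := Real.log_pos (by linarith [Real.sqrt_nonneg Z] : 1 < Real.sqrt (1 + Z) + Real.sqrt Z)
  linarith

theorem lge_le (hZ : 0 < Z) (hZ1 : Z < 1) : le Z - lg Z ≤ 4 := by
  rw [lge_sub hZ]
  have h0 : 0 ≤ Real.sqrt Z := Real.sqrt_nonneg _
  have h1 : Real.sqrt (1 + Z) ≤ 2 := by
    rw [Real.sqrt_le_left (by norm_num)]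
    linarith
  have h2 : Real.sqrt Z ≤ 1 := by
    rw [Real.sqrt_le_left (by norm_num)]
    linarith
  have h4 : 0 < Real.sqrt (1 + Z) := Real.sqrt_pos.2 (by linarith)
  have h3 := Real.log_le_sub_one_of_pos (by linarith : 0 < Real.sqrt (1 + Z) + Real.sqrt Z)
  linarith

end

/-- the ratio -/
noncomputable def qq (r : ℝ) : ℝ := (la r (zf r) - lb r (zf r)) / (lg (zf r) - le (zf r))

theorem qq_ge {r : ℝ} (hr : 0 < r) (hr1 : r ≤ 1) : -log r / 4 ≤ qq r := by
  obtain ⟨h0, h1, h2⟩ := zf_spec hr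
  have e : qq r = (lb r (zf r) - la r (zf r)) / (le (zf r) - lg (zf r)) := by
    unfold qq
    rw [← neg_sub (lb _ _), ← neg_sub (le _), neg_div_neg_eq]
  rw [e, lab_sub hr h0]
  have h3 := lge_pos h0
  have h4 := lge_le h0 h1
  have h5 : -log r ≤ log ((Real.sqrt (1 + zf r + r) + Real.sqrt (1 + zf r)) ^ 2 / r) := by
    rw [← Real.log_inv]
    apply Real.log_le_log (by positivity)
    rw [inv_eq_one_div]
    apply div_le_div_of_nonneg_right _ hr.le
    have h6 : 1 ≤ Real.sqrt (1 + zf r + r) := by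
      rw [Real.one_le_sqrt]
      linarith
    have h7 : 0 ≤ Real.sqrt (1 + zf r) := Real.sqrt_nonneg _
    nlinarith
  have h8 : 0 ≤ -log r := by
    have := Real.log_nonpos hr.le hr1
    linarith
  calc -log r / 4 ≤ -log r / (le (zf r) - lg (zf r)) := div_le_div_of_nonneg_left h8 h3 h4
    _ ≤ _ := div_le_div_of_nonneg_right h5 h3.le

theorem qq_cont {r : ℝ} (hr : 0 < r) : ContinuousAt qq r := by
  obtain ⟨h0, h1, h2⟩ := zf_spec hr
  have hz := zf_cont hr
  have a1 := ct_pos hr h0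
  have a2 := ts_pos h0
  have a3 : 0 < Real.sqrt (1 + zf r + r) := Real.sqrt_pos.2 (by positivity)
  have a4 : 0 < Real.sqrt (zf r) := Real.sqrt_pos.2 h0
  have a5 : 0 ≤ Real.sqrt (1 + zf r) := Real.sqrt_nonneg _
  unfold qq la lb lg le
  have b1 : ContinuousAt (fun x => Real.sqrt (1 + zf x + x)) r := by fun_prop
  have b2 : ContinuousAt (fun x => Real.sqrt (1 + zf x)) r := by fun_prop
  have b3 : ContinuousAt (fun x => Real.sqrt (zf x)) r := by fun_prop
  have c1 : ContinuousAt (fun x => log ((Real.sqrt (1 + zf x + x) - Real.sqrt (1 + zf x)) / Real.sqrt (1 + zf x + x))) r :=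
    ((b1.sub b2).div b1 a3.ne').log (div_pos a1 a3).ne'
  have c2 : ContinuousAt (fun x => log ((Real.sqrt (1 + zf x + x) + Real.sqrt (1 + zf x)) / Real.sqrt (1 + zf x + x))) r :=
    ((b1.add b2).div b1 a3.ne').log (div_pos (add_pos_of_pos_of_nonneg a3 a5) a3).ne'
  have c3 : ContinuousAt (fun x => log ((Real.sqrt (1 + zf x) - Real.sqrt (zf x)) / Real.sqrt (zf x))) r :=
    ((b2.sub b3).div b3 a4.ne').log (div_pos a2 a4).ne'
  have c4 : ContinuousAt (fun x => log ((Real.sqrt (1 + zf x) + Real.sqrt (zf x)) / Real.sqrt (zf x))) r :=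
    ((b2.add b3).div b3 a4.ne').log (div_pos (add_pos_of_nonneg_of_pos a5 a4) a4).ne'
  refine (c1.sub c2).div (c3.sub c4) ?_
  have := lge_pos h0
  unfold le lg at this
  linarith

/-- good parameters exist -/
theorem params : ∃ r Z : ℝ, 0 < r ∧ 0 < Z ∧ r * log ((r + 1 + Z) / r) + log Z = 0 ∧
    la r Z + lb r Z < 0 ∧ 0 < lg Z + le Z ∧ Irrational ((lg Z + le Z) / (la r Z + lb r Z)) ∧
    Irrational ((la r Z - lb r Z) / (lg Z - le Z)) := by
  obtain ⟨r, hr, hirr, hirr2⟩ : ∃ r : ℝ, 0 < r ∧ Irrational r ∧ Irrational (qq r) := by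
    by_contra hcon
    push Not at hcon
    set r0 := exp (-(4 * (|qq 1| + 1))) with hr0
    have h0 : 0 < r0 := Real.exp_pos _
    have h1 : r0 ≤ 1 := by
      rw [hr0, Real.exp_le_one_iff]
      have := abs_nonneg (qq 1)
      linarith
    have h2 : qq 1 < qq r0 := by
      have h3 := qq_ge h0 h1
      rw [hr0, Real.log_exp, ← hr0] at h3
      have := le_abs_self (qq 1)
      linarith
    have hc : ContinuousOn qq (Icc r0 1) := fun x hx =>
      (qq_cont (lt_of_lt_of_le h0 hx.1)).continuousWithinAt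
    have h3 := intermediate_value_Icc' h1 hc
    have h4 : Icc (qq 1) (qq r0) ⊆ range ((↑) : ℚ → ℝ) ∪ qq '' range ((↑) : ℚ → ℝ) := by
      intro y hy
      obtain ⟨x, hx, rfl⟩ := h3 hy
      by_cases hxi : Irrational x
      · left
        have := hcon x (lt_of_lt_of_le h0 hx.1) hxi
        unfold Irrational at this
        push Not at this
        exact this
      · right
        unfold Irrational at hxi
        push Not at hxi
        exact ⟨x, hxi, rfl⟩
    have h5 : (range ((↑) : ℚ → ℝ) ∪ qq '' range ((↑) : ℚ → ℝ)).Countable :=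
      (countable_range _).union ((countable_range _).image _)
    have h6 : volume (Icc (qq 1) (qq r0)) = 0 := (h5.mono h4).measure_zero _
    rw [Real.volume_Icc] at h6
    have := ENNReal.ofReal_pos.2 (by linarith : 0 < qq r0 - qq 1)
    exact this.ne' h6
  obtain ⟨h0, h1, h2⟩ := zf_spec hr
  have e1 := lab hr h0
  have e2 := lge h0
  have h3 : la r (zf r) + lb r (zf r) < 0 := by
    rw [e1]
    apply Real.log_neg (by positivity)
    rw [div_lt_one (by positivity)]
    linarith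
  have h4 : 0 < lg (zf r) + le (zf r) := by
    rw [e2]
    have := Real.log_neg h0 h1
    linarith
  refine ⟨r, zf r, hr, h0, h2, h3, h4, ?_, hirr2⟩
  have e3 : lg (zf r) + le (zf r) = -r * (la r (zf r) + lb r (zf r)) := by
    rw [e1, e2]
    have e4 : log (r / (1 + zf r + r)) = -log ((r + 1 + zf r) / r) := by
      rw [← Real.log_inv, inv_div]
      congr 2
      ring
    rw [e4]
    unfold hh at h2
    linarith
  rw [e3, mul_div_assoc, div_self h3.ne, mul_one]
  exact hirr.neg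

end Pool.Agent.V1180.CP
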