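import Pool.Agent.V1180.CPc
import Pool.Agent.V1180.CPd
import Pool.Agent.V1180.CPe

set_option autoImplicit false

/-!
# The four-point set
-/

namespace Pool.Agent.V1180.CP

open Real MeasureTheory Filter Topology Set Polynomial

theorem exists_antideriv (P : ℝ[X]) : ∃ p : ℝ[X], derivative p = P := by
  induction P using Polynomial.induction_on' with
  | add p q hp hq =>
    obtain ⟨a, ha⟩ := hp
    obtain ⟨b, hb⟩ := hq
    exact ⟨a + b, by rw [derivative_add, ha, hb]⟩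
  | monomial n a =>
    refine ⟨monomial (n + 1) (a / (n + 1)), ?_⟩
    rw [derivative_monomial]
    congr 1
    push_cast
    field_simp

/-- the auxiliary weight -/
noncomputable def W (c s : ℝ) (d1 d2 d3 d4 : ℕ) (z : ℝ) : ℝ :=
  |z + c| ^ d1 * |z + s| ^ d2 * |z - s| ^ d3 * |z - c| ^ d4

/-- the derivative polynomial -/
noncomputable def PP (c s : ℝ) (k1 k2 k3 k4 : ℕ) : ℝ[X] :=
  (X + C c) ^ k1 * (X + C s) ^ k2 * (X - C s) ^ k3 * (X - C c) ^ k4

theorem PP_eval (c s : ℝ) (k1 k2 k3 k4 : ℕ) (z : ℝ) :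
    (PP c s k1 k2 k3 k4).eval z = (z + c) ^ k1 * (z + s) ^ k2 * (z - s) ^ k3 * (z - c) ^ k4 := by
  unfold PP
  simp

theorem PP_roots (c s : ℝ) (k1 k2 k3 k4 : ℕ) (z : ℂ) (h : aeval z (PP c s k1 k2 k3 k4) = 0) :
    z = ((-c : ℝ) : ℂ) ∨ z = ((-s : ℝ) : ℂ) ∨ z = ((s : ℝ) : ℂ) ∨ z = ((c : ℝ) : ℂ) := by
  unfold PP at h
  simp only [map_mul, map_pow, map_add, map_sub, aeval_X, aeval_C, mul_eq_zero, pow_eq_zero_iff'] at h
  rcases h with ((h | h) | h) | h
  · left
    have := h.1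
    push_cast
    exact eq_neg_of_add_eq_zero_left this
  · right; left
    have := h.1
    push_cast
    exact eq_neg_of_add_eq_zero_left this
  · right; right; left
    exact sub_eq_zero.1 h.1
  · right; right; right
    exact sub_eq_zero.1 h.1

theorem W_cont (c s : ℝ) (d1 d2 d3 d4 : ℕ) : Continuous (W c s d1 d2 d3 d4) := by
  unfold W
  fun_prop

theorem pow_abs_neg {x : ℝ} (hx : x ≤ 0) (k : ℕ) : x ^ k = (-1) ^ k * |x| ^ k := by
  rw [← mul_pow, abs_of_nonpos hx]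
  ring

variable {r Z : ℝ}

/-- absolute value of the derivative polynomial -/
theorem abs_prod (hr : 0 < r) (hZ : 0 < Z) (m d1 d2 d3 d4 : ℕ) (z : ℝ) :
    |z + Real.sqrt (1 + Z + r)| ^ (nn r m + d1) * |z + Real.sqrt Z| ^ (m + d2) * |z - Real.sqrt Z| ^ (m + d3) *
      |z - Real.sqrt (1 + Z + r)| ^ (nn r m + d4) =
    ((1 + Z + r) ^ nn r m * Z ^ m) * (F r Z m z * W (Real.sqrt (1 + Z + r)) (Real.sqrt Z) d1 d2 d3 d4 z) := by
  have e1 : Real.sqrt (1 + Z + r) ^ 2 = 1 + Z + r := Real.sq_sqrt (by positivity)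
  have e2 : Real.sqrt Z ^ 2 = Z := Real.sq_sqrt hZ.le
  have h1 : |z + Real.sqrt (1 + Z + r)| * |z - Real.sqrt (1 + Z + r)| = (1 + Z + r) * |1 - z ^ 2 / (1 + Z + r)| := by
    have hp : (0:ℝ) < 1 + Z + r := by positivity
    rw [← abs_mul]
    have : (z + Real.sqrt (1 + Z + r)) * (z - Real.sqrt (1 + Z + r)) = -((1 + Z + r) * (1 - z ^ 2 / (1 + Z + r))) := by
      have e3 : (1 + Z + r) * (1 - z ^ 2 / (1 + Z + r)) = (1 + Z + r) - z ^ 2 := by
        field_simp
      rw [e3]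
      linear_combination (-1 : ℝ) * e1
    rw [this, abs_neg, abs_mul, abs_of_pos hp]
  have h2 : |z + Real.sqrt Z| * |z - Real.sqrt Z| = Z * |z ^ 2 / Z - 1| := by
    rw [← abs_mul]
    have : (z + Real.sqrt Z) * (z - Real.sqrt Z) = Z * (z ^ 2 / Z - 1) := by
      have e3 : Z * (z ^ 2 / Z - 1) = z ^ 2 - Z := by
        field_simp
      rw [e3]
      linear_combination (-1 : ℝ) * e2
    rw [this, abs_mul, abs_of_pos hZ]
  unfold F W
  calc _ = (|z + Real.sqrt (1 + Z + r)| * |z - Real.sqrt (1 + Z + r)|) ^ nn r m *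
        (|z + Real.sqrt Z| * |z - Real.sqrt Z|) ^ m *
        (|z + Real.sqrt (1 + Z + r)| ^ d1 * |z + Real.sqrt Z| ^ d2 * |z - Real.sqrt Z| ^ d3 *
          |z - Real.sqrt (1 + Z + r)| ^ d4) := by ring
    _ = _ := by
        rw [h1, h2, mul_pow, mul_pow]
        ring

/-- the values at the two critical points, as exponentials -/
theorem W_left (hr : 0 < r) (hZ : 0 < Z) (d1 d2 d3 d4 : ℕ) :
    W (Real.sqrt (1 + Z + r)) (Real.sqrt Z) d1 d2 d3 d4 (-Real.sqrt (1 + Z)) =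
      exp (d1 * la r Z + d2 * lg Z + d3 * le Z + d4 * lb r Z) *
        W (Real.sqrt (1 + Z + r)) (Real.sqrt Z) d1 d2 d3 d4 0 := by
  have h1 := ct_pos hr hZ
  have h2 := ts_pos hZ
  have h3 : 0 < Real.sqrt (1 + Z + r) := Real.sqrt_pos.2 (by positivity)
  have h4 : 0 < Real.sqrt Z := Real.sqrt_pos.2 hZ
  have h5 : 0 < Real.sqrt (1 + Z) := Real.sqrt_pos.2 (by positivity)
  unfold W la lb lg le
  rw [Real.exp_add, Real.exp_add, Real.exp_add, Real.exp_nat_mul, Real.exp_nat_mul, Real.exp_nat_mul,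
    Real.exp_nat_mul, Real.exp_log (by positivity), Real.exp_log (by positivity), Real.exp_log (by positivity),
    Real.exp_log (by positivity)]
  rw [show -Real.sqrt (1 + Z) + Real.sqrt (1 + Z + r) = Real.sqrt (1 + Z + r) - Real.sqrt (1 + Z) by ring,
    abs_of_pos h1, show -Real.sqrt (1 + Z) + Real.sqrt Z = -(Real.sqrt (1 + Z) - Real.sqrt Z) by ring, abs_neg,
    abs_of_pos h2, show -Real.sqrt (1 + Z) - Real.sqrt Z = -(Real.sqrt (1 + Z) + Real.sqrt Z) by ring, abs_neg,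
    abs_of_pos (by positivity : 0 < Real.sqrt (1 + Z) + Real.sqrt Z),
    show -Real.sqrt (1 + Z) - Real.sqrt (1 + Z + r) = -(Real.sqrt (1 + Z + r) + Real.sqrt (1 + Z)) by ring, abs_neg,
    abs_of_pos (by positivity : 0 < Real.sqrt (1 + Z + r) + Real.sqrt (1 + Z))]
  rw [zero_add, zero_add, zero_sub, zero_sub, abs_neg, abs_neg, abs_of_pos h3, abs_of_pos h4]
  rw [div_pow, div_pow, div_pow, div_pow]
  field_simp

theorem W_right (hr : 0 < r) (hZ : 0 < Z) (d1 d2 d3 d4 : ℕ) :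
    W (Real.sqrt (1 + Z + r)) (Real.sqrt Z) d1 d2 d3 d4 (Real.sqrt (1 + Z)) =
      exp (d1 * lb r Z + d2 * le Z + d3 * lg Z + d4 * la r Z) *
        W (Real.sqrt (1 + Z + r)) (Real.sqrt Z) d1 d2 d3 d4 0 := by
  have h1 := ct_pos hr hZ
  have h2 := ts_pos hZ
  have h3 : 0 < Real.sqrt (1 + Z + r) := Real.sqrt_pos.2 (by positivity)
  have h4 : 0 < Real.sqrt Z := Real.sqrt_pos.2 hZ
  have h5 : 0 < Real.sqrt (1 + Z) := Real.sqrt_pos.2 (by positivity)
  unfold W la lb lg le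
  rw [Real.exp_add, Real.exp_add, Real.exp_add, Real.exp_nat_mul, Real.exp_nat_mul, Real.exp_nat_mul,
    Real.exp_nat_mul, Real.exp_log (by positivity), Real.exp_log (by positivity), Real.exp_log (by positivity),
    Real.exp_log (by positivity)]
  rw [show Real.sqrt (1 + Z) + Real.sqrt (1 + Z + r) = Real.sqrt (1 + Z + r) + Real.sqrt (1 + Z) by ring,
    abs_of_pos (by positivity : 0 < Real.sqrt (1 + Z + r) + Real.sqrt (1 + Z)),
    abs_of_pos (by positivity : 0 < Real.sqrt (1 + Z) + Real.sqrt Z),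
    abs_of_pos h2, show Real.sqrt (1 + Z) - Real.sqrt (1 + Z + r) = -(Real.sqrt (1 + Z + r) - Real.sqrt (1 + Z)) by ring,
    abs_neg, abs_of_pos h1]
  rw [zero_add, zero_add, zero_sub, zero_sub, abs_neg, abs_neg, abs_of_pos h3, abs_of_pos h4]
  rw [div_pow, div_pow, div_pow, div_pow]
  field_simp

theorem W_zero_pos (hr : 0 < r) (hZ : 0 < Z) (d1 d2 d3 d4 : ℕ) :
    0 < W (Real.sqrt (1 + Z + r)) (Real.sqrt Z) d1 d2 d3 d4 0 := by
  have h3 : 0 < Real.sqrt (1 + Z + r) := Real.sqrt_pos.2 (by positivity)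
  have h4 : 0 < Real.sqrt Z := Real.sqrt_pos.2 hZ
  unfold W
  rw [zero_add, zero_add, zero_sub, zero_sub, abs_neg, abs_neg, abs_of_pos h3, abs_of_pos h4]
  positivity

/-- the three integrals of the derivative polynomial -/
theorem integrals (hr : 0 < r) (hZ : 0 < Z) (m d1 d2 d3 d4 : ℕ) (hm : Even m) :
    ∃ κ : ℝ, κ ≠ 0 ∧
    (∫ z in (-Real.sqrt (1 + Z + r))..(-Real.sqrt Z), (PP (Real.sqrt (1 + Z + r)) (Real.sqrt Z)
      (nn r m + d1) (m + d2) (m + d3) (nn r m + d4)).eval z) = κ * (-1) ^ d2 *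
        ∫ z in (Real.sqrt Z)..(Real.sqrt (1 + Z + r)), F r Z m z * W (Real.sqrt (1 + Z + r)) (Real.sqrt Z) d1 d2 d3 d4 (-z) ∧
    (∫ z in (-Real.sqrt Z)..(Real.sqrt Z), (PP (Real.sqrt (1 + Z + r)) (Real.sqrt Z)
      (nn r m + d1) (m + d2) (m + d3) (nn r m + d4)).eval z) = κ *
        ∫ z in (-Real.sqrt Z)..(Real.sqrt Z), F r Z m z * W (Real.sqrt (1 + Z + r)) (Real.sqrt Z) d1 d2 d3 d4 z ∧
    (∫ z in (Real.sqrt Z)..(Real.sqrt (1 + Z + r)), (PP (Real.sqrt (1 + Z + r)) (Real.sqrt Z)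
      (nn r m + d1) (m + d2) (m + d3) (nn r m + d4)).eval z) = κ * (-1) ^ d3 *
        ∫ z in (Real.sqrt Z)..(Real.sqrt (1 + Z + r)), F r Z m z * W (Real.sqrt (1 + Z + r)) (Real.sqrt Z) d1 d2 d3 d4 z := by
  set c := Real.sqrt (1 + Z + r) with hc
  set s := Real.sqrt Z with hs
  have hsc : s < c := s_lt_c hr hZ
  have hs0 : 0 < s := Real.sqrt_pos.2 hZ
  have hm1 : (-1 : ℝ) ^ m = 1 := hm.neg_one_pow
  have habs := fun z => abs_prod hr hZ m d1 d2 d3 d4 z
  rw [← hc, ← hs] at habs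
  have hd3 : (-1 : ℝ) ^ d3 * (-1) ^ d3 = 1 := by
    rw [← mul_pow]; norm_num
  refine ⟨(-1) ^ (nn r m + d4) * (-1) ^ d3 * ((1 + Z + r) ^ nn r m * Z ^ m), by positivity, ?_, ?_, ?_⟩
  · have e1 : ∫ z in (-c)..(-s), (PP c s (nn r m + d1) (m + d2) (m + d3) (nn r m + d4)).eval z =
        ∫ z in s..c, (PP c s (nn r m + d1) (m + d2) (m + d3) (nn r m + d4)).eval (-z) := by
      rw [intervalIntegral.integral_comp_neg (fun z => (PP c s (nn r m + d1) (m + d2) (m + d3) (nn r m + d4)).eval z)]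
    rw [e1, ← intervalIntegral.integral_const_mul]
    apply intervalIntegral.integral_congr
    intro z hz
    rw [uIcc_of_le hsc.le] at hz
    dsimp only
    rw [PP_eval, pow_abs_neg (by linarith [hz.1] : -z + s ≤ 0), pow_abs_neg (by linarith [hz.1] : -z - s ≤ 0),
      pow_abs_neg (by linarith [hz.1] : -z - c ≤ 0)]
    have e2 : -z + c = |-z + c| := by rw [abs_of_nonneg (by linarith [hz.2])]
    rw [e2]
    have := habs (-z)
    rw [F_neg] at this
    calc _ = (-1) ^ (nn r m + d4) * ((-1) ^ m * (-1) ^ d2) * ((-1) ^ m * (-1) ^ d3) *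
          (|-z + c| ^ (nn r m + d1) * |-z + s| ^ (m + d2) * |-z - s| ^ (m + d3) * |-z - c| ^ (nn r m + d4)) := by
            rw [← pow_add, ← pow_add]
            ring_nf
      _ = _ := by
        rw [this, hm1]
        ring
  · rw [← intervalIntegral.integral_const_mul]
    apply intervalIntegral.integral_congr
    intro z hz
    rw [uIcc_of_le (by linarith)] at hz
    dsimp only
    rw [PP_eval, pow_abs_neg (by linarith [hz.2] : z - s ≤ 0), pow_abs_neg (by linarith [hz.2] : z - c ≤ 0)]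
    have e2 : z + c = |z + c| := by rw [abs_of_nonneg (by linarith [hz.1])]
    have e3 : z + s = |z + s| := by rw [abs_of_nonneg (by linarith [hz.1])]
    rw [e2, e3]
    have := habs z
    calc _ = (-1) ^ (nn r m + d4) * ((-1) ^ m * (-1) ^ d3) *
          (|z + c| ^ (nn r m + d1) * |z + s| ^ (m + d2) * |z - s| ^ (m + d3) * |z - c| ^ (nn r m + d4)) := by
            rw [← pow_add]
            ring_nf
      _ = _ := by
        rw [this, hm1]
        ring
  · rw [← intervalIntegral.integral_const_mul]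
    apply intervalIntegral.integral_congr
    intro z hz
    rw [uIcc_of_le hsc.le] at hz
    dsimp only
    rw [PP_eval, pow_abs_neg (by linarith [hz.2] : z - c ≤ 0)]
    have e2 : z + c = |z + c| := by rw [abs_of_nonneg (by linarith [hz.1])]
    have e3 : z + s = |z + s| := by rw [abs_of_nonneg (by linarith [hz.1])]
    have e4 : z - s = |z - s| := by rw [abs_of_nonneg (by linarith [hz.1])]
    rw [e2, e3, e4]
    have := habs z
    calc _ = (-1) ^ (nn r m + d4) *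
          (|z + c| ^ (nn r m + d1) * |z + s| ^ (m + d2) * |z - s| ^ (m + d3) * |z - c| ^ (nn r m + d4)) := by
            ring
      _ = (-1) ^ (nn r m + d4) * ((-1) ^ d3 * (-1) ^ d3) *
          (|z + c| ^ (nn r m + d1) * |z + s| ^ (m + d2) * |z - s| ^ (m + d3) * |z - c| ^ (nn r m + d4)) := by
            rw [hd3, mul_one]
      _ = _ := by
        rw [this]
        ring

end Pool.Agent.V1180.CP
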