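import Pool.Agent.V1180.CPf

set_option autoImplicit false

/-!
# Final approximation on the four-point set
-/

namespace Pool.Agent.V1180.CP

open Real MeasureTheory Filter Topology Set Polynomial

theorem exists_ne_near (d η : ℝ) (hη : 0 < η) : ∃ d' : ℝ, d' ≠ 0 ∧ |d' - d| < η := by
  by_cases h : d = 0
  · refine ⟨η / 2, by positivity, ?_⟩
    rw [h, sub_zero, abs_of_pos (by positivity)]
    linarith
  · exact ⟨d, h, by simpa using hη⟩

theorem exists_exp_near {t : ℝ} (ht : 0 < t) {ρ : ℝ} (hρ : 0 < ρ) {η : ℝ} (hη : 0 < η) :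
    ∃ δ : ℝ, 0 < δ ∧ ∀ x : ℝ, |x - log (t / ρ)| < δ → |ρ * exp x - t| < η := by
  have hc : ContinuousAt (fun x : ℝ => ρ * exp x) (log (t / ρ)) := by fun_prop
  obtain ⟨δ, hδ, h⟩ := Metric.continuousAt_iff.1 hc η hη
  refine ⟨δ, hδ, fun x hx => ?_⟩
  have h1 := h (by rw [Real.dist_eq]; exact hx)
  rw [Real.dist_eq, Real.exp_log (by positivity)] at h1
  have : ρ * (t / ρ) = t := by field_simp
  rwa [this] at h1

/-- sign bookkeeping -/
theorem sign_par {R : ℝ} (hR : R ≠ 0) : ∃ p : ℕ, ∀ d : ℕ, (-1 : ℝ) ^ (p + 2 * d) * |R| = R := by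
  rcases lt_or_gt_of_ne hR with h | h
  · refine ⟨1, fun d => ?_⟩
    rw [pow_add, pow_mul]
    norm_num
    rw [abs_of_neg h, neg_neg]
  · refine ⟨0, fun d => ?_⟩
    rw [pow_add, pow_mul]
    norm_num
    exact h.le

/-- **Two prescribed quotients of increments.** -/
theorem quotients {r Z : ℝ} (hr : 0 < r) (hZ : 0 < Z) (heq : r * log ((r + 1 + Z) / r) + log Z = 0)
    (hA : la r Z + lb r Z < 0) (hC : 0 < lg Z + le Z) (h1 : Irrational ((lg Z + le Z) / (la r Z + lb r Z)))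
    (h2 : Irrational ((la r Z - lb r Z) / (lg Z - le Z))) {R1 R3 : ℝ} (hR1 : R1 ≠ 0) (hR3 : R3 ≠ 0)
    {η : ℝ} (hη : 0 < η) :
    ∃ k1 k2 k3 k4 : ℕ,
      (∫ z in (-Real.sqrt Z)..(Real.sqrt Z), (PP (Real.sqrt (1 + Z + r)) (Real.sqrt Z) k1 k2 k3 k4).eval z) ≠ 0 ∧
      |(∫ z in (-Real.sqrt (1 + Z + r))..(-Real.sqrt Z), (PP (Real.sqrt (1 + Z + r)) (Real.sqrt Z) k1 k2 k3 k4).eval z) /
        (∫ z in (-Real.sqrt Z)..(Real.sqrt Z), (PP (Real.sqrt (1 + Z + r)) (Real.sqrt Z) k1 k2 k3 k4).eval z) - R1| < η ∧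
      |(∫ z in (Real.sqrt Z)..(Real.sqrt (1 + Z + r)), (PP (Real.sqrt (1 + Z + r)) (Real.sqrt Z) k1 k2 k3 k4).eval z) /
        (∫ z in (-Real.sqrt Z)..(Real.sqrt Z), (PP (Real.sqrt (1 + Z + r)) (Real.sqrt Z) k1 k2 k3 k4).eval z) - R3| < η := by
  obtain ⟨ρ, φ, hρ, hφ, hlim⟩ := subseq hr hZ heq
  obtain ⟨p, hp⟩ := sign_par hR1
  obtain ⟨q, hq⟩ := sign_par hR3
  obtain ⟨δ1, hδ1, hx1⟩ := exists_exp_near (abs_pos.2 hR1) hρ (η := η / 2) (by positivity)
  obtain ⟨δ3, hδ3, hx3⟩ := exists_exp_near (abs_pos.2 hR3) hρ (η := η / 2) (by positivity)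
  obtain ⟨d1, d2', d3', d4, hd1, hd3⟩ := plane_dense hA hC h1 h2 p q (log (|R1| / ρ)) (log (|R3| / ρ))
    (min δ1 δ3) (lt_min hδ1 hδ3)
  have hy1 := hx1 _ (hd1.trans_le (min_le_left _ _))
  have hy3 := hx3 _ (hd3.trans_le (min_le_right _ _))
  set d2 := p + 2 * d2' with hd2
  set d3 := q + 2 * d3' with hd3e
  set c := Real.sqrt (1 + Z + r) with hc
  set s := Real.sqrt Z with hs
  have hs0 : 0 < s := Real.sqrt_pos.2 hZ
  have hW := W_cont c s d1 d2 d3 d4
  have hW0 := W_zero_pos hr hZ d1 d2 d3 d4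
  rw [← hc, ← hs] at hW0
  -- limits
  have hsub : Tendsto (fun k => 2 * φ k) atTop atTop :=
    (hφ.tendsto_atTop).const_mul_atTop' (by norm_num)
  have l2 := (lim_in hr hZ hW).comp hsub
  have l3 := (lim_out hr hZ heq hW).comp hsub
  have l1 := (lim_out hr hZ heq (w := fun z => W c s d1 d2 d3 d4 (-z)) (hW.comp continuous_neg)).comp hsub
  rw [← hs] at l2
  rw [← hs, ← hc] at l1 l3
  have hWl := W_left hr hZ d1 d2 d3 d4
  have hWr := W_right hr hZ d1 d2 d3 d4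
  rw [← hc, ← hs] at hWl hWr
  have L3 : Tendsto (fun k => (∫ z in s..c, F r Z (2 * φ k) z * W c s d1 d2 d3 d4 z) /
      ∫ z in (-s)..s, F r Z (2 * φ k) z * W c s d1 d2 d3 d4 z) atTop
      (𝓝 (ρ * exp (d1 * lb r Z + d2 * le Z + d3 * lg Z + d4 * la r Z))) := by
    have := (l3.mul hlim).div l2 hW0.ne'
    rw [hWr] at this
    have e : exp (d1 * lb r Z + d2 * le Z + d3 * lg Z + d4 * la r Z) * W c s d1 d2 d3 d4 0 * ρ / W c s d1 d2 d3 d4 0 =
        ρ * exp (d1 * lb r Z + d2 * le Z + d3 * lg Z + d4 * la r Z) := by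
      field_simp
    rw [e] at this
    refine this.congr' ?_
    filter_upwards [eventually_ge_atTop 1] with k hk
    have hk1 : 1 ≤ 2 * φ k := by
      have := hφ.le_apply (x := k)
      omega
    have a1 := low_in hr hZ _ hk1
    have a2 := low_out hr hZ heq _ hk1
    rw [← hs] at a1
    rw [← hs, ← hc] at a2
    have hkR : (0 : ℝ) < Real.sqrt ((2 * φ k : ℕ) : ℝ) := Real.sqrt_pos.2 (by exact_mod_cast hk1)
    have b1 : 0 < ∫ z in (-s)..s, F r Z (2 * φ k) z := lt_of_lt_of_le (by positivity) a1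
    have b2 : 0 < ∫ z in s..c, F r Z (2 * φ k) z := lt_of_lt_of_le (div_pos (c0_pos hr hZ) hkR) a2
    simp only [Pi.mul_apply, Pi.div_apply, Function.comp, rho]
    rw [← hs, ← hc]
    rcases eq_or_ne (∫ z in (-s)..s, F r Z (2 * φ k) z * W c s d1 d2 d3 d4 z) 0 with h0 | h0
    · rw [h0]
      simp
    · field_simp
  have L1 : Tendsto (fun k => (∫ z in s..c, F r Z (2 * φ k) z * W c s d1 d2 d3 d4 (-z)) /
      ∫ z in (-s)..s, F r Z (2 * φ k) z * W c s d1 d2 d3 d4 z) atTop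
      (𝓝 (ρ * exp (d1 * la r Z + d2 * lg Z + d3 * le Z + d4 * lb r Z))) := by
    have := (l1.mul hlim).div l2 hW0.ne'
    rw [hWl] at this
    have e : exp (d1 * la r Z + d2 * lg Z + d3 * le Z + d4 * lb r Z) * W c s d1 d2 d3 d4 0 * ρ / W c s d1 d2 d3 d4 0 =
        ρ * exp (d1 * la r Z + d2 * lg Z + d3 * le Z + d4 * lb r Z) := by
      field_simp
    rw [e] at this
    refine this.congr' ?_
    filter_upwards [eventually_ge_atTop 1] with k hk
    have hk1 : 1 ≤ 2 * φ k := by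
      have := hφ.le_apply (x := k)
      omega
    have a1 := low_in hr hZ _ hk1
    have a2 := low_out hr hZ heq _ hk1
    rw [← hs] at a1
    rw [← hs, ← hc] at a2
    have hkR : (0 : ℝ) < Real.sqrt ((2 * φ k : ℕ) : ℝ) := Real.sqrt_pos.2 (by exact_mod_cast hk1)
    have b1 : 0 < ∫ z in (-s)..s, F r Z (2 * φ k) z := lt_of_lt_of_le (by positivity) a1
    have b2 : 0 < ∫ z in s..c, F r Z (2 * φ k) z := lt_of_lt_of_le (div_pos (c0_pos hr hZ) hkR) a2
    simp only [Pi.mul_apply, Pi.div_apply, Function.comp, rho]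
    rw [← hs, ← hc]
    rcases eq_or_ne (∫ z in (-s)..s, F r Z (2 * φ k) z * W c s d1 d2 d3 d4 z) 0 with h0 | h0
    · rw [h0]
      simp
    · field_simp
  have E1 := (Metric.tendsto_nhds.1 L1) (η / 2) (by positivity)
  have E3 := (Metric.tendsto_nhds.1 L3) (η / 2) (by positivity)
  have E2 := l2.eventually (lt_mem_nhds hW0)
  obtain ⟨k, hk1, hk3, hk2⟩ := (E1.and (E3.and E2)).exists
  set m := 2 * φ k with hm
  obtain ⟨κ, hκ, i1, i2, i3⟩ := integrals hr hZ m d1 d2 d3 d4 (even_two_mul _)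
  rw [← hs, ← hc] at i1 i2 i3
  have hne : (∫ z in (-s)..s, F r Z m z * W c s d1 d2 d3 d4 z) ≠ 0 := by
    intro h0
    simp only [Function.comp] at hk2
    rw [h0, zero_div] at hk2
    exact lt_irrefl _ hk2
  refine ⟨nn r m + d1, m + d2, m + d3, nn r m + d4, ?_, ?_, ?_⟩
  · rw [i2]
    exact mul_ne_zero hκ hne
  · rw [i1, i2]
    have e : κ * (-1) ^ d2 * (∫ z in s..c, F r Z m z * W c s d1 d2 d3 d4 (-z)) /
        (κ * ∫ z in (-s)..s, F r Z m z * W c s d1 d2 d3 d4 z) =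
        (-1) ^ d2 * ((∫ z in s..c, F r Z m z * W c s d1 d2 d3 d4 (-z)) /
          ∫ z in (-s)..s, F r Z m z * W c s d1 d2 d3 d4 z) := by
      field_simp
    rw [e, ← hp d2', ← hd2, ← mul_sub, abs_mul, abs_pow, abs_neg, abs_one, one_pow, one_mul]
    rw [Real.dist_eq] at hk1
    calc _ ≤ _ := abs_sub_le _ (ρ * exp (d1 * la r Z + d2 * lg Z + d3 * le Z + d4 * lb r Z)) _
      _ < η := by linarith
  · rw [i3, i2]
    have e : κ * (-1) ^ d3 * (∫ z in s..c, F r Z m z * W c s d1 d2 d3 d4 z) /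
        (κ * ∫ z in (-s)..s, F r Z m z * W c s d1 d2 d3 d4 z) =
        (-1) ^ d3 * ((∫ z in s..c, F r Z m z * W c s d1 d2 d3 d4 z) /
          ∫ z in (-s)..s, F r Z m z * W c s d1 d2 d3 d4 z) := by
      field_simp
    rw [e, ← hq d3', ← hd3e, ← mul_sub, abs_mul, abs_pow, abs_neg, abs_one, one_pow, one_mul]
    rw [Real.dist_eq] at hk3
    calc _ ≤ _ := abs_sub_le _ (ρ * exp (d1 * lb r Z + d2 * le Z + d3 * lg Z + d4 * la r Z)) _
      _ < η := by linarith

/-- **Main theorem.** -/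
theorem main : ∃ s c : ℝ, 0 < s ∧ s < c ∧ ∀ (f : ℝ → ℝ) (ε : ℝ), 0 < ε →
    ∃ p : ℝ[X], (∀ z : ℂ, aeval z (derivative p) = 0 → ∃ x ∈ ({-c, -s, s, c} : Set ℝ), z = ((x : ℝ) : ℂ)) ∧
      ∀ x ∈ ({-c, -s, s, c} : Set ℝ), |p.eval x - f x| < ε := by
  obtain ⟨r, Z, hr, hZ, heq, hA, hC, h1, h2⟩ := params
  refine ⟨Real.sqrt Z, Real.sqrt (1 + Z + r), Real.sqrt_pos.2 hZ, s_lt_c hr hZ, ?_⟩
  intro f ε hε
  have hQ := fun {R1 R3 : ℝ} (hR1 : R1 ≠ 0) (hR3 : R3 ≠ 0) {η : ℝ} (hη : 0 < η) =>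
    quotients hr hZ heq hA hC h1 h2 hR1 hR3 hη
  set s := Real.sqrt Z with hs
  set c := Real.sqrt (1 + Z + r) with hc
  obtain ⟨e1, he1, he1'⟩ := exists_ne_near (f (-s) - f (-c)) (ε / 6) (by positivity)
  obtain ⟨e2, he2, he2'⟩ := exists_ne_near (f s - f (-s)) (ε / 6) (by positivity)
  obtain ⟨e3, he3, he3'⟩ := exists_ne_near (f c - f s) (ε / 6) (by positivity)
  have hη : 0 < ε / 6 / |e2| := div_pos (by positivity) (abs_pos.2 he2)
  obtain ⟨k1, k2, k3, k4, hI2, hI1, hI3⟩ := hQ (div_ne_zero he1 he2) (div_ne_zero he3 he2) hη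
  set P := PP c s k1 k2 k3 k4 with hP
  obtain ⟨p0, hp0⟩ := exists_antideriv P
  have hint : ∀ a b : ℝ, ∫ z in a..b, P.eval z = p0.eval b - p0.eval a := by
    intro a b
    apply intervalIntegral.integral_eq_sub_of_hasDerivAt
    · intro x _
      rw [← hp0]
      exact p0.hasDerivAt x
    · exact P.continuous.intervalIntegrable _ _
  set I1 := ∫ z in (-c)..(-s), P.eval z with hI1e
  set I2 := ∫ z in (-s)..s, P.eval z with hI2e
  set I3 := ∫ z in s..c, P.eval z with hI3e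
  set α := e2 / I2 with hα
  have hα0 : α ≠ 0 := div_ne_zero he2 hI2
  set p := Polynomial.C α * p0 + Polynomial.C (f (-c) - α * p0.eval (-c)) with hp
  have hev : ∀ x, p.eval x = f (-c) + α * (p0.eval x - p0.eval (-c)) := by
    intro x
    rw [hp]
    simp
    ring
  have t1 : |α * I1 - (f (-s) - f (-c))| < ε / 3 := by
    have a1 : |α * I1 - e1| < ε / 6 := by
      have : α * I1 - e1 = e2 * (I1 / I2 - e1 / e2) := by
        rw [hα]
        field_simp
      rw [this, abs_mul]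
      calc |e2| * |I1 / I2 - e1 / e2| < |e2| * (ε / 6 / |e2|) := mul_lt_mul_of_pos_left hI1 (abs_pos.2 he2)
        _ = ε / 6 := by
          have := abs_pos.2 he2
          field_simp
    calc _ ≤ _ := abs_sub_le _ e1 _
      _ < ε / 3 := by linarith
  have t3 : |α * I3 - (f c - f s)| < ε / 3 := by
    have a1 : |α * I3 - e3| < ε / 6 := by
      have : α * I3 - e3 = e2 * (I3 / I2 - e3 / e2) := by
        rw [hα]
        field_simp
      rw [this, abs_mul]
      calc |e2| * |I3 / I2 - e3 / e2| < |e2| * (ε / 6 / |e2|) := mul_lt_mul_of_pos_left hI3 (abs_pos.2 he2)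
        _ = ε / 6 := by
          have := abs_pos.2 he2
          field_simp
    calc _ ≤ _ := abs_sub_le _ e3 _
      _ < ε / 3 := by linarith
  have t2 : |α * I2 - (f s - f (-s))| < ε / 3 := by
    have : α * I2 = e2 := by
      rw [hα]
      field_simp
    rw [this]
    linarith
  have j1 : I1 = p0.eval (-s) - p0.eval (-c) := hint _ _
  have j2 : I2 = p0.eval s - p0.eval (-s) := hint _ _
  have j3 : I3 = p0.eval c - p0.eval s := hint _ _
  refine ⟨p, ?_, ?_⟩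
  · intro z hz
    have hd : derivative p = Polynomial.C α * P := by
      rw [hp, derivative_add, derivative_C, add_zero, derivative_C_mul, hp0]
    rw [hd, map_mul, aeval_C, mul_eq_zero] at hz
    rcases hz with hz | hz
    · exact absurd ((map_eq_zero (algebraMap ℝ ℂ)).1 hz) hα0
    · rcases PP_roots _ _ _ _ _ _ _ hz with h | h | h | h
      · exact ⟨-c, by simp, h⟩
      · exact ⟨-s, by simp, h⟩
      · exact ⟨s, by simp, h⟩
      · exact ⟨c, by simp, h⟩
  · intro x hx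
    rw [hev]
    simp only [mem_insert_iff, mem_singleton_iff] at hx
    rw [abs_lt] at t1 t2 t3 ⊢
    rcases hx with rfl | rfl | rfl | rfl
    · constructor <;> simp <;> linarith
    · rw [← j1]
      constructor <;> linarith [t1.1, t1.2]
    · have : p0.eval s - p0.eval (-c) = I1 + I2 := by rw [j1, j2]; ring
      rw [this, mul_add]
      constructor <;> linarith [t1.1, t1.2, t2.1, t2.2]
    · have : p0.eval c - p0.eval (-c) = I1 + I2 + I3 := by rw [j1, j2, j3]; ring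
      rw [this, mul_add, mul_add]
      constructor <;> linarith [t1.1, t1.2, t2.1, t2.2, t3.1, t3.2]

end Pool.Agent.V1180.CP
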