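import Mathlib

set_option autoImplicit false

/-!
# The fractional Laplacian of a test function on the line
-/

namespace Pool.Agent.V1180.FS

open Real MeasureTheory Filter Topology Set

/-- second difference -/
def sd (g : ℝ → ℝ) (x h : ℝ) : ℝ := 2 * g x - g (x + h) - g (x - h)

/-- the fractional Laplacian (principal value, written with second differences) -/
noncomputable def fl (s : ℝ) (g : ℝ → ℝ) (x : ℝ) : ℝ :=
  ∫ h in Ioi (0:ℝ), (2 * g x - g (x + h) - g (x - h)) / h ^ (1 + 2 * s)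

theorem fl_eq (s : ℝ) (g : ℝ → ℝ) (x : ℝ) : fl s g x = ∫ h in Ioi (0:ℝ), sd g x h / h ^ (1 + 2 * s) := rfl

theorem cd1 {g : ℝ → ℝ} (hg : ContDiff ℝ 2 g) : ContDiff ℝ 1 (deriv g) := by
  have h : ContDiff ℝ (1 + 1) g := by
    rw [one_add_one_eq_two]
    exact hg
  exact h.deriv'

/-- local bound of the second difference -/
theorem sd_le {g : ℝ → ℝ} (hg : ContDiff ℝ 2 g) {x h M : ℝ} (hh : 0 ≤ h)
    (hM : ∀ y ∈ Icc (x - h) (x + h), |deriv (deriv g) y| ≤ M) : |sd g x h| ≤ M * h ^ 2 := by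
  have hd : Differentiable ℝ g := hg.differentiable (by norm_num)
  have hd2 : Differentiable ℝ (deriv g) := (cd1 hg).differentiable (by norm_num)
  have hder : ∀ t : ℝ, HasDerivAt (fun t => g (x + t) + g (x - t)) (deriv g (x + t) - deriv g (x - t)) t := by
    intro t
    have h1 : HasDerivAt (fun t => g (x + t)) (deriv g (x + t)) t :=
      HasDerivAt.congr_deriv (HasDerivAt.comp t (hd (x + t)).hasDerivAt ((hasDerivAt_id' t).const_add x)) (by ring)
    have h2 : HasDerivAt (fun t => g (x - t)) (-deriv g (x - t)) t :=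
      HasDerivAt.congr_deriv (HasDerivAt.comp t (hd (x - t)).hasDerivAt ((hasDerivAt_id' t).const_sub x)) (by ring)
    exact h1.add h2
  have hb : ∀ t ∈ Ico (0:ℝ) h, |deriv g (x + t) - deriv g (x - t)| ≤ 2 * M * t := by
    intro t ht
    have hsub : Icc (x - t) (x + t) ⊆ Icc (x - h) (x + h) := Icc_subset_Icc (by linarith [ht.2]) (by linarith [ht.2])
    have := (convex_Icc (x - t) (x + t)).norm_image_sub_le_of_norm_hasDerivWithin_le
      (f := deriv g) (f' := deriv (deriv g)) (C := M)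
      (fun y _ => (hd2 y).hasDerivAt.hasDerivWithinAt) (fun y hy => hM y (hsub hy))
      (⟨le_rfl, by linarith [ht.1]⟩ : x - t ∈ Icc (x - t) (x + t)) (⟨by linarith [ht.1], le_rfl⟩ : x + t ∈ Icc (x - t) (x + t))
    rw [Real.norm_eq_abs, Real.norm_eq_abs] at this
    have e : |x + t - (x - t)| = 2 * t := by
      rw [show x + t - (x - t) = 2 * t by ring, abs_of_nonneg (by linarith [ht.1])]
    rw [e] at this
    linarith
  have key := image_norm_le_of_norm_deriv_right_le_deriv_boundary (E := ℝ) (a := 0) (b := h)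
    (f := fun t => g (x + t) + g (x - t) - 2 * g x) (f' := fun t => deriv g (x + t) - deriv g (x - t))
    (B := fun t => M * t ^ 2) (B' := fun t => 2 * M * t)
    (fun t _ => ((hder t).sub_const _).continuousAt.continuousWithinAt)
    (fun t _ => ((hder t).sub_const _).hasDerivWithinAt)
    (by
      simp only [add_zero, sub_zero]
      rw [show g x + g x - 2 * g x = 0 by ring]
      simp)
    (fun t => HasDerivAt.congr_deriv ((hasDerivAt_pow 2 t).const_mul M) (by push_cast; ring))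
    (fun t ht => by
      rw [Real.norm_eq_abs]
      exact hb t ht)
    (⟨hh, le_rfl⟩ : h ∈ Icc 0 h)
  rw [Real.norm_eq_abs] at key
  unfold sd
  rw [show 2 * g x - g (x + h) - g (x - h) = -(g (x + h) + g (x - h) - 2 * g x) by ring, abs_neg]
  exact key

/-- a dominating function -/
noncomputable def bnd (s e M S : ℝ) (h : ℝ) : ℝ := if h ≤ e then M * h ^ (1 - 2 * s) else S * h ^ (-(1 + 2 * s))

theorem bnd_int {s e M S : ℝ} (hs : 0 < s) (hs1 : s < 1) (he : 0 < e) : IntegrableOn (bnd s e M S) (Ioi 0) := by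
  have h1 : Ioi (0:ℝ) = Ioc 0 e ∪ Ioi e := (Ioc_union_Ioi_eq_Ioi he.le).symm
  rw [h1, integrableOn_union]
  constructor
  · have : IntegrableOn (fun h : ℝ => M * h ^ (1 - 2 * s)) (Ioc 0 e) := by
      rw [← intervalIntegrable_iff_integrableOn_Ioc_of_le he.le]
      exact (intervalIntegral.intervalIntegrable_rpow' (by linarith)).const_mul M
    refine this.congr_fun (fun h hh => ?_) measurableSet_Ioc
    unfold bnd
    rw [if_pos hh.2]
  · have : IntegrableOn (fun h : ℝ => S * h ^ (-(1 + 2 * s))) (Ioi e) :=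
      (integrableOn_Ioi_rpow_of_lt (by linarith) he).const_mul S
    refine this.congr_fun (fun h hh => ?_) measurableSet_Ioi
    unfold bnd
    rw [if_neg (not_le.2 hh)]

theorem bnd_integral {s e M S : ℝ} (hs : 0 < s) (hs1 : s < 1) (he : 0 < e) :
    ∫ h in Ioi (0:ℝ), bnd s e M S h = M * (e ^ (2 - 2 * s) / (2 - 2 * s)) + S * (e ^ (-(2 * s)) / (2 * s)) := by
  have h1 : Ioi (0:ℝ) = Ioc 0 e ∪ Ioi e := (Ioc_union_Ioi_eq_Ioi he.le).symm
  have hi := bnd_int (M := M) (S := S) hs hs1 he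
  rw [h1, setIntegral_union (Set.Ioc_disjoint_Ioi le_rfl) measurableSet_Ioi
    (hi.mono_set (fun x hx => hx.1)) (hi.mono_set (fun x hx => lt_trans he hx))]
  congr 1
  · have : ∫ h in Ioc 0 e, bnd s e M S h = ∫ h in Ioc 0 e, M * h ^ (1 - 2 * s) := by
      apply setIntegral_congr_fun measurableSet_Ioc
      intro h hh
      unfold bnd
      rw [if_pos hh.2]
    rw [this, integral_const_mul, ← intervalIntegral.integral_of_le he.le, integral_rpow (Or.inl (by linarith))]
    rw [show 1 - 2 * s + 1 = 2 - 2 * s by ring, Real.zero_rpow (by linarith), sub_zero]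
  · have : ∫ h in Ioi e, bnd s e M S h = ∫ h in Ioi e, S * h ^ (-(1 + 2 * s)) := by
      apply setIntegral_congr_fun measurableSet_Ioi
      intro h hh
      unfold bnd
      rw [if_neg (not_le.2 hh)]
    rw [this, integral_const_mul, integral_Ioi_rpow_of_lt (by linarith) he]
    rw [show -(1 + 2 * s) + 1 = -(2 * s) by ring]
    ring

/-- pointwise domination -/
theorem sd_dom {s e M S : ℝ} {g : ℝ → ℝ} {x h : ℝ} (hh : 0 < h) (h1 : h ≤ e → sd g x h ≤ M * h ^ 2)
    (h2 : e < h → sd g x h ≤ S) : sd g x h / h ^ (1 + 2 * s) ≤ bnd s e M S h := by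
  unfold bnd
  have hp : 0 < h ^ (1 + 2 * s) := Real.rpow_pos_of_pos hh _
  split_ifs with hle
  · rw [div_le_iff₀ hp]
    have e1 : M * h ^ (1 - 2 * s) * h ^ (1 + 2 * s) = M * h ^ 2 := by
      rw [mul_assoc, ← Real.rpow_add hh, show 1 - 2 * s + (1 + 2 * s) = ((2 : ℕ) : ℝ) by push_cast; ring,
        Real.rpow_natCast]
    rw [e1]
    exact h1 hle
  · rw [div_le_iff₀ hp, mul_assoc, ← Real.rpow_add hh, neg_add_cancel, Real.rpow_zero, mul_one]
    exact h2 (not_le.1 hle)

theorem sd_dom_abs {s e M S : ℝ} {g : ℝ → ℝ} {x h : ℝ} (hh : 0 < h) (h1 : h ≤ e → |sd g x h| ≤ M * h ^ 2)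
    (h2 : e < h → |sd g x h| ≤ S) : ‖sd g x h / h ^ (1 + 2 * s)‖ ≤ bnd s e M S h := by
  have hp : 0 < h ^ (1 + 2 * s) := Real.rpow_pos_of_pos hh _
  rw [Real.norm_eq_abs, abs_div, abs_of_pos hp]
  unfold bnd
  split_ifs with hle
  · rw [div_le_iff₀ hp]
    have e1 : M * h ^ (1 - 2 * s) * h ^ (1 + 2 * s) = M * h ^ 2 := by
      rw [mul_assoc, ← Real.rpow_add hh, show 1 - 2 * s + (1 + 2 * s) = ((2 : ℕ) : ℝ) by push_cast; ring,
        Real.rpow_natCast]
    rw [e1]
    exact h1 hle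
  · rw [div_le_iff₀ hp, mul_assoc, ← Real.rpow_add hh, neg_add_cancel, Real.rpow_zero, mul_one]
    exact h2 (not_le.1 hle)

/-- a test function has bounded second differences -/
theorem exists_bounds {g : ℝ → ℝ} (hg : ContDiff ℝ 2 g) (hc : HasCompactSupport g) :
    ∃ M : ℝ, 0 ≤ M ∧ (∀ x h, 0 ≤ h → |sd g x h| ≤ M * h ^ 2) ∧ (∀ x h, |sd g x h| ≤ M) := by
  obtain ⟨A, hA⟩ := hc.exists_bound_of_continuous hg.continuous
  have hc2 : HasCompactSupport (deriv (deriv g)) := hc.deriv.deriv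
  have hcont : Continuous (deriv (deriv g)) := by
    exact (cd1 hg).continuous_deriv (by norm_num)
  obtain ⟨B, hB⟩ := hc2.exists_bound_of_continuous hcont
  have hA0 : 0 ≤ A := (norm_nonneg _).trans (hA 0)
  have hB0 : 0 ≤ B := (norm_nonneg _).trans (hB 0)
  refine ⟨max B (4 * A), le_max_of_le_left hB0, ?_, ?_⟩
  · intro x h hh
    refine (sd_le hg hh (fun y _ => hB y)).trans ?_
    exact mul_le_mul_of_nonneg_right (le_max_left _ _) (sq_nonneg _)
  · intro x h
    refine le_trans ?_ (le_max_right _ _)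
    unfold sd
    have h1 := hA x
    have h2 := hA (x + h)
    have h3 := hA (x - h)
    rw [Real.norm_eq_abs] at h1 h2 h3
    rw [abs_le] at *
    constructor <;> linarith [h1.1, h1.2, h2.1, h2.2, h3.1, h3.2]

theorem sd_meas {s : ℝ} {g : ℝ → ℝ} (hg : Continuous g) (x : ℝ) :
    AEStronglyMeasurable (fun h => sd g x h / h ^ (1 + 2 * s)) (volume.restrict (Ioi 0)) := by
  apply ContinuousOn.aestronglyMeasurable _ measurableSet_Ioi
  apply ContinuousOn.div
  · unfold sd
    fun_prop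
  · intro h hh
    exact (Real.continuousAt_rpow_const h _ (Or.inl (ne_of_gt hh))).continuousWithinAt
  · intro h hh
    exact (Real.rpow_pos_of_pos hh _).ne'

theorem sd_int {s : ℝ} (hs : 0 < s) (hs1 : s < 1) {g : ℝ → ℝ} (hg : ContDiff ℝ 2 g) (hc : HasCompactSupport g) (x : ℝ) :
    IntegrableOn (fun h => sd g x h / h ^ (1 + 2 * s)) (Ioi 0) := by
  obtain ⟨M, hM0, h1, h2⟩ := exists_bounds hg hc
  refine (bnd_int (M := M) (S := M) hs hs1 one_pos).mono' (sd_meas hg.continuous x) ?_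
  refine (ae_restrict_iff' measurableSet_Ioi).2 (Eventually.of_forall fun h hh => ?_)
  exact sd_dom_abs hh (fun _ => h1 x h (le_of_lt hh)) (fun _ => h2 x h)

theorem fl_cont {s : ℝ} (hs : 0 < s) (hs1 : s < 1) {g : ℝ → ℝ} (hg : ContDiff ℝ 2 g) (hc : HasCompactSupport g) :
    Continuous (fl s g) := by
  obtain ⟨M, hM0, h1, h2⟩ := exists_bounds hg hc
  unfold fl
  refine continuous_of_dominated (bound := bnd s 1 M M) (fun x => sd_meas hg.continuous x) ?_
    (bnd_int (M := M) (S := M) hs hs1 one_pos) ?_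
  · intro x
    refine (ae_restrict_iff' measurableSet_Ioi).2 (Eventually.of_forall fun h hh => ?_)
    exact sd_dom_abs hh (fun _ => h1 x h (le_of_lt hh)) (fun _ => h2 x h)
  · refine Eventually.of_forall fun h => ?_
    have := hg.continuous
    fun_prop

theorem fl_bdd {s : ℝ} (hs : 0 < s) (hs1 : s < 1) {g : ℝ → ℝ} (hg : ContDiff ℝ 2 g) (hc : HasCompactSupport g) :
    ∃ C, ∀ x, |fl s g x| ≤ C := by
  obtain ⟨M, hM0, h1, h2⟩ := exists_bounds hg hc
  refine ⟨∫ h in Ioi (0:ℝ), bnd s 1 M M h, fun x => ?_⟩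
  rw [fl_eq, ← Real.norm_eq_abs]
  refine norm_integral_le_of_norm_le (bnd_int hs hs1 one_pos) ?_
  refine (ae_restrict_iff' measurableSet_Ioi).2 (Eventually.of_forall fun h hh => ?_)
  exact sd_dom_abs hh (fun _ => h1 x h (le_of_lt hh)) (fun _ => h2 x h)

/-- to the right of the support -/
theorem fl_tail {s R : ℝ} (hs : 0 < s) {g : ℝ → ℝ} (hg : Continuous g) (h0 : ∀ x, 0 ≤ g x)
    (hsup : ∀ x, x ≤ 0 ∨ R ≤ x → g x = 0) (hR : 0 < R) {x : ℝ} (hx : R < x) :
    fl s g x ≤ -(x ^ (-(1 + 2 * s)) * ∫ y, g y) ∧ -((x - R) ^ (-(1 + 2 * s)) * ∫ y, g y) ≤ fl s g x := by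
  have hx0 : 0 < x := hR.trans hx
  have hxR : 0 < x - R := by linarith
  have hc : HasCompactSupport g := by
    apply HasCompactSupport.intro (K := Icc 0 R) isCompact_Icc
    intro y hy
    apply hsup
    by_contra hcon
    push Not at hcon
    exact hy ⟨hcon.1.le, hcon.2.le⟩
  have hgi : Integrable g := hg.integrable_of_hasCompactSupport hc
  have hgi2 : Integrable (fun h => g (x - h)) := hgi.comp_sub_left x
  have e0 : ∫ h in Ioi (0:ℝ), g (x - h) = ∫ y, g y := by
    rw [← integral_sub_left_eq_self g volume x]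
    apply setIntegral_eq_integral_of_forall_compl_eq_zero
    intro h hh
    apply hsup
    right
    simp only [mem_Ioi, not_lt] at hh
    linarith
  have e1 : fl s g x = -∫ h in Ioi (0:ℝ), g (x - h) / h ^ (1 + 2 * s) := by
    rw [fl_eq, ← integral_neg]
    apply setIntegral_congr_fun measurableSet_Ioi
    intro h hh
    simp only [mem_Ioi] at hh
    dsimp only
    unfold sd
    rw [hsup x (Or.inr hx.le), hsup (x + h) (Or.inr (by linarith))]
    ring
  have hcompare : ∀ h ∈ Ioi (0:ℝ), x ^ (-(1 + 2 * s)) * g (x - h) ≤ g (x - h) / h ^ (1 + 2 * s) ∧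
      g (x - h) / h ^ (1 + 2 * s) ≤ (x - R) ^ (-(1 + 2 * s)) * g (x - h) := by
    intro h hh
    simp only [mem_Ioi] at hh
    by_cases hz : x - h ≤ 0 ∨ R ≤ x - h
    · rw [hsup _ hz]
      simp
    · push Not at hz
      have a1 : h ≤ x := by linarith [hz.1]
      have a2 : x - R ≤ h := by linarith [hz.2]
      have b1 : x ^ (-(1 + 2 * s)) ≤ h ^ (-(1 + 2 * s)) := Real.rpow_le_rpow_of_nonpos hh a1 (by linarith)
      have b2 : h ^ (-(1 + 2 * s)) ≤ (x - R) ^ (-(1 + 2 * s)) := Real.rpow_le_rpow_of_nonpos hxR a2 (by linarith)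
      have c : g (x - h) / h ^ (1 + 2 * s) = h ^ (-(1 + 2 * s)) * g (x - h) := by
        rw [Real.rpow_neg hh.le]
        ring
      rw [c]
      exact ⟨mul_le_mul_of_nonneg_right b1 (h0 _), mul_le_mul_of_nonneg_right b2 (h0 _)⟩
  have hint : IntegrableOn (fun h => g (x - h) / h ^ (1 + 2 * s)) (Ioi 0) := by
    refine ((hgi2.const_mul ((x - R) ^ (-(1 + 2 * s)))).integrableOn (s := Ioi 0)).mono' ?_ ?_
    · apply ContinuousOn.aestronglyMeasurable _ measurableSet_Ioi
      apply ContinuousOn.div (by fun_prop)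
      · intro h hh
        exact (Real.continuousAt_rpow_const h _ (Or.inl (ne_of_gt hh))).continuousWithinAt
      · intro h hh
        exact (Real.rpow_pos_of_pos hh _).ne'
    · refine (ae_restrict_iff' measurableSet_Ioi).2 (Eventually.of_forall fun h hh => ?_)
      rw [Real.norm_eq_abs, abs_of_nonneg (div_nonneg (h0 _) (Real.rpow_nonneg (le_of_lt hh) _))]
      exact (hcompare h hh).2
  have l1 : x ^ (-(1 + 2 * s)) * ∫ y, g y ≤ ∫ h in Ioi (0:ℝ), g (x - h) / h ^ (1 + 2 * s) := by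
    rw [← e0, ← integral_const_mul]
    exact setIntegral_mono_on (hgi2.const_mul _).integrableOn hint measurableSet_Ioi (fun h hh => (hcompare h hh).1)
  have l2 : ∫ h in Ioi (0:ℝ), g (x - h) / h ^ (1 + 2 * s) ≤ (x - R) ^ (-(1 + 2 * s)) * ∫ y, g y := by
    rw [← e0, ← integral_const_mul]
    exact setIntegral_mono_on hint (hgi2.const_mul _).integrableOn measurableSet_Ioi (fun h hh => (hcompare h hh).2)
  rw [e1]
  constructor <;> linarith

end Pool.Agent.V1180.FS
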