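import Pool.Agent.V1180.FSa

set_option autoImplicit false

/-!
# The convex function `bt` and the profile `Psi`
-/

namespace Pool.Agent.V1180.FS

open Real MeasureTheory Filter Topology Set
open scoped ContDiff

/-- primitive of the smooth transition: convex, `0` for `t ≤ 0` -/
noncomputable def bt (t : ℝ) : ℝ := ∫ τ in (0:ℝ)..t, smoothTransition τ

theorem bt_hasDeriv (t : ℝ) : HasDerivAt bt (smoothTransition t) t :=
  (smoothTransition.continuous.integral_hasStrictDerivAt 0 t).hasDerivAt

theorem bt_deriv : deriv bt = smoothTransition := funext fun t => (bt_hasDeriv t).deriv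

theorem bt_contDiff : ContDiff ℝ ∞ bt := by
  rw [contDiff_infty_iff_deriv]
  refine ⟨fun t => (bt_hasDeriv t).differentiableAt, ?_⟩
  rw [bt_deriv]
  exact smoothTransition.contDiff

theorem bt_zero {t : ℝ} (h : t ≤ 0) : bt t = 0 := by
  unfold bt
  apply intervalIntegral.integral_zero_ae
  refine Eventually.of_forall fun x hx => ?_
  rw [uIoc_of_ge h] at hx
  exact smoothTransition.zero_of_nonpos hx.2

theorem bt_convex (A B : ℝ) : bt B + smoothTransition B * (A - B) ≤ bt A := by
  have hi : ∀ x y : ℝ, IntervalIntegrable smoothTransition volume x y :=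
    fun x y => smoothTransition.continuous.intervalIntegrable x y
  have e : bt A - bt B = ∫ τ in B..A, smoothTransition τ := by
    unfold bt
    rw [intervalIntegral.integral_interval_sub_left (hi 0 A) (hi 0 B)]
  rcases le_total B A with h | h
  · have : ∫ _τ in B..A, smoothTransition B ≤ ∫ τ in B..A, smoothTransition τ :=
      intervalIntegral.integral_mono_on h (by simp) (hi B A) (fun x hx => smoothTransition.monotone hx.1)
    rw [intervalIntegral.integral_const, smul_eq_mul] at this
    linarith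
  · have : ∫ τ in A..B, smoothTransition τ ≤ ∫ _τ in A..B, smoothTransition B :=
      intervalIntegral.integral_mono_on h (hi A B) (by simp) (fun x hx => smoothTransition.monotone hx.2)
    rw [intervalIntegral.integral_const, smul_eq_mul] at this
    rw [intervalIntegral.integral_symm] at e
    linarith

theorem bt_nonneg (t : ℝ) : 0 ≤ bt t := by
  have := bt_convex t 0
  rw [bt_zero le_rfl, smoothTransition.zero] at this
  linarith

theorem bt_mono : Monotone bt := by
  intro x y h
  have := bt_convex y x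
  have h2 := smoothTransition.nonneg x
  nlinarith

theorem bt_pos {t : ℝ} (h : 0 < t) : 0 < bt t := by
  have h1 := bt_convex t (t / 2)
  have h2 : 0 < smoothTransition (t / 2) := smoothTransition.pos_of_pos (by linarith)
  have h3 := bt_nonneg (t / 2)
  nlinarith

/-- the profile -/
noncomputable def Psi (a y : ℝ) : ℝ := smoothTransition (y - 1) * y ^ (-a)

theorem Psi_zero {a y : ℝ} (h : y ≤ 1) : Psi a y = 0 := by
  unfold Psi
  rw [smoothTransition.zero_of_nonpos (by linarith), zero_mul]

theorem Psi_eq {a y : ℝ} (h : 2 ≤ y) : Psi a y = y ^ (-a) := by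
  unfold Psi
  rw [smoothTransition.one_of_one_le (by linarith), one_mul]

theorem Psi_nonneg (a y : ℝ) : 0 ≤ Psi a y := by
  rcases le_total y 1 with h | h
  · rw [Psi_zero h]
  · exact mul_nonneg (smoothTransition.nonneg _) (rpow_nonneg (by linarith) _)

theorem Psi_le_rpow {a y : ℝ} (h : 0 < y) : Psi a y ≤ y ^ (-a) := by
  unfold Psi
  have h1 := smoothTransition.le_one (y - 1)
  have h2 : 0 ≤ y ^ (-a) := rpow_nonneg h.le _
  nlinarith

theorem Psi_le_one {a : ℝ} (ha : 0 ≤ a) (y : ℝ) : Psi a y ≤ 1 := by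
  rcases le_total y 1 with h | h
  · rw [Psi_zero h]
    exact zero_le_one
  · refine (Psi_le_rpow (by linarith)).trans ?_
    exact rpow_le_one_of_one_le_of_nonpos h (by linarith)

theorem Psi_contDiff (a : ℝ) : ContDiff ℝ ∞ (Psi a) := by
  rw [contDiff_iff_contDiffAt]
  intro y
  rcases lt_or_ge y 1 with h | h
  · have : Psi a =ᶠ[𝓝 y] fun _ => 0 := by
      filter_upwards [Iio_mem_nhds h] with z hz
      exact Psi_zero (le_of_lt hz)
    exact contDiffAt_const.congr_of_eventuallyEq this
  · have h1 : ContDiffAt ℝ ∞ (fun y : ℝ => smoothTransition (y - 1)) y :=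
      (smoothTransition.contDiff.comp (contDiff_id.sub contDiff_const)).contDiffAt
    have h2 : ContDiffAt ℝ ∞ (fun y : ℝ => y ^ (-a)) y := contDiffAt_rpow_const_of_ne (by linarith)
    exact h1.mul h2

theorem two_le_infty : (2 : ℕ∞ω) ≤ ∞ := WithTop.coe_le_coe.2 le_top

/-- integrability for bounded functions -/
theorem sd_int' {s : ℝ} (hs : 0 < s) (hs1 : s < 1) {g : ℝ → ℝ} (hg : ContDiff ℝ 2 g) {A : ℝ} (hA : ∀ y, |g y| ≤ A) (x : ℝ) :
    IntegrableOn (fun h => sd g x h / h ^ (1 + 2 * s)) (Ioi 0) := by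
  have hcont : Continuous (deriv (deriv g)) := (cd1 hg).continuous_deriv (by norm_num)
  obtain ⟨M, hM⟩ := (isCompact_Icc (a := x - 1) (b := x + 1)).exists_bound_of_continuousOn hcont.continuousOn
  refine (bnd_int (e := 1) (M := M) (S := 4 * A) hs hs1 one_pos).mono' (sd_meas hg.continuous x) ?_
  refine (ae_restrict_iff' measurableSet_Ioi).2 (Eventually.of_forall fun h hh => ?_)
  simp only [mem_Ioi] at hh
  refine sd_dom_abs hh (fun h1 => ?_) (fun _ => ?_)
  · apply sd_le hg hh.le
    intro y hy
    exact hM y ⟨by linarith [hy.1], by linarith [hy.2]⟩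
  · unfold sd
    have h1 := abs_le.1 (hA x)
    have h2 := abs_le.1 (hA (x + h))
    have h3 := abs_le.1 (hA (x - h))
    rw [abs_le]
    constructor <;> linarith [h1.1, h1.2, h2.1, h2.2, h3.1, h3.2]

theorem Psi_abs {a : ℝ} (ha : 0 ≤ a) (y : ℝ) : |Psi a y| ≤ 1 := by
  rw [abs_of_nonneg (Psi_nonneg a y)]
  exact Psi_le_one ha y

/-- bound near the origin -/
theorem fl_Psi_near {s a : ℝ} (hs : 0 < s) (hs1 : s < 1) (ha : 0 ≤ a) :
    ∃ C : ℝ, 0 ≤ C ∧ ∀ y ∈ Icc (0:ℝ) 4, fl s (Psi a) y ≤ C := by
  have hg : ContDiff ℝ 2 (Psi a) := (Psi_contDiff a).of_le two_le_infty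
  have hcont : Continuous (deriv (deriv (Psi a))) := (cd1 hg).continuous_deriv (by norm_num)
  obtain ⟨M, hM⟩ := (isCompact_Icc (a := (-1:ℝ)) (b := 5)).exists_bound_of_continuousOn hcont.continuousOn
  have hM0 : 0 ≤ M := (norm_nonneg _).trans (hM 0 ⟨by norm_num, by norm_num⟩)
  refine ⟨∫ h in Ioi (0:ℝ), bnd s 1 M 4 h, ?_, fun y hy => ?_⟩
  · rw [bnd_integral hs hs1 one_pos]
    have : 0 < 2 - 2 * s := by linarith
    positivity
  · rw [fl_eq]
    refine le_trans (le_abs_self _) ?_
    rw [← Real.norm_eq_abs]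
    refine norm_integral_le_of_norm_le (bnd_int hs hs1 one_pos) ?_
    refine (ae_restrict_iff' measurableSet_Ioi).2 (Eventually.of_forall fun h hh => ?_)
    simp only [mem_Ioi] at hh
    refine sd_dom_abs hh (fun h1 => ?_) (fun _ => ?_)
    · apply sd_le hg hh.le
      intro z hz
      exact hM z ⟨by linarith [hz.1, hy.1], by linarith [hz.2, hy.2]⟩
    · unfold sd
      have h1 := abs_le.1 (Psi_abs ha y)
      have h2 := abs_le.1 (Psi_abs ha (y + h))
      have h3 := abs_le.1 (Psi_abs ha (y - h))
      rw [abs_le]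
      constructor <;> linarith [h1.1, h1.2, h2.1, h2.2, h3.1, h3.2]

end Pool.Agent.V1180.FS
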