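import Pool.Agent.V1180.FSb

set_option autoImplicit false

/-!
# The fractional Laplacian of the profile is small away from the origin
-/

namespace Pool.Agent.V1180.FS

open Real MeasureTheory Filter Topology Set
open scoped ContDiff

/-- `(1-k)^{-a} + (1+k)^{-a} - 2 ≥ a k² (1-k)^{-a}` -/
theorem ineq1 {a k : ℝ} (ha : 0 < a) (ha1 : a < 1) (hk : 0 < k) (hk1 : k < 1) :
    2 + a * k ^ 2 * (1 - k) ^ (-a) ≤ (1 - k) ^ (-a) + (1 + k) ^ (-a) := by
  set p := (1 - k) ^ (-a) with hp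
  set r := (1 + k) ^ (-a) with hr
  have hp0 : 0 < p := rpow_pos_of_pos (by linarith) _
  have hr0 : 0 < r := rpow_pos_of_pos (by linarith) _
  have hw : 0 < 1 - a * k ^ 2 := by nlinarith
  have hk2 : 0 < 1 - k ^ 2 := by nlinarith
  have hpr : p * r = (1 - k ^ 2) ^ (-a) := by
    rw [hp, hr, ← mul_rpow (by linarith) (by linarith)]
    congr 1
    ring
  have hber : (1 - k ^ 2) ^ a ≤ 1 - a * k ^ 2 := by
    have := rpow_one_add_le_one_add_mul_self (s := -k ^ 2) (by nlinarith) ha.le ha1.le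
    rw [show 1 + -k ^ 2 = 1 - k ^ 2 by ring] at this
    linarith
  have h1 : 1 ≤ (1 - a * k ^ 2) * (p * r) := by
    rw [hpr, rpow_neg hk2.le, ← div_eq_mul_inv, one_le_div (rpow_pos_of_pos hk2 _)]
    exact hber
  have h2 : 4 ≤ ((1 - a * k ^ 2) * p + r) ^ 2 := by
    nlinarith [sq_nonneg ((1 - a * k ^ 2) * p - r)]
  have h3 : 0 < (1 - a * k ^ 2) * p + r := by positivity
  have h4 : 2 ≤ (1 - a * k ^ 2) * p + r := by
    by_contra hcon
    push Not at hcon
    nlinarith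
  nlinarith

/-- the dominating function in the scaled variable -/
noncomputable def Tt (s a k : ℝ) : ℝ :=
  if k < 1 then -a * (k ^ (1 - 2 * s) + (1 - k) ^ (-a) - 1) else 2 * k ^ (-(1 + 2 * s)) - 2 ^ (-a) * k ^ (-(a + (1 + 2 * s)))

theorem Tt_lt {s a k : ℝ} (hs : 1 / 2 ≤ s) (ha : 0 < a) (ha1 : a < 1) (hk : 0 < k) (hk1 : k < 1) :
    (2 - (1 + k) ^ (-a) - (1 - k) ^ (-a)) / k ^ (1 + 2 * s) ≤ Tt s a k := by
  unfold Tt
  rw [if_pos hk1]
  have h1 := ineq1 ha ha1 hk hk1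
  have hp : 0 < k ^ (1 + 2 * s) := rpow_pos_of_pos hk _
  have e : k ^ 2 = k ^ (1 - 2 * s) * k ^ (1 + 2 * s) := by
    rw [← rpow_add hk, show 1 - 2 * s + (1 + 2 * s) = ((2:ℕ):ℝ) by push_cast; ring, rpow_natCast]
  have h2 : 1 ≤ k ^ (1 - 2 * s) := one_le_rpow_of_pos_of_le_one_of_nonpos hk hk1.le (by linarith)
  have h3 : 1 ≤ (1 - k) ^ (-a) := one_le_rpow_of_pos_of_le_one_of_nonpos (by linarith) (by linarith) (by linarith)
  rw [div_le_iff₀ hp]
  have h4 : 2 - (1 + k) ^ (-a) - (1 - k) ^ (-a) ≤ -a * (k ^ (1 - 2 * s) * (1 - k) ^ (-a)) * k ^ (1 + 2 * s) := by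
    have : -a * (k ^ (1 - 2 * s) * (1 - k) ^ (-a)) * k ^ (1 + 2 * s) = -(a * k ^ 2 * (1 - k) ^ (-a)) := by
      rw [e]; ring
    rw [this]
    linarith
  refine h4.trans ?_
  apply mul_le_mul_of_nonneg_right _ hp.le
  have h5 : k ^ (1 - 2 * s) + (1 - k) ^ (-a) - 1 ≤ k ^ (1 - 2 * s) * (1 - k) ^ (-a) := by nlinarith
  nlinarith

theorem Tt_ge {s a k : ℝ} (ha : 0 < a) (hk : 1 ≤ k) :
    (2 - (1 + k) ^ (-a)) / k ^ (1 + 2 * s) ≤ Tt s a k := by
  unfold Tt
  rw [if_neg (not_lt.2 hk)]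
  have hk0 : 0 < k := by linarith
  have hp : 0 < k ^ (1 + 2 * s) := rpow_pos_of_pos hk0 _
  have h1 : 2 ^ (-a) * k ^ (-a) ≤ (1 + k) ^ (-a) := by
    rw [← mul_rpow (by norm_num) hk0.le]
    exact rpow_le_rpow_of_nonpos (by linarith) (by linarith) (by linarith)
  have e1 : k ^ (-(1 + 2 * s)) * k ^ (1 + 2 * s) = 1 := by
    rw [← rpow_add hk0, neg_add_cancel, rpow_zero]
  have e2 : k ^ (-(a + (1 + 2 * s))) * k ^ (1 + 2 * s) = k ^ (-a) := by
    rw [← rpow_add hk0]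
    congr 1
    ring
  rw [div_le_iff₀ hp]
  have e3 : (2 * k ^ (-(1 + 2 * s)) - 2 ^ (-a) * k ^ (-(a + (1 + 2 * s)))) * k ^ (1 + 2 * s) =
      2 * (k ^ (-(1 + 2 * s)) * k ^ (1 + 2 * s)) - 2 ^ (-a) * (k ^ (-(a + (1 + 2 * s))) * k ^ (1 + 2 * s)) := by ring
  rw [e3, e1, e2]
  linarith

theorem refl_int {a : ℝ} (ha1 : a < 1) : IntegrableOn (fun k : ℝ => (1 - k) ^ (-a)) (Ioc 0 1) := by
  rw [← intervalIntegrable_iff_integrableOn_Ioc_of_le zero_le_one]
  have h := (intervalIntegral.intervalIntegrable_rpow' (a := 0) (b := 1) (by linarith : -1 < -a)).comp_sub_left 1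
  simp only [sub_zero, sub_self] at h
  exact h.symm

theorem Tt_int {s a : ℝ} (hs : 0 < s) (hs1 : s < 1) (ha : 0 < a) (ha1 : a < 1) : IntegrableOn (Tt s a) (Ioi 0) := by
  have h1 : Ioi (0:ℝ) = Ioc 0 1 ∪ Ioi 1 := (Ioc_union_Ioi_eq_Ioi zero_le_one).symm
  rw [h1, integrableOn_union]
  constructor
  · have i1 : IntegrableOn (fun k : ℝ => k ^ (1 - 2 * s)) (Ioc 0 1) := by
      rw [← intervalIntegrable_iff_integrableOn_Ioc_of_le zero_le_one]
      exact intervalIntegral.intervalIntegrable_rpow' (by linarith)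
    have i3 : IntegrableOn (fun _ : ℝ => (1:ℝ)) (Ioc 0 1) := integrableOn_const (by simp)
    have i : IntegrableOn (fun k : ℝ => -a * (k ^ (1 - 2 * s) + (1 - k) ^ (-a) - 1)) (Ioc 0 1) :=
      ((i1.add (refl_int ha1)).sub i3).const_mul _
    rw [integrableOn_Ioc_iff_integrableOn_Ioo] at i ⊢
    refine i.congr_fun (fun k hk => ?_) measurableSet_Ioo
    unfold Tt
    rw [if_pos hk.2]
  · have i1 : IntegrableOn (fun k : ℝ => k ^ (-(1 + 2 * s))) (Ioi 1) := integrableOn_Ioi_rpow_of_lt (by linarith) one_pos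
    have i2 : IntegrableOn (fun k : ℝ => k ^ (-(a + (1 + 2 * s)))) (Ioi 1) := integrableOn_Ioi_rpow_of_lt (by linarith) one_pos
    have i : IntegrableOn (fun k : ℝ => 2 * k ^ (-(1 + 2 * s)) - 2 ^ (-a) * k ^ (-(a + (1 + 2 * s)))) (Ioi 1) :=
      (i1.const_mul 2).sub (i2.const_mul (2 ^ (-a)))
    refine i.congr_fun (fun k hk => ?_) measurableSet_Ioi
    unfold Tt
    rw [if_neg (not_lt.2 (le_of_lt hk))]

theorem Tt_integral {s a : ℝ} (hs : 0 < s) (hs1 : s < 1) (ha : 0 < a) (ha1 : a < 1) :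
    ∫ k in Ioi (0:ℝ), Tt s a k = -a * (1 / (2 - 2 * s) + 1 / (1 - a) - 1) + (1 / s - 2 ^ (-a) / (a + 2 * s)) := by
  have h1 : Ioi (0:ℝ) = Ioc 0 1 ∪ Ioi 1 := (Ioc_union_Ioi_eq_Ioi zero_le_one).symm
  have hi := Tt_int hs hs1 ha ha1
  rw [h1, setIntegral_union (Set.Ioc_disjoint_Ioi le_rfl) measurableSet_Ioi
    (hi.mono_set (fun x hx => hx.1)) (hi.mono_set (Ioi_subset_Ioi zero_le_one))]
  congr 1
  · have i1 : IntegrableOn (fun k : ℝ => k ^ (1 - 2 * s)) (Ioc 0 1) := by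
      rw [← intervalIntegrable_iff_integrableOn_Ioc_of_le zero_le_one]
      exact intervalIntegral.intervalIntegrable_rpow' (by linarith)
    have i3 : IntegrableOn (fun _ : ℝ => (1:ℝ)) (Ioc 0 1) := integrableOn_const (by simp)
    have : ∫ k in Ioc (0:ℝ) 1, Tt s a k = ∫ k in Ioc (0:ℝ) 1, -a * (k ^ (1 - 2 * s) + (1 - k) ^ (-a) - 1) := by
      rw [integral_Ioc_eq_integral_Ioo, integral_Ioc_eq_integral_Ioo]
      apply setIntegral_congr_fun measurableSet_Ioo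
      intro k hk
      unfold Tt
      rw [if_pos hk.2]
    have i12 : IntegrableOn (fun k : ℝ => k ^ (1 - 2 * s) + (1 - k) ^ (-a)) (Ioc 0 1) := i1.add (refl_int ha1)
    rw [this, integral_const_mul, integral_sub i12 i3, integral_add i1 (refl_int ha1)]
    rw [← intervalIntegral.integral_of_le zero_le_one, ← intervalIntegral.integral_of_le zero_le_one,
      ← intervalIntegral.integral_of_le zero_le_one]
    rw [integral_rpow (Or.inl (by linarith)), intervalIntegral.integral_comp_sub_left (fun k => k ^ (-a)) 1]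
    rw [sub_self, sub_zero, integral_rpow (Or.inl (by linarith)), intervalIntegral.integral_const]
    rw [Real.zero_rpow (by linarith), Real.zero_rpow (by linarith), one_rpow, one_rpow]
    rw [show 1 - 2 * s + 1 = 2 - 2 * s by ring, show -a + 1 = 1 - a by ring]
    simp
  · have i1 : IntegrableOn (fun k : ℝ => k ^ (-(1 + 2 * s))) (Ioi 1) := integrableOn_Ioi_rpow_of_lt (by linarith) one_pos
    have i2 : IntegrableOn (fun k : ℝ => k ^ (-(a + (1 + 2 * s)))) (Ioi 1) := integrableOn_Ioi_rpow_of_lt (by linarith) one_pos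
    have : ∫ k in Ioi (1:ℝ), Tt s a k = ∫ k in Ioi (1:ℝ), (2 * k ^ (-(1 + 2 * s)) - 2 ^ (-a) * k ^ (-(a + (1 + 2 * s)))) := by
      apply setIntegral_congr_fun measurableSet_Ioi
      intro k hk
      unfold Tt
      rw [if_neg (not_lt.2 (le_of_lt hk))]
    rw [this, integral_sub (i1.const_mul 2) (i2.const_mul _), integral_const_mul, integral_const_mul,
      integral_Ioi_rpow_of_lt (by linarith) one_pos, integral_Ioi_rpow_of_lt (by linarith) one_pos]
    rw [one_rpow, one_rpow, show -(1 + 2 * s) + 1 = -(2 * s) by ring, show -(a + (1 + 2 * s)) + 1 = -(a + 2 * s) by ring]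
    have : a + 2 * s ≠ 0 := by linarith
    field_simp

/-- the key sign -/
theorem Tt_nonpos {s a : ℝ} (hs : 1 / 2 ≤ s) (hs1 : s < 1) (ha : a = 9 / 5 * (1 - s)) :
    ∫ k in Ioi (0:ℝ), Tt s a k ≤ 0 := by
  have ha0 : 0 < a := by rw [ha]; linarith
  have ha9 : a ≤ 9 / 10 := by rw [ha]; linarith
  rw [Tt_integral (by linarith) hs1 ha0 (by linarith)]
  have hsa : s = 1 - 5 / 9 * a := by rw [ha]; ring
  have h2 : 1 - a ≤ (2:ℝ) ^ (-a) := by
    have := one_add_mul_self_le_rpow_one_add (s := (1:ℝ)) (by norm_num) (p := 1) le_rfl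
    have h3 : (2:ℝ) ^ a ≤ 1 + a := by
      have := rpow_one_add_le_one_add_mul_self (s := (1:ℝ)) (by norm_num) ha0.le (by linarith)
      norm_num at this
      linarith
    have h4 : (2:ℝ) ^ (-a) * (2:ℝ) ^ a = 1 := by rw [← rpow_add two_pos, neg_add_cancel, rpow_zero]
    have h5 : 0 < (2:ℝ) ^ (-a) := rpow_pos_of_pos two_pos _
    nlinarith
  have e1 : a * (1 / (2 - 2 * s)) = 9 / 10 := by
    rw [hsa]
    have : a ≠ 0 := ha0.ne'
    field_simp
    ring
  have e2 : a * (1 / (1 - a) - 1) = a ^ 2 / (1 - a) := by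
    have : 1 - a ≠ 0 := by linarith
    field_simp
    ring
  have e3 : a + 2 * s = 2 - a / 9 := by rw [hsa]; ring
  have h6 : (1 - a) / 2 ≤ 2 ^ (-a) / (a + 2 * s) := by
    rw [e3, div_le_div_iff₀ (by norm_num) (by linarith)]
    nlinarith
  have h7 : 1 / s ≤ 9 / 10 + a ^ 2 / (1 - a) + (1 - a) / 2 := by
    have h1a : 0 < 1 - a := by linarith
    rw [hsa, div_le_iff₀ (by linarith)]
    have : (9 / 10 + a ^ 2 / (1 - a) + (1 - a) / 2) * (1 - 5 / 9 * a) - 1 =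
      (18/5 - 151/10 * a + 23 * a^2 - 15/2 * a^3) / (9 * (1 - a)) := by
      field_simp
      ring
    have h8 : 0 ≤ (18/5 - 151/10 * a + 23 * a^2 - 15/2 * a^3) / (9 * (1 - a)) := by
      apply div_nonneg _ (by linarith)
      have : a ^ 3 ≤ 9 / 10 * a ^ 2 := by nlinarith [sq_nonneg a]
      nlinarith [sq_nonneg (a - 15.1 / 32.5)]
    linarith
  have : -a * (1 / (2 - 2 * s) + 1 / (1 - a) - 1) = -(a * (1 / (2 - 2 * s))) - a * (1 / (1 - a) - 1) := by ring
  rw [this, e1, e2]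
  linarith

end Pool.Agent.V1180.FS
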