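import Pool.Agent.V1180.FSc

set_option autoImplicit false

/-!
# The test functions
-/

namespace Pool.Agent.V1180.FS

open Real MeasureTheory Filter Topology Set
open scoped ContDiff

theorem far_pt {s a y h : ℝ} (hs : 1 / 2 ≤ s) (ha : 0 < a) (ha1 : a < 1) (hy : 4 ≤ y) (hh : 0 < h) :
    sd (Psi a) y h / h ^ (1 + 2 * s) ≤ y ^ (-(a + (1 + 2 * s))) * Tt s a (y⁻¹ * h) +
      (Ioo (y - 2) y).indicator (fun h => (y - h) ^ (-a) * (y / 2) ^ (-(1 + 2 * s))) h := by
  have hy0 : 0 < y := by linarith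
  set k := y⁻¹ * h with hk
  have hk0 : 0 < k := by positivity
  have hhk : h = y * k := by rw [hk]; field_simp
  have hp : 0 < h ^ (1 + 2 * s) := rpow_pos_of_pos hh _
  have hpe : h ^ (1 + 2 * s) = y ^ (1 + 2 * s) * k ^ (1 + 2 * s) := by rw [hhk, mul_rpow hy0.le hk0.le]
  have hplus : (y + h) ^ (-a) = y ^ (-a) * (1 + k) ^ (-a) := by
    rw [← mul_rpow hy0.le (by linarith)]
    congr 1
    rw [hhk]; ring
  have hyy : Psi a y = y ^ (-a) := Psi_eq (by linarith)
  have hyh : Psi a (y + h) = (y + h) ^ (-a) := Psi_eq (by linarith)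
  have hpy : y ^ (-(a + (1 + 2 * s))) = y ^ (-a) / y ^ (1 + 2 * s) := by
    rw [neg_add, rpow_add hy0, rpow_neg hy0.le (1 + 2 * s)]
    rfl
  rcases lt_or_ge h y with hlt | hge
  · have hk1 : k < 1 := by rw [hk, inv_mul_lt_iff₀ hy0]; linarith
    have hminus : (y - h) ^ (-a) = y ^ (-a) * (1 - k) ^ (-a) := by
      rw [← mul_rpow hy0.le (by linarith)]
      congr 1
      rw [hhk]; ring
    have hT := Tt_lt hs ha ha1 hk0 hk1
    have hmain : (2 * y ^ (-a) - (y + h) ^ (-a) - (y - h) ^ (-a)) / h ^ (1 + 2 * s) ≤ y ^ (-(a + (1 + 2 * s))) * Tt s a k := by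
      rw [hplus, hminus, hpe, hpy]
      have e : (2 * y ^ (-a) - y ^ (-a) * (1 + k) ^ (-a) - y ^ (-a) * (1 - k) ^ (-a)) / (y ^ (1 + 2 * s) * k ^ (1 + 2 * s)) =
          y ^ (-a) / y ^ (1 + 2 * s) * ((2 - (1 + k) ^ (-a) - (1 - k) ^ (-a)) / k ^ (1 + 2 * s)) := by
        rw [div_mul_div_comm]
        congr 1
        ring
      rw [e]
      exact mul_le_mul_of_nonneg_left hT (div_nonneg (rpow_nonneg hy0.le _) (rpow_nonneg hy0.le _))
    by_cases h2 : h ≤ y - 2
    · rw [indicator_of_notMem (fun hm => by linarith [hm.1]), add_zero]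
      refine le_trans (le_of_eq ?_) hmain
      unfold sd
      rw [hyy, hyh, Psi_eq (by linarith : 2 ≤ y - h)]
    · push Not at h2
      rw [indicator_of_mem (show h ∈ Ioo (y - 2) y from ⟨h2, hlt⟩)]
      have hr : h ^ (-(1 + 2 * s)) ≤ (y / 2) ^ (-(1 + 2 * s)) := rpow_le_rpow_of_nonpos (by linarith) (by linarith) (by linarith)
      have hm0 : 0 ≤ (y - h) ^ (-a) := rpow_nonneg (by linarith) _
      have h3 : sd (Psi a) y h ≤ (2 * y ^ (-a) - (y + h) ^ (-a) - (y - h) ^ (-a)) + (y - h) ^ (-a) := by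
        unfold sd
        rw [hyy, hyh]
        have := Psi_nonneg a (y - h)
        linarith
      calc sd (Psi a) y h / h ^ (1 + 2 * s) ≤ ((2 * y ^ (-a) - (y + h) ^ (-a) - (y - h) ^ (-a)) + (y - h) ^ (-a)) / h ^ (1 + 2 * s) :=
            div_le_div_of_nonneg_right h3 hp.le
        _ = (2 * y ^ (-a) - (y + h) ^ (-a) - (y - h) ^ (-a)) / h ^ (1 + 2 * s) + (y - h) ^ (-a) * h ^ (-(1 + 2 * s)) := by
            rw [add_div, rpow_neg hh.le]
            rfl
        _ ≤ _ := add_le_add hmain (mul_le_mul_of_nonneg_left hr hm0)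
  · rw [indicator_of_notMem (fun hm => by linarith [hm.2]), add_zero]
    have hk1 : 1 ≤ k := by rw [hk, ← div_eq_inv_mul, one_le_div hy0]; exact hge
    have hT := Tt_ge (s := s) ha hk1
    have h3 : sd (Psi a) y h ≤ 2 * y ^ (-a) - (y + h) ^ (-a) := by
      unfold sd
      rw [hyy, hyh]
      have := Psi_nonneg a (y - h)
      linarith
    calc sd (Psi a) y h / h ^ (1 + 2 * s) ≤ (2 * y ^ (-a) - (y + h) ^ (-a)) / h ^ (1 + 2 * s) :=
          div_le_div_of_nonneg_right h3 hp.le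
      _ = y ^ (-a) / y ^ (1 + 2 * s) * ((2 - (1 + k) ^ (-a)) / k ^ (1 + 2 * s)) := by
          rw [hplus, hpe, div_mul_div_comm]
          congr 1
          ring
      _ ≤ _ := by
          rw [hpy]
          exact mul_le_mul_of_nonneg_left hT (div_nonneg (rpow_nonneg hy0.le _) (rpow_nonneg hy0.le _))

theorem fl_Psi_far {s a y : ℝ} (hs : 1 / 2 ≤ s) (hs1 : s < 1) (ha : a = 9 / 5 * (1 - s)) (hy : 4 ≤ y) :
    fl s (Psi a) y ≤ (y / 2) ^ (-(1 + 2 * s)) * (2 ^ (1 - a) / (1 - a)) := by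
  have ha0 : 0 < a := by rw [ha]; linarith
  have ha1 : a < 1 := by rw [ha]; linarith
  have hs0 : 0 < s := by linarith
  have hy0 : 0 < y := by linarith
  have hyi : 0 < y⁻¹ := by positivity
  have i0 : IntegrableOn (fun h => sd (Psi a) y h / h ^ (1 + 2 * s)) (Ioi 0) :=
    sd_int' hs0 hs1 ((Psi_contDiff a).of_le two_le_infty) (Psi_abs ha0.le) y
  have i1' : IntegrableOn (fun h => Tt s a (y⁻¹ * h)) (Ioi 0) := by
    rw [integrableOn_Ioi_comp_mul_left_iff _ _ hyi, mul_zero]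
    exact Tt_int hs0 hs1 ha0 ha1
  have i1 : IntegrableOn (fun h => y ^ (-(a + (1 + 2 * s))) * Tt s a (y⁻¹ * h)) (Ioi 0) := i1'.const_mul _
  have hint : IntegrableOn (fun h : ℝ => (y - h) ^ (-a)) (Ioc (y - 2) y) := by
    rw [← intervalIntegrable_iff_integrableOn_Ioc_of_le (by linarith)]
    have h := (intervalIntegral.intervalIntegrable_rpow' (a := 0) (b := 2) (by linarith : -1 < -a)).comp_sub_left y
    simp only [sub_zero] at h
    exact h.symm
  have hint' : IntegrableOn (fun h : ℝ => (y - h) ^ (-a) * (y / 2) ^ (-(1 + 2 * s))) (Ioo (y - 2) y) := by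
    rw [integrableOn_Ioc_iff_integrableOn_Ioo] at hint
    exact hint.mul_const _
  have i2 : IntegrableOn ((Ioo (y - 2) y).indicator (fun h => (y - h) ^ (-a) * (y / 2) ^ (-(1 + 2 * s)))) (Ioi 0) :=
    ((integrable_indicator_iff measurableSet_Ioo).2 hint').integrableOn
  rw [fl_eq]
  calc ∫ h in Ioi (0:ℝ), sd (Psi a) y h / h ^ (1 + 2 * s)
      ≤ ∫ h in Ioi (0:ℝ), (y ^ (-(a + (1 + 2 * s))) * Tt s a (y⁻¹ * h) +
        (Ioo (y - 2) y).indicator (fun h => (y - h) ^ (-a) * (y / 2) ^ (-(1 + 2 * s))) h) :=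
        setIntegral_mono_on i0 (i1.add i2) measurableSet_Ioi (fun h hh => far_pt hs ha0 ha1 hy hh)
    _ = (∫ h in Ioi (0:ℝ), y ^ (-(a + (1 + 2 * s))) * Tt s a (y⁻¹ * h)) +
        ∫ h in Ioi (0:ℝ), (Ioo (y - 2) y).indicator (fun h => (y - h) ^ (-a) * (y / 2) ^ (-(1 + 2 * s))) h :=
        integral_add i1 i2
    _ ≤ 0 + (y / 2) ^ (-(1 + 2 * s)) * (2 ^ (1 - a) / (1 - a)) := by
        apply add_le_add
        · rw [integral_const_mul, integral_comp_mul_left_Ioi _ _ hyi, mul_zero, inv_inv, smul_eq_mul]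
          have := Tt_nonpos hs hs1 ha
          have h1 : 0 ≤ y ^ (-(a + (1 + 2 * s))) := rpow_nonneg hy0.le _
          exact mul_nonpos_of_nonneg_of_nonpos h1 (mul_nonpos_of_nonneg_of_nonpos hy0.le this)
        · rw [setIntegral_indicator measurableSet_Ioo]
          have e : Ioi (0:ℝ) ∩ Ioo (y - 2) y = Ioo (y - 2) y := by
            apply inter_eq_right.2
            intro h hh
            exact lt_trans (by linarith : (0:ℝ) < y - 2) hh.1
          rw [e, ← integral_Ioc_eq_integral_Ioo, integral_mul_const, ← intervalIntegral.integral_of_le (by linarith),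
            intervalIntegral.integral_comp_sub_left (fun k => k ^ (-a)) y, sub_self,
            show y - (y - 2) = 2 by ring, integral_rpow (Or.inl (by linarith)), Real.zero_rpow (by linarith),
            show -a + 1 = 1 - a by ring, sub_zero, mul_comm]
    _ = _ := zero_add _

/-- the bound used below -/
theorem fl_Psi_bound {s a q : ℝ} (hs : 1 / 2 ≤ s) (hs1 : s < 1) (ha : a = 9 / 5 * (1 - s)) (hq0 : 0 ≤ q) (hq : q ≤ 1 + 2 * s) :
    ∃ C : ℝ, 0 ≤ C ∧ ∀ y : ℝ, 0 < y → fl s (Psi a) y ≤ C * y ^ (-q) := by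
  have ha0 : 0 < a := by rw [ha]; linarith
  have ha1 : a < 1 := by rw [ha]; linarith
  obtain ⟨C1, hC1, h1⟩ := fl_Psi_near (s := s) (by linarith) hs1 ha0.le
  set C2 : ℝ := 2 ^ (1 + 2 * s) * (2 ^ (1 - a) / (1 - a)) with hC2
  have hC20 : 0 ≤ C2 := by
    have : 0 < 1 - a := by linarith
    positivity
  refine ⟨C1 * 4 ^ q + C2, by positivity, fun y hy => ?_⟩
  have hyq : 0 < y ^ (-q) := rpow_pos_of_pos hy _
  rcases le_total y 4 with hy4 | hy4
  · have h2 := h1 y ⟨hy.le, hy4⟩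
    have h3 : 1 ≤ 4 ^ q * y ^ (-q) := by
      rw [rpow_neg hy.le, ← div_eq_mul_inv, one_le_div (rpow_pos_of_pos hy _)]
      exact rpow_le_rpow hy.le hy4 hq0
    nlinarith
  · have h2 := fl_Psi_far hs hs1 ha hy4
    have e : (y / 2) ^ (-(1 + 2 * s)) * (2 ^ (1 - a) / (1 - a)) = C2 * y ^ (-(1 + 2 * s)) := by
      rw [hC2, div_rpow hy.le (by norm_num), rpow_neg (by norm_num : (0:ℝ) ≤ 2)]
      field_simp
    rw [e] at h2
    have h3 : y ^ (-(1 + 2 * s)) ≤ y ^ (-q) := rpow_le_rpow_of_exponent_le (by linarith) (by linarith)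
    have h4 : 0 ≤ C1 * 4 ^ q * y ^ (-q) := by positivity
    nlinarith

/-- the scaled profile -/
noncomputable def Phi (a ε x : ℝ) : ℝ := ε ^ (-a) * Psi a (x / ε)

theorem Phi_contDiff (a ε : ℝ) : ContDiff ℝ ∞ (Phi a ε) :=
  contDiff_const.mul ((Psi_contDiff a).comp (contDiff_id.div_const ε))

theorem Phi_abs {a ε : ℝ} (ha : 0 ≤ a) (hε : 0 < ε) (x : ℝ) : |Phi a ε x| ≤ ε ^ (-a) := by
  unfold Phi
  rw [abs_mul, abs_of_pos (rpow_pos_of_pos hε _)]
  have := Psi_abs ha (x / ε)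
  have h := rpow_pos_of_pos hε (-a)
  nlinarith

theorem Phi_le {a ε x : ℝ} (hε : 0 < ε) (hx : 0 < x) : Phi a ε x ≤ x ^ (-a) := by
  unfold Phi
  have h1 := Psi_le_rpow (a := a) (div_pos hx hε)
  have h2 : ε ^ (-a) * (x / ε) ^ (-a) = x ^ (-a) := by
    rw [← mul_rpow hε.le (div_pos hx hε).le]
    congr 1
    field_simp
  rw [← h2]
  exact mul_le_mul_of_nonneg_left h1 (rpow_nonneg hε.le _)

theorem Phi_eq {a ε x : ℝ} (hε : 0 < ε) (hx : 2 * ε ≤ x) : Phi a ε x = x ^ (-a) := by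
  unfold Phi
  have hx0 : 0 < x := by linarith
  rw [Psi_eq (by rw [le_div_iff₀ hε]; exact hx), ← mul_rpow hε.le (div_pos hx0 hε).le]
  congr 1
  field_simp

theorem fl_Phi {s a ε : ℝ} (hε : 0 < ε) (x : ℝ) :
    fl s (Phi a ε) x = ε ^ (-(a + 2 * s)) * fl s (Psi a) (x / ε) := by
  have hεi : 0 < ε⁻¹ := by positivity
  have e : ∀ h ∈ Ioi (0:ℝ), sd (Phi a ε) x h / h ^ (1 + 2 * s) =
      ε ^ (-(a + (1 + 2 * s))) * (fun k => sd (Psi a) (x / ε) k / k ^ (1 + 2 * s)) (ε⁻¹ * h) := by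
    intro h hh
    simp only [mem_Ioi] at hh
    have e1 : h ^ (1 + 2 * s) = ε ^ (1 + 2 * s) * (ε⁻¹ * h) ^ (1 + 2 * s) := by
      rw [← mul_rpow hε.le (by positivity)]
      congr 1
      field_simp
    have e2 : sd (Phi a ε) x h = ε ^ (-a) * sd (Psi a) (x / ε) (ε⁻¹ * h) := by
      unfold sd Phi
      have : (x + h) / ε = x / ε + ε⁻¹ * h := by field_simp
      rw [this]
      have : (x - h) / ε = x / ε - ε⁻¹ * h := by field_simp
      rw [this]
      ring
    have e3 : ε ^ (-(a + (1 + 2 * s))) = ε ^ (-a) / ε ^ (1 + 2 * s) := by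
      rw [neg_add, rpow_add hε, rpow_neg hε.le (1 + 2 * s)]
      rfl
    simp only
    rw [e2, e1, e3, div_mul_div_comm]
  have e4 := integral_comp_mul_left_Ioi (fun k => sd (Psi a) (x / ε) k / k ^ (1 + 2 * s)) 0 hεi
  rw [mul_zero, inv_inv, smul_eq_mul, ← fl_eq] at e4
  rw [fl_eq, setIntegral_congr_fun measurableSet_Ioi e, integral_const_mul, e4, ← mul_assoc]
  congr 1
  rw [← rpow_add_one hε.ne']
  congr 1
  ring

/-- the test function -/
noncomputable def psi (a R ε x : ℝ) : ℝ := bt (Phi a ε x - R ^ (-a))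

theorem psi_contDiff (a R ε : ℝ) : ContDiff ℝ ∞ (psi a R ε) :=
  bt_contDiff.comp ((Phi_contDiff a ε).sub contDiff_const)

theorem psi_nonneg (a R ε x : ℝ) : 0 ≤ psi a R ε x := bt_nonneg _

theorem psi_zero {a R ε x : ℝ} (ha : 0 ≤ a) (hε : 0 < ε) (hR : 0 < R) (hx : x ≤ ε ∨ R ≤ x) : psi a R ε x = 0 := by
  unfold psi
  apply bt_zero
  have h1 : 0 < R ^ (-a) := rpow_pos_of_pos hR _
  rcases hx with h | h
  · unfold Phi
    rw [Psi_zero (by rw [div_le_one hε]; exact h), mul_zero]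
    linarith
  · have h2 := Phi_le (a := a) hε (hR.trans_le h)
    have h3 : x ^ (-a) ≤ R ^ (-a) := rpow_le_rpow_of_nonpos hR h (by linarith)
    linarith

theorem psi_compact {a R ε : ℝ} (ha : 0 ≤ a) (hε : 0 < ε) (hR : 0 < R) : HasCompactSupport (psi a R ε) := by
  apply HasCompactSupport.intro (K := Icc ε R) isCompact_Icc
  intro x hx
  apply psi_zero ha hε hR
  by_contra hcon
  push Not at hcon
  exact hx ⟨hcon.1.le, hcon.2.le⟩

theorem psi_lower {a R ε x : ℝ} (ha : 0 ≤ a) (hε : 0 < ε) (hR : 0 < R) (h8 : ε ≤ R / 8) (h1 : R / 4 ≤ x) (h2 : x ≤ R / 2) :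
    bt ((R / 2) ^ (-a) - R ^ (-a)) ≤ psi a R ε x := by
  unfold psi
  apply bt_mono
  rw [Phi_eq hε (by linarith)]
  have : (R / 2) ^ (-a) ≤ x ^ (-a) := rpow_le_rpow_of_nonpos (by linarith) h2 (by linarith)
  linarith

theorem psi_integral {a R ε : ℝ} (ha : 0 ≤ a) (hε : 0 < ε) (hR : 0 < R) (h8 : ε ≤ R / 8) :
    R / 4 * bt ((R / 2) ^ (-a) - R ^ (-a)) ≤ ∫ x, psi a R ε x := by
  have hi : Integrable (psi a R ε) := (psi_contDiff a R ε).continuous.integrable_of_hasCompactSupport (psi_compact ha hε hR)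
  calc R / 4 * bt ((R / 2) ^ (-a) - R ^ (-a)) = ∫ _x in Icc (R / 4) (R / 2), bt ((R / 2) ^ (-a) - R ^ (-a)) := by
        rw [setIntegral_const, smul_eq_mul, Measure.real, Real.volume_Icc, ENNReal.toReal_ofReal (by linarith)]
        congr 1
        ring
    _ ≤ ∫ x in Icc (R / 4) (R / 2), psi a R ε x :=
        setIntegral_mono_on (integrableOn_const (by simp)) hi.integrableOn measurableSet_Icc
          (fun x hx => psi_lower ha hε hR h8 hx.1 hx.2)
    _ ≤ ∫ x, psi a R ε x := setIntegral_le_integral hi (Eventually.of_forall fun x => psi_nonneg a R ε x)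

theorem fl_psi_le {s a q C R ε x : ℝ} (hs : 0 < s) (hs1 : s < 1) (ha : 0 ≤ a) (hε : 0 < ε) (hR : 0 < R) (hC : 0 ≤ C)
    (hb : ∀ y : ℝ, 0 < y → fl s (Psi a) y ≤ C * y ^ (-q)) (hx : 0 < x) :
    fl s (psi a R ε) x ≤ C * ε ^ (q - a - 2 * s) * x ^ (-q) := by
  set B := Phi a ε x - R ^ (-a) with hB
  have hσ := smoothTransition.nonneg B
  have hσ1 := smoothTransition.le_one B
  have h1 : fl s (psi a R ε) x ≤ smoothTransition B * fl s (Phi a ε) x := by
    rw [fl_eq, fl_eq, ← integral_const_mul]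
    apply setIntegral_mono_on
    · exact sd_int hs hs1 ((psi_contDiff a R ε).of_le two_le_infty) (psi_compact ha hε hR) x
    · exact (sd_int' hs hs1 ((Phi_contDiff a ε).of_le two_le_infty) (Phi_abs ha hε) x).const_mul _
    · exact measurableSet_Ioi
    · intro h hh
      simp only [mem_Ioi] at hh
      rw [← mul_div_assoc]
      apply div_le_div_of_nonneg_right _ (rpow_nonneg hh.le _)
      unfold sd psi
      have c1 := bt_convex (Phi a ε (x + h) - R ^ (-a)) B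
      have c2 := bt_convex (Phi a ε (x - h) - R ^ (-a)) B
      rw [← hB]
      rw [hB] at c1 c2 ⊢
      nlinarith
  have h2 : fl s (Phi a ε) x ≤ C * ε ^ (q - a - 2 * s) * x ^ (-q) := by
    rw [fl_Phi hε]
    have h3 := hb (x / ε) (div_pos hx hε)
    have h4 : 0 < ε ^ (-(a + 2 * s)) := rpow_pos_of_pos hε _
    calc ε ^ (-(a + 2 * s)) * fl s (Psi a) (x / ε) ≤ ε ^ (-(a + 2 * s)) * (C * (x / ε) ^ (-q)) :=
          mul_le_mul_of_nonneg_left h3 h4.le
      _ = _ := by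
          rw [div_rpow hx.le hε.le, rpow_neg hε.le q, div_inv_eq_mul]
          rw [show q - a - 2 * s = -(a + 2 * s) + q by ring, rpow_add hε]
          ring
  have h5 : 0 ≤ C * ε ^ (q - a - 2 * s) * x ^ (-q) := by positivity
  rcases le_total 0 (fl s (Phi a ε) x) with h | h
  · calc fl s (psi a R ε) x ≤ smoothTransition B * fl s (Phi a ε) x := h1
      _ ≤ 1 * fl s (Phi a ε) x := mul_le_mul_of_nonneg_right hσ1 h
      _ ≤ _ := by rw [one_mul]; exact h2
  · have : smoothTransition B * fl s (Phi a ε) x ≤ 0 := mul_nonpos_of_nonneg_of_nonpos hσ h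
    linarith

end Pool.Agent.V1180.FS
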