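import Pool.Agent.V1180.FSd

set_option autoImplicit false

/-!
# The quantitative Hopf lemma
-/

namespace Pool.Agent.V1180.FS

open Real MeasureTheory Filter Topology Set
open scoped ContDiff

/-- the tail of `u` -/
noncomputable def Tl (s : ℝ) (u : ℝ → ℝ) (R : ℝ) : ℝ := ∫ x in Ioi R, u x * x ^ (-(1 + 2 * s))

theorem Tl_int {s B R : ℝ} (hs : 0 < s) {u : ℝ → ℝ} (hu : Continuous u) (hB : ∀ x, |u x| ≤ B) (hR : 0 < R) :
    IntegrableOn (fun x => u x * x ^ (-(1 + 2 * s))) (Ioi R) := by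
  have h1 : IntegrableOn (fun x : ℝ => B * x ^ (-(1 + 2 * s))) (Ioi R) :=
    (integrableOn_Ioi_rpow_of_lt (by linarith) hR).const_mul B
  refine h1.mono' ?_ ?_
  · apply ContinuousOn.aestronglyMeasurable _ measurableSet_Ioi
    apply hu.continuousOn.mul
    intro x hx
    exact (Real.continuousAt_rpow_const x _ (Or.inl (ne_of_gt (lt_trans hR hx)))).continuousWithinAt
  · refine (ae_restrict_iff' measurableSet_Ioi).2 (Eventually.of_forall fun x hx => ?_)
    have hx0 : 0 < x := lt_trans hR hx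
    rw [Real.norm_eq_abs, abs_mul, abs_of_pos (rpow_pos_of_pos hx0 _)]
    exact mul_le_mul_of_nonneg_right (hB x) (rpow_nonneg hx0.le _)

/-- the key estimate -/
theorem core {s B R K D : ℝ} (hs : 1 / 2 ≤ s) (hs1 : s < 1) {u : ℝ → ℝ} (hu : Continuous u) (hB : ∀ x, |u x| ≤ B)
    (hu0 : ∀ x, 0 ≤ u x) (hneg : ∀ x ≤ 0, u x = 0) (hR : 0 < R) (hK : ∀ x ∈ Ioc 0 R, u x ≤ K * x) (hK0 : 0 ≤ K)
    (hD : ∀ ε : ℝ, 0 < ε → ε ≤ R / 8 →
      -D * ∫ x, psi (9 / 5 * (1 - s)) R ε x ≤ ∫ x, u x * fl s (psi (9 / 5 * (1 - s)) R ε) x) :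
    Tl s u R ≤ D := by
  have hs0 : 0 < s := by linarith
  set a : ℝ := 9 / 5 * (1 - s) with ha
  have ha0 : 0 < a := by rw [ha]; linarith
  set δ : ℝ := (1 - s) / 10 with hδ
  have hδ0 : 0 < δ := by rw [hδ]; linarith
  set q : ℝ := a + 2 * s + δ with hq
  have hq2 : q < 2 := by rw [hq, ha, hδ]; linarith
  have hq0 : 0 ≤ q := by rw [hq]; linarith
  obtain ⟨C, hC, hCb⟩ := fl_Psi_bound (q := q) hs hs1 ha hq0 (by linarith)
  set E : ℝ := K * (C * (R ^ (2 - q) / (2 - q))) with hE
  set m0 : ℝ := R / 4 * bt ((R / 2) ^ (-a) - R ^ (-a)) with hm0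
  have hm0p : 0 < m0 := by
    rw [hm0]
    apply mul_pos (by linarith)
    apply bt_pos
    have : R ^ (-a) < (R / 2) ^ (-a) := rpow_lt_rpow_of_neg (by linarith) (by linarith) (by linarith)
    linarith
  have key : ∀ ε : ℝ, 0 < ε → ε ≤ R / 8 → (∫ x, psi a R ε x) * (Tl s u R - D) ≤ E * ε ^ δ := by
    intro ε hε hε8
    have h2 := hD ε hε hε8
    have hps : ContDiff ℝ 2 (psi a R ε) := (psi_contDiff a R ε).of_le two_le_infty
    have hpc : HasCompactSupport (psi a R ε) := psi_compact ha0.le hε hR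
    have hflc : Continuous (fl s (psi a R ε)) := fl_cont hs0 hs1 hps hpc
    obtain ⟨C1, hC1⟩ := fl_bdd hs0 hs1 hps hpc
    have hC10 : 0 ≤ C1 := (abs_nonneg _).trans (hC1 0)
    have hB0 : 0 ≤ B := (abs_nonneg _).trans (hB 0)
    have htail : ∀ x : ℝ, R < x → fl s (psi a R ε) x ≤ -(x ^ (-(1 + 2 * s)) * ∫ y, psi a R ε y) ∧
        -((x - R) ^ (-(1 + 2 * s)) * ∫ y, psi a R ε y) ≤ fl s (psi a R ε) x := by
      intro x hx
      refine fl_tail hs0 hps.continuous (fun y => psi_nonneg a R ε y) ?_ hR hx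
      intro y hy
      rcases hy with hy | hy
      · exact psi_zero ha0.le hε hR (Or.inl (hy.trans hε.le))
      · exact psi_zero ha0.le hε hR (Or.inr hy)
    have hm : 0 ≤ ∫ y, psi a R ε y := integral_nonneg fun y => psi_nonneg a R ε y
    set m := ∫ y, psi a R ε y with hmdef
    set F : ℝ → ℝ := fun x => u x * fl s (psi a R ε) x with hF
    have hFc : Continuous F := hu.mul hflc
    -- integrability
    have i1 : IntegrableOn F (Ioc 0 (R + 1)) :=
      (hFc.continuousOn.integrableOn_Icc).mono_set Ioc_subset_Icc_self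
    have i2 : IntegrableOn F (Ioi (R + 1)) := by
      have h3 : IntegrableOn (fun x : ℝ => B * m * (R + 1) ^ (1 + 2 * s) * x ^ (-(1 + 2 * s))) (Ioi (R + 1)) :=
        (integrableOn_Ioi_rpow_of_lt (by linarith) (by linarith)).const_mul _
      refine h3.mono' hFc.aestronglyMeasurable ?_
      refine (ae_restrict_iff' measurableSet_Ioi).2 (Eventually.of_forall fun x hx => ?_)
      simp only [mem_Ioi] at hx
      have h6 := htail x (by linarith)
      have h7 : 0 ≤ x ^ (-(1 + 2 * s)) * m := mul_nonneg (rpow_nonneg (by linarith) _) hm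
      have h8 : |fl s (psi a R ε) x| ≤ (x - R) ^ (-(1 + 2 * s)) * m := by
        rw [abs_le]
        exact ⟨h6.2, by
          have : 0 ≤ (x - R) ^ (-(1 + 2 * s)) * m := mul_nonneg (rpow_nonneg (by linarith) _) hm
          linarith [h6.1]⟩
      rw [hF, Real.norm_eq_abs]
      simp only
      rw [abs_mul]
      have h12 : (x - R) ^ (-(1 + 2 * s)) ≤ (R + 1) ^ (1 + 2 * s) * x ^ (-(1 + 2 * s)) := by
        have e1 : (R + 1) ^ (1 + 2 * s) * x ^ (-(1 + 2 * s)) = (x / (R + 1)) ^ (-(1 + 2 * s)) := by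
          rw [div_rpow (by linarith) (by linarith), rpow_neg (by linarith : 0 ≤ R + 1)]
          field_simp
        rw [e1]
        apply rpow_le_rpow_of_nonpos (by apply div_pos <;> linarith) _ (by linarith)
        rw [div_le_iff₀ (by linarith)]
        nlinarith
      calc |u x| * |fl s (psi a R ε) x| ≤ B * ((x - R) ^ (-(1 + 2 * s)) * m) :=
            mul_le_mul (hB x) h8 (abs_nonneg _) hB0
        _ = B * m * (x - R) ^ (-(1 + 2 * s)) := by ring
        _ ≤ B * m * ((R + 1) ^ (1 + 2 * s) * x ^ (-(1 + 2 * s))) := mul_le_mul_of_nonneg_left h12 (mul_nonneg hB0 hm)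
        _ = _ := by ring
    have i3 : IntegrableOn F (Ioi R) := by
      have e : Ioi R = Ioc R (R + 1) ∪ Ioi (R + 1) := (Ioc_union_Ioi_eq_Ioi (by linarith)).symm
      rw [e, integrableOn_union]
      exact ⟨i1.mono_set (Ioc_subset_Ioc_left hR.le), i2⟩
    have i4 : IntegrableOn F (Ioc 0 R) := i1.mono_set (Ioc_subset_Ioc_right (by linarith))
    have hsplit : ∫ x, F x = (∫ x in Ioc 0 R, F x) + ∫ x in Ioi R, F x := by
      rw [← setIntegral_union (Set.Ioc_disjoint_Ioi le_rfl) measurableSet_Ioi i4 i3, Ioc_union_Ioi_eq_Ioi hR.le]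
      symm
      apply setIntegral_eq_integral_of_forall_compl_eq_zero
      intro x hx
      simp only [mem_Ioi, not_lt] at hx
      rw [hF]
      simp only
      rw [hneg x hx, zero_mul]
    have hfar : ∫ x in Ioi R, F x ≤ -(m * Tl s u R) := by
      have h9 : ∫ x in Ioi R, F x ≤ ∫ x in Ioi R, -m * (u x * x ^ (-(1 + 2 * s))) := by
        refine setIntegral_mono_on i3 ((Tl_int hs0 hu hB hR).const_mul _) measurableSet_Ioi (fun x hx => ?_)
        have := mul_le_mul_of_nonneg_left (htail x hx).1 (hu0 x)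
        rw [hF]
        simp only
        linarith
      rw [integral_const_mul] at h9
      unfold Tl
      linarith
    have hnear : ∫ x in Ioc 0 R, F x ≤ E * ε ^ δ := by
      have i5 : IntegrableOn (fun x : ℝ => K * C * ε ^ δ * x ^ (1 - q)) (Ioc 0 R) := by
        rw [← intervalIntegrable_iff_integrableOn_Ioc_of_le hR.le]
        exact (intervalIntegral.intervalIntegrable_rpow' (by linarith)).const_mul _
      have h9 : ∫ x in Ioc 0 R, F x ≤ ∫ x in Ioc 0 R, K * C * ε ^ δ * x ^ (1 - q) := by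
        refine setIntegral_mono_on i4 i5 measurableSet_Ioc (fun x hx => ?_)
        have h10 := fl_psi_le (R := R) hs0 hs1 ha0.le hε hR hC hCb hx.1
        rw [show q - a - 2 * s = δ by rw [hq]; ring] at h10
        have h11 : 0 ≤ C * ε ^ δ * x ^ (-q) := mul_nonneg (mul_nonneg hC (rpow_nonneg hε.le _)) (rpow_nonneg hx.1.le _)
        rw [hF]
        simp only
        calc u x * fl s (psi a R ε) x ≤ u x * (C * ε ^ δ * x ^ (-q)) := mul_le_mul_of_nonneg_left h10 (hu0 x)
          _ ≤ (K * x) * (C * ε ^ δ * x ^ (-q)) := mul_le_mul_of_nonneg_right (hK x hx) h11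
          _ = K * C * ε ^ δ * x ^ (1 - q) := by
              rw [show 1 - q = -q + 1 by ring, rpow_add_one hx.1.ne']
              ring
      have e9 : ∫ x in Ioc 0 R, x ^ (1 - q) = R ^ (2 - q) / (2 - q) := by
        rw [← intervalIntegral.integral_of_le hR.le, integral_rpow (Or.inl (by linarith)),
          Real.zero_rpow (by linarith), show 1 - q + 1 = 2 - q by ring, sub_zero]
      rw [integral_const_mul, e9] at h9
      rw [hE]
      calc _ ≤ _ := h9
        _ = _ := by ring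
    have : -D * m ≤ E * ε ^ δ - m * Tl s u R := by
      calc -D * m ≤ ∫ x, F x := h2
        _ ≤ _ := by rw [hsplit]; linarith
    nlinarith
  by_contra hcon
  push Not at hcon
  have hlim : Tendsto (fun ε : ℝ => E * ε ^ δ) (𝓝[>] 0) (𝓝 0) := by
    have h1 : Tendsto (fun ε : ℝ => ε ^ δ) (𝓝 0) (𝓝 (0 ^ δ)) := (Real.continuousAt_rpow_const 0 δ (Or.inr hδ0.le)).tendsto
    rw [Real.zero_rpow hδ0.ne'] at h1
    have h2 := (h1.const_mul E).mono_left (nhdsWithin_le_nhds (s := Ioi 0))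
    rwa [mul_zero] at h2
  have hpos : 0 < m0 * (Tl s u R - D) := mul_pos hm0p (by linarith)
  obtain ⟨ε, h1, h2⟩ := ((hlim.eventually (gt_mem_nhds hpos)).and (Ioc_mem_nhdsGT (show (0:ℝ) < R / 8 by linarith))).exists
  have h3 := key ε h2.1 h2.2
  have h4 := psi_integral ha0.le h2.1 hR h2.2
  have h5 : m0 * (Tl s u R - D) ≤ (∫ x, psi a R ε x) * (Tl s u R - D) := mul_le_mul_of_nonneg_right h4 (by linarith)
  linarith

end Pool.Agent.V1180.FS
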