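import Pool.Agent.V1180.Moll

set_option autoImplicit false

/-! Gagliardo energies. -/

set_option linter.unusedSectionVars false
set_option linter.style.haveILetI false

open Set Filter Topology MeasureTheory Metric
open scoped ContDiff ENNReal

namespace Pool.Agent.V1180.Frac

variable {E : Type} [NormedAddCommGroup E] [InnerProductSpace ℝ E] [FiniteDimensional ℝ E]
  [MeasurableSpace E] [BorelSpace E]

/-- the kernel `|z|^{-(n+2s)}` -/
noncomputable def kern (n : ℕ) (s : ℝ) (z : E) : ℝ := ‖z‖ ^ (-((n : ℝ) + 2 * s))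

/-- smooth functions with compact support in `U` -/
def IsTest (U : Set E) (φ : E → ℝ) : Prop :=
  ContDiff ℝ ∞ φ ∧ HasCompactSupport φ ∧ tsupport φ ⊆ U

/-- the Gagliardo integrand is integrable -/
def FiniteEnergy (n : ℕ) (s : ℝ) (u : E → ℝ) : Prop :=
  Integrable (fun p : E × E => (u p.1 - u p.2) ^ 2 * kern n s (p.1 - p.2))

/-- the Gagliardo energy -/
noncomputable def energy (n : ℕ) (s : ℝ) (u : E → ℝ) : ℝ :=
  ∫ p : E × E, (u p.1 - u p.2) ^ 2 * kern n s (p.1 - p.2)

variable {n : ℕ} {s : ℝ}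

theorem kern_nonneg (z : E) : 0 ≤ kern n s z := Real.rpow_nonneg (norm_nonneg _) _

theorem kern_neg (z : E) : kern n s (-z) = kern n s z := by unfold kern; rw [norm_neg]

theorem kern_sub_comm (x y : E) : kern n s (x - y) = kern n s (y - x) := by
  unfold kern; rw [norm_sub_rev]

theorem kern_measurable : Measurable (kern n s : E → ℝ) := by
  unfold kern
  exact measurable_norm.pow_const _

/-- the truncated kernel -/
noncomputable def kmin (n : ℕ) (s : ℝ) (z : E) : ℝ := min 1 (‖z‖ ^ 2) * kern n s z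

theorem kmin_nonneg (z : E) : 0 ≤ kmin n s z :=
  mul_nonneg (le_min zero_le_one (by positivity)) (kern_nonneg z)

theorem kmin_integrable (hn : Module.finrank ℝ E = n) (hn1 : 1 ≤ n) (hs : 0 < s) (hs1 : s < 1) :
    Integrable (kmin n s : E → ℝ) := by
  haveI : Nontrivial E := Module.nontrivial_of_finrank_pos (R := ℝ) (by omega)
  have h := integrable_fun_norm_addHaar (E := E) (volume : Measure E)
    (f := fun y : ℝ => min 1 (y ^ 2) * y ^ (-((n : ℝ) + 2 * s)))
  have e : (fun y : ℝ => min 1 (y ^ 2) * y ^ (-((n : ℝ) + 2 * s))) ∘ (fun z : E => ‖z‖) =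
    kmin n s := rfl
  rw [show (fun z : E => (fun y : ℝ => min 1 (y ^ 2) * y ^ (-((n : ℝ) + 2 * s))) ‖z‖) =
    kmin n s from rfl] at h
  rw [h]
  have hsplit : Ioi (0:ℝ) = Ioc 0 1 ∪ Ioi 1 := (Ioc_union_Ioi_eq_Ioi zero_le_one).symm
  rw [hsplit]
  apply IntegrableOn.union
  · have h1 : IntegrableOn (fun y : ℝ => y ^ (1 - 2 * s)) (Ioc 0 1) := by
      rw [← intervalIntegrable_iff_integrableOn_Ioc_of_le zero_le_one]
      exact intervalIntegral.intervalIntegrable_rpow' (by linarith)
    refine h1.congr_fun ?_ measurableSet_Ioc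
    intro y hy
    have hy0 : 0 < y := hy.1
    simp only [smul_eq_mul]
    rw [min_eq_right (pow_le_one₀ hy0.le hy.2), hn, ← Real.rpow_natCast, ← Real.rpow_natCast,
      ← Real.rpow_add hy0, ← Real.rpow_add hy0]
    congr 1
    rw [Nat.cast_sub hn1]
    push_cast
    ring
  · have h1 : IntegrableOn (fun y : ℝ => y ^ (-1 - 2 * s)) (Ioi 1) :=
      integrableOn_Ioi_rpow_of_lt (by linarith) zero_lt_one
    refine h1.congr_fun ?_ measurableSet_Ioi
    intro y hy
    have hy1 : 1 < y := hy
    have hy0 : 0 < y := by linarith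
    simp only [smul_eq_mul]
    rw [min_eq_left (one_le_pow₀ hy1.le), hn, one_mul, ← Real.rpow_natCast, ← Real.rpow_add hy0]
    congr 1
    rw [Nat.cast_sub hn1]
    push_cast
    ring

/-- `g(y) k(x-y)` is integrable on the product -/
theorem conv_int {g k : E → ℝ} (hg : Integrable g) (hk : Integrable k) :
    Integrable (fun p : E × E => g p.2 * k (p.1 - p.2)) := by
  have := hg.convolution_integrand (ContinuousLinearMap.lsmul ℝ ℝ) hk
  have h : Integrable (fun p : E × E => g p.2 * k (p.1 - p.2))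
      ((volume : Measure E).prod volume) := by simpa using this
  exact h

theorem conv_int' {g k : E → ℝ} (hg : Integrable g) (hk : Integrable k)
    (hev : ∀ z, k (-z) = k z) :
    Integrable (fun p : E × E => g p.1 * k (p.1 - p.2)) := by
  have h1 := (conv_int hg hk).swap
  refine h1.congr (ae_of_all _ fun p => ?_)
  simp only [Function.comp, Prod.fst_swap, Prod.snd_swap]
  rw [← hev (p.1 - p.2), neg_sub]

theorem test_energy (hn : Module.finrank ℝ E = n) (hn1 : 1 ≤ n) (hs : 0 < s) (hs1 : s < 1)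
    {U : Set E} {ψ : E → ℝ} (hψ : IsTest U ψ) : FiniteEnergy n s ψ := by
  obtain ⟨hψ1, hψ2, -⟩ := hψ
  obtain ⟨L, hL⟩ := ContDiff.lipschitzWith_of_hasCompactSupport hψ2 hψ1 (by simp)
  obtain ⟨M, hM⟩ := hψ2.exists_bound_of_continuous hψ1.continuous
  have hM0 : 0 ≤ M := (norm_nonneg _).trans (hM 0)
  set K : Set E := tsupport ψ with hK
  have hKi : Integrable (K.indicator fun _ => (1:ℝ)) :=
    (integrable_indicator_iff hψ2.measurableSet).2 (integrableOn_const hψ2.measure_ne_top)
  have hk := kmin_integrable (E := E) hn hn1 hs hs1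
  have hev : ∀ z : E, kmin n s (-z) = kmin n s z := by
    intro z; unfold kmin; rw [norm_neg, kern_neg]
  have hdom := ((conv_int' hKi hk hev).add (conv_int hKi hk)).const_mul ((L:ℝ) ^ 2 + 4 * M ^ 2)
  refine hdom.mono' ?_ (ae_of_all _ fun p => ?_)
  · have h1 : Measurable (fun p : E × E => (ψ p.1 - ψ p.2) ^ 2) :=
      (((hψ1.continuous.comp continuous_fst).sub (hψ1.continuous.comp continuous_snd)).pow
        2).measurable
    exact (h1.mul (kern_measurable.comp (measurable_fst.sub measurable_snd))).aestronglyMeasurable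
  · obtain ⟨x, y⟩ := p
    simp only [Pi.add_apply]
    have hk0 := kern_nonneg (n := n) (s := s) (x - y)
    rw [Real.norm_of_nonneg (by positivity)]
    by_cases hx : x ∈ K ∨ y ∈ K
    · have h1 : |ψ x - ψ y| ≤ L * ‖x - y‖ := by
        have := hL.dist_le_mul x y
        rwa [dist_eq_norm, dist_eq_norm] at this
      have h2 : |ψ x - ψ y| ≤ 2 * M := by
        have := abs_sub (ψ x) (ψ y)
        have := hM x
        have := hM y
        simp only [Real.norm_eq_abs] at *
        linarith
      have h3 : (ψ x - ψ y) ^ 2 ≤ ((L:ℝ) ^ 2 + 4 * M ^ 2) * min 1 (‖x - y‖ ^ 2) := by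
        rw [← sq_abs]
        rcases le_total 1 (‖x - y‖ ^ 2) with h | h
        · rw [min_eq_left h]
          have : |ψ x - ψ y| ^ 2 ≤ (2 * M) ^ 2 := by gcongr
          nlinarith [sq_nonneg (L:ℝ)]
        · rw [min_eq_right h]
          have : |ψ x - ψ y| ^ 2 ≤ (L * ‖x - y‖) ^ 2 := by gcongr
          have : 0 ≤ 4 * M ^ 2 * ‖x - y‖ ^ 2 := by positivity
          nlinarith
      have h4 : (1:ℝ) ≤ K.indicator (fun _ => (1:ℝ)) x + K.indicator (fun _ => (1:ℝ)) y := by
        rcases hx with h | h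
        · rw [indicator_of_mem h]
          have : 0 ≤ K.indicator (fun _ => (1:ℝ)) y := indicator_nonneg (fun _ _ => zero_le_one) _
          linarith
        · rw [indicator_of_mem h]
          have : 0 ≤ K.indicator (fun _ => (1:ℝ)) x := indicator_nonneg (fun _ _ => zero_le_one) _
          linarith
      have h5 := kmin_nonneg (n := n) (s := s) (x - y)
      calc (ψ x - ψ y) ^ 2 * kern n s (x - y)
          ≤ (((L:ℝ) ^ 2 + 4 * M ^ 2) * min 1 (‖x - y‖ ^ 2)) * kern n s (x - y) := by gcongr
        _ = ((L:ℝ) ^ 2 + 4 * M ^ 2) * (1 * kmin n s (x - y)) := by unfold kmin; ring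
        _ ≤ ((L:ℝ) ^ 2 + 4 * M ^ 2) * ((K.indicator (fun _ => (1:ℝ)) x +
            K.indicator (fun _ => (1:ℝ)) y) * kmin n s (x - y)) := by gcongr
        _ = _ := by ring
    · push Not at hx
      rw [image_eq_zero_of_notMem_tsupport hx.1, image_eq_zero_of_notMem_tsupport hx.2,
        indicator_of_notMem hx.1, indicator_of_notMem hx.2]
      simp

/-- oscillating profile kernel `|z|^{-(n+2s)} (1 - cos ⟨ξ,z⟩)` -/
noncomputable def qk (n : ℕ) (s : ℝ) (ξ z : E) : ℝ := kern n s z * (1 - Real.cos (inner ℝ ξ z))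

theorem qk_nonneg (ξ z : E) : 0 ≤ qk n s ξ z :=
  mul_nonneg (kern_nonneg z) (by linarith [Real.cos_le_one (inner ℝ ξ z)])

theorem qk_measurable (ξ : E) : Measurable (qk n s ξ) := by
  unfold qk
  apply kern_measurable.mul
  exact (continuous_const.sub (Real.continuous_cos.comp
    (continuous_const.inner continuous_id))).measurable

theorem qk_le {ξ : E} (hξ : ‖ξ‖ = 1) (z : E) : qk n s ξ z ≤ 2 * kmin n s z := by
  unfold qk kmin
  have h1 : 1 - Real.cos (inner ℝ ξ z) ≤ 2 * min 1 (‖z‖ ^ 2) := by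
    rcases le_total 1 (‖z‖ ^ 2) with h | h
    · rw [min_eq_left h]
      linarith [Real.neg_one_le_cos (inner ℝ ξ z)]
    · rw [min_eq_right h]
      have h2 := Real.one_sub_sq_div_two_le_cos (x := inner ℝ ξ z)
      have h3 : |inner ℝ ξ z| ≤ ‖z‖ := by
        have := abs_real_inner_le_norm ξ z
        rwa [hξ, one_mul] at this
      have h4 : (inner ℝ ξ z) ^ 2 ≤ ‖z‖ ^ 2 := by
        rw [← sq_abs]; gcongr
      nlinarith [sq_nonneg ‖z‖]
  calc kern n s z * (1 - Real.cos (inner ℝ ξ z)) ≤ kern n s z * (2 * min 1 (‖z‖ ^ 2)) := by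
        gcongr; exact kern_nonneg z
    _ = _ := by ring

theorem qk_integrable (hn : Module.finrank ℝ E = n) (hn1 : 1 ≤ n) (hs : 0 < s) (hs1 : s < 1)
    {ξ : E} (hξ : ‖ξ‖ = 1) : Integrable (qk n s ξ : E → ℝ) := by
  refine ((kmin_integrable hn hn1 hs hs1).const_mul 2).mono'
    (qk_measurable ξ).aestronglyMeasurable (ae_of_all _ fun z => ?_)
  rw [Real.norm_of_nonneg (qk_nonneg ξ z)]
  exact qk_le hξ z

theorem qk_integral_pos (hn : Module.finrank ℝ E = n) (hn1 : 1 ≤ n) (hs : 0 < s) (hs1 : s < 1)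
    {ξ : E} (hξ : ‖ξ‖ = 1) : 0 < ∫ z : E, qk n s ξ z := by
  rw [integral_pos_iff_support_of_nonneg (fun z => qk_nonneg ξ z)
    (qk_integrable hn hn1 hs hs1 hξ)]
  have hopen : IsOpen {z : E | 0 < inner ℝ ξ z ∧ inner ℝ ξ z < Real.pi} := by
    have hc : Continuous (fun z : E => (inner ℝ ξ z : ℝ)) := continuous_const.inner continuous_id
    exact (isOpen_lt continuous_const hc).inter (isOpen_lt hc continuous_const)
  have hne : {z : E | 0 < inner ℝ ξ z ∧ inner ℝ ξ z < Real.pi}.Nonempty := by
    refine ⟨ξ, ?_⟩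
    simp only [mem_setOf_eq, real_inner_self_eq_norm_sq, hξ]
    norm_num
    linarith [Real.pi_gt_three]
  refine lt_of_lt_of_le (hopen.measure_pos volume hne) (measure_mono ?_)
  rintro z ⟨h1, h2⟩
  have hz : z ≠ 0 := by
    rintro rfl
    simp at h1
  have h3 : 0 < kern n s z := Real.rpow_pos_of_pos (norm_pos_iff.2 hz) _
  have h4 : Real.cos (inner ℝ ξ z) < 1 := by
    have := Real.cos_lt_cos_of_nonneg_of_le_pi (x := 0) (y := inner ℝ ξ z) le_rfl h2.le h1
    rwa [Real.cos_zero] at this
  have : 0 < qk n s ξ z := mul_pos h3 (by linarith)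
  exact this.ne'

/-- scaling of the kernel -/
theorem qk_scale (hn : Module.finrank ℝ E = n) {N : ℝ} (hN : 0 < N) (ξ z : E) :
    N ^ (-(2 * s)) * (kern n s z * (1 - Real.cos (N * inner ℝ ξ z))) =
      N ^ n * qk n s ξ (N • z) := by
  unfold qk kern
  rw [norm_smul, Real.norm_of_nonneg hN.le, Real.mul_rpow hN.le (norm_nonneg _), inner_smul_right]
  have : N ^ (-(2 * s)) = N ^ n * N ^ (-((n:ℝ) + 2 * s)) := by
    rw [← Real.rpow_natCast, ← Real.rpow_add hN]
    congr 1
    ring
  rw [this]
  ring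

/-- the autocorrelation -/
noncomputable def corr (a : E → ℝ) (z : E) : ℝ := ∫ x, a x * a (x - z)

theorem corr_bound {a : E → ℝ} (ha : Integrable a) {M : ℝ} (hM : ∀ x, |a x| ≤ M) (z : E) :
    |corr a z| ≤ M * ∫ x, |a x| := by
  unfold corr
  rw [← integral_const_mul]
  refine (abs_integral_le_integral_abs).trans ?_
  have hi : Integrable (fun x => a x * a (x - z)) :=
    ha.mul_bdd (c := M) (ha.comp_sub_right z).aestronglyMeasurable (ae_of_all _ fun x => hM _)
  apply integral_mono hi.abs (ha.abs.const_mul M)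
  intro x
  change |a x * a (x - z)| ≤ M * |a x|
  rw [abs_mul, mul_comm]
  exact mul_le_mul_of_nonneg_right (hM _) (abs_nonneg _)

theorem corr_tendsto {a : E → ℝ} (ha : Integrable a) {M : ℝ} (hM : ∀ x, |a x| ≤ M) :
    Tendsto (corr a) (𝓝 0) (𝓝 (∫ x, a x ^ 2)) := by
  have hM0 : 0 ≤ M := (abs_nonneg _).trans (hM 0)
  rw [tendsto_iff_norm_sub_tendsto_zero]
  have h1 := (translate_L1 volume ha).const_mul M
  rw [mul_zero] at h1
  refine squeeze_zero (fun _ => norm_nonneg _) (fun z => ?_) h1
  have hi : Integrable (fun x => a x * a (x - z)) :=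
    ha.mul_bdd (c := M) (ha.comp_sub_right z).aestronglyMeasurable (ae_of_all _ fun x => hM _)
  have hi2 : Integrable (fun x => a x ^ 2) := by
    have : Integrable (fun x => a x * a x) :=
      ha.mul_bdd (c := M) ha.aestronglyMeasurable (ae_of_all _ fun x => hM _)
    refine this.congr (ae_of_all _ fun x => ?_)
    simp only; ring
  unfold corr
  rw [← integral_sub hi hi2, ← integral_const_mul]
  refine (norm_integral_le_integral_norm _).trans ?_
  apply integral_mono (hi.sub hi2).norm (((ha.comp_sub_right z).sub ha).norm.const_mul M)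
  intro x
  change ‖a x * a (x - z) - a x ^ 2‖ ≤ M * ‖a (x - z) - a x‖
  have : a x * a (x - z) - a x ^ 2 = a x * (a (x - z) - a x) := by ring
  rw [this, norm_mul]
  exact mul_le_mul_of_nonneg_right (hM x) (norm_nonneg _)

/-- the main limit -/
theorem osc_limit (hn : Module.finrank ℝ E = n) (hn1 : 1 ≤ n) (hs : 0 < s) (hs1 : s < 1)
    {ξ : E} (hξ : ‖ξ‖ = 1) {a : E → ℝ} (ha : Integrable a) {M : ℝ} (hM : ∀ x, |a x| ≤ M) :
    Tendsto (fun N : ℕ => ∫ p : E × E, ((N:ℝ) + 1) ^ (-(2 * s)) * (a p.1 * a p.2 *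
      (kern n s (p.1 - p.2) * (1 - Real.cos (((N:ℝ) + 1) * inner ℝ ξ (p.1 - p.2))))))
      atTop (𝓝 ((∫ z : E, qk n s ξ z) * ∫ x, a x ^ 2)) := by
  have hM0 : 0 ≤ M := (abs_nonneg _).trans (hM 0)
  have hq := qk_integrable (E := E) hn hn1 hs hs1 hξ
  have key : ∀ N : ℕ, ∫ p : E × E, ((N:ℝ) + 1) ^ (-(2 * s)) * (a p.1 * a p.2 *
      (kern n s (p.1 - p.2) * (1 - Real.cos (((N:ℝ) + 1) * inner ℝ ξ (p.1 - p.2))))) =
      ∫ z : E, qk n s ξ z * corr a (((N:ℝ) + 1)⁻¹ • z) := by
    intro N
    set R : ℝ := (N:ℝ) + 1 with hR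
    have hR0 : 0 < R := by positivity
    have hqR : Integrable (fun z : E => R ^ n * qk n s ξ (R • z)) :=
      (hq.comp_smul hR0.ne').const_mul _
    have hqe : ∀ z : E, R ^ n * qk n s ξ (R • (-z)) = R ^ n * qk n s ξ (R • z) := by
      intro z
      unfold qk
      rw [smul_neg, kern_neg, inner_neg_right, Real.cos_neg]
    have e1 : ∀ p : E × E, R ^ (-(2 * s)) * (a p.1 * a p.2 *
        (kern n s (p.1 - p.2) * (1 - Real.cos (R * inner ℝ ξ (p.1 - p.2))))) =
        a p.2 * (a p.1 * (R ^ n * qk n s ξ (R • (p.1 - p.2)))) := by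
      intro p
      rw [← qk_scale (s := s) hn hR0]
      ring
    simp_rw [e1]
    have hint : Integrable (fun p : E × E =>
        a p.2 * (a p.1 * (R ^ n * qk n s ξ (R • (p.1 - p.2))))) := by
      have h1 := conv_int' ha hqR hqe
      have h2 : AEStronglyMeasurable (fun p : E × E => a p.2) (volume : Measure (E × E)) :=
        ha.aestronglyMeasurable.comp_snd
      exact h1.bdd_mul (c := M) h2 (ae_of_all _ fun p => hM _)
    rw [Measure.volume_eq_prod, integral_prod _ hint]
    have e2 : ∀ x : E, ∫ y, a (x, y).2 * (a (x, y).1 *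
        (R ^ n * qk n s ξ (R • ((x, y).1 - (x, y).2)))) =
        ∫ z, (R ^ n * qk n s ξ (R • z)) * (a x * a (x - z)) := by
      intro x
      rw [← integral_sub_left_eq_self (fun y => a y * (a x *
        (R ^ n * qk n s ξ (R • (x - y))))) volume x]
      congr 1
      ext z
      rw [sub_sub_cancel]
      ring
    simp_rw [e2]
    have hint2 : Integrable (Function.uncurry fun x z : E =>
        (R ^ n * qk n s ξ (R • z)) * (a x * a (x - z))) (volume.prod volume) := by
      have h1 : Integrable (fun p : E × E => a p.1 * (R ^ n * qk n s ξ (R • p.2)))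
          (volume.prod volume) := ha.mul_prod hqR
      have h2 : AEStronglyMeasurable (fun p : E × E => a (p.1 - p.2))
          ((volume : Measure E).prod volume) :=
        ha.aestronglyMeasurable.comp_quasiMeasurePreserving
          (quasiMeasurePreserving_sub volume volume)
      refine (h1.bdd_mul (c := M) h2 (ae_of_all _ fun p => hM _)).congr (ae_of_all _ fun p => ?_)
      simp only [Function.uncurry]
      ring
    rw [integral_integral_swap hint2]
    have e3 : ∀ z : E, ∫ x, (R ^ n * qk n s ξ (R • z)) * (a x * a (x - z)) =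
        (R ^ n * qk n s ξ (R • z)) * corr a z := by
      intro z
      rw [integral_const_mul]; rfl
    simp_rw [e3]
    have h4 := Measure.integral_comp_smul (volume : Measure E)
      (fun z : E => qk n s ξ z * corr a (R⁻¹ • z)) R
    have e4 : ∀ z : E, (fun z : E => qk n s ξ z * corr a (R⁻¹ • z)) (R • z) =
        qk n s ξ (R • z) * corr a z := by
      intro z
      simp only
      rw [smul_smul, inv_mul_cancel₀ hR0.ne', one_smul]
    simp_rw [e4] at h4
    have e5 : ∀ z : E, R ^ n * qk n s ξ (R • z) * corr a z =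
        R ^ n * (qk n s ξ (R • z) * corr a z) := fun z => by ring
    simp_rw [e5]
    rw [integral_const_mul, h4, hn, smul_eq_mul, abs_of_pos (by positivity), ← mul_assoc,
      mul_inv_cancel₀ (by positivity), one_mul]
  simp_rw [key]
  rw [← integral_mul_const]
  apply tendsto_integral_of_dominated_convergence
    (fun z => qk n s ξ z * (M * ∫ x, |a x|))
  · intro N
    apply (qk_measurable ξ).aestronglyMeasurable.mul
    have hcorr : AEStronglyMeasurable (corr a) (volume : Measure E) := by
      have h2 : AEStronglyMeasurable (fun p : E × E => a p.2 * a (p.2 - p.1))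
          ((volume : Measure E).prod volume) := by
        apply ha.aestronglyMeasurable.comp_snd.mul
        have h3 : AEStronglyMeasurable (fun p : E × E => a (p.1 - p.2))
            ((volume : Measure E).prod volume) :=
          ha.aestronglyMeasurable.comp_quasiMeasurePreserving
            (quasiMeasurePreserving_sub volume volume)
        exact h3.prod_swap
      exact h2.integral_prod_right'
    exact hcorr.comp_quasiMeasurePreserving
      (Measure.quasiMeasurePreserving_smul _ (by positivity))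
  · exact hq.mul_const _
  · intro N
    refine ae_of_all _ fun z => ?_
    rw [norm_mul, Real.norm_of_nonneg (qk_nonneg ξ z)]
    exact mul_le_mul_of_nonneg_left (corr_bound ha hM _) (qk_nonneg ξ z)
  · refine ae_of_all _ fun z => ?_
    apply Tendsto.const_mul
    have h1 : Tendsto (fun N : ℕ => ((N:ℝ) + 1)⁻¹ • z) atTop (𝓝 0) := by
      have := tendsto_one_div_add_atTop_nhds_zero_nat (𝕜 := ℝ)
      have h2 := this.smul_const z
      simpa using h2
    exact (corr_tendsto ha hM).comp h1

end Pool.Agent.V1180.Frac
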