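import Pool.Agent.V1180.Frac

set_option autoImplicit false
set_option linter.unusedSectionVars false

/-! The fractional conductivity form. -/

open Set Filter Topology MeasureTheory Metric
open scoped ContDiff ENNReal

namespace Pool.Agent.V1180.Frac

variable {E : Type} [NormedAddCommGroup E] [InnerProductSpace ℝ E] [FiniteDimensional ℝ E]
  [MeasurableSpace E] [BorelSpace E]

/-- the constant `C_{n,s}` -/
noncomputable def Cns (n : ℕ) (s : ℝ) : ℝ :=
  4 ^ s * Real.Gamma ((n : ℝ) / 2 + s) / (Real.pi ^ ((n : ℝ) / 2) * |Real.Gamma (-s)|)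

/-- `u ∈ H^s(R^n)` -/
def MemHs (n : ℕ) (s : ℝ) (u : E → ℝ) : Prop := MemLp u 2 ∧ FiniteEnergy n s u

/-- `w` lies in the closure of `C_c^∞(Ω)` in `H^s(R^n)` -/
def MemHtilde (n : ℕ) (s : ℝ) (Ω : Set E) (w : E → ℝ) : Prop :=
  MemHs n s w ∧ ∃ φ : ℕ → E → ℝ, (∀ j, IsTest Ω (φ j)) ∧
    Tendsto (fun j => ∫ x, (w x - φ j x) ^ 2) atTop (𝓝 0) ∧
    Tendsto (fun j => energy n s (fun x => w x - φ j x)) atTop (𝓝 0)

/-- the bilinear form `B_γ` -/
noncomputable def form (n : ℕ) (s : ℝ) (γ u φ : E → ℝ) : ℝ :=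
  Cns n s / 2 * ∫ p : E × E, √(γ p.1) * √(γ p.2) * kern n s (p.1 - p.2) *
    ((u p.1 - u p.2) * (φ p.1 - φ p.2))

/-- `γ` is (essentially) bounded between two positive constants -/
def Elliptic (γ : E → ℝ) : Prop :=
  AEStronglyMeasurable γ volume ∧ ∃ c₀ c₁ : ℝ, 0 < c₀ ∧ ∀ᵐ x, c₀ ≤ γ x ∧ γ x ≤ c₁

variable {n : ℕ} {s : ℝ}

theorem Cns_pos (hs : 0 < s) (hs1 : s < 1) : 0 < Cns n s := by
  unfold Cns
  have h1 : 0 < Real.Gamma ((n : ℝ) / 2 + s) := Real.Gamma_pos_of_pos (by positivity)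
  have h2 : Real.Gamma (-s) ≠ 0 := by
    apply Real.Gamma_ne_zero
    intro m hm
    have hm' : s = m := by linarith
    rcases Nat.eq_zero_or_pos m with h | h
    · rw [h] at hm'; simp at hm'; linarith
    · have : (1:ℝ) ≤ m := by exact_mod_cast h
      linarith
  have h3 : 0 < |Real.Gamma (-s)| := abs_pos.2 h2
  positivity

theorem ae_fst {P : E → Prop} (h : ∀ᵐ x, P x) : ∀ᵐ p : E × E, P p.1 :=
  (Measure.quasiMeasurePreserving_fst (μ := (volume : Measure E)) (ν := volume)).ae h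

theorem ae_snd {P : E → Prop} (h : ∀ᵐ x, P x) : ∀ᵐ p : E × E, P p.2 :=
  (Measure.quasiMeasurePreserving_snd (μ := (volume : Measure E)) (ν := volume)).ae h

theorem mm_bound {γ : E → ℝ} {c₀ c₁ : ℝ} (hc : 0 < c₀) (h : ∀ᵐ x, c₀ ≤ γ x ∧ γ x ≤ c₁) :
    ∀ᵐ p : E × E, c₀ ≤ √(γ p.1) * √(γ p.2) ∧ √(γ p.1) * √(γ p.2) ≤ c₁ := by
  filter_upwards [ae_fst h, ae_snd h] with p h1 h2
  have h3 : 0 < γ p.1 := lt_of_lt_of_le hc h1.1
  rw [← Real.sqrt_mul h3.le]
  constructor
  · rw [Real.le_sqrt hc.le (by nlinarith [h2.1])]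
    nlinarith [h1.1, h2.1]
  · rw [Real.sqrt_le_left (by linarith [h1.2])]
    nlinarith [h1.2, h2.2, h2.1]

theorem mm_meas {γ : E → ℝ} (h : AEStronglyMeasurable γ volume) :
    AEStronglyMeasurable (fun p : E × E => √(γ p.1) * √(γ p.2)) volume := by
  have h1 : AEStronglyMeasurable (fun x => √(γ x)) volume :=
    Real.continuous_sqrt.comp_aestronglyMeasurable h
  exact h1.comp_fst.mul h1.comp_snd

theorem diff_meas {u : E → ℝ} (h : AEStronglyMeasurable u volume) :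
    AEStronglyMeasurable (fun p : E × E => u p.1 - u p.2) volume :=
  h.comp_fst.sub h.comp_snd

theorem kern_meas2 : AEStronglyMeasurable (fun p : E × E => kern n s (p.1 - p.2)) volume :=
  (kern_measurable.comp (measurable_fst.sub measurable_snd)).aestronglyMeasurable

theorem form_int {γ u φ : E → ℝ} (hγ : Elliptic γ) (hu : MemHs n s u) (hφ : MemHs n s φ) :
    Integrable (fun p : E × E => √(γ p.1) * √(γ p.2) * kern n s (p.1 - p.2) *
      ((u p.1 - u p.2) * (φ p.1 - φ p.2))) := by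
  obtain ⟨hm, c₀, c₁, hc, hb⟩ := hγ
  have hdom := (hu.2.add hφ.2).const_mul c₁
  refine hdom.mono' ?_ ?_
  · exact ((mm_meas hm).mul kern_meas2).mul
      ((diff_meas hu.1.aestronglyMeasurable).mul (diff_meas hφ.1.aestronglyMeasurable))
  · filter_upwards [mm_bound hc hb] with p hp
    have hk := kern_nonneg (n := n) (s := s) (p.1 - p.2)
    have h0 : 0 ≤ √(γ p.1) * √(γ p.2) := by positivity
    rw [norm_mul, norm_mul, Real.norm_of_nonneg h0, Real.norm_of_nonneg hk, Real.norm_eq_abs]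
    have h1 : |(u p.1 - u p.2) * (φ p.1 - φ p.2)| ≤ (u p.1 - u p.2) ^ 2 + (φ p.1 - φ p.2) ^ 2 := by
      rw [abs_le]
      constructor <;> nlinarith [sq_nonneg (u p.1 - u p.2 + (φ p.1 - φ p.2)),
        sq_nonneg (u p.1 - u p.2 - (φ p.1 - φ p.2)), sq_nonneg (u p.1 - u p.2),
        sq_nonneg (φ p.1 - φ p.2)]
    calc √(γ p.1) * √(γ p.2) * kern n s (p.1 - p.2) * |(u p.1 - u p.2) * (φ p.1 - φ p.2)|
        ≤ c₁ * kern n s (p.1 - p.2) * ((u p.1 - u p.2) ^ 2 + (φ p.1 - φ p.2) ^ 2) := by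
          apply mul_le_mul (mul_le_mul_of_nonneg_right hp.2 hk) h1 (abs_nonneg _)
          have : 0 ≤ c₁ := h0.trans hp.2
          positivity
      _ = _ := by simp only [Pi.add_apply]; ring

theorem form_comm (γ u φ : E → ℝ) : form n s γ u φ = form n s γ φ u := by
  unfold form
  congr 2
  ext p
  ring

theorem form_add {γ u v φ : E → ℝ} (hγ : Elliptic γ) (hu : MemHs n s u) (hv : MemHs n s v)
    (hφ : MemHs n s φ) :
    form n s γ (fun x => u x + v x) φ = form n s γ u φ + form n s γ v φ := by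
  unfold form
  rw [← mul_add, ← integral_add (form_int hγ hu hφ) (form_int hγ hv hφ)]
  congr 2
  ext p
  ring

theorem energy_nonneg (u : E → ℝ) : 0 ≤ energy n s u :=
  integral_nonneg fun p => mul_nonneg (sq_nonneg _) (kern_nonneg _)

/-- Cauchy-Schwarz with a parameter -/
theorem form_le {γ u φ : E → ℝ} {c₀ c₁ : ℝ} (hs : 0 < s) (hs1 : s < 1)
    (hm : AEStronglyMeasurable γ volume) (hc : 0 < c₀)
    (hb : ∀ᵐ x, c₀ ≤ γ x ∧ γ x ≤ c₁) (hu : MemHs n s u) (hφ : MemHs n s φ) {t : ℝ} (ht : 0 < t) :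
    |form n s γ u φ| ≤ Cns n s / 2 * (c₁ * (t * energy n s u + energy n s φ / t)) := by
  have hγ : Elliptic γ := ⟨hm, c₀, c₁, hc, hb⟩
  have hC := Cns_pos (n := n) hs hs1
  unfold form
  rw [abs_mul, abs_of_pos (by positivity : 0 < Cns n s / 2)]
  apply mul_le_mul_of_nonneg_left _ (by positivity)
  have e : c₁ * (t * energy n s u + energy n s φ / t) =
      ∫ p : E × E, c₁ * (t * ((u p.1 - u p.2) ^ 2 * kern n s (p.1 - p.2)) +
        ((φ p.1 - φ p.2) ^ 2 * kern n s (p.1 - p.2)) / t) := by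
    rw [integral_const_mul, integral_add (hu.2.const_mul t) (hφ.2.div_const t),
      integral_const_mul, integral_div]
    rfl
  rw [e]
  refine (abs_integral_le_integral_abs).trans ?_
  apply integral_mono_ae (form_int hγ hu hφ).abs
    (((hu.2.const_mul t).add (hφ.2.div_const t)).const_mul c₁)
  filter_upwards [mm_bound hc hb] with p hp
  have hk := kern_nonneg (n := n) (s := s) (p.1 - p.2)
  have h0 : 0 ≤ √(γ p.1) * √(γ p.2) := by positivity
  rw [abs_mul, abs_mul, abs_of_nonneg h0, abs_of_nonneg hk]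
  have h1 : |(u p.1 - u p.2) * (φ p.1 - φ p.2)| ≤
      t * (u p.1 - u p.2) ^ 2 + (φ p.1 - φ p.2) ^ 2 / t := by
    set a := u p.1 - u p.2
    set b := φ p.1 - φ p.2
    have h2 : 0 ≤ (t * |a| - |b|) ^ 2 / t := by positivity
    have h3 : (t * |a| - |b|) ^ 2 / t = t * a ^ 2 + b ^ 2 / t - 2 * (|a| * |b|) := by
      field_simp
      nlinarith [sq_abs a, sq_abs b]
    rw [abs_mul]
    nlinarith [mul_nonneg (abs_nonneg a) (abs_nonneg b)]
  calc √(γ p.1) * √(γ p.2) * kern n s (p.1 - p.2) * |(u p.1 - u p.2) * (φ p.1 - φ p.2)|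
      ≤ c₁ * kern n s (p.1 - p.2) * (t * (u p.1 - u p.2) ^ 2 + (φ p.1 - φ p.2) ^ 2 / t) := by
        apply mul_le_mul (mul_le_mul_of_nonneg_right hp.2 hk) h1 (abs_nonneg _)
        have : 0 ≤ c₁ := h0.trans hp.2
        positivity
    _ = _ := by simp only [Pi.add_apply]; ring

theorem form_ge {γ w : E → ℝ} {c₀ c₁ : ℝ} (hs : 0 < s) (hs1 : s < 1)
    (hm : AEStronglyMeasurable γ volume) (hc : 0 < c₀)
    (hb : ∀ᵐ x, c₀ ≤ γ x ∧ γ x ≤ c₁) (hw : MemHs n s w) :
    Cns n s / 2 * (c₀ * energy n s w) ≤ form n s γ w w := by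
  have hγ : Elliptic γ := ⟨hm, c₀, c₁, hc, hb⟩
  have hC := Cns_pos (n := n) hs hs1
  unfold form energy
  apply mul_le_mul_of_nonneg_left _ (by positivity)
  rw [← integral_const_mul]
  apply integral_mono_ae (hw.2.const_mul c₀) (form_int hγ hw hw)
  filter_upwards [mm_bound hc hb] with p hp
  have hk := kern_nonneg (n := n) (s := s) (p.1 - p.2)
  calc c₀ * ((w p.1 - w p.2) ^ 2 * kern n s (p.1 - p.2))
      = c₀ * kern n s (p.1 - p.2) * ((w p.1 - w p.2) * (w p.1 - w p.2)) := by ring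
    _ ≤ √(γ p.1) * √(γ p.2) * kern n s (p.1 - p.2) * ((w p.1 - w p.2) * (w p.1 - w p.2)) := by
        apply mul_le_mul_of_nonneg_right (mul_le_mul_of_nonneg_right hp.1 hk) (mul_self_nonneg _)

theorem test_memHs (hn : Module.finrank ℝ E = n) (hn1 : 1 ≤ n) (hs : 0 < s) (hs1 : s < 1)
    {U : Set E} {ψ : E → ℝ} (hψ : IsTest U ψ) : MemHs n s ψ :=
  ⟨hψ.1.continuous.memLp_of_hasCompactSupport hψ.2.1, test_energy hn hn1 hs hs1 hψ⟩

theorem energy_sub {u v : E → ℝ} (hu : MemHs n s u) (hv : MemHs n s v) :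
    MemHs n s (fun x => u x - v x) := by
  refine ⟨hu.1.sub hv.1, ?_⟩
  refine ((hu.2.add hv.2).const_mul 2).mono' ?_ (ae_of_all _ fun p => ?_)
  · exact ((diff_meas (hu.1.sub hv.1).aestronglyMeasurable).pow 2).mul kern_meas2
  · have hk := kern_nonneg (n := n) (s := s) (p.1 - p.2)
    rw [Real.norm_of_nonneg (by positivity)]
    have : (u p.1 - v p.1 - (u p.2 - v p.2)) ^ 2 ≤
        2 * ((u p.1 - u p.2) ^ 2 + (v p.1 - v p.2) ^ 2) := by
      nlinarith [sq_nonneg ((u p.1 - u p.2) + (v p.1 - v p.2))]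
    calc (u p.1 - v p.1 - (u p.2 - v p.2)) ^ 2 * kern n s (p.1 - p.2)
        ≤ 2 * ((u p.1 - u p.2) ^ 2 + (v p.1 - v p.2) ^ 2) * kern n s (p.1 - p.2) := by gcongr
      _ = _ := by simp only [Pi.add_apply]; ring

/-- the equation can be tested with elements of the closure -/
theorem form_closure {γ u w : E → ℝ} {Ω : Set E} (hn : Module.finrank ℝ E = n) (hn1 : 1 ≤ n)
    (hs : 0 < s) (hs1 : s < 1) (hγ : Elliptic γ) (hu : MemHs n s u)
    (hsol : ∀ φ, IsTest Ω φ → form n s γ u φ = 0) (hw : MemHtilde n s Ω w) :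
    form n s γ u w = 0 := by
  obtain ⟨hm, c₀, c₁, hc, hb⟩ := hγ
  obtain ⟨hw0, φ, hφ, -, hlim⟩ := hw
  have hC := Cns_pos (n := n) hs hs1
  have hc1 : 0 ≤ c₁ := by
    obtain ⟨x, hx⟩ := hb.exists
    linarith [hx.1, hx.2]
  have hφm : ∀ j, MemHs n s (φ j) := fun j => test_memHs hn hn1 hs hs1 (hφ j)
  have e1 : ∀ j, form n s γ u w = form n s γ u (fun x => w x - φ j x) := by
    intro j
    have h1 := form_add (u := fun x => w x - φ j x) (v := φ j) (φ := u) ⟨hm, c₀, c₁, hc, hb⟩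
      (energy_sub hw0 (hφm j)) (hφm j) hu
    have h2 : (fun x => w x - φ j x + φ j x) = w := by ext x; ring
    rw [h2, form_comm γ (φ j) u, hsol _ (hφ j), add_zero] at h1
    rw [form_comm, h1, form_comm]
  have e2 : ∀ t : ℝ, 0 < t → |form n s γ u w| ≤ Cns n s / 2 * (c₁ * (t * energy n s u)) := by
    intro t ht
    have h1 : Tendsto (fun j => Cns n s / 2 * (c₁ * (t * energy n s u +
        energy n s (fun x => w x - φ j x) / t))) atTop
        (𝓝 (Cns n s / 2 * (c₁ * (t * energy n s u + 0 / t)))) :=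
      (((hlim.div_const t).const_add _).const_mul _).const_mul _
    rw [zero_div, add_zero] at h1
    apply ge_of_tendsto' h1
    intro j
    rw [e1 j]
    exact form_le hs hs1 hm hc hb hu (energy_sub hw0 (hφm j)) ht
  have h3 : Tendsto (fun t : ℝ => Cns n s / 2 * (c₁ * (t * energy n s u))) (𝓝[>] 0) (𝓝 0) := by
    have : Continuous (fun t : ℝ => Cns n s / 2 * (c₁ * (t * energy n s u))) := by fun_prop
    have h4 := this.tendsto 0
    simp only [zero_mul, mul_zero] at h4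
    exact h4.mono_left nhdsWithin_le_nhds
  have h5 : |form n s γ u w| ≤ 0 := by
    apply ge_of_tendsto h3
    filter_upwards [self_mem_nhdsWithin] with t ht using e2 t ht
  exact abs_nonpos_iff.1 h5

/-- `w` vanishes a.e. outside `Ω` -/
theorem vanish {w : E → ℝ} {Ω : Set E} (hn : Module.finrank ℝ E = n) (hn1 : 1 ≤ n)
    (hs : 0 < s) (hs1 : s < 1) (hΩ : IsOpen Ω) (hw : MemHtilde n s Ω w) :
    ∀ᵐ x, x ∉ Ω → w x = 0 := by
  obtain ⟨hw0, φ, hφ, hlim, -⟩ := hw
  have hφm : ∀ j, MemHs n s (φ j) := fun j => test_memHs hn hn1 hs hs1 (hφ j)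
  have hi : ∀ j, Integrable (fun x => (w x - φ j x) ^ 2) := fun j =>
    (hw0.1.sub (hφm j).1).integrable_sq
  have hw2 : Integrable (fun x => w x ^ 2) := hw0.1.integrable_sq
  have h1 : ∀ j, ∫ x in Ωᶜ, w x ^ 2 ≤ ∫ x, (w x - φ j x) ^ 2 := by
    intro j
    calc ∫ x in Ωᶜ, w x ^ 2 = ∫ x in Ωᶜ, (w x - φ j x) ^ 2 := by
          apply setIntegral_congr_fun hΩ.measurableSet.compl
          intro x hx
          have : φ j x = 0 := image_eq_zero_of_notMem_tsupport fun h => hx ((hφ j).2.2 h)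
          simp [this]
      _ ≤ _ := setIntegral_le_integral (hi j) (ae_of_all _ fun x => sq_nonneg _)
  have h2 : ∫ x in Ωᶜ, w x ^ 2 ≤ 0 := ge_of_tendsto' hlim h1
  have h3 : ∫ x in Ωᶜ, w x ^ 2 = 0 := le_antisymm h2 (integral_nonneg fun x => sq_nonneg _)
  rw [setIntegral_eq_zero_iff_of_nonneg_ae (ae_of_all _ fun x => sq_nonneg _)
    hw2.integrableOn] at h3
  have h4 := (ae_restrict_iff' hΩ.measurableSet.compl).1 h3
  filter_upwards [h4] with x hx hxΩ
  have := hx hxΩ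
  simpa using this

end Pool.Agent.V1180.Frac
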