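import Mathlib

/-!
# Hardy space of the infinite torus: definitions, and uniform limits of polynomials
-/

namespace Pool.Agent.V1180.HT

open MeasureTheory Filter Topology Set
open scoped BigOperators ComplexConjugate

/-- Borel sets of the circle. -/
noncomputable instance instMeasurableSpaceCircle : MeasurableSpace Circle := borel Circle

instance instBorelSpaceCircle : BorelSpace Circle := ⟨rfl⟩

/-- The infinite torus `T^∞`. -/
abbrev Tinf : Type := ℕ → Circle

/-- Normalised Haar measure `m` of `T^∞`. -/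
noncomputable def mT : Measure Tinf := Measure.haarMeasure ⊤

/-- The character `e^{i⟨α,θ⟩}` of `T^∞`, `α` a finitely supported sequence of integers. -/
noncomputable def chi (α : ℕ →₀ ℤ) (θ : Tinf) : ℂ := α.prod fun n a => (θ n : ℂ) ^ a

/-- `H^∞(T^∞)`: bounded measurable functions whose Fourier coefficients vanish unless all the
entries of the frequency are nonnegative. -/
structure IsHinf (f : Tinf → ℂ) : Prop where
  meas : AEStronglyMeasurable f mT
  bdd : ∃ C : ℝ, ∀ᵐ θ ∂mT, ‖f θ‖ ≤ C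
  coef : ∀ α : ℕ →₀ ℤ, (∃ n, α n < 0) → ∫ θ, f θ * conj (chi α θ) ∂mT = 0

/-- The one-variable Poisson kernel `(1-|z|^2)/|u-z|^2`, `|z|<1`, `u` on the circle. -/
noncomputable def PK (z : ℂ) (u : Circle) : ℝ := (1 - ‖z‖ ^ 2) / ‖(u : ℂ) - z‖ ^ 2

/-- The Poisson integral of `f` at a point `z` of the infinite polydisc with only finitely many
nonzero coordinates (`PK 0 u = 1`, so the product of the kernels is a finite product). -/
noncomputable def poissonExt (f : Tinf → ℂ) (z : ℕ → ℂ) : ℂ :=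
  ∫ η, ((∏ᶠ n, PK (z n) (η n) : ℝ) : ℂ) * f η ∂mT

/-! ### Functions on the closed polydisc that are uniform limits of polynomials -/

/-- The closed polydisc. -/
def cD : Set (ℕ → ℂ) := {z | ∀ n, ‖z n‖ ≤ 1}

/-- Uniform limits of polynomials on the closed polydisc. -/
def Good (F : (ℕ → ℂ) → ℂ) : Prop :=
  ∀ ε : ℝ, 0 < ε → ∃ p : MvPolynomial ℕ ℂ, ∀ z ∈ cD, ‖F z - MvPolynomial.eval z p‖ ≤ ε

theorem good_poly (p : MvPolynomial ℕ ℂ) : Good fun z => MvPolynomial.eval z p :=
  fun ε hε => ⟨p, fun z _ => by simpa using hε.le⟩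

theorem good_const (c : ℂ) : Good fun _ => c := by
  have := good_poly (MvPolynomial.C c)
  simpa using this

theorem good_coord (n : ℕ) : Good fun z => z n := by
  have := good_poly (MvPolynomial.X n)
  simpa using this

theorem poly_bdd (p : MvPolynomial ℕ ℂ) : ∃ C : ℝ, 0 < C ∧ ∀ z ∈ cD, ‖MvPolynomial.eval z p‖ ≤ C := by
  induction p using MvPolynomial.induction_on with
  | C a => exact ⟨‖a‖ + 1, by positivity, fun z _ => by simp⟩
  | add p q hp hq =>
    obtain ⟨C, hC, h1⟩ := hp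
    obtain ⟨D, hD, h2⟩ := hq
    refine ⟨C + D, by positivity, fun z hz => ?_⟩
    rw [map_add]
    exact (norm_add_le _ _).trans (add_le_add (h1 z hz) (h2 z hz))
  | mul_X p n hp =>
    obtain ⟨C, hC, h1⟩ := hp
    refine ⟨C, hC, fun z hz => ?_⟩
    rw [map_mul, norm_mul, MvPolynomial.eval_X]
    calc _ ≤ C * 1 := mul_le_mul (h1 z hz) (hz n) (norm_nonneg _) hC.le
      _ = C := mul_one _

theorem Good.bdd {F : (ℕ → ℂ) → ℂ} (hF : Good F) : ∃ C : ℝ, 0 < C ∧ ∀ z ∈ cD, ‖F z‖ ≤ C := by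
  obtain ⟨p, hp⟩ := hF 1 one_pos
  obtain ⟨C, hC, h⟩ := poly_bdd p
  refine ⟨C + 1, by positivity, fun z hz => ?_⟩
  have : F z = (F z - MvPolynomial.eval z p) + MvPolynomial.eval z p := by ring
  rw [this]
  refine (norm_add_le _ _).trans ?_
  linarith [hp z hz, h z hz]

theorem Good.add {F G : (ℕ → ℂ) → ℂ} (hF : Good F) (hG : Good G) : Good fun z => F z + G z := by
  intro ε hε
  obtain ⟨p, hp⟩ := hF (ε / 2) (by positivity)
  obtain ⟨q, hq⟩ := hG (ε / 2) (by positivity)
  refine ⟨p + q, fun z hz => ?_⟩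
  rw [map_add]
  have : F z + G z - (MvPolynomial.eval z p + MvPolynomial.eval z q)
      = (F z - MvPolynomial.eval z p) + (G z - MvPolynomial.eval z q) := by ring
  rw [this]
  refine (norm_add_le _ _).trans ?_
  linarith [hp z hz, hq z hz]

theorem Good.mul {F G : (ℕ → ℂ) → ℂ} (hF : Good F) (hG : Good G) : Good fun z => F z * G z := by
  intro ε hε
  obtain ⟨CF, hCF, hbF⟩ := hF.bdd
  obtain ⟨CG, hCG, hbG⟩ := hG.bdd
  have hε1 : 0 < min 1 (ε / (CF + CG + 1)) := by positivity
  set δ := min 1 (ε / (CF + CG + 1)) with hδ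
  obtain ⟨p, hp⟩ := hF δ hε1
  obtain ⟨q, hq⟩ := hG δ hε1
  refine ⟨p * q, fun z hz => ?_⟩
  rw [map_mul]
  have e : F z * G z - MvPolynomial.eval z p * MvPolynomial.eval z q
      = (F z - MvPolynomial.eval z p) * G z
        + (F z - (F z - MvPolynomial.eval z p)) * (G z - MvPolynomial.eval z q) := by ring
  rw [e]
  refine (norm_add_le _ _).trans ?_
  rw [norm_mul, norm_mul]
  have h1 := hp z hz
  have h2 := hq z hz
  have h3 := hbF z hz
  have h4 := hbG z hz
  have h5 : ‖F z - (F z - MvPolynomial.eval z p)‖ ≤ CF + 1 := by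
    refine (norm_sub_le _ _).trans ?_
    have : δ ≤ 1 := min_le_left _ _
    linarith
  have h6 : ‖F z - MvPolynomial.eval z p‖ * ‖G z‖ ≤ δ * CG :=
    mul_le_mul h1 h4 (norm_nonneg _) hε1.le
  have h7 : ‖F z - (F z - MvPolynomial.eval z p)‖ * ‖G z - MvPolynomial.eval z q‖ ≤ (CF + 1) * δ :=
    mul_le_mul h5 h2 (norm_nonneg _) (by positivity)
  have h8 : δ * (CF + CG + 1) ≤ ε := by
    have : δ ≤ ε / (CF + CG + 1) := min_le_right _ _
    rwa [le_div_iff₀ (by positivity)] at this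
  nlinarith

theorem Good.congr {F G : (ℕ → ℂ) → ℂ} (hF : Good F) (h : ∀ z ∈ cD, F z = G z) : Good G := by
  intro ε hε
  obtain ⟨p, hp⟩ := hF ε hε
  exact ⟨p, fun z hz => by rw [← h z hz]; exact hp z hz⟩

theorem Good.sum {ι : Type*} (s : Finset ι) {F : ι → (ℕ → ℂ) → ℂ} (hF : ∀ i ∈ s, Good (F i)) :
    Good fun z => ∑ i ∈ s, F i z := by
  classical
  induction s using Finset.induction_on with
  | empty => simpa using good_const 0
  | insert a s ha ih =>
    simp only [Finset.sum_insert ha]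
    exact (hF a (Finset.mem_insert_self _ _)).add
      (ih fun i hi => hF i (Finset.mem_insert_of_mem hi))

theorem Good.prod {ι : Type*} (s : Finset ι) {F : ι → (ℕ → ℂ) → ℂ} (hF : ∀ i ∈ s, Good (F i)) :
    Good fun z => ∏ i ∈ s, F i z := by
  classical
  induction s using Finset.induction_on with
  | empty => simpa using good_const 1
  | insert a s ha ih =>
    simp only [Finset.prod_insert ha]
    exact (hF a (Finset.mem_insert_self _ _)).mul
      (ih fun i hi => hF i (Finset.mem_insert_of_mem hi))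

theorem Good.pow {F : (ℕ → ℂ) → ℂ} (hF : Good F) (n : ℕ) : Good fun z => F z ^ n := by
  have := Good.prod (Finset.range n) (F := fun _ => F) (fun _ _ => hF)
  simpa using this

theorem Good.of_unif {F : (ℕ → ℂ) → ℂ}
    (h : ∀ ε : ℝ, 0 < ε → ∃ G, Good G ∧ ∀ z ∈ cD, ‖F z - G z‖ ≤ ε) : Good F := by
  intro ε hε
  obtain ⟨G, hG, h1⟩ := h (ε / 2) (by positivity)
  obtain ⟨p, hp⟩ := hG (ε / 2) (by positivity)
  refine ⟨p, fun z hz => ?_⟩
  have : F z - MvPolynomial.eval z p = (F z - G z) + (G z - MvPolynomial.eval z p) := by ring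
  rw [this]
  refine (norm_add_le _ _).trans ?_
  linarith [h1 z hz, hp z hz]

/-- Inverses of functions with real part bounded below. -/
theorem Good.inv {F : (ℕ → ℂ) → ℂ} (hF : Good F) {c : ℝ} (hc : 0 < c)
    (hre : ∀ z ∈ cD, c ≤ (F z).re) : Good fun z => (F z)⁻¹ := by
  obtain ⟨C, hC, hb⟩ := hF.bdd
  have h0 : (0 : ℕ → ℂ) ∈ cD := fun n => by simp
  have hcC : c ≤ C := (hre 0 h0).trans ((Complex.re_le_norm _).trans (hb 0 h0))
  set R : ℝ := C ^ 2 / c with hR
  have hRpos : 0 < R := by positivity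
  set κ : ℝ := Real.sqrt (1 - c ^ 2 / C ^ 2) with hκ
  have hκ0 : 0 ≤ κ := Real.sqrt_nonneg _
  have hfrac : 0 < c ^ 2 / C ^ 2 := by positivity
  have hfrac1 : c ^ 2 / C ^ 2 ≤ 1 := by
    rw [div_le_one (by positivity)]
    exact pow_le_pow_left₀ hc.le hcC 2
  have hκ2 : κ ^ 2 = 1 - c ^ 2 / C ^ 2 := Real.sq_sqrt (by linarith)
  have hκ1 : κ < 1 := by
    rw [hκ, Real.sqrt_lt' one_pos]
    linarith
  have hnorm : ∀ z ∈ cD, ‖1 - F z / R‖ ≤ κ := by
    intro z hz
    have h1 : ‖1 - F z / R‖ ^ 2 ≤ κ ^ 2 := by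
      have e : ‖1 - F z / R‖ ^ 2 = 1 - 2 * (F z).re / R + ‖F z‖ ^ 2 / R ^ 2 := by
        have hre' : (F z / (R : ℂ)).re = (F z).re / R := by
          rw [Complex.div_ofReal_re]
        have him' : (F z / (R : ℂ)).im = (F z).im / R := by
          rw [Complex.div_ofReal_im]
        rw [← Complex.normSq_eq_norm_sq, ← Complex.normSq_eq_norm_sq, Complex.normSq_apply,
          Complex.normSq_apply, Complex.sub_re, Complex.sub_im, hre', him', Complex.one_re,
          Complex.one_im]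
        field_simp
        ring
      rw [e, hκ2]
      have h2 := hb z hz
      have h3 := hre z hz
      have h4 : ‖F z‖ ^ 2 / R ^ 2 ≤ C ^ 2 / R ^ 2 := by
        gcongr
      have h5 : 2 * c / R ≤ 2 * (F z).re / R := by
        gcongr
      have h6 : C ^ 2 / R ^ 2 = c ^ 2 / C ^ 2 := by
        rw [hR]; field_simp
      have h7 : 2 * c / R = 2 * (c ^ 2 / C ^ 2) := by
        rw [hR]; field_simp
      linarith
    exact abs_le_of_sq_le_sq' h1 hκ0 |>.2
  apply Good.of_unif
  intro ε hε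
  obtain ⟨N, hN⟩ : ∃ N : ℕ, κ ^ N * (1 / c) < ε := by
    have ht : Tendsto (fun N : ℕ => κ ^ N * (1 / c)) atTop (𝓝 (0 * (1 / c))) :=
      (tendsto_pow_atTop_nhds_zero_of_lt_one hκ0 hκ1).mul_const _
    rw [zero_mul] at ht
    exact (ht.eventually (gt_mem_nhds hε)).exists
  refine ⟨fun z => (1 / R : ℂ) * ∑ j ∈ Finset.range N, (1 - F z / R) ^ j, ?_, ?_⟩
  · refine (good_const _).mul (Good.sum _ fun j _ => Good.pow ?_ j)
    have h1 : Good fun z => 1 + (-(1 / R : ℂ)) * F z := (good_const 1).add ((good_const _).mul hF)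
    refine h1.congr fun z _ => ?_
    ring
  · intro z hz
    have hFne : F z ≠ 0 := by
      intro h
      have := hre z hz
      rw [h] at this
      simp at this
      linarith
    have hRne : (R : ℂ) ≠ 0 := by exact_mod_cast hRpos.ne'
    have hgs : (∑ j ∈ Finset.range N, (1 - F z / R) ^ j) * (F z / R)
        = 1 - (1 - F z / R) ^ N := by
      have := geom_sum_mul_neg (1 - F z / (R : ℂ)) N
      rwa [sub_sub_cancel] at this
    have e : (F z)⁻¹ - (1 / R : ℂ) * ∑ j ∈ Finset.range N, (1 - F z / R) ^ j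
        = (1 - F z / R) ^ N * (F z)⁻¹ := by
      have h2 : (1 / R : ℂ) * ∑ j ∈ Finset.range N, (1 - F z / R) ^ j
          = ((∑ j ∈ Finset.range N, (1 - F z / R) ^ j) * (F z / R)) * (F z)⁻¹ := by
        field_simp
      rw [h2, hgs]
      ring
    rw [e, norm_mul, norm_pow, norm_inv]
    have hFlow : c ≤ ‖F z‖ := (hre z hz).trans (Complex.re_le_norm _)
    calc ‖1 - F z / R‖ ^ N * ‖F z‖⁻¹ ≤ κ ^ N * (1 / c) := by
          refine mul_le_mul (pow_le_pow_left₀ (norm_nonneg _) (hnorm z hz) N) ?_ (by positivity)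
            (by positivity)
          rw [one_div]
          exact inv_anti₀ hc hFlow
      _ ≤ ε := hN.le

/-- Uniform continuity. -/
theorem poly_uc (p : MvPolynomial ℕ ℂ) : ∀ ε : ℝ, 0 < ε → ∃ δ : ℝ, 0 < δ ∧ ∃ N : ℕ,
    ∀ z ∈ cD, ∀ w ∈ cD, (∀ n < N, ‖z n - w n‖ ≤ δ) →
      ‖MvPolynomial.eval z p - MvPolynomial.eval w p‖ ≤ ε := by
  induction p using MvPolynomial.induction_on with
  | C a => exact fun ε hε => ⟨1, one_pos, 0, fun z _ w _ _ => by simpa using hε.le⟩
  | add p q hp hq =>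
    intro ε hε
    obtain ⟨δ1, h1, N1, g1⟩ := hp (ε / 2) (by positivity)
    obtain ⟨δ2, h2, N2, g2⟩ := hq (ε / 2) (by positivity)
    refine ⟨min δ1 δ2, by positivity, max N1 N2, fun z hz w hw h => ?_⟩
    rw [map_add, map_add, add_sub_add_comm]
    refine (norm_add_le _ _).trans ?_
    have a1 := g1 z hz w hw fun n hn =>
      (h n (lt_of_lt_of_le hn (le_max_left _ _))).trans (min_le_left _ _)
    have a2 := g2 z hz w hw fun n hn =>
      (h n (lt_of_lt_of_le hn (le_max_right _ _))).trans (min_le_right _ _)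
    linarith
  | mul_X p k hp =>
    intro ε hε
    obtain ⟨δ1, h1, N1, g1⟩ := hp (ε / 2) (by positivity)
    obtain ⟨C, hC, hb⟩ := poly_bdd p
    refine ⟨min δ1 (ε / (2 * C)), by positivity, max N1 (k + 1), fun z hz w hw h => ?_⟩
    rw [map_mul, map_mul, MvPolynomial.eval_X, MvPolynomial.eval_X]
    have e : MvPolynomial.eval z p * z k - MvPolynomial.eval w p * w k
        = (MvPolynomial.eval z p - MvPolynomial.eval w p) * z k
          + MvPolynomial.eval w p * (z k - w k) := by ring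
    rw [e]
    refine (norm_add_le _ _).trans ?_
    rw [norm_mul, norm_mul]
    have a1 := g1 z hz w hw fun n hn =>
      (h n (lt_of_lt_of_le hn (le_max_left _ _))).trans (min_le_left _ _)
    have a2 : ‖z k - w k‖ ≤ ε / (2 * C) :=
      (h k (lt_of_lt_of_le (Nat.lt_succ_self k) (le_max_right _ _))).trans (min_le_right _ _)
    have a3 : ‖MvPolynomial.eval z p - MvPolynomial.eval w p‖ * ‖z k‖ ≤ ε / 2 * 1 :=
      mul_le_mul a1 (hz k) (norm_nonneg _) (by positivity)
    have a4 : ‖MvPolynomial.eval w p‖ * ‖z k - w k‖ ≤ C * (ε / (2 * C)) :=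
      mul_le_mul (hb w hw) a2 (norm_nonneg _) hC.le
    have a5 : C * (ε / (2 * C)) = ε / 2 := by field_simp
    linarith

theorem Good.uc {F : (ℕ → ℂ) → ℂ} (hF : Good F) : ∀ ε : ℝ, 0 < ε → ∃ δ : ℝ, 0 < δ ∧ ∃ N : ℕ,
    ∀ z ∈ cD, ∀ w ∈ cD, (∀ n < N, ‖z n - w n‖ ≤ δ) → ‖F z - F w‖ ≤ ε := by
  intro ε hε
  obtain ⟨p, hp⟩ := hF (ε / 3) (by positivity)
  obtain ⟨δ, hδ, N, h⟩ := poly_uc p (ε / 3) (by positivity)
  refine ⟨δ, hδ, N, fun z hz w hw hh => ?_⟩
  have e : F z - F w = (F z - MvPolynomial.eval z p)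
      + (MvPolynomial.eval z p - MvPolynomial.eval w p) - (F w - MvPolynomial.eval w p) := by ring
  rw [e]
  refine (norm_sub_le _ _).trans ?_
  have := norm_add_le (F z - MvPolynomial.eval z p)
    (MvPolynomial.eval z p - MvPolynomial.eval w p)
  linarith [hp z hz, hp w hw, h z hz w hw hh]

/-- A point of the torus as a point of the closed polydisc. -/
def toC (θ : Tinf) : ℕ → ℂ := fun n => (θ n : ℂ)

theorem toC_mem (θ : Tinf) : toC θ ∈ cD := fun n => (Circle.norm_coe _).le

theorem cont_coe : Continuous fun u : Circle => (u : ℂ) := continuous_subtype_val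

theorem Good.measurable {F : (ℕ → ℂ) → ℂ} (hF : Good F) : Continuous fun θ : Tinf => F (toC θ) := by
  have h : ∀ k : ℕ, ∃ p : MvPolynomial ℕ ℂ, ∀ z ∈ cD, ‖F z - MvPolynomial.eval z p‖
      ≤ 1 / ((k : ℝ) + 1) := fun k => hF _ (by positivity)
  choose p hp using h
  have hu : TendstoUniformly (fun (k : ℕ) (θ : Tinf) => MvPolynomial.eval (toC θ) (p k))
      (fun θ => F (toC θ)) atTop := by
    rw [Metric.tendstoUniformly_iff]
    intro ε hε
    obtain ⟨K, hK⟩ := exists_nat_one_div_lt hε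
    filter_upwards [eventually_ge_atTop K] with k hk θ
    rw [dist_eq_norm]
    refine (hp k _ (toC_mem θ)).trans_lt (lt_of_le_of_lt ?_ hK)
    have : (K : ℝ) ≤ k := by exact_mod_cast hk
    gcongr
  refine hu.continuous (Frequently.of_forall fun k => ?_)
  have hc : Continuous fun z : ℕ → ℂ => MvPolynomial.eval z (p k) := MvPolynomial.continuous_eval _
  exact hc.comp (continuous_pi fun n => cont_coe.comp (continuous_apply n))

end Pool.Agent.V1180.HT
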