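import Pool.Agent.V1180.HTa

/-!
# Haar integrals on the infinite torus; the Poisson integral of a uniform limit of polynomials
-/

namespace Pool.Agent.V1180.HT

open MeasureTheory Filter Topology Set
open scoped BigOperators ComplexConjugate

instance : IsProbabilityMeasure mT := by
  constructor
  have := Measure.haarMeasure_self (K₀ := (⊤ : TopologicalSpace.PositiveCompacts Tinf))
  simpa [mT] using this

instance : mT.IsHaarMeasure := by unfold mT; infer_instance

/-- normalised arc length -/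
noncomputable def mC : Measure Circle := Measure.haarMeasure ⊤

instance : IsProbabilityMeasure mC := by
  constructor
  have := Measure.haarMeasure_self (K₀ := (⊤ : TopologicalSpace.PositiveCompacts Circle))
  simpa [mC] using this

instance : mC.IsHaarMeasure := by unfold mC; infer_instance

theorem chi_mul (α : ℕ →₀ ℤ) (θ η : Tinf) : chi α (θ * η) = chi α θ * chi α η := by
  unfold chi Finsupp.prod
  rw [← Finset.prod_mul_distrib]
  refine Finset.prod_congr rfl fun n _ => ?_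
  change ((θ n * η n : Circle) : ℂ) ^ (α n) = (θ n : ℂ) ^ (α n) * (η n : ℂ) ^ (α n)
  rw [Circle.coe_mul, mul_zpow]

theorem chi_cont (α : ℕ →₀ ℤ) : Continuous (chi α) := by
  unfold chi Finsupp.prod
  refine continuous_finsetProd _ fun n _ => ?_
  refine Continuous.zpow₀ (cont_coe.comp (continuous_apply n)) _ fun θ => Or.inl ?_
  exact Circle.coe_ne_zero _

theorem chi_norm (α : ℕ →₀ ℤ) (θ : Tinf) : ‖chi α θ‖ = 1 := by
  unfold chi Finsupp.prod
  rw [norm_prod]
  refine Finset.prod_eq_one fun n _ => ?_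
  rw [norm_zpow, Circle.norm_coe, one_zpow]

theorem exists_neg_one (a : ℤ) (ha : a ≠ 0) : ∃ u : Circle, (u : ℂ) ^ a = -1 := by
  refine ⟨Circle.exp (Real.pi / a), ?_⟩
  rw [Circle.coe_exp, ← Complex.exp_int_mul]
  have : (a : ℂ) * ((Real.pi / a : ℝ) * Complex.I) = Real.pi * Complex.I := by
    have ha' : (a : ℂ) ≠ 0 := by exact_mod_cast ha
    push_cast
    field_simp
  rw [this, Complex.exp_pi_mul_I]

theorem integral_chi (α : ℕ →₀ ℤ) (hα : α ≠ 0) : ∫ θ, chi α θ ∂mT = 0 := by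
  obtain ⟨n, hn⟩ := Finsupp.ne_iff.1 hα
  rw [Finsupp.coe_zero, Pi.zero_apply] at hn
  obtain ⟨u, hu⟩ := exists_neg_one (α n) hn
  set g : Tinf := Pi.mulSingle n u with hg
  have hgc : chi α g = -1 := by
    unfold chi Finsupp.prod
    rw [Finset.prod_eq_single n]
    · have e : g n = u := by rw [hg, Pi.mulSingle_eq_same]
      change (g n : ℂ) ^ (α n) = -1
      rw [e, hu]
    · intro m _ hm
      have e : g m = 1 := by rw [hg, Pi.mulSingle_eq_of_ne hm]
      change (g m : ℂ) ^ (α m) = 1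
      rw [e, Circle.coe_one, one_zpow]
    · intro h
      rw [Finsupp.notMem_support_iff] at h
      exact absurd h hn
  have h1 := integral_mul_left_eq_self (μ := mT) (fun θ => chi α θ) g
  simp only [chi_mul, hgc] at h1
  rw [integral_const_mul] at h1
  have h2 : (2 : ℂ) * ∫ θ, chi α θ ∂mT = 0 := by linear_combination -h1
  simpa using h2

theorem integral_zpow (a : ℤ) (ha : a ≠ 0) : ∫ u : Circle, (u : ℂ) ^ a ∂mC = 0 := by
  obtain ⟨g, hg⟩ := exists_neg_one a ha
  have h1 := integral_mul_left_eq_self (μ := mC) (fun u : Circle => (u : ℂ) ^ a) g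
  simp only [Circle.coe_mul, mul_zpow, hg] at h1
  rw [integral_const_mul] at h1
  have h2 : (2 : ℂ) * ∫ u : Circle, (u : ℂ) ^ a ∂mC = 0 := by linear_combination -h1
  simpa using h2

/-! ### one variable -/

theorem den_ne {z : ℂ} (hz : ‖z‖ < 1) (u : Circle) : 1 - z * conj (u : ℂ) ≠ 0 := by
  intro h
  have h1 : z * conj (u : ℂ) = 1 := (sub_eq_zero.1 h).symm
  have h2 : ‖z * conj (u : ℂ)‖ = 1 := by rw [h1, norm_one]
  rw [norm_mul, RCLike.norm_conj, Circle.norm_coe, mul_one] at h2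
  linarith

theorem den_low {z : ℂ} (u : Circle) : 1 - ‖z‖ ≤ ‖1 - z * conj (u : ℂ)‖ := by
  have := norm_sub_norm_le (1 : ℂ) (z * conj (u : ℂ))
  rwa [norm_mul, RCLike.norm_conj, Circle.norm_coe, mul_one, norm_one] at this

theorem cont_den {z : ℂ} (hz : ‖z‖ < 1) (a : ℤ) :
    Continuous fun u : Circle => (u : ℂ) ^ a * (1 - z * conj (u : ℂ))⁻¹ := by
  refine Continuous.mul ?_ ?_
  · exact Continuous.zpow₀ cont_coe _ fun u => Or.inl (Circle.coe_ne_zero _)
  · refine Continuous.inv₀ ?_ (den_ne hz)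
    exact continuous_const.sub (continuous_const.mul (Complex.continuous_conj.comp cont_coe))

theorem integrable_of_cont {f : Circle → ℂ} (hf : Continuous f) : Integrable f mC :=
  hf.integrable_of_hasCompactSupport (HasCompactSupport.of_compactSpace f)

theorem integrable_of_contT {f : Tinf → ℂ} (hf : Continuous f) : Integrable f mT :=
  hf.integrable_of_hasCompactSupport (HasCompactSupport.of_compactSpace f)

/-- `∫ u^a/(1-z ū)`. -/
noncomputable def AA (z : ℂ) (a : ℤ) : ℂ := ∫ u : Circle, (u : ℂ) ^ a * (1 - z * conj (u : ℂ))⁻¹ ∂mC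

theorem AA_rec {z : ℂ} (hz : ‖z‖ < 1) (a : ℤ) :
    AA z a = (∫ u : Circle, (u : ℂ) ^ a ∂mC) + z * AA z (a - 1) := by
  unfold AA
  rw [← integral_const_mul, ← integral_add]
  · refine integral_congr_ae (Eventually.of_forall fun u => ?_)
    have h1 := den_ne hz u
    have h2 : (u : ℂ) ≠ 0 := Circle.coe_ne_zero u
    have h3 : conj (u : ℂ) = (u : ℂ)⁻¹ := by
      rw [← Circle.coe_inv_eq_conj, Circle.coe_inv]
    simp only
    rw [h3] at h1 ⊢
    rw [zpow_sub_one₀ h2]
    linear_combination (u : ℂ) ^ a * (mul_inv_cancel₀ h1)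
  · exact integrable_of_cont (Continuous.zpow₀ cont_coe _ fun u => Or.inl (Circle.coe_ne_zero _))
  · exact (integrable_of_cont (cont_den hz (a - 1))).const_mul z

theorem AA_bdd {z : ℂ} (hz : ‖z‖ < 1) (a : ℤ) : ‖AA z a‖ ≤ (1 - ‖z‖)⁻¹ := by
  unfold AA
  have := norm_integral_le_of_norm_le_const (μ := mC) (C := (1 - ‖z‖)⁻¹)
    (f := fun u : Circle => (u : ℂ) ^ a * (1 - z * conj (u : ℂ))⁻¹)
    (Eventually.of_forall fun u => by
      rw [norm_mul, norm_zpow, Circle.norm_coe, one_zpow, one_mul, norm_inv]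
      exact inv_anti₀ (by linarith) (den_low u))
  simpa using this

theorem AA_neg {z : ℂ} (hz : ‖z‖ < 1) (a : ℤ) (ha : a < 0) : AA z a = 0 := by
  have h1 : ∀ n : ℕ, AA z a = z ^ n * AA z (a - n) := by
    intro n
    induction n with
    | zero => simp
    | succ n ih =>
      rw [ih, AA_rec hz (a - n), integral_zpow _ (by omega), zero_add, pow_succ]
      push_cast
      rw [sub_sub]
      ring
  have h2 : ∀ n : ℕ, ‖AA z a‖ ≤ ‖z‖ ^ n * (1 - ‖z‖)⁻¹ := by
    intro n
    rw [h1 n, norm_mul, norm_pow]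
    exact mul_le_mul_of_nonneg_left (AA_bdd hz _) (by positivity)
  have h3 : Tendsto (fun n : ℕ => ‖z‖ ^ n * (1 - ‖z‖)⁻¹) atTop (𝓝 (0 * (1 - ‖z‖)⁻¹)) :=
    (tendsto_pow_atTop_nhds_zero_of_lt_one (norm_nonneg _) hz).mul_const _
  rw [zero_mul] at h3
  have h4 : ‖AA z a‖ ≤ 0 := ge_of_tendsto' h3 h2
  exact norm_le_zero_iff.1 h4

theorem AA_nonneg {z : ℂ} (hz : ‖z‖ < 1) (a : ℕ) : AA z a = z ^ a := by
  induction a with
  | zero =>
    rw [AA_rec hz, AA_neg hz _ (by norm_num)]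
    simp
  | succ a ih =>
    rw [AA_rec hz, integral_zpow _ (by omega), zero_add]
    have : ((a + 1 : ℕ) : ℤ) - 1 = a := by push_cast; ring
    rw [this, ih, pow_succ]
    ring

theorem PK_eq {z : ℂ} (hz : ‖z‖ < 1) (u : Circle) :
    (PK z u : ℂ) = (1 - z * conj (u : ℂ))⁻¹ + conj (z * conj (u : ℂ) * (1 - z * conj (u : ℂ))⁻¹) := by
  have h1 := den_ne hz u
  have h2 : (u : ℂ) ≠ 0 := Circle.coe_ne_zero u
  have hu : (u : ℂ) * conj (u : ℂ) = 1 := by
    rw [Complex.mul_conj, Complex.normSq_eq_norm_sq, Circle.norm_coe]; norm_num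
  have h1' : conj (1 - z * conj (u : ℂ)) ≠ 0 := (map_ne_zero _).2 h1
  have h3 : (u : ℂ) - z = (u : ℂ) * (1 - z * conj (u : ℂ)) := by
    linear_combination (z : ℂ) * hu
  have h4 : ((‖(u : ℂ) - z‖ ^ 2 : ℝ) : ℂ) = (1 - z * conj (u : ℂ)) * conj (1 - z * conj (u : ℂ)) := by
    rw [h3, norm_mul, Circle.norm_coe, one_mul, Complex.mul_conj, Complex.normSq_eq_norm_sq]
  have h5 : ((‖z‖ ^ 2 : ℝ) : ℂ) = z * conj z := by
    rw [Complex.mul_conj, Complex.normSq_eq_norm_sq]
  unfold PK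
  push_cast at h4 h5 ⊢
  rw [h4, h5]
  rw [map_mul, map_mul, map_inv₀, Complex.conj_conj]
  rw [eq_comm]
  field_simp
  simp only [map_sub, map_one, map_mul, Complex.conj_conj]
  linear_combination (-(z * conj z)) * hu

theorem PK_nonneg {z : ℂ} (hz : ‖z‖ < 1) (u : Circle) : 0 ≤ PK z u := by
  unfold PK
  have : ‖z‖ ^ 2 ≤ 1 := pow_le_one₀ (norm_nonneg _) hz.le
  exact div_nonneg (by linarith) (by positivity)

theorem PK_zero (u : Circle) : PK 0 u = 1 := by
  unfold PK
  rw [norm_zero, sub_zero, Circle.norm_coe]; norm_num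

theorem PK_cont {z : ℂ} (hz : ‖z‖ < 1) : Continuous (PK z) := by
  unfold PK
  refine continuous_const.div (((cont_coe.sub continuous_const).norm).pow 2) fun u => ?_
  have : (u : ℂ) - z ≠ 0 := by
    intro h
    have := congrArg norm (sub_eq_zero.1 h)
    rw [Circle.norm_coe] at this
    linarith
  positivity

theorem PK_int {z : ℂ} (hz : ‖z‖ < 1) (a : ℕ) :
    ∫ u : Circle, (u : ℂ) ^ a * (PK z u : ℂ) ∂mC = z ^ a := by
  have e : ∀ u : Circle, (u : ℂ) ^ a * (PK z u : ℂ)
      = (u : ℂ) ^ (a : ℤ) * (1 - z * conj (u : ℂ))⁻¹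
        + conj (z * ((u : ℂ) ^ (-(a : ℤ) - 1) * (1 - z * conj (u : ℂ))⁻¹)) := by
    intro u
    have h2 : (u : ℂ) ≠ 0 := Circle.coe_ne_zero u
    have h3 : conj (u : ℂ) = (u : ℂ)⁻¹ := by
      rw [← Circle.coe_inv_eq_conj, Circle.coe_inv]
    rw [PK_eq hz, mul_add, zpow_natCast]
    congr 1
    have h4 : conj ((u : ℂ) ^ (-(a : ℤ) - 1)) = (u : ℂ) ^ a * u := by
      rw [map_zpow₀, h3, zpow_sub_one₀ (inv_ne_zero h2), inv_inv, inv_zpow', neg_neg, zpow_natCast]
    rw [map_mul, map_mul, map_mul, map_mul, h4, h3, map_inv₀ (starRingEnd ℂ) (u : ℂ), h3, inv_inv]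
    ring
  simp only [e]
  rw [integral_add]
  · rw [integral_conj, integral_const_mul]
    have h1 : ∫ u : Circle, (u : ℂ) ^ (a : ℤ) * (1 - z * conj (u : ℂ))⁻¹ ∂mC = z ^ a :=
      AA_nonneg hz a
    have h2 : ∫ u : Circle, (u : ℂ) ^ (-(a : ℤ) - 1) * (1 - z * conj (u : ℂ))⁻¹ ∂mC = 0 :=
      AA_neg hz _ (by omega)
    rw [h1, h2]
    simp
  · exact integrable_of_cont (cont_den hz a)
  · exact integrable_of_cont (Complex.continuous_conj.comp (continuous_const.mul (cont_den hz _)))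

/-! ### several variables -/

/-- restriction to the first `N` coordinates -/
def resHom (N : ℕ) : Tinf →* (Fin N → Circle) where
  toFun θ := fun i => θ i
  map_one' := rfl
  map_mul' _ _ := rfl

theorem resHom_mp (N : ℕ) : MeasurePreserving (resHom N) mT (Measure.pi fun _ => mC) := by
  refine MonoidHom.measurePreserving ?_ ?_ ?_
  · exact continuous_pi fun i => continuous_apply _
  · intro v
    refine ⟨fun n => if h : n < N then v ⟨n, h⟩ else 1, ?_⟩
    funext i
    simp [resHom]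
  · rw [measure_univ, measure_univ]

theorem integral_prod_range (N : ℕ) (φ : ℕ → Circle → ℂ) (hφ : ∀ n, Continuous (φ n)) :
    ∫ θ, ∏ n ∈ Finset.range N, φ n (θ n) ∂mT = ∏ n ∈ Finset.range N, ∫ u, φ n u ∂mC := by
  have h1 := (resHom_mp N)
  have h2 : ∫ θ, ∏ n ∈ Finset.range N, φ n (θ n) ∂mT
      = ∫ θ, (fun v : Fin N → Circle => ∏ i : Fin N, φ i (v i)) (resHom N θ) ∂mT := by
    refine integral_congr_ae (Eventually.of_forall fun θ => ?_)
    simp only
    rw [Finset.prod_range]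
    rfl
  have h3 : ∫ θ, (fun v : Fin N → Circle => ∏ i : Fin N, φ i (v i)) (resHom N θ) ∂mT
      = ∫ v, ∏ i : Fin N, φ i (v i) ∂(Measure.pi fun _ => mC) := by
    have hc : Continuous fun v : Fin N → Circle => ∏ i : Fin N, φ i (v i) :=
      continuous_finsetProd _ fun i _ => (hφ i).comp (continuous_apply i)
    rw [← h1.map_eq]
    exact (integral_map h1.measurable.aemeasurable hc.aestronglyMeasurable).symm
  rw [h2, h3, Finset.prod_range]
  exact integral_fintype_prod_eq_prod (fun (i : Fin N) => φ i)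

theorem ker_eq {z : ℕ → ℂ} {N : ℕ} (hz0 : ∀ n, N ≤ n → z n = 0) (η : Tinf) :
    ∏ᶠ n, PK (z n) (η n) = ∏ n ∈ Finset.range N, PK (z n) (η n) := by
  refine finprod_eq_prod_of_mulSupport_subset _ ?_
  intro n hn
  rw [Function.mem_mulSupport] at hn
  rw [Finset.coe_range, mem_Iio]
  by_contra h
  push Not at h
  rw [hz0 n h, PK_zero] at hn
  exact hn rfl

theorem ker_cont {z : ℕ → ℂ} (hz : ∀ n, ‖z n‖ < 1) {N : ℕ} (hz0 : ∀ n, N ≤ n → z n = 0) :
    Continuous fun η : Tinf => ((∏ᶠ n, PK (z n) (η n) : ℝ) : ℂ) := by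
  simp only [ker_eq hz0]
  refine Complex.continuous_ofReal.comp ?_
  exact continuous_finsetProd _ fun n _ => (PK_cont (hz n)).comp (continuous_apply n)

theorem ker_nonneg {z : ℕ → ℂ} (hz : ∀ n, ‖z n‖ < 1) {N : ℕ} (hz0 : ∀ n, N ≤ n → z n = 0)
    (η : Tinf) : 0 ≤ ∏ᶠ n, PK (z n) (η n) := by
  rw [ker_eq hz0]
  exact Finset.prod_nonneg fun n _ => PK_nonneg (hz n) _

theorem poisson_monomial {z : ℕ → ℂ} (hz : ∀ n, ‖z n‖ < 1) {N : ℕ}
    (hz0 : ∀ n, N ≤ n → z n = 0) (d : ℕ →₀ ℕ) :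
    ∫ η, ((∏ᶠ n, PK (z n) (η n) : ℝ) : ℂ) * ∏ i ∈ d.support, (toC η i) ^ d i ∂mT
      = ∏ i ∈ d.support, z i ^ d i := by
  obtain ⟨M, hM⟩ : ∃ M, N ≤ M ∧ ∀ i ∈ d.support, i < M := by
    refine ⟨max N (d.support.sup id + 1), le_max_left _ _, fun i hi => ?_⟩
    have : i ≤ d.support.sup id := Finset.le_sup (f := id) hi
    exact lt_of_lt_of_le (Nat.lt_succ_of_le this) (le_max_right _ _)
  have hz0' : ∀ n, M ≤ n → z n = 0 := fun n hn => hz0 n (hM.1.trans hn)
  have hsub : d.support ⊆ Finset.range M := fun i hi => Finset.mem_range.2 (hM.2 i hi)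
  have hext : ∀ x : ℕ → ℂ, ∏ i ∈ d.support, x i ^ d i = ∏ n ∈ Finset.range M, x n ^ d n := by
    intro x
    refine Finset.prod_subset hsub fun n _ hn => ?_
    rw [Finsupp.notMem_support_iff.1 hn, pow_zero]
  have e : ∀ η : Tinf, ((∏ᶠ n, PK (z n) (η n) : ℝ) : ℂ) * ∏ i ∈ d.support, (toC η i) ^ d i
      = ∏ n ∈ Finset.range M, ((η n : ℂ) ^ d n * (PK (z n) (η n) : ℂ)) := by
    intro η
    rw [ker_eq hz0', hext, Complex.ofReal_prod, ← Finset.prod_mul_distrib]
    refine Finset.prod_congr rfl fun n _ => ?_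
    rw [mul_comm]
    rfl
  simp only [e]
  rw [integral_prod_range M (fun n u => (u : ℂ) ^ d n * (PK (z n) u : ℂ)), hext]
  · exact Finset.prod_congr rfl fun n _ => PK_int (hz n) (d n)
  · intro n
    exact (cont_coe.pow _).mul (Complex.continuous_ofReal.comp (PK_cont (hz n)))

theorem ker_int {z : ℕ → ℂ} (hz : ∀ n, ‖z n‖ < 1) {N : ℕ} (hz0 : ∀ n, N ≤ n → z n = 0) :
    ∫ η, ((∏ᶠ n, PK (z n) (η n) : ℝ) : ℂ) ∂mT = 1 := by
  have := poisson_monomial hz hz0 0
  simpa using this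

theorem ker_int_real {z : ℕ → ℂ} (hz : ∀ n, ‖z n‖ < 1) {N : ℕ} (hz0 : ∀ n, N ≤ n → z n = 0) :
    ∫ η, (∏ᶠ n, PK (z n) (η n) : ℝ) ∂mT = 1 := by
  have h := ker_int hz hz0
  rw [integral_complex_ofReal] at h
  exact_mod_cast h

theorem poisson_poly {z : ℕ → ℂ} (hz : ∀ n, ‖z n‖ < 1) {N : ℕ}
    (hz0 : ∀ n, N ≤ n → z n = 0) (p : MvPolynomial ℕ ℂ) :
    ∫ η, ((∏ᶠ n, PK (z n) (η n) : ℝ) : ℂ) * MvPolynomial.eval (toC η) p ∂mT
      = MvPolynomial.eval z p := by
  have e : ∀ η : Tinf, ((∏ᶠ n, PK (z n) (η n) : ℝ) : ℂ) * MvPolynomial.eval (toC η) p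
      = ∑ d ∈ p.support, p.coeff d *
        (((∏ᶠ n, PK (z n) (η n) : ℝ) : ℂ) * ∏ i ∈ d.support, (toC η i) ^ d i) := by
    intro η
    rw [MvPolynomial.eval_eq, Finset.mul_sum]
    exact Finset.sum_congr rfl fun d _ => by ring
  simp only [e]
  rw [integral_finsetSum, MvPolynomial.eval_eq]
  · refine Finset.sum_congr rfl fun d _ => ?_
    rw [integral_const_mul, poisson_monomial hz hz0]
  · intro d _
    refine (integrable_of_contT ?_).const_mul _
    refine (ker_cont hz hz0).mul (continuous_finsetProd _ fun i _ => ?_)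
    exact (cont_coe.comp (continuous_apply i)).pow _

theorem cD_of_lt {z : ℕ → ℂ} (hz : ∀ n, ‖z n‖ < 1) : z ∈ cD := fun n => (hz n).le

/-- The Poisson integral of a uniform limit of polynomials is its value. -/
theorem poisson_good {F : (ℕ → ℂ) → ℂ} (hF : Good F) {z : ℕ → ℂ} (hz : ∀ n, ‖z n‖ < 1) {N : ℕ}
    (hz0 : ∀ n, N ≤ n → z n = 0) : poissonExt (fun θ => F (toC θ)) z = F z := by
  unfold poissonExt
  have key : ∀ ε : ℝ, 0 < ε → ‖∫ η, ((∏ᶠ n, PK (z n) (η n) : ℝ) : ℂ) * F (toC η) ∂mT - F z‖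
      ≤ 2 * ε := by
    intro ε hε
    obtain ⟨p, hp⟩ := hF ε hε
    have hI1 : Integrable (fun η : Tinf => ((∏ᶠ n, PK (z n) (η n) : ℝ) : ℂ) * F (toC η)) mT :=
      integrable_of_contT ((ker_cont hz hz0).mul hF.measurable)
    have hI2 : Integrable (fun η : Tinf => ((∏ᶠ n, PK (z n) (η n) : ℝ) : ℂ)
        * MvPolynomial.eval (toC η) p) mT :=
      integrable_of_contT ((ker_cont hz hz0).mul (good_poly p).measurable)
    have e : ∫ η, ((∏ᶠ n, PK (z n) (η n) : ℝ) : ℂ) * F (toC η) ∂mT - F z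
        = (∫ η, (((∏ᶠ n, PK (z n) (η n) : ℝ) : ℂ) * F (toC η)
          - ((∏ᶠ n, PK (z n) (η n) : ℝ) : ℂ) * MvPolynomial.eval (toC η) p) ∂mT)
          - (F z - MvPolynomial.eval z p) := by
      rw [integral_sub hI1 hI2, poisson_poly hz hz0]
      ring
    rw [e]
    refine (norm_sub_le _ _).trans ?_
    have h1 : ‖∫ η, (((∏ᶠ n, PK (z n) (η n) : ℝ) : ℂ) * F (toC η)
          - ((∏ᶠ n, PK (z n) (η n) : ℝ) : ℂ) * MvPolynomial.eval (toC η) p) ∂mT‖ ≤ ε := by
      refine (norm_integral_le_integral_norm _).trans ?_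
      have h2 : ∫ η, ‖((∏ᶠ n, PK (z n) (η n) : ℝ) : ℂ) * F (toC η)
          - ((∏ᶠ n, PK (z n) (η n) : ℝ) : ℂ) * MvPolynomial.eval (toC η) p‖ ∂mT
          ≤ ∫ η, (∏ᶠ n, PK (z n) (η n) : ℝ) * ε ∂mT := by
        refine integral_mono (hI1.sub hI2).norm ?_ fun η => ?_
        · refine Integrable.mul_const ?_ _
          have := (integrable_of_contT (ker_cont hz hz0)).re
          simpa using this
        · simp only
          rw [← mul_sub, norm_mul, Complex.norm_real, Real.norm_eq_abs,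
            abs_of_nonneg (ker_nonneg hz hz0 η)]
          exact mul_le_mul_of_nonneg_left (hp _ (toC_mem η)) (ker_nonneg hz hz0 η)
      refine h2.trans ?_
      rw [integral_mul_const, ker_int_real hz hz0, one_mul]
    linarith [hp z (cD_of_lt hz)]
  have h0 : ‖∫ η, ((∏ᶠ n, PK (z n) (η n) : ℝ) : ℂ) * F (toC η) ∂mT - F z‖ ≤ 0 := by
    refine le_of_forall_pos_le_add fun ε hε => ?_
    have := key (ε / 2) (by positivity)
    linarith
  exact sub_eq_zero.1 (norm_le_zero_iff.1 h0)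

/-- Fourier coefficients with a negative frequency vanish. -/
theorem fourier_good {F : (ℕ → ℂ) → ℂ} (hF : Good F) (α : ℕ →₀ ℤ) (hα : ∃ n, α n < 0) :
    ∫ θ, F (toC θ) * conj (chi α θ) ∂mT = 0 := by
  have hconj : Continuous fun θ : Tinf => conj (chi α θ) :=
    Complex.continuous_conj.comp (chi_cont α)
  have hmono : ∀ d : ℕ →₀ ℕ,
      ∫ θ, (∏ i ∈ d.support, (toC θ i) ^ d i) * conj (chi α θ) ∂mT = 0 := by
    intro d
    set β : ℕ →₀ ℤ := d.mapRange (fun k : ℕ => (k : ℤ)) rfl - α with hβ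
    have e : ∀ θ : Tinf, (∏ i ∈ d.support, (toC θ i) ^ d i) * conj (chi α θ) = chi β θ := by
      intro θ
      obtain ⟨M, hM1, hM2⟩ : ∃ M, (∀ i ∈ d.support, i < M) ∧ (∀ i ∈ α.support, i < M) := by
        refine ⟨max (d.support.sup id + 1) (α.support.sup id + 1), fun i hi => ?_, fun i hi => ?_⟩
        · have : i ≤ d.support.sup id := Finset.le_sup (f := id) hi
          exact lt_of_lt_of_le (Nat.lt_succ_of_le this) (le_max_left _ _)
        · have : i ≤ α.support.sup id := Finset.le_sup (f := id) hi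
          exact lt_of_lt_of_le (Nat.lt_succ_of_le this) (le_max_right _ _)
      have h1 : ∏ i ∈ d.support, (toC θ i) ^ d i = ∏ n ∈ Finset.range M, (θ n : ℂ) ^ (d n) := by
        refine Finset.prod_subset (fun i hi => Finset.mem_range.2 (hM1 i hi)) fun n _ hn => ?_
        rw [Finsupp.notMem_support_iff.1 hn, pow_zero]
      have h2 : ∀ γ : ℕ →₀ ℤ, (∀ i ∈ γ.support, i < M) →
          chi γ θ = ∏ n ∈ Finset.range M, (θ n : ℂ) ^ (γ n) := by
        intro γ hγ
        unfold chi Finsupp.prod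
        refine Finset.prod_subset (fun i hi => Finset.mem_range.2 (hγ i hi)) fun n _ hn => ?_
        change (θ n : ℂ) ^ (γ n) = 1
        rw [Finsupp.notMem_support_iff.1 hn, zpow_zero]
      have h3 : ∀ i ∈ β.support, i < M := by
        intro i hi
        by_contra hcon
        push Not at hcon
        have hd : d i = 0 := by
          by_contra h
          exact absurd (hM1 i (Finsupp.mem_support_iff.2 h)) (by omega)
        have ha : α i = 0 := by
          by_contra h
          exact absurd (hM2 i (Finsupp.mem_support_iff.2 h)) (by omega)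
        rw [Finsupp.mem_support_iff] at hi
        apply hi
        rw [hβ]
        simp [hd, ha]
      rw [h1, h2 α hM2, h2 β h3, map_prod, ← Finset.prod_mul_distrib]
      refine Finset.prod_congr rfl fun n _ => ?_
      have hu : (θ n : ℂ) ≠ 0 := Circle.coe_ne_zero _
      have h4 : conj (θ n : ℂ) = (θ n : ℂ)⁻¹ := by
        rw [← Circle.coe_inv_eq_conj, Circle.coe_inv]
      rw [map_zpow₀, h4, inv_zpow', ← zpow_natCast, ← zpow_add₀ hu, hβ]
      congr 1
    simp only [e]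
    refine integral_chi β ?_
    obtain ⟨n, hn⟩ := hα
    intro h
    have h5 := DFunLike.congr_fun h n
    rw [hβ] at h5
    simp at h5
    omega
  have hpoly : ∀ p : MvPolynomial ℕ ℂ,
      ∫ θ, MvPolynomial.eval (toC θ) p * conj (chi α θ) ∂mT = 0 := by
    intro p
    have e : ∀ θ : Tinf, MvPolynomial.eval (toC θ) p * conj (chi α θ)
        = ∑ d ∈ p.support, p.coeff d *
          ((∏ i ∈ d.support, (toC θ i) ^ d i) * conj (chi α θ)) := by
      intro η
      rw [MvPolynomial.eval_eq, Finset.sum_mul]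
      exact Finset.sum_congr rfl fun d _ => by ring
    simp only [e]
    rw [integral_finsetSum]
    · refine Finset.sum_eq_zero fun d _ => ?_
      rw [integral_const_mul, hmono, mul_zero]
    · intro d _
      refine (integrable_of_contT ?_).const_mul _
      refine (continuous_finsetProd _ fun i _ => ?_).mul hconj
      exact (cont_coe.comp (continuous_apply i)).pow _
  have key : ∀ ε : ℝ, 0 < ε → ‖∫ θ, F (toC θ) * conj (chi α θ) ∂mT‖ ≤ ε := by
    intro ε hε
    obtain ⟨p, hp⟩ := hF ε hε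
    have hI1 : Integrable (fun θ : Tinf => F (toC θ) * conj (chi α θ)) mT :=
      integrable_of_contT (hF.measurable.mul hconj)
    have hI2 : Integrable (fun θ : Tinf => MvPolynomial.eval (toC θ) p * conj (chi α θ)) mT :=
      integrable_of_contT ((good_poly p).measurable.mul hconj)
    have e : ∫ θ, F (toC θ) * conj (chi α θ) ∂mT
        = ∫ θ, (F (toC θ) * conj (chi α θ) - MvPolynomial.eval (toC θ) p * conj (chi α θ)) ∂mT := by
      rw [integral_sub hI1 hI2, hpoly, sub_zero]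
    rw [e]
    have := norm_integral_le_of_norm_le_const (μ := mT) (C := ε)
      (f := fun θ : Tinf => F (toC θ) * conj (chi α θ)
        - MvPolynomial.eval (toC θ) p * conj (chi α θ))
      (Eventually.of_forall fun θ => by
        rw [← sub_mul, norm_mul, RCLike.norm_conj, chi_norm, mul_one]
        exact hp _ (toC_mem θ))
    simpa using this
  have h0 : ‖∫ θ, F (toC θ) * conj (chi α θ) ∂mT‖ ≤ 0 :=
    le_of_forall_pos_le_add fun ε hε => by simpa using key ε hε
  exact norm_le_zero_iff.1 h0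

end Pool.Agent.V1180.HT
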