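import Pool.Agent.V1180.HTb

/-!
# The probabilistic core
-/

namespace Pool.Agent.V1180.HT

open MeasureTheory Filter Topology Set
open scoped BigOperators ComplexConjugate

/-- the Herglotz-type function `(1+ρw)/(1-ρw)` -/
noncomputable def hh (ρ : ℝ) (w : ℂ) : ℂ := (1 + ρ * w) * (1 - ρ * w)⁻¹

theorem hh_zero (ρ : ℝ) : hh ρ 0 = 1 := by simp [hh]

theorem den_ge {ρ : ℝ} (h0 : 0 < ρ) {w : ℂ} (hw : ‖w‖ ≤ 1) : 1 - ρ ≤ (1 - (ρ : ℂ) * w).re := by
  have h1 : (w).re ≤ 1 := (Complex.re_le_norm w).trans hw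
  have h2 : (1 - (ρ : ℂ) * w).re = 1 - ρ * w.re := by simp
  rw [h2]
  nlinarith

theorem den_ne' {ρ : ℝ} (h0 : 0 < ρ) (h1 : ρ < 1) {w : ℂ} (hw : ‖w‖ ≤ 1) : 1 - (ρ : ℂ) * w ≠ 0 := by
  intro h
  have := den_ge h0 hw
  rw [h] at this
  simp at this
  linarith

theorem hh_re {ρ : ℝ} (h0 : 0 < ρ) (h1 : ρ < 1) {w : ℂ} (hw : ‖w‖ ≤ 1) :
    (hh ρ w).re = (1 - ρ ^ 2 * ‖w‖ ^ 2) / ‖1 - (ρ : ℂ) * w‖ ^ 2 := by
  have hne := den_ne' h0 h1 hw
  have hn : Complex.normSq (1 - (ρ : ℂ) * w) ≠ 0 := by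
    rwa [Ne, Complex.normSq_eq_zero]
  unfold hh
  rw [Complex.mul_re, Complex.inv_re, Complex.inv_im, ← Complex.normSq_eq_norm_sq,
    ← Complex.normSq_eq_norm_sq, Complex.normSq_apply w]
  simp only [Complex.add_re, Complex.one_re, Complex.mul_re, Complex.ofReal_re, Complex.ofReal_im,
    zero_mul, sub_zero, Complex.sub_re, Complex.add_im, Complex.one_im, Complex.mul_im, add_zero,
    zero_add, Complex.sub_im, zero_sub]
  field_simp
  ring

theorem hh_re_pos {ρ : ℝ} (h0 : 0 < ρ) (h1 : ρ < 1) {w : ℂ} (hw : ‖w‖ ≤ 1) :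
    (1 - ρ) / 4 ≤ (hh ρ w).re := by
  rw [hh_re h0 h1 hw]
  have hne := den_ne' h0 h1 hw
  have hpos : 0 < ‖1 - (ρ : ℂ) * w‖ := norm_pos_iff.2 hne
  have hup : ‖1 - (ρ : ℂ) * w‖ ≤ 2 := by
    refine (norm_sub_le _ _).trans ?_
    rw [norm_one, norm_mul, Complex.norm_real, Real.norm_eq_abs, abs_of_pos h0]
    nlinarith [norm_nonneg w]
  have h2 : ‖1 - (ρ : ℂ) * w‖ ^ 2 ≤ 4 := by nlinarith
  have h3 : ‖w‖ ^ 2 ≤ 1 := pow_le_one₀ (norm_nonneg _) hw
  have h4 : 1 - ρ ≤ 1 - ρ ^ 2 * ‖w‖ ^ 2 := by nlinarith [sq_nonneg ρ]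
  rw [div_le_div_iff₀ (by norm_num) (by positivity)]
  nlinarith

theorem hh_norm {ρ : ℝ} (h0 : 0 < ρ) (h1 : ρ < 1) {w : ℂ} (hw : ‖w‖ ≤ 1) :
    ‖hh ρ w‖ ≤ 2 / (1 - ρ) := by
  unfold hh
  rw [norm_mul, norm_inv, div_eq_mul_inv]
  refine mul_le_mul ?_ ?_ (by positivity) (by norm_num)
  · refine (norm_add_le _ _).trans ?_
    rw [norm_one, norm_mul, Complex.norm_real, Real.norm_eq_abs, abs_of_pos h0]
    nlinarith [norm_nonneg w]
  · exact inv_anti₀ (by linarith) ((den_ge h0 hw).trans (Complex.re_le_norm _))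

theorem hh_re_small {ρ ε : ℝ} (h0 : 1 / 2 ≤ ρ) (h1 : ρ < 1) (hε : 0 < ε) {u : Circle}
    (hu : ε ≤ ‖1 - (u : ℂ)‖) : (hh ρ u).re ≤ 4 * (1 - ρ) / ε ^ 2 := by
  have hρ : 0 < ρ := by linarith
  have hn : ‖(u : ℂ)‖ = 1 := Circle.norm_coe u
  rw [hh_re hρ h1 hn.le, hn]
  have e1 : ‖1 - (ρ : ℂ) * u‖ ^ 2 = (1 - ρ) ^ 2 + ρ * ‖1 - (u : ℂ)‖ ^ 2 := by
    have hs : Complex.normSq (u : ℂ) = 1 := by rw [Complex.normSq_eq_norm_sq, hn]; norm_num
    rw [Complex.normSq_apply] at hs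
    rw [← Complex.normSq_eq_norm_sq, ← Complex.normSq_eq_norm_sq, Complex.normSq_apply,
      Complex.normSq_apply]
    simp only [Complex.sub_re, Complex.one_re, Complex.mul_re, Complex.ofReal_re,
      Complex.ofReal_im, zero_mul, sub_zero, Complex.sub_im, Complex.one_im, Complex.mul_im,
      add_zero, zero_sub]
    nlinarith [hs]
  have e2 : ε ^ 2 / 2 ≤ ‖1 - (ρ : ℂ) * u‖ ^ 2 := by
    rw [e1]
    have : ε ^ 2 ≤ ‖1 - (u : ℂ)‖ ^ 2 := pow_le_pow_left₀ hε.le hu 2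
    nlinarith [sq_nonneg (1 - ρ), sq_nonneg ε]
  calc (1 - ρ ^ 2 * 1 ^ 2) / ‖1 - (ρ : ℂ) * u‖ ^ 2 ≤ (2 * (1 - ρ)) / (ε ^ 2 / 2) := by
        refine div_le_div₀ (by linarith) (by nlinarith) (by positivity) e2
    _ = 4 * (1 - ρ) / ε ^ 2 := by ring

/-- the truncated function -/
noncomputable def ZZ (ρ ε : ℝ) (u : Circle) : ℂ := if ‖1 - (u : ℂ)‖ < ε then 1 else hh ρ u

theorem ZZ_norm {ρ ε : ℝ} (h0 : 0 < ρ) (h1 : ρ < 1) (u : Circle) : ‖ZZ ρ ε u‖ ≤ 2 / (1 - ρ) := by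
  unfold ZZ
  split_ifs
  · rw [norm_one, le_div_iff₀ (by linarith)]
    linarith
  · exact hh_norm h0 h1 (Circle.norm_coe u).le

theorem hh_cont {ρ : ℝ} (h0 : 0 < ρ) (h1 : ρ < 1) : Continuous fun u : Circle => hh ρ u := by
  unfold hh
  refine Continuous.mul ?_ (Continuous.inv₀ ?_ ?_)
  · exact continuous_const.add (continuous_const.mul cont_coe)
  · exact continuous_const.sub (continuous_const.mul cont_coe)
  · exact fun u => den_ne' h0 h1 (Circle.norm_coe u).le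

theorem EE_meas (ε : ℝ) : MeasurableSet {u : Circle | ‖1 - (u : ℂ)‖ < ε} :=
  (isOpen_lt (continuous_const.sub cont_coe).norm continuous_const).measurableSet

theorem ZZ_meas {ρ ε : ℝ} (h0 : 0 < ρ) (h1 : ρ < 1) : Measurable (ZZ ρ ε) :=
  Measurable.ite (EE_meas ε) measurable_const (hh_cont h0 h1).measurable

theorem ZZ_int {ρ ε : ℝ} (h0 : 0 < ρ) (h1 : ρ < 1) : Integrable (ZZ ρ ε) mC :=
  Integrable.of_bound (ZZ_meas h0 h1).aestronglyMeasurable (2 / (1 - ρ))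
    (Eventually.of_forall fun u => ZZ_norm h0 h1 u)

theorem ZZ_conj {ρ ε : ℝ} (u : Circle) : ZZ ρ ε u⁻¹ = conj (ZZ ρ ε u) := by
  have h3 : ((u⁻¹ : Circle) : ℂ) = conj (u : ℂ) := Circle.coe_inv_eq_conj u
  have h4 : ‖1 - conj (u : ℂ)‖ = ‖1 - (u : ℂ)‖ := by
    rw [← RCLike.norm_conj (1 - (u : ℂ)), map_sub, map_one]
  unfold ZZ
  rw [h3, h4]
  split_ifs
  · simp
  · unfold hh
    simp [map_mul, map_inv₀]

instance : mC.IsInvInvariant := by
  have : mC.Regular := by unfold mC; infer_instance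
  infer_instance

theorem ZZ_int_im {ρ ε : ℝ} : (∫ u, ZZ ρ ε u ∂mC).im = 0 := by
  have h1 : ∫ u, ZZ ρ ε u⁻¹ ∂mC = ∫ u, ZZ ρ ε u ∂mC := integral_inv_eq_self _ mC
  simp only [ZZ_conj] at h1
  rw [integral_conj] at h1
  exact Complex.conj_eq_iff_im.1 h1

theorem ZZ_mean {ρ ε : ℝ} (h0 : 1 / 2 ≤ ρ) (h1 : ρ < 1) (hε : 0 < ε) :
    ‖∫ u, ZZ ρ ε u ∂mC‖ ≤ mC.real {u : Circle | ‖1 - (u : ℂ)‖ < ε} + 4 * (1 - ρ) / ε ^ 2 := by
  have hρ : 0 < ρ := by linarith
  have hI := ZZ_int (ε := ε) hρ h1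
  have hre : (∫ u, ZZ ρ ε u ∂mC).re = ∫ u, (ZZ ρ ε u).re ∂mC := by
    have := integral_re (𝕜 := ℂ) hI
    simpa using this.symm
  have hnn : ∀ u, 0 ≤ (ZZ ρ ε u).re := by
    intro u
    unfold ZZ
    split_ifs
    · simp
    · exact le_trans (by linarith) (hh_re_pos hρ h1 (Circle.norm_coe u).le)
  have h2 : 0 ≤ (∫ u, ZZ ρ ε u ∂mC).re := by
    rw [hre]
    exact integral_nonneg hnn
  have h3 : ‖∫ u, ZZ ρ ε u ∂mC‖ = (∫ u, ZZ ρ ε u ∂mC).re := by
    have e : ∫ u, ZZ ρ ε u ∂mC = (((∫ u, ZZ ρ ε u ∂mC).re : ℝ) : ℂ) := by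
      apply Complex.ext
      · simp
      · simpa using ZZ_int_im
    rw [e, Complex.norm_real, Real.norm_eq_abs, Complex.ofReal_re, abs_of_nonneg h2]
  rw [h3, hre]
  set E : Set Circle := {u : Circle | ‖1 - (u : ℂ)‖ < ε} with hE
  have hEm : MeasurableSet E := EE_meas ε
  calc ∫ u, (ZZ ρ ε u).re ∂mC ≤ ∫ u, (E.indicator (fun _ => (1 : ℝ)) u + 4 * (1 - ρ) / ε ^ 2) ∂mC := by
        refine integral_mono ?_ ?_ fun u => ?_
        · have := hI.re
          simpa using this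
        · exact ((integrable_const _).indicator hEm).add (integrable_const _)
        · simp only
          have hpos : 0 ≤ 4 * (1 - ρ) / ε ^ 2 := by
            have : 0 ≤ 1 - ρ := by linarith
            positivity
          by_cases hu : u ∈ E
          · rw [indicator_of_mem hu]
            have : ZZ ρ ε u = 1 := if_pos hu
            rw [this, Complex.one_re]
            linarith
          · rw [indicator_of_notMem hu, zero_add]
            have : ZZ ρ ε u = hh ρ u := if_neg hu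
            rw [this]
            exact hh_re_small h0 h1 hε (not_lt.1 hu)
    _ = mC.real E + 4 * (1 - ρ) / ε ^ 2 := by
        rw [integral_add ((integrable_const _).indicator hEm) (integrable_const _),
          integral_indicator_const _ hEm]
        simp

theorem circle_nontrivial : Nontrivial Circle := by
  obtain ⟨u, hu⟩ := exists_neg_one 1 one_ne_zero
  refine ⟨⟨1, u, fun h => ?_⟩⟩
  rw [← h, Circle.coe_one, one_zpow] at hu
  norm_num at hu

theorem mC_singleton : mC {(1 : Circle)} = 0 := by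
  have := circle_nontrivial
  exact measure_singleton _

theorem small_arc (q : ℝ) (hq : 0 < q) : ∃ ε : ℝ, 0 < ε ∧
    mC.real {u : Circle | ‖1 - (u : ℂ)‖ < ε} ≤ q := by
  have hanti : Antitone fun n : ℕ => {u : Circle | ‖1 - (u : ℂ)‖ < 1 / ((n : ℝ) + 1)} := by
    intro a b hab u hu
    refine lt_of_lt_of_le (show ‖1 - (u : ℂ)‖ < 1 / ((b : ℝ) + 1) from hu) ?_
    have : (a : ℝ) ≤ b := by exact_mod_cast hab
    gcongr
  have h1 : Tendsto (fun n : ℕ => mC {u : Circle | ‖1 - (u : ℂ)‖ < 1 / ((n : ℝ) + 1)}) atTop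
      (𝓝 (mC (⋂ n : ℕ, {u : Circle | ‖1 - (u : ℂ)‖ < 1 / ((n : ℝ) + 1)}))) :=
    tendsto_measure_iInter_atTop (fun n => (EE_meas _).nullMeasurableSet) hanti
      ⟨0, measure_ne_top _ _⟩
  have h2 : (⋂ n : ℕ, {u : Circle | ‖1 - (u : ℂ)‖ < 1 / ((n : ℝ) + 1)}) = {1} := by
    ext u
    simp only [mem_iInter, mem_ofPred_eq, mem_singleton_iff]
    constructor
    · intro h
      by_contra hne
      have hpos : 0 < ‖1 - (u : ℂ)‖ := by
        rw [norm_pos_iff, sub_ne_zero]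
        intro h'
        apply hne
        apply Circle.ext
        rw [← h', Circle.coe_one]
      obtain ⟨n, hn⟩ := exists_nat_one_div_lt hpos
      exact absurd (h n) (not_lt.2 hn.le)
    · rintro rfl n
      rw [Circle.coe_one, sub_self, norm_zero]
      positivity
  rw [h2, mC_singleton] at h1
  have h3 : ∀ᶠ n : ℕ in atTop, mC {u : Circle | ‖1 - (u : ℂ)‖ < 1 / ((n : ℝ) + 1)}
      < ENNReal.ofReal q := h1.eventually (gt_mem_nhds (by simpa using hq))
  obtain ⟨n, hn⟩ := h3.exists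
  refine ⟨1 / ((n : ℝ) + 1), by positivity, ?_⟩
  rw [Measure.real]
  exact ENNReal.toReal_le_of_le_ofReal hq.le hn.le

/-- second moment of a sum of independent centred variables -/
theorem second_moment {m : ℕ} {D : Circle → ℂ} {B : ℝ} (hD : Measurable D)
    (hB : ∀ u, ‖D u‖ ≤ B) (h0 : ∫ u, D u ∂mC = 0) :
    ∫ v : Fin m → Circle, ‖∑ i, D (v i)‖ ^ 2 ∂(Measure.pi fun _ => mC) ≤ m * B ^ 2 := by
  have hB0 : 0 ≤ B := (norm_nonneg _).trans (hB 1)
  have hInt : ∀ i j : Fin m, Integrable (fun v : Fin m → Circle => D (v i) * conj (D (v j)))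
      (Measure.pi fun _ => mC) := by
    intro i j
    refine Integrable.of_bound (C := B * B) ?_ (Eventually.of_forall fun v => ?_)
    · refine Measurable.aestronglyMeasurable ?_
      exact (hD.comp (measurable_pi_apply i)).mul
        (Complex.continuous_conj.measurable.comp (hD.comp (measurable_pi_apply j)))
    · rw [norm_mul, RCLike.norm_conj]
      exact mul_le_mul (hB _) (hB _) (norm_nonneg _) hB0
  have hoff : ∀ i j : Fin m, i ≠ j →
      ∫ v : Fin m → Circle, D (v i) * conj (D (v j)) ∂(Measure.pi fun _ => mC) = 0 := by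
    intro i j hij
    set f : Fin m → Circle → ℂ := fun l u => if l = i then D u else if l = j then conj (D u) else 1
      with hf
    have e : ∀ v : Fin m → Circle, D (v i) * conj (D (v j)) = ∏ l, f l (v l) := by
      intro v
      rw [Fintype.prod_eq_mul i j hij]
      · rw [hf]
        simp [hij.symm]
      · intro l hl
        rw [hf]
        simp [hl.1, hl.2]
    simp only [e]
    rw [integral_fintype_prod_eq_prod]
    refine Finset.prod_eq_zero (Finset.mem_univ i) ?_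
    rw [hf]
    simpa using h0
  have e : ∀ v : Fin m → Circle, ((‖∑ i, D (v i)‖ ^ 2 : ℝ) : ℂ)
      = ∑ i, ∑ j, D (v i) * conj (D (v j)) := by
    intro v
    rw [← Complex.normSq_eq_norm_sq, ← Complex.mul_conj, map_sum, Finset.sum_mul_sum]
  have h1 : ((∫ v : Fin m → Circle, ‖∑ i, D (v i)‖ ^ 2 ∂(Measure.pi fun _ => mC) : ℝ) : ℂ)
      = ∑ i : Fin m, ∫ v : Fin m → Circle, D (v i) * conj (D (v i)) ∂(Measure.pi fun _ => mC) := by
    rw [← integral_complex_ofReal]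
    simp only [e]
    rw [integral_finsetSum _ fun i _ => integrable_finsetSum _ fun j _ => hInt i j]
    refine Finset.sum_congr rfl fun i _ => ?_
    rw [integral_finsetSum _ fun j _ => hInt i j]
    refine Finset.sum_eq_single i (fun j _ hj => hoff i j (Ne.symm hj)) ?_
    intro h
    exact absurd (Finset.mem_univ _) h
  have h2 : ∀ i : Fin m, ‖∫ v : Fin m → Circle, D (v i) * conj (D (v i)) ∂(Measure.pi fun _ => mC)‖
      ≤ B ^ 2 := by
    intro i
    have := norm_integral_le_of_norm_le_const (μ := Measure.pi fun _ : Fin m => mC) (C := B ^ 2)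
      (f := fun v : Fin m → Circle => D (v i) * conj (D (v i)))
      (Eventually.of_forall fun v => by
        rw [norm_mul, RCLike.norm_conj, sq]
        exact mul_le_mul (hB _) (hB _) (norm_nonneg _) hB0)
    simpa using this
  have h3 : ‖((∫ v : Fin m → Circle, ‖∑ i, D (v i)‖ ^ 2 ∂(Measure.pi fun _ => mC) : ℝ) : ℂ)‖
      ≤ m * B ^ 2 := by
    rw [h1]
    refine (norm_sum_le _ _).trans ?_
    refine (Finset.sum_le_sum fun i _ => h2 i).trans ?_
    simp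
  rw [Complex.norm_real, Real.norm_eq_abs] at h3
  exact (le_abs_self _).trans h3

/-- The core estimate. -/
theorem core (q : ℝ) (hq : 0 < q) (δ : ℝ) (hδ : 0 < δ) :
    ∃ ρ : ℝ, 0 < ρ ∧ ρ < 1 ∧ ∃ ε : ℝ, 0 < ε ∧ ∃ m : ℕ, 0 < m ∧
      (Measure.pi fun _ : Fin m => mC)
        {v | 3 * q < ‖(1 / (m : ℂ)) * ∑ i, ZZ ρ ε (v i)‖} ≤ ENNReal.ofReal δ := by
  obtain ⟨ε, hε, harc⟩ := small_arc q hq
  obtain ⟨ρ, hρ1, hρ2, hρ3⟩ : ∃ ρ : ℝ, 1 / 2 ≤ ρ ∧ ρ < 1 ∧ 4 * (1 - ρ) / ε ^ 2 ≤ q := by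
    refine ⟨1 - min (1 / 2) (q * ε ^ 2 / 4), ?_, ?_, ?_⟩
    · have := min_le_left (1 / 2 : ℝ) (q * ε ^ 2 / 4)
      linarith
    · have : 0 < min (1 / 2 : ℝ) (q * ε ^ 2 / 4) := by positivity
      linarith
    · have := min_le_right (1 / 2 : ℝ) (q * ε ^ 2 / 4)
      rw [div_le_iff₀ (by positivity)]
      linarith
  have hρ0 : 0 < ρ := by linarith
  set A : ℝ := 2 / (1 - ρ) with hA
  have hApos : 0 < A := by
    have : 0 < 1 - ρ := by linarith
    positivity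
  set c : ℂ := ∫ u, ZZ ρ ε u ∂mC with hc
  have hcn : ‖c‖ ≤ 2 * q := by
    have := ZZ_mean hρ1 hρ2 hε
    rw [← hc] at this
    linarith
  obtain ⟨m, hm⟩ := exists_nat_gt ((2 * A) ^ 2 / (q ^ 2 * δ))
  have hm0 : 0 < (m : ℝ) := lt_of_le_of_lt (by positivity) hm
  have hmpos : 0 < m := by exact_mod_cast hm0
  refine ⟨ρ, hρ0, hρ2, ε, hε, m, hmpos, ?_⟩
  set D : Circle → ℂ := fun u => ZZ ρ ε u - c with hD
  have hDm : Measurable D := (ZZ_meas hρ0 hρ2).sub measurable_const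
  have hcA : ‖c‖ ≤ A := by
    have := norm_integral_le_of_norm_le_const (μ := mC) (C := A) (f := ZZ ρ ε)
      (Eventually.of_forall fun u => ZZ_norm hρ0 hρ2 u)
    simpa using this
  have hDB : ∀ u, ‖D u‖ ≤ 2 * A := by
    intro u
    refine (norm_sub_le _ _).trans ?_
    have := ZZ_norm (ε := ε) hρ0 hρ2 u
    linarith
  have hD0 : ∫ u, D u ∂mC = 0 := by
    rw [hD, integral_sub (ZZ_int hρ0 hρ2) (integrable_const _), ← hc]
    simp
  have hsec := second_moment (m := m) hDm hDB hD0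
  have hfm : Measurable fun v : Fin m → Circle => ‖∑ i, D (v i)‖ ^ 2 := by
    refine Measurable.pow_const (Measurable.norm ?_) 2
    exact Finset.measurable_fun_sum _ fun i _ => hDm.comp (measurable_pi_apply i)
  have hfi : Integrable (fun v : Fin m → Circle => ‖∑ i, D (v i)‖ ^ 2)
      (Measure.pi fun _ => mC) := by
    refine Integrable.of_bound (C := (m * (2 * A)) ^ 2) hfm.aestronglyMeasurable
      (Eventually.of_forall fun v => ?_)
    rw [Real.norm_eq_abs, abs_of_nonneg (by positivity)]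
    refine pow_le_pow_left₀ (norm_nonneg _) ?_ 2
    refine (norm_sum_le _ _).trans ((Finset.sum_le_sum fun i _ => hDB (v i)).trans ?_)
    simp
  have hcheb := mul_meas_ge_le_integral_of_nonneg (μ := Measure.pi fun _ : Fin m => mC)
    (Eventually.of_forall fun v => by positivity) hfi ((m * q) ^ 2)
  have hreal : (Measure.pi fun _ : Fin m => mC).real
      {v : Fin m → Circle | (m * q) ^ 2 ≤ ‖∑ i, D (v i)‖ ^ 2} ≤ δ := by
    have h1 : (m * q) ^ 2 * (Measure.pi fun _ : Fin m => mC).real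
      {v : Fin m → Circle | (m * q) ^ 2 ≤ ‖∑ i, D (v i)‖ ^ 2} ≤ m * (2 * A) ^ 2 :=
      hcheb.trans hsec
    have h2 : (2 * A) ^ 2 < m * (q ^ 2 * δ) := by
      rwa [div_lt_iff₀ (by positivity)] at hm
    have h3 : m * (2 * A) ^ 2 ≤ (m * q) ^ 2 * δ := by nlinarith
    have h4 : 0 < (m * q) ^ 2 := by positivity
    exact le_of_mul_le_mul_left (h1.trans h3) h4
  have hsub : {v : Fin m → Circle | 3 * q < ‖(1 / (m : ℂ)) * ∑ i, ZZ ρ ε (v i)‖}
      ⊆ {v : Fin m → Circle | (m * q) ^ 2 ≤ ‖∑ i, D (v i)‖ ^ 2} := by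
    intro v hv
    rw [mem_ofPred_eq] at hv ⊢
    refine pow_le_pow_left₀ (by positivity) ?_ 2
    have hmC : (m : ℂ) ≠ 0 := by exact_mod_cast hmpos.ne'
    have e : (1 / (m : ℂ)) * ∑ i, ZZ ρ ε (v i) = (1 / (m : ℂ)) * ∑ i, D (v i) + c := by
      rw [hD, Finset.sum_sub_distrib]
      simp
      field_simp
      ring
    rw [e] at hv
    have h1 : ‖(1 / (m : ℂ)) * ∑ i, D (v i) + c‖ ≤ (1 / m) * ‖∑ i, D (v i)‖ + ‖c‖ := by
      refine (norm_add_le _ _).trans ?_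
      rw [norm_mul, norm_div, norm_one, Complex.norm_natCast]
    have h2 : q < (1 / m) * ‖∑ i, D (v i)‖ := by linarith
    have h3 : m * q < m * ((1 / m) * ‖∑ i, D (v i)‖) := mul_lt_mul_of_pos_left h2 hm0
    have h4 : m * ((1 / m) * ‖∑ i, D (v i)‖) = ‖∑ i, D (v i)‖ := by field_simp
    linarith
  refine (measure_mono hsub).trans ?_
  rw [← ENNReal.toReal_le_toReal (measure_ne_top _ _) ENNReal.ofReal_ne_top,
    ENNReal.toReal_ofReal hδ.le]
  exact hreal

theorem bad_meas {m : ℕ} (ρ ε q : ℝ) (h0 : 0 < ρ) (h1 : ρ < 1) :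
    MeasurableSet {v : Fin m → Circle | 3 * q < ‖(1 / (m : ℂ)) * ∑ i, ZZ ρ ε (v i)‖} := by
  refine measurableSet_lt measurable_const (Measurable.norm (Measurable.const_mul ?_ _))
  exact Finset.measurable_fun_sum _ fun i _ => (ZZ_meas h0 h1).comp (measurable_pi_apply i)

end Pool.Agent.V1180.HT
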