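import Pool.Agent.V1180.HTc

/-!
# Windows
-/

namespace Pool.Agent.V1180.HT

open MeasureTheory Filter Topology Set
open scoped BigOperators ComplexConjugate

/-- the average `(1/m) ∑ h(u_i)` -/
noncomputable def SS {m : ℕ} (ρ : ℝ) (u : Fin m → ℂ) : ℂ := (1 / (m : ℂ)) * ∑ i, hh ρ (u i)

/-- the window function `S/(S+q)` -/
noncomputable def FF {m : ℕ} (ρ q : ℝ) (u : Fin m → ℂ) : ℂ := SS ρ u * (SS ρ u + q)⁻¹

theorem SS_re {m : ℕ} (hm : 0 < m) {ρ : ℝ} (h0 : 0 < ρ) (h1 : ρ < 1) {u : Fin m → ℂ}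
    (hu : ∀ i, ‖u i‖ ≤ 1) : (1 - ρ) / 4 ≤ (SS ρ u).re := by
  unfold SS
  have e : ((1 / (m : ℂ)) * ∑ i, hh ρ (u i)).re = (1 / (m : ℝ)) * ∑ i, (hh ρ (u i)).re := by
    have : (1 / (m : ℂ)) = ((1 / (m : ℝ) : ℝ) : ℂ) := by push_cast; rfl
    rw [this, Complex.re_ofReal_mul, Complex.re_sum]
  rw [e]
  have h2 : ∑ i : Fin m, (1 - ρ) / 4 ≤ ∑ i, (hh ρ (u i)).re :=
    Finset.sum_le_sum fun i _ => hh_re_pos h0 h1 (hu i)
  rw [Finset.sum_const, Finset.card_univ, Fintype.card_fin, nsmul_eq_mul] at h2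
  have hm' : (0 : ℝ) < m := by exact_mod_cast hm
  calc (1 - ρ) / 4 = (1 / (m : ℝ)) * (m * ((1 - ρ) / 4)) := by field_simp
    _ ≤ _ := mul_le_mul_of_nonneg_left h2 (by positivity)

theorem SSq_ne {m : ℕ} (hm : 0 < m) {ρ q : ℝ} (h0 : 0 < ρ) (h1 : ρ < 1) (hq : 0 < q)
    {u : Fin m → ℂ} (hu : ∀ i, ‖u i‖ ≤ 1) : SS ρ u + q ≠ 0 := by
  intro h
  have h2 := SS_re hm h0 h1 hu
  have h3 : (SS ρ u + q).re = (SS ρ u).re + q := by simp
  rw [h] at h3
  simp at h3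
  linarith

theorem SS_ne {m : ℕ} (hm : 0 < m) {ρ : ℝ} (h0 : 0 < ρ) (h1 : ρ < 1)
    {u : Fin m → ℂ} (hu : ∀ i, ‖u i‖ ≤ 1) : SS ρ u ≠ 0 := by
  intro h
  have h2 := SS_re hm h0 h1 hu
  rw [h] at h2
  simp at h2
  linarith

theorem FF_ne {m : ℕ} (hm : 0 < m) {ρ q : ℝ} (h0 : 0 < ρ) (h1 : ρ < 1) (hq : 0 < q)
    {u : Fin m → ℂ} (hu : ∀ i, ‖u i‖ ≤ 1) : FF ρ q u ≠ 0 :=
  mul_ne_zero (SS_ne hm h0 h1 hu) (inv_ne_zero (SSq_ne hm h0 h1 hq hu))

theorem FF_norm {m : ℕ} (hm : 0 < m) {ρ q : ℝ} (h0 : 0 < ρ) (h1 : ρ < 1) (hq : 0 < q)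
    {u : Fin m → ℂ} (hu : ∀ i, ‖u i‖ ≤ 1) : ‖FF ρ q u‖ ≤ 1 := by
  unfold FF
  have hne := SSq_ne hm h0 h1 hq hu
  rw [norm_mul, norm_inv, ← div_eq_mul_inv, div_le_one (norm_pos_iff.2 hne)]
  have h2 := SS_re hm h0 h1 hu
  refine abs_le_of_sq_le_sq' ?_ (norm_nonneg _) |>.2
  rw [← Complex.normSq_eq_norm_sq, ← Complex.normSq_eq_norm_sq, Complex.normSq_apply,
    Complex.normSq_apply]
  simp only [Complex.add_re, Complex.ofReal_re, Complex.add_im, Complex.ofReal_im, add_zero]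
  nlinarith

theorem FF_zero {m : ℕ} (hm : 0 < m) (ρ q : ℝ) : FF ρ q (fun _ : Fin m => 0) = (1 + (q : ℂ))⁻¹ := by
  have hm' : (m : ℂ) ≠ 0 := by exact_mod_cast hm.ne'
  have : SS ρ (fun _ : Fin m => 0) = 1 := by
    unfold SS
    simp only [hh_zero]
    simp
    field_simp
  unfold FF
  rw [this, one_mul]

theorem FF_good {m : ℕ} (hm : 0 < m) {ρ q : ℝ} (h0 : 0 < ρ) (h1 : ρ < 1) (hq : 0 < q)
    {W : Fin m → (ℕ → ℂ) → ℂ} (hW : ∀ i, Good (W i)) (hW1 : ∀ i, ∀ z ∈ cD, ‖W i z‖ ≤ 1) :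
    Good fun z => FF ρ q (fun i => W i z) := by
  have hS : Good fun z => SS ρ (fun i => W i z) := by
    unfold SS hh
    refine (good_const _).mul (Good.sum _ fun i _ => Good.mul ?_ ?_)
    · exact (good_const _).add ((good_const _).mul (hW i))
    · have h2 : Good fun z => 1 + (-(ρ : ℂ)) * W i z :=
        (good_const _).add ((good_const _).mul (hW i))
      have h3 : Good fun z => 1 - (ρ : ℂ) * W i z := h2.congr fun z _ => by ring
      exact h3.inv (c := 1 - ρ) (by linarith) fun z hz => den_ge h0 (hW1 i z hz)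
  unfold FF
  refine hS.mul ((hS.add (good_const (q : ℂ))).inv (c := q) hq fun z hz => ?_)
  have := SS_re hm h0 h1 (u := fun i => W i z) fun i => hW1 i z hz
  simp only [Complex.add_re, Complex.ofReal_re]
  linarith

/-- extension by zero -/
def ext0 {m : ℕ} (u : Fin m → ℂ) : ℕ → ℂ := fun n => if h : n < m then u ⟨n, h⟩ else 0

theorem FF_tol {m : ℕ} (hm : 0 < m) {ρ q : ℝ} (h0 : 0 < ρ) (h1 : ρ < 1) (hq : 0 < q) :
    ∃ η : ℝ, 0 < η ∧ ∀ u u' : Fin m → ℂ, (∀ i, ‖u i‖ ≤ 1) → (∀ i, ‖u' i‖ ≤ 1) →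
      (∀ i, ‖u i - u' i‖ ≤ η) → ‖FF ρ q u - FF ρ q u'‖ ≤ 1 / 20 := by
  have hg : Good fun z => FF ρ q (fun i : Fin m => z i) :=
    FF_good hm h0 h1 hq (fun i => good_coord i) fun i z hz => hz i
  obtain ⟨η, hη, N, h⟩ := hg.uc (1 / 20) (by norm_num)
  refine ⟨η, hη, fun u u' hu hu' huu => ?_⟩
  have e : ∀ v : Fin m → ℂ, (fun i : Fin m => ext0 v i) = v := by
    intro v
    funext i
    unfold ext0
    rw [dif_pos i.2]
  have hmem : ∀ v : Fin m → ℂ, (∀ i, ‖v i‖ ≤ 1) → ext0 v ∈ cD := by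
    intro v hv n
    unfold ext0
    split_ifs
    · exact hv _
    · simp
  have := h (ext0 u) (hmem u hu) (ext0 u') (hmem u' hu') fun n _ => by
    unfold ext0
    split_ifs
    · exact huu _
    · simpa using hη.le
  simp only [e] at this
  exact this

/-- A window: sizes, block lengths and radii. -/
structure Win (q δ : ℝ) where
  m : ℕ
  hm : 0 < m
  ρ : ℝ
  hρ0 : 0 < ρ
  hρ1 : ρ < 1
  L : ℕ → ℕ
  hL : ∀ i, 0 < L i
  bad : Set (Fin m → Circle)
  hbad : MeasurableSet bad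
  hbadm : (Measure.pi fun _ : Fin m => mC) bad ≤ ENNReal.ofReal δ
  R : Finset (Fin m) → ℕ → ℝ
  hR0 : ∀ I i, i < m → 0 ≤ R I i
  Rm : ℝ
  hRm : ∀ I i, i < m → R I i ≤ Rm
  hRm1 : Rm < 1
  hanti : ∀ I, ∀ i j, i ≤ j → j < m → R I j ≤ R I i
  good : ∀ v ∉ bad, ∃ I : Finset (Fin m),
    1 / 5 ≤ ‖FF ρ q (fun i : Fin m => (R I i : ℂ) ^ (L i) * (v i : ℂ)) - 1‖

theorem win_exists (q : ℝ) (hq : 0 < q) (δ : ℝ) (hδ : 0 < δ) : Nonempty (Win q δ) := by
  classical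
  obtain ⟨ρ, h0, h1, ε, hε, m, hm, hcore⟩ := core q hq δ hδ
  obtain ⟨η, hη, htol⟩ := FF_tol hm h0 h1 hq
  obtain ⟨Q, hQ⟩ := exists_nat_gt (max 2 (1 / η))
  have hQ2 : (2 : ℝ) < Q := (le_max_left _ _).trans_lt hQ
  have hQη : 1 / η < Q := (le_max_right _ _).trans_lt hQ
  have hQ0 : (0 : ℝ) < Q := by linarith
  have hQη' : 1 / (Q : ℝ) ≤ η := by
    rw [div_le_iff₀ hQ0]
    rw [div_lt_iff₀ hη] at hQη
    linarith
  set ex : Finset (Fin m) → ℕ → ℕ := fun I i =>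
    if ∃ h : i < m, (⟨i, h⟩ : Fin m) ∈ I then 2 * (m - i) + 1 else 2 * (m - i) - 1 with hex
  have hex1 : ∀ I i, i < m → 1 ≤ ex I i := by
    intro I i hi
    simp only [hex]
    split_ifs <;> omega
  have hpow1 : ∀ n : ℕ, 1 ≤ n → 1 / (Q : ℝ) ^ n ≤ 1 / Q := by
    intro n hn
    have : (Q : ℝ) ^ 1 ≤ (Q : ℝ) ^ n := pow_le_pow_right₀ (by linarith) hn
    rw [pow_one] at this
    exact one_div_le_one_div_of_le hQ0 this
  have hQhalf : 1 / (Q : ℝ) ≤ 1 / 2 := one_div_le_one_div_of_le (by norm_num) hQ2.le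
  have hmax : ∀ I i, i < m → (Q : ℝ) ^ (ex I i) ≤ (Q : ℝ) ^ (2 * m + 1) := by
    intro I i hi
    refine pow_le_pow_right₀ (by linarith) ?_
    simp only [hex]
    split_ifs <;> omega
  refine ⟨⟨m, hm, ρ, h0, h1, fun i => Q ^ (2 * (m - i)), ?_,
    {v | 3 * q < ‖(1 / (m : ℂ)) * ∑ i, ZZ ρ ε (v i)‖}, bad_meas ρ ε q h0 h1, hcore,
    fun I i => 1 - 1 / (Q : ℝ) ^ (ex I i), ?_, 1 - 1 / (Q : ℝ) ^ (2 * m + 1), ?_, ?_, ?_, ?_⟩⟩
  · intro i
    have : 0 < Q := by exact_mod_cast hQ0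
    positivity
  · intro I i hi
    have := hpow1 _ (hex1 I i hi)
    linarith
  · intro I i hi
    have : 1 / (Q : ℝ) ^ (2 * m + 1) ≤ 1 / (Q : ℝ) ^ (ex I i) :=
      one_div_le_one_div_of_le (by positivity) (hmax I i hi)
    linarith
  · have : 0 < 1 / (Q : ℝ) ^ (2 * m + 1) := by positivity
    linarith
  · intro I i j hij hj
    have h2 : ex I j ≤ ex I i := by
      rcases eq_or_lt_of_le hij with rfl | hlt
      · exact le_rfl
      · simp only [hex]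
        split_ifs <;> omega
    have : 1 / (Q : ℝ) ^ (ex I i) ≤ 1 / (Q : ℝ) ^ (ex I j) :=
      one_div_le_one_div_of_le (by positivity) (pow_le_pow_right₀ (by linarith) h2)
    linarith
  · intro v hv
    set I : Finset (Fin m) := Finset.univ.filter fun i => ¬ ‖1 - (v i : ℂ)‖ < ε with hI
    refine ⟨I, ?_⟩
    set u : Fin m → ℂ := fun i => if ‖1 - (v i : ℂ)‖ < ε then 0 else (v i : ℂ) with hu
    set u' : Fin m → ℂ := fun i : Fin m =>
      (((1 - 1 / (Q : ℝ) ^ (ex I i) : ℝ)) : ℂ) ^ (Q ^ (2 * (m - i))) * (v i : ℂ) with hu'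
    have hSS : SS ρ u = (1 / (m : ℂ)) * ∑ i, ZZ ρ ε (v i) := by
      unfold SS
      congr 1
      refine Finset.sum_congr rfl fun i _ => ?_
      unfold ZZ
      simp only [hu]
      split_ifs
      · exact hh_zero ρ
      · rfl
    have hvb : ‖(1 / (m : ℂ)) * ∑ i, ZZ ρ ε (v i)‖ ≤ 3 * q := not_lt.1 hv
    rw [← hSS] at hvb
    have hun : ∀ i, ‖u i‖ ≤ 1 := by
      intro i
      simp only [hu]
      split_ifs
      · simp
      · exact (Circle.norm_coe _).le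
    have hFFu : 1 / 4 ≤ ‖FF ρ q u - 1‖ := by
      have hne := SSq_ne hm h0 h1 hq hun
      have e : FF ρ q u - 1 = -(q : ℂ) * (SS ρ u + q)⁻¹ := by
        unfold FF
        field_simp
        ring
      rw [e, norm_mul, norm_neg, Complex.norm_real, Real.norm_eq_abs, abs_of_pos hq, norm_inv]
      have h2 : ‖SS ρ u + q‖ ≤ 4 * q := by
        refine (norm_add_le _ _).trans ?_
        rw [Complex.norm_real, Real.norm_eq_abs, abs_of_pos hq]
        linarith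
      have h3 : (4 * q)⁻¹ ≤ ‖SS ρ u + q‖⁻¹ := inv_anti₀ (norm_pos_iff.2 hne) h2
      calc 1 / 4 = q * (4 * q)⁻¹ := by field_simp
        _ ≤ _ := mul_le_mul_of_nonneg_left h3 hq.le
    have hRpos : ∀ i : Fin m, 0 ≤ 1 - 1 / (Q : ℝ) ^ (ex I i) := by
      intro i
      have := hpow1 _ (hex1 I i i.2)
      linarith
    have hRle : ∀ i : Fin m, 1 - 1 / (Q : ℝ) ^ (ex I i) ≤ 1 := by
      intro i
      have : 0 < 1 / (Q : ℝ) ^ (ex I i) := by positivity
      linarith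
    have hun' : ∀ i, ‖u' i‖ ≤ 1 := by
      intro i
      simp only [hu']
      rw [norm_mul, norm_pow, Circle.norm_coe, mul_one, Complex.norm_real, Real.norm_eq_abs,
        abs_of_nonneg (hRpos i)]
      exact pow_le_one₀ (hRpos i) (hRle i)
    have hclose : ∀ i, ‖u' i - u i‖ ≤ η := by
      intro i
      have hQp : (0 : ℝ) < (Q : ℝ) ^ (2 * (m - (i : ℕ))) := by positivity
      by_cases hi : ‖1 - (v i : ℂ)‖ < ε
      · have hui : u i = 0 := if_pos hi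
        have hexi : ex I i = 2 * (m - i) - 1 := by
          simp only [hex]
          rw [if_neg]
          rintro ⟨h, hmem⟩
          rw [hI, Finset.mem_filter] at hmem
          exact hmem.2 hi
        rw [hui, sub_zero]
        simp only [hu']
        rw [norm_mul, norm_pow, Circle.norm_coe, mul_one, Complex.norm_real, Real.norm_eq_abs,
          abs_of_nonneg (hRpos i)]
        refine le_trans ?_ hQη'
        have h2 : (1 - 1 / (Q : ℝ) ^ (ex I i)) ≤ Real.exp (-(1 / (Q : ℝ) ^ (ex I i))) :=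
          Real.one_sub_le_exp_neg _
        have h3 := pow_le_pow_left₀ (hRpos i) h2 (Q ^ (2 * (m - (i : ℕ))))
        refine h3.trans ?_
        rw [← Real.exp_nat_mul]
        have h4 : ((Q ^ (2 * (m - (i : ℕ))) : ℕ) : ℝ) * -(1 / (Q : ℝ) ^ (ex I i)) = -Q := by
          rw [hexi]
          push_cast
          have hsplit : 2 * (m - (i : ℕ)) = (2 * (m - (i : ℕ)) - 1) + 1 := by
            have := i.2
            omega
          have hp : (Q : ℝ) ^ (2 * (m - (i : ℕ))) = (Q : ℝ) ^ (2 * (m - (i : ℕ)) - 1) * Q := by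
            rw [← pow_succ, ← hsplit]
          rw [hp]
          have : (Q : ℝ) ^ (2 * (m - (i : ℕ)) - 1) ≠ 0 := by positivity
          field_simp
        rw [h4, Real.exp_neg]
        rw [one_div]
        refine inv_anti₀ hQ0 ?_
        have := Real.add_one_le_exp (Q : ℝ)
        linarith
      · have hui : u i = v i := if_neg hi
        have hexi : ex I i = 2 * (m - i) + 1 := by
          simp only [hex]
          rw [if_pos]
          refine ⟨i.2, ?_⟩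
          rw [hI, Finset.mem_filter]
          exact ⟨Finset.mem_univ _, hi⟩
        rw [hui]
        simp only [hu']
        have e : (((1 - 1 / (Q : ℝ) ^ (ex I i) : ℝ)) : ℂ) ^ (Q ^ (2 * (m - (i : ℕ)))) * (v i : ℂ) - v i
            = ((((1 - 1 / (Q : ℝ) ^ (ex I i)) ^ (Q ^ (2 * (m - (i : ℕ)))) - 1 : ℝ)) : ℂ) * v i := by
          push_cast
          ring
        rw [e, norm_mul, Circle.norm_coe, mul_one, Complex.norm_real, Real.norm_eq_abs, abs_sub_comm,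
          abs_of_nonneg (by
            have := pow_le_one₀ (n := Q ^ (2 * (m - (i : ℕ)))) (hRpos i) (hRle i)
            linarith)]
        refine le_trans ?_ hQη'
        have h2 := one_add_mul_le_pow (a := -(1 / (Q : ℝ) ^ (ex I i)))
          (by
            have := hRpos i
            linarith) (Q ^ (2 * (m - (i : ℕ))))
        have h4 : ((Q ^ (2 * (m - (i : ℕ))) : ℕ) : ℝ) * -(1 / (Q : ℝ) ^ (ex I i)) = -(1 / Q) := by
          rw [hexi]
          push_cast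
          rw [pow_succ]
          field_simp
        rw [h4] at h2
        have h5 : (1 + -(1 / (Q : ℝ) ^ (ex I i))) = 1 - 1 / (Q : ℝ) ^ (ex I i) := by ring
        rw [h5] at h2
        linarith
    have h20 := htol u' u hun' hun hclose
    have h6 : ‖FF ρ q u - 1‖ ≤ ‖FF ρ q u' - 1‖ + ‖FF ρ q u' - FF ρ q u‖ := by
      have : FF ρ q u - 1 = (FF ρ q u' - 1) - (FF ρ q u' - FF ρ q u) := by ring
      rw [this]
      exact norm_sub_le _ _
    change 1 / 5 ≤ ‖FF ρ q u' - 1‖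
    linarith

end Pool.Agent.V1180.HT
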