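import Pool.Agent.V1180.HTd

/-!
# Block products and their law
-/

namespace Pool.Agent.V1180.HT

open MeasureTheory Filter Topology Set
open scoped BigOperators ComplexConjugate

/-- offsets of the blocks -/
def cc (L : ℕ → ℕ) (i : ℕ) : ℕ := ∑ l ∈ Finset.range i, L l

theorem cc_succ (L : ℕ → ℕ) (i : ℕ) : cc L (i + 1) = cc L i + L i := Finset.sum_range_succ _ _

theorem cc_mono (L : ℕ → ℕ) : Monotone (cc L) := monotone_nat_of_le_succ fun i => by
  rw [cc_succ]; omega

/-- the product of the variables of the `i`-th block -/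
def WW (s : ℕ) (L : ℕ → ℕ) (i : ℕ) (z : ℕ → ℂ) : ℂ :=
  ∏ n ∈ Finset.Ico (s + cc L i) (s + cc L (i + 1)), z n

theorem WW_good (s : ℕ) (L : ℕ → ℕ) (i : ℕ) : Good (WW s L i) :=
  Good.prod _ fun n _ => good_coord n

theorem WW_norm (s : ℕ) (L : ℕ → ℕ) (i : ℕ) {z : ℕ → ℂ} (hz : z ∈ cD) : ‖WW s L i z‖ ≤ 1 := by
  unfold WW
  rw [norm_prod]
  exact Finset.prod_le_one (fun n _ => norm_nonneg _) fun n _ => hz n

theorem WW_zero (s : ℕ) (L : ℕ → ℕ) (i : ℕ) (hL : 0 < L i) {z : ℕ → ℂ}
    (hz : ∀ n, s + cc L i ≤ n → n < s + cc L (i + 1) → z n = 0) : WW s L i z = 0 := by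
  unfold WW
  have h := cc_succ L i
  refine Finset.prod_eq_zero (i := s + cc L i) (Finset.mem_Ico.2 ⟨le_rfl, by omega⟩) ?_
  exact hz _ le_rfl (by omega)

/-- index of the block containing the offset `t` -/
def idx (L : ℕ → ℕ) (m t : ℕ) : ℕ := ((Finset.range m).filter fun l => cc L (l + 1) ≤ t).card

theorem idx_mono (L : ℕ → ℕ) (m : ℕ) : Monotone (idx L m) := by
  intro a b hab
  refine Finset.card_le_card fun l hl => ?_
  rw [Finset.mem_filter] at hl ⊢
  exact ⟨hl.1, hl.2.trans hab⟩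

theorem idx_eq (L : ℕ → ℕ) (m : ℕ) {i t : ℕ} (hi : i < m) (h1 : cc L i ≤ t)
    (h2 : t < cc L (i + 1)) : idx L m t = i := by
  have : ((Finset.range m).filter fun l => cc L (l + 1) ≤ t) = Finset.range i := by
    ext l
    rw [Finset.mem_filter, Finset.mem_range, Finset.mem_range]
    constructor
    · rintro ⟨_, h⟩
      by_contra hcon
      have : cc L (i + 1) ≤ cc L (l + 1) := cc_mono L (by omega)
      omega
    · intro h
      exact ⟨by omega, (cc_mono L (by omega)).trans h1⟩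
  unfold idx
  rw [this, Finset.card_range]

theorem idx_lt (L : ℕ → ℕ) {m : ℕ} (hm : 0 < m) {t : ℕ} (h : t < cc L m) : idx L m t < m := by
  have hsub : ((Finset.range m).filter fun l => cc L (l + 1) ≤ t) ⊆ Finset.range (m - 1) := by
    intro l hl
    rw [Finset.mem_filter, Finset.mem_range] at hl
    rw [Finset.mem_range]
    by_contra hcon
    have h1 : l + 1 = m := by omega
    rw [h1] at hl
    omega
  have := Finset.card_le_card hsub
  rw [Finset.card_range] at this
  unfold idx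
  omega

/-- the block homomorphism -/
noncomputable def WHom (s : ℕ) (L : ℕ → ℕ) (m : ℕ) : Tinf →* (Fin m → Circle) where
  toFun θ := fun i => ∏ n ∈ Finset.Ico (s + cc L i) (s + cc L (i + 1)), θ n
  map_one' := by funext i; simp
  map_mul' θ η := by funext i; simp [Finset.prod_mul_distrib]

theorem WHom_coe (s : ℕ) (L : ℕ → ℕ) (m : ℕ) (θ : Tinf) (i : Fin m) :
    ((WHom s L m θ i : Circle) : ℂ) = WW s L i (toC θ) := by
  change ((∏ n ∈ Finset.Ico (s + cc L i) (s + cc L (i + 1)), θ n : Circle) : ℂ) = _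
  unfold WW toC
  exact map_prod Circle.coeHom _ _

theorem WHom_mp (s : ℕ) (L : ℕ → ℕ) {m : ℕ} (hm : 0 < m) (hL : ∀ i, 0 < L i) :
    MeasurePreserving (WHom s L m) mT (Measure.pi fun _ => mC) := by
  refine MonoidHom.measurePreserving ?_ ?_ ?_
  · have hc : Continuous fun θ : Tinf => fun i : Fin m =>
        ∏ n ∈ Finset.Ico (s + cc L i) (s + cc L (i + 1)), θ n :=
      continuous_pi fun i => continuous_finsetProd _ fun n _ => continuous_apply n
    exact hc
  · intro v
    refine ⟨fun n => if h : idx L m (n - s) < m then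
      (if n = s + cc L (idx L m (n - s)) then v ⟨idx L m (n - s), h⟩ else 1) else 1, ?_⟩
    funext i
    change ∏ n ∈ Finset.Ico (s + cc L i) (s + cc L (i + 1)), _ = v i
    have h := cc_succ L i
    have hLi := hL i
    rw [Finset.prod_eq_single (s + cc L i)]
    · have e : s + cc L i - s = cc L i := by omega
      have hid : idx L m (s + cc L i - s) = i := by
        rw [e]
        exact idx_eq L m i.2 le_rfl (by omega)
      have hlt : idx L m (s + cc L i - s) < m := by rw [hid]; exact i.2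
      rw [dif_pos hlt, if_pos (by rw [hid])]
      congr 1
      exact Fin.ext hid
    · intro n hn hne
      rw [Finset.mem_Ico] at hn
      have hid : idx L m (n - s) = i := idx_eq L m i.2 (by omega) (by omega)
      have hlt : idx L m (n - s) < m := by rw [hid]; exact i.2
      rw [dif_pos hlt, if_neg (by rw [hid]; exact hne)]
    · intro hn
      exfalso
      apply hn
      rw [Finset.mem_Ico]
      omega
  · rw [measure_univ, measure_univ]

/-! ### The global sequences -/

/-- the small parameters -/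
noncomputable def qq (k : ℕ) : ℝ := (1 / 8) ^ (k + 1)

theorem qq_pos (k : ℕ) : 0 < qq k := by unfold qq; positivity

/-- a choice of windows -/
noncomputable def win (k : ℕ) : Win (qq k) ((1 / 2) ^ k) :=
  Classical.choice (win_exists (qq k) (qq_pos k) ((1 / 2) ^ k) (by positivity))

/-- window starts -/
noncomputable def st : ℕ → ℕ
  | 0 => 0
  | k + 1 => st k + cc (win k).L (win k).m

theorem st_succ (k : ℕ) : st (k + 1) = st k + cc (win k).L (win k).m := rfl

theorem st_lt (k : ℕ) : st k < st (k + 1) := by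
  rw [st_succ]
  have h1 := cc_mono (win k).L (show 0 + 1 ≤ (win k).m from (win k).hm)
  have h2 := cc_succ (win k).L 0
  have h3 := (win k).hL 0
  omega

theorem st_strictMono : StrictMono st := strictMono_nat_of_lt_succ st_lt

/-- the window factors -/
noncomputable def GG (k : ℕ) (z : ℕ → ℂ) : ℂ :=
  FF (win k).ρ (qq k) (fun i : Fin (win k).m => WW (st k) (win k).L i z)

theorem GG_good (k : ℕ) : Good (GG k) :=
  FF_good (win k).hm (win k).hρ0 (win k).hρ1 (qq_pos k) (fun _ => WW_good _ _ _)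
    fun _ _ hz => WW_norm _ _ _ hz

theorem GG_norm (k : ℕ) {z : ℕ → ℂ} (hz : z ∈ cD) : ‖GG k z‖ ≤ 1 :=
  FF_norm (win k).hm (win k).hρ0 (win k).hρ1 (qq_pos k) fun _ => WW_norm _ _ _ hz

theorem GG_ne (k : ℕ) {z : ℕ → ℂ} (hz : z ∈ cD) : GG k z ≠ 0 :=
  FF_ne (win k).hm (win k).hρ0 (win k).hρ1 (qq_pos k) fun _ => WW_norm _ _ _ hz

theorem GG_congr (k : ℕ) {z z' : ℕ → ℂ} (h : ∀ n, n < st (k + 1) → z n = z' n) :
    GG k z = GG k z' := by
  unfold GG
  congr 1
  funext i
  unfold WW
  refine Finset.prod_congr rfl fun n hn => h n ?_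
  rw [Finset.mem_Ico] at hn
  have := cc_mono (win k).L (show (i : ℕ) + 1 ≤ (win k).m from i.2)
  rw [st_succ]
  omega

theorem GG_vanish (k : ℕ) {z : ℕ → ℂ} (h : ∀ n, st k ≤ n → z n = 0) :
    GG k z = (1 + (qq k : ℂ))⁻¹ := by
  unfold GG
  have : (fun i : Fin (win k).m => WW (st k) (win k).L i z) = fun _ => 0 := by
    funext i
    exact WW_zero _ _ _ ((win k).hL i) fun n hn _ => h n (by omega)
  rw [this, FF_zero (win k).hm]

/-- the partial products -/
noncomputable def PP (K : ℕ) (z : ℕ → ℂ) : ℂ := ∏ k ∈ Finset.range K, GG k z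

theorem PP_good (K : ℕ) : Good (PP K) := Good.prod _ fun k _ => GG_good k

theorem PP_norm (K : ℕ) {z : ℕ → ℂ} (hz : z ∈ cD) : ‖PP K z‖ ≤ 1 := by
  unfold PP
  rw [norm_prod]
  exact Finset.prod_le_one (fun _ _ => norm_nonneg _) fun k _ => GG_norm k hz

theorem PP_succ (K : ℕ) (z : ℕ → ℂ) : PP (K + 1) z = PP K z * GG K z := Finset.prod_range_succ _ _

theorem PP_congr (K : ℕ) {z z' : ℕ → ℂ} (h : ∀ n, n < st K → z n = z' n) : PP K z = PP K z' := by
  unfold PP
  refine Finset.prod_congr rfl fun k hk => GG_congr k fun n hn => h n ?_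
  rw [Finset.mem_range] at hk
  exact hn.trans_le (st_strictMono.monotone hk)

theorem PP_far (k : ℕ) {z : ℕ → ℂ} (hz : z ∈ cD) (h : ∀ n, st (k + 1) ≤ n → z n = 0) (K : ℕ)
    (hK : k + 1 ≤ K) : ‖PP K z - PP (k + 1) z‖ ≤ (1 / 2) ^ (k + 1) - (1 / 2) ^ K := by
  induction K, hK using Nat.le_induction with
  | base => simp
  | succ K hK ih =>
    have h1 : GG K z = (1 + (qq K : ℂ))⁻¹ :=
      GG_vanish K fun n hn => h n ((st_strictMono.monotone hK).trans hn)
    have hq := qq_pos K
    have h2 : ‖GG K z - 1‖ ≤ qq K := by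
      have hne : (1 + (qq K : ℂ)) ≠ 0 := by
        have : (1 + qq K : ℝ) ≠ 0 := by positivity
        exact_mod_cast this
      have e : GG K z - 1 = ((-(qq K) * (1 + qq K)⁻¹ : ℝ) : ℂ) := by
        rw [h1]
        push_cast
        field_simp
        ring
      rw [e, Complex.norm_real, Real.norm_eq_abs, abs_mul, abs_neg, abs_of_pos hq,
        abs_of_pos (by positivity)]
      have : (1 + qq K)⁻¹ ≤ 1 := inv_le_one_of_one_le₀ (by linarith)
      nlinarith
    have e : PP (K + 1) z - PP (k + 1) z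
        = (PP K z - PP (k + 1) z) + PP K z * (GG K z - 1) := by
      rw [PP_succ K]
      ring
    rw [e]
    refine (norm_add_le _ _).trans ?_
    rw [norm_mul]
    have h3 : ‖PP K z‖ * ‖GG K z - 1‖ ≤ 1 * qq K :=
      mul_le_mul (PP_norm K hz) h2 (norm_nonneg _) one_pos.le
    have h4 : qq K ≤ (1 / 2) ^ (K + 1) := by
      unfold qq
      exact pow_le_pow_left₀ (by norm_num) (by norm_num) _
    have h5 : ((1 : ℝ) / 2) ^ (K + 1) = (1 / 2) ^ K / 2 := by rw [pow_succ]; ring
    rw [h5] at h4 ⊢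
    linarith

theorem zero_mem : (0 : ℕ → ℂ) ∈ cD := fun n => by simp

theorem GG_mean (k : ℕ) : ∫ θ, GG k (toC θ) ∂mT = (1 + (qq k : ℂ))⁻¹ := by
  have h := poisson_good (GG_good k) (z := 0) (N := 0) (fun n => by simp) (fun n _ => rfl)
  rw [GG_vanish k (z := 0) (fun n _ => rfl)] at h
  rw [← h]
  unfold poissonExt
  refine integral_congr_ae (Eventually.of_forall fun θ => ?_)
  have : ∏ᶠ n, PK ((0 : ℕ → ℂ) n) (θ n) = 1 := by
    simp [PK_zero]
  simp only [this]
  simp

/-- the exceptional sets -/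
def bad1 (k : ℕ) : Set Tinf := (WHom (st k) (win k).L (win k).m) ⁻¹' (win k).bad

def bad2 (k : ℕ) : Set Tinf := {θ | ((1 / 2) ^ k) ^ 2 ≤ ‖GG k (toC θ) - 1‖ ^ 2}

theorem bad1_le (k : ℕ) : mT (bad1 k) ≤ ENNReal.ofReal ((1 / 2) ^ k) := by
  unfold bad1
  rw [(WHom_mp (st k) (win k).L (win k).hm (win k).hL).measure_preimage
    (win k).hbad.nullMeasurableSet]
  exact (win k).hbadm

theorem bad2_le (k : ℕ) : mT (bad2 k) ≤ ENNReal.ofReal ((1 / 2) ^ k) := by
  have hq := qq_pos k
  have hcont : Continuous fun θ : Tinf => ‖GG k (toC θ) - 1‖ ^ 2 :=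
    (((GG_good k).measurable).sub continuous_const).norm.pow 2
  have hcG := (GG_good k).measurable
  have hint : Integrable (fun θ : Tinf => ‖GG k (toC θ) - 1‖ ^ 2) mT :=
    hcont.integrable_of_hasCompactSupport (HasCompactSupport.of_compactSpace _)
  have hre : Integrable (fun θ : Tinf => (GG k (toC θ)).re) mT :=
    (Complex.continuous_re.comp hcG).integrable_of_hasCompactSupport
      (HasCompactSupport.of_compactSpace _)
  have h1 : ∫ θ, ‖GG k (toC θ) - 1‖ ^ 2 ∂mT ≤ 2 * qq k := by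
    have h2 : ∫ θ, ‖GG k (toC θ) - 1‖ ^ 2 ∂mT ≤ ∫ θ, (2 - 2 * (GG k (toC θ)).re) ∂mT := by
      refine integral_mono hint ((integrable_const _).sub (hre.const_mul 2)) fun θ => ?_
      simp only
      have hn := GG_norm k (toC_mem θ)
      have hn2 : ‖GG k (toC θ)‖ ^ 2 ≤ 1 := pow_le_one₀ (norm_nonneg _) hn
      rw [← Complex.normSq_eq_norm_sq, Complex.normSq_apply] at hn2 ⊢
      simp only [Complex.sub_re, Complex.one_re, Complex.sub_im, Complex.one_im, sub_zero]
      nlinarith
    refine h2.trans ?_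
    rw [integral_sub (integrable_const _) (hre.const_mul 2), integral_const_mul]
    have h3 : ∫ θ, (GG k (toC θ)).re ∂mT = (1 + qq k)⁻¹ := by
      have h4 := integral_re (𝕜 := ℂ) (integrable_of_contT hcG)
      have h5 : ∫ θ, (GG k (toC θ)).re ∂mT = (∫ θ, GG k (toC θ) ∂mT).re := by simpa using h4
      rw [h5, GG_mean]
      have : (1 + (qq k : ℂ))⁻¹ = (((1 + qq k)⁻¹ : ℝ) : ℂ) := by push_cast; rfl
      rw [this, Complex.ofReal_re]
    rw [h3]
    simp only [integral_const, probReal_univ, one_smul]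
    have h6 : 1 - qq k ≤ (1 + qq k)⁻¹ := by
      rw [le_inv_comm₀ (by
        have : qq k < 1 := by
          unfold qq
          exact pow_lt_one₀ (by norm_num) (by norm_num) (by omega)
        linarith) (by positivity)]
      have hq1 : qq k < 1 := by
        unfold qq
        exact pow_lt_one₀ (by norm_num) (by norm_num) (by omega)
      rw [← one_div, le_div_iff₀ (by linarith)]
      nlinarith
    linarith
  have hcheb := mul_meas_ge_le_integral_of_nonneg (μ := mT)
    (Eventually.of_forall fun θ => by positivity) hint (((1 / 2) ^ k) ^ 2)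
  have h2 : ((1 / 2 : ℝ) ^ k) ^ 2 * mT.real (bad2 k) ≤ 2 * qq k := hcheb.trans h1
  have h3 : mT.real (bad2 k) ≤ (1 / 2) ^ k := by
    have hpos : 0 < ((1 / 2 : ℝ) ^ k) ^ 2 := by positivity
    refine le_of_mul_le_mul_left (h2.trans ?_) hpos
    have e : ((1 / 2 : ℝ) ^ k) ^ 2 * (1 / 2) ^ k = (1 / 8) ^ k := by
      rw [← pow_succ, ← pow_mul, mul_comm k, pow_mul]
      norm_num
    rw [e]
    unfold qq
    rw [pow_succ]
    have : (0 : ℝ) < (1 / 8) ^ k := by positivity
    linarith
  rw [← ENNReal.toReal_le_toReal (measure_ne_top _ _) ENNReal.ofReal_ne_top,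
    ENNReal.toReal_ofReal (by positivity)]
  exact h3

theorem sum_half_ne_top : ∑' k : ℕ, ENNReal.ofReal ((1 / 2 : ℝ) ^ k) ≠ ⊤ := by
  rw [← ENNReal.ofReal_tsum_of_nonneg (fun k => by positivity)
    (summable_geometric_of_lt_one (by norm_num) (by norm_num))]
  exact ENNReal.ofReal_ne_top

theorem ae_good : ∀ᵐ θ ∂mT, ∀ᶠ k in atTop, θ ∉ bad1 k ∧ θ ∉ bad2 k := by
  have h1 : ∑' k, mT (bad1 k) ≠ ⊤ :=
    ne_top_of_le_ne_top sum_half_ne_top (ENNReal.tsum_le_tsum bad1_le)
  have h2 : ∑' k, mT (bad2 k) ≠ ⊤ :=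
    ne_top_of_le_ne_top sum_half_ne_top (ENNReal.tsum_le_tsum bad2_le)
  filter_upwards [ae_eventually_notMem h1, ae_eventually_notMem h2] with θ a b
  filter_upwards [a, b] with k c d
  exact ⟨c, d⟩

theorem ae_limit : ∀ᵐ θ ∂mT, ∃ l : ℂ, l ≠ 0 ∧ Tendsto (fun K => PP K (toC θ)) atTop (𝓝 l) := by
  filter_upwards [ae_good] with θ hθ
  have hsum : Summable fun k => ‖GG k (toC θ) - 1‖ := by
    refine Summable.of_norm_bounded_eventually_nat (g := fun k : ℕ => (1 / 2 : ℝ) ^ k)
      (summable_geometric_of_lt_one (by norm_num) (by norm_num)) ?_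
    filter_upwards [hθ] with k hk
    rw [norm_norm]
    have h2 : ¬ ((1 / 2 : ℝ) ^ k) ^ 2 ≤ ‖GG k (toC θ) - 1‖ ^ 2 := hk.2
    by_contra hcon
    push Not at hcon
    exact h2 (pow_le_pow_left₀ (by positivity) hcon.le 2)
  have hmul := multipliable_one_add_of_summable hsum
  have hne := tprod_one_add_ne_zero_of_summable (f := fun k => GG k (toC θ) - 1)
    (fun k => by
      rw [add_sub_cancel]
      exact GG_ne k (toC_mem θ)) hsum
  refine ⟨_, hne, ?_⟩
  have h3 := hmul.hasProd.tendsto_prod_nat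
  refine h3.congr fun K => ?_
  unfold PP
  exact Finset.prod_congr rfl fun k _ => by ring

end Pool.Agent.V1180.HT
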