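import Pool.Agent.V1180.HTe

/-!
# Radii, the function, and divergence of its radial values
-/

namespace Pool.Agent.V1180.HT

open MeasureTheory Filter Topology Set
open scoped BigOperators ComplexConjugate

theorem close_exists (k : ℕ) : ∃ A : ℝ, 0 ≤ A ∧ A < 1 ∧ ∀ a : ℝ, A ≤ a → a < 1 → ∀ θ : Tinf,
    ∀ z ∈ cD, (∀ n, n < st k → z n = (a : ℂ) * θ n) → ‖PP k z - PP k (toC θ)‖ ≤ (1 / 2) ^ k := by
  obtain ⟨δ, hδ, N, h⟩ := (PP_good k).uc ((1 / 2) ^ k) (by positivity)
  refine ⟨max 0 (1 - δ), le_max_left _ _, max_lt one_pos (by linarith), ?_⟩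
  intro a ha ha1 θ z hz hza
  have ha0 : 0 ≤ a := (le_max_left _ _).trans ha
  have haδ : 1 - a ≤ δ := by linarith [(le_max_right _ _).trans ha]
  set z' : ℕ → ℂ := fun n => if n < st k then z n else θ n with hz'
  have hcongr : PP k z = PP k z' := PP_congr k fun n hn => by
    simp only [hz', if_pos hn]
  rw [hcongr]
  refine h z' (fun n => ?_) _ (toC_mem θ) fun n _ => ?_
  · simp only [hz']
    split_ifs
    · exact hz n
    · exact (Circle.norm_coe _).le
  · simp only [hz', toC]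
    split_ifs with hn
    · rw [hza n hn]
      have e : (a : ℂ) * θ n - θ n = ((a - 1 : ℝ) : ℂ) * θ n := by push_cast; ring
      rw [e, norm_mul, Circle.norm_coe, mul_one, Complex.norm_real, Real.norm_eq_abs,
        abs_sub_comm, abs_of_nonneg (by linarith)]
      exact haδ
    · simpa using hδ.le

noncomputable def AA0 (k : ℕ) : ℝ := (close_exists k).choose

theorem AA0_spec (k : ℕ) : 0 ≤ AA0 k ∧ AA0 k < 1 ∧ ∀ a : ℝ, AA0 k ≤ a → a < 1 → ∀ θ : Tinf,
    ∀ z ∈ cD, (∀ n, n < st k → z n = (a : ℂ) * θ n) → ‖PP k z - PP k (toC θ)‖ ≤ (1 / 2) ^ k :=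
  (close_exists k).choose_spec

/-- one-step thresholds -/
noncomputable def xx (k : ℕ) : ℝ := max (max (AA0 k) (win k).Rm) (1 - 1 / ((k : ℝ) + 2))

theorem xx_lt (k : ℕ) : xx k < 1 := by
  unfold xx
  refine max_lt (max_lt (AA0_spec k).2.1 (win k).hRm1) ?_
  have : 0 < 1 / ((k : ℝ) + 2) := by positivity
  linarith

/-- the outer radii -/
noncomputable def aa (k : ℕ) : ℝ := partialSups xx k

theorem aa_mono : Monotone aa := fun a b h => (partialSups xx).monotone h

theorem xx_le (k : ℕ) : xx k ≤ aa k := le_partialSups xx k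

theorem aa_lt (k : ℕ) : aa k < 1 := by
  induction k with
  | zero => unfold aa; rw [partialSups_zero]; exact xx_lt 0
  | succ k ih =>
    unfold aa at *
    rw [partialSups_add_one]
    exact max_lt ih (xx_lt _)

theorem aa_nonneg (k : ℕ) : 0 ≤ aa k :=
  (AA0_spec k).1.trans (((le_max_left _ _).trans (le_max_left _ _)).trans (xx_le k))

theorem aa_AA (k : ℕ) : AA0 k ≤ aa k :=
  ((le_max_left _ _).trans (le_max_left _ _)).trans (xx_le k)

theorem aa_Rm (j k : ℕ) (h : j ≤ k) : (win j).Rm ≤ aa k :=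
  (((le_max_right _ _).trans (le_max_left _ _)).trans (xx_le j)).trans (aa_mono h)

theorem aa_low (k : ℕ) : 1 - 1 / ((k : ℝ) + 2) ≤ aa k := (le_max_right _ _).trans (xx_le k)

theorem aa_tendsto : Tendsto aa atTop (𝓝 1) := by
  have h1 : Tendsto (fun k : ℕ => 1 - 1 / ((k : ℝ) + 2)) atTop (𝓝 (1 - 0)) := by
    refine tendsto_const_nhds.sub ?_
    have h2 := (tendsto_one_div_add_atTop_nhds_zero_nat (𝕜 := ℝ)).comp (tendsto_add_atTop_nat 1)
    refine h2.congr fun k => ?_
    simp only [Function.comp]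
    push_cast
    ring_nf
  rw [sub_zero] at h1
  exact tendsto_of_tendsto_of_tendsto_of_le_of_le h1 tendsto_const_nhds aa_low fun k => (aa_lt k).le

/-- the radii -/
noncomputable def rr (k : ℕ) (I : Finset (Fin (win k).m)) (n : ℕ) : ℝ :=
  if n < st k then aa k
  else if n < st (k + 1) then (win k).R I (idx (win k).L (win k).m (n - st k)) else 0

theorem idx_ok (k : ℕ) {n : ℕ} (h1 : ¬ n < st k) (h2 : n < st (k + 1)) :
    idx (win k).L (win k).m (n - st k) < (win k).m := by
  refine idx_lt _ (win k).hm ?_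
  rw [st_succ] at h2
  omega

theorem rr_nonneg (k : ℕ) (I) (n : ℕ) : 0 ≤ rr k I n := by
  unfold rr
  split_ifs with h1 h2
  · exact aa_nonneg k
  · exact (win k).hR0 _ _ (idx_ok k h1 h2)
  · exact le_rfl

theorem rr_lt (k : ℕ) (I) (n : ℕ) : rr k I n < 1 := by
  unfold rr
  split_ifs with h1 h2
  · exact aa_lt k
  · exact ((win k).hRm _ _ (idx_ok k h1 h2)).trans_lt (win k).hRm1
  · exact one_pos

theorem rr_zero (k : ℕ) (I) {n : ℕ} (h : st (k + 1) ≤ n) : rr k I n = 0 := by
  unfold rr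
  have := st_lt k
  rw [if_neg (by omega), if_neg (by omega)]

theorem rr_anti (k : ℕ) (I) : Antitone (rr k I) := by
  intro a b hab
  by_cases hb1 : b < st k
  · unfold rr
    rw [if_pos hb1, if_pos (by omega)]
  by_cases hb2 : b < st (k + 1)
  · have hb : rr k I b = (win k).R I (idx (win k).L (win k).m (b - st k)) := by
      unfold rr; rw [if_neg hb1, if_pos hb2]
    rw [hb]
    by_cases ha : a < st k
    · unfold rr
      rw [if_pos ha]
      exact ((win k).hRm _ _ (idx_ok k hb1 hb2)).trans (aa_Rm k k le_rfl)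
    · unfold rr
      rw [if_neg ha, if_pos (by omega)]
      exact (win k).hanti I _ _ (idx_mono _ _ (by omega)) (idx_ok k hb1 hb2)
  · have hb : rr k I b = 0 := rr_zero k I (by omega)
    rw [hb]
    exact rr_nonneg k I a

theorem rr_step {j k : ℕ} (hjk : j < k) (I J) (n : ℕ) : rr j I n ≤ rr k J n := by
  have hst : st (j + 1) ≤ st k := st_strictMono.monotone hjk
  by_cases h1 : n < st j
  · have := st_lt j
    unfold rr
    rw [if_pos h1, if_pos (by omega)]
    exact aa_mono hjk.le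
  by_cases h2 : n < st (j + 1)
  · have e : rr j I n = (win j).R I (idx (win j).L (win j).m (n - st j)) := by
      unfold rr; rw [if_neg h1, if_pos h2]
    rw [e]
    unfold rr
    rw [if_pos (by omega)]
    exact ((win j).hRm _ _ (idx_ok j h1 h2)).trans (aa_Rm j k hjk.le)
  · rw [rr_zero j I (by omega)]
    exact rr_nonneg k J n

/-- the point `r e^{iθ}` -/
noncomputable def pt (k : ℕ) (I : Finset (Fin (win k).m)) (θ : Tinf) : ℕ → ℂ :=
  fun n => (rr k I n : ℂ) * (θ n : ℂ)

theorem pt_norm (k : ℕ) (I) (θ : Tinf) (n : ℕ) : ‖pt k I θ n‖ < 1 := by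
  unfold pt
  rw [norm_mul, Circle.norm_coe, mul_one, Complex.norm_real, Real.norm_eq_abs,
    abs_of_nonneg (rr_nonneg k I n)]
  exact rr_lt k I n

theorem pt_mem (k : ℕ) (I) (θ : Tinf) : pt k I θ ∈ cD := fun n => (pt_norm k I θ n).le

theorem pt_zero (k : ℕ) (I) (θ : Tinf) {n : ℕ} (h : st (k + 1) ≤ n) : pt k I θ n = 0 := by
  unfold pt
  rw [rr_zero k I h]
  simp

theorem pt_close (k : ℕ) (I) (θ : Tinf) : ‖PP k (pt k I θ) - PP k (toC θ)‖ ≤ (1 / 2) ^ k := by
  refine (AA0_spec k).2.2 (aa k) (aa_AA k) (aa_lt k) θ _ (pt_mem k I θ) fun n hn => ?_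
  unfold pt rr
  rw [if_pos hn]

theorem pt_block (k : ℕ) (I) (θ : Tinf) (i : Fin (win k).m) :
    WW (st k) (win k).L i (pt k I θ)
      = ((win k).R I i : ℂ) ^ ((win k).L i) * ((WHom (st k) (win k).L (win k).m θ i : Circle) : ℂ) := by
  rw [WHom_coe]
  unfold WW
  have h : ∀ n ∈ Finset.Ico (st k + cc (win k).L i) (st k + cc (win k).L (i + 1)),
      pt k I θ n = ((win k).R I i : ℂ) * toC θ n := by
    intro n hn
    rw [Finset.mem_Ico] at hn
    have hmono := cc_mono (win k).L (show (i : ℕ) + 1 ≤ (win k).m from i.2)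
    have h1 : ¬ n < st k := by omega
    have h2 : n < st (k + 1) := by rw [st_succ]; omega
    unfold pt rr toC
    rw [if_neg h1, if_pos h2, idx_eq _ _ i.2 (by omega) (by omega)]
  rw [Finset.prod_congr rfl h, Finset.prod_mul_distrib, Finset.prod_const, Nat.card_Ico]
  congr 2
  have := cc_succ (win k).L i
  omega

theorem bad_pattern (k : ℕ) (θ : Tinf) (h : θ ∉ bad1 k) :
    ∃ I, 1 / 5 ≤ ‖GG k (pt k I θ) - 1‖ := by
  obtain ⟨I, hI⟩ := (win k).good (WHom (st k) (win k).L (win k).m θ) h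
  refine ⟨I, ?_⟩
  unfold GG
  have e : (fun i : Fin (win k).m => WW (st k) (win k).L i (pt k I θ))
      = fun i : Fin (win k).m => ((win k).R I i : ℂ) ^ ((win k).L i)
        * ((WHom (st k) (win k).L (win k).m θ i : Circle) : ℂ) := by
    funext i
    exact pt_block k I θ i
  rw [e]
  exact hI

theorem f_exists : ∃ f : Tinf → ℂ, Measurable f ∧
    ∀ᵐ θ ∂mT, Tendsto (fun K => PP K (toC θ)) atTop (𝓝 (f θ)) := by
  refine measurable_limit_of_tendsto_metrizable_ae (fun K => ?_) ?_
  · exact (PP_good K).measurable.measurable.aemeasurable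
  · filter_upwards [ae_limit] with θ hθ
    obtain ⟨l, _, hl⟩ := hθ
    exact ⟨l, hl⟩

/-- the function -/
noncomputable def ff : Tinf → ℂ := f_exists.choose

theorem ff_meas : Measurable ff := f_exists.choose_spec.1

theorem ff_lim : ∀ᵐ θ ∂mT, Tendsto (fun K => PP K (toC θ)) atTop (𝓝 (ff θ)) :=
  f_exists.choose_spec.2

theorem ff_ne : ∀ᵐ θ ∂mT, ff θ ≠ 0 := by
  filter_upwards [ff_lim, ae_limit] with θ h1 h2
  obtain ⟨l, hl, h3⟩ := h2
  rwa [tendsto_nhds_unique h1 h3]

theorem ff_bdd : ∀ᵐ θ ∂mT, ‖ff θ‖ ≤ 1 := by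
  filter_upwards [ff_lim] with θ h1
  exact le_of_tendsto' h1.norm fun K => PP_norm K (toC_mem θ)

theorem ff_Hinf : IsHinf ff where
  meas := ff_meas.aestronglyMeasurable
  bdd := ⟨1, ff_bdd⟩
  coef := by
    intro α hα
    have hconj : Continuous fun θ : Tinf => conj (chi α θ) :=
      Complex.continuous_conj.comp (chi_cont α)
    have h := tendsto_integral_of_dominated_convergence (μ := mT) (fun _ => (1 : ℝ))
      (F := fun (K : ℕ) θ => PP K (toC θ) * conj (chi α θ)) (f := fun θ => ff θ * conj (chi α θ))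
      (fun K => ((PP_good K).measurable.mul hconj).aestronglyMeasurable)
      (integrable_const _)
      (fun K => Eventually.of_forall fun θ => by
        rw [norm_mul, RCLike.norm_conj, chi_norm, mul_one]
        exact PP_norm K (toC_mem θ))
      (by
        filter_upwards [ff_lim] with θ hθ
        exact hθ.mul_const _)
    have h0 : ∀ K, ∫ θ, PP K (toC θ) * conj (chi α θ) ∂mT = 0 :=
      fun K => fourier_good (PP_good K) α hα
    simp only [h0] at h
    exact tendsto_nhds_unique tendsto_const_nhds h |>.symm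

theorem ff_poisson {z : ℕ → ℂ} (hz : ∀ n, ‖z n‖ < 1) {N : ℕ} (hz0 : ∀ n, N ≤ n → z n = 0) :
    Tendsto (fun K => PP K z) atTop (𝓝 (poissonExt ff z)) := by
  have h := tendsto_integral_of_dominated_convergence (μ := mT)
    (fun η => (∏ᶠ n, PK (z n) (η n) : ℝ))
    (F := fun (K : ℕ) η => ((∏ᶠ n, PK (z n) (η n) : ℝ) : ℂ) * PP K (toC η))
    (f := fun η => ((∏ᶠ n, PK (z n) (η n) : ℝ) : ℂ) * ff η)
    (fun K => ((ker_cont hz hz0).mul (PP_good K).measurable).aestronglyMeasurable)
    (by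
      have := (integrable_of_contT (ker_cont hz hz0)).re
      simpa using this)
    (fun K => Eventually.of_forall fun θ => by
      rw [norm_mul, Complex.norm_real, Real.norm_eq_abs, abs_of_nonneg (ker_nonneg hz hz0 θ)]
      exact mul_le_of_le_one_right (ker_nonneg hz hz0 θ) (PP_norm K (toC_mem θ)))
    (by
      filter_upwards [ff_lim] with θ hθ
      exact hθ.const_mul _)
  have h0 : ∀ K, ∫ η, ((∏ᶠ n, PK (z n) (η n) : ℝ) : ℂ) * PP K (toC η) ∂mT = PP K z :=
    fun K => poisson_good (PP_good K) hz hz0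
  simp only [h0] at h
  exact h

theorem ff_value (k : ℕ) (I) (θ : Tinf) :
    ‖poissonExt ff (pt k I θ) - PP (k + 1) (pt k I θ)‖ ≤ (1 / 2) ^ (k + 1) := by
  have h1 := ff_poisson (pt_norm k I θ) (fun n hn => pt_zero k I θ hn)
  have h2 : Tendsto (fun K => ‖PP K (pt k I θ) - PP (k + 1) (pt k I θ)‖) atTop
      (𝓝 ‖poissonExt ff (pt k I θ) - PP (k + 1) (pt k I θ)‖) := (h1.sub_const _).norm
  refine le_of_tendsto h2 ?_
  filter_upwards [eventually_ge_atTop (k + 1)] with K hK
  refine (PP_far k (pt_mem k I θ) (fun n hn => pt_zero k I θ hn) K hK).trans ?_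
  have : (0 : ℝ) < (1 / 2) ^ K := by positivity
  linarith

/-- The main fact: at almost every point one can choose a pattern in each window such that the
radial values do not converge to the boundary value along any sequence of windows. -/
theorem main_fact : ∀ᵐ θ ∂mT, ∃ I : ∀ k, Finset (Fin (win k).m),
    ¬ Tendsto (fun k => poissonExt ff (pt k (I k) θ)) atTop (𝓝 (ff θ)) := by
  filter_upwards [ae_good, ff_lim, ff_ne] with θ h1 h2 h3
  have hex : ∀ k, ∃ I : Finset (Fin (win k).m), θ ∉ bad1 k → 1 / 5 ≤ ‖GG k (pt k I θ) - 1‖ := by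
    intro k
    by_cases h : θ ∈ bad1 k
    · exact ⟨∅, fun h' => absurd h h'⟩
    · obtain ⟨I, hI⟩ := bad_pattern k θ h
      exact ⟨I, fun _ => hI⟩
  choose I hI using hex
  refine ⟨I, fun hcon => ?_⟩
  have hhalf : Tendsto (fun k : ℕ => ((1 : ℝ) / 2) ^ k) atTop (𝓝 0) :=
    tendsto_pow_atTop_nhds_zero_of_lt_one (by norm_num) (by norm_num)
  have h4 : Tendsto (fun k => PP k (pt k (I k) θ) - PP k (toC θ)) atTop (𝓝 0) :=
    squeeze_zero_norm (fun k => pt_close k (I k) θ) hhalf
  have h5 : Tendsto (fun k => PP k (pt k (I k) θ)) atTop (𝓝 (ff θ)) := by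
    have := h4.add h2
    simpa using this
  have h6 : Tendsto (fun k => poissonExt ff (pt k (I k) θ) - PP (k + 1) (pt k (I k) θ)) atTop
      (𝓝 0) := by
    refine squeeze_zero_norm (fun k => (ff_value k (I k) θ).trans ?_) hhalf
    rw [pow_succ]
    have : (0 : ℝ) < (1 / 2) ^ k := by positivity
    linarith
  have h7 : Tendsto (fun k => PP k (pt k (I k) θ) * GG k (pt k (I k) θ)) atTop (𝓝 (ff θ)) := by
    have := hcon.sub h6
    simp only [sub_sub_cancel, sub_zero, PP_succ] at this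
    exact this
  have h8 : Tendsto (fun k => PP k (pt k (I k) θ) * (GG k (pt k (I k) θ) - 1)) atTop (𝓝 0) := by
    have := h7.sub h5
    simp only [sub_self] at this
    refine this.congr fun k => by ring
  have h9 : Tendsto (fun k => ‖PP k (pt k (I k) θ)‖ * ‖GG k (pt k (I k) θ) - 1‖) atTop (𝓝 0) := by
    have := h8.norm
    simp only [norm_mul, norm_zero] at this
    exact this
  have h10 : Tendsto (fun k => ‖PP k (pt k (I k) θ)‖ * (1 / 5)) atTop (𝓝 (‖ff θ‖ * (1 / 5))) :=
    h5.norm.mul_const _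
  have h11 : ‖ff θ‖ * (1 / 5) ≤ 0 := by
    refine le_of_tendsto_of_tendsto h10 h9 ?_
    filter_upwards [h1] with k hk
    exact mul_le_mul_of_nonneg_left (hI k hk.1) (norm_nonneg _)
  have : 0 < ‖ff θ‖ := norm_pos_iff.2 h3
  linarith

theorem rr_tendsto {κ : ℕ → ℕ} (hκ : Tendsto κ atTop atTop) (I : ∀ t, Finset (Fin (win (κ t)).m))
    (n : ℕ) : Tendsto (fun t => rr (κ t) (I t) n) atTop (𝓝 1) := by
  have h1 : Tendsto (fun t => aa (κ t)) atTop (𝓝 1) := aa_tendsto.comp hκ
  refine h1.congr' ?_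
  filter_upwards [hκ.eventually (eventually_ge_atTop (n + 1))] with t ht
  have h2 : n < st (κ t) := lt_of_lt_of_le (Nat.lt_of_succ_le ht) (st_strictMono.le_apply)
  unfold rr
  rw [if_pos h2]

end Pool.Agent.V1180.HT
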