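import Pool.Agent.V1180.Lap

set_option autoImplicit false
set_option linter.unusedSectionVars false

/-! Spherical waves in `R^3`. -/

open Set Filter Topology MeasureTheory Metric InnerProductSpace Laplacian
open scoped ContDiff ENNReal

namespace Pool.Agent.V1180.Helm

variable {E : Type} [NormedAddCommGroup E] [InnerProductSpace ℝ E] [FiniteDimensional ℝ E]

theorem nsq_deriv (c x : E) : HasFDerivAt (fun x : E => ‖x - c‖ ^ 2) (2 • innerSL ℝ (x - c)) x := by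
  have := ((hasFDerivAt_id x).sub_const c).norm_sq
  simpa using this

theorem fderiv_rad {g g1 : ℝ → ℂ} {c x : E}
    (hg : HasDerivAt g (g1 (‖x - c‖ ^ 2)) (‖x - c‖ ^ 2)) (v : E) :
    fderiv ℝ (fun x => g (‖x - c‖ ^ 2)) x v = (2 * inner ℝ (x - c) v : ℝ) • g1 (‖x - c‖ ^ 2) := by
  have h1 := hg.hasFDerivAt.comp x (nsq_deriv c x)
  have h2 := h1.fderiv
  have h3 : (g ∘ fun x : E => ‖x - c‖ ^ 2) = fun x => g (‖x - c‖ ^ 2) := rfl
  rw [h3] at h2
  rw [h2, ContinuousLinearMap.comp_apply, ContinuousLinearMap.toSpanSingleton_apply,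
    smul_apply, innerSL_apply_apply, nsmul_eq_mul]
  norm_num

/-- Laplacian of a radial function -/
theorem lap_rad {g g1 g2 : ℝ → ℂ} {c x : E} (hx : x ≠ c)
    (hg : ∀ t, 0 < t → HasDerivAt g (g1 t) t) (hg1 : ∀ t, 0 < t → HasDerivAt g1 (g2 t) t)
    (hc : ContDiffAt ℝ 2 (fun x : E => g (‖x - c‖ ^ 2)) x) :
    Δ (fun x : E => g (‖x - c‖ ^ 2)) x =
      (2 * (Module.finrank ℝ E : ℝ)) • g1 (‖x - c‖ ^ 2) +
        (4 * ‖x - c‖ ^ 2) • g2 (‖x - c‖ ^ 2) := by
  have hpos : ∀ y : E, y ≠ c → 0 < ‖y - c‖ ^ 2 := by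
    intro y hy
    have := norm_pos_iff.2 (sub_ne_zero.2 hy)
    positivity
  rw [lap_eq_sum (stdOrthonormalBasis ℝ E) hc]
  have h1 : ∀ v : E, (fun y => fderiv ℝ (fun x : E => g (‖x - c‖ ^ 2)) y v) =ᶠ[𝓝 x]
      fun y => (2 * inner ℝ (y - c) v : ℝ) • g1 (‖y - c‖ ^ 2) := by
    intro v
    filter_upwards [isOpen_ne.mem_nhds hx] with y hy
    exact fderiv_rad (hg _ (hpos y hy)) v
  have h2 : ∀ v : E, fderiv ℝ (fun y => fderiv ℝ (fun x : E => g (‖x - c‖ ^ 2)) y v) x v =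
      (2 * inner ℝ v v : ℝ) • g1 (‖x - c‖ ^ 2) +
        (4 * (inner ℝ (x - c) v * inner ℝ (x - c) v) : ℝ) • g2 (‖x - c‖ ^ 2) := by
    intro v
    rw [(h1 v).fderiv_eq]
    have hd1 : HasFDerivAt (fun y : E => (2 * inner ℝ (y - c) v : ℝ)) (2 • innerSL ℝ v) x := by
      have h3 : HasFDerivAt (fun y : E => (innerSL ℝ v) (y - c)) (innerSL ℝ v) x :=
        (innerSL ℝ v).hasFDerivAt.comp x ((hasFDerivAt_id x).sub_const c)
      have h4 := h3.const_mul 2
      have h5 : (fun y : E => 2 * (innerSL ℝ v) (y - c)) =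
          fun y : E => (2 * inner ℝ (y - c) v : ℝ) := by
        ext y
        rw [innerSL_apply_apply, real_inner_comm]
      rw [h5] at h4
      refine h4.congr_fderiv ?_
      ext z
      simp [two_mul]
    have hd2 := (hg1 _ (hpos x hx)).hasFDerivAt.comp x (nsq_deriv c x)
    have h3 : (g1 ∘ fun x : E => ‖x - c‖ ^ 2) = fun x => g1 (‖x - c‖ ^ 2) := rfl
    rw [h3] at hd2
    have h6 : fderiv ℝ (fun y : E => (2 * inner ℝ (y - c) v : ℝ) • g1 (‖y - c‖ ^ 2)) x = _ :=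
      (hd1.smul hd2).fderiv
    rw [h6]
    simp only [add_apply, smul_apply,
      ContinuousLinearMap.smulRight_apply, ContinuousLinearMap.comp_apply,
      ContinuousLinearMap.toSpanSingleton_apply, innerSL_apply_apply, nsmul_eq_mul,
      smul_smul]
    rw [add_comm]
    congr 2
    · push_cast
      ring
  simp_rw [h2]
  rw [Finset.sum_add_distrib, ← Finset.sum_smul, ← Finset.sum_smul, ← Finset.mul_sum,
    ← Finset.mul_sum]
  congr 2
  · congr 1
    simp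
  · congr 1
    have h7 := (stdOrthonormalBasis ℝ E).sum_inner_mul_inner (x - c) (x - c)
    rw [← real_inner_self_eq_norm_sq, ← h7]
    refine Finset.sum_congr rfl fun i _ => ?_
    rw [real_inner_comm (x - c)]

/-- `e^{i√t}/√t` -/
noncomputable def g0 (t : ℝ) : ℂ := Complex.exp ((√t : ℝ) * Complex.I) / (√t : ℝ)

noncomputable def g1 (t : ℝ) : ℂ :=
  Complex.exp ((√t : ℝ) * Complex.I) * ((√t : ℝ) * Complex.I - 1) / (2 * (√t : ℝ) ^ 3)

noncomputable def g2 (t : ℝ) : ℂ :=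
  Complex.exp ((√t : ℝ) * Complex.I) * (-(√t : ℝ) ^ 2 - 3 * (√t : ℝ) * Complex.I + 3) /
    (4 * (√t : ℝ) ^ 5)

theorem dsq {t : ℝ} (ht : 0 < t) :
    HasDerivAt (fun t : ℝ => ((√t : ℝ) : ℂ)) (1 / (2 * (√t : ℝ)) : ℂ) t := by
  have := (Real.hasDerivAt_sqrt ht.ne').ofReal_comp
  simpa using this

theorem dexp {t : ℝ} (ht : 0 < t) :
    HasDerivAt (fun t : ℝ => Complex.exp ((√t : ℝ) * Complex.I))
      (Complex.exp ((√t : ℝ) * Complex.I) * (1 / (2 * (√t : ℝ)) * Complex.I)) t :=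
  ((dsq ht).mul_const Complex.I).cexp

theorem sq_ne {t : ℝ} (ht : 0 < t) : ((√t : ℝ) : ℂ) ≠ 0 := by
  have : 0 < √t := Real.sqrt_pos.2 ht
  exact_mod_cast this.ne'

theorem g0_deriv {t : ℝ} (ht : 0 < t) : HasDerivAt g0 (g1 t) t := by
  have h := (dexp ht).div (dsq ht) (sq_ne ht)
  refine h.congr_deriv ?_
  have := sq_ne ht
  unfold g1
  field_simp

theorem g1_deriv {t : ℝ} (ht : 0 < t) : HasDerivAt g1 (g2 t) t := by
  have hs := sq_ne ht
  have h := ((dexp ht).mul (((dsq ht).mul_const Complex.I).sub_const 1)).div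
    (((dsq ht).pow 3).const_mul 2) (show (2 * ((√t : ℝ) : ℂ) ^ 3) ≠ 0 by
      simp only [ne_eq, mul_eq_zero, pow_eq_zero_iff, OfNat.ofNat_ne_zero, not_false_eq_true,
        false_or]
      exact hs)
  refine h.congr_deriv ?_
  unfold g2
  have hI : Complex.I ^ 2 = -1 := Complex.I_sq
  norm_num
  field_simp
  ring_nf
  rw [hI]
  ring

theorem g_helm {t : ℝ} (ht : 0 < t) : (2 * (3 : ℝ)) • g1 t + (4 * t) • g2 t = - g0 t := by
  have hs := sq_ne ht
  have htt : (t : ℂ) = ((√t : ℝ) : ℂ) ^ 2 := by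
    have := Real.sq_sqrt ht.le
    exact_mod_cast this.symm
  unfold g0 g1 g2
  rw [Complex.real_smul, Complex.real_smul]
  push_cast
  rw [htt]
  field_simp
  ring

end Pool.Agent.V1180.Helm
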