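import Pool.Agent.V1180.Helm

set_option autoImplicit false
set_option linter.unusedSectionVars false

/-! Two point sources. -/

open Set Filter Topology MeasureTheory Metric InnerProductSpace Laplacian
open scoped ContDiff ENNReal

namespace Pool.Agent.V1180.Helm

theorem cinner (w z : ℂ) : inner ℝ w z = w.re * z.re + w.im * z.im := by
  rw [Complex.inner]
  simp [Complex.mul_re]
  ring

theorem g0_sq {a : ℝ} (ha : 0 < a) : g0 (a ^ 2) = Complex.exp (a * Complex.I) / a := by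
  unfold g0
  rw [Real.sqrt_sq ha.le]

theorem g1_sq {a : ℝ} (ha : 0 < a) :
    (2 : ℝ) • g1 (a ^ 2) = Complex.exp (a * Complex.I) * (a * Complex.I - 1) / ((a ^ 3 : ℝ) : ℂ) := by
  unfold g1
  rw [Real.sqrt_sq ha.le, Complex.real_smul]
  have : (a : ℂ) ≠ 0 := by exact_mod_cast ha.ne'
  push_cast
  field_simp

theorem inner_g0 {a b : ℝ} (ha : 0 < a) (hb : 0 < b) :
    inner ℝ (g0 (a ^ 2)) (g0 (b ^ 2)) = Real.cos (a - b) / (a * b) := by
  rw [g0_sq ha, g0_sq hb, cinner, Complex.div_ofReal_re, Complex.div_ofReal_re,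
    Complex.div_ofReal_im, Complex.div_ofReal_im, Complex.exp_ofReal_mul_I_re,
    Complex.exp_ofReal_mul_I_re, Complex.exp_ofReal_mul_I_im, Complex.exp_ofReal_mul_I_im,
    Real.cos_sub]
  field_simp

theorem inner_g1 {a b : ℝ} (ha : 0 < a) (hb : 0 < b) :
    inner ℝ ((2 : ℝ) • g1 (a ^ 2)) ((2 : ℝ) • g1 (b ^ 2)) =
      ((1 + a * b) * Real.cos (a - b) + (a - b) * Real.sin (a - b)) / (a ^ 3 * b ^ 3) := by
  rw [g1_sq ha, g1_sq hb, cinner, Complex.div_ofReal_re, Complex.div_ofReal_re,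
    Complex.div_ofReal_im, Complex.div_ofReal_im]
  simp only [Complex.mul_re, Complex.mul_im, Complex.exp_ofReal_mul_I_re,
    Complex.exp_ofReal_mul_I_im, Complex.sub_re, Complex.sub_im, Complex.one_re, Complex.one_im,
    Complex.I_re, Complex.I_im, Complex.ofReal_re, Complex.ofReal_im]
  rw [Real.cos_sub, Real.sin_sub]
  field_simp
  ring

variable {E : Type} [NormedAddCommGroup E] [InnerProductSpace ℝ E] [FiniteDimensional ℝ E]

/-- `|∇u|²` of a complex valued function -/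
noncomputable def gradSq (u : E → ℂ) (x : E) : ℝ :=
  ∑ i, ‖fderiv ℝ u x (stdOrthonormalBasis ℝ E i)‖ ^ 2

theorem sum_sq (y z : E) (G H : ℂ) :
    ∑ i, ‖(inner ℝ y (stdOrthonormalBasis ℝ E i) : ℝ) • G +
      (inner ℝ z (stdOrthonormalBasis ℝ E i) : ℝ) • H‖ ^ 2 =
      ‖y‖ ^ 2 * ‖G‖ ^ 2 + 2 * (inner ℝ y z * inner ℝ G H) + ‖z‖ ^ 2 * ‖H‖ ^ 2 := by
  have h1 : ∀ i, ‖(inner ℝ y (stdOrthonormalBasis ℝ E i) : ℝ) • G +
      (inner ℝ z (stdOrthonormalBasis ℝ E i) : ℝ) • H‖ ^ 2 =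
      (inner ℝ y (stdOrthonormalBasis ℝ E i) * inner ℝ (stdOrthonormalBasis ℝ E i) y) * ‖G‖ ^ 2 +
      (inner ℝ y (stdOrthonormalBasis ℝ E i) * inner ℝ (stdOrthonormalBasis ℝ E i) z) *
        (2 * inner ℝ G H) +
      (inner ℝ z (stdOrthonormalBasis ℝ E i) * inner ℝ (stdOrthonormalBasis ℝ E i) z) *
        ‖H‖ ^ 2 := by
    intro i
    rw [norm_add_sq_real, norm_smul, norm_smul, mul_pow, mul_pow, Real.norm_eq_abs, sq_abs,
      Real.norm_eq_abs, sq_abs, real_inner_smul_left, real_inner_smul_right,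
      real_inner_comm y (stdOrthonormalBasis ℝ E i), real_inner_comm z (stdOrthonormalBasis ℝ E i)]
    ring
  simp_rw [h1]
  rw [Finset.sum_add_distrib, Finset.sum_add_distrib, ← Finset.sum_mul, ← Finset.sum_mul,
    ← Finset.sum_mul, OrthonormalBasis.sum_inner_mul_inner, OrthonormalBasis.sum_inner_mul_inner,
    OrthonormalBasis.sum_inner_mul_inner, real_inner_self_eq_norm_sq, real_inner_self_eq_norm_sq]
  ring

/-- the two-source field -/
noncomputable def uu (p : E) (x : E) : ℂ := g0 (‖x - p‖ ^ 2) + g0 (‖x - (-p)‖ ^ 2)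

theorem sqrt_contDiffAt {t : ℝ} (ht : 0 < t) : ContDiffAt ℝ ∞ (fun t : ℝ => √t) t :=
  Real.contDiffAt_sqrt ht.ne'

theorem g0_contDiffAt {t : ℝ} (ht : 0 < t) : ContDiffAt ℝ ∞ g0 t := by
  unfold g0
  have h1 : ContDiffAt ℝ ∞ (fun t : ℝ => ((√t : ℝ) : ℂ)) t :=
    Complex.ofRealCLM.contDiff.contDiffAt.comp t (sqrt_contDiffAt ht)
  have h2 : ContDiffAt ℝ ∞ (fun t : ℝ => Complex.exp ((√t : ℝ) * Complex.I)) t :=
    (h1.mul contDiffAt_const).cexp
  simp_rw [div_eq_mul_inv]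
  exact h2.mul (h1.inv (sq_ne ht))

theorem rad_contDiffAt {c x : E} (hx : x ≠ c) :
    ContDiffAt ℝ ∞ (fun x : E => g0 (‖x - c‖ ^ 2)) x := by
  have hpos : 0 < ‖x - c‖ ^ 2 := by
    have := norm_pos_iff.2 (sub_ne_zero.2 hx)
    positivity
  exact (g0_contDiffAt hpos).comp x
    ((contDiff_norm_sq ℝ).comp (contDiff_id.sub contDiff_const)).contDiffAt

theorem uu_contDiffAt {p x : E} (hx : x ≠ p) (hx' : x ≠ -p) : ContDiffAt ℝ ∞ (uu p) x :=
  (rad_contDiffAt hx).add (rad_contDiffAt hx')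

theorem uu_fderiv {p x : E} (hx : x ≠ p) (hx' : x ≠ -p) (v : E) :
    fderiv ℝ (uu p) x v = (inner ℝ (x - p) v : ℝ) • ((2 : ℝ) • g1 (‖x - p‖ ^ 2)) +
      (inner ℝ (x - -p) v : ℝ) • ((2 : ℝ) • g1 (‖x - -p‖ ^ 2)) := by
  have hpos : ∀ c : E, x ≠ c → 0 < ‖x - c‖ ^ 2 := by
    intro c hc
    have := norm_pos_iff.2 (sub_ne_zero.2 hc)
    positivity
  have h : fderiv ℝ (uu p) x = fderiv ℝ (fun x : E => g0 (‖x - p‖ ^ 2)) x +
      fderiv ℝ (fun x : E => g0 (‖x - -p‖ ^ 2)) x :=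
    fderiv_add ((rad_contDiffAt hx).differentiableAt (by simp))
      ((rad_contDiffAt hx').differentiableAt (by simp))
  rw [h, add_apply, fderiv_rad (g0_deriv (hpos _ hx)), fderiv_rad (g0_deriv (hpos _ hx')),
    smul_smul, smul_smul, mul_comm 2, mul_comm 2]

theorem uu_gradSq {p x : E} (hx : x ≠ p) (hx' : x ≠ -p) :
    gradSq (uu p) x = ‖x - p‖ ^ 2 * ‖(2 : ℝ) • g1 (‖x - p‖ ^ 2)‖ ^ 2 +
      2 * (inner ℝ (x - p) (x - -p) * inner ℝ ((2 : ℝ) • g1 (‖x - p‖ ^ 2))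
        ((2 : ℝ) • g1 (‖x - -p‖ ^ 2))) +
      ‖x - -p‖ ^ 2 * ‖(2 : ℝ) • g1 (‖x - -p‖ ^ 2)‖ ^ 2 := by
  unfold gradSq
  simp_rw [uu_fderiv hx hx']
  exact sum_sq _ _ _ _

theorem uu_helm (h3 : Module.finrank ℝ E = 3) {p x : E} (hx : x ≠ p) (hx' : x ≠ -p) :
    Δ (uu p) x + uu p x = 0 := by
  have hpos : ∀ c : E, x ≠ c → 0 < ‖x - c‖ ^ 2 := by
    intro c hc
    have := norm_pos_iff.2 (sub_ne_zero.2 hc)
    positivity
  have key : ∀ c : E, x ≠ c → Δ (fun x : E => g0 (‖x - c‖ ^ 2)) x = - g0 (‖x - c‖ ^ 2) := by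
    intro c hc
    rw [lap_rad hc (fun t ht => g0_deriv ht) (fun t ht => g1_deriv ht)
      ((rad_contDiffAt hc).of_le (WithTop.coe_le_coe.2 le_top)), h3, ← g_helm (hpos c hc)]
    norm_num
  have hadd : Δ (uu p) x = Δ (fun x : E => g0 (‖x - p‖ ^ 2)) x +
      Δ (fun x : E => g0 (‖x - -p‖ ^ 2)) x :=
    ContDiffAt.laplacian_add ((rad_contDiffAt hx).of_le (WithTop.coe_le_coe.2 le_top))
      ((rad_contDiffAt hx').of_le (WithTop.coe_le_coe.2 le_top))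
  rw [hadd, key p hx, key (-p) hx']
  unfold uu
  ring

/-- the Lagrangian density in terms of the two distances -/
noncomputable def DD (a b : ℝ) : ℝ :=
  -1 / a ^ 4 - 1 / b ^ 4 + 2 * Real.cos (a - b) / (a * b) -
    2 * (a * b + (a - b) ^ 2 / 2 - 8) * ((1 + a * b) * Real.cos (a - b) +
      (a - b) * Real.sin (a - b)) / (a ^ 3 * b ^ 3)

theorem uu_lagr {p x : E} (hp : ‖p‖ = 2) (hx : x ≠ p) (hx' : x ≠ -p) :
    ‖uu p x‖ ^ 2 - gradSq (uu p) x = DD ‖x - p‖ ‖x - -p‖ := by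
  have ha : 0 < ‖x - p‖ := norm_pos_iff.2 (sub_ne_zero.2 hx)
  have hb : 0 < ‖x - -p‖ := norm_pos_iff.2 (sub_ne_zero.2 hx')
  have hin : inner ℝ (x - p) (x - -p) = ‖x - p‖ * ‖x - -p‖ +
      (‖x - p‖ - ‖x - -p‖) ^ 2 / 2 - 8 := by
    have h1 : ‖(x - p) - (x - -p)‖ ^ 2 = 16 := by
      have : (x - p) - (x - -p) = (-2 : ℝ) • p := by
        module
      rw [this, norm_smul, hp]
      norm_num
    rw [norm_sub_sq_real] at h1
    nlinarith
  rw [uu_gradSq hx hx', hin]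
  unfold uu DD
  rw [norm_add_sq_real, inner_g0 ha hb, inner_g1 ha hb, ← real_inner_self_eq_norm_sq (g0 _),
    ← real_inner_self_eq_norm_sq (g0 _), ← real_inner_self_eq_norm_sq ((2 : ℝ) • g1 _),
    ← real_inner_self_eq_norm_sq ((2 : ℝ) • g1 _), inner_g0 ha ha, inner_g0 hb hb,
    inner_g1 ha ha, inner_g1 hb hb]
  simp only [sub_self, Real.cos_zero, Real.sin_zero]
  field_simp
  ring

end Pool.Agent.V1180.Helm
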