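import Pool.Agent.V1180.Helm2

set_option autoImplicit false
set_option linter.unusedSectionVars false

/-! Two point sources: bounds for the density, radiation condition. -/

open Set Filter Topology MeasureTheory Metric InnerProductSpace Laplacian
open scoped ContDiff ENNReal

namespace Pool.Agent.V1180.Helm

theorem DD_eq {a b : ℝ} (ha : 0 < a) (hb : 0 < b) :
    DD a b * (a * b) ^ 4 = -2 * (a * b) ^ 2 - 4 * (a * b) * (a - b) ^ 2 - (a - b) ^ 4 +
      2 * Real.cos (a - b) * (a * b) * (7 * (a * b) + 8 - (a - b) ^ 2 * (a * b + 1) / 2) -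
      2 * (a * b - 8 + (a - b) ^ 2 / 2) * ((a - b) * Real.sin (a - b)) * (a * b) := by
  unfold DD
  field_simp
  ring

theorem xsin_bound (x : ℝ) : |x * Real.sin x| ≤ x ^ 2 := by
  rw [abs_mul, ← sq_abs x, sq]
  exact mul_le_mul_of_nonneg_left (Real.abs_sin_le_abs) (abs_nonneg x)

theorem DD_lower {a b : ℝ} (ha : 0 < a) (hb : 0 < b) (h : |a - b| ≤ 1 / 2)
    (hP : 31 / 8 ≤ a * b) : 8 / (a * b) ^ 2 ≤ DD a b := by
  have hP0 : 0 < a * b := mul_pos ha hb
  have hd : (a - b) ^ 2 ≤ 1 / 4 := by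
    rw [← sq_abs]
    nlinarith [abs_nonneg (a - b)]
  have hc : 7 / 8 ≤ Real.cos (a - b) := by
    have := Real.one_sub_sq_div_two_le_cos (x := a - b)
    linarith
  have hs := xsin_bound (a - b)
  have hs0 : 0 ≤ (a - b) * Real.sin (a - b) := by
    rcases le_total 0 (a - b) with h1 | h1
    · refine mul_nonneg h1 (Real.sin_nonneg_of_nonneg_of_le_pi h1 ?_)
      have := Real.pi_gt_three
      have := le_abs_self (a - b)
      linarith
    · refine mul_nonneg_of_nonpos_of_nonpos h1 (Real.sin_nonpos_of_nonpos_of_neg_pi_le h1 ?_)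
      have := Real.pi_gt_three
      have := neg_abs_le (a - b)
      linarith
  have heq := DD_eq ha hb
  generalize hPd : a * b = P at *
  generalize hdd : (a - b) ^ 2 = d at *
  generalize hqq : (a - b) * Real.sin (a - b) = q at *
  have hd0 : 0 ≤ d := hdd ▸ sq_nonneg _
  have h4 : (a - b) ^ 4 = d ^ 2 := by rw [← hdd]; ring
  rw [h4] at heq
  have hq : q ≤ 1 / 4 := by
    have := le_abs_self q
    linarith
  rw [div_le_iff₀ (by positivity)]
  have h1 : 7 / 4 * P * (7 * P + 8 - (P + 1) / 8) ≤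
      2 * Real.cos (a - b) * P * (7 * P + 8 - d * (P + 1) / 2) := by
    have h2 : 7 / 4 * P ≤ 2 * Real.cos (a - b) * P := by nlinarith
    have h3 : 7 * P + 8 - (P + 1) / 8 ≤ 7 * P + 8 - d * (P + 1) / 2 := by nlinarith
    exact mul_le_mul h2 h3 (by linarith) (by nlinarith)
  have h2 : 2 * (P - 8 + d / 2) * q * P ≤ P ^ 2 / 2 := by
    have h3 : 2 * (P - 8 + d / 2) * q ≤ P / 2 := by
      rcases le_total 0 (P - 8 + d / 2) with h4 | h4
      · nlinarith
      · nlinarith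
    nlinarith
  have h5 : 8 * P ^ 2 ≤ DD a b * P ^ 4 := by
    rw [heq]
    nlinarith
  have h6 : DD a b * P ^ 4 = (DD a b * P ^ 2) * P ^ 2 := by ring
  rw [h6] at h5
  exact le_of_mul_le_mul_right h5 (by positivity)

theorem DD_abs {a b : ℝ} (ha : 0 < a) (hb : 0 < b) (h : |a - b| ≤ 4)
    (hP : 1 ≤ a * b) : |DD a b| ≤ 520 / (a * b) ^ 2 := by
  have hP0 : 0 < a * b := mul_pos ha hb
  have hd : (a - b) ^ 2 ≤ 16 := by
    rw [← sq_abs]
    nlinarith [abs_nonneg (a - b)]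
  have hc : |Real.cos (a - b)| ≤ 1 := Real.abs_cos_le_one _
  have hq : |(a - b) * Real.sin (a - b)| ≤ 4 := by
    rw [abs_mul]
    have := Real.abs_sin_le_one (a - b)
    nlinarith [abs_nonneg (a - b), abs_nonneg (Real.sin (a - b))]
  have heq := DD_eq ha hb
  generalize hPd : a * b = P at *
  generalize hdd : (a - b) ^ 2 = d at *
  generalize hqq : (a - b) * Real.sin (a - b) = q at *
  have hd0 : 0 ≤ d := hdd ▸ sq_nonneg _
  have h4 : (a - b) ^ 4 = d ^ 2 := by rw [← hdd]; ring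
  rw [h4] at heq
  rw [le_div_iff₀ (by positivity)]
  have h1 : |2 * Real.cos (a - b) * P * (7 * P + 8 - d * (P + 1) / 2)| ≤ 62 * P ^ 2 := by
    rw [abs_mul, abs_mul, abs_mul, abs_of_pos hP0, abs_two]
    have h2 : |7 * P + 8 - d * (P + 1) / 2| ≤ 31 * P := by
      rw [abs_le]
      constructor <;> nlinarith
    calc 2 * |Real.cos (a - b)| * P * |7 * P + 8 - d * (P + 1) / 2| ≤ 2 * 1 * P * (31 * P) := by
          gcongr
      _ = 62 * P ^ 2 := by ring
  have h2 : |2 * (P - 8 + d / 2) * q * P| ≤ 136 * P ^ 2 := by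
    rw [abs_mul, abs_mul, abs_mul, abs_of_pos hP0, abs_two]
    have h3 : |P - 8 + d / 2| ≤ 17 * P := by
      rw [abs_le]
      constructor <;> nlinarith
    calc 2 * |P - 8 + d / 2| * |q| * P ≤ 2 * (17 * P) * 4 * P := by gcongr
      _ = 136 * P ^ 2 := by ring
  have h5 : |DD a b * P ^ 4| ≤ 520 * P ^ 2 := by
    rw [heq, abs_le]
    rw [abs_le] at h1 h2
    constructor <;> nlinarith
  have h6 : DD a b * P ^ 4 = (DD a b * P ^ 2) * P ^ 2 := by ring
  rw [h6, abs_mul, abs_mul, abs_of_pos (by positivity : 0 < P ^ 2)] at h5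
  exact le_of_mul_le_mul_right h5 (by positivity)

variable {E : Type} [NormedAddCommGroup E] [InnerProductSpace ℝ E] [FiniteDimensional ℝ E]

theorem dist_prod {p x : E} (hp : ‖p‖ = 2) :
    2 * (‖x - p‖ * ‖x - -p‖) + (‖x - p‖ - ‖x - -p‖) ^ 2 = 2 * ‖x‖ ^ 2 + 8 := by
  have h1 := norm_sub_sq_real x p
  have h2 := norm_sub_sq_real x (-p)
  rw [inner_neg_right, norm_neg] at h2
  rw [hp] at h1 h2
  nlinarith

theorem dist_diff {p x : E} (hp : ‖p‖ = 2) : |‖x - p‖ - ‖x - -p‖| ≤ 4 := by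
  have h1 := abs_norm_sub_norm_le (x - p) (x - -p)
  have h2 : (x - p) - (x - -p) = (-2 : ℝ) • p := by module
  have h3 : ‖(-2 : ℝ)‖ = 2 := by norm_num
  rw [h2, norm_smul, hp, h3] at h1
  linarith

theorem dist_diff' {p x : E} (hp : ‖p‖ = 2) : |‖x - p‖ - ‖x - -p‖| ≤ |inner ℝ x p| := by
  have h1 := norm_sub_sq_real x p
  have h2 := norm_sub_sq_real x (-p)
  rw [inner_neg_right, norm_neg] at h2
  have h3 : 4 ≤ ‖x - p‖ + ‖x - -p‖ := by
    have h1 := norm_sub_le (x - p) (x - -p)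
    have h2 : (x - p) - (x - -p) = (-2 : ℝ) • p := by module
    have h3 : ‖(-2 : ℝ)‖ = 2 := by norm_num
    rw [h2, norm_smul, hp, h3] at h1
    linarith
  have h4 : (‖x - p‖ - ‖x - -p‖) * (‖x - p‖ + ‖x - -p‖) = -4 * inner ℝ x p := by
    nlinarith
  have h5 : |‖x - p‖ - ‖x - -p‖| * (‖x - p‖ + ‖x - -p‖) = 4 * |inner ℝ x p| := by
    rw [← abs_of_nonneg (by linarith : (0:ℝ) ≤ ‖x - p‖ + ‖x - -p‖), ← abs_mul, h4, abs_mul]
    norm_num
  nlinarith [abs_nonneg (‖x - p‖ - ‖x - -p‖)]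

/-- far field of one source -/
theorem far_one {p x : E} (hp : ‖p‖ = 2) (hx : 2 < ‖x‖) :
    ‖(‖x‖ : ℂ) * Complex.exp (-(‖x‖ * Complex.I)) * g0 (‖x - p‖ ^ 2) -
      Complex.exp (-((inner ℝ (‖x‖⁻¹ • x) p : ℝ) * Complex.I))‖ ≤ 4 / (‖x‖ - 2) := by
  set r := ‖x‖ with hr
  set a := ‖x - p‖ with ha
  set s : ℝ := inner ℝ (r⁻¹ • x) p with hs
  have hr0 : 0 < r := by linarith
  have hs1 : inner ℝ x p = r * s := by
    rw [hs, real_inner_smul_left]
    field_simp
  have h1 : a ^ 2 = r ^ 2 - 2 * (r * s) + 4 := by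
    have := norm_sub_sq_real x p
    rw [hs1, hp] at this
    rw [ha, this, hr]
    norm_num
  have hs2 : |s| ≤ 2 := by
    have := abs_real_inner_le_norm (r⁻¹ • x) p
    rw [norm_smul, norm_inv, Real.norm_eq_abs, abs_of_pos hr0, ← hr, inv_mul_cancel₀ hr0.ne',
      hp] at this
    linarith
  rw [abs_le] at hs2
  have har : |r - a| ≤ 2 := by
    have := abs_norm_sub_norm_le x (x - p)
    rw [sub_sub_cancel, hp] at this
    exact this
  rw [abs_le] at har
  have ha0 : 0 < a := by linarith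
  have h2 : |a - r + s| ≤ 2 / (r - 2) := by
    have h3 : (a - r + s) * (a + (r - s)) = 4 - s ^ 2 := by nlinarith
    have h4 : 2 * (r - 2) ≤ a + (r - s) := by linarith
    have h5 : 0 ≤ 4 - s ^ 2 := by nlinarith
    have h6 : 0 < a + (r - s) := by linarith
    rw [le_div_iff₀ (by linarith)]
    have h7 : |a - r + s| * (a + (r - s)) = 4 - s ^ 2 := by
      rw [← abs_of_nonneg h6.le, ← abs_mul, h3, abs_of_nonneg h5]
    nlinarith [abs_nonneg (a - r + s), sq_nonneg s]
  have h3 : |r / a - 1| ≤ 2 / (r - 2) := by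
    have h4 : r / a - 1 = (r - a) / a := by field_simp
    rw [h4, abs_div, abs_of_pos ha0]
    have h5 : |r - a| ≤ 2 := by rw [abs_le]; exact har
    exact div_le_div₀ (by norm_num) h5 (by linarith) (by linarith)
  have h4 : (r : ℂ) * Complex.exp (-(r * Complex.I)) * g0 (a ^ 2) -
      Complex.exp (-((s : ℝ) * Complex.I)) =
      ((r / a - 1 : ℝ) : ℂ) * Complex.exp ((a - r : ℝ) * Complex.I) +
      (Complex.exp ((a - r : ℝ) * Complex.I) - Complex.exp ((-s : ℝ) * Complex.I)) := by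
    rw [g0_sq ha0]
    have hac : (a : ℂ) ≠ 0 := by exact_mod_cast ha0.ne'
    have h5 : Complex.exp ((a - r : ℝ) * Complex.I) =
        Complex.exp (a * Complex.I) * Complex.exp (-(r * Complex.I)) := by
      rw [← Complex.exp_add]
      congr 1
      push_cast
      ring
    have h6 : Complex.exp ((-s : ℝ) * Complex.I) = Complex.exp (-((s : ℝ) * Complex.I)) := by
      congr 1
      push_cast
      ring
    rw [h5, h6]
    push_cast
    field_simp
    ring
  rw [h4]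
  have h5 : ‖Complex.exp ((a - r : ℝ) * Complex.I) - Complex.exp ((-s : ℝ) * Complex.I)‖ ≤
      |a - r + s| := by
    have h6 : Complex.exp ((a - r : ℝ) * Complex.I) - Complex.exp ((-s : ℝ) * Complex.I) =
        Complex.exp ((-s : ℝ) * Complex.I) *
          (Complex.exp (Complex.I * ((a - r + s : ℝ) : ℂ)) - 1) := by
      rw [mul_sub, ← Complex.exp_add, mul_one]
      congr 2
      push_cast
      ring
    rw [h6, norm_mul, Complex.norm_exp_ofReal_mul_I, one_mul]
    exact Real.norm_exp_I_mul_ofReal_sub_one_le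
  calc _ ≤ ‖((r / a - 1 : ℝ) : ℂ) * Complex.exp ((a - r : ℝ) * Complex.I)‖ +
        ‖Complex.exp ((a - r : ℝ) * Complex.I) - Complex.exp ((-s : ℝ) * Complex.I)‖ :=
        norm_add_le _ _
    _ ≤ 2 / (r - 2) + 2 / (r - 2) := by
        refine add_le_add ?_ (h5.trans h2)
        rw [norm_mul, Complex.norm_exp_ofReal_mul_I, mul_one, Complex.norm_real]
        exact h3
    _ = 4 / (r - 2) := by ring

/-- the far field pattern -/
noncomputable def ff (p : E) (w : E) : ℂ :=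
  Complex.exp (-((inner ℝ w p : ℝ) * Complex.I)) + Complex.exp (-((inner ℝ w (-p) : ℝ) * Complex.I))

theorem ff_contDiff (p : E) : ContDiff ℝ ∞ (ff p) := by
  have h1 : ∀ q : E, ContDiff ℝ ∞ (fun w : E => Complex.exp (-((inner ℝ w q : ℝ) * Complex.I))) := by
    intro q
    have h2 : ContDiff ℝ ∞ (fun w : E => ((inner ℝ w q : ℝ) : ℂ)) :=
      Complex.ofRealCLM.contDiff.comp (contDiff_id.inner ℝ contDiff_const)
    exact (h2.mul contDiff_const).neg.cexp
  exact (h1 p).add (h1 (-p))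

theorem far (p : E) (hp : ‖p‖ = 2) :
    Tendsto (fun x : E => (‖x‖ : ℂ) * Complex.exp (-(‖x‖ * Complex.I)) * uu p x -
      ff p (‖x‖⁻¹ • x)) (Bornology.cobounded E) (𝓝 0) := by
  have h1 : Tendsto (fun x : E => 8 / (‖x‖ - 2)) (Bornology.cobounded E) (𝓝 0) := by
    refine Tendsto.div_atTop tendsto_const_nhds ?_
    exact tendsto_atTop_add_const_right _ _ tendsto_norm_cobounded_atTop
  refine squeeze_zero_norm' ?_ h1
  have h2 : ∀ᶠ x : E in Bornology.cobounded E, 2 < ‖x‖ :=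
    tendsto_norm_cobounded_atTop.eventually_gt_atTop 2
  filter_upwards [h2] with x hx
  have e1 := far_one hp hx
  have e2 := far_one (p := -p) (by rw [norm_neg, hp]) hx
  have e3 : (‖x‖ : ℂ) * Complex.exp (-(‖x‖ * Complex.I)) * uu p x - ff p (‖x‖⁻¹ • x) =
      ((‖x‖ : ℂ) * Complex.exp (-(‖x‖ * Complex.I)) * g0 (‖x - p‖ ^ 2) -
      Complex.exp (-((inner ℝ (‖x‖⁻¹ • x) p : ℝ) * Complex.I))) +
      ((‖x‖ : ℂ) * Complex.exp (-(‖x‖ * Complex.I)) * g0 (‖x - -p‖ ^ 2) -
      Complex.exp (-((inner ℝ (‖x‖⁻¹ • x) (-p) : ℝ) * Complex.I))) := by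
    unfold uu ff
    ring
  rw [e3]
  refine (norm_add_le _ _).trans ?_
  have e4 : 8 / (‖x‖ - 2) = 4 / (‖x‖ - 2) + 4 / (‖x‖ - 2) := by ring
  rw [e4]
  exact add_le_add e1 e2

end Pool.Agent.V1180.Helm
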