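import Mathlib

set_option autoImplicit false

/-! A solid torus in `R^3` as a sublevel set. -/

open Set Filter Topology MeasureTheory Metric InnerProductSpace
open scoped ContDiff ENNReal

namespace Pool.Agent.V1180.Tor

abbrev E3 := EuclideanSpace ℝ (Fin 3)

/-- quartic defining function of the solid torus with radii `A > B` -/
noncomputable def FF (A B : ℝ) (x : E3) : ℝ :=
  (‖x‖ ^ 2 + (A ^ 2 - B ^ 2)) ^ 2 - 4 * A ^ 2 * (x 0 ^ 2 + x 1 ^ 2)

theorem nsq (x : E3) : ‖x‖ ^ 2 = x 0 ^ 2 + x 1 ^ 2 + x 2 ^ 2 := by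
  rw [EuclideanSpace.norm_sq_eq, Fin.sum_univ_three]
  simp [sq_abs]

theorem coord_contDiff (i : Fin 3) : ContDiff ℝ ∞ (fun x : E3 => x i) :=
  (EuclideanSpace.proj i : E3 →L[ℝ] ℝ).contDiff

theorem coord_deriv (i : Fin 3) (x : E3) : HasFDerivAt (fun x : E3 => x i)
    (EuclideanSpace.proj i : E3 →L[ℝ] ℝ) x :=
  (EuclideanSpace.proj i : E3 →L[ℝ] ℝ).hasFDerivAt

theorem FF_contDiff (A B : ℝ) : ContDiff ℝ ∞ (FF A B) := by
  unfold FF
  exact (((contDiff_norm_sq ℝ).add contDiff_const).pow 2).sub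
    (contDiff_const.mul (((coord_contDiff 0).pow 2).add ((coord_contDiff 1).pow 2)))

theorem FF_fderiv (A B : ℝ) (x v : E3) : fderiv ℝ (FF A B) x v =
    4 * (‖x‖ ^ 2 + (A ^ 2 - B ^ 2)) * inner ℝ x v - 8 * A ^ 2 * (x 0 * v 0 + x 1 * v 1) := by
  have h1 : HasFDerivAt (fun x : E3 => ‖x‖ ^ 2 + (A ^ 2 - B ^ 2)) (2 • innerSL ℝ x) x := by
    have := (hasFDerivAt_id x).norm_sq
    exact this.add_const _
  have h2 := (h1.pow 2).sub
    ((((coord_deriv 0 x).pow 2).add ((coord_deriv 1 x).pow 2)).const_mul (4 * A ^ 2))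
  have h3 : fderiv ℝ (FF A B) x = _ := h2.fderiv
  rw [h3]
  simp
  ring

/-- polynomial factorisation -/
theorem FF_pos_iff {A B : ℝ} (hB : 0 < B) (hA : B < A) (x : E3) :
    0 < FF A B x ↔ 2 * A * √(x 0 ^ 2 + x 1 ^ 2) < ‖x‖ ^ 2 + (A ^ 2 - B ^ 2) := by
  have hρ : (√(x 0 ^ 2 + x 1 ^ 2)) ^ 2 = x 0 ^ 2 + x 1 ^ 2 := Real.sq_sqrt (by positivity)
  have hρ0 := Real.sqrt_nonneg (x 0 ^ 2 + x 1 ^ 2)
  have hk : 0 < A ^ 2 - B ^ 2 := by nlinarith
  unfold FF
  set ρ := √(x 0 ^ 2 + x 1 ^ 2)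
  rw [← hρ]
  have hn : 0 ≤ ‖x‖ ^ 2 := by positivity
  have e : (‖x‖ ^ 2 + (A ^ 2 - B ^ 2)) ^ 2 - 4 * A ^ 2 * ρ ^ 2 =
    (‖x‖ ^ 2 + (A ^ 2 - B ^ 2) - 2 * A * ρ) * (‖x‖ ^ 2 + (A ^ 2 - B ^ 2) + 2 * A * ρ) := by ring
  rw [e]
  have h2 : 0 < ‖x‖ ^ 2 + (A ^ 2 - B ^ 2) + 2 * A * ρ := by
    have : 0 ≤ 2 * A * ρ := by
      have : 0 < A := by linarith
      positivity
    linarith
  rw [mul_pos_iff_of_pos_right h2, sub_pos]

theorem FF_regular {A B : ℝ} (hB : 0 < B) (hA : B < A) {x : E3} (hx : FF A B x = 0) :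
    fderiv ℝ (FF A B) x ≠ 0 := by
  intro h
  have hk : 0 < A ^ 2 - B ^ 2 := by nlinarith
  have hn : 0 ≤ ‖x‖ ^ 2 := by positivity
  have h2 : x 2 = 0 := by
    have h1 := FF_fderiv A B x (EuclideanSpace.single 2 1)
    rw [h] at h1
    have h3 : inner ℝ x (EuclideanSpace.single (2 : Fin 3) (1:ℝ)) = x 2 := by
      rw [EuclideanSpace.inner_single_right]
      simp
    rw [h3] at h1
    simp at h1
    rcases h1 with h1 | h1
    · nlinarith
    · exact h1
  have h3 := FF_fderiv A B x x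
  rw [h, real_inner_self_eq_norm_sq] at h3
  have h4 := nsq x
  rw [h2] at h4
  have h5 : x 0 ^ 2 + x 1 ^ 2 = ‖x‖ ^ 2 := by rw [h4]; ring
  have h6 : x 0 * x 0 + x 1 * x 1 = ‖x‖ ^ 2 := by rw [← h5]; ring
  rw [h6] at h3
  unfold FF at hx
  rw [h5] at hx
  set N := ‖x‖ ^ 2 with hN
  have h7 : 4 * N * (N + (A ^ 2 - B ^ 2) - 2 * A ^ 2) = 0 := by
    simp at h3
    linarith
  rcases mul_eq_zero.1 h7 with h8 | h8
  · have h9 : N = 0 := by linarith
    rw [h9] at hx
    have : 0 < (0 + (A ^ 2 - B ^ 2)) ^ 2 := by positivity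
    nlinarith
  · have h9 : N = A ^ 2 + B ^ 2 := by linarith
    rw [h9] at hx
    have : 4 * A ^ 2 * B ^ 2 = 0 := by nlinarith
    have hA0 : 0 < A := by linarith
    have : 0 < 4 * A ^ 2 * B ^ 2 := by positivity
    linarith

/-- the solid torus -/
def T (A B : ℝ) : Set E3 := {x | FF A B x ≤ 0}

theorem T_compact {A B : ℝ} (hB : 0 < B) (hA : B < A) : IsCompact (T A B) := by
  have hcl : IsClosed (T A B) := isClosed_le (FF_contDiff A B).continuous continuous_const
  refine (isCompact_closedBall (0 : E3) (2 * A)).of_isClosed_subset hcl ?_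
  intro x hx
  rw [mem_closedBall_zero_iff]
  have h1 : ¬ (0 < FF A B x) := not_lt.2 hx
  rw [FF_pos_iff hB hA, not_lt] at h1
  have hk : 0 < A ^ 2 - B ^ 2 := by nlinarith
  have h2 : √(x 0 ^ 2 + x 1 ^ 2) ≤ ‖x‖ := by
    rw [← Real.sqrt_sq (norm_nonneg x)]
    refine Real.sqrt_le_sqrt ?_
    rw [nsq]
    nlinarith [sq_nonneg (x 2)]
  have hA0 : 0 < A := by linarith
  by_contra h3
  push Not at h3
  have h4 : 0 < ‖x‖ := by linarith
  nlinarith

theorem T_frontier {A B : ℝ} (hB : 0 < B) (hA : B < A) :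
    frontier (T A B) = {x | FF A B x = 0} := by
  have hcont : Continuous (FF A B) := (FF_contDiff A B).continuous
  apply Subset.antisymm
  · exact frontier_le_subset_eq hcont continuous_const
  · intro x hx
    have hx' : FF A B x = 0 := hx
    have hcl : IsClosed (T A B) := isClosed_le hcont continuous_const
    rw [hcl.frontier_eq]
    refine ⟨le_of_eq hx, fun hint => ?_⟩
    have h1 : IsLocalMax (FF A B) x := by
      filter_upwards [mem_interior_iff_mem_nhds.1 hint] with y hy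
      rw [hx']
      exact hy
    exact FF_regular hB hA hx h1.fderiv_eq_zero

theorem T_connected {A B : ℝ} (hB : 0 < B) (hA : B < A) : IsConnected (T A B) := by
  set S : Set (ℝ × ℝ × ℝ) := univ ×ˢ {q : ℝ × ℝ | q.1 ^ 2 + q.2 ^ 2 ≤ B ^ 2} with hS
  set f : ℝ × ℝ × ℝ → E3 := fun q => WithLp.toLp 2 ![(A + q.2.1) * Real.cos q.1,
    (A + q.2.1) * Real.sin q.1, q.2.2] with hf
  have hfc : Continuous f := by
    refine (PiLp.continuous_toLp 2 _).comp ?_
    refine continuous_pi fun i => ?_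
    fin_cases i <;> simp <;> fun_prop
  have hA0 : 0 < A := by linarith
  have hdisk : IsConnected {q : ℝ × ℝ | q.1 ^ 2 + q.2 ^ 2 ≤ B ^ 2} := by
    refine ⟨⟨(0, 0), by simp; positivity⟩, ?_⟩
    refine Convex.isPreconnected ?_
    have : {q : ℝ × ℝ | q.1 ^ 2 + q.2 ^ 2 ≤ B ^ 2} =
        {q : ℝ × ℝ | q ∈ univ ∧ (fun q : ℝ × ℝ => q.1 ^ 2 + q.2 ^ 2) q ≤ B ^ 2} := by
      ext q
      simp
    rw [this]
    refine ConvexOn.convex_le ?_ _
    have h1 : ConvexOn ℝ univ (fun q : ℝ × ℝ => q.1 ^ 2) := by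
      have := (even_two.convexOn_pow (𝕜 := ℝ)).comp_linearMap (LinearMap.fst ℝ ℝ ℝ)
      rw [preimage_univ] at this
      exact this
    have h2 : ConvexOn ℝ univ (fun q : ℝ × ℝ => q.2 ^ 2) := by
      have := (even_two.convexOn_pow (𝕜 := ℝ)).comp_linearMap (LinearMap.snd ℝ ℝ ℝ)
      rw [preimage_univ] at this
      exact this
    exact h1.add h2
  have himg : T A B = f '' S := by
    ext x
    constructor
    · intro hx
      have h1 : ¬ (0 < FF A B x) := not_lt.2 hx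
      rw [FF_pos_iff hB hA, not_lt] at h1
      set ρ := √(x 0 ^ 2 + x 1 ^ 2) with hρ
      have hρ2 : ρ ^ 2 = x 0 ^ 2 + x 1 ^ 2 := Real.sq_sqrt (by positivity)
      set z : ℂ := ⟨x 0, x 1⟩ with hz
      have hnz : ‖z‖ = ρ := by
        rw [Complex.norm_def, Complex.normSq_mk, hρ]
        congr 1
        ring
      refine ⟨(z.arg, ρ - A, x 2), ⟨mem_univ _, ?_⟩, ?_⟩
      · simp only [mem_ofPred_eq]
        rw [nsq] at h1
        nlinarith
      · have h3 := Complex.norm_mul_cos_arg z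
        have h4 := Complex.norm_mul_sin_arg z
        rw [hnz] at h3 h4
        have e0 : f (z.arg, ρ - A, x 2) 0 = x 0 := by
          have : f (z.arg, ρ - A, x 2) 0 = (A + (ρ - A)) * Real.cos z.arg := rfl
          rw [this, add_sub_cancel, h3]
        have e1 : f (z.arg, ρ - A, x 2) 1 = x 1 := by
          have : f (z.arg, ρ - A, x 2) 1 = (A + (ρ - A)) * Real.sin z.arg := rfl
          rw [this, add_sub_cancel, h4]
        ext i
        fin_cases i
        · exact e0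
        · exact e1
        · rfl
    · rintro ⟨q, ⟨-, hq⟩, rfl⟩
      simp only [mem_ofPred_eq] at hq
      have h1 : f q 0 = (A + q.2.1) * Real.cos q.1 := rfl
      have h2 : f q 1 = (A + q.2.1) * Real.sin q.1 := rfl
      have h3 : f q 2 = q.2.2 := rfl
      have hAq : 0 < A + q.2.1 := by nlinarith [sq_nonneg q.2.2]
      have h4 : √((f q 0) ^ 2 + (f q 1) ^ 2) = A + q.2.1 := by
        rw [h1, h2]
        rw [show ((A + q.2.1) * Real.cos q.1) ^ 2 + ((A + q.2.1) * Real.sin q.1) ^ 2 =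
          (A + q.2.1) ^ 2 * (Real.sin q.1 ^ 2 + Real.cos q.1 ^ 2) by ring,
          Real.sin_sq_add_cos_sq, mul_one, Real.sqrt_sq hAq.le]
      show FF A B (f q) ≤ 0
      rw [← not_lt, FF_pos_iff hB hA, not_lt, h4, nsq, h1, h2, h3]
      have := Real.sin_sq_add_cos_sq q.1
      have h5 : ((A + q.2.1) * Real.cos q.1) ^ 2 + ((A + q.2.1) * Real.sin q.1) ^ 2 =
          (A + q.2.1) ^ 2 := by
        rw [show ((A + q.2.1) * Real.cos q.1) ^ 2 + ((A + q.2.1) * Real.sin q.1) ^ 2 =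
          (A + q.2.1) ^ 2 * (Real.sin q.1 ^ 2 + Real.cos q.1 ^ 2) by ring, this, mul_one]
      rw [h5]
      nlinarith
  rw [himg]
  exact (isConnected_univ.prod hdisk).image f hfc.continuousOn

theorem Tc_connected {A B : ℝ} (hB : 0 < B) (hA : B < A) : IsConnected (T A B)ᶜ := by
  have hmem : ∀ x : E3, x ∈ (T A B)ᶜ ↔
      2 * A * √(x 0 ^ 2 + x 1 ^ 2) < ‖x‖ ^ 2 + (A ^ 2 - B ^ 2) := by
    intro x
    rw [← FF_pos_iff hB hA]
    simp [T]
  have hk : 0 < A ^ 2 - B ^ 2 := by nlinarith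
  have h0 : (0 : E3) ∈ (T A B)ᶜ := by
    rw [hmem]
    simp
    exact sub_pos.1 hk
  refine ⟨⟨0, h0⟩, ?_⟩
  refine isPreconnected_of_forall 0 ?_
  intro y hy
  -- the axis
  set ax : Set E3 := {x | x 0 = 0 ∧ x 1 = 0} with hax
  have hax_sub : ax ⊆ (T A B)ᶜ := by
    rintro x ⟨h1, h2⟩
    rw [hmem, h1, h2]
    simp
    positivity
  have hax_conv : Convex ℝ ax := by
    rintro x ⟨h1, h2⟩ z ⟨h3, h4⟩ a b ha hb hab
    exact ⟨by simp [h1, h3], by simp [h2, h4]⟩
  -- general step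
  have hgen : ∀ s : ℝ, s ^ 2 = 1 → 0 ≤ s * y 2 →
      ∃ t ⊆ (T A B)ᶜ, (0 : E3) ∈ t ∧ y ∈ t ∧ IsPreconnected t := by
    intro s hs hys
    set H : Set E3 := {x | B < s * x 2} with hH
    have hH_sub : H ⊆ (T A B)ᶜ := by
      intro x hx
      rw [hmem, nsq]
      have hx' : B < s * x 2 := hx
      have h1 : (√(x 0 ^ 2 + x 1 ^ 2)) ^ 2 = x 0 ^ 2 + x 1 ^ 2 := Real.sq_sqrt (by positivity)
      have h2 : x 2 ^ 2 = (s * x 2) ^ 2 := by rw [mul_pow, hs, one_mul]
      set ρ := √(x 0 ^ 2 + x 1 ^ 2)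
      rw [← h1, h2]
      nlinarith [sq_nonneg (ρ - A)]
    have hH_conv : Convex ℝ H := by
      intro x hx z hz a b ha hb hab
      have hx' : B < s * x 2 := hx
      have hz' : B < s * z 2 := hz
      show B < s * (a • x + b • z) 2
      simp only [PiLp.add_apply, PiLp.smul_apply, smul_eq_mul]
      have e1 : s * (a * x 2 + b * z 2) = a * (s * x 2) + b * (s * z 2) := by ring
      have e2 : B = a * B + b * B := by rw [← add_mul, hab, one_mul]
      rw [e1, e2]
      rcases eq_or_lt_of_le ha with h | h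
      · have hb1 : b = 1 := by linarith
        rw [← h, hb1]
        linarith
      · have e3 := mul_lt_mul_of_pos_left hx' h
        have e4 := mul_le_mul_of_nonneg_left hz'.le hb
        linarith
    set e : E3 := EuclideanSpace.single 2 s with he
    have he0 : e 0 = 0 := by simp [he]
    have he1 : e 1 = 0 := by simp [he]
    have he2 : e 2 = s := by simp [he]
    set R : Set E3 := segment ℝ y (y + (B + 1) • e) with hR
    have hR_sub : R ⊆ (T A B)ᶜ := by
      rintro x ⟨a, b, ha, hb, hab, rfl⟩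
      have h1 : (a • y + b • (y + (B + 1) • e)) = y + (b * (B + 1)) • e := by
        rw [show a = 1 - b by linarith]
        module
      rw [h1, hmem, nsq]
      simp only [PiLp.add_apply, PiLp.smul_apply, smul_eq_mul, he0, he1, he2, mul_zero, add_zero]
      rw [hmem, nsq] at hy
      have h2 : y 2 ^ 2 ≤ (y 2 + b * (B + 1) * s) ^ 2 := by
        have h3 : 0 ≤ b * (B + 1) := by positivity
        nlinarith [mul_nonneg h3 hys, sq_nonneg (b * (B + 1) * s)]
      linarith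
    have h1 : ((B + 1) • e : E3) ∈ H := by
      show B < s * ((B + 1) • e : E3) 2
      simp only [PiLp.smul_apply, smul_eq_mul, he2]
      nlinarith
    have h2 : y + (B + 1) • e ∈ H := by
      show B < s * (y + (B + 1) • e : E3) 2
      simp only [PiLp.add_apply, PiLp.smul_apply, smul_eq_mul, he2]
      nlinarith
    have h3 : ((B + 1) • e : E3) ∈ ax := by
      constructor <;> simp [he0, he1]
    have h4 : (0 : E3) ∈ ax := by constructor <;> simp
    refine ⟨(ax ∪ H) ∪ R, union_subset (union_subset hax_sub hH_sub) hR_sub, Or.inl (Or.inl h4),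
      Or.inr (left_mem_segment ℝ _ _), ?_⟩
    have h5 : IsPreconnected (ax ∪ H) :=
      hax_conv.isPreconnected.union _ h3 h1 hH_conv.isPreconnected
    exact h5.union _ (Or.inr h2) (right_mem_segment ℝ _ _) (convex_segment _ _).isPreconnected
  rcases le_total 0 (y 2) with h | h
  · exact hgen 1 (by norm_num) (by linarith)
  · exact hgen (-1) (by norm_num) (by linarith)

end Pool.Agent.V1180.Tor
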