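import Pool.Agent.V1180.Helm3
import Pool.Agent.V1180.Tor

set_option autoImplicit false
set_option linter.unusedSectionVars false

/-! Two point sources: the integrated Lagrangian. -/

open Set Filter Topology MeasureTheory Metric InnerProductSpace Laplacian
open scoped ContDiff ENNReal

namespace Pool.Agent.V1180.Helm

variable {E : Type} [NormedAddCommGroup E] [InnerProductSpace ℝ E] [FiniteDimensional ℝ E]

/-- comparison function -/
noncomputable def hh (x : E) : ℝ := 2080 / (1 + ‖x‖ ^ 2) ^ 2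

theorem hh_nonneg (x : E) : 0 ≤ hh x := by
  unfold hh
  positivity

section
variable [MeasurableSpace E] [BorelSpace E]

theorem hh_int (h3 : Module.finrank ℝ E = 3) : Integrable (hh : E → ℝ) := by
  have h1 := integrable_rpow_neg_one_add_norm_sq (E := E) (μ := volume) (r := 4)
    (by rw [h3]; norm_num)
  have h2 := h1.const_mul 2080
  refine h2.congr (Eventually.of_forall fun x => ?_)
  simp only []
  unfold hh
  rw [show (-4 / 2 : ℝ) = -(2 : ℕ) by norm_num, Real.rpow_neg (by positivity),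
    Real.rpow_natCast]
  rfl

theorem tail (h3 : Module.finrank ℝ E = 3) {c : ℝ} (hc : 0 < c) :
    ∃ n : ℕ, 3 ≤ n ∧ ∫ x in {x : E | (n : ℝ) < ‖x‖}, hh x < c := by
  have h1 : Tendsto (fun n : ℕ => ∫ x in {x : E | (n : ℝ) < ‖x‖}, hh x) atTop
      (𝓝 (∫ x in ⋂ n : ℕ, {x : E | (n : ℝ) < ‖x‖}, hh x)) := by
    refine tendsto_setIntegral_of_antitone (fun n => ?_) ?_ ⟨0, (hh_int h3).integrableOn⟩
    · exact measurableSet_lt measurable_const measurable_norm
    · intro m n hmn x hx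
      have hx' : (n : ℝ) < ‖x‖ := hx
      have : (m : ℝ) ≤ n := by exact_mod_cast hmn
      exact lt_of_le_of_lt this hx'
  have h2 : (⋂ n : ℕ, {x : E | (n : ℝ) < ‖x‖}) = ∅ := by
    ext x
    simp only [mem_iInter, mem_empty_iff_false, iff_false, not_forall]
    obtain ⟨n, hn⟩ := exists_nat_ge ‖x‖
    exact ⟨n, not_lt.2 hn⟩
  rw [h2, setIntegral_empty] at h1
  have h4 := (h1.eventually (gt_mem_nhds hc)).and (eventually_ge_atTop 3)
  obtain ⟨n, hn1, hn2⟩ := h4.exists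
  exact ⟨n, hn2, hn1⟩

theorem key (h3 : Module.finrank ℝ E = 3) {p : E} (hp : ‖p‖ = 2) {V : Set E} (hV : IsClosed V)
    (hpV : p ∈ V) (hpV' : -p ∈ V) {n : ℝ} (hn : 3 ≤ n) (hball : ball (0 : E) (1 / 8) ⊆ Vᶜ)
    (hslab : ∀ x ∈ Vᶜ, ‖x‖ ≤ n → |inner ℝ x p| ≤ 1 / 2)
    (htail : ∫ x in {x : E | n < ‖x‖}, hh x < 8 / 25 * volume.real (ball (0 : E) (1 / 8))) :
    IntegrableOn (fun x => ‖uu p x‖ ^ 2 - gradSq (uu p) x) Vᶜ ∧
      0 < ∫ x in Vᶜ, (‖uu p x‖ ^ 2 - gradSq (uu p) x) := by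
  have hne : ∀ x ∈ Vᶜ, x ≠ p ∧ x ≠ -p := fun x hx =>
    ⟨fun h => hx (h ▸ hpV), fun h => hx (h ▸ hpV')⟩
  have hmeas : MeasurableSet Vᶜ := hV.measurableSet.compl
  have hD : ∀ x ∈ Vᶜ, ‖uu p x‖ ^ 2 - gradSq (uu p) x = DD ‖x - p‖ ‖x - -p‖ :=
    fun x hx => uu_lagr hp (hne x hx).1 (hne x hx).2
  have hpos : ∀ x ∈ Vᶜ, 0 < ‖x - p‖ ∧ 0 < ‖x - -p‖ := fun x hx =>
    ⟨norm_pos_iff.2 (sub_ne_zero.2 (hne x hx).1), norm_pos_iff.2 (sub_ne_zero.2 (hne x hx).2)⟩
  -- product lower bound near the axis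
  have hP1 : ∀ x ∈ Vᶜ, ‖x‖ ≤ n → |‖x - p‖ - ‖x - -p‖| ≤ 1 / 2 ∧
      ‖x‖ ^ 2 + 31 / 8 ≤ ‖x - p‖ * ‖x - -p‖ := by
    intro x hx hxn
    have h1 := (dist_diff' (x := x) hp).trans (hslab x hx hxn)
    refine ⟨h1, ?_⟩
    have h2 := dist_prod (x := x) hp
    have h4 : (‖x - p‖ - ‖x - -p‖) ^ 2 ≤ 1 / 4 := by
      rw [← sq_abs]
      nlinarith [abs_nonneg (‖x - p‖ - ‖x - -p‖)]
    linarith
  have hP2 : ∀ x : E, n < ‖x‖ → ‖x‖ ^ 2 - 4 ≤ ‖x - p‖ * ‖x - -p‖ := by
    intro x hx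
    have h2 := dist_prod (x := x) hp
    have h4 : (‖x - p‖ - ‖x - -p‖) ^ 2 ≤ 16 := by
      have := dist_diff (x := x) hp
      rw [← sq_abs]
      nlinarith [abs_nonneg (‖x - p‖ - ‖x - -p‖)]
    linarith
  have hlow : ∀ x ∈ Vᶜ, ‖x‖ ≤ n → 8 / (‖x - p‖ * ‖x - -p‖) ^ 2 ≤ DD ‖x - p‖ ‖x - -p‖ := by
    intro x hx hxn
    have h1 := hP1 x hx hxn
    exact DD_lower (hpos x hx).1 (hpos x hx).2 h1.1 (by nlinarith [sq_nonneg ‖x‖, h1.2])
  have habs : ∀ x ∈ Vᶜ, |DD ‖x - p‖ ‖x - -p‖| ≤ hh x := by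
    intro x hx
    have hPge : (1 + ‖x‖ ^ 2) / 2 ≤ ‖x - p‖ * ‖x - -p‖ ∧ 1 ≤ ‖x - p‖ * ‖x - -p‖ := by
      rcases le_or_gt ‖x‖ n with h | h
      · have h1 := (hP1 x hx h).2
        constructor <;> nlinarith [sq_nonneg ‖x‖]
      · have h1 := hP2 x h
        constructor <;> nlinarith [sq_nonneg ‖x‖]
    refine (DD_abs (hpos x hx).1 (hpos x hx).2 (dist_diff hp) hPge.2).trans ?_
    unfold hh
    have h5 : ((1 + ‖x‖ ^ 2) / 2) ^ 2 ≤ (‖x - p‖ * ‖x - -p‖) ^ 2 :=
      pow_le_pow_left₀ (by positivity) hPge.1 2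
    have h6 : (2080 : ℝ) / (1 + ‖x‖ ^ 2) ^ 2 = 520 / ((1 + ‖x‖ ^ 2) / 2) ^ 2 := by
      field_simp
      norm_num
    rw [h6]
    exact div_le_div_of_nonneg_left (by norm_num) (by positivity) h5
  have hcont : ContinuousOn (fun x => DD ‖x - p‖ ‖x - -p‖) Vᶜ := by
    have ha : ContinuousOn (fun x : E => ‖x - p‖) Vᶜ :=
      (continuous_id.sub continuous_const).norm.continuousOn
    have hb : ContinuousOn (fun x : E => ‖x - -p‖) Vᶜ :=
      (continuous_id.sub continuous_const).norm.continuousOn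
    have ha0 : ∀ x ∈ Vᶜ, ‖x - p‖ ≠ 0 := fun x hx => (hpos x hx).1.ne'
    have hb0 : ∀ x ∈ Vᶜ, ‖x - -p‖ ≠ 0 := fun x hx => (hpos x hx).2.ne'
    have hc : ContinuousOn (fun x : E => Real.cos (‖x - p‖ - ‖x - -p‖)) Vᶜ :=
      Real.continuous_cos.comp_continuousOn (ha.sub hb)
    have hs : ContinuousOn (fun x : E => Real.sin (‖x - p‖ - ‖x - -p‖)) Vᶜ :=
      Real.continuous_sin.comp_continuousOn (ha.sub hb)
    unfold DD
    refine ContinuousOn.sub (ContinuousOn.add (ContinuousOn.sub ?_ ?_) ?_) ?_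
    · exact continuousOn_const.div (ha.pow 4) fun x hx => pow_ne_zero _ (ha0 x hx)
    · exact continuousOn_const.div (hb.pow 4) fun x hx => pow_ne_zero _ (hb0 x hx)
    · exact (continuousOn_const.mul hc).div (ha.mul hb) fun x hx =>
        mul_ne_zero (ha0 x hx) (hb0 x hx)
    · refine ContinuousOn.div ?_ ((ha.pow 3).mul (hb.pow 3)) fun x hx =>
        mul_ne_zero (pow_ne_zero _ (ha0 x hx)) (pow_ne_zero _ (hb0 x hx))
      exact (continuousOn_const.mul (((ha.mul hb).add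
        (((ha.sub hb).pow 2).div_const 2)).sub continuousOn_const)).mul
        (((continuousOn_const.add (ha.mul hb)).mul hc).add ((ha.sub hb).mul hs))
  have hint : IntegrableOn (fun x => DD ‖x - p‖ ‖x - -p‖) Vᶜ := by
    refine Integrable.mono' (hh_int h3).integrableOn (hcont.aestronglyMeasurable hmeas) ?_
    refine (ae_restrict_iff' hmeas).2 (Eventually.of_forall fun x hx => ?_)
    rw [Real.norm_eq_abs]
    exact habs x hx
  have hcongr : EqOn (fun x => DD ‖x - p‖ ‖x - -p‖)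
      (fun x => ‖uu p x‖ ^ 2 - gradSq (uu p) x) Vᶜ := fun x hx => (hD x hx).symm
  refine ⟨hint.congr_fun hcongr hmeas, ?_⟩
  rw [← setIntegral_congr_fun hmeas hcongr]
  -- the lower bound
  set S : Set E := {x : E | n < ‖x‖} with hS
  have hSm : MeasurableSet S := measurableSet_lt measurable_const measurable_norm
  have hBm : MeasurableSet (ball (0 : E) (1 / 8)) := measurableSet_ball
  have hg1 : Integrable ((ball (0 : E) (1 / 8)).indicator fun _ => (8 / 25 : ℝ)) :=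
    (integrable_indicator_iff hBm).2 (integrableOn_const measure_ball_lt_top.ne)
  have hg2 : Integrable (S.indicator (hh : E → ℝ)) := (hh_int h3).indicator hSm
  have hle : ∫ x in Vᶜ, ((ball (0 : E) (1 / 8)).indicator (fun _ => (8 / 25 : ℝ)) x -
      S.indicator hh x) ≤ ∫ x in Vᶜ, DD ‖x - p‖ ‖x - -p‖ := by
    refine setIntegral_mono_on (hg1.sub hg2).integrableOn hint hmeas fun x hx => ?_
    rcases le_or_gt ‖x‖ n with h | h
    · have h1 : x ∉ S := not_lt.2 h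
      rw [indicator_of_notMem h1, sub_zero]
      have h2 := hlow x hx h
      by_cases h4 : x ∈ ball (0 : E) (1 / 8)
      · rw [indicator_of_mem h4]
        refine le_trans ?_ h2
        have h5 := dist_prod (x := x) hp
        rw [mem_ball_zero_iff] at h4
        have h6 : ‖x - p‖ * ‖x - -p‖ ≤ 5 := by
          nlinarith [sq_nonneg (‖x - p‖ - ‖x - -p‖), norm_nonneg x]
        have h7 := (hpos x hx)
        have h8 : 0 < ‖x - p‖ * ‖x - -p‖ := mul_pos h7.1 h7.2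
        rw [div_le_div_iff₀ (by norm_num) (by positivity)]
        nlinarith
      · rw [indicator_of_notMem h4]
        exact le_trans (by positivity) h2
    · have h1 : x ∈ S := h
      rw [indicator_of_mem h1]
      have h2 := habs x hx
      have h4 : x ∉ ball (0 : E) (1 / 8) := by
        rw [mem_ball_zero_iff, not_lt]
        linarith
      rw [indicator_of_notMem h4]
      have := neg_abs_le (DD ‖x - p‖ ‖x - -p‖)
      linarith
  refine lt_of_lt_of_le ?_ hle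
  rw [integral_sub hg1.integrableOn hg2.integrableOn]
  have e1 : ∫ x in Vᶜ, (ball (0 : E) (1 / 8)).indicator (fun _ => (8 / 25 : ℝ)) x =
      8 / 25 * volume.real (ball (0 : E) (1 / 8)) := by
    rw [setIntegral_indicator hBm, inter_eq_self_of_subset_right hball, setIntegral_const,
      smul_eq_mul, mul_comm]
  have e2 : ∫ x in Vᶜ, S.indicator hh x ≤ ∫ x in S, hh x := by
    rw [← integral_indicator hSm]
    exact setIntegral_le_integral hg2
      (Eventually.of_forall fun x => indicator_nonneg (fun y _ => hh_nonneg y) x)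
  rw [e1]
  linarith

end

open Tor in
/-- the torus with a thin hole satisfies the assumptions of `key` -/
theorem torus_ok {n : ℝ} (hn : 3 ≤ n) :
    ∃ A B : ℝ, 0 < B ∧ A = B + 1 / 8 ∧
      (EuclideanSpace.single 0 2 : E3) ∈ {x | FF A B x < 0} ∧
      (-(EuclideanSpace.single 0 2) : E3) ∈ {x | FF A B x < 0} ∧
      ball (0 : E3) (1 / 8) ⊆ (T A B)ᶜ ∧
      ∀ x ∈ (T A B)ᶜ, ‖x‖ ≤ n → |inner ℝ x (EuclideanSpace.single 0 2 : E3)| ≤ 1 / 2 := by
  set B : ℝ := 4 * n ^ 2 with hB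
  have hB0 : 36 ≤ B := by nlinarith
  set A : ℝ := B + 1 / 8 with hA
  have hAB : B < A := by linarith
  have hk : A ^ 2 - B ^ 2 = B / 4 + 1 / 64 := by rw [hA]; ring
  have hnp : ‖(EuclideanSpace.single 0 2 : E3)‖ = 2 := by
    rw [PiLp.norm_single]
    norm_num
  refine ⟨A, B, by linarith, hA, ?_, ?_, ?_, ?_⟩
  · show FF A B _ < 0
    unfold FF
    rw [hnp, hk]
    simp
    nlinarith
  · show FF A B _ < 0
    unfold FF
    rw [norm_neg, hnp, hk]
    simp
    nlinarith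
  · intro x hx
    rw [mem_ball_zero_iff] at hx
    show ¬ (FF A B x ≤ 0)
    rw [not_le, FF_pos_iff (by linarith) hAB]
    have h2 : √(x 0 ^ 2 + x 1 ^ 2) ≤ ‖x‖ := by
      rw [← Real.sqrt_sq (norm_nonneg x)]
      refine Real.sqrt_le_sqrt ?_
      rw [nsq]
      nlinarith [sq_nonneg (x 2)]
    have h3 : (√(x 0 ^ 2 + x 1 ^ 2)) ^ 2 ≤ ‖x‖ ^ 2 :=
      pow_le_pow_left₀ (Real.sqrt_nonneg _) h2 2
    have h4 := Real.sqrt_nonneg (x 0 ^ 2 + x 1 ^ 2)
    rw [hk]
    set ρ := √(x 0 ^ 2 + x 1 ^ 2)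
    have h5 : 0 < (1 / 8 - ρ) := by linarith
    nlinarith
  · intro x hx hxn
    have h1 : 0 < FF A B x := not_le.1 hx
    rw [FF_pos_iff (by linarith) hAB, hk] at h1
    have h2 : |x 0| ≤ √(x 0 ^ 2 + x 1 ^ 2) := by
      rw [← Real.sqrt_sq_eq_abs]
      exact Real.sqrt_le_sqrt (by nlinarith [sq_nonneg (x 1)])
    have h3 : inner ℝ x (EuclideanSpace.single (0 : Fin 3) (2:ℝ)) = 2 * x 0 := by
      rw [EuclideanSpace.inner_single_right]
      simp
    rw [h3, abs_mul, abs_two]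
    have h4 : ‖x‖ ^ 2 ≤ n ^ 2 := pow_le_pow_left₀ (norm_nonneg x) hxn 2
    have h5 : 2 * A * |x 0| ≤ B / 2 + 1 / 64 := by
      have : 2 * A * |x 0| ≤ 2 * A * √(x 0 ^ 2 + x 1 ^ 2) :=
        mul_le_mul_of_nonneg_left h2 (by linarith)
      linarith
    by_contra hcon
    push Not at hcon
    nlinarith

end Pool.Agent.V1180.Helm
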