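import Mathlib

set_option autoImplicit false

/-! A polynomial hypergroup on `ℕ` with second Haar weight `15/8`. -/

open Finset

namespace Pool.Agent.V1180.Hyp

/-- nonnegative combinations of `p k`, `lo ≤ k ≤ hi` -/
def Cone (p : ℕ → ℝ → ℝ) (lo hi : ℕ) (f : ℝ → ℝ) : Prop :=
  ∃ g : ℕ → ℝ, (∀ k, 0 ≤ g k) ∧ ∀ x, f x = ∑ k ∈ Icc lo hi, g k * p k x

variable {p : ℕ → ℝ → ℝ}

theorem Cone.mono {lo hi lo' hi' : ℕ} {f : ℝ → ℝ} (h : Cone p lo hi f) (h1 : lo' ≤ lo)
    (h2 : hi ≤ hi') : Cone p lo' hi' f := by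
  obtain ⟨g, hg, hf⟩ := h
  refine ⟨fun k => if k ∈ Icc lo hi then g k else 0, fun k => ?_, fun x => ?_⟩
  · dsimp only
    split_ifs
    · exact hg k
    · exact le_rfl
  · rw [hf x, ← sum_subset (Icc_subset_Icc h1 h2)]
    · refine sum_congr rfl fun k hk => ?_
      dsimp only
      rw [if_pos hk]
    · intro k _ hk
      dsimp only
      rw [if_neg hk, zero_mul]

theorem Cone.add {lo hi : ℕ} {f g : ℝ → ℝ} (hf : Cone p lo hi f) (hg : Cone p lo hi g) :
    Cone p lo hi (fun x => f x + g x) := by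
  obtain ⟨a, ha, hfa⟩ := hf
  obtain ⟨b, hb, hgb⟩ := hg
  refine ⟨fun k => a k + b k, fun k => add_nonneg (ha k) (hb k), fun x => ?_⟩
  dsimp only
  rw [hfa, hgb, ← sum_add_distrib]
  exact sum_congr rfl fun k _ => by ring

theorem Cone.smul {lo hi : ℕ} {f : ℝ → ℝ} (hf : Cone p lo hi f) {r : ℝ} (hr : 0 ≤ r) :
    Cone p lo hi (fun x => r * f x) := by
  obtain ⟨a, ha, hfa⟩ := hf
  refine ⟨fun k => r * a k, fun k => mul_nonneg hr (ha k), fun x => ?_⟩
  dsimp only
  rw [hfa, mul_sum]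
  exact sum_congr rfl fun k _ => by ring

theorem Cone.single {lo hi k : ℕ} (h1 : lo ≤ k) (h2 : k ≤ hi) {r : ℝ} (hr : 0 ≤ r) :
    Cone p lo hi (fun x => r * p k x) := by
  refine ⟨fun j => if j = k then r else 0, fun j => ?_, fun x => ?_⟩
  · dsimp only
    split_ifs
    · exact hr
    · exact le_rfl
  · rw [sum_eq_single_of_mem k (mem_Icc.2 ⟨h1, h2⟩)]
    · dsimp only
      rw [if_pos rfl]
    · intro j _ hj
      dsimp only
      rw [if_neg hj, zero_mul]

theorem Cone.congr {lo hi : ℕ} {f g : ℝ → ℝ} (hf : Cone p lo hi f) (h : ∀ x, g x = f x) :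
    Cone p lo hi g := by
  obtain ⟨a, ha, hfa⟩ := hf
  exact ⟨a, ha, fun x => (h x).trans (hfa x)⟩

/-- the recurrence -/
structure Rec (p : ℕ → ℝ → ℝ) : Prop where
  h0 : ∀ x, p 0 x = 1
  h1 : ∀ x, p 1 x * p 1 x = 2 / 5 * p 0 x + 3 / 5 * p 2 x
  h2 : ∀ x, p 1 x * p 2 x = 4 / 5 * p 1 x + 1 / 5 * p 3 x
  hn : ∀ n x, p 1 x * p (n + 3) x =
    1 / 20 * p (n + 4) x + 47 / 50 * p (n + 3) x + 1 / 100 * p (n + 2) x

theorem Rec.e22 (h : Rec p) (x : ℝ) : p 2 x * p 2 x =
    8 / 15 * p 0 x + 41 / 300 * p 2 x + 47 / 150 * p 3 x + 1 / 60 * p 4 x := by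
  have h0 := h.h0 x
  have h1 := h.h1 x
  have h2 := h.h2 x
  have h3 := h.hn 0 x
  rw [h0] at h1 ⊢
  norm_num at h3
  linear_combination (-5 / 3 * p 2 x) * h1 + 5 / 3 * (p 1 x * h2 + 4 / 5 * h1 + 1 / 5 * h3)

theorem Rec.e23 (h : Rec p) (x : ℝ) : p 2 x * p 3 x =
    1 / 75 * p 1 x + 47 / 3000 * p 2 x + 4861 / 6000 * p 3 x + 47 / 300 * p 4 x +
      1 / 240 * p 5 x := by
  have h0 := h.h0 x
  have h1 := h.h1 x
  have h2 := h.h2 x
  have h3 := h.hn 0 x
  have h4 := h.hn 1 x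
  rw [h0] at h1
  norm_num at h3 h4
  linear_combination (-5 / 3 * p 3 x) * h1 + 5 / 3 * (p 1 x * h3 + 1 / 20 * h4 + 47 / 50 * h3 +
    1 / 100 * h2)

theorem Rec.e2 (h : Rec p) (n : ℕ) (x : ℝ) : p 2 x * p (n + 4) x =
    1 / 6000 * p (n + 2) x + 47 / 1500 * p (n + 3) x + 2423 / 3000 * p (n + 4) x +
      47 / 300 * p (n + 5) x + 1 / 240 * p (n + 6) x := by
  have h0 := h.h0 x
  have h1 := h.h1 x
  have h3 := h.hn n x
  have h4 := h.hn (n + 1) x
  have h5 := h.hn (n + 2) x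
  rw [h0] at h1
  simp only [add_assoc] at h3 h4 h5 ⊢
  norm_num at h3 h4 h5
  linear_combination (-5 / 3 * p (n + 4) x) * h1 + 5 / 3 * (p 1 x * h4 + 1 / 20 * h5 +
    47 / 50 * h4 + 1 / 100 * h3)

theorem Rec.e33 (h : Rec p) (x : ℝ) : p 3 x * p 3 x =
    2 / 75 * p 0 x + 47 / 750 * p 1 x + 4861 / 120000 * p 2 x + 4277 / 60000 * p 3 x +
      8869 / 12000 * p 4 x + 47 / 800 * p 5 x + 1 / 960 * p 6 x := by
  have h0 := h.h0 x
  have h1 := h.h1 x
  have h2 := h.h2 x
  have h3 := h.hn 0 x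
  have h4 := h.hn 1 x
  have h5 := h.hn 2 x
  have h6 := h.e23 x
  norm_num at h3 h4 h5
  linear_combination (-5 * p 3 x) * h2 + 5 * (p 1 x * h6 + 1 / 75 * h1 + 47 / 3000 * h2 +
    4861 / 6000 * h3 + 47 / 300 * h4 + 1 / 240 * h5) - 4 * h3

theorem Rec.e34 (h : Rec p) (x : ℝ) : p 3 x * p 4 x =
    1 / 1500 * p 1 x + 47 / 30000 * p 2 x + 8869 / 60000 * p 3 x + 517 / 10000 * p 4 x +
      17723 / 24000 * p 5 x + 47 / 800 * p 6 x + 1 / 960 * p 7 x := by
  have h2 := h.h2 x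
  have h3 := h.hn 0 x
  have h4 := h.hn 1 x
  have h5 := h.hn 2 x
  have h5' := h.hn 3 x
  have h6 := h.e2 0 x
  norm_num at h3 h4 h5 h5' h6
  linear_combination (-5 * p 4 x) * h2 + 5 * (p 1 x * h6 + 1 / 6000 * h2 + 47 / 1500 * h3 +
    2423 / 3000 * h4 + 47 / 300 * h5 + 1 / 240 * h5') - 4 * h4

theorem Rec.e3 (h : Rec p) (n : ℕ) (x : ℝ) : p 3 x * p (n + 5) x =
    1 / 120000 * p (n + 2) x + 47 / 20000 * p (n + 3) x + 17723 / 120000 * p (n + 4) x +
      517 / 10000 * p (n + 5) x + 17723 / 24000 * p (n + 6) x + 47 / 800 * p (n + 7) x +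
      1 / 960 * p (n + 8) x := by
  have h2 := h.h2 x
  have h3 := h.hn n x
  have h4 := h.hn (n + 1) x
  have h5 := h.hn (n + 2) x
  have h5' := h.hn (n + 3) x
  have h5'' := h.hn (n + 4) x
  have h6 := h.e2 (n + 1) x
  simp only [add_assoc] at h3 h4 h5 h5' h5'' h6 ⊢
  norm_num at h3 h4 h5 h5' h5'' h6
  linear_combination (-5 * p (n + 5) x) * h2 + 5 * (p 1 x * h6 + 1 / 6000 * h3 + 47 / 1500 * h4 +
    2423 / 3000 * h5 + 47 / 300 * h5' + 1 / 240 * h5'') - 4 * h5

/-- the commutator identity -/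
theorem Rec.dd (h : Rec p) (m n : ℕ) (x : ℝ) :
    p (m + 4) x * p (n + 3) x - p (m + 3) x * p (n + 4) x =
      1 / 5 * (p (m + 3) x * p (n + 2) x - p (m + 2) x * p (n + 3) x) := by
  have h1 := h.hn m x
  have h2 := h.hn n x
  linear_combination (-20 * p (n + 3) x) * h1 + (20 * p (m + 3) x) * h2

theorem Rec.dd' (h : Rec p) (m n : ℕ) (x : ℝ) :
    p (m + 3) x * p (n + m + 2) x - p (m + 2) x * p (n + m + 3) x =
      (1 / 5) ^ m * (p 3 x * p (n + 2) x - p 2 x * p (n + 3) x) := by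
  induction m with
  | zero => simp
  | succ m ih =>
    have h1 := h.dd m (n + m) x
    have e1 : n + (m + 1) + 2 = n + m + 3 := by ring
    have e2 : n + (m + 1) + 3 = n + m + 4 := by ring
    have e3 : m + 1 + 3 = m + 4 := by ring
    have e4 : m + 1 + 2 = m + 3 := by ring
    rw [e1, e2, e3, e4, h1, ih, pow_succ]
    ring

/-- the reserve -/
noncomputable def Y (p : ℕ → ℝ → ℝ) (n : ℕ) (x : ℝ) : ℝ :=
  1 / 50 * p (n + 2) x + 1 / 50 * p (n + 3) x + 1 / 1000 * p (n + 4) x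

/-- `Y_l + q E_{l-2} - q Y_{l-2} ∈ Cone` with `l = n + 5`; here `Y p n` is `Y_{n+3}` -/
theorem Rec.step (h : Rec p) (n : ℕ) : Cone p n (n + 8) (fun x => Y p (n + 2) x +
    1 / 5 * (p 3 x * p (n + 3) x - p 2 x * p (n + 4) x) - 1 / 5 * Y p n x) := by
  rcases n with _ | _ | n
  · have key : ∀ x, Y p (0 + 2) x + 1 / 5 * (p 3 x * p (0 + 3) x - p 2 x * p (0 + 4) x) -
        1 / 5 * Y p 0 x = 2 / 375 * p 0 x + 47 / 3750 * p 1 x +
        (4841 / 600000 - 1 / 250) * p 2 x + (799 / 100000 - 1 / 250) * p 3 x +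
        (1 / 50 - 823 / 60000 - 1 / 5000) * p 4 x + (1 / 50 - 47 / 2400) * p 5 x +
        (1 / 1000 - 1 / 1600) * p 6 x := by
      intro x
      have e1 := h.e33 x
      have e2 := h.e2 0 x
      unfold Y
      norm_num at e1 e2 ⊢
      linear_combination 1 / 5 * e1 - 1 / 5 * e2
    refine Cone.congr ?_ key
    refine (((((((Cone.single ?_ ?_ ?_).add (Cone.single ?_ ?_ ?_)).add
      (Cone.single ?_ ?_ ?_)).add (Cone.single ?_ ?_ ?_)).add (Cone.single ?_ ?_ ?_)).add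
      (Cone.single ?_ ?_ ?_)).add (Cone.single ?_ ?_ ?_)) <;> first | omega | norm_num
  · have key : ∀ x, Y p (0 + 1 + 2) x + 1 / 5 * (p 3 x * p (0 + 1 + 3) x -
        p 2 x * p (0 + 1 + 4) x) - 1 / 5 * Y p (0 + 1) x = 1 / 7500 * p 1 x +
        47 / 150000 * p 2 x + (2953 / 100000 - 1 / 250) * p 3 x +
        (611 / 150000 - 1 / 250) * p 4 x +
        (1 / 50 - 1661 / 120000 - 1 / 5000) * p 5 x + (1 / 50 - 47 / 2400) * p 6 x +
        (1 / 1000 - 1 / 1600) * p 7 x := by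
      intro x
      have e1 := h.e34 x
      have e2 := h.e2 1 x
      unfold Y
      norm_num at e1 e2 ⊢
      linear_combination 1 / 5 * e1 - 1 / 5 * e2
    refine Cone.congr ?_ key
    refine (((((((Cone.single ?_ ?_ ?_).add (Cone.single ?_ ?_ ?_)).add
      (Cone.single ?_ ?_ ?_)).add (Cone.single ?_ ?_ ?_)).add (Cone.single ?_ ?_ ?_)).add
      (Cone.single ?_ ?_ ?_)).add (Cone.single ?_ ?_ ?_)) <;> first | omega | norm_num
  · have key : ∀ x, Y p (n + 1 + 1 + 2) x + 1 / 5 * (p 3 x * p (n + 1 + 1 + 3) x -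
        p 2 x * p (n + 1 + 1 + 4) x) - 1 / 5 * Y p (n + 1 + 1) x = 1 / 600000 * p (n + 2) x +
        47 / 100000 * p (n + 3) x + (5901 / 200000 - 1 / 250) * p (n + 4) x +
        (611 / 150000 - 1 / 250) * p (n + 5) x +
        (1 / 50 - 1661 / 120000 - 1 / 5000) * p (n + 6) x + (1 / 50 - 47 / 2400) * p (n + 7) x +
        (1 / 1000 - 1 / 1600) * p (n + 8) x := by
      intro x
      have e1 := h.e3 n x
      have e2 := h.e2 (n + 2) x
      unfold Y
      simp only [add_assoc] at e1 e2 ⊢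
      norm_num at e1 e2 ⊢
      linear_combination 1 / 5 * e1 - 1 / 5 * e2
    refine Cone.congr ?_ key
    refine (((((((Cone.single ?_ ?_ ?_).add (Cone.single ?_ ?_ ?_)).add
      (Cone.single ?_ ?_ ?_)).add (Cone.single ?_ ?_ ?_)).add (Cone.single ?_ ?_ ?_)).add
      (Cone.single ?_ ?_ ?_)).add (Cone.single ?_ ?_ ?_)) <;> first | omega | norm_num

theorem Rec.base (h : Rec p) (n : ℕ) :
    Cone p n (n + 6) (fun x => p 3 x * p (n + 3) x - Y p n x) := by
  rcases n with _ | _ | n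
  · have key : ∀ x, p 3 x * p (0 + 3) x - Y p 0 x = 2 / 75 * p 0 x + 47 / 750 * p 1 x +
        (4861 / 120000 - 1 / 50) * p 2 x + (4277 / 60000 - 1 / 50) * p 3 x +
        (8869 / 12000 - 1 / 1000) * p 4 x + 47 / 800 * p 5 x + 1 / 960 * p 6 x := by
      intro x
      have e1 := h.e33 x
      unfold Y
      norm_num at e1 ⊢
      linear_combination e1
    refine Cone.congr ?_ key
    refine (((((((Cone.single ?_ ?_ ?_).add (Cone.single ?_ ?_ ?_)).add
      (Cone.single ?_ ?_ ?_)).add (Cone.single ?_ ?_ ?_)).add (Cone.single ?_ ?_ ?_)).add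
      (Cone.single ?_ ?_ ?_)).add (Cone.single ?_ ?_ ?_)) <;> first | omega | norm_num
  · have key : ∀ x, p 3 x * p (0 + 1 + 3) x - Y p (0 + 1) x = 1 / 1500 * p 1 x +
        47 / 30000 * p 2 x + (8869 / 60000 - 1 / 50) * p 3 x +
        (517 / 10000 - 1 / 50) * p 4 x + (17723 / 24000 - 1 / 1000) * p 5 x +
        47 / 800 * p 6 x + 1 / 960 * p 7 x := by
      intro x
      have e1 := h.e34 x
      unfold Y
      norm_num at e1 ⊢
      linear_combination e1
    refine Cone.congr ?_ key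
    refine (((((((Cone.single ?_ ?_ ?_).add (Cone.single ?_ ?_ ?_)).add
      (Cone.single ?_ ?_ ?_)).add (Cone.single ?_ ?_ ?_)).add (Cone.single ?_ ?_ ?_)).add
      (Cone.single ?_ ?_ ?_)).add (Cone.single ?_ ?_ ?_)) <;> first | omega | norm_num
  · have key : ∀ x, p 3 x * p (n + 1 + 1 + 3) x - Y p (n + 1 + 1) x =
        1 / 120000 * p (n + 2) x +
        47 / 20000 * p (n + 3) x + (17723 / 120000 - 1 / 50) * p (n + 4) x +
        (517 / 10000 - 1 / 50) * p (n + 5) x + (17723 / 24000 - 1 / 1000) * p (n + 6) x +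
        47 / 800 * p (n + 7) x + 1 / 960 * p (n + 8) x := by
      intro x
      have e1 := h.e3 n x
      unfold Y
      simp only [add_assoc] at e1 ⊢
      norm_num at e1 ⊢
      linear_combination e1
    refine Cone.congr ?_ key
    refine (((((((Cone.single ?_ ?_ ?_).add (Cone.single ?_ ?_ ?_)).add
      (Cone.single ?_ ?_ ?_)).add (Cone.single ?_ ?_ ?_)).add (Cone.single ?_ ?_ ?_)).add
      (Cone.single ?_ ?_ ?_)).add (Cone.single ?_ ?_ ?_)) <;> first | omega | norm_num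

theorem Y_cone (n : ℕ) : Cone p n (n + 6) (Y p n) := by
  have : Cone p n (n + 6) (fun x => 1 / 50 * p (n + 2) x + 1 / 50 * p (n + 3) x +
      1 / 1000 * p (n + 4) x) := by
    refine (((Cone.single ?_ ?_ ?_).add (Cone.single ?_ ?_ ?_)).add (Cone.single ?_ ?_ ?_)) <;>
      first | omega | norm_num
  exact this

theorem Rec.main (h : Rec p) (m : ℕ) : ∀ n : ℕ, Cone p n (n + 2 * m + 6)
    (fun x => p (m + 3) x * p (n + m + 3) x - (1 / 5) ^ m * Y p n x) := by
  induction m with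
  | zero =>
    intro n
    refine ((h.base n).mono le_rfl (by omega)).congr fun x => ?_
    simp
  | succ m ih =>
    intro n
    have h1 := (ih (n + 2)).mono (lo' := n) (hi' := n + 2 * (m + 1) + 6) (by omega) (by omega)
    have h2 := ((h.step n).mono (lo' := n) (hi' := n + 2 * (m + 1) + 6) le_rfl (by omega)).smul
      (r := (1 / 5) ^ m) (by positivity)
    refine (h1.add h2).congr fun x => ?_
    have h3 := h.dd' (m + 1) (n + 1) x
    have e1 : m + 1 + 3 = m + 4 := by ring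
    have e2 : n + (m + 1) + 3 = n + m + 4 := by ring
    have e3 : n + 1 + (m + 1) + 2 = n + m + 4 := by ring
    have e4 : m + 1 + 2 = m + 3 := by ring
    have e5 : n + 1 + (m + 1) + 3 = n + m + 5 := by ring
    have e6 : n + 2 + m + 3 = n + m + 5 := by ring
    have e7 : n + 1 + 2 = n + 3 := by ring
    have e8 : n + 1 + 3 = n + 4 := by ring
    rw [e1, e3, e4, e5, e7, e8] at h3
    rw [e1, e2, e6, pow_succ]
    rw [pow_succ] at h3
    linear_combination h3

theorem Rec.le (h : Rec p) (m d : ℕ) :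
    Cone p d (m + d + m) (fun x => p m x * p (m + d) x) := by
  rcases m with _ | _ | _ | m
  · refine (Cone.single (k := d) (r := 1) (by omega) (by omega) zero_le_one).congr fun x => ?_
    rw [h.h0, zero_add]
  · rcases d with _ | _ | d
    · have : Cone p 0 (1 + 0 + 1) (fun x => 2 / 5 * p 0 x + 3 / 5 * p 2 x) := by
        refine ((Cone.single ?_ ?_ ?_).add (Cone.single ?_ ?_ ?_)) <;> norm_num
      exact this.congr fun x => h.h1 x
    · have : Cone p 1 (1 + 1 + 1) (fun x => 4 / 5 * p 1 x + 1 / 5 * p 3 x) := by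
        refine ((Cone.single ?_ ?_ ?_).add (Cone.single ?_ ?_ ?_)) <;> norm_num
      exact this.congr fun x => h.h2 x
    · have : Cone p (d + 2) (1 + (d + 2) + 1) (fun x => 1 / 20 * p (d + 4) x +
          47 / 50 * p (d + 3) x + 1 / 100 * p (d + 2) x) := by
        refine (((Cone.single ?_ ?_ ?_).add (Cone.single ?_ ?_ ?_)).add
          (Cone.single ?_ ?_ ?_)) <;> first | omega | norm_num
      refine this.congr fun x => ?_
      have := h.hn d x
      rw [← this]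
      congr 2
      omega
  · rcases d with _ | _ | d
    · have : Cone p 0 (2 + 0 + 2) (fun x => 8 / 15 * p 0 x + 41 / 300 * p 2 x +
          47 / 150 * p 3 x + 1 / 60 * p 4 x) := by
        refine ((((Cone.single ?_ ?_ ?_).add (Cone.single ?_ ?_ ?_)).add
          (Cone.single ?_ ?_ ?_)).add (Cone.single ?_ ?_ ?_)) <;> norm_num
      exact this.congr fun x => h.e22 x
    · have : Cone p 1 (2 + 1 + 2) (fun x => 1 / 75 * p 1 x + 47 / 3000 * p 2 x +
          4861 / 6000 * p 3 x + 47 / 300 * p 4 x + 1 / 240 * p 5 x) := by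
        refine (((((Cone.single ?_ ?_ ?_).add (Cone.single ?_ ?_ ?_)).add
          (Cone.single ?_ ?_ ?_)).add (Cone.single ?_ ?_ ?_)).add (Cone.single ?_ ?_ ?_)) <;>
          norm_num
      exact this.congr fun x => h.e23 x
    · have : Cone p (d + 2) (2 + (d + 2) + 2) (fun x => 1 / 6000 * p (d + 2) x +
          47 / 1500 * p (d + 3) x + 2423 / 3000 * p (d + 4) x +
          47 / 300 * p (d + 5) x + 1 / 240 * p (d + 6) x) := by
        refine (((((Cone.single ?_ ?_ ?_).add (Cone.single ?_ ?_ ?_)).add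
          (Cone.single ?_ ?_ ?_)).add (Cone.single ?_ ?_ ?_)).add (Cone.single ?_ ?_ ?_)) <;>
          first | omega | norm_num
      refine this.congr fun x => ?_
      rw [← h.e2 d x]
      congr 2
      omega
  · have h1 := (h.main m d).mono (lo' := d) (hi' := m + 3 + d + (m + 3)) le_rfl (by omega)
    have h2 := ((Y_cone (p := p) d).mono (lo' := d) (hi' := m + 3 + d + (m + 3)) le_rfl
      (by omega)).smul (r := (1 / 5) ^ m) (by positivity)
    refine (h1.add h2).congr fun x => ?_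
    have e1 : m + 1 + 1 + 1 = m + 3 := by ring
    have e2 : m + 3 + d = d + m + 3 := by ring
    rw [e1, e2]
    ring

/-- nonnegative linearization -/
theorem Rec.lin (h : Rec p) (m n : ℕ) :
    Cone p (max m n - min m n) (m + n) (fun x => p m x * p n x) := by
  rcases le_total m n with h1 | h1
  · obtain ⟨d, rfl⟩ := Nat.exists_eq_add_of_le h1
    rw [max_eq_right h1, min_eq_left h1]
    exact (h.le m d).mono (by omega) (by omega)
  · obtain ⟨d, rfl⟩ := Nat.exists_eq_add_of_le h1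
    rw [max_eq_left h1, min_eq_right h1]
    refine ((h.le n d).mono (by omega) (by omega)).congr fun x => ?_
    ring

end Pool.Agent.V1180.Hyp
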