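import Mathlib

/-!
# Transfinite diameter of a set between a circle and its closed disc
-/

namespace Pool.Agent.V1180.LP

open Filter Topology Set Matrix
open scoped BigOperators ComplexConjugate ComplexOrder

/-- The `n`-th diameter of `K`: the supremum of `∏_{i<j} |z_i - z_j|^{2/(n(n-1))}` over all
`z_1, ..., z_n` in `K`. -/
noncomputable def diamN (K : Set ℂ) (n : ℕ) : ℝ :=
  sSup {t | ∃ z : Fin n → ℂ, (∀ i, z i ∈ K) ∧
    t = ∏ i, ∏ j ∈ Finset.Ioi i, ‖z i - z j‖ ^ ((2 : ℝ) / (n * (n - 1)))}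

/-- `T` is the transfinite diameter of `K`. -/
def IsTransfiniteDiameter (K : Set ℂ) (T : ℝ) : Prop := Tendsto (diamN K) atTop (𝓝 T)

theorem vand_norm {n : ℕ} (z : Fin n → ℂ) :
    ‖(vandermonde z).det‖ = ∏ i, ∏ j ∈ Finset.Ioi i, ‖z i - z j‖ := by
  rw [det_vandermonde, norm_prod]
  refine Finset.prod_congr rfl fun i _ => ?_
  rw [norm_prod]
  exact Finset.prod_congr rfl fun j _ => norm_sub_rev _ _

theorem vand_scale {n : ℕ} (z : Fin n → ℂ) (R : ℂ) :
    (vandermonde fun i => R * z i).det = R ^ (∑ k ∈ Finset.range n, k) * (vandermonde z).det := by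
  have h : (vandermonde fun i => R * z i) = vandermonde z * diagonal fun k : Fin n => R ^ (k : ℕ) := by
    ext i k
    rw [mul_diagonal, vandermonde_apply, vandermonde_apply, mul_pow]
    ring
  rw [h, det_mul, det_diagonal, mul_comm, Finset.prod_pow_eq_pow_sum, Finset.sum_range]

theorem det_sq_le {n : ℕ} (hn : 0 < n) (A : Matrix (Fin n) (Fin n) ℂ)
    (hA : ∀ i k, ‖A i k‖ ≤ 1) : ‖A.det‖ ^ 2 ≤ (n : ℝ) ^ n := by
  set H : Matrix (Fin n) (Fin n) ℂ := A * Aᴴ with hH
  have hP : H.PosSemidef := posSemidef_self_mul_conjTranspose A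
  have hdet : H.det = ((‖A.det‖ ^ 2 : ℝ) : ℂ) := by
    rw [hH, det_mul, det_conjTranspose]
    have : A.det * star A.det = A.det * conj A.det := rfl
    rw [this, Complex.mul_conj, Complex.normSq_eq_norm_sq]
  have htr : H.trace.re ≤ (n : ℝ) * n := by
    rw [trace, Complex.re_sum]
    have h1 : ∀ i, (H.diag i).re ≤ n := by
      intro i
      rw [diag_apply, hH, mul_apply, Complex.re_sum]
      have h2 : ∀ k, (A i k * Aᴴ k i).re ≤ 1 := by
        intro k
        rw [conjTranspose_apply]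
        refine (Complex.re_le_norm _).trans ?_
        rw [norm_mul, norm_star]
        exact mul_le_one₀ (hA i k) (norm_nonneg _) (hA i k)
      refine (Finset.sum_le_sum fun k _ => h2 k).trans ?_
      simp
    refine (Finset.sum_le_sum fun i _ => h1 i).trans ?_
    simp
  have e1 : ‖A.det‖ ^ 2 = ∏ i, hP.1.eigenvalues i := by
    have h1 := hP.1.det_eq_prod_eigenvalues
    rw [hdet] at h1
    have h2 : ((‖A.det‖ ^ 2 : ℝ) : ℂ) = ((∏ i, hP.1.eigenvalues i : ℝ) : ℂ) := by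
      rw [h1]
      change (∏ i, ((hP.1.eigenvalues i : ℝ) : ℂ)) = _
      push_cast
      rfl
    exact_mod_cast h2
  have e2 : H.trace.re = ∑ i, hP.1.eigenvalues i := by
    have h2 := hP.1.trace_eq_sum_eigenvalues
    rw [h2]
    change (∑ i, ((hP.1.eigenvalues i : ℝ) : ℂ)).re = _
    rw [← Complex.ofReal_sum, Complex.ofReal_re]
  have hp := hP.eigenvalues_nonneg
  have hn' : (0 : ℝ) < n := by exact_mod_cast hn
  have h3 : ∏ i, (hP.1.eigenvalues i / n) ≤ 1 := by
    calc ∏ i, (hP.1.eigenvalues i / n) ≤ ∏ i, Real.exp (hP.1.eigenvalues i / n - 1) := by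
          refine Finset.prod_le_prod (fun i _ => div_nonneg (hp i) hn'.le) fun i _ => ?_
          have := Real.add_one_le_exp (hP.1.eigenvalues i / n - 1)
          linarith
      _ = Real.exp (∑ i, (hP.1.eigenvalues i / n - 1)) := by rw [Real.exp_sum]
      _ ≤ Real.exp 0 := by
          refine Real.exp_le_exp.2 ?_
          rw [Finset.sum_sub_distrib, ← Finset.sum_div, ← e2]
          simp only [Finset.sum_const, Finset.card_univ, Fintype.card_fin, nsmul_eq_mul, mul_one]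
          have : H.trace.re / n ≤ n := by
            rw [div_le_iff₀ hn']
            exact htr
          linarith
      _ = 1 := Real.exp_zero
  rw [Finset.prod_div_distrib] at h3
  simp only [Finset.prod_const, Finset.card_univ, Fintype.card_fin] at h3
  rw [div_le_one (by positivity), ← e1] at h3
  exact h3

theorem vand_le {n : ℕ} (hn : 0 < n) {R : ℝ} (hR : 0 < R) (z : Fin n → ℂ) (hz : ∀ i, ‖z i‖ ≤ R) :
    (∏ i, ∏ j ∈ Finset.Ioi i, ‖z i - z j‖) ^ 2 ≤ R ^ (n * (n - 1)) * (n : ℝ) ^ n := by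
  have hRC : (R : ℂ) ≠ 0 := by exact_mod_cast hR.ne'
  have e : z = fun i => (R : ℂ) * (z i / R) := by
    funext i
    field_simp
  have hw : ∀ i, ‖z i / (R : ℂ)‖ ≤ 1 := by
    intro i
    rw [norm_div, Complex.norm_real, Real.norm_eq_abs, abs_of_pos hR, div_le_one hR]
    exact hz i
  rw [← vand_norm]
  have h1 : (vandermonde z).det
      = (R : ℂ) ^ (∑ k ∈ Finset.range n, k) * (vandermonde fun i => z i / (R : ℂ)).det := by
    rw [← vand_scale, ← e]
  rw [h1, norm_mul, norm_pow, Complex.norm_real, Real.norm_eq_abs, abs_of_pos hR, mul_pow,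
    ← pow_mul, Finset.sum_range_id_mul_two]
  refine mul_le_mul_of_nonneg_left ?_ (by positivity)
  refine det_sq_le hn _ fun i k => ?_
  rw [vandermonde_apply, norm_pow]
  exact pow_le_one₀ (norm_nonneg _) (hw i)

theorem vand_eq {n : ℕ} (hn : 0 < n) {R : ℝ} (hR : 0 < R) :
    ∃ z : Fin n → ℂ, (∀ i, ‖z i‖ = R) ∧
      (∏ i, ∏ j ∈ Finset.Ioi i, ‖z i - z j‖) ^ 2 = R ^ (n * (n - 1)) * (n : ℝ) ^ n := by
  have hn0 : n ≠ 0 := hn.ne'
  set ζ : ℂ := Complex.exp (2 * Real.pi * Complex.I / n) with hζ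
  have hprim : IsPrimitiveRoot ζ n := Complex.isPrimitiveRoot_exp n hn0
  have hnorm : ‖ζ‖ = 1 := hprim.norm'_eq_one hn0
  refine ⟨fun i => (R : ℂ) * ζ ^ (i : ℕ), fun i => ?_, ?_⟩
  · rw [norm_mul, norm_pow, hnorm, one_pow, mul_one, Complex.norm_real, Real.norm_eq_abs,
      abs_of_pos hR]
  · rw [← vand_norm, vand_scale, norm_mul, norm_pow, Complex.norm_real, Real.norm_eq_abs,
      abs_of_pos hR, mul_pow, ← pow_mul, Finset.sum_range_id_mul_two]
    congr 1
    set A : Matrix (Fin n) (Fin n) ℂ := vandermonde fun i : Fin n => ζ ^ (i : ℕ) with hA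
    have h1 : A * Aᴴ = Matrix.diagonal fun _ => (n : ℂ) := by
      ext i j
      rw [mul_apply, Matrix.diagonal_apply]
      have hζ0 : ζ ≠ 0 := by
        intro h
        rw [h] at hnorm
        simp at hnorm
      have hconj : conj ζ = ζ⁻¹ := by
        rw [Complex.inv_def, Complex.normSq_eq_norm_sq, hnorm]
        simp
      have h2 : ∀ k : Fin n, A i k * Aᴴ k j = (ζ ^ (i : ℕ) * (ζ ^ (j : ℕ))⁻¹) ^ (k : ℕ) := by
        intro k
        rw [conjTranspose_apply, hA, vandermonde_apply, vandermonde_apply]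
        have : star ((ζ ^ (j : ℕ)) ^ (k : ℕ)) = conj ((ζ ^ (j : ℕ)) ^ (k : ℕ)) := rfl
        rw [this, map_pow, map_pow, hconj, mul_pow, inv_pow]
      rw [Finset.sum_congr rfl fun k _ => h2 k, ← Finset.sum_range (fun k =>
        (ζ ^ (i : ℕ) * (ζ ^ (j : ℕ))⁻¹) ^ k)]
      by_cases hij : i = j
      · subst hij
        rw [if_pos rfl, mul_inv_cancel₀ (pow_ne_zero _ hζ0)]
        simp
      · rw [if_neg hij]
        set x : ℂ := ζ ^ (i : ℕ) * (ζ ^ (j : ℕ))⁻¹ with hx
        have hx1 : x ≠ 1 := by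
          intro h
          rw [hx, mul_inv_eq_one₀ (pow_ne_zero _ hζ0)] at h
          exact hij (Fin.ext (hprim.pow_inj i.2 j.2 h))
        have hxn : x ^ n = 1 := by
          rw [hx, mul_pow, inv_pow, ← pow_mul, ← pow_mul, mul_comm (i : ℕ), mul_comm (j : ℕ),
            pow_mul, pow_mul, hprim.pow_eq_one]
          simp
        have := mul_neg_geom_sum x n
        rw [hxn, sub_self] at this
        rcases mul_eq_zero.1 this with h | h
        · exact absurd (sub_eq_zero.1 h).symm hx1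
        · exact h
    have h2 : (A * Aᴴ).det = ((‖A.det‖ ^ 2 : ℝ) : ℂ) := by
      rw [det_mul, det_conjTranspose]
      have : A.det * star A.det = A.det * conj A.det := rfl
      rw [this, Complex.mul_conj, Complex.normSq_eq_norm_sq]
    rw [h1, det_diagonal] at h2
    simp only [Finset.prod_const, Finset.card_univ, Fintype.card_fin] at h2
    exact_mod_cast h2.symm

theorem prod_rpow {n : ℕ} (z : Fin n → ℂ) (a : ℝ) :
    ∏ i, ∏ j ∈ Finset.Ioi i, ‖z i - z j‖ ^ a = (∏ i, ∏ j ∈ Finset.Ioi i, ‖z i - z j‖) ^ a := by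
  have h1 : ∀ i, ∏ j ∈ Finset.Ioi i, ‖z i - z j‖ ^ a = (∏ j ∈ Finset.Ioi i, ‖z i - z j‖) ^ a :=
    fun i => Real.finsetProd_rpow _ _ (fun j _ => norm_nonneg _) a
  rw [Finset.prod_congr rfl fun i _ => h1 i]
  exact Real.finsetProd_rpow _ _ (fun i _ => Finset.prod_nonneg fun j _ => norm_nonneg _) a

theorem value {n : ℕ} (hn : 2 ≤ n) {R V : ℝ} (hR : 0 < R) (hV : 0 ≤ V)
    (h : V ^ 2 ≤ R ^ (n * (n - 1)) * (n : ℝ) ^ n) :
    V ^ ((2 : ℝ) / (n * (n - 1))) ≤ R * (n : ℝ) ^ ((1 : ℝ) / (n - 1)) ∧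
    (V ^ 2 = R ^ (n * (n - 1)) * (n : ℝ) ^ n →
      V ^ ((2 : ℝ) / (n * (n - 1))) = R * (n : ℝ) ^ ((1 : ℝ) / (n - 1))) := by
  have hn' : (2 : ℝ) ≤ n := by exact_mod_cast hn
  have hn0 : (0 : ℝ) < n := by linarith
  have hn1 : (0 : ℝ) < (n : ℝ) - 1 := by linarith
  have hm : (0 : ℝ) < n * (n - 1) := by positivity
  have e1 : V ^ ((2 : ℝ) / (n * (n - 1))) = (V ^ 2) ^ ((1 : ℝ) / (n * (n - 1))) := by
    rw [← Real.rpow_natCast V 2, ← Real.rpow_mul hV]
    congr 1
    push_cast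
    ring
  have e2 : (R ^ (n * (n - 1)) * (n : ℝ) ^ n) ^ ((1 : ℝ) / (n * (n - 1)))
      = R * (n : ℝ) ^ ((1 : ℝ) / (n - 1)) := by
    rw [Real.mul_rpow (by positivity) (by positivity)]
    congr 1
    · rw [← Real.rpow_natCast R, ← Real.rpow_mul hR.le]
      have : ((n * (n - 1) : ℕ) : ℝ) * (1 / (n * (n - 1))) = 1 := by
        rw [Nat.cast_mul, Nat.cast_sub (by omega)]
        push_cast
        field_simp
      rw [this, Real.rpow_one]
    · rw [← Real.rpow_natCast (n : ℝ) n, ← Real.rpow_mul hn0.le]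
      congr 1
      field_simp
  refine ⟨?_, fun heq => ?_⟩
  · rw [e1, ← e2]
    exact Real.rpow_le_rpow (by positivity) h (by positivity)
  · rw [e1, heq, e2]

theorem diamN_eq {K : Set ℂ} {R : ℝ} (hR : 0 < R) (h1 : K ⊆ Metric.closedBall 0 R)
    (h2 : Metric.sphere (0 : ℂ) R ⊆ K) {n : ℕ} (hn : 2 ≤ n) :
    diamN K n = R * (n : ℝ) ^ ((1 : ℝ) / (n - 1)) := by
  have hn0 : 0 < n := by omega
  unfold diamN
  refine le_antisymm (csSup_le ?_ ?_) (le_csSup ⟨R * (n : ℝ) ^ ((1 : ℝ) / (n - 1)), ?_⟩ ?_)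
  · obtain ⟨z, hz, _⟩ := vand_eq hn0 hR
    exact ⟨_, z, fun i => h2 (by rw [mem_sphere_zero_iff_norm]; exact hz i), rfl⟩
  · rintro t ⟨z, hz, rfl⟩
    rw [prod_rpow]
    exact (value hn hR (Finset.prod_nonneg fun i _ => Finset.prod_nonneg fun j _ => norm_nonneg _)
      (vand_le hn0 hR z fun i => by simpa using h1 (hz i))).1
  · rintro t ⟨z, hz, rfl⟩
    rw [prod_rpow]
    exact (value hn hR (Finset.prod_nonneg fun i _ => Finset.prod_nonneg fun j _ => norm_nonneg _)
      (vand_le hn0 hR z fun i => by simpa using h1 (hz i))).1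
  · obtain ⟨z, hz, hV⟩ := vand_eq hn0 hR
    refine ⟨z, fun i => h2 (by rw [mem_sphere_zero_iff_norm]; exact hz i), ?_⟩
    rw [prod_rpow]
    exact ((value hn hR (Finset.prod_nonneg fun i _ => Finset.prod_nonneg fun j _ => norm_nonneg _)
      hV.le).2 hV).symm

theorem tdiam {K : Set ℂ} {R : ℝ} (hR : 0 < R) (h1 : K ⊆ Metric.closedBall 0 R)
    (h2 : Metric.sphere (0 : ℂ) R ⊆ K) : IsTransfiniteDiameter K R := by
  have h3 : Tendsto (fun n : ℕ => R * (n : ℝ) ^ ((1 : ℝ) / (1 * n + (-1)))) atTop (𝓝 (R * 1)) :=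
    ((tendsto_rpow_div_mul_add 1 1 (-1) (by norm_num)).comp
      tendsto_natCast_atTop_atTop).const_mul R
  rw [mul_one] at h3
  refine h3.congr' ?_
  filter_upwards [eventually_ge_atTop 2] with n hn
  rw [diamN_eq hR h1 h2 hn]
  congr 2
  ring

end Pool.Agent.V1180.LP
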