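import Mathlib

/-!
# A negative eigenvalue of a compact symmetric operator with a negative direction
-/

namespace Pool.Agent.V1180.LP

open Filter Topology Set
open scoped InnerProductSpace

variable {H : Type*} [NormedAddCommGroup H] [InnerProductSpace ℝ H] [CompleteSpace H]

theorem psd_bound (A : H →L[ℝ] H) (hsym : ∀ u v, ⟪A u, v⟫_ℝ = ⟪u, A v⟫_ℝ)
    (hpos : ∀ u, 0 ≤ ⟪A u, u⟫_ℝ) (u : H) : ‖A u‖ ^ 2 ≤ (‖A‖ + 1) * ⟪A u, u⟫_ℝ := by
  set M : ℝ := ‖A‖ + 1 with hM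
  have hM0 : 0 < M := by positivity
  set b := A u with hb
  have h1 := hpos (u - M⁻¹ • b)
  rw [map_sub, map_smul, inner_sub_left, inner_sub_right, inner_sub_right, inner_smul_right,
    inner_smul_left, inner_smul_left, inner_smul_right] at h1
  simp only [conj_trivial] at h1
  have h2 : ⟪A b, u⟫_ℝ = ‖b‖ ^ 2 := by
    rw [hsym, ← hb, real_inner_self_eq_norm_sq]
  have h3 : ⟪b, b⟫_ℝ = ‖b‖ ^ 2 := real_inner_self_eq_norm_sq b
  have h4 : ⟪A b, b⟫_ℝ ≤ M * ‖b‖ ^ 2 := by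
    refine (real_inner_le_norm _ _).trans ?_
    have := A.le_opNorm b
    nlinarith [norm_nonneg b, norm_nonneg (A b), sq_nonneg ‖b‖]
  rw [← hb, h2, h3] at h1
  have h5 : M⁻¹ * (M⁻¹ * ⟪A b, b⟫_ℝ) ≤ M⁻¹ * ‖b‖ ^ 2 := by
    have : M⁻¹ * ⟪A b, b⟫_ℝ ≤ ‖b‖ ^ 2 := by
      rw [inv_mul_le_iff₀ hM0]
      exact h4
    exact mul_le_mul_of_nonneg_left this (by positivity)
  have h6 : M⁻¹ * ‖b‖ ^ 2 ≤ ⟪b, u⟫_ℝ := by linarith
  rwa [inv_mul_le_iff₀ hM0] at h6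

theorem exists_neg_eig (T : H →L[ℝ] H) (hsym : ∀ u v, ⟪T u, v⟫_ℝ = ⟪u, T v⟫_ℝ)
    (hc : IsCompactOperator T) {c : ℝ} (hc0 : 0 < c) {v : H} (hv : v ≠ 0)
    (hle : ⟪T v, v⟫_ℝ ≤ -c * ‖v‖ ^ 2) : ∃ lam : ℝ, lam ≤ -c ∧ ∃ u : H, u ≠ 0 ∧ T u = lam • u := by
  set S : Set ℝ := {t | ∃ u : H, ‖u‖ = 1 ∧ t = ⟪T u, u⟫_ℝ} with hS
  have hlow : ∀ u : H, -(‖T‖ * ‖u‖ ^ 2) ≤ ⟪T u, u⟫_ℝ := by
    intro u
    have h1 := abs_real_inner_le_norm (T u) u
    have h2 := T.le_opNorm u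
    have h3 := neg_abs_le ⟪T u, u⟫_ℝ
    nlinarith [norm_nonneg u]
  have hbdd : BddBelow S := by
    refine ⟨-‖T‖, ?_⟩
    rintro t ⟨u, hu, rfl⟩
    have := hlow u
    rw [hu] at this
    linarith
  have hvn : 0 < ‖v‖ := norm_pos_iff.2 hv
  have hscale : ∀ u : H, u ≠ 0 → ⟪T u, u⟫_ℝ / ‖u‖ ^ 2 ∈ S := by
    intro u hu
    have hun : 0 < ‖u‖ := norm_pos_iff.2 hu
    refine ⟨‖u‖⁻¹ • u, ?_, ?_⟩
    · rw [norm_smul, norm_inv, norm_norm, inv_mul_cancel₀ hun.ne']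
    · rw [map_smul, inner_smul_left, inner_smul_right]
      simp only [conj_trivial]
      field_simp
  set lam := sInf S with hlam
  have hlamc : lam ≤ -c := by
    refine (csInf_le hbdd (hscale v hv)).trans ?_
    rw [div_le_iff₀ (by positivity)]
    exact hle
  have hlam0 : lam ≠ 0 := by linarith
  have hmin : ∀ u : H, lam * ‖u‖ ^ 2 ≤ ⟪T u, u⟫_ℝ := by
    intro u
    by_cases hu : u = 0
    · rw [hu]; simp
    · have := csInf_le hbdd (hscale u hu)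
      have hun : 0 < ‖u‖ := norm_pos_iff.2 hu
      rwa [le_div_iff₀ (by positivity)] at this
  set A : H →L[ℝ] H := T - lam • ContinuousLinearMap.id ℝ H with hA
  have hAapp : ∀ u, A u = T u - lam • u := fun u => by rw [hA]; simp
  have hAsym : ∀ u w, ⟪A u, w⟫_ℝ = ⟪u, A w⟫_ℝ := by
    intro u w
    rw [hAapp, hAapp, inner_sub_left, inner_sub_right, hsym, inner_smul_left, inner_smul_right]
    simp
  have hAq : ∀ u, ⟪A u, u⟫_ℝ = ⟪T u, u⟫_ℝ - lam * ‖u‖ ^ 2 := by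
    intro u
    rw [hAapp, inner_sub_left, inner_smul_left, real_inner_self_eq_norm_sq]
    simp
  have hApos : ∀ u, 0 ≤ ⟪A u, u⟫_ℝ := by
    intro u
    rw [hAq]
    linarith [hmin u]
  obtain ⟨t, _, ht, htS⟩ := exists_seq_tendsto_sInf ⟨_, hscale v hv⟩ hbdd
  choose x hx1 hx2 using htS
  have hAx : Tendsto (fun n => A (x n)) atTop (𝓝 0) := by
    have h1 : Tendsto (fun n => (‖A‖ + 1) * (t n - lam)) atTop (𝓝 0) := by
      have : Tendsto (fun n => (‖A‖ + 1) * (t n - lam)) atTop (𝓝 ((‖A‖ + 1) * (lam - lam))) :=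
        (ht.sub_const lam).const_mul _
      simpa using this
    have h2 : Tendsto (fun n => ‖A (x n)‖ ^ 2) atTop (𝓝 0) := by
      refine squeeze_zero (fun n => by positivity) (fun n => ?_) h1
      refine (psd_bound A hAsym hApos (x n)).trans_eq ?_
      rw [hAq, hx1, ← hx2]
      ring
    have h3 : Tendsto (fun n => Real.sqrt (‖A (x n)‖ ^ 2)) atTop (𝓝 (Real.sqrt 0)) :=
      (Real.continuous_sqrt.tendsto 0).comp h2
    rw [Real.sqrt_zero] at h3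
    rw [tendsto_zero_iff_norm_tendsto_zero]
    refine h3.congr fun n => Real.sqrt_sq (norm_nonneg _)
  have hcomp : IsCompact (closure (T '' Metric.closedBall 0 1)) :=
    hc.isCompact_closure_image_closedBall 1
  obtain ⟨w, _, φ, hφ, hw⟩ := hcomp.tendsto_subseq (x := fun n => T (x n)) fun n =>
    subset_closure ⟨x n, by rw [mem_closedBall_zero_iff, hx1], rfl⟩
  have hlim : Tendsto (fun n => x (φ n)) atTop (𝓝 (lam⁻¹ • w)) := by
    have h1 : Tendsto (fun n => lam⁻¹ • (T (x (φ n)) - A (x (φ n)))) atTop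
        (𝓝 (lam⁻¹ • (w - 0))) := (hw.sub (hAx.comp hφ.tendsto_atTop)).const_smul _
    rw [sub_zero] at h1
    refine h1.congr fun n => ?_
    rw [hAapp, sub_sub_cancel, smul_smul, inv_mul_cancel₀ hlam0, one_smul]
  refine ⟨lam, hlamc, lam⁻¹ • w, ?_, ?_⟩
  · have h1 : ‖lam⁻¹ • w‖ = 1 := by
      have h2 := hlim.norm
      simp only [hx1] at h2
      exact tendsto_nhds_unique h2 tendsto_const_nhds
    intro h0
    rw [h0, norm_zero] at h1
    exact zero_ne_one h1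
  · have h1 : Tendsto (fun n => T (x (φ n))) atTop (𝓝 (T (lam⁻¹ • w))) :=
      (T.continuous.tendsto _).comp hlim
    have h2 : T (lam⁻¹ • w) = w := tendsto_nhds_unique h1 hw
    rw [h2, smul_smul, mul_inv_cancel₀ hlam0, one_smul]

end Pool.Agent.V1180.LP
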