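import Pool.Agent.V1180.LPb

/-!
# Integral operators on `L²` of a finite measure
-/

namespace Pool.Agent.V1180.LP

open MeasureTheory Filter Topology Set
open scoped InnerProductSpace ENNReal

variable {α : Type*} [MeasurableSpace α] {μ : Measure α}

/-- Carleman kernels with uniformly bounded rows. -/
structure HSK (μ : Measure α) (k : α → α → ℝ) (C : ℝ) : Prop where
  meas : Measurable (Function.uncurry k)
  C0 : 0 ≤ C
  int : ∀ᵐ x ∂μ, Integrable (fun y => k x y ^ 2) μ
  bd : ∀ᵐ x ∂μ, ∫ y, k x y ^ 2 ∂μ ≤ C ^ 2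

theorem cs {f g : α → ℝ} (hf : MemLp f 2 μ) (hg : MemLp g 2 μ) :
    |∫ y, f y * g y ∂μ| ≤ Real.sqrt (∫ y, f y ^ 2 ∂μ) * Real.sqrt (∫ y, g y ^ 2 ∂μ) := by
  have key : ∀ {f g : α → ℝ} (hf : MemLp f 2 μ) (hg : MemLp g 2 μ),
      ⟪hf.toLp f, hg.toLp g⟫_ℝ = ∫ y, f y * g y ∂μ := by
    intro f g hf hg
    rw [L2.inner_def]
    refine integral_congr_ae ?_
    filter_upwards [hf.coeFn_toLp, hg.coeFn_toLp] with y h1 h2
    rw [h1, h2]
    simp [mul_comm]
  have hn : ∀ {f : α → ℝ} (hf : MemLp f 2 μ), ‖hf.toLp f‖ = Real.sqrt (∫ y, f y ^ 2 ∂μ) := by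
    intro f hf
    rw [← Real.sqrt_sq (norm_nonneg (hf.toLp f)), ← real_inner_self_eq_norm_sq, key hf hf]
    congr 1
    exact integral_congr_ae (Eventually.of_forall fun y => (sq _).symm)
  rw [← key hf hg, ← hn hf, ← hn hg]
  exact abs_real_inner_le_norm _ _

theorem l2_norm (u : Lp ℝ 2 μ) : Real.sqrt (∫ y, u y ^ 2 ∂μ) = ‖u‖ := by
  rw [← Real.sqrt_sq (norm_nonneg u), ← real_inner_self_eq_norm_sq, L2.inner_def]
  congr 1
  refine integral_congr_ae (Eventually.of_forall fun y => ?_)
  simp [sq]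

theorem row_memLp {k : α → α → ℝ} (hm : Measurable (Function.uncurry k)) {x : α}
    (h : Integrable (fun y => k x y ^ 2) μ) : MemLp (k x) 2 μ :=
  (memLp_two_iff_integrable_sq
    ((hm.comp measurable_prodMk_left).aestronglyMeasurable)).2 h

theorem HSK.row {k : α → α → ℝ} {C : ℝ} (hk : HSK μ k C) (u : Lp ℝ 2 μ) :
    ∀ᵐ x ∂μ, Integrable (fun y => k x y * u y) μ ∧ |∫ y, k x y * u y ∂μ| ≤ C * ‖u‖ := by
  filter_upwards [hk.int, hk.bd] with x h1 h2
  have hrow := row_memLp hk.meas h1
  refine ⟨hrow.integrable_mul (Lp.memLp u), ?_⟩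
  refine (cs hrow (Lp.memLp u)).trans ?_
  rw [l2_norm]
  refine mul_le_mul_of_nonneg_right ?_ (norm_nonneg _)
  rw [Real.sqrt_le_left hk.C0]
  exact h2

variable [IsFiniteMeasure μ]

theorem HSK.sm {k : α → α → ℝ} {C : ℝ} (hk : HSK μ k C) (u : Lp ℝ 2 μ) :
    StronglyMeasurable fun x => ∫ y, k x y * u y ∂μ := by
  have h : StronglyMeasurable (Function.uncurry fun x y => k x y * u y) := by
    have h1 : Measurable fun p : α × α => k p.1 p.2 * u p.2 :=
      hk.meas.mul ((Lp.stronglyMeasurable u).measurable.comp measurable_snd)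
    exact h1.stronglyMeasurable
  exact h.integral_prod_right

theorem HSK.memLp {k : α → α → ℝ} {C : ℝ} (hk : HSK μ k C) (u : Lp ℝ 2 μ) :
    MemLp (fun x => ∫ y, k x y * u y ∂μ) 2 μ :=
  MemLp.of_bound (hk.sm u).aestronglyMeasurable (C * ‖u‖)
    (by filter_upwards [hk.row u] with x hx using hx.2)

/-- The integral operator. -/
noncomputable def KOp {k : α → α → ℝ} {C : ℝ} (hk : HSK μ k C) : Lp ℝ 2 μ →L[ℝ] Lp ℝ 2 μ :=
  LinearMap.mkContinuous
    { toFun := fun u => (hk.memLp u).toLp _
      map_add' := by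
        intro u v
        apply Lp.ext
        refine (MemLp.coeFn_toLp _).trans ?_
        refine EventuallyEq.trans ?_ (Lp.coeFn_add _ _).symm
        filter_upwards [(hk.memLp u).coeFn_toLp, (hk.memLp v).coeFn_toLp, hk.row u, hk.row v]
          with x h1 h2 h3 h4
        rw [Pi.add_apply, h1, h2, ← integral_add h3.1 h4.1]
        refine integral_congr_ae ?_
        filter_upwards [Lp.coeFn_add u v] with y hy
        rw [hy, Pi.add_apply, mul_add]
      map_smul' := by
        intro c u
        apply Lp.ext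
        refine (MemLp.coeFn_toLp _).trans ?_
        refine EventuallyEq.trans ?_ (Lp.coeFn_smul _ _).symm
        filter_upwards [(hk.memLp u).coeFn_toLp] with x h1
        rw [RingHom.id_apply, Pi.smul_apply, h1, smul_eq_mul, ← integral_const_mul]
        refine integral_congr_ae ?_
        filter_upwards [Lp.coeFn_smul c u] with y hy
        rw [hy, Pi.smul_apply, smul_eq_mul]
        ring }
    ((measureUnivNNReal μ) ^ (2 : ℝ≥0∞).toReal⁻¹ * C) (by
      intro u
      have h := Lp.norm_le_of_ae_bound (f := (hk.memLp u).toLp _) (C := C * ‖u‖)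
        (mul_nonneg hk.C0 (norm_nonneg _)) (by
          filter_upwards [(hk.memLp u).coeFn_toLp, hk.row u] with x h1 h2
          rw [h1]
          exact h2.2)
      refine h.trans_eq ?_
      ring)

theorem KOp_apply {k : α → α → ℝ} {C : ℝ} (hk : HSK μ k C) (u : Lp ℝ 2 μ) :
    KOp hk u =ᵐ[μ] fun x => ∫ y, k x y * u y ∂μ := (hk.memLp u).coeFn_toLp

theorem KOp_sub_norm {k k' : α → α → ℝ} {C C' D : ℝ} (hk : HSK μ k C) (hk' : HSK μ k' C')
    (hd : HSK μ (fun x y => k x y - k' x y) D) :
    ‖KOp hk - KOp hk'‖ ≤ (measureUnivNNReal μ) ^ (2 : ℝ≥0∞).toReal⁻¹ * D := by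
  refine ContinuousLinearMap.opNorm_le_bound _ (mul_nonneg (by positivity) hd.C0) fun u => ?_
  have h := Lp.norm_le_of_ae_bound (f := (KOp hk - KOp hk') u) (C := D * ‖u‖)
    (mul_nonneg hd.C0 (norm_nonneg _)) (by
      rw [_root_.sub_apply]
      filter_upwards [Lp.coeFn_sub (KOp hk u) (KOp hk' u), KOp_apply hk u, KOp_apply hk' u,
        hk.row u, hk'.row u, hd.row u] with x h0 h1 h2 h3 h4 h5
      rw [h0, Pi.sub_apply, h1, h2, ← integral_sub h3.1 h4.1, Real.norm_eq_abs]
      refine le_trans (le_of_eq ?_) h5.2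
      congr 1
      refine integral_congr_ae (Eventually.of_forall fun y => ?_)
      simp only
      ring)
  refine h.trans_eq ?_
  ring

theorem KOp_symm {k : α → α → ℝ} {C : ℝ} (hk : HSK μ k C) (hs : ∀ x y, k x y = k y x)
    (u v : Lp ℝ 2 μ) : ⟪KOp hk u, v⟫_ℝ = ⟪u, KOp hk v⟫_ℝ := by
  have hint : ∀ u v : Lp ℝ 2 μ, Integrable (fun p : α × α => v p.1 * (k p.1 p.2 * u p.2))
      (μ.prod μ) := by
    intro u v
    have hm : Measurable fun p : α × α => v p.1 * (k p.1 p.2 * u p.2) :=
      ((Lp.stronglyMeasurable v).measurable.comp measurable_fst).mul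
        (hk.meas.mul ((Lp.stronglyMeasurable u).measurable.comp measurable_snd))
    rw [integrable_prod_iff hm.aestronglyMeasurable]
    refine ⟨?_, ?_⟩
    · filter_upwards [hk.row u] with x hx
      exact hx.1.const_mul _
    · have hv1 : Integrable (fun x => ‖v x‖) μ :=
        ((Lp.memLp v).integrable (by norm_num)).norm
      refine (hv1.mul_const (C * ‖u‖)).mono' ?_ ?_
      · exact (hm.norm.stronglyMeasurable).integral_prod_right.aestronglyMeasurable
      · filter_upwards [hk.int, hk.bd] with x h1 h2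
        rw [Real.norm_eq_abs, abs_of_nonneg (integral_nonneg fun y => norm_nonneg _)]
        have hrow := row_memLp hk.meas h1
        simp only [norm_mul]
        rw [integral_const_mul]
        refine mul_le_mul_of_nonneg_left ?_ (norm_nonneg _)
        have h3 := cs hrow.norm (Lp.memLp u).norm
        have h4 : Real.sqrt (∫ y, ‖u y‖ ^ 2 ∂μ) = ‖u‖ := by
          rw [← l2_norm]
          congr 1
          exact integral_congr_ae (Eventually.of_forall fun y => by simp)
        rw [h4] at h3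
        refine (le_abs_self _).trans (h3.trans ?_)
        refine mul_le_mul_of_nonneg_right ?_ (norm_nonneg _)
        rw [Real.sqrt_le_left hk.C0]
        refine le_trans (le_of_eq ?_) h2
        exact integral_congr_ae (Eventually.of_forall fun y => by simp)
  have h1 : ⟪KOp hk u, v⟫_ℝ = ∫ x, ∫ y, v x * (k x y * u y) ∂μ ∂μ := by
    rw [L2.inner_def]
    refine integral_congr_ae ?_
    filter_upwards [KOp_apply hk u] with x hx
    rw [hx, integral_const_mul]
    simp
  have h2 : ⟪u, KOp hk v⟫_ℝ = ∫ x, ∫ y, u x * (k x y * v y) ∂μ ∂μ := by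
    rw [L2.inner_def]
    refine integral_congr_ae ?_
    filter_upwards [KOp_apply hk v] with x hx
    rw [hx, integral_const_mul]
    simp [mul_comm]
  rw [h1, h2, integral_integral_swap (hint u v)]
  refine integral_congr_ae (Eventually.of_forall fun x => ?_)
  refine integral_congr_ae (Eventually.of_forall fun y => ?_)
  simp only
  rw [hs y x]
  ring

/-- Finite rank kernels give compact operators. -/
theorem KOp_finrank {k : α → α → ℝ} {C : ℝ} (hk : HSK μ k C) {ι : Type*} [Fintype ι] {a b : ι → α → ℝ}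
    (ha : ∀ i, MemLp (a i) 2 μ) (hb : ∀ i, MemLp (b i) 2 μ)
    (hkab : ∀ᵐ x ∂μ, ∀ᵐ y ∂μ, k x y = ∑ i, a i x * b i y) : IsCompactOperator (KOp hk) := by
  set F : ι → (Lp ℝ 2 μ →L[ℝ] Lp ℝ 2 μ) := fun i =>
    (ContinuousLinearMap.toSpanSingleton ℝ ((ha i).toLp (a i))).comp
      (innerSL ℝ ((hb i).toLp (b i))) with hF
  have hcomp : ∀ i, IsCompactOperator (F i) := by
    intro i
    have h1 : IsCompactOperator (ContinuousLinearMap.toSpanSingleton ℝ ((ha i).toLp (a i))) :=
      isCompactOperator_of_locallyCompactSpace_rng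
        (ContinuousLinearMap.toSpanSingleton ℝ ((ha i).toLp (a i)))
    exact h1.comp_clm _
  have hsum : ∀ s : Finset ι, IsCompactOperator (∑ i ∈ s, F i : Lp ℝ 2 μ →L[ℝ] Lp ℝ 2 μ) := by
    intro s
    classical
    induction s using Finset.induction_on with
    | empty =>
      rw [Finset.sum_empty]
      exact isCompactOperator_zero
    | insert j s hj ih =>
      rw [Finset.sum_insert hj]
      exact (hcomp j).add ih
  have heq : KOp hk = ∑ i, F i := by
    ext1 u
    apply Lp.ext
    have hFu : ∀ i, F i u = ⟪(hb i).toLp (b i), u⟫_ℝ • (ha i).toLp (a i) := by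
      intro i
      rw [hF]
      simp [ContinuousLinearMap.toSpanSingleton_apply]
    have hb' : ∀ i, ⟪(hb i).toLp (b i), u⟫_ℝ = ∫ y, b i y * u y ∂μ := by
      intro i
      rw [L2.inner_def]
      refine integral_congr_ae ?_
      filter_upwards [(hb i).coeFn_toLp] with y hy
      rw [hy]
      simp [mul_comm]
    have h1 : ((∑ i, F i) u : Lp ℝ 2 μ) =ᵐ[μ] fun x => ∑ i, (∫ y, b i y * u y ∂μ) * a i x := by
      have h2 : (∑ i, F i) u = ∑ i, ⟪(hb i).toLp (b i), u⟫_ℝ • (ha i).toLp (a i) := by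
        rw [_root_.sum_apply]
        exact Finset.sum_congr rfl fun i _ => hFu i
      rw [h2]
      refine (Lp.coeFn_finsetSum _ _).trans ?_
      have h3 : ∀ᵐ x ∂μ, ∀ i, (⟪(hb i).toLp (b i), u⟫_ℝ • (ha i).toLp (a i) : Lp ℝ 2 μ) x
          = (∫ y, b i y * u y ∂μ) * a i x := by
        rw [ae_all_iff]
        intro i
        filter_upwards [Lp.coeFn_smul (⟪(hb i).toLp (b i), u⟫_ℝ) ((ha i).toLp (a i)),
          (ha i).coeFn_toLp] with x h4 h5
        rw [h4, Pi.smul_apply, h5, hb' i, smul_eq_mul]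
      filter_upwards [h3] with x hx
      simp only [Finset.sum_apply]
      exact Finset.sum_congr rfl fun i _ => hx i
    refine (KOp_apply hk u).trans (EventuallyEq.trans ?_ h1.symm)
    filter_upwards [hkab] with x hx
    have h4 : ∫ y, k x y * u y ∂μ = ∫ y, ∑ i, a i x * (b i y * u y) ∂μ := by
      refine integral_congr_ae ?_
      filter_upwards [hx] with y hy
      rw [hy, Finset.sum_mul]
      exact Finset.sum_congr rfl fun i _ => by ring
    have h5 : ∀ i, Integrable (fun y => a i x * (b i y * u y)) μ :=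
      fun i => ((hb i).integrable_mul (Lp.memLp u)).const_mul _
    rw [h4, integral_finsetSum _ fun i _ => h5 i]
    refine Finset.sum_congr rfl fun i _ => ?_
    rw [integral_const_mul]
    ring
  rw [heq]
  exact hsum _

end Pool.Agent.V1180.LP
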