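import Pool.Agent.V1180.LPc

/-!
# The logarithmic kernel
-/

namespace Pool.Agent.V1180.LP

open MeasureTheory Filter Topology Set Metric
open scoped InnerProductSpace ENNReal

/-- the logarithmic kernel `log (1/|x-y|)` -/
noncomputable def lk (x y : ℂ) : ℝ := Real.log (1 / ‖x - y‖)

theorem lk_eq (x y : ℂ) : lk x y = -Real.log ‖x - y‖ := by
  unfold lk
  rw [one_div, Real.log_inv]

theorem lk_symm (x y : ℂ) : lk x y = lk y x := by
  unfold lk
  rw [norm_sub_rev]

theorem lk_meas : Measurable (Function.uncurry lk) := by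
  have h : Function.uncurry lk = fun p : ℂ × ℂ => -Real.log ‖p.1 - p.2‖ := by
    funext p
    exact lk_eq _ _
  rw [h]
  exact (Real.measurable_log.comp (measurable_fst.sub measurable_snd).norm).neg

theorem logsq_int (r : ℝ) : IntegrableOn (fun z : ℂ => Real.log ‖z‖ ^ 2) (ball 0 r) volume := by
  rw [integrableOn_fun_norm_addHaar (μ := volume) (f := fun t : ℝ => Real.log t ^ 2)]
  have hdim : Module.finrank ℝ ℂ - 1 = 1 := by simp
  rw [hdim]
  have hc : Continuous fun y : ℝ => 4 * (Real.sqrt y * Real.log (Real.sqrt y)) ^ 2 :=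
    continuous_const.mul ((Real.continuous_mul_log.comp Real.continuous_sqrt).pow 2)
  have h1 : IntegrableOn (fun y : ℝ => 4 * (Real.sqrt y * Real.log (Real.sqrt y)) ^ 2) (Ioo 0 r) :=
    (hc.continuousOn.integrableOn_Icc).mono_set Ioo_subset_Icc_self
  refine h1.congr_fun (fun y hy => ?_) measurableSet_Ioo
  have hy0 : 0 < y := hy.1
  have h2 : Real.log (Real.sqrt y) = Real.log y / 2 := Real.log_sqrt hy0.le
  simp only [h2, smul_eq_mul, pow_one]
  rw [mul_pow, Real.sq_sqrt hy0.le]
  ring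

theorem shift_int {f : ℂ → ℝ} {r : ℝ} (hf : IntegrableOn f (ball 0 r) volume) (x : ℂ) :
    IntegrableOn (fun y => f (x - y)) (ball x r) volume ∧
      ∫ y in ball x r, f (x - y) = ∫ z in ball 0 r, f z := by
  have hmp : MeasurePreserving (fun y : ℂ => x - y) volume volume :=
    Measure.measurePreserving_sub_left volume x
  have hemb : MeasurableEmbedding (fun y : ℂ => x - y) := (Homeomorph.subLeft x).measurableEmbedding
  have hpre : (fun y : ℂ => x - y) ⁻¹' ball 0 r = ball x r := by
    ext y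
    rw [mem_preimage, mem_ball_zero_iff, mem_ball, dist_eq_norm, norm_sub_rev]
  constructor
  · have := (hmp.integrableOn_comp_preimage hemb (f := f) (s := ball 0 r)).2 hf
    rw [hpre] at this
    exact this
  · have := hmp.setIntegral_preimage_emb hemb f (ball 0 r)
    rw [hpre] at this
    exact this

/-- `∫_{B(0,r)} log² |z|`. -/
noncomputable def c2 (r : ℝ) : ℝ := ∫ z in ball (0 : ℂ) r, Real.log ‖z‖ ^ 2

theorem c2_nonneg (r : ℝ) : 0 ≤ c2 r := integral_nonneg fun z => sq_nonneg _

theorem c2_small (ε : ℝ) (hε : 0 < ε) : ∃ δ : ℝ, 0 < δ ∧ δ ≤ 1 ∧ c2 δ ≤ ε := by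
  have hanti : Antitone fun n : ℕ => ball (0 : ℂ) (1 / ((n : ℝ) + 1)) := by
    intro a b hab
    refine ball_subset_ball ?_
    have : (a : ℝ) ≤ b := by exact_mod_cast hab
    gcongr
  have h1 := tendsto_setIntegral_of_antitone (μ := volume)
    (f := fun z : ℂ => Real.log ‖z‖ ^ 2) (fun n => measurableSet_ball) hanti
    ⟨0, logsq_int _⟩
  have h2 : (⋂ n : ℕ, ball (0 : ℂ) (1 / ((n : ℝ) + 1))) = {0} := by
    ext z
    simp only [mem_iInter, mem_ball_zero_iff, mem_singleton_iff]
    constructor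
    · intro h
      by_contra hne
      obtain ⟨n, hn⟩ := exists_nat_one_div_lt (norm_pos_iff.2 hne)
      exact absurd (h n) (not_lt.2 hn.le)
    · rintro rfl n
      rw [norm_zero]
      positivity
  rw [h2] at h1
  have h3 : ∫ z in ({0} : Set ℂ), Real.log ‖z‖ ^ 2 = 0 := by
    rw [setIntegral_measure_zero]
    exact measure_singleton _
  rw [h3] at h1
  obtain ⟨n, hn⟩ := (h1.eventually (ge_mem_nhds hε)).exists
  refine ⟨1 / ((n : ℝ) + 1), by positivity, ?_, hn⟩
  rw [div_le_one (by positivity)]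
  have : (0 : ℝ) ≤ n := Nat.cast_nonneg n
  linarith

theorem row_bound {Ω : Set ℂ} {ρ : ℝ} (hΩρ : Ω ⊆ ball 0 ρ) {x : ℂ} (hx : x ∈ ball (0 : ℂ) ρ) :
    IntegrableOn (fun y => lk x y ^ 2) Ω volume ∧ ∫ y in Ω, lk x y ^ 2 ≤ c2 (2 * ρ) := by
  have h1 := shift_int (logsq_int (2 * ρ)) x
  have hsub : Ω ⊆ ball x (2 * ρ) := by
    intro y hy
    have h2 := hΩρ hy
    rw [mem_ball_zero_iff] at h2 hx
    rw [mem_ball, dist_eq_norm]
    exact (norm_sub_le _ _).trans_lt (by linarith)
  have e : (fun y => lk x y ^ 2) = fun y => Real.log ‖x - y‖ ^ 2 := by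
    funext y
    rw [lk_eq]
    ring
  rw [e]
  refine ⟨h1.1.mono_set hsub, ?_⟩
  unfold c2
  rw [← h1.2]
  exact setIntegral_mono_set h1.1 (Eventually.of_forall fun y => sq_nonneg _)
    hsub.eventuallyLE

theorem hsk_lk {Ω : Set ℂ} (hm : MeasurableSet Ω) {ρ : ℝ} (hΩρ : Ω ⊆ ball 0 ρ) :
    HSK (volume.restrict Ω) lk (Real.sqrt (c2 (2 * ρ))) where
  meas := lk_meas
  C0 := Real.sqrt_nonneg _
  int := by
    filter_upwards [ae_restrict_mem hm] with x hx
    exact (row_bound hΩρ (hΩρ hx)).1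
  bd := by
    filter_upwards [ae_restrict_mem hm] with x hx
    rw [Real.sq_sqrt (c2_nonneg _)]
    exact (row_bound hΩρ (hΩρ hx)).2

/-- the truncated kernel -/
noncomputable def kd (δ : ℝ) (x y : ℂ) : ℝ := -Real.log (max ‖x - y‖ δ)

theorem log_lip {δ a b : ℝ} (hδ : 0 < δ) (ha : δ ≤ a) (hb : δ ≤ b) :
    |Real.log a - Real.log b| ≤ |a - b| / δ := by
  have key : ∀ a b : ℝ, δ ≤ a → δ ≤ b → Real.log a - Real.log b ≤ |a - b| / δ := by
    intro a b ha hb
    have ha0 : 0 < a := hδ.trans_le ha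
    have hb0 : 0 < b := hδ.trans_le hb
    rw [← Real.log_div ha0.ne' hb0.ne']
    have h1 := Real.log_le_sub_one_of_pos (div_pos ha0 hb0)
    have h2 : a / b - 1 = (a - b) / b := by field_simp
    have h3 : (a - b) / b ≤ |a - b| / b := by
      gcongr
      exact le_abs_self _
    have h4 : |a - b| / b ≤ |a - b| / δ := div_le_div_of_nonneg_left (abs_nonneg _) hδ hb
    linarith
  rw [abs_le]
  constructor
  · have := key b a hb ha
    rw [abs_sub_comm] at this
    linarith
  · exact key a b ha hb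

theorem kd_close {δ : ℝ} (hδ : 0 < δ) (x x' y : ℂ) : |kd δ x y - kd δ x' y| ≤ ‖x - x'‖ / δ := by
  unfold kd
  have h1 := log_lip hδ (le_max_right ‖x - y‖ δ) (le_max_right ‖x' - y‖ δ)
  have h2 : |max ‖x - y‖ δ - max ‖x' - y‖ δ| ≤ ‖x - x'‖ := by
    refine (abs_max_sub_max_le_abs _ _ _).trans ?_
    refine (abs_norm_sub_norm_le _ _).trans ?_
    rw [sub_sub_sub_cancel_right]
  have e : -Real.log (max ‖x - y‖ δ) - -Real.log (max ‖x' - y‖ δ)
      = -(Real.log (max ‖x - y‖ δ) - Real.log (max ‖x' - y‖ δ)) := by ring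
  rw [e, abs_neg]
  refine h1.trans ?_
  gcongr

theorem kd_lk {δ : ℝ} (hδ : 0 < δ) (hδ1 : δ ≤ 1) {x y : ℂ} (hxy : y ≠ x) :
    (lk x y - kd δ x y) ^ 2 ≤ (ball x δ).indicator (fun y => Real.log ‖x - y‖ ^ 2) y := by
  by_cases hy : y ∈ ball x δ
  · rw [indicator_of_mem hy]
    rw [mem_ball, dist_eq_norm, norm_sub_rev] at hy
    unfold kd
    rw [lk_eq, max_eq_right hy.le]
    have hpos : 0 < ‖x - y‖ := norm_pos_iff.2 (sub_ne_zero.2 hxy.symm)
    have h1 : Real.log ‖x - y‖ ≤ Real.log δ := Real.log_le_log hpos hy.le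
    have h2 : Real.log δ ≤ 0 := Real.log_nonpos hδ.le hδ1
    nlinarith
  · rw [indicator_of_notMem hy]
    rw [mem_ball, dist_eq_norm, norm_sub_rev, not_lt] at hy
    unfold kd
    rw [lk_eq, max_eq_left hy]
    simp

theorem kd_cont {δ : ℝ} (hδ : 0 < δ) (x : ℂ) : Continuous (kd δ x) := by
  unfold kd
  refine (Continuous.log ?_ fun y => ?_).neg
  · exact ((continuous_const.sub continuous_id).norm).max continuous_const
  · exact (lt_of_lt_of_le hδ (le_max_right _ _)).ne'

theorem kd_meas (δ : ℝ) : Measurable (Function.uncurry (kd δ)) := by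
  have : Measurable fun p : ℂ × ℂ => -Real.log (max ‖p.1 - p.2‖ δ) :=
    (Real.measurable_log.comp (((measurable_fst.sub measurable_snd).norm).max
      measurable_const)).neg
  exact this

/-- a measurable nearest point map -/
theorem net {Ω : Set ℂ} {ρ : ℝ} (hΩρ : Ω ⊆ ball 0 ρ) {η : ℝ} (hη : 0 < η) :
    ∃ f : SimpleFunc ℂ ℂ, ∀ x ∈ Ω, ‖x - f x‖ ≤ η := by
  have hcomp : IsCompact (closedBall (0 : ℂ) ρ) := isCompact_closedBall _ _
  have hcov : closedBall (0 : ℂ) ρ ⊆ ⋃ k : ℕ, ball (TopologicalSpace.denseSeq ℂ k) η := by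
    intro x _
    obtain ⟨k, hk⟩ := (TopologicalSpace.denseRange_denseSeq ℂ).exists_dist_lt x hη
    exact mem_iUnion.2 ⟨k, hk⟩
  obtain ⟨t, ht⟩ := hcomp.elim_finite_subcover _ (fun k => isOpen_ball) hcov
  refine ⟨SimpleFunc.nearestPt (TopologicalSpace.denseSeq ℂ) (t.sup id), fun x hx => ?_⟩
  have hx' := ht (ball_subset_closedBall (hΩρ hx))
  simp only [mem_iUnion, mem_ball] at hx'
  obtain ⟨k, hk, hxk⟩ := hx'
  have h1 := SimpleFunc.edist_nearestPt_le (TopologicalSpace.denseSeq ℂ) x (Finset.le_sup (f := id) hk)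
  have h2 : dist (SimpleFunc.nearestPt (TopologicalSpace.denseSeq ℂ) (t.sup id) x) x ≤ dist (TopologicalSpace.denseSeq ℂ k) x := by
    rw [edist_dist, edist_dist] at h1
    exact (ENNReal.ofReal_le_ofReal_iff dist_nonneg).1 h1
  rw [← dist_eq_norm, dist_comm]
  exact h2.trans (by rw [dist_comm]; exact hxk.le)

theorem lk_compact {Ω : Set ℂ} (hm : MeasurableSet Ω) {ρ : ℝ} (hΩρ : Ω ⊆ ball 0 ρ)
    [IsFiniteMeasure (volume.restrict Ω)] : IsCompactOperator (KOp (hsk_lk hm hΩρ)) := by
  set μ : Measure ℂ := volume.restrict Ω with hμ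
  have hcl : IsClosed {T : Lp ℝ 2 μ →L[ℝ] Lp ℝ 2 μ | IsCompactOperator T} :=
    isClosed_setOfPred_isCompactOperator
  change KOp (hsk_lk hm hΩρ) ∈ {T : Lp ℝ 2 μ →L[ℝ] Lp ℝ 2 μ | IsCompactOperator T}
  rw [← hcl.closure_eq, Metric.mem_closure_iff]
  intro ε hε
  set A : ℝ := (measureUnivNNReal μ : ℝ) ^ (2 : ℝ≥0∞).toReal⁻¹ with hA
  have hA0 : 0 ≤ A := by positivity
  set D : ℝ := ε / (2 * (A + 1)) with hD
  have hDpos : 0 < D := by positivity
  have hAD : A * D < ε := by
    rw [hD]
    have : A * (ε / (2 * (A + 1))) = (A / (A + 1)) * (ε / 2) := by field_simp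
    rw [this]
    have h1 : A / (A + 1) ≤ 1 := by
      rw [div_le_one (by positivity)]
      linarith
    nlinarith
  obtain ⟨δ, hδ, hδ1, hδc⟩ := c2_small (D ^ 2 / 4) (by positivity)
  set V : ℝ := μ.real univ with hV
  have hV0 : 0 ≤ V := measureReal_nonneg
  set η : ℝ := δ * D / (2 * (V + 1)) with hη
  have hηpos : 0 < η := by positivity
  obtain ⟨f, hf⟩ := net hΩρ hηpos
  set k' : ℂ → ℂ → ℝ := fun x y => kd δ (f x) y with hk'
  have hk'm : Measurable (Function.uncurry k') := by
    have : Measurable fun p : ℂ × ℂ => (f p.1, p.2) :=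
      (f.measurable.comp measurable_fst).prodMk measurable_snd
    exact (kd_meas δ).comp this
  -- bound of k'
  obtain ⟨B, hB0, hB⟩ : ∃ B : ℝ, 0 ≤ B ∧ ∀ x, ∀ y ∈ Ω, |k' x y| ≤ B := by
    have h1 : ∀ v : ℂ, ∃ B : ℝ, 0 ≤ B ∧ ∀ y ∈ Ω, |kd δ v y| ≤ B := by
      intro v
      obtain ⟨B, hB⟩ := (isCompact_closedBall (0 : ℂ) ρ).exists_bound_of_continuousOn
        (kd_cont hδ v).continuousOn
      refine ⟨max B 0, le_max_right _ _, fun y hy => ?_⟩
      exact (hB y (ball_subset_closedBall (hΩρ hy))).trans (le_max_left _ _)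
    choose b hb0 hb using h1
    refine ⟨∑ v ∈ f.range, b v, Finset.sum_nonneg fun v _ => hb0 v, fun x y hy => ?_⟩
    refine (hb (f x) y hy).trans ?_
    exact Finset.single_le_sum (f := b) (fun v _ => hb0 v) (f.mem_range_self x)
  have hk'HSK : HSK μ k' (Real.sqrt (B ^ 2 * V)) := by
    refine ⟨hk'm, Real.sqrt_nonneg _, Eventually.of_forall fun x => ?_,
      Eventually.of_forall fun x => ?_⟩
    · refine Integrable.of_bound (C := B ^ 2)
        (((hk'm.comp measurable_prodMk_left).pow_const 2).aestronglyMeasurable) ?_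
      filter_upwards [ae_restrict_mem hm] with y hy
      rw [Real.norm_eq_abs, abs_pow]
      exact pow_le_pow_left₀ (abs_nonneg _) (hB x y hy) 2
    · rw [Real.sq_sqrt (by positivity)]
      have h2 : ∫ y, k' x y ^ 2 ∂μ ≤ ∫ _, B ^ 2 ∂μ := by
        refine integral_mono_of_nonneg (Eventually.of_forall fun y => sq_nonneg _)
          (integrable_const _) ?_
        filter_upwards [ae_restrict_mem hm] with y hy
        rw [← sq_abs]
        exact pow_le_pow_left₀ (abs_nonneg _) (hB x y hy) 2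
      refine h2.trans_eq ?_
      rw [integral_const, smul_eq_mul, mul_comm]
  have hpt : ∀ x ∈ Ω, ∀ y, y ≠ x → (lk x y - k' x y) ^ 2
      ≤ 2 * (ball x δ).indicator (fun y => Real.log ‖x - y‖ ^ 2) y + 2 * (η / δ) ^ 2 := by
    intro x hx y hxy
    have h1 := kd_lk hδ hδ1 hxy
    have h2 := kd_close hδ x (f x) y
    have h3 : ‖x - f x‖ / δ ≤ η / δ := by
      have := hf x hx
      gcongr
    have h4 : (kd δ x y - kd δ (f x) y) ^ 2 ≤ (η / δ) ^ 2 := by
      rw [← sq_abs]
      exact pow_le_pow_left₀ (abs_nonneg _) (h2.trans h3) 2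
    have e : lk x y - k' x y = (lk x y - kd δ x y) + (kd δ x y - kd δ (f x) y) := by
      simp only [hk']
      ring
    rw [e]
    nlinarith [sq_nonneg ((lk x y - kd δ x y) - (kd δ x y - kd δ (f x) y))]
  have hdiff : HSK μ (fun x y => lk x y - k' x y) D := by
    refine ⟨lk_meas.sub hk'm, hDpos.le, ?_, ?_⟩
    · filter_upwards [(hsk_lk hm hΩρ).int, hk'HSK.int] with x h1 h2
      exact ((row_memLp lk_meas h1).sub (row_memLp hk'm h2)).integrable_sq
    · filter_upwards [ae_restrict_mem hm] with x hx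
      have hshift := shift_int (logsq_int δ) x
      have hind : Integrable ((ball x δ).indicator fun y => Real.log ‖x - y‖ ^ 2) μ := by
        have h1 : Integrable ((ball x δ).indicator fun y => Real.log ‖x - y‖ ^ 2) volume :=
          (integrable_indicator_iff measurableSet_ball).2 hshift.1
        exact h1.mono_measure Measure.restrict_le_self
      have hae : ∀ᵐ y ∂μ, y ≠ x := by
        have : ∀ᵐ y ∂(volume : Measure ℂ), y ≠ x := by
          rw [ae_iff]
          simp
        exact ae_restrict_of_ae this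
      have h2 : ∫ y, (lk x y - k' x y) ^ 2 ∂μ ≤ ∫ y, (2 * (ball x δ).indicator
          (fun y => Real.log ‖x - y‖ ^ 2) y + 2 * (η / δ) ^ 2) ∂μ := by
        refine integral_mono_of_nonneg (Eventually.of_forall fun y => sq_nonneg _)
          ((hind.const_mul 2).add (integrable_const _)) ?_
        filter_upwards [hae] with y hy
        exact hpt x hx y hy
      refine h2.trans ?_
      rw [integral_add (hind.const_mul 2) (integrable_const _), integral_const_mul]
      have h3 : ∫ y, (ball x δ).indicator (fun y => Real.log ‖x - y‖ ^ 2) y ∂μ ≤ c2 δ := by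
        rw [hμ]
        have h4 : ∫ y in Ω, (ball x δ).indicator (fun y => Real.log ‖x - y‖ ^ 2) y
            ≤ ∫ y, (ball x δ).indicator (fun y => Real.log ‖x - y‖ ^ 2) y :=
          setIntegral_le_integral ((integrable_indicator_iff measurableSet_ball).2 hshift.1)
            (Eventually.of_forall fun y => indicator_nonneg (fun _ _ => sq_nonneg _) y)
        refine h4.trans_eq ?_
        rw [integral_indicator measurableSet_ball]
        exact hshift.2
      have h5 : ∫ _ : ℂ, 2 * (η / δ) ^ 2 ∂μ = V * (2 * (η / δ) ^ 2) := by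
        rw [integral_const, smul_eq_mul]
      rw [h5]
      have h6 : η / δ = D / (2 * (V + 1)) := by
        rw [hη]
        field_simp
      have h7 : V * (2 * (η / δ) ^ 2) ≤ D ^ 2 / 2 := by
        rw [h6, div_pow]
        have h8 : V * (2 * (D ^ 2 / (2 * (V + 1)) ^ 2)) = (V / (V + 1) ^ 2) * (D ^ 2 / 2) := by
          field_simp
        rw [h8]
        have h9 : V / (V + 1) ^ 2 ≤ 1 := by
          rw [div_le_one (by positivity)]
          nlinarith
        have : 0 < D ^ 2 / 2 := by positivity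
        nlinarith
      linarith
  refine ⟨KOp hk'HSK, ?_, ?_⟩
  · change IsCompactOperator (KOp hk'HSK)
    refine KOp_finrank hk'HSK (ι := f.range)
      (a := fun v x => (f ⁻¹' {(v : ℂ)}).indicator (fun _ => (1 : ℝ)) x)
      (b := fun v y => kd δ v y) (fun v => ?_) (fun v => ?_) ?_
    · refine MemLp.of_bound (C := 1) ?_ (Eventually.of_forall fun x => ?_)
      · exact (measurable_const.indicator (f.measurableSet_preimage _)).aestronglyMeasurable
      · refine (norm_indicator_le_norm_self _ _).trans ?_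
        simp
    · obtain ⟨b, hb⟩ := (isCompact_closedBall (0 : ℂ) ρ).exists_bound_of_continuousOn
        (kd_cont hδ (v : ℂ)).continuousOn
      refine MemLp.of_bound (C := b) (kd_cont hδ v).aestronglyMeasurable ?_
      filter_upwards [ae_restrict_mem hm] with y hy
      exact hb y (ball_subset_closedBall (hΩρ hy))
    · refine Eventually.of_forall fun x => Eventually.of_forall fun y => ?_
      rw [Finset.sum_eq_single (⟨f x, f.mem_range_self x⟩ : f.range)]
      · simp [hk']
      · intro v _ hv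
        have : x ∉ f ⁻¹' {(v : ℂ)} := by
          intro h
          apply hv
          apply Subtype.ext
          exact (mem_singleton_iff.1 h).symm
        rw [indicator_of_notMem this, zero_mul]
      · intro h
        exact absurd (Finset.mem_univ _) h
  · rw [dist_eq_norm]
    refine (KOp_sub_norm (hsk_lk hm hΩρ) hk'HSK hdiff).trans_lt ?_
    exact hAD

end Pool.Agent.V1180.LP
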