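import Pool.Agent.V1180.LPa
import Pool.Agent.V1180.LPd

/-!
# Eigenvalues of logarithmic potentials: discs and thin annuli
-/

namespace Pool.Agent.V1180.LP

open MeasureTheory Filter Topology Set Metric
open scoped InnerProductSpace ENNReal

/-- `lam` is an eigenvalue of the logarithmic potential operator of `Ω` on `L²(Ω)`. -/
def IsEig (Ω : Set ℂ) (lam : ℝ) : Prop :=
  ∃ u : ℂ → ℝ, MemLp u 2 (volume.restrict Ω) ∧ ¬ (u =ᵐ[volume.restrict Ω] 0) ∧
    ∀ᵐ x ∂(volume.restrict Ω), ∫ y in Ω, Real.log (1 / ‖x - y‖) * u y = lam * u x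

/-- The lowest of `0` and the negative eigenvalues. -/
noncomputable def tau (Ω : Set ℂ) : ℝ := sInf ({0} ∪ {lam | lam < 0 ∧ IsEig Ω lam})

theorem fin_of_ball {Ω : Set ℂ} {ρ : ℝ} (hΩρ : Ω ⊆ ball 0 ρ) :
    IsFiniteMeasure (volume.restrict Ω) :=
  ⟨by
    rw [Measure.restrict_apply_univ]
    exact (measure_mono hΩρ).trans_lt measure_ball_lt_top⟩

theorem eig_of_op {Ω : Set ℂ} (hm : MeasurableSet Ω) {ρ : ℝ} (hΩρ : Ω ⊆ ball 0 ρ)
    [IsFiniteMeasure (volume.restrict Ω)] {lam : ℝ} {w : Lp ℝ 2 (volume.restrict Ω)} (hw : w ≠ 0)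
    (h : KOp (hsk_lk hm hΩρ) w = lam • w) : IsEig Ω lam := by
  refine ⟨w, Lp.memLp w, fun h0 => hw ((Lp.eq_zero_iff_ae_eq_zero).2 h0), ?_⟩
  filter_upwards [KOp_apply (hsk_lk hm hΩρ) w, Lp.coeFn_smul lam w] with x h1 h2
  rw [h] at h1
  rw [h2, Pi.smul_apply, smul_eq_mul] at h1
  rw [h1]
  rfl

theorem eig_bound {Ω : Set ℂ} (hm : MeasurableSet Ω) {ρ : ℝ} (hΩρ : Ω ⊆ ball 0 ρ) {lam : ℝ}
    (h : IsEig Ω lam) : lam ^ 2 ≤ volume.real Ω * c2 (2 * ρ) := by
  have hfin := fin_of_ball hΩρ
  obtain ⟨u, hu, hu0, hlam⟩ := h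
  set μ : Measure ℂ := volume.restrict Ω with hμ
  have hk := hsk_lk hm hΩρ
  set w : Lp ℝ 2 μ := hu.toLp u with hw
  have hw0 : w ≠ 0 := by
    intro h0
    apply hu0
    have := (Lp.eq_zero_iff_ae_eq_zero).1 h0
    exact hu.coeFn_toLp.symm.trans this
  have hwn : 0 < ‖w‖ := norm_pos_iff.2 hw0
  have heq : KOp hk w = lam • w := by
    apply Lp.ext
    filter_upwards [KOp_apply hk w, Lp.coeFn_smul lam w, hlam, hu.coeFn_toLp] with x h1 h2 h3 h4
    rw [h1, h2, Pi.smul_apply, smul_eq_mul, h4, ← h3]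
    refine integral_congr_ae ?_
    filter_upwards [hu.coeFn_toLp] with y hy
    rw [hy]
    rfl
  have h1 : ‖KOp hk w‖ ≤ ((measureUnivNNReal μ : ℝ) ^ (2 : ℝ≥0∞).toReal⁻¹
      * Real.sqrt (c2 (2 * ρ))) * ‖w‖ := by
    refine ((KOp hk).le_opNorm w).trans (mul_le_mul_of_nonneg_right ?_ (norm_nonneg _))
    exact LinearMap.mkContinuous_norm_le _ (mul_nonneg (by positivity) (Real.sqrt_nonneg _)) _
  rw [heq, norm_smul] at h1
  have h2 : |lam| ≤ (measureUnivNNReal μ : ℝ) ^ (2 : ℝ≥0∞).toReal⁻¹ * Real.sqrt (c2 (2 * ρ)) :=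
    le_of_mul_le_mul_right h1 hwn
  have h3 : ((measureUnivNNReal μ : ℝ) ^ (2 : ℝ≥0∞).toReal⁻¹) ^ 2 = volume.real Ω := by
    rw [← Real.rpow_natCast, ← Real.rpow_mul (by positivity)]
    have : (2 : ℝ≥0∞).toReal⁻¹ * ((2 : ℕ) : ℝ) = 1 := by simp
    rw [this, Real.rpow_one]
    have h4 : ((measureUnivNNReal μ : NNReal) : ℝ) = μ.real univ := rfl
    rw [h4, hμ, measureReal_restrict_apply_univ]
  rw [← sq_abs]
  refine (pow_le_pow_left₀ (abs_nonneg _) h2 2).trans_eq ?_
  rw [mul_pow, h3, Real.sq_sqrt (c2_nonneg _)]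

theorem log_int (r : ℝ) : IntegrableOn (fun z : ℂ => Real.log ‖z‖) (ball 0 r) volume := by
  have hfin := fin_of_ball (subset_refl (ball (0 : ℂ) r))
  have h1 : IntegrableOn (fun z : ℂ => 1 + Real.log ‖z‖ ^ 2) (ball 0 r) volume :=
    (integrable_const _).add (logsq_int r)
  refine h1.mono' (Real.measurable_log.comp measurable_norm).aestronglyMeasurable
    (Eventually.of_forall fun z => ?_)
  rw [Real.norm_eq_abs]
  nlinarith [sq_abs (Real.log ‖z‖), sq_nonneg (|Real.log ‖z‖| - 1)]

/-- the constant -/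
noncomputable def MM : ℝ := ∫ z in ball (0 : ℂ) (Real.exp 1), (1 - Real.log ‖z‖)

theorem ball_row {R : ℝ} {x : ℂ} (hx : x ∈ ball (0 : ℂ) R) :
    ∫ y in ball (0 : ℂ) R, lk x y ≤ -volume.real (ball (0 : ℂ) R) + MM := by
  have hfin := fin_of_ball (subset_refl (ball (0 : ℂ) R))
  have hfinE := fin_of_ball (subset_refl (ball (0 : ℂ) (Real.exp 1)))
  have hE : IntegrableOn (fun z : ℂ => 1 - Real.log ‖z‖) (ball 0 (Real.exp 1)) volume :=
    (integrable_const _).sub (log_int _)
  have hsh := shift_int hE x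
  have hind : Integrable ((ball x (Real.exp 1)).indicator fun y => 1 - Real.log ‖x - y‖) volume :=
    (integrable_indicator_iff measurableSet_ball).2 hsh.1
  have hnn : ∀ y, 0 ≤ (ball x (Real.exp 1)).indicator (fun y => 1 - Real.log ‖x - y‖) y := by
    intro y
    by_cases hy : y ∈ ball x (Real.exp 1)
    · rw [indicator_of_mem hy]
      rw [mem_ball, dist_eq_norm, norm_sub_rev] at hy
      rcases eq_or_lt_of_le (norm_nonneg (x - y)) with h0 | h0
      · rw [← h0, Real.log_zero]; norm_num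
      · have := Real.log_lt_log h0 hy
        rw [Real.log_exp] at this
        linarith
    · rw [indicator_of_notMem hy]
  have hlkint : Integrable (fun y => lk x y) (volume.restrict (ball (0 : ℂ) R)) :=
    (row_memLp lk_meas (row_bound (subset_refl _) hx).1).integrable (by norm_num)
  have h1 : ∫ y in ball (0 : ℂ) R, lk x y ≤ ∫ y in ball (0 : ℂ) R,
      (-1 + (ball x (Real.exp 1)).indicator (fun y => 1 - Real.log ‖x - y‖) y) := by
    refine integral_mono hlkint ((integrable_const _).add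
      (hind.mono_measure Measure.restrict_le_self)) fun y => ?_
    simp only
    rw [lk_eq]
    by_cases hy : y ∈ ball x (Real.exp 1)
    · rw [indicator_of_mem hy]
      linarith
    · rw [indicator_of_notMem hy]
      rw [mem_ball, dist_eq_norm, norm_sub_rev, not_lt] at hy
      have := Real.log_le_log (Real.exp_pos 1) hy
      rw [Real.log_exp] at this
      linarith
  refine h1.trans ?_
  rw [integral_add (integrable_const _) (hind.mono_measure Measure.restrict_le_self)]
  have h2 : ∫ y in ball (0 : ℂ) R,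
      (ball x (Real.exp 1)).indicator (fun y => 1 - Real.log ‖x - y‖) y ≤ MM := by
    refine (setIntegral_le_integral hind (Eventually.of_forall hnn)).trans_eq ?_
    rw [integral_indicator measurableSet_ball]
    exact hsh.2
  have h3 : ∫ _ in ball (0 : ℂ) R, (-1 : ℝ) = -volume.real (ball (0 : ℂ) R) := by
    rw [integral_const, smul_eq_mul, measureReal_restrict_apply_univ]
    ring
  rw [h3]
  linarith

theorem disc_eig {R : ℝ} (hR : 0 < R) (hV : MM + 1 ≤ volume.real (ball (0 : ℂ) R)) :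
    ∃ lam : ℝ, lam ≤ -1 ∧ IsEig (ball (0 : ℂ) R) lam := by
  have hfin := fin_of_ball (subset_refl (ball (0 : ℂ) R))
  set μ : Measure ℂ := volume.restrict (ball (0 : ℂ) R) with hμ
  have hk := hsk_lk (Ω := ball (0 : ℂ) R) measurableSet_ball (subset_refl _)
  have hc : MemLp (fun _ : ℂ => (1 : ℝ)) 2 μ := memLp_const 1
  set v : Lp ℝ 2 μ := hc.toLp _ with hv
  have hVpos : 0 < volume.real (ball (0 : ℂ) R) := by
    rw [Measure.real]
    exact ENNReal.toReal_pos (measure_ball_pos volume 0 hR).ne' measure_ball_lt_top.ne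
  have hvn : ‖v‖ ^ 2 = volume.real (ball (0 : ℂ) R) := by
    rw [← real_inner_self_eq_norm_sq, L2.inner_def]
    have : ∫ x, ⟪v x, v x⟫_ℝ ∂μ = ∫ _, (1 : ℝ) ∂μ := by
      refine integral_congr_ae ?_
      filter_upwards [hc.coeFn_toLp] with x hx
      rw [hx]
      simp
    rw [this, integral_const, smul_eq_mul, mul_one, hμ, measureReal_restrict_apply_univ]
  have hv0 : v ≠ 0 := by
    intro h0
    rw [h0, norm_zero] at hvn
    norm_num at hvn
    linarith
  have hq : ⟪KOp hk v, v⟫_ℝ ≤ -1 * ‖v‖ ^ 2 := by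
    rw [hvn, L2.inner_def]
    have h1 : ∫ x, ⟪KOp hk v x, v x⟫_ℝ ∂μ = ∫ x, (∫ y, lk x y ∂μ) ∂μ := by
      refine integral_congr_ae ?_
      filter_upwards [KOp_apply hk v, hc.coeFn_toLp] with x h2 h3
      rw [h2, h3]
      have h4 : ∫ y, lk x y * v y ∂μ = ∫ y, lk x y ∂μ := by
        refine integral_congr_ae ?_
        filter_upwards [hc.coeFn_toLp] with y hy
        rw [hy, mul_one]
      rw [h4]
      simp
    rw [h1]
    have hintT : Integrable (fun x => ∫ y, lk x y ∂μ) μ := by
      have h5 : Integrable (KOp hk v) μ := (Lp.memLp _).integrable (by norm_num)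
      refine h5.congr ?_
      filter_upwards [KOp_apply hk v] with x h2
      rw [h2]
      refine integral_congr_ae ?_
      filter_upwards [hc.coeFn_toLp] with y hy
      rw [hy, mul_one]
    have h2 : ∫ x, (∫ y, lk x y ∂μ) ∂μ ≤ ∫ _, (-1 : ℝ) ∂μ := by
      refine integral_mono_ae hintT (integrable_const _) ?_
      filter_upwards [ae_restrict_mem measurableSet_ball] with x hx
      have := ball_row hx
      linarith
    refine h2.trans_eq ?_
    rw [integral_const, smul_eq_mul, hμ, measureReal_restrict_apply_univ]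
    ring
  obtain ⟨lam, hlam, w, hw0, hw⟩ := exists_neg_eig (KOp hk) (KOp_symm hk lk_symm)
    (lk_compact measurableSet_ball (subset_refl _)) one_pos hv0 hq
  exact ⟨lam, hlam, eig_of_op measurableSet_ball (subset_refl _) hw0 hw⟩

/-- the annulus -/
def ann (R t : ℝ) : Set ℂ := ball 0 R \ closedBall 0 (R - t)

theorem ann_open (R t : ℝ) : IsOpen (ann R t) := isOpen_ball.sdiff isClosed_closedBall

theorem ann_conn {R t : ℝ} (ht : 0 < t) (htR : t < R) : IsConnected (ann R t) := by
  have h : ann R t = (fun p : ℝ × ℂ => (p.1 : ℂ) * p.2) '' (Ioo (R - t) R ×ˢ sphere (0 : ℂ) 1) := by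
    ext z
    constructor
    · rintro ⟨h1, h2⟩
      rw [mem_ball_zero_iff] at h1
      rw [mem_closedBall_zero_iff, not_le] at h2
      have hz : 0 < ‖z‖ := by linarith
      refine ⟨(‖z‖, z / ‖z‖), ⟨⟨h2, h1⟩, ?_⟩, ?_⟩
      · rw [mem_sphere_zero_iff_norm, norm_div, Complex.norm_real, norm_norm, div_self hz.ne']
      · have : (‖z‖ : ℂ) ≠ 0 := by exact_mod_cast hz.ne'
        simp only
        field_simp
    · rintro ⟨⟨r, w⟩, ⟨⟨h1, h2⟩, h3⟩, rfl⟩
      rw [mem_sphere_zero_iff_norm] at h3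
      simp only at h1 h2 h3 ⊢
      have hr : 0 < r := by linarith
      have hn : ‖(r : ℂ) * w‖ = r := by
        rw [norm_mul, h3, mul_one, Complex.norm_real, Real.norm_eq_abs, abs_of_pos hr]
      refine ⟨?_, ?_⟩
      · rw [mem_ball_zero_iff, hn]
        exact h2
      · rw [mem_closedBall_zero_iff, hn, not_le]
        exact h1
  rw [h]
  refine IsConnected.image (IsConnected.prod (isConnected_Ioo (by linarith)) ?_) _ ?_
  · refine isConnected_sphere ?_ 0 zero_le_one
    rw [Complex.rank_real_complex]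
    norm_num
  · exact ((Complex.continuous_ofReal.comp continuous_fst).mul continuous_snd).continuousOn

theorem ann_closure {R t : ℝ} (ht : 0 < t) (htR : t < R) :
    closure (ann R t) ⊆ closedBall 0 R ∧ sphere (0 : ℂ) R ⊆ closure (ann R t) := by
  constructor
  · exact closure_minimal (sdiff_subset.trans ball_subset_closedBall) isClosed_closedBall
  · intro z hz
    rw [mem_sphere_zero_iff_norm] at hz
    have hR : 0 < R := ht.trans htR
    rw [Metric.mem_closure_iff]
    intro ε hε
    set s : ℝ := min ε t / (2 * R) with hs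
    have hm : 0 < min ε t := lt_min hε ht
    have hs0 : 0 < s := by positivity
    have hsR : s * R = min ε t / 2 := by rw [hs]; field_simp
    have hs1 : s < 1 := by
      rw [hs, div_lt_one (by positivity)]
      have := min_le_right ε t
      linarith
    refine ⟨((1 - s : ℝ) : ℂ) * z, ⟨?_, ?_⟩, ?_⟩
    · rw [mem_ball_zero_iff, norm_mul, hz, Complex.norm_real, Real.norm_eq_abs,
        abs_of_pos (by linarith)]
      nlinarith
    · rw [mem_closedBall_zero_iff, norm_mul, hz, Complex.norm_real, Real.norm_eq_abs,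
        abs_of_pos (by linarith), not_le]
      have := min_le_right ε t
      nlinarith
    · rw [dist_eq_norm]
      have e : z - ((1 - s : ℝ) : ℂ) * z = (s : ℂ) * z := by push_cast; ring
      rw [e, norm_mul, hz, Complex.norm_real, Real.norm_eq_abs, abs_of_pos hs0, hsR]
      have := min_le_left ε t
      linarith

theorem vol_ball {R : ℝ} (hR : 0 ≤ R) : volume.real (ball (0 : ℂ) R) = Real.pi * R ^ 2 := by
  rw [Measure.real, Complex.volume_ball, ENNReal.toReal_mul, ENNReal.toReal_pow,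
    ENNReal.toReal_ofReal hR]
  simp [mul_comm]

theorem vol_cball {R : ℝ} (hR : 0 ≤ R) : volume.real (closedBall (0 : ℂ) R) = Real.pi * R ^ 2 := by
  rw [Measure.real, Complex.volume_closedBall, ENNReal.toReal_mul, ENNReal.toReal_pow,
    ENNReal.toReal_ofReal hR]
  simp [mul_comm]

theorem vol_ann {R t : ℝ} (ht : 0 < t) (htR : t < R) :
    volume.real (ann R t) ≤ 2 * Real.pi * R * t := by
  unfold ann
  rw [measureReal_sdiff (closedBall_subset_ball (by linarith)) measurableSet_closedBall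
    measure_ball_lt_top.ne, vol_ball (by linarith), vol_cball (by linarith)]
  have := Real.pi_pos
  nlinarith [mul_pos this (mul_pos ht ht)]

theorem main : ∃ (Ω : Set ℂ) (R : ℝ), IsOpen Ω ∧ IsConnected Ω ∧ Bornology.IsBounded Ω ∧ 0 < R ∧
    IsTransfiniteDiameter (closure Ω) R ∧ tau (ball 0 R) < tau Ω := by
  obtain ⟨R, hR1, hRV⟩ : ∃ R : ℝ, 1 ≤ R ∧ MM + 1 ≤ Real.pi * R ^ 2 := by
    refine ⟨max 1 (MM + 1), le_max_left _ _, ?_⟩
    have h1 : MM + 1 ≤ max 1 (MM + 1) := le_max_right _ _
    have h2 : 1 ≤ max 1 (MM + 1) := le_max_left _ _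
    have h3 : (1 : ℝ) ≤ Real.pi := by linarith [Real.pi_gt_three]
    nlinarith [mul_le_mul h3 (pow_le_pow_left₀ zero_le_one h2 2) (by positivity) (by positivity),
      sq_nonneg (max 1 (MM + 1))]
  have hR : 0 < R := by linarith
  have hpi := Real.pi_pos
  set C : ℝ := c2 (2 * R) with hC
  have hC0 : 0 ≤ C := c2_nonneg _
  set t : ℝ := min (R / 2) (1 / (8 * Real.pi * R * (C + 1))) with ht
  have ht0 : 0 < t := by positivity
  have htR : t < R := (min_le_left _ _).trans_lt (by linarith)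
  have htC : t ≤ 1 / (8 * Real.pi * R * (C + 1)) := min_le_right _ _
  have hannR : ann R t ⊆ ball 0 R := sdiff_subset
  have hm : MeasurableSet (ann R t) := (ann_open R t).measurableSet
  refine ⟨ann R t, R, ann_open R t, ann_conn ht0 htR, isBounded_ball.subset hannR, hR,
    tdiam hR (ann_closure ht0 htR).1 (ann_closure ht0 htR).2, ?_⟩
  have h1 : tau (ball 0 R) ≤ -1 := by
    obtain ⟨lam, hlam, hE⟩ := disc_eig hR (by rw [vol_ball hR.le]; exact hRV)
    have hmem : lam ∈ ({0} ∪ {lam | lam < 0 ∧ IsEig (ball (0 : ℂ) R) lam} : Set ℝ) :=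
      Or.inr ⟨by linarith, hE⟩
    refine (csInf_le ?_ hmem).trans hlam
    refine ⟨-(1 + volume.real (ball (0 : ℂ) R) * c2 (2 * R)), ?_⟩
    have hnn : 0 ≤ volume.real (ball (0 : ℂ) R) * c2 (2 * R) :=
      mul_nonneg measureReal_nonneg (c2_nonneg _)
    rintro l (hl | hl)
    · rw [mem_singleton_iff] at hl
      rw [hl]
      linarith
    · have := eig_bound measurableSet_ball (subset_refl _) hl.2
      nlinarith [hl.1]
  have h2 : -(1 / 2) ≤ tau (ann R t) := by
    refine le_csInf ⟨0, Or.inl rfl⟩ ?_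
    rintro l (hl | hl)
    · rw [mem_singleton_iff] at hl
      rw [hl]
      norm_num
    · have h3 := eig_bound hm hannR hl.2
      have h4 : volume.real (ann R t) * c2 (2 * R) ≤ 1 / 4 := by
        have h5 := vol_ann ht0 htR
        have h6 : 2 * Real.pi * R * t ≤ 1 / (4 * (C + 1)) := by
          calc 2 * Real.pi * R * t ≤ 2 * Real.pi * R * (1 / (8 * Real.pi * R * (C + 1))) := by
                gcongr
            _ = 1 / (4 * (C + 1)) := by
                field_simp
                ring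
        calc volume.real (ann R t) * c2 (2 * R) ≤ (1 / (4 * (C + 1))) * C :=
              mul_le_mul (h5.trans h6) le_rfl hC0 (by positivity)
          _ = (1 / 4) * (C / (C + 1)) := by field_simp
          _ ≤ (1 / 4) * 1 := by
              have : C / (C + 1) ≤ 1 := by
                rw [div_le_one (by positivity)]
                linarith
              gcongr
          _ = 1 / 4 := by ring
      nlinarith [hl.1]
  linarith

end Pool.Agent.V1180.LP
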