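import Mathlib

set_option autoImplicit false

/-!
# A compactly supported function on `ℝ⁴` with gradient of norm one on a segment only
-/

namespace Pool.Agent.V1180.LS

open Real MeasureTheory Filter Topology Set
open scoped ContDiff

/-- the bump on the line -/
noncomputable def bu : ContDiffBump (0 : ℝ) := ⟨1, 2, one_pos, one_lt_two⟩

theorem bu_one {t : ℝ} (h : |t| ≤ 1) : bu t = 1 :=
  bu.one_of_mem_closedBall (by rw [Metric.mem_closedBall, Real.dist_eq, sub_zero]; exact h)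

theorem bu_zero {t : ℝ} (h : 2 ≤ |t|) : bu t = 0 :=
  bu.zero_of_le_dist (by rw [Real.dist_eq, sub_zero]; exact h)

/-- the derivative of the profile -/
noncomputable def ze (t : ℝ) : ℝ := bu t - bu (t - 4) / 2 - bu (t + 4) / 2

theorem ze_contDiff : ContDiff ℝ ∞ ze := by
  have h : ContDiff ℝ ∞ (bu : ℝ → ℝ) := bu.contDiff
  have h1 : ContDiff ℝ ∞ (fun t : ℝ => bu (t - 4)) := h.comp (contDiff_id.sub contDiff_const)
  have h2 : ContDiff ℝ ∞ (fun t : ℝ => bu (t + 4)) := h.comp (contDiff_id.add contDiff_const)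
  exact (h.sub (h1.div_const 2)).sub (h2.div_const 2)

theorem ze_abs (t : ℝ) : |ze t| ≤ 1 := by
  unfold ze
  have a0 : 0 ≤ bu t := bu.nonneg
  have a1 : bu t ≤ 1 := bu.le_one
  have b0 : 0 ≤ bu (t - 4) := bu.nonneg
  have b1 : bu (t - 4) ≤ 1 := bu.le_one
  have c0 : 0 ≤ bu (t + 4) := bu.nonneg
  have c1 : bu (t + 4) ≤ 1 := bu.le_one
  rw [abs_le]
  constructor <;> linarith

theorem ze_one {t : ℝ} (h : |t| ≤ 1) : ze t = 1 := by
  unfold ze
  rw [abs_le] at h
  rw [bu_one (abs_le.2 h), bu_zero (t := t - 4), bu_zero (t := t + 4)]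
  · norm_num
  · rw [le_abs]; left; linarith [h.1]
  · rw [le_abs]; right; linarith [h.2]

theorem ze_zero {t : ℝ} (h : 6 ≤ |t|) : ze t = 0 := by
  unfold ze
  rw [bu_zero (t := t), bu_zero (t := t - 4), bu_zero (t := t + 4)]
  · norm_num
  · rw [le_abs] at h ⊢; rcases h with h | h
    · left; linarith
    · right; linarith
  · rw [le_abs] at h ⊢; rcases h with h | h
    · left; linarith
    · right; linarith
  · linarith

theorem ze_even (t : ℝ) : ze (-t) = ze t := by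
  unfold ze
  rw [bu.neg, show -t - 4 = -(t + 4) by ring, show -t + 4 = -(t - 4) by ring, bu.neg, bu.neg]
  ring

/-- the profile -/
noncomputable def et (t : ℝ) : ℝ := ∫ τ in (0:ℝ)..t, ze τ

theorem et_hasDeriv (t : ℝ) : HasDerivAt et (ze t) t :=
  (ze_contDiff.continuous.integral_hasStrictDerivAt 0 t).hasDerivAt

theorem et_contDiff : ContDiff ℝ ∞ et := by
  rw [contDiff_infty_iff_deriv]
  have : deriv et = ze := funext fun t => (et_hasDeriv t).deriv
  rw [this]
  exact ⟨fun t => (et_hasDeriv t).differentiableAt, ze_contDiff⟩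

theorem et_odd (t : ℝ) : et (-t) = -et t := by
  unfold et
  have h := intervalIntegral.integral_comp_neg (f := ze) (a := 0) (b := t)
  rw [neg_zero] at h
  rw [intervalIntegral.integral_symm, ← h]
  congr 1
  apply intervalIntegral.integral_congr
  intro x _
  exact ze_even x

theorem et_id {t : ℝ} (h : |t| ≤ 1) : et t = t := by
  have key : ∀ t : ℝ, 0 ≤ t → t ≤ 1 → et t = t := by
    intro t h0 h1
    unfold et
    have : ∫ τ in (0:ℝ)..t, ze τ = ∫ _τ in (0:ℝ)..t, (1:ℝ) := by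
      apply intervalIntegral.integral_congr
      intro x hx
      rw [uIcc_of_le h0] at hx
      exact ze_one (abs_le.2 ⟨by linarith [hx.1], by linarith [hx.2]⟩)
    rw [this]
    simp
  rw [abs_le] at h
  rcases le_total 0 t with h0 | h0
  · exact key t h0 h.2
  · have := key (-t) (by linarith) (by linarith [h.1])
    rw [et_odd] at this
    linarith

theorem et_zero {t : ℝ} (h : 6 ≤ |t|) : et t = 0 := by
  have key : ∀ t : ℝ, 6 ≤ t → et t = 0 := by
    intro t ht
    have hb : ∀ a b : ℝ, IntervalIntegrable (bu : ℝ → ℝ) volume a b := fun a b => (bu.contDiff (n := 0)).continuous.intervalIntegrable a b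
    have hz : ∀ a b : ℝ, (∀ x ∈ uIcc a b, bu x = 0) → ∫ x in a..b, bu x = 0 := by
      intro a b h
      rw [intervalIntegral.integral_congr (g := fun _ => (0:ℝ)) h]
      simp
    have c : Continuous (bu : ℝ → ℝ) := (bu.contDiff (n := 0)).continuous
    have e1 : et t = (∫ x in (0:ℝ)..t, bu x) - (∫ x in (0:ℝ)..t, bu (x - 4)) / 2 - (∫ x in (0:ℝ)..t, bu (x + 4)) / 2 := by
      unfold et ze
      have i1 : IntervalIntegrable (fun x => bu x) volume 0 t := hb 0 t
      have i2 : IntervalIntegrable (fun x => bu (x - 4) / 2) volume 0 t := by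
        apply Continuous.intervalIntegrable
        fun_prop
      have i3 : IntervalIntegrable (fun x => bu (x + 4) / 2) volume 0 t := by
        apply Continuous.intervalIntegrable
        fun_prop
      rw [intervalIntegral.integral_sub (i1.sub i2) i3, intervalIntegral.integral_sub i1 i2,
        intervalIntegral.integral_div, intervalIntegral.integral_div]
    have e2 : ∫ x in (0:ℝ)..t, bu (x - 4) = ∫ x in (-4:ℝ)..(t - 4), bu x := by
      rw [intervalIntegral.integral_comp_sub_right (fun x => bu x) 4]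
      norm_num
    have e3 : ∫ x in (0:ℝ)..t, bu (x + 4) = ∫ x in (4:ℝ)..(t + 4), bu x := by
      rw [intervalIntegral.integral_comp_add_right (fun x => bu x) 4]
      norm_num
    have e4 : ∫ x in (4:ℝ)..(t + 4), bu x = 0 := by
      apply hz
      intro x hx
      rw [uIcc_of_le (by linarith)] at hx
      exact bu_zero (by rw [le_abs]; left; linarith [hx.1])
    have f1 : ∫ x in (0:ℝ)..t, bu x = ∫ x in (0:ℝ)..2, bu x := by
      rw [← intervalIntegral.integral_add_adjacent_intervals (hb 0 2) (hb 2 t), hz 2 t, add_zero]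
      intro x hx
      rw [uIcc_of_le (by linarith)] at hx
      exact bu_zero (by rw [le_abs]; left; linarith [hx.1])
    have f2 : ∫ x in (-4:ℝ)..(t - 4), bu x = 2 * ∫ x in (0:ℝ)..2, bu x := by
      rw [← intervalIntegral.integral_add_adjacent_intervals (hb (-4) 0) (hb 0 (t - 4)),
        ← intervalIntegral.integral_add_adjacent_intervals (hb (-4) (-2)) (hb (-2) 0),
        ← intervalIntegral.integral_add_adjacent_intervals (hb 0 2) (hb 2 (t - 4)), hz (-4) (-2), hz 2 (t - 4)]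
      · have h := intervalIntegral.integral_comp_neg (f := fun x => bu x) (a := 0) (b := 2)
        simp only [bu.neg, neg_zero] at h
        rw [← h]
        ring
      · intro x hx
        rw [uIcc_of_le (by linarith)] at hx
        exact bu_zero (by rw [le_abs]; left; linarith [hx.1])
      · intro x hx
        rw [uIcc_of_le (by linarith)] at hx
        exact bu_zero (by rw [le_abs]; right; linarith [hx.2])
    rw [e1, e2, e3, e4, f1, f2]
    ring
  rw [le_abs] at h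
  rcases h with h | h
  · exact key t h
  · have := key (-t) h
    rw [et_odd] at this
    linarith

/-- the transversal profile -/
noncomputable def Gt (τ : ℝ) : ℝ := (1 - τ) * bu (2 * τ)

theorem Gt_contDiff : ContDiff ℝ ∞ Gt := by
  have h : ContDiff ℝ ∞ (bu : ℝ → ℝ) := bu.contDiff
  have h1 : ContDiff ℝ ∞ (fun t : ℝ => bu (2 * t)) := h.comp (contDiff_const.mul contDiff_id)
  exact (contDiff_const.sub contDiff_id).mul h1

theorem Gt_at_zero : Gt 0 = 1 := by
  unfold Gt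
  rw [mul_zero, bu_one (by simp)]
  ring

theorem Gt_zero {τ : ℝ} (h : 1 ≤ |τ|) : Gt τ = 0 := by
  unfold Gt
  rw [bu_zero (by rw [abs_mul]; norm_num; linarith), mul_zero]

theorem Gt_sq {τ : ℝ} (h0 : 0 ≤ τ) (h1 : τ ≤ 1) : τ ≤ 1 - Gt τ ^ 2 := by
  have hb0 : 0 ≤ bu (2 * τ) := bu.nonneg
  have hb1 : bu (2 * τ) ≤ 1 := bu.le_one
  have h2 : 0 ≤ Gt τ := mul_nonneg (by linarith) hb0
  have h3 : Gt τ ≤ 1 - τ := by
    unfold Gt
    nlinarith
  nlinarith

theorem Gt_compact : HasCompactSupport Gt := by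
  apply HasCompactSupport.intro (K := Icc (-1) 1) isCompact_Icc
  intro x hx
  apply Gt_zero
  by_contra hcon
  push Not at hcon
  rw [abs_lt] at hcon
  exact hx ⟨hcon.1.le, hcon.2.le⟩

theorem Gt_deriv_bound : ∃ C : ℝ, 0 < C ∧ ∀ τ, |deriv Gt τ| ≤ C := by
  obtain ⟨C, hC⟩ := Gt_compact.deriv.exists_bound_of_continuous (Gt_contDiff.continuous_deriv (by simp))
  exact ⟨max C 1, lt_max_of_lt_right one_pos, fun τ => (hC τ).trans (le_max_left _ _)⟩

theorem Gt_deriv_zero {τ : ℝ} (h : 1 < τ) : deriv Gt τ = 0 := by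
  have : Gt =ᶠ[𝓝 τ] fun _ => 0 := by
    filter_upwards [Ioi_mem_nhds h] with z hz
    simp only [mem_Ioi] at hz
    exact Gt_zero (by rw [le_abs]; left; linarith)
  rw [this.deriv_eq]
  simp

theorem et_bound : ∃ M : ℝ, 0 < M ∧ ∀ t, |et t| ≤ M := by
  have hc : HasCompactSupport et := by
    apply HasCompactSupport.intro (K := Icc (-6) 6) isCompact_Icc
    intro x hx
    apply et_zero
    by_contra hcon
    push Not at hcon
    rw [abs_lt] at hcon
    exact hx ⟨hcon.1.le, hcon.2.le⟩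
  obtain ⟨C, hC⟩ := hc.exists_bound_of_continuous et_contDiff.continuous
  exact ⟨max C 1, lt_max_of_lt_right one_pos, fun τ => (hC τ).trans (le_max_left _ _)⟩

/-- the space -/
abbrev R4 : Type := EuclideanSpace ℝ (Fin 4)

/-- the square of the distance to the last axis -/
noncomputable def rh (x : R4) : ℝ := x 0 ^ 2 + x 1 ^ 2 + x 2 ^ 2

/-- the block -/
noncomputable def Ub (κ : ℝ) (x : R4) : ℝ := et (x 3) * Gt (κ * rh x)

theorem co_hasFDeriv (i : Fin 4) (x : R4) : HasFDerivAt (fun x : R4 => x i) (EuclideanSpace.proj i : R4 →L[ℝ] ℝ) x :=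
  (EuclideanSpace.proj i : R4 →L[ℝ] ℝ).hasFDerivAt

theorem rh_hasFDeriv (x : R4) : HasFDerivAt rh ((2 * x 0) • (EuclideanSpace.proj 0 : R4 →L[ℝ] ℝ) +
    (2 * x 1) • (EuclideanSpace.proj 1 : R4 →L[ℝ] ℝ) + (2 * x 2) • (EuclideanSpace.proj 2 : R4 →L[ℝ] ℝ)) x := by
  have h : ∀ i : Fin 4, HasFDerivAt (fun x : R4 => x i ^ 2) ((2 * x i) • (EuclideanSpace.proj i : R4 →L[ℝ] ℝ)) x := by
    intro i
    have := (co_hasFDeriv i x).pow 2
    refine this.congr_fderiv ?_
    ext v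
    simp
  exact ((h 0).add (h 1)).add (h 2)

theorem Ub_hasFDeriv (κ : ℝ) (x : R4) : HasFDerivAt (Ub κ)
    (et (x 3) • ((deriv Gt (κ * rh x)) • (κ • ((2 * x 0) • (EuclideanSpace.proj 0 : R4 →L[ℝ] ℝ) +
    (2 * x 1) • (EuclideanSpace.proj 1 : R4 →L[ℝ] ℝ) + (2 * x 2) • (EuclideanSpace.proj 2 : R4 →L[ℝ] ℝ)))) +
    Gt (κ * rh x) • (ze (x 3) • (EuclideanSpace.proj 3 : R4 →L[ℝ] ℝ))) x := by
  have h1 : HasFDerivAt (fun x : R4 => et (x 3)) (ze (x 3) • (EuclideanSpace.proj 3 : R4 →L[ℝ] ℝ)) x := by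
    have hd : HasDerivAt et (ze (x 3)) (x 3) := et_hasDeriv (x 3)
    exact hd.comp_hasFDerivAt x (co_hasFDeriv 3 x)
  have h2 : HasFDerivAt (fun x : R4 => Gt (κ * rh x)) ((deriv Gt (κ * rh x)) • (κ • ((2 * x 0) • (EuclideanSpace.proj 0 : R4 →L[ℝ] ℝ) +
    (2 * x 1) • (EuclideanSpace.proj 1 : R4 →L[ℝ] ℝ) + (2 * x 2) • (EuclideanSpace.proj 2 : R4 →L[ℝ] ℝ)))) x := by
    have hd : HasDerivAt Gt (deriv Gt (κ * rh x)) (κ * rh x) := (Gt_contDiff.differentiable (by simp) _).hasDerivAt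
    exact hd.comp_hasFDerivAt x ((rh_hasFDeriv x).const_mul κ)
  exact h1.mul h2

theorem rh_contDiff : ContDiff ℝ ∞ rh := by
  unfold rh
  have h : ∀ i : Fin 4, ContDiff ℝ ∞ (fun x : R4 => x i) := fun i => (EuclideanSpace.proj i : R4 →L[ℝ] ℝ).contDiff
  exact (((h 0).pow 2).add ((h 1).pow 2)).add ((h 2).pow 2)

theorem Ub_contDiff (κ : ℝ) : ContDiff ℝ ∞ (Ub κ) := by
  have h : ContDiff ℝ ∞ (fun x : R4 => x 3) := (EuclideanSpace.proj 3 : R4 →L[ℝ] ℝ).contDiff
  exact (et_contDiff.comp h).mul (Gt_contDiff.comp (contDiff_const.mul rh_contDiff))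

/-- the vectors of the basis -/
noncomputable def ev (i : Fin 4) : R4 := EuclideanSpace.single i 1

/-- the partial derivatives -/
noncomputable def pd (U : R4 → ℝ) (i : Fin 4) (x : R4) : ℝ := fderiv ℝ U x (ev i)

/-- `1 - |∇U|²` -/
noncomputable def qq (U : R4 → ℝ) (x : R4) : ℝ := 1 - ∑ i, pd U i x ^ 2

theorem qq_Ub (κ : ℝ) (x : R4) : qq (Ub κ) x =
    1 - ze (x 3) ^ 2 * Gt (κ * rh x) ^ 2 - 4 * κ ^ 2 * et (x 3) ^ 2 * deriv Gt (κ * rh x) ^ 2 * rh x := by
  unfold qq pd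
  rw [(Ub_hasFDeriv κ x).fderiv, Fin.sum_univ_four]
  simp [ev, rh]
  ring

/-- the lower bound for `1 - |∇U|²` -/
theorem exists_kappa : ∃ κ : ℝ, 0 < κ ∧ (∀ x : R4, κ * rh x ≤ 1 → κ / 2 * rh x ≤ qq (Ub κ) x) ∧
    (∀ x : R4, 1 < κ * rh x → qq (Ub κ) x = 1) := by
  obtain ⟨C, hC, hCb⟩ := Gt_deriv_bound
  obtain ⟨M, hM, hMb⟩ := et_bound
  refine ⟨1 / (8 * M ^ 2 * C ^ 2), by positivity, ?_, ?_⟩
  · intro x hx
    set κ := 1 / (8 * M ^ 2 * C ^ 2) with hκ
    have hκ0 : 0 < κ := by positivity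
    have hr : 0 ≤ rh x := by unfold rh; positivity
    rw [qq_Ub]
    have h1 := Gt_sq (by positivity : 0 ≤ κ * rh x) hx
    have h2 : ze (x 3) ^ 2 ≤ 1 := by
      have := ze_abs (x 3)
      rw [← sq_abs]
      exact pow_le_one₀ (abs_nonneg _) this
    have h3 : et (x 3) ^ 2 ≤ M ^ 2 := by
      rw [← sq_abs]
      exact pow_le_pow_left₀ (abs_nonneg _) (hMb _) 2
    have h4 : deriv Gt (κ * rh x) ^ 2 ≤ C ^ 2 := by
      rw [← sq_abs]
      exact pow_le_pow_left₀ (abs_nonneg _) (hCb _) 2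
    have h5 : et (x 3) ^ 2 * deriv Gt (κ * rh x) ^ 2 ≤ M ^ 2 * C ^ 2 := mul_le_mul h3 h4 (sq_nonneg _) (sq_nonneg _)
    have h6 : 4 * κ ^ 2 * et (x 3) ^ 2 * deriv Gt (κ * rh x) ^ 2 * rh x ≤ κ / 2 * rh x := by
      have e : κ * (M ^ 2 * C ^ 2) = 1 / 8 := by
        rw [hκ]
        field_simp
      have : 4 * κ ^ 2 * et (x 3) ^ 2 * deriv Gt (κ * rh x) ^ 2 * rh x = 4 * κ ^ 2 * rh x * (et (x 3) ^ 2 * deriv Gt (κ * rh x) ^ 2) := by ring
      rw [this]
      calc 4 * κ ^ 2 * rh x * (et (x 3) ^ 2 * deriv Gt (κ * rh x) ^ 2) ≤ 4 * κ ^ 2 * rh x * (M ^ 2 * C ^ 2) :=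
            mul_le_mul_of_nonneg_left h5 (by positivity)
        _ = 4 * κ * rh x * (κ * (M ^ 2 * C ^ 2)) := by ring
        _ = κ / 2 * rh x := by rw [e]; ring
    have h7 : ze (x 3) ^ 2 * Gt (κ * rh x) ^ 2 ≤ Gt (κ * rh x) ^ 2 := mul_le_of_le_one_left (sq_nonneg _) h2
    linarith
  · intro x hx
    rw [qq_Ub, Gt_zero (by rw [le_abs]; left; exact hx.le), Gt_deriv_zero hx]
    ring

end Pool.Agent.V1180.LS
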