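import Pool.Agent.V1180.LSa

set_option autoImplicit false

/-!
# Integrability of the inverse square distance to a line in `ℝ⁴`, and two lemmas
-/

namespace Pool.Agent.V1180.LS

open Real MeasureTheory Filter Topology Set
open scoped ContDiff

/-- one factor -/
noncomputable def fa (R : ℝ) (i : Fin 4) (t : ℝ) : ℝ := (Icc (-R) R).indicator (fun t => if i = 3 then 1 else |t| ^ (-(2/3) : ℝ)) t

theorem fa_int {R : ℝ} (hR : 0 ≤ R) (i : Fin 4) : Integrable (fa R i) := by
  unfold fa
  rw [integrable_indicator_iff measurableSet_Icc]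
  by_cases hi : i = 3
  · simp only [hi, if_true]
    exact integrableOn_const (by simp)
  · simp only [hi, if_false]
    have h1 : IntegrableOn (fun t : ℝ => |t| ^ (-(2/3) : ℝ)) (Icc 0 R) := by
      have h2 : IntegrableOn (fun t : ℝ => t ^ (-(2/3) : ℝ)) (Ioc 0 R) := by
        rw [← intervalIntegrable_iff_integrableOn_Ioc_of_le hR]
        exact intervalIntegral.intervalIntegrable_rpow' (by norm_num)
      rw [integrableOn_Icc_iff_integrableOn_Ioc]
      refine h2.congr_fun (fun t ht => ?_) measurableSet_Ioc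
      simp only
      rw [abs_of_pos ht.1]
    have h3 : IntegrableOn (fun t : ℝ => |t| ^ (-(2/3) : ℝ)) (Icc (-R) 0) := by
      have h4 := (h1.comp_neg)
      simpa using h4
    have h5 : Icc (-R) R = Icc (-R) 0 ∪ Icc 0 R := (Icc_union_Icc_eq_Icc (by linarith) hR).symm
    rw [h5]
    exact h3.union h1

theorem prod_int {R : ℝ} (hR : 0 ≤ R) : Integrable (fun x : R4 => ∏ i, fa R i (x i)) := by
  have h := Integrable.fintype_prod (𝕜 := ℝ) (ι := Fin 4) (f := fun i => fa R i) (μ := fun _ => volume) (fun i => fa_int hR i)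
  rw [← (PiLp.volume_preserving_toLp (Fin 4)).integrable_comp_emb (MeasurableEquiv.toLp 2 (Fin 4 → ℝ)).measurableEmbedding]
  exact h

theorem co_null (i : Fin 4) : ∀ᵐ x : R4, x i ≠ 0 := by
  have h := Measure.addHaar_submodule (volume : Measure R4) (LinearMap.ker (EuclideanSpace.proj i : R4 →L[ℝ] ℝ).toLinearMap) ?_
  · rw [ae_iff]
    refine measure_mono_null (fun x hx => ?_) h
    simp only [mem_ofPred_eq, not_not] at hx
    simpa using hx
  · intro h
    have h1 : (EuclideanSpace.single i (1:ℝ) : R4) ∈ LinearMap.ker (EuclideanSpace.proj i : R4 →L[ℝ] ℝ).toLinearMap := by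
      rw [h]; trivial
    simp at h1

theorem rh_nonneg (x : R4) : 0 ≤ rh x := by unfold rh; positivity

theorem rh_pos_ae : ∀ᵐ x : R4, 0 < rh x := by
  filter_upwards [co_null 0] with x hx
  unfold rh
  have := sq_pos_of_ne_zero hx
  positivity

theorem amgm {a b c : ℝ} (ha : 0 < a) (hb : 0 < b) (hc : 0 < c) :
    1 / (a ^ 2 + b ^ 2 + c ^ 2) ≤ a ^ (-(2/3) : ℝ) * b ^ (-(2/3) : ℝ) * c ^ (-(2/3) : ℝ) := by
  have h := Real.geom_mean_le_arith_mean3_weighted (w₁ := 1/3) (w₂ := 1/3) (w₃ := 1/3) (by norm_num) (by norm_num) (by norm_num)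
    (sq_nonneg a) (sq_nonneg b) (sq_nonneg c) (by norm_num)
  have e : ∀ t : ℝ, 0 < t → (t ^ 2) ^ (1/3 : ℝ) = t ^ (2/3 : ℝ) := by
    intro t ht
    rw [← rpow_natCast t 2, ← rpow_mul ht.le]
    norm_num
  rw [e a ha, e b hb, e c hc] at h
  have h1 : 0 < a ^ (2/3 : ℝ) * b ^ (2/3 : ℝ) * c ^ (2/3 : ℝ) := by positivity
  have h2 : a ^ (2/3 : ℝ) * b ^ (2/3 : ℝ) * c ^ (2/3 : ℝ) ≤ a ^ 2 + b ^ 2 + c ^ 2 := by nlinarith [sq_nonneg a, sq_nonneg b, sq_nonneg c]
  rw [rpow_neg ha.le, rpow_neg hb.le, rpow_neg hc.le, ← mul_inv, ← mul_inv, ← one_div]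
  exact one_div_le_one_div_of_le h1 h2

/-- the dominating function -/
noncomputable def dm (R : ℝ) (x : R4) : ℝ := (Metric.closedBall (0:R4) R).indicator (fun x => 1 / rh x) x

theorem co_le_norm (x : R4) (i : Fin 4) : |x i| ≤ ‖x‖ := by
  have := EuclideanSpace.norm_eq x
  rw [this]
  apply Real.le_sqrt_of_sq_le
  have h := Finset.single_le_sum (f := fun j => ‖x j‖ ^ 2) (fun j _ => sq_nonneg _) (Finset.mem_univ i)
  simpa using h

theorem dm_int {R : ℝ} (hR : 0 ≤ R) : Integrable (dm R) := by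
  refine (prod_int hR).mono' ?_ ?_
  · unfold dm
    apply Measurable.aestronglyMeasurable
    apply Measurable.indicator _ measurableSet_closedBall
    exact measurable_const.div rh_contDiff.continuous.measurable
  · filter_upwards [co_null 0, co_null 1, co_null 2] with x h0 h1 h2
    unfold dm
    by_cases hx : x ∈ Metric.closedBall (0:R4) R
    · rw [indicator_of_mem hx, Real.norm_eq_abs, abs_of_nonneg (div_nonneg zero_le_one (rh_nonneg x))]
      rw [mem_closedBall_zero_iff] at hx
      have hI : ∀ i, x i ∈ Icc (-R) R := by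
        intro i
        have := (co_le_norm x i).trans hx
        exact abs_le.1 this
      rw [Fin.prod_univ_four]
      unfold fa
      rw [indicator_of_mem (hI 0), indicator_of_mem (hI 1), indicator_of_mem (hI 2), indicator_of_mem (hI 3)]
      simp only [Fin.reduceEq, if_false, if_true, mul_one]
      have := amgm (abs_pos.2 h0) (abs_pos.2 h1) (abs_pos.2 h2)
      rw [sq_abs, sq_abs, sq_abs] at this
      exact this
    · rw [indicator_of_notMem hx, norm_zero]
      apply Finset.prod_nonneg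
      intro i _
      unfold fa
      apply indicator_nonneg
      intro t _
      split_ifs
      · exact zero_le_one
      · exact rpow_nonneg (abs_nonneg _) _

/-- Taylor's inequality -/
theorem taylor_le {h : ℝ → ℝ} (hh : ContDiff ℝ 2 h) {M : ℝ} (hM : ∀ t, deriv (deriv h) t ≤ M) {t : ℝ} (ht : 0 ≤ t) :
    h t ≤ h 0 + deriv h 0 * t + M / 2 * t ^ 2 := by
  have hd : Differentiable ℝ h := hh.differentiable (by norm_num)
  have hd1 : ContDiff ℝ 1 (deriv h) := by
    have h' : ContDiff ℝ (1 + 1) h := by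
      rw [one_add_one_eq_two]
      exact hh
    exact h'.deriv'
  have hd2 : Differentiable ℝ (deriv h) := hd1.differentiable (by norm_num)
  have s1 : ∀ τ ∈ Icc 0 t, deriv h τ ≤ deriv h 0 + M * τ := by
    intro τ hτ
    have := image_le_of_deriv_right_le_deriv_boundary (f := deriv h) (f' := deriv (deriv h)) (a := 0) (b := t)
      (B := fun τ => deriv h 0 + M * τ) (B' := fun _ => M) hd2.continuous.continuousOn
      (fun x _ => (hd2 x).hasDerivAt.hasDerivWithinAt) (by simp) (by fun_prop)
      (fun x _ => (HasDerivAt.congr_deriv (((hasDerivAt_id' x).const_mul M).const_add (deriv h 0)) (by ring)).hasDerivWithinAt)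
      (fun x _ => hM x) hτ
    exact this
  have := image_le_of_deriv_right_le_deriv_boundary (f := h) (f' := deriv h) (a := 0) (b := t)
    (B := fun τ => h 0 + deriv h 0 * τ + M / 2 * τ ^ 2) (B' := fun τ => deriv h 0 + M * τ) hd.continuous.continuousOn
    (fun x _ => (hd x).hasDerivAt.hasDerivWithinAt) (by simp) (by fun_prop)
    (fun x _ => (HasDerivAt.congr_deriv ((((hasDerivAt_id' x).const_mul (deriv h 0)).const_add (h 0)).add
      ((hasDerivAt_pow 2 x).const_mul (M / 2))) (by push_cast; ring)).hasDerivWithinAt)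
    (fun x hx => s1 x ⟨hx.1, hx.2.le⟩) (⟨ht, le_rfl⟩ : t ∈ Icc 0 t)
  exact this

/-- derivative of a nonnegative function -/
theorem deriv_sq_le {h : ℝ → ℝ} (hh : ContDiff ℝ 2 h) {M : ℝ} (hM0 : 0 < M) (hM : ∀ t, deriv (deriv h) t ≤ M)
    (h0 : ∀ t, 0 ≤ h t) : deriv h 0 ^ 2 ≤ 2 * M * h 0 := by
  have key : ∀ g : ℝ → ℝ, ContDiff ℝ 2 g → (∀ t, deriv (deriv g) t ≤ M) → (∀ t, 0 ≤ g t) → deriv g 0 ≤ 0 →
      deriv g 0 ^ 2 ≤ 2 * M * g 0 := by
    intro g hg hgM hg0 hneg
    have h1 := taylor_le hg hgM (t := -deriv g 0 / M) (div_nonneg (by linarith) hM0.le)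
    have h2 := (hg0 (-deriv g 0 / M)).trans h1
    have e : g 0 + deriv g 0 * (-deriv g 0 / M) + M / 2 * (-deriv g 0 / M) ^ 2 = (2 * M * g 0 - deriv g 0 ^ 2) / (2 * M) := by
      field_simp
      ring
    rw [e] at h2
    rw [le_div_iff₀ (by positivity), zero_mul] at h2
    linarith
  rcases le_total (deriv h 0) 0 with hn | hn
  · exact key h hh hM h0 hn
  · have hd1 : ∀ t, deriv (fun t => h (-t)) t = -deriv h (-t) := fun t => deriv_comp_neg h t
    have e1 : deriv (fun t => h (-t)) = fun t => -deriv h (-t) := funext hd1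
    have h2 := key (fun t => h (-t)) (hh.comp contDiff_neg) ?_ (fun t => h0 (-t)) ?_
    · rw [hd1, neg_zero] at h2
      simpa using h2
    · intro t
      rw [e1]
      have : deriv (fun t => -deriv h (-t)) t = deriv (deriv h) (-t) := by
        have e2 : (fun t => -deriv h (-t)) = -(fun t => deriv h (-t)) := rfl
        rw [e2, deriv.neg]
        have := deriv_comp_neg (deriv h) t
        rw [this, neg_neg]
      rw [this]
      exact hM _
    · rw [hd1, neg_zero]
      linarith

end Pool.Agent.V1180.LS
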