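import Pool.Agent.V1180.LSb

set_option autoImplicit false

/-!
# Integration by parts for the singular field `∇U / √(1 - |∇U|²)`
-/

namespace Pool.Agent.V1180.LS

open Real MeasureTheory Filter Topology Set
open scoped ContDiff

theorem pd_contDiff {U : R4 → ℝ} (hU : ContDiff ℝ ∞ U) (i : Fin 4) : ContDiff ℝ ∞ (pd U i) := by
  have h := (contDiff_infty_iff_fderiv.1 hU).2
  exact h.clm_apply contDiff_const

theorem qq_contDiff {U : R4 → ℝ} (hU : ContDiff ℝ ∞ U) : ContDiff ℝ ∞ (qq U) := by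
  unfold qq
  exact contDiff_const.sub (ContDiff.sum fun i _ => (pd_contDiff hU i).pow 2)

theorem pd_zero {U : R4 → ℝ} {x : R4} (hx : x ∉ tsupport U) (i : Fin 4) : pd U i x = 0 := by
  unfold pd
  have h : U =ᶠ[𝓝 x] fun _ => 0 := by
    filter_upwards [(isClosed_tsupport U).isOpen_compl.mem_nhds hx] with y hy
    exact image_eq_zero_of_notMem_tsupport hy
  rw [h.fderiv_eq]
  simp

theorem pd_compact {U : R4 → ℝ} (hc : HasCompactSupport U) (i : Fin 4) : HasCompactSupport (pd U i) :=
  HasCompactSupport.intro hc fun _ hx => pd_zero hx i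

theorem qq_one {U : R4 → ℝ} {x : R4} (hx : x ∉ tsupport U) : qq U x = 1 := by
  unfold qq
  simp [pd_zero hx]

/-- the regularised field -/
noncomputable def We (U : R4 → ℝ) (ε : ℝ) (i : Fin 4) (x : R4) : ℝ := pd U i x / √(qq U x + ε)

/-- its divergence, one term -/
noncomputable def De (U : R4 → ℝ) (ε : ℝ) (i : Fin 4) (x : R4) : ℝ :=
  fderiv ℝ (pd U i) x (ev i) / √(qq U x + ε) - pd U i x * fderiv ℝ (qq U) x (ev i) / (2 * (qq U x + ε) * √(qq U x + ε))

variable {U : R4 → ℝ}

theorem We_hasFDeriv (hU : ContDiff ℝ ∞ U) {ε : ℝ} {x : R4} (hq : 0 < qq U x + ε) (i : Fin 4) :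
    DifferentiableAt ℝ (We U ε i) x ∧ fderiv ℝ (We U ε i) x (ev i) = De U ε i x := by
  have h1 : HasFDerivAt (pd U i) (fderiv ℝ (pd U i) x) x := ((pd_contDiff hU i).differentiable (by simp) x).hasFDerivAt
  have h2 : HasFDerivAt (fun y => qq U y + ε) (fderiv ℝ (qq U) x) x :=
    ((qq_contDiff hU).differentiable (by simp) x).hasFDerivAt.add_const ε
  have h3 := h2.sqrt hq.ne'
  have hs : 0 < √(qq U x + ε) := Real.sqrt_pos.2 hq
  have h4 : HasFDerivAt (fun y => (√(qq U y + ε))⁻¹) ((-(√(qq U x + ε) ^ 2)⁻¹) • ((1 / (2 * √(qq U x + ε))) • fderiv ℝ (qq U) x)) x :=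
    (hasDerivAt_inv hs.ne').comp_hasFDerivAt x h3
  have h5 := h1.mul h4
  have h6 : (pd U i * fun y => (√(qq U y + ε))⁻¹) = We U ε i := by
    ext y
    unfold We
    rw [div_eq_mul_inv]
    rfl
  rw [h6] at h5
  refine ⟨h5.differentiableAt, ?_⟩
  rw [h5.fderiv]
  unfold De
  have hsq : √(qq U x + ε) ^ 2 = qq U x + ε := Real.sq_sqrt hq.le
  simp only [_root_.add_apply, _root_.smul_apply, smul_eq_mul]
  rw [hsq]
  field_simp
  ring

theorem We_contDiff (hU : ContDiff ℝ ∞ U) {ε : ℝ} (hq : ∀ x, 0 < qq U x + ε) (i : Fin 4) : ContDiff ℝ ∞ (We U ε i) := by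
  unfold We
  have h1 : ContDiff ℝ ∞ (fun x => qq U x + ε) := (qq_contDiff hU).add contDiff_const
  exact (pd_contDiff hU i).div (h1.sqrt fun x => (hq x).ne') fun x => (Real.sqrt_pos.2 (hq x)).ne'

theorem We_compact (hc : HasCompactSupport U) (ε : ℝ) (i : Fin 4) : HasCompactSupport (We U ε i) :=
  HasCompactSupport.intro hc fun x hx => by unfold We; rw [pd_zero hx, zero_div]

/-- integration by parts for the regularised field -/
theorem reg_identity (hU : ContDiff ℝ ∞ U) (hc : HasCompactSupport U) {ε : ℝ} (hq : ∀ x, 0 < qq U x + ε)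
    {η : R4 → ℝ} {L : NNReal} (hη : LipschitzWith L η) :
    ∫ x, ∑ i, lineDeriv ℝ η x (ev i) * We U ε i x = -∫ x, (∑ i, De U ε i x) * η x := by
  have hs := fun i => We_contDiff hU hq i
  have hcs := fun i => We_compact hc ε i
  have i1 : ∀ i, Integrable (fun x => lineDeriv ℝ η x (ev i) * We U ε i x) := by
    intro i
    have := (hη.locallyIntegrable_lineDeriv (μ := volume) (ev i)).integrable_smul_left_of_hasCompactSupport
      (hs i).continuous (hcs i)
    refine this.congr (Eventually.of_forall fun x => ?_)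
    simp only [smul_eq_mul]
    ring
  have hDe : ∀ i x, De U ε i x = fderiv ℝ (We U ε i) x (ev i) := fun i x => (We_hasFDeriv hU (hq x) i).2.symm
  have cDe : ∀ i, Continuous (fun x => fderiv ℝ (We U ε i) x (ev i)) := by
    intro i
    have := ((contDiff_infty_iff_fderiv.1 (hs i)).2).continuous
    exact this.clm_apply continuous_const
  have hDc : ∀ i, HasCompactSupport (fun x => fderiv ℝ (We U ε i) x (ev i)) := by
    intro i
    refine HasCompactSupport.intro (hcs i) fun x hx => ?_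
    have h : We U ε i =ᶠ[𝓝 x] fun _ => 0 := by
      filter_upwards [(isClosed_tsupport (We U ε i)).isOpen_compl.mem_nhds hx] with y hy
      exact image_eq_zero_of_notMem_tsupport hy
    rw [h.fderiv_eq]
    simp
  have i2 : ∀ i, Integrable (fun x => De U ε i x * η x) := by
    intro i
    have : (fun x => De U ε i x * η x) = fun x => fderiv ℝ (We U ε i) x (ev i) * η x := by
      ext x
      rw [hDe]
    rw [this]
    exact ((cDe i).mul hη.continuous).integrable_of_hasCompactSupport (hDc i).mul_right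
  rw [integral_finsetSum _ fun i _ => i1 i]
  simp_rw [Finset.sum_mul]
  rw [integral_finsetSum _ fun i _ => i2 i, ← Finset.sum_neg_distrib]
  apply Finset.sum_congr rfl
  intro i _
  obtain ⟨D, hD⟩ := ContDiff.lipschitzWith_of_hasCompactSupport (hcs i) (hs i) (by simp)
  rw [hη.integral_lineDeriv_mul_eq hD (hcs i) (ev i), ← integral_neg]
  apply integral_congr_ae
  refine Eventually.of_forall fun x => ?_
  simp only
  rw [((We_hasFDeriv hU (hq x) i).1).lineDeriv_eq_fderiv, map_neg, hDe]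
  ring

/-- the singular field and its divergence -/
noncomputable def W0 (U : R4 → ℝ) (i : Fin 4) (x : R4) : ℝ := pd U i x / √(qq U x)

noncomputable def D0 (U : R4 → ℝ) (i : Fin 4) (x : R4) : ℝ :=
  fderiv ℝ (pd U i) x (ev i) / √(qq U x) - pd U i x * fderiv ℝ (qq U) x (ev i) / (2 * qq U x * √(qq U x))

theorem ev_norm (i : Fin 4) : ‖ev i‖ = 1 := by
  unfold ev
  simp

/-- the gradient of `qq` -/
theorem exists_m (hU : ContDiff ℝ ∞ U) (hc : HasCompactSupport U) (hq : ∀ x, 0 ≤ qq U x) :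
    ∃ m : ℝ, 0 ≤ m ∧ ∀ i x, |fderiv ℝ (qq U) x (ev i)| ≤ m * √(qq U x) := by
  have hqs := qq_contDiff hU
  -- second derivatives are bounded
  have hb : ∀ i : Fin 4, ∃ M : ℝ, ∀ x, |fderiv ℝ (fun y => fderiv ℝ (qq U) y (ev i)) x (ev i)| ≤ M := by
    intro i
    have h1 : ContDiff ℝ ∞ (fun y => fderiv ℝ (qq U) y (ev i)) := (contDiff_infty_iff_fderiv.1 hqs).2.clm_apply contDiff_const
    have h2 : Continuous (fun x => fderiv ℝ (fun y => fderiv ℝ (qq U) y (ev i)) x (ev i)) :=
      ((contDiff_infty_iff_fderiv.1 h1).2.continuous).clm_apply continuous_const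
    have h3 : HasCompactSupport (fun x => fderiv ℝ (fun y => fderiv ℝ (qq U) y (ev i)) x (ev i)) := by
      refine HasCompactSupport.intro hc fun x hx => ?_
      have ho : (tsupport U)ᶜ ∈ 𝓝 x := (isClosed_tsupport U).isOpen_compl.mem_nhds hx
      have h : (fun y => fderiv ℝ (qq U) y (ev i)) =ᶠ[𝓝 x] fun _ => 0 := by
        have ho' : ∀ᶠ y in 𝓝 x, (tsupport U)ᶜ ∈ 𝓝 y := eventually_eventually_nhds.2 ho
        filter_upwards [ho'] with y hy
        have h' : qq U =ᶠ[𝓝 y] fun _ => 1 := by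
          filter_upwards [hy] with z hz
          exact qq_one hz
        rw [h'.fderiv_eq]
        simp
      rw [h.fderiv_eq]
      simp
    obtain ⟨M, hM⟩ := h3.exists_bound_of_continuous h2
    exact ⟨M, hM⟩
  choose M hM using hb
  set M' : ℝ := ∑ i, |M i| + 1 with hM'
  have hM'0 : 0 < M' := by positivity
  refine ⟨√(2 * M'), Real.sqrt_nonneg _, fun i x => ?_⟩
  have hMi : M i ≤ M' := by
    have h1 := Finset.single_le_sum (f := fun j => |M j|) (fun j _ => abs_nonneg _) (Finset.mem_univ i)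
    have h2 := le_abs_self (M i)
    linarith
  -- the restriction to a line
  set h : ℝ → ℝ := fun t => qq U (x + t • ev i) with hh
  have hline : ∀ t : ℝ, HasDerivAt (fun t : ℝ => x + t • ev i) (ev i) t := by
    intro t
    simpa using ((hasDerivAt_id t).smul_const (ev i)).const_add x
  have hd1 : ∀ t, HasDerivAt h (fderiv ℝ (qq U) (x + t • ev i) (ev i)) t := by
    intro t
    exact ((hqs.differentiable (by simp)) (x + t • ev i)).hasFDerivAt.comp_hasDerivAt t (hline t)
  have hd1' : deriv h = fun t => fderiv ℝ (qq U) (x + t • ev i) (ev i) := funext fun t => (hd1 t).deriv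
  have hs1 : ContDiff ℝ ∞ (fun y => fderiv ℝ (qq U) y (ev i)) := (contDiff_infty_iff_fderiv.1 hqs).2.clm_apply contDiff_const
  have hd2 : ∀ t, deriv (deriv h) t = fderiv ℝ (fun y => fderiv ℝ (qq U) y (ev i)) (x + t • ev i) (ev i) := by
    intro t
    rw [hd1']
    have h3 : HasFDerivAt (fun y => fderiv ℝ (qq U) y (ev i)) (fderiv ℝ (fun y => fderiv ℝ (qq U) y (ev i)) (x + t • ev i)) (x + t • ev i) :=
      ((hs1.differentiable (by simp)) (x + t • ev i)).hasFDerivAt
    exact (h3.comp_hasDerivAt t (hline t)).deriv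
  have hcd : ContDiff ℝ 2 h := by
    have h4 : ContDiff ℝ ∞ h := hqs.comp (contDiff_const.add (contDiff_id.smul contDiff_const))
    exact h4.of_le (WithTop.coe_le_coe.2 le_top)
  have h5 := deriv_sq_le hcd hM'0 (fun t => by
    rw [hd2]
    exact ((le_abs_self _).trans (hM i _)).trans hMi) (fun t => hq _)
  rw [hd1'] at h5
  simp only [hh, zero_smul, add_zero] at h5
  have h6 : |fderiv ℝ (qq U) x (ev i)| ≤ √(2 * M' * qq U x) := Real.abs_le_sqrt h5
  rwa [Real.sqrt_mul (by positivity)] at h6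

end Pool.Agent.V1180.LS
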