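import Pool.Agent.V1180.LSc

set_option autoImplicit false

/-!
# Integration by parts for the singular field: the limit
-/

namespace Pool.Agent.V1180.LS

open Real MeasureTheory Filter Topology Set
open scoped ContDiff

variable {U : R4 → ℝ}

theorem qq_nonneg {c : ℝ} (hc0 : 0 < c) (hq : ∀ x ∈ tsupport U, c * rh x ≤ qq U x) (x : R4) : 0 ≤ qq U x := by
  by_cases hx : x ∈ tsupport U
  · exact (mul_nonneg hc0.le (rh_nonneg x)).trans (hq x hx)
  · rw [qq_one hx]
    exact zero_le_one

theorem qq_le_one (U : R4 → ℝ) (x : R4) : qq U x ≤ 1 := by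
  unfold qq
  have : 0 ≤ ∑ i, pd U i x ^ 2 := Finset.sum_nonneg fun i _ => sq_nonneg _
  linarith

theorem pd_sq_le (U : R4 → ℝ) (x : R4) (i : Fin 4) : pd U i x ^ 2 ≤ 1 - qq U x := by
  unfold qq
  have := Finset.single_le_sum (f := fun j => pd U j x ^ 2) (fun j _ => sq_nonneg _) (Finset.mem_univ i)
  linarith

theorem dm_nonneg (R : ℝ) (x : R4) : 0 ≤ dm R x := by
  unfold dm
  apply indicator_nonneg
  intro y _
  exact div_nonneg zero_le_one (rh_nonneg y)

theorem fderiv_pd_zero {x : R4} (hx : x ∉ tsupport U) (i : Fin 4) : fderiv ℝ (pd U i) x = 0 := by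
  have h : pd U i =ᶠ[𝓝 x] fun _ => 0 := by
    filter_upwards [(isClosed_tsupport U).isOpen_compl.mem_nhds hx] with y hy
    exact pd_zero hy i
  rw [h.fderiv_eq]
  simp

/-- domination -/
theorem exists_dom (hU : ContDiff ℝ ∞ U) (hc : HasCompactSupport U) {c : ℝ} (hc0 : 0 < c)
    (hq : ∀ x ∈ tsupport U, c * rh x ≤ qq U x) :
    ∃ R K : ℝ, 0 ≤ R ∧ 0 ≤ K ∧ ∀ x, 0 < rh x → ∀ ε, 0 ≤ ε → ε ≤ 1 → ∀ i, |We U ε i x| ≤ K * dm R x ∧ |De U ε i x| ≤ K * dm R x := by
  have hq0 := qq_nonneg hc0 hq
  obtain ⟨R, hR⟩ := hc.isCompact.isBounded.subset_closedBall (0 : R4)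
  obtain ⟨m, hm0, hm⟩ := exists_m hU hc hq0
  have hA : ∀ i : Fin 4, ∃ A : ℝ, ∀ x, |fderiv ℝ (pd U i) x (ev i)| ≤ A := by
    intro i
    have h1 : Continuous (fun x => fderiv ℝ (pd U i) x (ev i)) :=
      ((contDiff_infty_iff_fderiv.1 (pd_contDiff hU i)).2.continuous).clm_apply continuous_const
    have h2 : HasCompactSupport (fun x => fderiv ℝ (pd U i) x (ev i)) :=
      HasCompactSupport.intro hc fun x hx => by rw [fderiv_pd_zero hx]; simp
    obtain ⟨A, hA⟩ := h2.exists_bound_of_continuous h1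
    exact ⟨A, hA⟩
  choose A hA using hA
  set A' : ℝ := ∑ i, |A i| with hA'
  have hA'0 : 0 ≤ A' := Finset.sum_nonneg fun i _ => abs_nonneg _
  have hAi : ∀ i, A i ≤ A' := by
    intro i
    have h1 := Finset.single_le_sum (f := fun j => |A j|) (fun j _ => abs_nonneg _) (Finset.mem_univ i)
    exact (le_abs_self (A i)).trans h1
  refine ⟨max R 0, (2 + 2 * A' + m) / c, le_max_right _ _, by positivity, ?_⟩
  intro x hx ε hε hε1 i
  by_cases hxs : x ∈ tsupport U
  · have hqx := hq x hxs
    have hcr : 0 < c * rh x := mul_pos hc0 hx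
    have hqp : 0 < qq U x := hcr.trans_le hqx
    have hqe : 0 < qq U x + ε := by linarith
    set s := √(qq U x + ε) with hs
    have hs0 : 0 < s := Real.sqrt_pos.2 hqe
    have hs2 : s ^ 2 = qq U x + ε := Real.sq_sqrt hqe.le
    have hs2' : s ≤ 2 := by
      have := qq_le_one U x
      nlinarith
    have hdm : dm (max R 0) x = 1 / rh x := by
      unfold dm
      rw [indicator_of_mem]
      have := hR hxs
      rw [mem_closedBall_zero_iff] at this ⊢
      exact this.trans (le_max_left _ _)
    have hp : |pd U i x| ≤ 1 := by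
      have := pd_sq_le U x i
      rw [abs_le_one_iff_mul_self_le_one]
      nlinarith
    have hsq : √(qq U x) ≤ s := Real.sqrt_le_sqrt (by linarith)
    have hcs : 1 / s ^ 2 ≤ 1 / (c * rh x) := one_div_le_one_div_of_le hcr (by rw [hs2]; linarith)
    have h1s : 1 / s ≤ 2 * (1 / s ^ 2) := by
      rw [div_le_iff₀ hs0]
      have : 2 * (1 / s ^ 2) * s = 2 / s := by field_simp
      rw [this, le_div_iff₀ hs0]
      linarith
    have e : (2 + 2 * A' + m) / c * (1 / rh x) = (2 + 2 * A' + m) * (1 / (c * rh x)) := by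
      field_simp
    rw [hdm, e]
    have hinv : 0 ≤ 1 / (c * rh x) := by positivity
    constructor
    · unfold We
      rw [abs_div, abs_of_pos hs0]
      calc |pd U i x| / s ≤ 1 / s := div_le_div_of_nonneg_right hp hs0.le
        _ ≤ 2 * (1 / s ^ 2) := h1s
        _ ≤ 2 * (1 / (c * rh x)) := mul_le_mul_of_nonneg_left hcs (by norm_num)
        _ ≤ _ := mul_le_mul_of_nonneg_right (by linarith) hinv
    · unfold De
      rw [← hs]
      refine (abs_sub _ _).trans ?_
      rw [abs_div, abs_div, abs_of_pos hs0, abs_mul, ← hs2, abs_of_pos (by positivity : 0 < 2 * s ^ 2 * s)]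
      have t1 : |fderiv ℝ (pd U i) x (ev i)| / s ≤ A' * (2 * (1 / s ^ 2)) := by
        calc |fderiv ℝ (pd U i) x (ev i)| / s ≤ A' / s := div_le_div_of_nonneg_right ((hA i x).trans (hAi i)) hs0.le
          _ = A' * (1 / s) := by ring
          _ ≤ _ := mul_le_mul_of_nonneg_left h1s hA'0
      have t2 : |pd U i x| * |fderiv ℝ (qq U) x (ev i)| / (2 * s ^ 2 * s) ≤ m * (1 / s ^ 2) := by
        have h3 : |pd U i x| * |fderiv ℝ (qq U) x (ev i)| ≤ 1 * (m * s) :=
          mul_le_mul hp ((hm i x).trans (mul_le_mul_of_nonneg_left hsq hm0)) (abs_nonneg _) zero_le_one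
        calc _ ≤ 1 * (m * s) / (2 * s ^ 2 * s) := div_le_div_of_nonneg_right h3 (by positivity)
          _ = m * (1 / s ^ 2) / 2 := by field_simp
          _ ≤ _ := by
            have : 0 ≤ m * (1 / s ^ 2) := by positivity
            linarith
      have t3 : 0 ≤ 1 / s ^ 2 := by positivity
      calc _ ≤ A' * (2 * (1 / s ^ 2)) + m * (1 / s ^ 2) := add_le_add t1 t2
        _ = (2 * A' + m) * (1 / s ^ 2) := by ring
        _ ≤ (2 * A' + m) * (1 / (c * rh x)) := mul_le_mul_of_nonneg_left hcs (by positivity)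
        _ ≤ _ := mul_le_mul_of_nonneg_right (by linarith) hinv
  · have h0 : 0 ≤ (2 + 2 * A' + m) / c * dm (max R 0) x := mul_nonneg (by positivity) (dm_nonneg _ _)
    constructor
    · unfold We
      rw [pd_zero hxs, zero_div, abs_zero]
      exact h0
    · unfold De
      rw [pd_zero hxs, fderiv_pd_zero hxs]
      simpa using h0

theorem W0_eq (U : R4 → ℝ) (i : Fin 4) : W0 U i = We U 0 i := by
  ext x
  unfold W0 We
  rw [add_zero]

theorem D0_eq (U : R4 → ℝ) (i : Fin 4) : D0 U i = De U 0 i := by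
  ext x
  unfold D0 De
  rw [add_zero]

theorem We_meas (hU : ContDiff ℝ ∞ U) (ε : ℝ) (i : Fin 4) : Measurable (We U ε i) := by
  unfold We
  apply (pd_contDiff hU i).continuous.measurable.div
  exact (Real.continuous_sqrt.comp ((qq_contDiff hU).continuous.add continuous_const)).measurable

theorem De_meas (hU : ContDiff ℝ ∞ U) (ε : ℝ) (i : Fin 4) : Measurable (De U ε i) := by
  unfold De
  have h1 : Continuous (fun x => fderiv ℝ (pd U i) x (ev i)) :=
    ((contDiff_infty_iff_fderiv.1 (pd_contDiff hU i)).2.continuous).clm_apply continuous_const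
  have h2 : Continuous (fun x => fderiv ℝ (qq U) x (ev i)) :=
    ((contDiff_infty_iff_fderiv.1 (qq_contDiff hU)).2.continuous).clm_apply continuous_const
  have h3 : Continuous (fun x => √(qq U x + ε)) := Real.continuous_sqrt.comp ((qq_contDiff hU).continuous.add continuous_const)
  have h4 := (pd_contDiff hU i).continuous
  have h5 := (qq_contDiff hU).continuous
  apply (h1.measurable.div h3.measurable).sub
  exact (h4.mul h2).measurable.div ((continuous_const.mul (h5.add continuous_const)).mul h3).measurable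

/-- **Integration by parts for the singular field.** -/
theorem sing_identity (hU : ContDiff ℝ ∞ U) (hc : HasCompactSupport U) {c : ℝ} (hc0 : 0 < c)
    (hq : ∀ x ∈ tsupport U, c * rh x ≤ qq U x) :
    (∀ i, Integrable (W0 U i)) ∧ (∀ i, Integrable (D0 U i)) ∧
    ∀ (η : R4 → ℝ) (L : NNReal), LipschitzWith L η →
      ∫ x, ∑ i, lineDeriv ℝ η x (ev i) * W0 U i x = -∫ x, (∑ i, D0 U i x) * η x := by
  have hq0 := qq_nonneg hc0 hq
  obtain ⟨R, K, hR, hK, hdom⟩ := exists_dom hU hc hc0 hq
  have hdi : Integrable (fun x => K * dm R x) := (dm_int hR).const_mul K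
  have iW : ∀ i, Integrable (W0 U i) := by
    intro i
    rw [W0_eq]
    refine hdi.mono' (We_meas hU 0 i).aestronglyMeasurable ?_
    filter_upwards [rh_pos_ae] with x hx
    exact (hdom x hx 0 le_rfl zero_le_one i).1
  have iD : ∀ i, Integrable (D0 U i) := by
    intro i
    rw [D0_eq]
    refine hdi.mono' (De_meas hU 0 i).aestronglyMeasurable ?_
    filter_upwards [rh_pos_ae] with x hx
    exact (hdom x hx 0 le_rfl zero_le_one i).2
  refine ⟨iW, iD, fun η L hη => ?_⟩
  set e : ℕ → ℝ := fun k => 1 / ((k:ℝ) + 1) with he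
  have he0 : ∀ k, 0 < e k := fun k => by rw [he]; positivity
  have he1 : ∀ k, e k ≤ 1 := by
    intro k
    rw [he]
    simp only
    rw [div_le_one (by positivity)]
    have : (0:ℝ) ≤ k := Nat.cast_nonneg k
    linarith
  have hlim : Tendsto e atTop (𝓝 0) := tendsto_one_div_add_atTop_nhds_zero_nat
  have hid : ∀ k, ∫ x, ∑ i, lineDeriv ℝ η x (ev i) * We U (e k) i x = -∫ x, (∑ i, De U (e k) i x) * η x := fun k =>
    reg_identity hU hc (fun x => add_pos_of_nonneg_of_pos (hq0 x) (he0 k)) hη
  -- positivity of q a.e.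
  have hqpos : ∀ x, 0 < rh x → 0 < qq U x := by
    intro x hx
    by_cases hxs : x ∈ tsupport U
    · exact (mul_pos hc0 hx).trans_le (hq x hxs)
    · rw [qq_one hxs]; exact one_pos
  have hsq : ∀ x, Tendsto (fun k => √(qq U x + e k)) atTop (𝓝 (√(qq U x))) := by
    intro x
    have h1 : Tendsto (fun k => qq U x + e k) atTop (𝓝 (qq U x + 0)) := tendsto_const_nhds.add hlim
    rw [add_zero] at h1
    exact (Real.continuous_sqrt.tendsto _).comp h1
  have hWlim : ∀ x, 0 < rh x → ∀ i, Tendsto (fun k => We U (e k) i x) atTop (𝓝 (W0 U i x)) := by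
    intro x hx i
    exact tendsto_const_nhds.div (hsq x) (Real.sqrt_pos.2 (hqpos x hx)).ne'
  have hDlim : ∀ x, 0 < rh x → ∀ i, Tendsto (fun k => De U (e k) i x) atTop (𝓝 (D0 U i x)) := by
    intro x hx i
    have h1 : Tendsto (fun k => qq U x + e k) atTop (𝓝 (qq U x)) := by
      have := (tendsto_const_nhds (x := qq U x)).add hlim
      rwa [add_zero] at this
    have h2 := (Real.sqrt_pos.2 (hqpos x hx)).ne'
    have h3 := (hqpos x hx).ne'
    apply Tendsto.sub
    · exact tendsto_const_nhds.div (hsq x) h2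
    · apply tendsto_const_nhds.div ((h1.const_mul 2).mul (hsq x))
      exact mul_ne_zero (mul_ne_zero two_ne_zero h3) h2
  have hldm : ∀ i, AEStronglyMeasurable (fun x => lineDeriv ℝ η x (ev i)) volume := fun i => aestronglyMeasurable_lineDeriv hη.continuous volume
  have hld : ∀ i x, |lineDeriv ℝ η x (ev i)| ≤ L := by
    intro i x
    have := norm_lineDeriv_le_of_lipschitz ℝ hη (x₀ := x) (v := ev i)
    rwa [ev_norm, mul_one] at this
  -- a bound for η on the ball
  obtain ⟨B, hB⟩ := (isCompact_closedBall (0:R4) R).exists_bound_of_continuousOn hη.continuous.continuousOn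
  have hB0 : 0 ≤ B := (norm_nonneg _).trans (hB 0 (by simpa using hR))
  have hηdm : ∀ x, dm R x * |η x| ≤ dm R x * B := by
    intro x
    by_cases hx : x ∈ Metric.closedBall (0:R4) R
    · exact mul_le_mul_of_nonneg_left (hB x hx) (dm_nonneg R x)
    · unfold dm
      rw [indicator_of_notMem hx]
      simp
  have l1 : Tendsto (fun k => ∫ x, ∑ i, lineDeriv ℝ η x (ev i) * We U (e k) i x) atTop
      (𝓝 (∫ x, ∑ i, lineDeriv ℝ η x (ev i) * W0 U i x)) := by
    refine tendsto_integral_of_dominated_convergence (fun x => 4 * L * (K * dm R x)) ?_ (hdi.const_mul _) ?_ ?_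
    · intro k
      apply Finset.aestronglyMeasurable_fun_sum
      intro i _
      exact (hldm i).mul (We_meas hU (e k) i).aestronglyMeasurable
    · intro k
      filter_upwards [rh_pos_ae] with x hx
      refine (norm_sum_le _ _).trans ?_
      calc ∑ i, ‖lineDeriv ℝ η x (ev i) * We U (e k) i x‖ ≤ ∑ _i : Fin 4, (L : ℝ) * (K * dm R x) := by
            apply Finset.sum_le_sum
            intro i _
            rw [norm_mul]
            exact mul_le_mul (hld i x) (hdom x hx (e k) (he0 k).le (he1 k) i).1 (norm_nonneg _) L.2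
        _ = _ := by simp; ring
    · filter_upwards [rh_pos_ae] with x hx
      exact tendsto_finsetSum _ fun i _ => (hWlim x hx i).const_mul _
  have l2 : Tendsto (fun k => ∫ x, (∑ i, De U (e k) i x) * η x) atTop (𝓝 (∫ x, (∑ i, D0 U i x) * η x)) := by
    refine tendsto_integral_of_dominated_convergence (fun x => 4 * B * (K * dm R x)) ?_ (hdi.const_mul _) ?_ ?_
    · intro k
      apply AEStronglyMeasurable.mul _ hη.continuous.aestronglyMeasurable
      apply Finset.aestronglyMeasurable_fun_sum
      intro i _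
      exact (De_meas hU (e k) i).aestronglyMeasurable
    · intro k
      filter_upwards [rh_pos_ae] with x hx
      rw [norm_mul]
      have h1 : ‖∑ i, De U (e k) i x‖ ≤ 4 * (K * dm R x) := by
        refine (norm_sum_le _ _).trans ?_
        calc ∑ i, ‖De U (e k) i x‖ ≤ ∑ _i : Fin 4, (K * dm R x) := by
              apply Finset.sum_le_sum
              intro i _
              exact (hdom x hx (e k) (he0 k).le (he1 k) i).2
          _ = _ := by simp
      calc ‖∑ i, De U (e k) i x‖ * ‖η x‖ ≤ 4 * (K * dm R x) * |η x| := mul_le_mul_of_nonneg_right h1 (norm_nonneg _)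
        _ = 4 * K * (dm R x * |η x|) := by ring
        _ ≤ 4 * K * (dm R x * B) := mul_le_mul_of_nonneg_left (hηdm x) (by positivity)
        _ = _ := by ring
    · filter_upwards [rh_pos_ae] with x hx
      exact (tendsto_finsetSum _ fun i _ => hDlim x hx i).mul_const _
  have l3 := l2.neg
  refine tendsto_nhds_unique l1 (l3.congr fun k => ?_)
  rw [hid]

end Pool.Agent.V1180.LS
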