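import Pool.Agent.V1180.LSd

set_option autoImplicit false

/-!
# The block and its scaled copies
-/

namespace Pool.Agent.V1180.LS

open Real MeasureTheory Filter Topology Set
open scoped ContDiff

/-- the properties of the block -/
structure Block (U : R4 → ℝ) (R₀ : ℝ) : Prop where
  smooth : ContDiff ℝ ∞ U
  one_le : 1 ≤ R₀
  supp : tsupport U ⊆ Metric.ball 0 R₀
  q_nonneg : ∀ x, 0 ≤ qq U x
  q_pos : ∀ x, 0 < rh x → 0 < qq U x
  seg : ∀ t : ℝ, |t| ≤ 1 → U (t • ev 3) = t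
  intW : ∀ i, Integrable (W0 U i)
  intD : ∀ i, Integrable (D0 U i)
  ident : ∀ (η : R4 → ℝ) (L : NNReal), LipschitzWith L η →
      ∫ x, ∑ i, lineDeriv ℝ η x (ev i) * W0 U i x = -∫ x, (∑ i, D0 U i x) * η x

theorem exists_block : ∃ (U : R4 → ℝ) (R₀ : ℝ), Block U R₀ := by
  obtain ⟨κ, hκ, h1, h2⟩ := exists_kappa
  have hz : ∀ x : R4, (6 ≤ |x 3| ∨ 1 ≤ κ * rh x) → Ub κ x = 0 := by
    intro x hx
    unfold Ub
    rcases hx with hx | hx
    · rw [et_zero hx, zero_mul]
    · rw [Gt_zero (by rw [le_abs]; left; exact hx), mul_zero]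
  set R : ℝ := √(36 + 1 / κ) with hR
  have hRsq : R ^ 2 = 36 + 1 / κ := Real.sq_sqrt (by positivity)
  have hout : ∀ x : R4, x ∉ Metric.closedBall (0:R4) R → Ub κ x = 0 := by
    intro x hx
    apply hz
    by_contra hcon
    push Not at hcon
    apply hx
    rw [mem_closedBall_zero_iff]
    apply Real.le_sqrt_of_sq_le
    rw [EuclideanSpace.norm_sq_eq, Fin.sum_univ_four]
    simp only [Real.norm_eq_abs, sq_abs]
    have h3 : x 3 ^ 2 ≤ 36 := by
      rw [← sq_abs]
      nlinarith [hcon.1, abs_nonneg (x 3)]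
    have h4 : rh x ≤ 1 / κ := by
      rw [le_div_iff₀ hκ]
      linarith [hcon.2]
    unfold rh at h4
    linarith
  have hc : HasCompactSupport (Ub κ) := HasCompactSupport.intro (isCompact_closedBall 0 R) hout
  have hts : tsupport (Ub κ) ⊆ Metric.closedBall 0 R := by
    apply closure_minimal _ Metric.isClosed_closedBall
    intro x hx
    by_contra hcon
    exact hx (hout x hcon)
  have hts2 : tsupport (Ub κ) ⊆ {x | κ * rh x ≤ 1} := by
    apply closure_minimal
    · intro x hx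
      simp only [mem_ofPred_eq]
      by_contra hcon
      push Not at hcon
      exact hx (hz x (Or.inr hcon.le))
    · exact isClosed_le (continuous_const.mul rh_contDiff.continuous) continuous_const
  have hc0 : 0 < κ / 2 := by positivity
  have hq : ∀ x ∈ tsupport (Ub κ), κ / 2 * rh x ≤ qq (Ub κ) x := fun x hx => h1 x (hts2 hx)
  obtain ⟨i1, i2, i3⟩ := sing_identity (Ub_contDiff κ) hc hc0 hq
  refine ⟨Ub κ, R + 1, Ub_contDiff κ, ?_, ?_, qq_nonneg hc0 hq, ?_, ?_, i1, i2, i3⟩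
  · have := Real.sqrt_nonneg (36 + 1 / κ)
    linarith
  · exact hts.trans (Metric.closedBall_subset_ball (by linarith))
  · intro x hx
    by_cases hxs : x ∈ tsupport (Ub κ)
    · exact (mul_pos hc0 hx).trans_le (hq x hxs)
    · rw [qq_one hxs]; exact one_pos
  · intro t ht
    unfold Ub rh
    have e3 : (t • ev 3 : R4) 3 = t := by simp [ev]
    have e0 : (t • ev 3 : R4) 0 = 0 := by simp [ev]
    have e1 : (t • ev 3 : R4) 1 = 0 := by simp [ev]
    have e2 : (t • ev 3 : R4) 2 = 0 := by simp [ev]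
    rw [e3, e0, e1, e2, et_id ht]
    norm_num [Gt_at_zero]

/-- scaled copy -/
noncomputable def Us (U : R4 → ℝ) (y : R4) (r : ℝ) (x : R4) : ℝ := r * U (r⁻¹ • (x - y))

noncomputable def Ws (U : R4 → ℝ) (y : R4) (r : ℝ) (i : Fin 4) (x : R4) : ℝ := W0 U i (r⁻¹ • (x - y))

noncomputable def Ds (U : R4 → ℝ) (y : R4) (r : ℝ) (x : R4) : ℝ := -(r⁻¹ * ∑ i, D0 U i (r⁻¹ • (x - y)))

variable {U : R4 → ℝ} {R₀ : ℝ}

theorem Us_hasFDeriv (hU : ContDiff ℝ ∞ U) {r : ℝ} (hr : 0 < r) (y x : R4) :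
    HasFDerivAt (Us U y r) (fderiv ℝ U (r⁻¹ • (x - y))) x := by
  have h1 : HasFDerivAt (fun x : R4 => r⁻¹ • (x - y)) (r⁻¹ • ContinuousLinearMap.id ℝ R4) x :=
    ((hasFDerivAt_id x).sub_const y).const_smul r⁻¹
  have h2 := ((hU.differentiable (by simp)) (r⁻¹ • (x - y))).hasFDerivAt.comp x h1
  have h3 := h2.const_mul r
  refine h3.congr_fderiv ?_
  ext v
  simp only [_root_.smul_apply, ContinuousLinearMap.comp_apply, ContinuousLinearMap.id_apply, map_smul, smul_eq_mul]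
  rw [← mul_assoc, mul_inv_cancel₀ hr.ne', one_mul]

/-- coordinates -/
theorem sum_ev (v : R4) : v = ∑ i, v i • ev i := by
  ext j
  simp [ev, Finset.sum_apply, Pi.single_apply]

theorem clm_apply_eq (l : R4 →L[ℝ] ℝ) (v : R4) : l v = ∑ i, v i * l (ev i) := by
  conv_lhs => rw [sum_ev v]
  rw [map_sum]
  simp

theorem fderiv_norm_le (hB : Block U R₀) (x : R4) : ‖fderiv ℝ U x‖ ≤ 1 := by
  apply ContinuousLinearMap.opNorm_le_bound _ zero_le_one
  intro v
  rw [clm_apply_eq, one_mul, Real.norm_eq_abs]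
  have h1 := Finset.sum_mul_sq_le_sq_mul_sq Finset.univ (fun i => v i) (fun i => fderiv ℝ U x (ev i))
  have h2 : ∑ i, (fderiv ℝ U x (ev i)) ^ 2 ≤ 1 := by
    have := hB.q_nonneg x
    unfold qq pd at this
    linarith
  have h3 : ‖v‖ ^ 2 = ∑ i, v i ^ 2 := by
    rw [EuclideanSpace.norm_sq_eq]
    simp
  have h4 : (∑ i, v i * fderiv ℝ U x (ev i)) ^ 2 ≤ ‖v‖ ^ 2 := by
    rw [h3]
    refine h1.trans ?_
    have : 0 ≤ ∑ i, v i ^ 2 := Finset.sum_nonneg fun i _ => sq_nonneg _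
    nlinarith
  exact abs_le_of_sq_le_sq h4 (norm_nonneg v)

theorem Us_lip (hB : Block U R₀) {r : ℝ} (hr : 0 < r) (y : R4) : LipschitzWith 1 (Us U y r) := by
  apply lipschitzWith_of_nnnorm_fderiv_le (𝕜 := ℝ)
  · exact fun x => (Us_hasFDeriv hB.smooth hr y x).differentiableAt
  · intro x
    rw [(Us_hasFDeriv hB.smooth hr y x).fderiv]
    exact fderiv_norm_le hB _

theorem arg_notMem {r : ℝ} (hr : 0 < r) {y x : R4} (hB : Block U R₀) (hx : x ∉ Metric.ball y (r * R₀)) :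
    r⁻¹ • (x - y) ∉ tsupport U := by
  intro h
  have h1 := hB.supp h
  rw [mem_ball_zero_iff, norm_smul, Real.norm_eq_abs, abs_of_pos (by positivity), inv_mul_lt_iff₀ hr] at h1
  apply hx
  rwa [mem_ball_iff_norm]

theorem Us_zero (hB : Block U R₀) {r : ℝ} (hr : 0 < r) {y x : R4} (hx : x ∉ Metric.ball y (r * R₀)) : Us U y r x = 0 := by
  unfold Us
  rw [image_eq_zero_of_notMem_tsupport (arg_notMem hr hB hx), mul_zero]

theorem Ws_zero (hB : Block U R₀) {r : ℝ} (hr : 0 < r) {y x : R4} (hx : x ∉ Metric.ball y (r * R₀)) (i : Fin 4) :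
    Ws U y r i x = 0 := by
  unfold Ws W0
  rw [pd_zero (arg_notMem hr hB hx), zero_div]

theorem Ds_zero (hB : Block U R₀) {r : ℝ} (hr : 0 < r) {y x : R4} (hx : x ∉ Metric.ball y (r * R₀)) : Ds U y r x = 0 := by
  unfold Ds D0
  simp [pd_zero (arg_notMem hr hB hx), fderiv_pd_zero (arg_notMem hr hB hx)]

/-- a Lipschitz function vanishing outside a ball is at most the distance to the complement -/
theorem abs_le_dist {g : R4 → ℝ} (hg : LipschitzWith 1 g) {y : R4} {ρ : ℝ} (h0 : ∀ x, x ∉ Metric.ball y ρ → g x = 0)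
    {x : R4} (hx : x ∈ Metric.ball y ρ) : |g x| ≤ ρ - ‖x - y‖ := by
  rw [mem_ball_iff_norm] at hx
  obtain ⟨w, hw1, hw2⟩ : ∃ w : R4, ‖w‖ = 1 ∧ x - y = ‖x - y‖ • w := by
    by_cases h : x - y = 0
    · exact ⟨ev 3, ev_norm 3, by rw [h]; simp⟩
    · have hn : ‖x - y‖ ≠ 0 := norm_ne_zero_iff.2 h
      refine ⟨‖x - y‖⁻¹ • (x - y), ?_, ?_⟩
      · rw [norm_smul, norm_inv, norm_norm, inv_mul_cancel₀ hn]
      · rw [smul_smul, mul_inv_cancel₀ hn, one_smul]
  have hρ : 0 ≤ ρ := (norm_nonneg _).trans hx.le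
  have h1 : g (y + ρ • w) = 0 := by
    apply h0
    rw [mem_ball_iff_norm, add_sub_cancel_left, norm_smul, hw1, mul_one, Real.norm_eq_abs, abs_of_nonneg hρ]
    exact lt_irrefl _
  have h2 := hg.dist_le_mul x (y + ρ • w)
  rw [h1, NNReal.coe_one, one_mul, Real.dist_eq, sub_zero, dist_eq_norm] at h2
  refine h2.trans (le_of_eq ?_)
  have h3 : x - (y + ρ • w) = (‖x - y‖ - ρ) • w := by
    rw [sub_smul, ← hw2]
    abel
  rw [h3, norm_smul, hw1, mul_one, Real.norm_eq_abs, abs_of_neg (by linarith)]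
  ring

/-- change of variables -/
theorem cov {F : R4 → ℝ} {r : ℝ} (hr : 0 < r) (y : R4) : ∫ x, F (r⁻¹ • (x - y)) = r ^ 4 * ∫ x, F x := by
  rw [integral_sub_right_eq_self (fun x => F (r⁻¹ • x)) y, Measure.integral_comp_inv_smul volume F r]
  rw [finrank_euclideanSpace_fin, smul_eq_mul, abs_of_pos (by positivity)]

theorem cov_int {F : R4 → ℝ} (hF : Integrable F) {r : ℝ} (hr : 0 < r) (y : R4) : Integrable (fun x => F (r⁻¹ • (x - y))) :=
  (hF.comp_smul (inv_ne_zero hr.ne')).comp_sub_right y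

theorem Ws_int (hB : Block U R₀) {r : ℝ} (hr : 0 < r) (y : R4) (i : Fin 4) : Integrable (Ws U y r i) :=
  cov_int (hB.intW i) hr y

theorem Ds_int (hB : Block U R₀) {r : ℝ} (hr : 0 < r) (y : R4) : Integrable (Ds U y r) := by
  have h1 : Integrable (fun x => ∑ i, D0 U i x) := integrable_finsetSum _ fun i _ => hB.intD i
  exact ((cov_int h1 hr y).const_mul r⁻¹).neg

theorem Ws_norm {r : ℝ} (hr : 0 < r) (y : R4) (i : Fin 4) : ∫ x, |Ws U y r i x| = r ^ 4 * ∫ x, |W0 U i x| :=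
  cov (F := fun x => |W0 U i x|) hr y

theorem Ds_norm {r : ℝ} (hr : 0 < r) (y : R4) : ∫ x, |Ds U y r x| = r ^ 3 * ∫ x, |∑ i, D0 U i x| := by
  have h1 : ∀ x, |Ds U y r x| = r⁻¹ * |∑ i, D0 U i (r⁻¹ • (x - y))| := by
    intro x
    unfold Ds
    rw [abs_neg, abs_mul, abs_of_pos (by positivity : 0 < r⁻¹)]
  simp_rw [h1]
  rw [integral_const_mul, cov (F := fun x => |∑ i, D0 U i x|) hr y, ← mul_assoc]
  congr 1
  field_simp

/-- the scaled identity -/
theorem Us_ident (hB : Block U R₀) {r : ℝ} (hr : 0 < r) (y : R4) {η : R4 → ℝ} {L : NNReal} (hη : LipschitzWith L η) :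
    ∫ x, ∑ i, lineDeriv ℝ η x (ev i) * Ws U y r i x = ∫ x, Ds U y r x * η x := by
  set ηh : R4 → ℝ := fun t => η (y + r • t) with hηh
  have hl : LipschitzWith (L * ⟨r, hr.le⟩) ηh := by
    apply hη.comp
    apply LipschitzWith.of_dist_le_mul
    intro a b
    rw [dist_eq_norm, dist_eq_norm, add_sub_add_left_eq_sub, ← smul_sub, norm_smul, Real.norm_eq_abs, abs_of_pos hr]
    rfl
  have hld : ∀ t v, lineDeriv ℝ ηh t v = r * lineDeriv ℝ η (y + r • t) v := by
    intro t v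
    have h1 : lineDeriv ℝ ηh t v = lineDeriv ℝ η (y + r • t) (r • v) := by
      unfold lineDeriv
      congr 1
      ext s
      rw [hηh]
      simp only
      congr 1
      rw [smul_add, smul_comm r s v, add_assoc]
    rw [h1, lineDeriv_smul, smul_eq_mul]
  have h1 := hB.ident ηh _ hl
  simp only [hld] at h1
  -- the two functions of x
  have e1 : ∫ x, ∑ i, lineDeriv ℝ η x (ev i) * Ws U y r i x =
      r ^ 4 * ∫ t, ∑ i, lineDeriv ℝ η (y + r • t) (ev i) * W0 U i t := by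
    rw [← cov (F := fun t => ∑ i, lineDeriv ℝ η (y + r • t) (ev i) * W0 U i t) hr y]
    apply integral_congr_ae
    refine Eventually.of_forall fun x => ?_
    simp only
    rw [smul_inv_smul₀ hr.ne', add_sub_cancel]
    rfl
  have e2 : ∫ x, Ds U y r x * η x = r ^ 4 * ∫ t, -(r⁻¹ * ((∑ i, D0 U i t) * η (y + r • t))) := by
    rw [← cov (F := fun t => -(r⁻¹ * ((∑ i, D0 U i t) * η (y + r • t)))) hr y]
    apply integral_congr_ae
    refine Eventually.of_forall fun x => ?_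
    simp only
    rw [smul_inv_smul₀ hr.ne', add_sub_cancel]
    unfold Ds
    ring
  rw [e1, e2]
  congr 1
  rw [integral_neg, integral_const_mul]
  have e3 : ∫ x, ∑ i, r * lineDeriv ℝ η (y + r • x) (ev i) * W0 U i x =
      r * ∫ t, ∑ i, lineDeriv ℝ η (y + r • t) (ev i) * W0 U i t := by
    rw [← integral_const_mul]
    apply integral_congr_ae
    refine Eventually.of_forall fun x => ?_
    simp only
    rw [Finset.mul_sum]
    apply Finset.sum_congr rfl
    intro i _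
    ring
  rw [e3] at h1
  field_simp
  linarith

end Pool.Agent.V1180.LS
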