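import Pool.Agent.V1180.LSe

set_option autoImplicit false

/-!
# The sum of the scaled blocks and its minimality
-/

namespace Pool.Agent.V1180.LS

open Real MeasureTheory Filter Topology Set
open scoped ContDiff

/-- a family of disjoint balls -/
structure Conf (R₀ : ℝ) (Ω : Set R4) (y : ℕ → R4) (r : ℕ → ℝ) : Prop where
  pos : ∀ j, 0 < r j
  disj : ∀ j k, j ≠ k → r j * R₀ + r k * R₀ ≤ ‖y j - y k‖
  sub : ∀ j, Metric.ball (y j) (r j * R₀) ⊆ Ω
  loc : ∀ x : R4, x 3 ≠ 0 → ∃ j, ∀ᶠ z in 𝓝 x, ∀ k, k ≠ j → z ∉ Metric.ball (y k) (r k * R₀)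
  le : ∀ j, r j ≤ (1/2) ^ j

variable {U : R4 → ℝ} {R₀ : ℝ} {Ω : Set R4} {y : ℕ → R4} {r : ℕ → ℝ}

/-- a point lies in at most one ball -/
theorem Conf.single (hC : Conf R₀ Ω y r) (x : R4) : ∃ j, ∀ k, k ≠ j → x ∉ Metric.ball (y k) (r k * R₀) := by
  by_cases h : ∃ j, x ∈ Metric.ball (y j) (r j * R₀)
  · obtain ⟨j, hj⟩ := h
    refine ⟨j, fun k hk hx => ?_⟩
    rw [mem_ball_iff_norm] at hj hx
    have h1 := hC.disj j k hk.symm
    have h2 : ‖y j - y k‖ ≤ ‖x - y j‖ + ‖x - y k‖ := by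
      have : y j - y k = -(x - y j) + (x - y k) := by abel
      rw [this]
      refine (norm_add_le _ _).trans ?_
      rw [norm_neg]
    linarith
  · push Not at h
    exact ⟨0, fun k _ => h k⟩

/-- the function -/
noncomputable def uu (U : R4 → ℝ) (y : ℕ → R4) (r : ℕ → ℝ) (x : R4) : ℝ := ∑' j, Us U (y j) (r j) x

/-- the source -/
noncomputable def ff (U : R4 → ℝ) (y : ℕ → R4) (r : ℕ → ℝ) (x : R4) : ℝ := ∑' j, Ds U (y j) (r j) x

theorem uu_eq (hB : Block U R₀) (hC : Conf R₀ Ω y r) {x : R4} {j : ℕ} (hj : ∀ k, k ≠ j → x ∉ Metric.ball (y k) (r k * R₀)) :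
    uu U y r x = Us U (y j) (r j) x :=
  tsum_eq_single j fun k hk => Us_zero hB (hC.pos k) (hj k hk)

theorem ff_eq (hB : Block U R₀) (hC : Conf R₀ Ω y r) {x : R4} {j : ℕ} (hj : ∀ k, k ≠ j → x ∉ Metric.ball (y k) (r k * R₀)) :
    ff U y r x = Ds U (y j) (r j) x :=
  tsum_eq_single j fun k hk => Ds_zero hB (hC.pos k) (hj k hk)

theorem uu_lip (hB : Block U R₀) (hC : Conf R₀ Ω y r) : LipschitzWith 1 (uu U y r) := by
  apply LipschitzWith.of_dist_le_mul
  intro a b
  rw [NNReal.coe_one, one_mul, Real.dist_eq, dist_eq_norm]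
  have hin : ∀ j x, x ∈ Metric.ball (y j) (r j * R₀) → ∀ k, k ≠ j → x ∉ Metric.ball (y k) (r k * R₀) := by
    intro j x hx k hk hk'
    obtain ⟨i, hi⟩ := hC.single x
    have e1 : j = i := by
      by_contra h
      exact hi j h hx
    have e2 : k = i := by
      by_contra h
      exact hi k h hk'
    exact hk (e2.trans e1.symm)
  have hsame : ∀ j, (a ∈ Metric.ball (y j) (r j * R₀) ∨ b ∈ Metric.ball (y j) (r j * R₀)) →
      (∀ k, k ≠ j → a ∉ Metric.ball (y k) (r k * R₀)) → (∀ k, k ≠ j → b ∉ Metric.ball (y k) (r k * R₀)) →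
      |uu U y r a - uu U y r b| ≤ ‖a - b‖ := by
    intro j _ h1 h2
    rw [uu_eq hB hC h1, uu_eq hB hC h2]
    have := (Us_lip hB (hC.pos j) (y j)).dist_le_mul a b
    rwa [NNReal.coe_one, one_mul, Real.dist_eq, dist_eq_norm] at this
  by_cases ha : ∃ j, a ∈ Metric.ball (y j) (r j * R₀)
  · obtain ⟨j, hj⟩ := ha
    by_cases hb : ∃ k, b ∈ Metric.ball (y k) (r k * R₀)
    · obtain ⟨k, hk⟩ := hb
      by_cases hjk : j = k
      · subst hjk
        exact hsame j (Or.inl hj) (hin j a hj) (hin j b hk)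
      · rw [uu_eq hB hC (hin j a hj), uu_eq hB hC (hin k b hk)]
        have h1 := abs_le_dist (Us_lip hB (hC.pos j) (y j)) (fun x hx => Us_zero hB (hC.pos j) hx) hj
        have h2 := abs_le_dist (Us_lip hB (hC.pos k) (y k)) (fun x hx => Us_zero hB (hC.pos k) hx) hk
        have h3 := hC.disj j k hjk
        have h4 : ‖y j - y k‖ ≤ ‖a - y j‖ + ‖a - b‖ + ‖b - y k‖ := by
          have : y j - y k = -(a - y j) + (a - b) + (b - y k) := by abel
          rw [this]
          refine (norm_add_le _ _).trans ?_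
          have := norm_add_le (-(a - y j)) (a - b)
          rw [norm_neg] at this
          linarith
        have h5 := abs_sub (Us U (y j) (r j) a) (Us U (y k) (r k) b)
        linarith
    · push Not at hb
      exact hsame j (Or.inl hj) (hin j a hj) (fun k _ => hb k)
  · push Not at ha
    by_cases hb : ∃ k, b ∈ Metric.ball (y k) (r k * R₀)
    · obtain ⟨k, hk⟩ := hb
      exact hsame k (Or.inr hk) (fun i _ => ha i) (hin k b hk)
    · push Not at hb
      rw [uu_eq hB hC (j := 0) (fun k _ => ha k), uu_eq hB hC (j := 0) (fun k _ => hb k),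
        Us_zero hB (hC.pos 0) (ha 0), Us_zero hB (hC.pos 0) (hb 0), sub_self, abs_zero]
      exact norm_nonneg _

/-- the derivative off the hyperplane -/
theorem uu_fderiv (hB : Block U R₀) (hC : Conf R₀ Ω y r) {x : R4} (hx : x 3 ≠ 0) :
    ∃ j, (∀ k, k ≠ j → x ∉ Metric.ball (y k) (r k * R₀)) ∧
      fderiv ℝ (uu U y r) x = fderiv ℝ U ((r j)⁻¹ • (x - y j)) := by
  obtain ⟨j, hj⟩ := hC.loc x hx
  refine ⟨j, hj.self_of_nhds, ?_⟩
  have h1 : uu U y r =ᶠ[𝓝 x] Us U (y j) (r j) := by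
    filter_upwards [hj] with z hz
    exact uu_eq hB hC hz
  rw [h1.fderiv_eq, (Us_hasFDeriv hB.smooth (hC.pos j) (y j) x).fderiv]

/-- integrability of sums with at most one nonzero term -/
theorem int_tsum {μ : Measure R4} {F : ℕ → R4 → ℝ} (hF : ∀ j, Integrable (F j) μ) (hs : Summable fun j => ∫ x, ‖F j x‖ ∂μ)
    (hpt : ∀ x, ∃ j, ∀ k, k ≠ j → F k x = 0) : Integrable (fun x => ∑' j, F j x) μ := by
  have hsum : ∀ x, HasSum (fun j => F j x) (∑' j, F j x) := by
    intro x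
    obtain ⟨j, hj⟩ := hpt x
    have : Summable (fun j => F j x) := summable_of_ne_finset_zero (s := {j}) (fun k hk => hj k (by simpa using hk))
    exact this.hasSum
  refine ⟨?_, ?_⟩
  · refine aestronglyMeasurable_of_tendsto_ae atTop (f := fun n x => ∑ j ∈ Finset.range n, F j x) ?_ ?_
    · intro n
      exact Finset.aestronglyMeasurable_fun_sum _ fun i _ => (hF i).1
    · exact Eventually.of_forall fun x => (hsum x).tendsto_sum_nat
  · unfold HasFiniteIntegral
    calc ∫⁻ x, ‖∑' j, F j x‖ₑ ∂μ ≤ ∫⁻ x, ∑' j, ‖F j x‖ₑ ∂μ := by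
          apply lintegral_mono
          intro x
          obtain ⟨j, hj⟩ := hpt x
          simp only
          rw [tsum_eq_single j hj]
          exact ENNReal.le_tsum j
      _ = ∑' j, ∫⁻ x, ‖F j x‖ₑ ∂μ := lintegral_tsum fun j => (hF j).1.enorm
      _ = ∑' j, ENNReal.ofReal (∫ x, ‖F j x‖ ∂μ) := by
          congr 1
          ext j
          rw [ofReal_integral_norm_eq_lintegral_enorm (hF j)]
      _ < ⊤ := by
          rw [← ENNReal.ofReal_tsum_of_nonneg (fun j => integral_nonneg fun x => norm_nonneg _) hs]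
          exact ENNReal.ofReal_lt_top

theorem summable_pow_r (hC : Conf R₀ Ω y r) {n : ℕ} (hn : n ≠ 0) (C : ℝ) : Summable (fun j => r j ^ n * C) := by
  apply Summable.mul_right
  refine Summable.of_nonneg_of_le (fun j => pow_nonneg (hC.pos j).le _) (fun j => ?_) (summable_geometric_two)
  have h1 : r j ≤ 1 := (hC.le j).trans (pow_le_one₀ (by norm_num) (by norm_num))
  calc r j ^ n ≤ r j ^ 1 := pow_le_pow_of_le_one (hC.pos j).le h1 (Nat.one_le_iff_ne_zero.2 hn)
    _ = r j := pow_one _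
    _ ≤ _ := hC.le j

theorem ff_int (hB : Block U R₀) (hC : Conf R₀ Ω y r) : Integrable (ff U y r) := by
  apply int_tsum (fun j => Ds_int hB (hC.pos j) (y j))
  · have : (fun j => ∫ x, ‖Ds U (y j) (r j) x‖) = fun j => r j ^ 3 * ∫ x, |∑ i, D0 U i x| := by
      ext j
      exact Ds_norm (hC.pos j) (y j)
    rw [this]
    exact summable_pow_r hC (by norm_num) _
  · intro x
    obtain ⟨j, hj⟩ := hC.single x
    exact ⟨j, fun k hk => Ds_zero hB (hC.pos k) (hj k hk)⟩

/-- the square of the norm of a functional -/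
theorem norm_sq_clm (l : R4 →L[ℝ] ℝ) : ‖l‖ ^ 2 = ∑ i, l (ev i) ^ 2 := by
  set w : R4 := (InnerProductSpace.toDual ℝ R4).symm l with hw
  have h1 : ‖w‖ = ‖l‖ := by rw [hw]; exact LinearIsometryEquiv.norm_map _ _
  have h2 : ∀ i, l (ev i) = w i := by
    intro i
    have := InnerProductSpace.toDual_symm_apply (𝕜 := ℝ) (x := ev i) (y := l)
    rw [← this, ← hw]
    unfold ev
    rw [EuclideanSpace.inner_single_right]
    simp
  rw [← h1, EuclideanSpace.norm_sq_eq]
  simp [h2]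

/-- the convexity inequality -/
theorem convex_ineq {S P X : ℝ} (hS : 0 ≤ S) (hS1 : S ≤ 1) (hP : 0 ≤ P) (hP1 : P < 1) (hX : X ^ 2 ≤ S * P) :
    √(1 - S) ≤ √(1 - P) - (X - P) / √(1 - P) := by
  have hq : 0 < 1 - P := by linarith
  have hs0 : 0 < √(1 - P) := Real.sqrt_pos.2 hq
  have hs2 : √(1 - P) * √(1 - P) = 1 - P := Real.mul_self_sqrt hq.le
  set a := √S with ha
  set b := √P with hb
  have ha2 : a ^ 2 = S := Real.sq_sqrt hS
  have hb2 : b ^ 2 = P := Real.sq_sqrt hP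
  have ha0 : 0 ≤ a := Real.sqrt_nonneg _
  have hb0 : 0 ≤ b := Real.sqrt_nonneg _
  have hXab : X ≤ a * b := by
    apply le_of_sq_le_sq _ (mul_nonneg ha0 hb0)
    rw [mul_pow, ha2, hb2]
    exact hX
  have ha1 : a ≤ 1 := by nlinarith
  have hb1 : b ≤ 1 := by nlinarith
  have hab : a * b ≤ 1 := by nlinarith
  have h1 : √(1 - S) * √(1 - P) ≤ 1 - a * b := by
    rw [← Real.sqrt_mul (by linarith)]
    apply Real.sqrt_le_iff.2
    refine ⟨by linarith, ?_⟩
    rw [← ha2, ← hb2]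
    nlinarith [sq_nonneg (a - b)]
  have h2 : √(1 - P) - (X - P) / √(1 - P) = (1 - X) / √(1 - P) := by
    field_simp
    nlinarith
  rw [h2, le_div_iff₀ hs0]
  linarith

end Pool.Agent.V1180.LS
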