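import Pool.Agent.V1180.LSf

set_option autoImplicit false

/-!
# Minimality of the sum
-/

namespace Pool.Agent.V1180.LS

open Real MeasureTheory Filter Topology Set
open scoped ContDiff

variable {U : R4 → ℝ} {R₀ : ℝ} {Ω : Set R4} {y : ℕ → R4} {r : ℕ → ℝ} {v : R4 → ℝ} {M : ℝ}

/-- the term number `j` of the first variation -/
noncomputable def FF (U : R4 → ℝ) (y : ℕ → R4) (r : ℕ → ℝ) (v : R4 → ℝ) (j : ℕ) (x : R4) : ℝ :=
  ∑ i, (fderiv ℝ v x (ev i) - fderiv ℝ (uu U y r) x (ev i)) * Ws U (y j) (r j) i x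

/-- hypotheses on the competitor -/
structure Comp (R₀ : ℝ) (Ω : Set R4) (y : ℕ → R4) (r : ℕ → ℝ) (v : R4 → ℝ) (M : ℝ) : Prop where
  lip : ∀ j, LipschitzOnWith 1 v (Metric.ball (y j) (r j * R₀))
  der : ∀ x ∈ Ω, ‖fderiv ℝ v x‖ ≤ 1
  cont : ContinuousOn v Ω
  bdd : ∀ x ∈ Ω, |v x| ≤ M

theorem uu_der (hB : Block U R₀) (hC : Conf R₀ Ω y r) (x : R4) : ‖fderiv ℝ (uu U y r) x‖ ≤ 1 := by
  have := norm_fderiv_le_of_lipschitz ℝ (uu_lip hB hC) (x₀ := x)
  simpa using this

theorem uu_bdd (hB : Block U R₀) (hC : Conf R₀ Ω y r) : ∃ M, ∀ x, |uu U y r x| ≤ M := by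
  refine ⟨R₀, fun x => ?_⟩
  obtain ⟨j, hj⟩ := hC.single x
  rw [uu_eq hB hC hj]
  have hR0 : 0 < R₀ := by have := hB.one_le; linarith
  by_cases hx : x ∈ Metric.ball (y j) (r j * R₀)
  · have h1 := abs_le_dist (Us_lip hB (hC.pos j) (y j)) (fun x hx => Us_zero hB (hC.pos j) hx) hx
    have h2 : r j ≤ 1 := (hC.le j).trans (pow_le_one₀ (by norm_num) (by norm_num))
    have h3 := norm_nonneg (x - y j)
    nlinarith
  · rw [Us_zero hB (hC.pos j) hx, abs_zero]
    exact hR0.le

theorem Ws_meas (hB : Block U R₀) {ρ : ℝ} (z : R4) (i : Fin 4) : Measurable (Ws U z ρ i) := by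
  unfold Ws
  have h : Measurable (W0 U i) := by
    rw [W0_eq]
    exact We_meas hB.smooth 0 i
  have hc : Continuous (fun x : R4 => ρ⁻¹ • (x - z)) := by fun_prop
  exact h.comp hc.measurable

theorem clm_ev_le {l : R4 →L[ℝ] ℝ} (h : ‖l‖ ≤ 1) (i : Fin 4) : |l (ev i)| ≤ 1 := by
  have := l.le_opNorm (ev i)
  rw [ev_norm, mul_one, Real.norm_eq_abs] at this
  exact this.trans h

/-- the first variation, one term -/
theorem FF_term (hB : Block U R₀) (hC : Conf R₀ Ω y r) (hv : Comp R₀ Ω y r v M) (j : ℕ) :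
    ∫ x in Ω, FF U y r v j x = ∫ x in Ω, Ds U (y j) (r j) x * (v x - uu U y r x) := by
  have hW0 : ∀ x, x ∉ Metric.ball (y j) (r j * R₀) → ∀ i, Ws U (y j) (r j) i x = 0 := fun x hx i => Ws_zero hB (hC.pos j) hx i
  have hD0 : ∀ x, x ∉ Metric.ball (y j) (r j * R₀) → Ds U (y j) (r j) x = 0 := fun x hx => Ds_zero hB (hC.pos j) hx
  rw [setIntegral_eq_integral_of_forall_compl_eq_zero, setIntegral_eq_integral_of_forall_compl_eq_zero]
  rotate_left
  · intro x hx
    rw [hD0 x (fun h => hx (hC.sub j h)), zero_mul]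
  · intro x hx
    unfold FF
    simp [hW0 x (fun h => hx (hC.sub j h))]
  obtain ⟨w, hw, hwe⟩ := (hv.lip j).extend_real
  have hid1 := Us_ident hB (hC.pos j) (y j) hw
  have hid2 := Us_ident hB (hC.pos j) (y j) (uu_lip hB hC)
  have hi : ∀ (g : R4 → ℝ), LipschitzWith 1 g → Integrable (fun x => ∑ i, lineDeriv ℝ g x (ev i) * Ws U (y j) (r j) i x) := by
    intro g hg
    apply integrable_finsetSum
    intro i _
    refine (Ws_int hB (hC.pos j) (y j) i).norm.mono' ?_ ?_
    · exact (aestronglyMeasurable_lineDeriv hg.continuous volume).mul (Ws_meas hB (y j) i).aestronglyMeasurable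
    · refine Eventually.of_forall fun x => ?_
      rw [norm_mul]
      have := norm_lineDeriv_le_of_lipschitz ℝ hg (x₀ := x) (v := ev i)
      rw [ev_norm, mul_one, NNReal.coe_one] at this
      exact mul_le_of_le_one_left (norm_nonneg _) this
  have hk : ∀ (g : R4 → ℝ) (K : ℝ), Continuous g → (∀ x ∈ Metric.ball (y j) (r j * R₀), |g x| ≤ K) →
      Integrable (fun x => Ds U (y j) (r j) x * g x) := by
    intro g K hg hK
    refine ((Ds_int hB (hC.pos j) (y j)).norm.mul_const K).mono' ?_ ?_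
    · exact (Ds_int hB (hC.pos j) (y j)).1.mul hg.aestronglyMeasurable
    · refine Eventually.of_forall fun x => ?_
      rw [norm_mul]
      by_cases hx : x ∈ Metric.ball (y j) (r j * R₀)
      · exact mul_le_mul_of_nonneg_left (hK x hx) (norm_nonneg _)
      · rw [hD0 x hx]
        simp
  obtain ⟨M', hM'⟩ := uu_bdd hB hC
  have j1 := hk w M hw.continuous (fun x hx => by rw [← hwe hx]; exact hv.bdd x (hC.sub j hx))
  have j2 := hk (uu U y r) M' (uu_lip hB hC).continuous (fun x _ => hM' x)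
  have e1 : ∫ x, FF U y r v j x = (∫ x, ∑ i, lineDeriv ℝ w x (ev i) * Ws U (y j) (r j) i x) -
      ∫ x, ∑ i, lineDeriv ℝ (uu U y r) x (ev i) * Ws U (y j) (r j) i x := by
    rw [← integral_sub (hi w hw) (hi _ (uu_lip hB hC))]
    apply integral_congr_ae
    filter_upwards [hw.ae_differentiableAt, (uu_lip hB hC).ae_differentiableAt] with x h1 h2
    rw [← Finset.sum_sub_distrib]
    unfold FF
    apply Finset.sum_congr rfl
    intro i _
    by_cases hx : x ∈ Metric.ball (y j) (r j * R₀)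
    · have hev : v =ᶠ[𝓝 x] w := by
        filter_upwards [Metric.isOpen_ball.mem_nhds hx] with z hz
        exact hwe hz
      rw [hev.fderiv_eq, h1.lineDeriv_eq_fderiv, h2.lineDeriv_eq_fderiv]
      ring
    · rw [hW0 x hx]
      ring
  rw [e1, hid1, hid2, ← integral_sub j1 j2]
  apply integral_congr_ae
  refine Eventually.of_forall fun x => ?_
  simp only
  by_cases hx : x ∈ Metric.ball (y j) (r j * R₀)
  · rw [← hwe hx]
    ring
  · rw [hD0 x hx]
    ring

theorem fderiv_meas (g : R4 → ℝ) (i : Fin 4) : Measurable (fun x => fderiv ℝ g x (ev i)) :=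
  measurable_fderiv_apply_const ℝ g (ev i)

theorem FF_zero (hB : Block U R₀) (hC : Conf R₀ Ω y r) {x : R4} {j : ℕ} (hj : x ∉ Metric.ball (y j) (r j * R₀)) :
    FF U y r v j x = 0 := by
  unfold FF
  simp [Ws_zero hB (hC.pos j) hj]

/-- integrability and summability of the first variation -/
theorem FF_sum (hΩ : MeasurableSet Ω) (hB : Block U R₀) (hC : Conf R₀ Ω y r) (hv : Comp R₀ Ω y r v M) :
    (∀ j, IntegrableOn (FF U y r v j) Ω) ∧ Summable (fun j => ∫ x in Ω, ‖FF U y r v j x‖) := by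
  have hbd : ∀ j, ∀ x ∈ Ω, ‖FF U y r v j x‖ ≤ ∑ i, 2 * |Ws U (y j) (r j) i x| := by
    intro j x hx
    unfold FF
    refine (norm_sum_le _ _).trans (Finset.sum_le_sum fun i _ => ?_)
    rw [norm_mul, Real.norm_eq_abs, Real.norm_eq_abs]
    apply mul_le_mul_of_nonneg_right _ (abs_nonneg _)
    have h1 := clm_ev_le (hv.der x hx) i
    have h2 := clm_ev_le (uu_der hB hC x) i
    have := abs_sub (fderiv ℝ v x (ev i)) (fderiv ℝ (uu U y r) x (ev i))
    linarith
  have hWi : ∀ j, Integrable (fun x => ∑ i, 2 * |Ws U (y j) (r j) i x|) := fun j =>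
    integrable_finsetSum _ fun i _ => ((Ws_int hB (hC.pos j) (y j) i).norm.const_mul 2)
  have hI : ∀ j, IntegrableOn (FF U y r v j) Ω := by
    intro j
    refine (hWi j).integrableOn.mono' ?_ ?_
    · apply Measurable.aestronglyMeasurable
      unfold FF
      apply Finset.measurable_fun_sum
      intro i _
      exact ((fderiv_meas v i).sub (fderiv_meas _ i)).mul (Ws_meas hB (y j) i)
    · filter_upwards [ae_restrict_mem hΩ] with x hx
      exact hbd j x hx
  refine ⟨hI, ?_⟩
  have hle : ∀ j, ∫ x in Ω, ‖FF U y r v j x‖ ≤ r j ^ 4 * (∑ i, 2 * ∫ x, |W0 U i x|) := by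
    intro j
    calc ∫ x in Ω, ‖FF U y r v j x‖ ≤ ∫ x in Ω, ∑ i, 2 * |Ws U (y j) (r j) i x| :=
          setIntegral_mono_on (hI j).norm (hWi j).integrableOn hΩ (hbd j)
      _ ≤ ∫ x, ∑ i, 2 * |Ws U (y j) (r j) i x| := by
          apply setIntegral_le_integral (hWi j)
          exact Eventually.of_forall fun x => Finset.sum_nonneg fun i _ => by positivity
      _ = _ := by
          have hw : ∀ i, Integrable (fun x => 2 * |Ws U (y j) (r j) i x|) := fun i =>
            (Ws_int hB (hC.pos j) (y j) i).norm.const_mul 2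
          rw [integral_finsetSum _ fun i _ => hw i, Finset.mul_sum]
          apply Finset.sum_congr rfl
          intro i _
          rw [integral_const_mul, Ws_norm (hC.pos j)]
          ring
  exact Summable.of_nonneg_of_le (fun j => integral_nonneg fun x => norm_nonneg _) hle (summable_pow_r hC (by norm_num) _)

/-- the first variation vanishes -/
theorem first_variation (hΩ : MeasurableSet Ω) (hB : Block U R₀) (hC : Conf R₀ Ω y r) (hv : Comp R₀ Ω y r v M) :
    IntegrableOn (fun x => ∑' j, FF U y r v j x) Ω ∧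
    IntegrableOn (fun x => ff U y r x * (v x - uu U y r x)) Ω ∧
    ∫ x in Ω, ∑' j, FF U y r v j x = ∫ x in Ω, ff U y r x * (v x - uu U y r x) := by
  obtain ⟨h1, h2⟩ := FF_sum hΩ hB hC hv
  obtain ⟨M', hM'⟩ := uu_bdd hB hC
  have hpt : ∀ x, ∃ j, ∀ k, k ≠ j → FF U y r v k x = 0 := by
    intro x
    obtain ⟨j, hj⟩ := hC.single x
    exact ⟨j, fun k hk => FF_zero hB hC (hj k hk)⟩
  have h3 := int_tsum h1 h2 hpt
  have h4 := hasSum_integral_of_summable_integral_norm h1 h2
  set G : ℕ → R4 → ℝ := fun j x => Ds U (y j) (r j) x * (v x - uu U y r x) with hG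
  have hGb : ∀ j, ∀ x ∈ Ω, ‖G j x‖ ≤ |Ds U (y j) (r j) x| * (M + M') := by
    intro j x hx
    rw [hG]
    simp only
    rw [norm_mul, Real.norm_eq_abs, Real.norm_eq_abs]
    apply mul_le_mul_of_nonneg_left _ (abs_nonneg _)
    have := abs_sub (v x) (uu U y r x)
    have := hv.bdd x hx
    have := hM' x
    linarith
  have hDi : ∀ j, Integrable (fun x => |Ds U (y j) (r j) x| * (M + M')) := fun j => (Ds_int hB (hC.pos j) (y j)).norm.mul_const _
  have g1 : ∀ j, IntegrableOn (G j) Ω := by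
    intro j
    refine (hDi j).integrableOn.mono' ?_ ?_
    · apply AEStronglyMeasurable.mul
      · exact (Ds_int hB (hC.pos j) (y j)).1.restrict
      · exact (hv.cont.sub (uu_lip hB hC).continuous.continuousOn).aestronglyMeasurable hΩ
    · filter_upwards [ae_restrict_mem hΩ] with x hx
      exact hGb j x hx
  have hMM : 0 ≤ M + M' ∨ Ω = ∅ := by
    rcases Ω.eq_empty_or_nonempty with h | ⟨x, hx⟩
    · exact Or.inr h
    · left
      have := (abs_nonneg _).trans (hv.bdd x hx)
      have := (abs_nonneg _).trans (hM' x)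
      linarith
  have g2 : Summable (fun j => ∫ x in Ω, ‖G j x‖) := by
    rcases hMM with hMM | hΩe
    · have hle : ∀ j, ∫ x in Ω, ‖G j x‖ ≤ r j ^ 3 * ((∫ x, |∑ i, D0 U i x|) * (M + M')) := by
        intro j
        calc ∫ x in Ω, ‖G j x‖ ≤ ∫ x in Ω, |Ds U (y j) (r j) x| * (M + M') :=
              setIntegral_mono_on (g1 j).norm (hDi j).integrableOn hΩ (hGb j)
          _ ≤ ∫ x, |Ds U (y j) (r j) x| * (M + M') := by
              apply setIntegral_le_integral (hDi j)
              exact Eventually.of_forall fun x => mul_nonneg (abs_nonneg _) hMM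
          _ = _ := by
              rw [integral_mul_const, Ds_norm (hC.pos j)]
              ring
      exact Summable.of_nonneg_of_le (fun j => integral_nonneg fun x => norm_nonneg _) hle (summable_pow_r hC (by norm_num) _)
    · rw [hΩe]
      simp
  have gpt : ∀ x, ∃ j, ∀ k, k ≠ j → G k x = 0 := by
    intro x
    obtain ⟨j, hj⟩ := hC.single x
    exact ⟨j, fun k hk => by rw [hG]; simp only; rw [Ds_zero hB (hC.pos k) (hj k hk), zero_mul]⟩
  have g3 := int_tsum g1 g2 gpt
  have g4 := hasSum_integral_of_summable_integral_norm g1 g2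
  have e : ∀ x, ∑' j, G j x = ff U y r x * (v x - uu U y r x) := by
    intro x
    rw [hG]
    simp only
    rw [tsum_mul_right]
    rfl
  refine ⟨h3, ?_, ?_⟩
  · refine g3.congr (Eventually.of_forall fun x => ?_)
    exact e x
  · have h5 : ∫ x in Ω, ff U y r x * (v x - uu U y r x) = ∫ x in Ω, ∑' j, G j x := by
      congr 1
      ext x
      exact (e x).symm
    rw [h5]
    have h6 : (fun j => ∫ x in Ω, FF U y r v j x) = fun j => ∫ x in Ω, G j x := by
      ext j
      exact FF_term hB hC hv j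
    rw [h6] at h4
    exact h4.unique g4

/-- the pointwise convexity inequality -/
theorem pointwise (hB : Block U R₀) (hC : Conf R₀ Ω y r) {x : R4} (hx : x 3 ≠ 0)
    (hrh : ∀ j, 0 < rh ((r j)⁻¹ • (x - y j))) (hvx : ‖fderiv ℝ v x‖ ≤ 1) :
    √(1 - ‖fderiv ℝ v x‖ ^ 2) ≤ √(1 - ‖fderiv ℝ (uu U y r) x‖ ^ 2) - ∑' j, FF U y r v j x := by
  obtain ⟨j, hj, hd⟩ := uu_fderiv hB hC hx
  rw [tsum_eq_single j (fun k hk => FF_zero hB hC (hj k hk))]
  set t := (r j)⁻¹ • (x - y j) with ht
  have hq := hB.q_pos t (hrh j)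
  set P := ∑ i, fderiv ℝ (uu U y r) x (ev i) ^ 2 with hP
  have hP' : P = 1 - qq U t := by
    rw [hP, hd]
    unfold qq pd
    ring
  have hPn : ‖fderiv ℝ (uu U y r) x‖ ^ 2 = P := norm_sq_clm _
  have hSn : ‖fderiv ℝ v x‖ ^ 2 = ∑ i, fderiv ℝ v x (ev i) ^ 2 := norm_sq_clm _
  have hcs := Finset.sum_mul_sq_le_sq_mul_sq Finset.univ (fun i => fderiv ℝ v x (ev i)) (fun i => fderiv ℝ (uu U y r) x (ev i))
  rw [← hSn, ← hP] at hcs
  have h1 := convex_ineq (S := ‖fderiv ℝ v x‖ ^ 2) (P := P) (sq_nonneg _) (pow_le_one₀ (norm_nonneg _) hvx)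
    (Finset.sum_nonneg fun i _ => sq_nonneg _) (by linarith) hcs
  rw [hPn]
  refine h1.trans (le_of_eq ?_)
  congr 1
  unfold FF Ws W0
  rw [← ht]
  have e1 : √(1 - P) = √(qq U t) := by rw [hP']; congr 1; ring
  rw [e1]
  have e2 : ∀ i, pd U i t = fderiv ℝ (uu U y r) x (ev i) := by
    intro i
    rw [hd]
    rfl
  simp only [e2]
  rw [hP, ← Finset.sum_sub_distrib, Finset.sum_div]
  apply Finset.sum_congr rfl
  intro i _
  ring

/-- **minimality** -/
theorem minimal (hΩ : MeasurableSet Ω) (hΩf : volume Ω ≠ ⊤) (hB : Block U R₀) (hC : Conf R₀ Ω y r) (hv : Comp R₀ Ω y r v M) :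
    (∫ x in Ω, (1 - √(1 - ‖fderiv ℝ (uu U y r) x‖ ^ 2))) - ∫ x in Ω, ff U y r x * uu U y r x ≤
      (∫ x in Ω, (1 - √(1 - ‖fderiv ℝ v x‖ ^ 2))) - ∫ x in Ω, ff U y r x * v x := by
  obtain ⟨h1, h2, h3⟩ := first_variation hΩ hB hC hv
  obtain ⟨M', hM'⟩ := uu_bdd hB hC
  have hffi : IntegrableOn (ff U y r) Ω := (ff_int hB hC).integrableOn
  have hsq : ∀ g : R4 → ℝ, IntegrableOn (fun x => 1 - √(1 - ‖fderiv ℝ g x‖ ^ 2)) Ω := by
    intro g
    have hone : IntegrableOn (fun _ : R4 => (1:ℝ)) Ω := integrableOn_const hΩf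
    refine hone.mono' ?_ ?_
    · apply Measurable.aestronglyMeasurable
      exact measurable_const.sub ((measurable_const.sub ((measurable_fderiv ℝ g).norm.pow_const 2)).sqrt)
    · refine Eventually.of_forall fun x => ?_
      have a := Real.sqrt_nonneg (1 - ‖fderiv ℝ g x‖ ^ 2)
      have b : √(1 - ‖fderiv ℝ g x‖ ^ 2) ≤ 1 := by
        rw [Real.sqrt_le_one]
        linarith [sq_nonneg ‖fderiv ℝ g x‖]
      rw [Real.norm_eq_abs, abs_le]
      constructor <;> linarith
  have i1 : IntegrableOn (fun x => ff U y r x * uu U y r x) Ω := by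
    refine (hffi.norm.mul_const M').mono' (hffi.1.mul (uu_lip hB hC).continuous.aestronglyMeasurable) ?_
    refine Eventually.of_forall fun x => ?_
    rw [norm_mul]
    exact mul_le_mul_of_nonneg_left (hM' x) (norm_nonneg _)
  have i2 : IntegrableOn (fun x => ff U y r x * v x) Ω := by
    refine (h2.add i1).congr (Eventually.of_forall fun x => ?_)
    simp only [Pi.add_apply]
    ring
  have e1 : ∫ x in Ω, ff U y r x * (v x - uu U y r x) = (∫ x in Ω, ff U y r x * v x) - ∫ x in Ω, ff U y r x * uu U y r x := by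
    rw [← integral_sub i2 i1]
    congr 1
    ext x
    ring
  have hae : ∀ᵐ x : R4, ∀ j, 0 < rh ((r j)⁻¹ • (x - y j)) := by
    rw [ae_all_iff]
    intro j
    have h5 : Measure.QuasiMeasurePreserving (fun x : R4 => (r j)⁻¹ • (x - y j)) volume volume := by
      have a := (measurePreserving_sub_right (volume : Measure R4) (y j)).quasiMeasurePreserving
      have b : Measure.QuasiMeasurePreserving (fun x : R4 => (r j)⁻¹ • x) volume volume := by
        refine ⟨measurable_const_smul _, ?_⟩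
        rw [Measure.map_addHaar_smul volume (inv_ne_zero (hC.pos j).ne')]
        exact Measure.smul_absolutelyContinuous
      exact b.comp a
    exact h5.ae rh_pos_ae
  have key : ∫ x in Ω, ((1 - √(1 - ‖fderiv ℝ (uu U y r) x‖ ^ 2)) + ∑' j, FF U y r v j x) ≤ ∫ x in Ω, (1 - √(1 - ‖fderiv ℝ v x‖ ^ 2)) := by
    apply integral_mono_ae ((hsq _).add h1) (hsq v)
    filter_upwards [ae_restrict_mem hΩ, ae_restrict_of_ae (co_null 3), ae_restrict_of_ae hae] with x hx hx3 hxr
    have := pointwise hB hC hx3 hxr (hv.der x hx)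
    show (1 - √(1 - ‖fderiv ℝ (uu U y r) x‖ ^ 2)) + ∑' j, FF U y r v j x ≤ 1 - √(1 - ‖fderiv ℝ v x‖ ^ 2)
    linarith
  rw [integral_add (hsq _) h1, h3, e1] at key
  linarith

end Pool.Agent.V1180.LS
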