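import Pool.Agent.V1180.LSg

set_option autoImplicit false

/-!
# The concrete configuration of blocks
-/

namespace Pool.Agent.V1180.LS

open Real MeasureTheory Filter Topology Set
open scoped ContDiff

/-- the point `(a, z)` of `ℝ⁴` -/
noncomputable def mk (a : Fin 3 → ℝ) (z : ℝ) : R4 := !₂[a 0, a 1, a 2, z]

theorem mk_three (a : Fin 3 → ℝ) (z : ℝ) : mk a z 3 = z := rfl

theorem co_le (x : R4) (i : Fin 4) : |x i| ≤ ‖x‖ := by
  have := PiLp.norm_apply_le x i
  rwa [Real.norm_eq_abs] at this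

instance : Nonempty (Icc (0 : Fin 3 → ℝ) 1) := ⟨⟨0, by simp⟩⟩

/-- the dense sequence, each term repeated infinitely often -/
noncomputable def da (j : ℕ) : Fin 3 → ℝ := (TopologicalSpace.denseSeq (Icc (0 : Fin 3 → ℝ) 1) (Nat.unpair j).1 : Icc (0 : Fin 3 → ℝ) 1)

theorem da_mem (j : ℕ) : da j ∈ Icc (0 : Fin 3 → ℝ) 1 :=
  (TopologicalSpace.denseSeq (Icc (0 : Fin 3 → ℝ) 1) (Nat.unpair j).1).2

/-- the centres -/
noncomputable def yy (j : ℕ) : R4 := mk (da j) ((1/2) ^ j)

/-- the radii -/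
noncomputable def rr (R₀ : ℝ) (j : ℕ) : ℝ := (1/2) ^ j / (8 * R₀)

theorem yy_three (j : ℕ) : yy j 3 = (1/2) ^ j := rfl

theorem yy_norm (j : ℕ) : ‖yy j‖ ≤ 2 := by
  have h := da_mem j
  have h0 : ∀ i, 0 ≤ da j i ∧ da j i ≤ 1 := fun i => ⟨h.1 i, h.2 i⟩
  have hz : (0:ℝ) ≤ (1/2) ^ j ∧ ((1:ℝ)/2) ^ j ≤ 1 := ⟨by positivity, pow_le_one₀ (by norm_num) (by norm_num)⟩
  rw [EuclideanSpace.norm_eq, Real.sqrt_le_left (by norm_num), Fin.sum_univ_four]
  simp only [Real.norm_eq_abs, sq_abs]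
  have e0 : yy j 0 = da j 0 := rfl
  have e1 : yy j 1 = da j 1 := rfl
  have e2 : yy j 2 = da j 2 := rfl
  rw [e0, e1, e2, yy_three]
  have a0 := h0 0
  have a1 := h0 1
  have a2 := h0 2
  nlinarith [hz.1, hz.2]

theorem rrR {R₀ : ℝ} (h : 1 ≤ R₀) (j : ℕ) : rr R₀ j * R₀ = (1/2) ^ j / 8 := by
  unfold rr
  field_simp

theorem half_lt {j k : ℕ} (h : j < k) : ((1:ℝ)/2) ^ k ≤ (1/2) ^ j / 2 := by
  have : ((1:ℝ)/2) ^ k ≤ (1/2) ^ (j + 1) := pow_le_pow_of_le_one (by norm_num) (by norm_num) h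
  rw [pow_succ] at this
  linarith

theorem conf {R₀ : ℝ} (h : 1 ≤ R₀) : Conf R₀ (Metric.ball (0 : R4) 10) yy (rr R₀) := by
  have hp : ∀ j : ℕ, (0:ℝ) < (1/2) ^ j := fun j => by positivity
  refine ⟨?_, ?_, ?_, ?_, ?_⟩
  · intro j
    unfold rr
    have := hp j
    positivity
  · have key : ∀ j k, j < k → rr R₀ j * R₀ + rr R₀ k * R₀ ≤ ‖yy j - yy k‖ := by
      intro j k hjk
      rw [rrR h, rrR h]
      have h1 := co_le (yy j - yy k) 3
      have h2 : (yy j - yy k) 3 = (1/2) ^ j - (1/2) ^ k := rfl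
      rw [h2] at h1
      have h3 := half_lt hjk
      have h4 := le_abs_self (((1:ℝ)/2) ^ j - (1/2) ^ k)
      linarith [hp j, hp k]
    intro j k hjk
    rcases lt_or_gt_of_ne hjk with hlt | hlt
    · exact key j k hlt
    · have := key k j hlt
      rw [norm_sub_rev] at this
      linarith
  · intro j x hx
    rw [mem_ball_iff_norm, rrR h] at hx
    rw [mem_ball_zero_iff]
    have h1 := yy_norm j
    have h2 : ‖x‖ ≤ ‖x - yy j‖ + ‖yy j‖ := by
      have : x = (x - yy j) + yy j := by abel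
      conv_lhs => rw [this]
      exact norm_add_le _ _
    have hz : ((1:ℝ)/2) ^ j ≤ 1 := pow_le_one₀ (by norm_num) (by norm_num)
    linarith
  · intro x hx
    have hc : Continuous (fun z : R4 => z 3) := by fun_prop
    have hb : ∀ z : R4, ∀ k, z ∈ Metric.ball (yy k) (rr R₀ k * R₀) → 7 / 8 * (1/2) ^ k < z 3 ∧ z 3 < 9 / 8 * (1/2) ^ k := by
      intro z k hz
      rw [mem_ball_iff_norm, rrR h] at hz
      have h1 := co_le (z - yy k) 3
      have h2 : (z - yy k) 3 = z 3 - (1/2) ^ k := rfl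
      rw [h2] at h1
      have h3 := abs_lt.1 (h1.trans_lt hz)
      constructor <;> linarith [h3.1, h3.2]
    rcases lt_or_gt_of_ne hx with hneg | hpos
    · refine ⟨0, ?_⟩
      filter_upwards [hc.continuousAt.eventually_lt continuousAt_const hneg] with z hz k _ hzk
      have := (hb z k hzk).1
      have := hp k
      linarith
    · set N : Set R4 := {z | x 3 * (99/100) < z 3 ∧ z 3 < x 3 * (101/100)} with hN
      have hNx : N ∈ 𝓝 x := by
        have ho : IsOpen N := (isOpen_lt continuous_const hc).inter (isOpen_lt hc continuous_const)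
        apply ho.mem_nhds
        constructor
        · show x 3 * (99/100) < x 3
          linarith
        · show x 3 < x 3 * (101/100)
          linarith
      have huni : ∀ z ∈ N, ∀ z' ∈ N, ∀ k k', k < k' → z ∈ Metric.ball (yy k) (rr R₀ k * R₀) →
          z' ∈ Metric.ball (yy k') (rr R₀ k' * R₀) → False := by
        intro z hz z' hz' k k' hkk h1 h2
        have a1 := hb z k h1
        have a2 := hb z' k' h2
        have a3 := half_lt hkk
        have b1 : x 3 * (99/100) < z 3 := hz.1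
        have b2 : z 3 < x 3 * (101/100) := hz.2
        have b3 : x 3 * (99/100) < z' 3 := hz'.1
        have b4 : z' 3 < x 3 * (101/100) := hz'.2
        linarith [a1.1, a1.2, a2.1, a2.2]
      by_cases hex : ∃ k, ∃ z ∈ N, z ∈ Metric.ball (yy k) (rr R₀ k * R₀)
      · obtain ⟨j, z₀, hz₀, hj⟩ := hex
        refine ⟨j, ?_⟩
        filter_upwards [hNx] with z hz k hk hzk
        rcases lt_or_gt_of_ne hk with hlt | hlt
        · exact huni z hz z₀ hz₀ k j hlt hzk hj
        · exact huni z₀ hz₀ z hz j k hlt hj hzk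
      · push Not at hex
        refine ⟨0, ?_⟩
        filter_upwards [hNx] with z hz k _ hzk
        exact hex k z hz hzk
  · intro j
    unfold rr
    rw [div_le_iff₀ (by positivity)]
    have := hp j
    nlinarith

/-- every point of the closed cube is a limit of centres -/
theorem limit {a : Fin 3 → ℝ} (ha : a ∈ Icc (0 : Fin 3 → ℝ) 1) : mk a 0 ∈ closure (range yy) := by
  rw [Metric.mem_closure_iff]
  intro ε hε
  obtain ⟨_, ⟨n, rfl⟩, hn⟩ := Metric.mem_closure_iff.1 (TopologicalSpace.denseRange_denseSeq (Icc (0 : Fin 3 → ℝ) 1) ⟨a, ha⟩) (ε / 4) (by positivity)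
  obtain ⟨k, hk⟩ := exists_pow_lt_of_lt_one (show 0 < ε / 4 by positivity) (show (1:ℝ)/2 < 1 by norm_num)
  refine ⟨yy (Nat.pair n k), ⟨_, rfl⟩, ?_⟩
  set b : Fin 3 → ℝ := Subtype.val (TopologicalSpace.denseSeq (Icc (0 : Fin 3 → ℝ) 1) n) with hb
  have hab : ‖a - b‖ < ε / 4 := by
    have : dist a b < ε / 4 := hn
    rwa [dist_eq_norm] at this
  have hy : yy (Nat.pair n k) = mk b ((1/2) ^ Nat.pair n k) := by
    unfold yy da
    rw [Nat.unpair_pair]
  have hz : ((1:ℝ)/2) ^ Nat.pair n k < ε / 4 :=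
    (pow_le_pow_of_le_one (by norm_num) (by norm_num) (Nat.right_le_pair n k)).trans_lt hk
  have hz0 : (0:ℝ) ≤ (1/2) ^ Nat.pair n k := by positivity
  rw [hy, dist_eq_norm, EuclideanSpace.norm_eq, Real.sqrt_lt' hε, Fin.sum_univ_four]
  simp only [Real.norm_eq_abs, sq_abs]
  have e0 : (mk a 0 - mk b ((1/2) ^ Nat.pair n k)) 0 = (a - b) 0 := rfl
  have e1 : (mk a 0 - mk b ((1/2) ^ Nat.pair n k)) 1 = (a - b) 1 := rfl
  have e2 : (mk a 0 - mk b ((1/2) ^ Nat.pair n k)) 2 = (a - b) 2 := rfl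
  have e3 : (mk a 0 - mk b ((1/2) ^ Nat.pair n k)) 3 = 0 - (1/2) ^ Nat.pair n k := rfl
  rw [e0, e1, e2, e3]
  have hi : ∀ i, (a - b) i ^ 2 < (ε / 4) ^ 2 := by
    intro i
    rw [← sq_abs]
    have := norm_le_pi_norm (a - b) i
    rw [Real.norm_eq_abs] at this
    have h0 := abs_nonneg ((a - b) i)
    nlinarith
  have := hi 0
  have := hi 1
  have := hi 2
  nlinarith

/-- the projection to the first three coordinates -/
def pr3 (x : R4) : Fin 3 → ℝ := fun i => x (Fin.castSucc i)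

theorem pr3_lip : LipschitzWith 1 pr3 := by
  apply LipschitzWith.of_dist_le_mul
  intro x y
  rw [NNReal.coe_one, one_mul, dist_pi_le_iff dist_nonneg]
  intro i
  rw [Real.dist_eq, dist_eq_norm]
  exact co_le (x - y) (Fin.castSucc i)

theorem pr3_mk (a : Fin 3 → ℝ) (z : ℝ) : pr3 (mk a z) = a := by
  ext i
  fin_cases i <;> rfl

/-- a closed set containing the centres has large three-dimensional measure -/
theorem hausdorff_ge {K : Set R4} (hK : IsClosed K) (hy : ∀ j, yy j ∈ K) : 1 ≤ Measure.hausdorffMeasure (3:ℝ) K := by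
  have h1 : Icc (0 : Fin 3 → ℝ) 1 ⊆ pr3 '' K := by
    intro a ha
    refine ⟨mk a 0, ?_, pr3_mk a 0⟩
    have := limit ha
    exact (closure_minimal (by rintro _ ⟨j, rfl⟩; exact hy j) hK) this
  have h2 := pr3_lip.hausdorffMeasure_image_le (d := 3) (by norm_num) K
  have h3 : Measure.hausdorffMeasure (3:ℝ) (Icc (0 : Fin 3 → ℝ) 1) = 1 := by
    have : (3:ℝ) = (Fintype.card (Fin 3) : ℝ) := by simp
    rw [this, hausdorffMeasure_pi_real, Real.volume_Icc_pi]
    simp
  calc (1 : ENNReal) = Measure.hausdorffMeasure (3:ℝ) (Icc (0 : Fin 3 → ℝ) 1) := h3.symm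
    _ ≤ Measure.hausdorffMeasure (3:ℝ) (pr3 '' K) := measure_mono h1
    _ ≤ _ := h2
    _ = _ := by simp

end Pool.Agent.V1180.LS
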