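import Mathlib

set_option autoImplicit false

/-! Helper lemmas on the Laplacian. -/

open Set Filter Topology InnerProductSpace Laplacian
open scoped ContDiff

namespace Pool.Agent.V1180

variable {E : Type*} [NormedAddCommGroup E] [InnerProductSpace ℝ E] [FiniteDimensional ℝ E]
variable {F : Type*} [NormedAddCommGroup F] [NormedSpace ℝ F]

omit [FiniteDimensional ℝ E] in
theorem fderiv_fderiv_apply {f : E → F} {x : E} (hf : ContDiffAt ℝ 2 f x) (v w : E) :
    fderiv ℝ (fun y => fderiv ℝ f y w) x v = fderiv ℝ (fderiv ℝ f) x v w := by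
  have h : DifferentiableAt ℝ (fderiv ℝ f) x := by
    have := hf.fderiv_right (m := 1) (by norm_num)
    exact this.differentiableAt (by norm_num)
  rw [fderiv_clm_apply h (differentiableAt_const w)]
  simp

theorem lap_eq_sum {ι : Type*} [Fintype ι] (v : OrthonormalBasis ι ℝ E) {f : E → F} {x : E}
    (hf : ContDiffAt ℝ 2 f x) :
    Δ f x = ∑ i, fderiv ℝ (fun y => fderiv ℝ f y (v i)) x (v i) := by
  rw [laplacian_eq_iteratedFDeriv_orthonormalBasis f v]
  refine Finset.sum_congr rfl fun i _ => ?_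
  rw [iteratedFDeriv_two_apply, fderiv_fderiv_apply hf]
  simp

/-- Laplacian of a plane wave. -/
theorem lap_comp_inner {g : ℝ → ℝ} (a : E) (b : ℝ) (hg : ContDiff ℝ 2 g) (x : E) :
    Δ (fun y => g (inner ℝ a y + b)) x = ‖a‖ ^ 2 * deriv (deriv g) (inner ℝ a x + b) := by
  have hin : ∀ y : E, HasFDerivAt (fun y : E => inner ℝ a y + b) (innerSL ℝ a) y := by
    intro y
    exact ((innerSL ℝ a).hasFDerivAt (x := y)).add_const b
  have hc : ContDiff ℝ 2 (fun y : E => inner ℝ a y + b) :=
    (contDiff_const.inner ℝ contDiff_id).add contDiff_const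
  have hf : ContDiff ℝ 2 (fun y => g (inner ℝ a y + b)) := hg.comp hc
  rw [lap_eq_sum (stdOrthonormalBasis ℝ E) hf.contDiffAt]
  have h1 : ∀ w : E, (fun y => fderiv ℝ (fun y => g (inner ℝ a y + b)) y w) =
      fun y => deriv g (inner ℝ a y + b) * inner ℝ a w := by
    intro w
    ext y
    have hd : HasDerivAt g (deriv g (inner ℝ a y + b)) (inner ℝ a y + b) :=
      (hg.differentiable (by norm_num) _).hasDerivAt
    have := hd.comp_hasFDerivAt y (hin y)
    rw [show (fun y => g (inner ℝ a y + b)) = g ∘ (fun y : E => inner ℝ a y + b) from rfl,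
      this.fderiv]
    simp
  have h2 : ∀ w : E, fderiv ℝ (fun y => deriv g (inner ℝ a y + b) * inner ℝ a w) x w =
      deriv (deriv g) (inner ℝ a x + b) * (inner ℝ a w * inner ℝ a w) := by
    intro w
    have hg' : Differentiable ℝ (deriv g) :=
      (hg.iterate_deriv' 1 1).differentiable (by norm_num)
    have hd : HasDerivAt (deriv g) (deriv (deriv g) (inner ℝ a x + b)) (inner ℝ a x + b) :=
      (hg' _).hasDerivAt
    have := (hd.comp_hasFDerivAt x (hin x)).mul_const (inner ℝ a w)
    rw [show (fun y => deriv g (inner ℝ a y + b) * inner ℝ a w) =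
      fun y => (deriv g ∘ (fun y : E => inner ℝ a y + b)) y * inner ℝ a w from rfl, this.fderiv]
    simp
    ring
  simp_rw [h1, h2]
  rw [← Finset.mul_sum, mul_comm]
  congr 1
  have := (stdOrthonormalBasis ℝ E).sum_inner_mul_inner a a
  rw [← real_inner_self_eq_norm_sq, ← this]
  refine Finset.sum_congr rfl fun i _ => ?_
  rw [real_inner_comm a]

/-- second derivative along a line is nonpositive at a local maximum -/
theorem fderiv2_nonpos_of_isLocalMax {f : E → ℝ} {x : E} (hf : ContDiffAt ℝ 2 f x)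
    (hx : IsLocalMax f x) (v : E) : fderiv ℝ (fun y => fderiv ℝ f y v) x v ≤ 0 := by
  by_contra hcon
  push Not at hcon
  set g : ℝ → ℝ := fun t => f (x + t • v) with hg
  have hline : ∀ t : ℝ, HasDerivAt (fun t : ℝ => x + t • v) v t := by
    intro t
    simpa using ((hasDerivAt_id t).smul_const v).const_add x
  have hx0 : x + (0:ℝ) • v = x := by simp
  have hcont : ContinuousAt (fun t : ℝ => x + t • v) 0 := (hline 0).continuousAt
  have hd1 : ∀ᶠ t in 𝓝 (0:ℝ), HasDerivAt g (fderiv ℝ f (x + t • v) v) t := by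
    have h1 : ∀ᶠ y in 𝓝 x, ContDiffAt ℝ 2 f y := hf.eventually (by simp)
    have h2 : ∀ᶠ t in 𝓝 (0:ℝ), ContDiffAt ℝ 2 f (x + t • v) := by
      have h3 : Tendsto (fun t : ℝ => x + t • v) (𝓝 0) (𝓝 x) := by
        have := hcont.tendsto
        rwa [hx0] at this
      exact h3.eventually h1
    filter_upwards [h2] with t ht
    exact (ht.differentiableAt (by norm_num)).hasFDerivAt.comp_hasDerivAt t (hline t)
  have hd2 : HasDerivAt (fun t : ℝ => fderiv ℝ f (x + t • v) v)
      (fderiv ℝ (fun y => fderiv ℝ f y v) x v) 0 := by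
    have hdiff : DifferentiableAt ℝ (fun y => fderiv ℝ f y v) x := by
      have h1 := hf.fderiv_right (m := 1) (by norm_num)
      have h2 : ContDiffAt ℝ 1 (fun y => fderiv ℝ f y v) x := h1.clm_apply contDiffAt_const
      exact h2.differentiableAt (by norm_num)
    have h3 := hdiff.hasFDerivAt
    rw [← hx0] at h3
    have h4 := h3.comp_hasDerivAt (0:ℝ) (hline 0)
    rw [hx0] at h4
    exact h4
  have hderiv : deriv g =ᶠ[𝓝 0] fun t : ℝ => fderiv ℝ f (x + t • v) v := by
    filter_upwards [hd1] with t ht using ht.deriv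
  have hdd : deriv (deriv g) 0 = fderiv ℝ (fun y => fderiv ℝ f y v) x v := by
    rw [hderiv.deriv_eq, hd2.deriv]
  have hgmax : IsLocalMax g 0 := by
    have : Tendsto (fun t : ℝ => x + t • v) (𝓝 0) (𝓝 x) := by
      have := hcont.tendsto
      rwa [hx0] at this
    have h5 := this.eventually hx
    filter_upwards [h5] with t ht
    simpa [hg, hx0] using ht
  have hg0 : deriv g 0 = 0 := hgmax.deriv_eq_zero
  have hgc : ContinuousAt g 0 := hd1.self_of_nhds.continuousAt
  have hmin : IsLocalMin g 0 := isLocalMin_of_deriv_deriv_pos (by rw [hdd]; exact hcon) hg0 hgc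
  have hconst : g =ᶠ[𝓝 0] fun _ => g 0 := by
    filter_upwards [hgmax, hmin] with t h1 h2
    exact le_antisymm h1 h2
  have h6 : deriv (deriv g) 0 = 0 := by
    have h7 : deriv g =ᶠ[𝓝 0] deriv (fun _ => g 0) := hconst.deriv
    rw [h7.deriv_eq]
    simp
  rw [hdd] at h6
  linarith

theorem lap_nonpos_of_isLocalMax {f : E → ℝ} {x : E} (hf : ContDiffAt ℝ 2 f x)
    (hx : IsLocalMax f x) : Δ f x ≤ 0 := by
  rw [lap_eq_sum (stdOrthonormalBasis ℝ E) hf]
  exact Finset.sum_nonpos fun i _ => fderiv2_nonpos_of_isLocalMax hf hx _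

end Pool.Agent.V1180
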