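import Mathlib

/-!
# Pointwise inequalities for the `p`-Laplace vector field
-/

namespace Pool.Agent.V1180.MS

open Filter Topology Set Metric
open scoped InnerProductSpace

variable {H : Type*} [NormedAddCommGroup H] [InnerProductSpace ℝ H]

/-- the vector field `|b|^(p-2) b` -/
noncomputable def pA (p : ℝ) (b : H) : H := ‖b‖ ^ (p - 2) • b

theorem pA_norm {p : ℝ} (hp : 1 < p) (b : H) : ‖pA p b‖ = ‖b‖ ^ (p - 1) := by
  unfold pA
  rcases eq_or_ne b 0 with hb | hb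
  · rw [hb, smul_zero, norm_zero, Real.zero_rpow (by linarith)]
  · have hb' : 0 < ‖b‖ := norm_pos_iff.2 hb
    rw [norm_smul, Real.norm_of_nonneg (Real.rpow_nonneg (norm_nonneg _) _)]
    nth_rewrite 2 [← Real.rpow_one ‖b‖]
    rw [← Real.rpow_add hb']
    congr 1
    ring

theorem pA_self {p : ℝ} (hp : 1 < p) (b : H) : ⟪pA p b, b⟫_ℝ = ‖b‖ ^ p := by
  unfold pA
  rcases eq_or_ne b 0 with hb | hb
  · rw [hb, inner_zero_right, norm_zero, Real.zero_rpow (by linarith)]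
  · have hb' : 0 < ‖b‖ := norm_pos_iff.2 hb
    rw [inner_smul_left, real_inner_self_eq_norm_sq, ← Real.rpow_natCast, conj_trivial,
      ← Real.rpow_add hb']
    congr 1
    push_cast
    ring

theorem young {p : ℝ} (hp : 1 < p) {x y : ℝ} (hx : 0 ≤ x) (hy : 0 ≤ y) :
    p * (y ^ (p - 1) * x) ≤ x ^ p + (p - 1) * y ^ p := by
  have hpq : p.HolderConjugate (p / (p - 1)) := Real.HolderConjugate.conjExponent hp
  have h1 := Real.young_inequality_of_nonneg hx (Real.rpow_nonneg hy (p - 1)) hpq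
  have h2 : (y ^ (p - 1)) ^ (p / (p - 1)) = y ^ p := by
    rw [← Real.rpow_mul hy]
    congr 1
    field_simp [show p - 1 ≠ 0 by linarith]
  rw [h2] at h1
  have hp0 : 0 < p := by linarith
  have h3 : p * (x * y ^ (p - 1)) ≤ p * (x ^ p / p + y ^ p / (p / (p - 1))) :=
    mul_le_mul_of_nonneg_left h1 hp0.le
  have h4 : p * (x ^ p / p + y ^ p / (p / (p - 1))) = x ^ p + (p - 1) * y ^ p := by
    field_simp [show p - 1 ≠ 0 by linarith]
  rw [h4] at h3
  linarith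

theorem pA_convex {p : ℝ} (hp : 1 < p) (a b : H) :
    ‖b‖ ^ p + p * ⟪pA p b, a - b⟫_ℝ ≤ ‖a‖ ^ p := by
  rw [inner_sub_right, pA_self hp]
  have h1 : ⟪pA p b, a⟫_ℝ ≤ ‖b‖ ^ (p - 1) * ‖a‖ := by
    rw [← pA_norm hp]
    exact real_inner_le_norm _ _
  have h2 := young hp (norm_nonneg a) (norm_nonneg b)
  have hp0 : 0 < p := by linarith
  nlinarith

theorem pA_mono {p : ℝ} (hp : 1 < p) (a b : H) : 0 ≤ ⟪pA p a - pA p b, a - b⟫_ℝ := by
  have h1 := pA_convex hp a b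
  have h2 := pA_convex hp b a
  have e : ⟪pA p a - pA p b, a - b⟫_ℝ = -⟪pA p a, b - a⟫_ℝ - ⟪pA p b, a - b⟫_ℝ := by
    rw [inner_sub_left, ← neg_sub a b, inner_neg_right, neg_neg]
  rw [e]
  have hp0 : 0 < p := by linarith
  nlinarith

theorem pA_strict {p : ℝ} (hp : 1 < p) {a b : H} (h : ⟪pA p a - pA p b, a - b⟫_ℝ = 0) : a = b := by
  rw [inner_sub_left, inner_sub_right, inner_sub_right, pA_self hp, pA_self hp] at h
  have h1 : ⟪pA p a, b⟫_ℝ ≤ ‖a‖ ^ (p - 1) * ‖b‖ := by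
    rw [← pA_norm hp]
    exact real_inner_le_norm _ _
  have h2 : ⟪pA p b, a⟫_ℝ ≤ ‖b‖ ^ (p - 1) * ‖a‖ := by
    rw [← pA_norm hp]
    exact real_inner_le_norm _ _
  have e : ∀ c : H, ‖c‖ ^ p = ‖c‖ ^ (p - 1) * ‖c‖ := by
    intro c
    rcases eq_or_ne c 0 with hc | hc
    · rw [hc, norm_zero, mul_zero, Real.zero_rpow (by linarith)]
    · have hc' : 0 < ‖c‖ := norm_pos_iff.2 hc
      nth_rewrite 3 [← Real.rpow_one ‖c‖]
      rw [← Real.rpow_add hc']
      congr 1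
      ring
  have h3 : (‖a‖ ^ (p - 1) - ‖b‖ ^ (p - 1)) * (‖a‖ - ‖b‖) ≤ 0 := by
    have ea := e a
    have eb := e b
    nlinarith
  have hab : ‖a‖ = ‖b‖ := by
    rcases lt_trichotomy ‖a‖ ‖b‖ with h4 | h4 | h4
    · have := Real.rpow_lt_rpow (norm_nonneg a) h4 (by linarith : 0 < p - 1)
      nlinarith
    · exact h4
    · have := Real.rpow_lt_rpow (norm_nonneg b) h4 (by linarith : 0 < p - 1)
      nlinarith
  rcases eq_or_ne b 0 with hb | hb
  · rw [hb, norm_zero] at hab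
    rw [hb, norm_eq_zero.1 hab]
  · have hb' : 0 < ‖b‖ := norm_pos_iff.2 hb
    have hpos : 0 < ‖b‖ ^ (p - 2) := Real.rpow_pos_of_pos hb' _
    have h5 : ⟪pA p a, b⟫_ℝ = ‖b‖ ^ (p - 2) * ⟪a, b⟫_ℝ := by
      unfold pA
      rw [inner_smul_left, hab, conj_trivial]
    have h6 : ⟪pA p b, a⟫_ℝ = ‖b‖ ^ (p - 2) * ⟪a, b⟫_ℝ := by
      unfold pA
      rw [inner_smul_left, conj_trivial, real_inner_comm]
    rw [h5, h6, hab] at h
    have h7 : ‖b‖ ^ p = ‖b‖ ^ (p - 2) * ‖b‖ ^ 2 := by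
      rw [← Real.rpow_natCast ‖b‖ 2, ← Real.rpow_add hb']
      congr 1
      push_cast
      ring
    rw [h7] at h
    have h8 : ‖b‖ ^ (p - 2) * (‖b‖ ^ 2 - ⟪a, b⟫_ℝ) = 0 := by linarith
    rcases mul_eq_zero.1 h8 with h9 | h9
    · exact absurd h9 hpos.ne'
    · have h10 : ‖a - b‖ ^ 2 = 0 := by
        rw [norm_sub_sq_real, hab]
        linarith
      have h11 : ‖a - b‖ = 0 := by
        exact pow_eq_zero_iff (two_ne_zero) |>.1 h10
      exact sub_eq_zero.1 (norm_eq_zero.1 h11)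

theorem pA_cont {p : ℝ} (hp : 1 < p) : Continuous (pA p : H → H) := by
  rw [continuous_iff_continuousAt]
  intro b
  rcases eq_or_ne b 0 with hb | hb
  · subst hb
    have h0 : pA p (0 : H) = 0 := by
      unfold pA
      rw [smul_zero]
    rw [ContinuousAt, h0, tendsto_zero_iff_norm_tendsto_zero]
    simp only [pA_norm hp]
    have h1 : ContinuousAt (fun x : H => ‖x‖ ^ (p - 1)) 0 :=
      (continuous_norm.continuousAt).rpow_const (Or.inr (by linarith))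
    have h2 := h1.tendsto
    simp only [norm_zero] at h2
    rwa [Real.zero_rpow (by linarith)] at h2
  · unfold pA
    exact ((continuous_norm.continuousAt).rpow_const (Or.inl (norm_ne_zero_iff.2 hb))).smul
      continuousAt_id

/-- convexity defect -/
noncomputable def hd (p : ℝ) (a b : H) : ℝ :=
  (‖a‖ ^ p + ‖b‖ ^ p) / 2 - ‖(2⁻¹ : ℝ) • (a + b)‖ ^ p

theorem hd_pos {p : ℝ} (hp : 1 < p) {a b : H} (hab : a ≠ b) : 0 < hd p a b := by
  unfold hd
  have hnn : ‖(2⁻¹ : ℝ) • (a + b)‖ ≤ (‖a‖ + ‖b‖) / 2 := by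
    rw [norm_smul, Real.norm_of_nonneg (by norm_num : (0 : ℝ) ≤ 2⁻¹)]
    have := norm_add_le a b
    linarith
  rcases eq_or_ne ‖a‖ ‖b‖ with hn | hn
  · have hlt : ‖(2⁻¹ : ℝ) • (a + b)‖ < ‖b‖ := by
      have h1 : ‖a + b‖ ^ 2 = 2 * ‖a‖ ^ 2 + 2 * ‖b‖ ^ 2 - ‖a - b‖ ^ 2 := by
        have := parallelogram_law_with_norm ℝ a b
        nlinarith
      have h2 : 0 < ‖a - b‖ := norm_pos_iff.2 (sub_ne_zero.2 hab)
      rw [norm_smul, Real.norm_of_nonneg (by norm_num : (0 : ℝ) ≤ 2⁻¹)]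
      rw [hn] at h1
      have h3 : (2⁻¹ * ‖a + b‖) ^ 2 < ‖b‖ ^ 2 := by nlinarith
      exact lt_of_pow_lt_pow_left₀ 2 (norm_nonneg _) h3
    have := Real.rpow_lt_rpow (norm_nonneg _) hlt (by linarith : 0 < p)
    rw [hn]
    linarith
  · have h1 := (strictConvexOn_rpow hp).2 (norm_nonneg a) (norm_nonneg b) hn
      (by norm_num : (0 : ℝ) < 1 / 2) (by norm_num : (0 : ℝ) < 1 / 2) (by norm_num)
    simp only [smul_eq_mul] at h1
    have h2 : ‖(2⁻¹ : ℝ) • (a + b)‖ ^ p ≤ (1 / 2 * ‖a‖ + 1 / 2 * ‖b‖) ^ p := by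
      refine Real.rpow_le_rpow (norm_nonneg _) ?_ (by linarith)
      linarith
    linarith

theorem hd_nonneg {p : ℝ} (hp : 1 < p) (a b : H) : 0 ≤ hd p a b := by
  rcases eq_or_ne a b with hab | hab
  · rw [hab]
    unfold hd
    have : (2⁻¹ : ℝ) • (b + b) = b := by
      rw [← two_smul ℝ b, smul_smul]
      norm_num
    rw [this]
    linarith
  · exact (hd_pos hp hab).le

theorem hd_smul {p : ℝ} {c : ℝ} (hc : 0 ≤ c) (a b : H) :
    hd p (c • a) (c • b) = c ^ p * hd p a b := by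
  unfold hd
  have e : (2⁻¹ : ℝ) • (c • a + c • b) = c • ((2⁻¹ : ℝ) • (a + b)) := by
    rw [← smul_add, smul_comm]
  rw [e, norm_smul, norm_smul, norm_smul c, Real.norm_of_nonneg hc,
    Real.mul_rpow hc (norm_nonneg _), Real.mul_rpow hc (norm_nonneg _),
    Real.mul_rpow hc (norm_nonneg _)]
  ring

theorem hd_cont {p : ℝ} (hp : 1 < p) : Continuous fun z : H × H => hd p z.1 z.2 := by
  unfold hd
  have hp0 : 0 ≤ p := by linarith
  have h1 : Continuous fun z : H × H => ‖z.1‖ ^ p :=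
    (continuous_fst.norm).rpow_const fun _ => Or.inr hp0
  have h2 : Continuous fun z : H × H => ‖z.2‖ ^ p :=
    (continuous_snd.norm).rpow_const fun _ => Or.inr hp0
  have h3 : Continuous fun z : H × H => ‖(2⁻¹ : ℝ) • (z.1 + z.2)‖ ^ p :=
    (((continuous_fst.add continuous_snd).const_smul (2⁻¹ : ℝ)).norm).rpow_const
      fun _ => Or.inr hp0
  exact ((h1.add h2).div_const 2).sub h3

/-- Uniform convexity. -/
theorem unif [FiniteDimensional ℝ H] {p : ℝ} (hp : 1 < p) {ε : ℝ} (hε : 0 < ε) :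
    ∃ C : ℝ, 0 ≤ C ∧ ∀ a b : H, ‖a - b‖ ^ p ≤ ε * (‖a‖ ^ p + ‖b‖ ^ p) + C * hd p a b := by
  have hp0 : 0 < p := by linarith
  set ε₁ : ℝ := ε ^ (1 / p) with hε₁
  have hε₁0 : 0 < ε₁ := Real.rpow_pos_of_pos hε _
  have hε₁p : ε₁ ^ p = ε := by
    rw [hε₁, ← Real.rpow_mul hε.le]
    rw [one_div, inv_mul_cancel₀ hp0.ne', Real.rpow_one]
  set K : Set (H × H) := sphere 0 1 ∩ {z | ε₁ ≤ ‖z.1 - z.2‖} with hK
  have hKc : IsCompact K := (isCompact_sphere _ _).inter_right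
    (isClosed_le continuous_const (by fun_prop))
  obtain ⟨δ, hδ, hδK⟩ : ∃ δ : ℝ, 0 < δ ∧ ∀ z ∈ K, δ ≤ hd p z.1 z.2 := by
    rcases K.eq_empty_or_nonempty with hKe | hKn
    · exact ⟨1, one_pos, fun z hz => by rw [hKe] at hz; exact absurd hz (notMem_empty z)⟩
    · obtain ⟨z₀, hz₀, hmin⟩ := hKc.exists_isMinOn hKn (hd_cont hp).continuousOn
      refine ⟨hd p z₀.1 z₀.2, hd_pos hp ?_, fun z hz => hmin hz⟩
      intro heq
      have h1 : ε₁ ≤ ‖z₀.1 - z₀.2‖ := hz₀.2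
      rw [heq, sub_self, norm_zero] at h1
      linarith
  refine ⟨2 ^ p / δ, by positivity, fun a b => ?_⟩
  set m : ℝ := ‖((a, b) : H × H)‖ with hm
  have hma : ‖a‖ ≤ m := norm_fst_le (a, b)
  have hmb : ‖b‖ ≤ m := norm_snd_le (a, b)
  have hm0 : 0 ≤ m := norm_nonneg _
  have hmp : m ^ p ≤ ‖a‖ ^ p + ‖b‖ ^ p := by
    have h1 : m = max ‖a‖ ‖b‖ := rfl
    rw [h1]
    rcases max_cases ‖a‖ ‖b‖ with ⟨h2, _⟩ | ⟨h2, _⟩
    · rw [h2]
      have := Real.rpow_nonneg (norm_nonneg b) p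
      linarith
    · rw [h2]
      have := Real.rpow_nonneg (norm_nonneg a) p
      linarith
  have hdn := hd_nonneg hp a b
  rcases lt_or_ge ‖a - b‖ (ε₁ * m) with h1 | h1
  · have h2 : ‖a - b‖ ^ p ≤ (ε₁ * m) ^ p := Real.rpow_le_rpow (norm_nonneg _) h1.le hp0.le
    rw [Real.mul_rpow hε₁0.le hm0, hε₁p] at h2
    have h3 : 0 ≤ 2 ^ p / δ * hd p a b := mul_nonneg (by positivity) hdn
    nlinarith
  · rcases eq_or_lt_of_le hm0 with hm0' | hm0'
    · have ha : ‖a‖ = 0 := le_antisymm (hma.trans hm0'.symm.le) (norm_nonneg _)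
      have hb : ‖b‖ = 0 := le_antisymm (hmb.trans hm0'.symm.le) (norm_nonneg _)
      rw [norm_eq_zero.1 ha, norm_eq_zero.1 hb, sub_zero, norm_zero, Real.zero_rpow hp0.ne']
      have h3 : 0 ≤ 2 ^ p / δ * hd p (0 : H) 0 := mul_nonneg (by positivity) (hd_nonneg hp 0 0)
      linarith
    · have hin : ((m⁻¹ • a, m⁻¹ • b) : H × H) ∈ K := by
        constructor
        · rw [mem_sphere_zero_iff_norm]
          have : ((m⁻¹ • a, m⁻¹ • b) : H × H) = m⁻¹ • ((a, b) : H × H) := rfl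
          rw [this, norm_smul, Real.norm_of_nonneg (by positivity), ← hm,
            inv_mul_cancel₀ hm0'.ne']
        · change ε₁ ≤ ‖m⁻¹ • a - m⁻¹ • b‖
          rw [← smul_sub, norm_smul, Real.norm_of_nonneg (by positivity), inv_mul_eq_div,
            le_div_iff₀ hm0']
          exact h1
      have h2 := hδK _ hin
      simp only at h2
      rw [hd_smul (by positivity), Real.inv_rpow hm0, inv_mul_eq_div,
        le_div_iff₀ (by positivity)] at h2
      have h3 : ‖a - b‖ ≤ 2 * m := (norm_sub_le _ _).trans (by linarith)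
      have h4 : ‖a - b‖ ^ p ≤ (2 * m) ^ p := Real.rpow_le_rpow (norm_nonneg _) h3 hp0.le
      rw [Real.mul_rpow (by norm_num) hm0] at h4
      have h5 : (2 : ℝ) ^ p * m ^ p ≤ 2 ^ p / δ * hd p a b := by
        rw [div_mul_eq_mul_div, le_div_iff₀ hδ]
        have : 0 < (2 : ℝ) ^ p := by positivity
        nlinarith
      have h6 : 0 ≤ ε * (‖a‖ ^ p + ‖b‖ ^ p) := by positivity
      linarith

end Pool.Agent.V1180.MS
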