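import Pool.Agent.V1180.MSa

/-!
# Test functions and the Poincaré inequality
-/

namespace Pool.Agent.V1180.MS

open MeasureTheory Filter Topology Set Metric
open scoped InnerProductSpace ContDiff

/-- Euclidean space -/
abbrev E (N : ℕ) : Type := EuclideanSpace ℝ (Fin N)

variable {N : ℕ}

/-- test functions, `C_c^∞(Ω)` -/
structure IsTest (Ω : Set (E N)) (φ : E N → ℝ) : Prop where
  smooth : ContDiff ℝ ∞ φ
  cpt : HasCompactSupport φ
  sub : tsupport φ ⊆ Ω

theorem grad_norm (φ : E N → ℝ) (x : E N) : ‖gradient φ x‖ = ‖fderiv ℝ φ x‖ := by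
  unfold gradient
  exact LinearIsometryEquiv.norm_map _ _

namespace IsTest

variable {Ω : Set (E N)} {φ : E N → ℝ}

theorem zero : IsTest Ω (fun _ : E N => (0 : ℝ)) where
  smooth := contDiff_const
  cpt := HasCompactSupport.zero
  sub := by
    have : tsupport (fun _ : E N => (0 : ℝ)) = ∅ := by
      rw [tsupport_eq_empty_iff]
      rfl
    rw [this]
    exact empty_subset _

theorem add {ψ : E N → ℝ} (h : IsTest Ω φ) (h' : IsTest Ω ψ) : IsTest Ω (fun x => φ x + ψ x) where
  smooth := h.smooth.add h'.smooth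
  cpt := h.cpt.add h'.cpt
  sub := (tsupport_add φ ψ).trans (union_subset h.sub h'.sub)

theorem smul (c : ℝ) (h : IsTest Ω φ) : IsTest Ω (fun x => c * φ x) where
  smooth := contDiff_const.mul h.smooth
  cpt := h.cpt.mul_left
  sub := (closure_mono (Function.support_mul_subset_right _ _)).trans h.sub

theorem diff (h : IsTest Ω φ) : Differentiable ℝ φ := h.smooth.differentiable (by simp)

theorem grad_cont (h : IsTest Ω φ) : Continuous (gradient φ) := by
  unfold gradient
  exact (LinearIsometryEquiv.continuous _).comp (h.smooth.continuous_fderiv (by simp))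

theorem grad_cpt (h : IsTest Ω φ) : HasCompactSupport (gradient φ) := by
  unfold gradient
  exact (h.cpt.fderiv ℝ).comp_left (map_zero _)

theorem grad_add {ψ : E N → ℝ} (h : IsTest Ω φ) (h' : IsTest Ω ψ) (x : E N) :
    gradient (fun y => φ y + ψ y) x = gradient φ x + gradient ψ x := by
  unfold gradient
  rw [fderiv_fun_add (h.diff x) (h'.diff x), map_add]

theorem grad_smul (c : ℝ) (h : IsTest Ω φ) (x : E N) :
    gradient (fun y => c * φ y) x = c • gradient φ x := by
  unfold gradient
  rw [fderiv_const_mul (h.diff x), map_smul]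

/-- Poincaré's inequality. -/
theorem poincare (h : IsTest Ω φ) (hN : 0 < N) {R : ℝ} (hR : 0 ≤ R) (hΩ : Ω ⊆ ball 0 R) {p : ℝ}
    (hp : 1 < p) : ∫ x, ‖φ x‖ ^ p ≤ (p * R) ^ p * ∫ x, ‖gradient φ x‖ ^ p := by
  have hp0 : 0 < p := by linarith
  set i₀ : Fin N := ⟨0, hN⟩ with hi₀
  set e : E N := EuclideanSpace.single i₀ (1 : ℝ) with he
  have hen : ‖e‖ = 1 := by
    rw [he]
    simp
  set L : E N →L[ℝ] ℝ := EuclideanSpace.proj i₀ with hL
  have hLe : L e = 1 := by
    rw [hL, he]
    simp
  set g : E N → ℝ := fun x => ‖φ x‖ ^ p with hg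
  have hgC : ContDiff ℝ 1 g := by
    have h1 : ContDiff ℝ 1 fun y : ℝ => ‖y‖ ^ p := contDiff_norm_rpow hp
    exact h1.comp (h.smooth.of_le (by simp))
  have hgs : HasCompactSupport g := by
    exact h.cpt.comp_left (g := fun y : ℝ => ‖y‖ ^ p)
      (by simp only [norm_zero]; exact Real.zero_rpow hp0.ne')
  have hgsub : tsupport g ⊆ tsupport φ := by
    refine closure_mono fun x hx => ?_
    rw [Function.mem_support] at hx ⊢
    intro h0
    apply hx
    rw [hg]
    simp only [h0, norm_zero]
    exact Real.zero_rpow hp0.ne'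
  have hgd : ∀ x, fderiv ℝ g x e = p * (‖φ x‖ ^ (p - 2) * φ x) * fderiv ℝ φ x e := by
    intro x
    rw [hg, h.diff.fderiv_norm_rpow hp]
    simp only [_root_.smul_apply, ContinuousLinearMap.comp_apply, smul_eq_mul,
      innerSL_apply_apply]
    simp
    ring
  have hLint : ∀ f : E N → ℝ, Continuous f → HasCompactSupport f → Integrable f volume :=
    fun f hf hs => hf.integrable_of_hasCompactSupport hs
  have hgdc : Continuous fun x => fderiv ℝ g x e :=
    (hgC.continuous_fderiv (by norm_num)).clm_apply continuous_const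
  have hgds : HasCompactSupport fun x => fderiv ℝ g x e :=
    (hgs.fderiv ℝ).comp_left (g := fun T : E N →L[ℝ] ℝ => T e) (by simp)
  have hibp := integral_mul_fderiv_eq_neg_fderiv_mul_of_integrable (μ := (volume : Measure (E N)))
    (f := fun x => L x) (g := g) (v := e)
    (by
      refine hLint _ ?_ (hgs.mul_left)
      refine Continuous.mul ?_ hgC.continuous
      have : (fun x => fderiv ℝ (fun x => L x) x e) = fun _ => (1 : ℝ) := by
        funext x
        rw [L.fderiv, hLe]
      rw [this]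
      exact continuous_const)
    (hLint _ (L.continuous.mul hgdc) hgds.mul_left)
    (hLint _ (L.continuous.mul hgC.continuous) hgs.mul_left)
    (fun x _ => L.differentiableAt) (fun x _ => (hgC.differentiable (by norm_num)) x)
  have h1 : ∫ x, fderiv ℝ (fun x => L x) x e * g x = ∫ x, g x := by
    refine integral_congr_ae (Eventually.of_forall fun x => ?_)
    simp only
    rw [L.fderiv, hLe, one_mul]
  rw [h1] at hibp
  -- pointwise estimate
  have hpt : ∀ x, -(L x * fderiv ℝ g x e) ≤ ((p - 1) * ‖φ x‖ ^ p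
      + (p * R) ^ p * ‖gradient φ x‖ ^ p) / p := by
    intro x
    rw [le_div_iff₀ hp0]
    by_cases hx : x ∈ tsupport φ
    · have hxR : ‖x‖ ≤ R := by
        have := hΩ (h.sub hx)
        rw [mem_ball_zero_iff] at this
        exact this.le
      have hLx : |L x| ≤ R := by
        have h2 : |L x| ≤ ‖x‖ := by
          rw [← Real.norm_eq_abs, hL]
          exact EuclideanSpace.norm_eq x ▸ (by
            have := PiLp.norm_apply_le x i₀
            rwa [EuclideanSpace.norm_eq x] at this)
        exact h2.trans hxR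
      have h3 := young hp (x := p * R * ‖gradient φ x‖) (y := ‖φ x‖) (by positivity)
        (norm_nonneg _)
      rw [Real.mul_rpow (by positivity) (norm_nonneg _)] at h3
      have h4 : |fderiv ℝ φ x e| ≤ ‖gradient φ x‖ := by
        rw [grad_norm]
        have := (fderiv ℝ φ x).le_opNorm e
        rwa [hen, mul_one] at this
      have h5 : |‖φ x‖ ^ (p - 2) * φ x| = ‖φ x‖ ^ (p - 1) := by
        have := pA_norm hp (φ x)
        unfold pA at this
        rwa [smul_eq_mul, Real.norm_eq_abs] at this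
      have h6 : -(L x * fderiv ℝ g x e) ≤ R * (p * (‖φ x‖ ^ (p - 1) * ‖gradient φ x‖)) := by
        refine (neg_le_abs _).trans ?_
        rw [hgd, abs_mul, abs_mul, abs_mul, h5, abs_of_pos hp0]
        have h7 : ‖φ x‖ ^ (p - 1) * |fderiv ℝ φ x e| ≤ ‖φ x‖ ^ (p - 1) * ‖gradient φ x‖ :=
          mul_le_mul_of_nonneg_left h4 (Real.rpow_nonneg (norm_nonneg _) _)
        have h8 : 0 ≤ ‖φ x‖ ^ (p - 1) * |fderiv ℝ φ x e| := by positivity
        calc |L x| * (p * ‖φ x‖ ^ (p - 1) * |fderiv ℝ φ x e|)
            ≤ R * (p * ‖φ x‖ ^ (p - 1) * |fderiv ℝ φ x e|) := by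
              refine mul_le_mul_of_nonneg_right hLx (by positivity)
          _ = R * (p * (‖φ x‖ ^ (p - 1) * |fderiv ℝ φ x e|)) := by ring
          _ ≤ R * (p * (‖φ x‖ ^ (p - 1) * ‖gradient φ x‖)) := by gcongr
      nlinarith
    · have h2 : fderiv ℝ g x = 0 := by
        have h3 : x ∉ tsupport g := fun hc => hx (hgsub hc)
        have h4 : g =ᶠ[𝓝 x] fun _ => (0 : ℝ) := notMem_tsupport_iff_eventuallyEq.1 h3
        rw [h4.fderiv_eq]
        simp
      rw [h2]
      simp only [_root_.zero_apply, mul_zero, neg_zero, zero_mul]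
      have := Real.rpow_nonneg (norm_nonneg (φ x)) p
      have h5 : 0 ≤ p - 1 := by linarith
      positivity
  have hint1 : Integrable (fun x => ‖φ x‖ ^ p) (volume : Measure (E N)) :=
    hLint _ hgC.continuous hgs
  have hgradc : Continuous fun x => ‖gradient φ x‖ ^ p :=
    h.grad_cont.norm.rpow_const fun _ => Or.inr hp0.le
  have hgrads : HasCompactSupport fun x => ‖gradient φ x‖ ^ p :=
    h.grad_cpt.comp_left (g := fun y : E N => ‖y‖ ^ p)
      (by simp only [norm_zero]; exact Real.zero_rpow hp0.ne')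
  have hint2 : Integrable (fun x => ‖gradient φ x‖ ^ p) (volume : Measure (E N)) :=
    hLint _ hgradc hgrads
  have hfin : ∫ x, ‖φ x‖ ^ p ≤ ((p - 1) * ∫ x, ‖φ x‖ ^ p)/ p
      + ((p * R) ^ p * ∫ x, ‖gradient φ x‖ ^ p) / p := by
    have e1 : ∫ x, ‖φ x‖ ^ p = ∫ x, -(L x * fderiv ℝ g x e) := by
      rw [integral_neg, hibp, neg_neg]
    have hA : Integrable (fun x => (p - 1) * ‖φ x‖ ^ p) (volume : Measure (E N)) :=
      hint1.const_mul _
    have hB : Integrable (fun x => (p * R) ^ p * ‖gradient φ x‖ ^ p) (volume : Measure (E N)) :=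
      hint2.const_mul _
    have e2 : ∫ x, ((p - 1) * ‖φ x‖ ^ p + (p * R) ^ p * ‖gradient φ x‖ ^ p) / p
        = ((p - 1) * ∫ x, ‖φ x‖ ^ p) / p + ((p * R) ^ p * ∫ x, ‖gradient φ x‖ ^ p) / p := by
      rw [integral_div, integral_add hA hB, integral_const_mul, integral_const_mul, add_div]
    rw [← e2]
    nth_rewrite 1 [e1]
    exact integral_mono (hLint _ ((L.continuous.mul hgdc).neg) hgds.mul_left.neg)
      ((hA.add hB).div_const p) hpt
  have h9 : 0 < 1 / p := by positivity
  have h10 : (∫ x, ‖φ x‖ ^ p) * (1 / p) ≤ ((p * R) ^ p * ∫ x, ‖gradient φ x‖ ^ p) * (1 / p) := by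
    have : ((p - 1) * ∫ x, ‖φ x‖ ^ p) / p = (∫ x, ‖φ x‖ ^ p) - (∫ x, ‖φ x‖ ^ p) * (1 / p) := by
      field_simp
    rw [this] at hfin
    rw [mul_one_div, mul_one_div] at *
    linarith
  exact le_of_mul_le_mul_right h10 h9

end IsTest

end Pool.Agent.V1180.MS
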