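import Pool.Agent.V1180.MSb

/-!
# Minimizers of the `p`-energy in `L^p` spaces and the Euler-Lagrange equation
-/

namespace Pool.Agent.V1180.MS

open MeasureTheory Filter Topology Set Metric
open scoped InnerProductSpace ENNReal

variable {α : Type*} [MeasurableSpace α] {μ : Measure α} {H : Type*} [NormedAddCommGroup H]
  [InnerProductSpace ℝ H] {p : ℝ}

theorem lp_pow (hp : 1 < p) [Fact (1 ≤ ENNReal.ofReal p)] (f : Lp H (ENNReal.ofReal p) μ) :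
    ‖f‖ ^ p = ∫ x, ‖f x‖ ^ p ∂μ := by
  have h0 : 0 < p := by linarith
  have h1 := (Lp.memLp f).eLpNorm_eq_integral_rpow_norm (by simpa using h0) ENNReal.ofReal_ne_top
  have e : (ENNReal.ofReal p).toReal = p := ENNReal.toReal_ofReal h0.le
  rw [e] at h1
  have h2 : 0 ≤ ∫ x, ‖f x‖ ^ p ∂μ := integral_nonneg fun x => Real.rpow_nonneg (norm_nonneg _) _
  rw [Lp.norm_def, h1, ENNReal.toReal_ofReal (Real.rpow_nonneg h2 _), ← Real.rpow_mul h2,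
    inv_mul_cancel₀ h0.ne', Real.rpow_one]

theorem int_pow (hp : 1 < p) {f : α → H} (hf : MemLp f (ENNReal.ofReal p) μ) :
    Integrable (fun x => ‖f x‖ ^ p) μ := by
  have h0 : 0 < p := by linarith
  have h1 := hf.integrable_norm_rpow (by simpa using h0) ENNReal.ofReal_ne_top
  have e : (ENNReal.ofReal p).toReal = p := ENNReal.toReal_ofReal h0.le
  rwa [e] at h1

theorem unifLp [FiniteDimensional ℝ H] (hp : 1 < p) [Fact (1 ≤ ENNReal.ofReal p)] {ε : ℝ}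
    (hε : 0 < ε) :
    ∃ C : ℝ, 0 ≤ C ∧ ∀ a b : Lp H (ENNReal.ofReal p) μ, ‖a - b‖ ^ p ≤ ε * (‖a‖ ^ p + ‖b‖ ^ p)
      + C * ((‖a‖ ^ p + ‖b‖ ^ p) / 2 - ‖(2⁻¹ : ℝ) • (a + b)‖ ^ p) := by
  obtain ⟨C, hC, hu⟩ := unif (H := H) hp hε
  refine ⟨C, hC, fun a b => ?_⟩
  rw [lp_pow hp, lp_pow hp, lp_pow hp, lp_pow hp]
  have ia := int_pow hp (Lp.memLp a)
  have ib := int_pow hp (Lp.memLp b)
  have im := int_pow hp (Lp.memLp ((2⁻¹ : ℝ) • (a + b)))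
  have e1 : ∫ x, ‖(a - b) x‖ ^ p ∂μ = ∫ x, ‖a x - b x‖ ^ p ∂μ := by
    refine integral_congr_ae ?_
    filter_upwards [Lp.coeFn_sub a b] with x hx
    rw [hx, Pi.sub_apply]
  have e2 : ∀ᵐ x ∂μ, ((2⁻¹ : ℝ) • (a + b) : Lp H (ENNReal.ofReal p) μ) x
      = (2⁻¹ : ℝ) • (a x + b x) := by
    filter_upwards [Lp.coeFn_smul (2⁻¹ : ℝ) (a + b), Lp.coeFn_add a b] with x hx hx'
    rw [hx, Pi.smul_apply, hx', Pi.add_apply]
  have hi : Integrable (fun x => ε * (‖a x‖ ^ p + ‖b x‖ ^ p) + C * ((‖a x‖ ^ p + ‖b x‖ ^ p) / 2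
      - ‖((2⁻¹ : ℝ) • (a + b) : Lp H (ENNReal.ofReal p) μ) x‖ ^ p)) μ :=
    ((ia.add ib).const_mul ε).add ((((ia.add ib).div_const 2).sub im).const_mul C)
  have e3 : ∫ x, (ε * (‖a x‖ ^ p + ‖b x‖ ^ p) + C * ((‖a x‖ ^ p + ‖b x‖ ^ p) / 2
      - ‖((2⁻¹ : ℝ) • (a + b) : Lp H (ENNReal.ofReal p) μ) x‖ ^ p)) ∂μ
      = ε * (∫ x, ‖a x‖ ^ p ∂μ + ∫ x, ‖b x‖ ^ p ∂μ) + C * ((∫ x, ‖a x‖ ^ p ∂μ
      + ∫ x, ‖b x‖ ^ p ∂μ) / 2
      - ∫ x, ‖((2⁻¹ : ℝ) • (a + b) : Lp H (ENNReal.ofReal p) μ) x‖ ^ p ∂μ) := by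
    have i1 : Integrable (fun x => ‖a x‖ ^ p + ‖b x‖ ^ p) μ := ia.add ib
    have i2 : Integrable (fun x => (‖a x‖ ^ p + ‖b x‖ ^ p) / 2) μ := i1.div_const 2
    have i3 : Integrable (fun x => (‖a x‖ ^ p + ‖b x‖ ^ p) / 2
        - ‖((2⁻¹ : ℝ) • (a + b) : Lp H (ENNReal.ofReal p) μ) x‖ ^ p) μ := i2.sub im
    have i4 : Integrable (fun x => ε * (‖a x‖ ^ p + ‖b x‖ ^ p)) μ := i1.const_mul ε
    have i5 : Integrable (fun x => C * ((‖a x‖ ^ p + ‖b x‖ ^ p) / 2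
        - ‖((2⁻¹ : ℝ) • (a + b) : Lp H (ENNReal.ofReal p) μ) x‖ ^ p)) μ := i3.const_mul C
    rw [integral_add i4 i5, integral_const_mul, integral_const_mul, integral_sub i2 im,
      integral_div, integral_add ia ib]
  rw [← e3, e1]
  refine integral_mono_ae ?_ hi ?_
  · have h := int_pow hp (Lp.memLp (a - b))
    refine h.congr ?_
    filter_upwards [Lp.coeFn_sub a b] with x hx
    rw [hx, Pi.sub_apply]
  · filter_upwards [e2] with x hx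
    rw [hx]
    exact hu (a x) (b x)

/-- `p`-energy minimizers exist. -/
theorem exists_min [FiniteDimensional ℝ H] (hp : 1 < p) [Fact (1 ≤ ENNReal.ofReal p)]
    (V : Submodule ℝ (Lp ℝ (ENNReal.ofReal p) μ × Lp H (ENNReal.ofReal p) μ))
    (hV : IsClosed (V : Set (Lp ℝ (ENNReal.ofReal p) μ × Lp H (ENNReal.ofReal p) μ)))
    {K : ℝ} (hK : 0 ≤ K) (hPoin : ∀ z ∈ V, ‖z.1‖ ≤ K * ‖z.2‖)
    (ℓ : Lp ℝ (ENNReal.ofReal p) μ →L[ℝ] ℝ) :
    ∃ z ∈ V, ∀ v ∈ V, ‖z.2‖ ^ p - p * ℓ z.1 ≤ ‖v.2‖ ^ p - p * ℓ v.1 := by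
  have hp0 : 0 < p := by linarith
  have hp1 : 0 < p - 1 := by linarith
  set J : Lp ℝ (ENNReal.ofReal p) μ × Lp H (ENNReal.ofReal p) μ → ℝ :=
    fun z => ‖z.2‖ ^ p - p * ℓ z.1 with hJ
  -- coercivity
  obtain ⟨Q, hQ⟩ : ∃ Q : ℝ, ∀ z ∈ V, ‖z.2‖ ^ p ≤ 2 * (J z + Q) := by
    set M : ℝ := ‖ℓ‖ * K with hM
    have hM0 : 0 ≤ M := by positivity
    set c : ℝ := (1 / 2) ^ (1 / p) with hc
    have hc0 : 0 < c := Real.rpow_pos_of_pos (by norm_num) _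
    have hcp : c ^ p = 1 / 2 := by
      rw [hc, ← Real.rpow_mul (by norm_num), one_div p, inv_mul_cancel₀ hp0.ne', Real.rpow_one]
    set y : ℝ := (M / c) ^ (1 / (p - 1)) with hy
    have hy0 : 0 ≤ y := Real.rpow_nonneg (by positivity) _
    have hyp : y ^ (p - 1) = M / c := by
      rw [hy, ← Real.rpow_mul (by positivity), one_div (p - 1), inv_mul_cancel₀ hp1.ne',
        Real.rpow_one]
    refine ⟨(p - 1) * y ^ p, fun z hz => ?_⟩
    have h1 := young hp (x := c * ‖z.2‖) (y := y) (by positivity) hy0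
    rw [hyp, Real.mul_rpow hc0.le (norm_nonneg _), hcp] at h1
    have h2 : M / c * (c * ‖z.2‖) = M * ‖z.2‖ := by
      field_simp
    rw [h2] at h1
    have h3 : ℓ z.1 ≤ M * ‖z.2‖ := by
      have h4 := (le_abs_self _).trans ((Real.norm_eq_abs _).symm.le.trans (ℓ.le_opNorm z.1))
      have h5 := mul_le_mul_of_nonneg_left (hPoin z hz) (norm_nonneg ℓ)
      rw [hM]
      calc ℓ z.1 ≤ ‖ℓ‖ * ‖z.1‖ := h4
        _ ≤ ‖ℓ‖ * (K * ‖z.2‖) := h5
        _ = ‖ℓ‖ * K * ‖z.2‖ := by ring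
    have h6 : p * ℓ z.1 ≤ p * (M * ‖z.2‖) := mul_le_mul_of_nonneg_left h3 hp0.le
    simp only [hJ]
    linarith
  set S : Set ℝ := J '' (V : Set (Lp ℝ (ENNReal.ofReal p) μ × Lp H (ENNReal.ofReal p) μ)) with hS
  have hSn : S.Nonempty := ⟨J 0, 0, V.zero_mem, rfl⟩
  have hSb : BddBelow S := by
    refine ⟨-Q, ?_⟩
    rintro _ ⟨z, hz, rfl⟩
    have h1 := hQ z hz
    have h2 := Real.rpow_nonneg (norm_nonneg z.2) p
    linarith
  set m : ℝ := sInf S with hm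
  have hmle : ∀ z ∈ V, m ≤ J z := fun z hz => csInf_le hSb ⟨z, hz, rfl⟩
  have hseq : ∀ n : ℕ, ∃ z ∈ V, J z < m + 1 / ((n : ℝ) + 1) := by
    intro n
    have h1 : m < m + 1 / ((n : ℝ) + 1) := by
      have : 0 < 1 / ((n : ℝ) + 1) := by positivity
      linarith
    obtain ⟨_, ⟨z, hz, rfl⟩, h2⟩ := exists_lt_of_csInf_lt hSn h1
    exact ⟨z, hz, h2⟩
  choose z hzV hzJ using hseq
  set B : ℝ := 2 * (m + 1 + Q) with hB
  have hzB : ∀ n, ‖(z n).2‖ ^ p ≤ B := by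
    intro n
    have h1 := hQ _ (hzV n)
    have h2 := hzJ n
    have h3 : 1 / ((n : ℝ) + 1) ≤ 1 := by
      rw [div_le_one (by positivity)]
      have : (0 : ℝ) ≤ n := by positivity
      linarith
    linarith
  have hB0 : 0 ≤ B := (Real.rpow_nonneg (norm_nonneg _) _).trans (hzB 0)
  have hmid : ∀ n k, (‖(z n).2‖ ^ p + ‖(z k).2‖ ^ p) / 2
      - ‖(2⁻¹ : ℝ) • ((z n).2 + (z k).2)‖ ^ p ≤ (1 / ((n : ℝ) + 1) + 1 / ((k : ℝ) + 1)) / 2 := by
    intro n k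
    have h1 : m ≤ J ((2⁻¹ : ℝ) • (z n + z k)) :=
      hmle _ (V.smul_mem _ (V.add_mem (hzV n) (hzV k)))
    have h2 : J ((2⁻¹ : ℝ) • (z n + z k)) = ‖(2⁻¹ : ℝ) • ((z n).2 + (z k).2)‖ ^ p
        - p * ((ℓ (z n).1 + ℓ (z k).1) / 2) := by
      simp only [hJ, Prod.smul_snd, Prod.snd_add, Prod.smul_fst, Prod.fst_add, map_smul, map_add,
        smul_eq_mul]
      ring
    have h3 : J (z n) = ‖(z n).2‖ ^ p - p * ℓ (z n).1 := rfl
    have h4 : J (z k) = ‖(z k).2‖ ^ p - p * ℓ (z k).1 := rfl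
    have h5 := hzJ n
    have h6 := hzJ k
    rw [h2] at h1
    rw [h3] at h5
    rw [h4] at h6
    linarith
  have hcau : CauchySeq fun n => (z n).2 := by
    rw [Metric.cauchySeq_iff]
    intro η hη
    have hηp : 0 < η ^ p := Real.rpow_pos_of_pos hη _
    set ε : ℝ := η ^ p / (4 * (B + 1)) with hε
    have hε0 : 0 < ε := by positivity
    obtain ⟨C, hC, hu⟩ := unifLp (μ := μ) (H := H) hp hε0
    obtain ⟨n₀, hn₀⟩ := exists_nat_gt (2 * C / η ^ p)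
    refine ⟨n₀, fun n hn k hk => ?_⟩
    have h1 := hu (z n).2 (z k).2
    have h2 : ε * (‖(z n).2‖ ^ p + ‖(z k).2‖ ^ p) ≤ η ^ p / 2 := by
      have h3 : ‖(z n).2‖ ^ p + ‖(z k).2‖ ^ p ≤ 2 * (B + 1) := by
        have := hzB n
        have := hzB k
        linarith
      calc ε * (‖(z n).2‖ ^ p + ‖(z k).2‖ ^ p) ≤ ε * (2 * (B + 1)) :=
            mul_le_mul_of_nonneg_left h3 hε0.le
        _ = η ^ p / 2 := by
            rw [hε]
            field_simp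
            ring
    have h4 : C * ((‖(z n).2‖ ^ p + ‖(z k).2‖ ^ p) / 2
        - ‖(2⁻¹ : ℝ) • ((z n).2 + (z k).2)‖ ^ p) < η ^ p / 2 := by
      have hn' : 1 / ((n : ℝ) + 1) ≤ 1 / ((n₀ : ℝ) + 1) := by
        have : (n₀ : ℝ) ≤ n := by exact_mod_cast hn
        gcongr
      have hk' : 1 / ((k : ℝ) + 1) ≤ 1 / ((n₀ : ℝ) + 1) := by
        have : (n₀ : ℝ) ≤ k := by exact_mod_cast hk
        gcongr
      have h5 := hmid n k
      have h6 : (‖(z n).2‖ ^ p + ‖(z k).2‖ ^ p) / 2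
        - ‖(2⁻¹ : ℝ) • ((z n).2 + (z k).2)‖ ^ p ≤ 1 / ((n₀ : ℝ) + 1) := by linarith
      refine (mul_le_mul_of_nonneg_left h6 hC).trans_lt ?_
      rw [mul_one_div, div_lt_iff₀ (by positivity)]
      rw [div_lt_iff₀ hηp] at hn₀
      nlinarith
    have h7 : ‖(z n).2 - (z k).2‖ ^ p < η ^ p := by linarith
    rw [dist_eq_norm]
    exact lt_of_not_ge fun h8 =>
      absurd (Real.rpow_le_rpow hη.le h8 hp0.le) (not_le.2 h7)
  have hcau1 : CauchySeq fun n => (z n).1 := by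
    rw [Metric.cauchySeq_iff] at hcau ⊢
    intro η hη
    obtain ⟨n₀, hn₀⟩ := hcau (η / (K + 1)) (by positivity)
    refine ⟨n₀, fun n hn k hk => ?_⟩
    have h1 := hn₀ n hn k hk
    rw [dist_eq_norm] at h1 ⊢
    have h2 := hPoin (z n - z k) (V.sub_mem (hzV n) (hzV k))
    simp only [Prod.fst_sub, Prod.snd_sub] at h2
    rw [lt_div_iff₀ (by positivity)] at h1
    have := norm_nonneg ((z n).2 - (z k).2)
    nlinarith
  obtain ⟨g, hg⟩ := cauchySeq_tendsto_of_complete hcau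
  obtain ⟨u, hu⟩ := cauchySeq_tendsto_of_complete hcau1
  have hlim : Tendsto z atTop (𝓝 (u, g)) := by
    have := hu.prodMk_nhds hg
    exact this
  have hmem : (u, g) ∈ V := hV.mem_of_tendsto hlim (Eventually.of_forall hzV)
  have hJc : Continuous J := by
    simp only [hJ]
    exact ((continuous_snd.norm).rpow_const fun _ => Or.inr hp0.le).sub
      (continuous_const.mul (ℓ.continuous.comp continuous_fst))
  have hJm : J (u, g) ≤ m := by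
    have h1 : Tendsto (fun n => J (z n)) atTop (𝓝 (J (u, g))) := (hJc.tendsto _).comp hlim
    have h2 : Tendsto (fun n : ℕ => m + 1 / ((n : ℝ) + 1)) atTop (𝓝 (m + 0)) :=
      tendsto_const_nhds.add tendsto_one_div_add_atTop_nhds_zero_nat
    rw [add_zero] at h2
    exact le_of_tendsto_of_tendsto' h1 h2 fun n => (hzJ n).le
  exact ⟨(u, g), hmem, fun v hv => hJm.trans (hmle v hv)⟩

theorem pair_bound (hp : 1 < p) (a b : H) : ‖⟪pA p a, b⟫_ℝ‖ ≤ (‖a‖ + ‖b‖) ^ p := by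
  have h1 : ‖⟪pA p a, b⟫_ℝ‖ ≤ ‖pA p a‖ * ‖b‖ := norm_inner_le_norm _ _
  rw [pA_norm hp] at h1
  have hs : 0 ≤ ‖a‖ + ‖b‖ := by positivity
  have h2 : ‖a‖ ^ (p - 1) ≤ (‖a‖ + ‖b‖) ^ (p - 1) :=
    Real.rpow_le_rpow (norm_nonneg _) (by linarith [norm_nonneg b]) (by linarith)
  have h3 : ‖b‖ ≤ ‖a‖ + ‖b‖ := by linarith [norm_nonneg a]
  have h4 : ‖a‖ ^ (p - 1) * ‖b‖ ≤ (‖a‖ + ‖b‖) ^ (p - 1) * (‖a‖ + ‖b‖) := by gcongr
  have h5 : (‖a‖ + ‖b‖) ^ (p - 1) * (‖a‖ + ‖b‖) = (‖a‖ + ‖b‖) ^ p := by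
    rcases eq_or_lt_of_le hs with h0 | h0
    · rw [← h0, mul_zero, Real.zero_rpow (by linarith)]
    · nth_rewrite 2 [← Real.rpow_one (‖a‖ + ‖b‖)]
      rw [← Real.rpow_add h0]
      congr 1
      ring
  linarith

theorem int_dom (hp : 1 < p) {a b : α → H} (ha : MemLp a (ENNReal.ofReal p) μ)
    (hb : MemLp b (ENNReal.ofReal p) μ) : Integrable (fun x => (‖a x‖ + ‖b x‖) ^ p) μ := by
  have h := int_pow (H := ℝ) hp (f := fun x => ‖a x‖ + ‖b x‖) (ha.norm.add hb.norm)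
  refine h.congr (Eventually.of_forall fun x => ?_)
  simp only
  rw [Real.norm_of_nonneg (by positivity)]

theorem pair_meas (hp : 1 < p) {a b : α → H} (ha : AEStronglyMeasurable a μ)
    (hb : AEStronglyMeasurable b μ) : AEStronglyMeasurable (fun x => ⟪pA p (a x), b x⟫_ℝ) μ :=
  ((pA_cont hp).comp_aestronglyMeasurable ha).inner hb

theorem int_pair (hp : 1 < p) {a b : α → H} (ha : MemLp a (ENNReal.ofReal p) μ)
    (hb : MemLp b (ENNReal.ofReal p) μ) : Integrable (fun x => ⟪pA p (a x), b x⟫_ℝ) μ :=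
  (int_dom hp ha hb).mono' (pair_meas hp ha.1 hb.1)
    (Eventually.of_forall fun x => pair_bound hp (a x) (b x))

theorem euler_le (hp : 1 < p) [Fact (1 ≤ ENNReal.ofReal p)]
    (V : Submodule ℝ (Lp ℝ (ENNReal.ofReal p) μ × Lp H (ENNReal.ofReal p) μ))
    (ℓ : Lp ℝ (ENNReal.ofReal p) μ →L[ℝ] ℝ)
    {z : Lp ℝ (ENNReal.ofReal p) μ × Lp H (ENNReal.ofReal p) μ} (hz : z ∈ V)
    (hmin : ∀ v ∈ V, ‖z.2‖ ^ p - p * ℓ z.1 ≤ ‖v.2‖ ^ p - p * ℓ v.1) :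
    ∀ v ∈ V, ℓ v.1 ≤ ∫ x, ⟪pA p (z.2 x), v.2 x⟫_ℝ ∂μ := by
  intro v hv
  have hp0 : 0 < p := by linarith
  have key : ∀ t : ℝ, 0 < t → ℓ v.1 ≤ ∫ x, ⟪pA p (z.2 x + t • v.2 x), v.2 x⟫_ℝ ∂μ := by
    intro t ht
    have h1 := hmin (z + t • v) (V.add_mem hz (V.smul_mem t hv))
    simp only [Prod.snd_add, Prod.fst_add, Prod.smul_snd, Prod.smul_fst, map_add, map_smul,
      smul_eq_mul] at h1
    have hae : ∀ᵐ x ∂μ, (z.2 + t • v.2 : Lp H (ENNReal.ofReal p) μ) x = z.2 x + t • v.2 x := by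
      filter_upwards [Lp.coeFn_add z.2 (t • v.2), Lp.coeFn_smul t v.2] with x hx hx'
      rw [hx, Pi.add_apply, hx', Pi.smul_apply]
    have hmt : MemLp (fun x => z.2 x + t • v.2 x) (ENNReal.ofReal p) μ :=
      (Lp.memLp z.2).add ((Lp.memLp v.2).const_smul t)
    have h2 : ‖z.2 + t • v.2‖ ^ p - ‖z.2‖ ^ p
        ≤ p * t * ∫ x, ⟪pA p (z.2 x + t • v.2 x), v.2 x⟫_ℝ ∂μ := by
      rw [lp_pow hp, lp_pow hp, ← integral_sub (int_pow hp (Lp.memLp _))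
        (int_pow hp (Lp.memLp _)), ← integral_const_mul]
      refine integral_mono_ae ((int_pow hp (Lp.memLp _)).sub (int_pow hp (Lp.memLp _)))
        ((int_pair hp hmt (Lp.memLp v.2)).const_mul _) ?_
      filter_upwards [hae] with x hx
      rw [hx]
      have h3 := pA_convex hp (z.2 x) (z.2 x + t • v.2 x)
      have h4 : z.2 x - (z.2 x + t • v.2 x) = -(t • v.2 x) := by abel
      rw [h4, inner_neg_right, inner_smul_right] at h3
      linarith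
    have h5 : p * t * ℓ v.1 ≤ p * t * ∫ x, ⟪pA p (z.2 x + t • v.2 x), v.2 x⟫_ℝ ∂μ := by
      nlinarith
    exact le_of_mul_le_mul_left h5 (by positivity)
  have hlim : Tendsto (fun n : ℕ => ∫ x, ⟪pA p (z.2 x + (1 / ((n : ℝ) + 1)) • v.2 x), v.2 x⟫_ℝ ∂μ)
      atTop (𝓝 (∫ x, ⟪pA p (z.2 x), v.2 x⟫_ℝ ∂μ)) := by
    refine tendsto_integral_of_dominated_convergence
      (fun x => ((‖z.2 x‖ + ‖v.2 x‖) + ‖v.2 x‖) ^ p) ?_ ?_ ?_ ?_
    · intro n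
      exact pair_meas hp ((Lp.aestronglyMeasurable z.2).add
        ((Lp.aestronglyMeasurable v.2).const_smul _)) (Lp.aestronglyMeasurable v.2)
    · have h := int_dom (H := ℝ) hp (a := fun x => ‖z.2 x‖ + ‖v.2 x‖) (b := fun x => ‖v.2 x‖)
        ((Lp.memLp z.2).norm.add (Lp.memLp v.2).norm) (Lp.memLp v.2).norm
      refine h.congr (Eventually.of_forall fun x => ?_)
      simp only
      rw [norm_norm, Real.norm_of_nonneg (by positivity)]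
    · intro n
      refine Eventually.of_forall fun x => ?_
      refine (pair_bound hp _ _).trans ?_
      refine Real.rpow_le_rpow (by positivity) ?_ hp0.le
      have h1 : ‖z.2 x + (1 / ((n : ℝ) + 1)) • v.2 x‖ ≤ ‖z.2 x‖ + ‖v.2 x‖ := by
        refine (norm_add_le _ _).trans ?_
        rw [norm_smul, Real.norm_of_nonneg (by positivity)]
        have h2 : 1 / ((n : ℝ) + 1) ≤ 1 := by
          rw [div_le_one (by positivity)]
          have : (0 : ℝ) ≤ n := by positivity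
          linarith
        have := norm_nonneg (v.2 x)
        nlinarith
      linarith
    · refine Eventually.of_forall fun x => ?_
      have h1 : Tendsto (fun n : ℕ => z.2 x + (1 / ((n : ℝ) + 1)) • v.2 x) atTop
          (𝓝 (z.2 x + (0 : ℝ) • v.2 x)) :=
        tendsto_const_nhds.add (tendsto_one_div_add_atTop_nhds_zero_nat.smul tendsto_const_nhds)
      rw [zero_smul, add_zero] at h1
      exact (((pA_cont hp).tendsto _).comp h1).inner tendsto_const_nhds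
  exact ge_of_tendsto' hlim fun n => key _ (by positivity)

theorem euler (hp : 1 < p) [Fact (1 ≤ ENNReal.ofReal p)]
    (V : Submodule ℝ (Lp ℝ (ENNReal.ofReal p) μ × Lp H (ENNReal.ofReal p) μ))
    (ℓ : Lp ℝ (ENNReal.ofReal p) μ →L[ℝ] ℝ)
    {z : Lp ℝ (ENNReal.ofReal p) μ × Lp H (ENNReal.ofReal p) μ} (hz : z ∈ V)
    (hmin : ∀ v ∈ V, ‖z.2‖ ^ p - p * ℓ z.1 ≤ ‖v.2‖ ^ p - p * ℓ v.1) :
    ∀ v ∈ V, ∫ x, ⟪pA p (z.2 x), v.2 x⟫_ℝ ∂μ = ℓ v.1 := by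
  intro v hv
  refine le_antisymm ?_ (euler_le hp V ℓ hz hmin v hv)
  have h1 := euler_le hp V ℓ hz hmin (-v) (V.neg_mem hv)
  rw [Prod.fst_neg, map_neg] at h1
  have h2 : ∫ x, ⟪pA p (z.2 x), (-v).2 x⟫_ℝ ∂μ = -∫ x, ⟪pA p (z.2 x), v.2 x⟫_ℝ ∂μ := by
    rw [← integral_neg]
    refine integral_congr_ae ?_
    filter_upwards [Lp.coeFn_neg v.2] with x hx
    rw [Prod.snd_neg, hx, Pi.neg_apply, inner_neg_right]
  rw [h2] at h1
  linarith

end Pool.Agent.V1180.MS
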