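import Pool.Agent.V1180.MSc

/-!
# The space `W₀^{1,p}`, a chain rule and the comparison principle
-/

namespace Pool.Agent.V1180.MS

open MeasureTheory Filter Topology Set Metric
open scoped InnerProductSpace ENNReal ContDiff

/-- a smooth increasing truncation -/
noncomputable def psi (x : ℝ) : ℝ := ∫ t in (0 : ℝ)..x, Real.smoothTransition t

theorem psi_hasDerivAt (x : ℝ) : HasDerivAt psi (Real.smoothTransition x) x :=
  (Real.smoothTransition.continuous.integral_hasStrictDerivAt 0 x).hasDerivAt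

theorem psi_deriv : deriv psi = Real.smoothTransition := funext fun x => (psi_hasDerivAt x).deriv

theorem psi_contDiff : ContDiff ℝ ∞ psi := by
  rw [contDiff_infty_iff_deriv]
  refine ⟨fun x => (psi_hasDerivAt x).differentiableAt, ?_⟩
  rw [psi_deriv]
  exact Real.smoothTransition.contDiff

theorem psi_zero : psi 0 = 0 := by
  unfold psi
  exact intervalIntegral.integral_same

theorem psi_nonneg (x : ℝ) : 0 ≤ psi x := by
  rcases le_total 0 x with h | h
  · exact intervalIntegral.integral_nonneg h fun t _ => Real.smoothTransition.nonneg t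
  · unfold psi
    rw [intervalIntegral.integral_symm]
    have : ∫ t in x..0, Real.smoothTransition t = ∫ t in x..0, (0 : ℝ) := by
      refine intervalIntegral.integral_congr fun t ht => ?_
      rw [uIcc_of_le h] at ht
      exact Real.smoothTransition.zero_of_nonpos ht.2
    rw [intervalIntegral.integral_zero] at this
    rw [this, neg_zero]

theorem psi_pos {x : ℝ} (h : 0 < x) : 0 < psi x := by
  unfold psi
  refine intervalIntegral.intervalIntegral_pos_of_pos_on
    (Real.smoothTransition.continuous.intervalIntegrable _ _) (fun t ht => ?_) h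
  exact Real.smoothTransition.pos_of_pos ht.1

theorem psi_lip : LipschitzWith 1 psi := by
  refine lipschitzWith_of_nnnorm_deriv_le (fun x => (psi_hasDerivAt x).differentiableAt)
    fun x => ?_
  rw [psi_deriv, ← NNReal.coe_le_coe, coe_nnnorm, NNReal.coe_one, Real.norm_eq_abs,
    abs_of_nonneg (Real.smoothTransition.nonneg _)]
  exact Real.smoothTransition.le_one _

variable {N : ℕ} {Ω : Set (E N)} {p : ℝ}

namespace IsTest

variable {φ : E N → ℝ}

theorem memLp (h : IsTest Ω φ) (q : ℝ≥0∞) : MemLp φ q (volume.restrict Ω) :=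
  h.smooth.continuous.memLp_of_hasCompactSupport h.cpt

theorem memLp_grad (h : IsTest Ω φ) (q : ℝ≥0∞) : MemLp (gradient φ) q (volume.restrict Ω) :=
  h.grad_cont.memLp_of_hasCompactSupport h.grad_cpt

theorem psi_comp (h : IsTest Ω φ) : IsTest Ω (fun x => psi (φ x)) where
  smooth := psi_contDiff.comp h.smooth
  cpt := h.cpt.comp_left (g := psi) psi_zero
  sub := by
    refine (closure_mono fun x hx => ?_).trans h.sub
    rw [Function.mem_support] at hx ⊢
    intro h0
    exact hx (by rw [h0, psi_zero])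

theorem grad_psi (h : IsTest Ω φ) (x : E N) :
    gradient (fun y => psi (φ y)) x = Real.smoothTransition (φ x) • gradient φ x := by
  unfold gradient
  have h1 : HasFDerivAt (fun y => psi (φ y)) (Real.smoothTransition (φ x) • fderiv ℝ φ x) x :=
    (psi_hasDerivAt (φ x)).comp_hasFDerivAt x (h.diff x).hasFDerivAt
  rw [h1.fderiv, map_smul]

end IsTest

/-- pairs (test function, gradient) -/
noncomputable def V0 (Ω : Set (E N)) (p : ℝ) [Fact (1 ≤ ENNReal.ofReal p)] :
    Submodule ℝ (Lp ℝ (ENNReal.ofReal p) (volume.restrict Ω) ×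
      Lp (E N) (ENNReal.ofReal p) (volume.restrict Ω)) where
  carrier := {z | ∃ φ, IsTest Ω φ ∧ z.1 =ᵐ[volume.restrict Ω] φ ∧
    z.2 =ᵐ[volume.restrict Ω] gradient φ}
  add_mem' := by
    rintro a b ⟨φ, hφ, h1, h2⟩ ⟨χ, hχ, h3, h4⟩
    refine ⟨fun x => φ x + χ x, hφ.add hχ, ?_, ?_⟩
    · filter_upwards [Lp.coeFn_add a.1 b.1, h1, h3] with x hx h1x h3x
      rw [Prod.fst_add, hx, Pi.add_apply, h1x, h3x]
    · filter_upwards [Lp.coeFn_add a.2 b.2, h2, h4] with x hx h1x h3x
      rw [Prod.snd_add, hx, Pi.add_apply, h1x, h3x, hφ.grad_add hχ]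
  zero_mem' := by
    refine ⟨fun _ => 0, IsTest.zero, ?_, ?_⟩
    · filter_upwards [Lp.coeFn_zero ℝ (ENNReal.ofReal p) (volume.restrict Ω)] with x hx
      rw [Prod.fst_zero, hx, Pi.zero_apply]
    · filter_upwards [Lp.coeFn_zero (E N) (ENNReal.ofReal p) (volume.restrict Ω)] with x hx
      rw [Prod.snd_zero, hx, Pi.zero_apply]
      unfold gradient
      simp
  smul_mem' := by
    rintro c a ⟨φ, hφ, h1, h2⟩
    refine ⟨fun x => c * φ x, hφ.smul c, ?_, ?_⟩
    · filter_upwards [Lp.coeFn_smul c a.1, h1] with x hx h1x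
      rw [Prod.smul_fst, hx, Pi.smul_apply, h1x, smul_eq_mul]
    · filter_upwards [Lp.coeFn_smul c a.2, h2] with x hx h1x
      rw [Prod.smul_snd, hx, Pi.smul_apply, h1x, hφ.grad_smul]

variable [Fact (1 ≤ ENNReal.ofReal p)]

theorem mem_V0 {z : Lp ℝ (ENNReal.ofReal p) (volume.restrict Ω) ×
    Lp (E N) (ENNReal.ofReal p) (volume.restrict Ω)} :
    z ∈ V0 Ω p ↔ ∃ φ, IsTest Ω φ ∧ z.1 =ᵐ[volume.restrict Ω] φ ∧
      z.2 =ᵐ[volume.restrict Ω] gradient φ := Iff.rfl

/-- `W₀^{1,p}(Ω)` as a closed subspace of pairs `(u, ∇u)` -/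
noncomputable def W0 (Ω : Set (E N)) (p : ℝ) [Fact (1 ≤ ENNReal.ofReal p)] :
    Submodule ℝ (Lp ℝ (ENNReal.ofReal p) (volume.restrict Ω) ×
      Lp (E N) (ENNReal.ofReal p) (volume.restrict Ω)) := (V0 Ω p).topologicalClosure

theorem W0_closed : IsClosed (W0 Ω p : Set (Lp ℝ (ENNReal.ofReal p) (volume.restrict Ω) ×
      Lp (E N) (ENNReal.ofReal p) (volume.restrict Ω))) :=
  (V0 Ω p).isClosed_topologicalClosure

/-- Poincaré on `W₀^{1,p}` -/
theorem W0_poincare (hN : 0 < N) {R : ℝ} (hR : 0 ≤ R) (hΩ : Ω ⊆ ball 0 R)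
    (hp : 1 < p) : ∀ z ∈ W0 Ω p, ‖z.1‖ ≤ p * R * ‖z.2‖ := by
  have hp0 : 0 < p := by linarith
  set S : Set (Lp ℝ (ENNReal.ofReal p) (volume.restrict Ω) ×
      Lp (E N) (ENNReal.ofReal p) (volume.restrict Ω)) := {z | ‖z.1‖ ≤ p * R * ‖z.2‖} with hS
  have hSc : IsClosed S := isClosed_le (continuous_fst.norm)
    (continuous_const.mul continuous_snd.norm)
  have hsub : (V0 Ω p : Set (Lp ℝ (ENNReal.ofReal p) (volume.restrict Ω) ×
      Lp (E N) (ENNReal.ofReal p) (volume.restrict Ω))) ⊆ S := by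
    rintro z ⟨φ, hφ, h1, h2⟩
    change ‖z.1‖ ≤ p * R * ‖z.2‖
    have hle : ‖z.1‖ ^ p ≤ (p * R * ‖z.2‖) ^ p := by
      rw [Real.mul_rpow (by positivity) (norm_nonneg _), lp_pow hp, lp_pow hp]
      have e1 : ∫ x in Ω, ‖z.1 x‖ ^ p = ∫ x, ‖φ x‖ ^ p := by
        rw [← setIntegral_eq_integral_of_forall_compl_eq_zero (s := Ω)
          (f := fun x => ‖φ x‖ ^ p)]
        · refine integral_congr_ae ?_
          filter_upwards [h1] with x hx
          rw [hx]
        · intro x hx
          rw [image_eq_zero_of_notMem_tsupport fun hc => hx (hφ.sub hc), norm_zero,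
            Real.zero_rpow hp0.ne']
      have e2 : ∫ x in Ω, ‖z.2 x‖ ^ p = ∫ x, ‖gradient φ x‖ ^ p := by
        rw [← setIntegral_eq_integral_of_forall_compl_eq_zero (s := Ω)
          (f := fun x => ‖gradient φ x‖ ^ p)]
        · refine integral_congr_ae ?_
          filter_upwards [h2] with x hx
          rw [hx]
        · intro x hx
          have h3 : x ∉ tsupport φ := fun hc => hx (hφ.sub hc)
          have h4 : φ =ᶠ[𝓝 x] fun _ => (0 : ℝ) := notMem_tsupport_iff_eventuallyEq.1 h3
          rw [grad_norm, h4.fderiv_eq]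
          simp [Real.zero_rpow hp0.ne']
      rw [e1, e2]
      exact hφ.poincare hN hR hΩ hp
    exact (Real.rpow_le_rpow_iff (norm_nonneg _) (by positivity) hp0).1 hle
  intro z hz
  have h1 : z ∈ closure (V0 Ω p : Set (Lp ℝ (ENNReal.ofReal p) (volume.restrict Ω) ×
      Lp (E N) (ENNReal.ofReal p) (volume.restrict Ω))) := by
    rw [← Submodule.topologicalClosure_coe]
    exact hz
  exact closure_minimal hsub hSc h1

/-- the map `(u, G) ↦ (ψ(u), ψ'(u) G)` -/
theorem chain_mem (v : Lp ℝ (ENNReal.ofReal p) (volume.restrict Ω) ×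
      Lp (E N) (ENNReal.ofReal p) (volume.restrict Ω)) :
    MemLp (fun x => Real.smoothTransition (v.1 x) • v.2 x) (ENNReal.ofReal p)
      (volume.restrict Ω) := by
  refine (Lp.memLp v.2).of_le ((Real.smoothTransition.continuous.comp_aestronglyMeasurable
    (Lp.aestronglyMeasurable v.1)).smul (Lp.aestronglyMeasurable v.2))
    (Eventually.of_forall fun x => ?_)
  rw [norm_smul, Real.norm_of_nonneg (Real.smoothTransition.nonneg _)]
  have h1 := Real.smoothTransition.le_one (v.1 x)
  have h2 := norm_nonneg (v.2 x)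
  nlinarith

/-- the map `(u, G) ↦ (ψ(u), ψ'(u) G)` -/
noncomputable def chain (v : Lp ℝ (ENNReal.ofReal p) (volume.restrict Ω) ×
      Lp (E N) (ENNReal.ofReal p) (volume.restrict Ω)) :
    Lp ℝ (ENNReal.ofReal p) (volume.restrict Ω) ×
      Lp (E N) (ENNReal.ofReal p) (volume.restrict Ω) :=
  (psi_lip.compLp psi_zero v.1, (chain_mem v).toLp _)

theorem chain_V0 {v : Lp ℝ (ENNReal.ofReal p) (volume.restrict Ω) ×
      Lp (E N) (ENNReal.ofReal p) (volume.restrict Ω)} (hv : v ∈ V0 Ω p) :
    chain v ∈ V0 Ω p := by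
  obtain ⟨φ, hφ, h1, h2⟩ := mem_V0.1 hv
  refine mem_V0.2 ⟨_, hφ.psi_comp, ?_, ?_⟩
  · filter_upwards [psi_lip.coeFn_compLp psi_zero v.1, h1] with x hx h1x
    change (psi_lip.compLp psi_zero v.1) x = _
    rw [hx, Function.comp_apply, h1x]
  · filter_upwards [(chain_mem v).coeFn_toLp, h1, h2] with x hx h1x h2x
    change ((chain_mem v).toLp _ : Lp (E N) (ENNReal.ofReal p) (volume.restrict Ω)) x = _
    rw [hx, h1x, h2x, hφ.grad_psi]

theorem chain_W0 (hp : 1 < p) {v : Lp ℝ (ENNReal.ofReal p) (volume.restrict Ω) ×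
      Lp (E N) (ENNReal.ofReal p) (volume.restrict Ω)} (hv : v ∈ W0 Ω p) :
    chain v ∈ W0 Ω p := by
  have hp0 : 0 < p := by linarith
  have hv' : v ∈ closure (V0 Ω p : Set (Lp ℝ (ENNReal.ofReal p) (volume.restrict Ω) ×
      Lp (E N) (ENNReal.ofReal p) (volume.restrict Ω))) := by
    rw [← Submodule.topologicalClosure_coe]
    exact hv
  obtain ⟨y, hy, hylim⟩ := mem_closure_iff_seq_limit.1 hv'
  have hy1 : Tendsto (fun n => (y n).1) atTop (𝓝 v.1) := (continuous_fst.tendsto _).comp hylim
  obtain ⟨ns, hns, hae⟩ := (tendstoInMeasure_of_tendsto_Lp hy1).exists_seq_tendsto_ae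
  set z : ℕ → Lp ℝ (ENNReal.ofReal p) (volume.restrict Ω) ×
      Lp (E N) (ENNReal.ofReal p) (volume.restrict Ω) := fun n => y (ns n) with hz
  have hzlim : Tendsto z atTop (𝓝 v) := hylim.comp hns.tendsto_atTop
  have hz1 : Tendsto (fun n => (z n).1) atTop (𝓝 v.1) := (continuous_fst.tendsto _).comp hzlim
  have hz2 : Tendsto (fun n => (z n).2) atTop (𝓝 v.2) := (continuous_snd.tendsto _).comp hzlim
  have hc1 : Tendsto (fun n => (chain (z n)).1) atTop (𝓝 (chain v).1) :=
    ((psi_lip.continuous_compLp psi_zero).tendsto v.1).comp hz1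
  -- second component
  have hmb : ∀ n, MemLp (fun x => (Real.smoothTransition ((z n).1 x)
      - Real.smoothTransition (v.1 x)) • v.2 x) (ENNReal.ofReal p) (volume.restrict Ω) := by
    intro n
    refine (Lp.memLp v.2).of_le (((Real.smoothTransition.continuous.comp_aestronglyMeasurable
      (Lp.aestronglyMeasurable (z n).1)).sub
      (Real.smoothTransition.continuous.comp_aestronglyMeasurable
      (Lp.aestronglyMeasurable v.1))).smul (Lp.aestronglyMeasurable v.2))
      (Eventually.of_forall fun x => ?_)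
    rw [norm_smul]
    have h1 : ‖Real.smoothTransition ((z n).1 x) - Real.smoothTransition (v.1 x)‖ ≤ 1 := by
      rw [Real.norm_eq_abs, abs_le]
      have := Real.smoothTransition.le_one ((z n).1 x)
      have := Real.smoothTransition.le_one (v.1 x)
      have := Real.smoothTransition.nonneg ((z n).1 x)
      have := Real.smoothTransition.nonneg (v.1 x)
      constructor <;> linarith
    have h2 := norm_nonneg (v.2 x)
    nlinarith
  have hblim : Tendsto (fun n => ‖(hmb n).toLp _‖ ^ p) atTop (𝓝 0) := by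
    have e : ∀ n, ‖(hmb n).toLp _‖ ^ p = ∫ x in Ω, ‖(Real.smoothTransition ((z n).1 x)
      - Real.smoothTransition (v.1 x)) • v.2 x‖ ^ p := by
      intro n
      rw [lp_pow hp]
      refine integral_congr_ae ?_
      filter_upwards [(hmb n).coeFn_toLp] with x hx
      rw [hx]
    simp_rw [e]
    have h0 : (0 : ℝ) = ∫ x in Ω, (0 : ℝ) := by simp
    rw [h0]
    refine tendsto_integral_of_dominated_convergence (fun x => ‖v.2 x‖ ^ p) ?_
      (int_pow hp (Lp.memLp v.2)) ?_ ?_
    · intro n
      exact (int_pow hp (hmb n)).1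
    · intro n
      refine Eventually.of_forall fun x => ?_
      rw [Real.norm_of_nonneg (Real.rpow_nonneg (norm_nonneg _) _)]
      refine Real.rpow_le_rpow (norm_nonneg _) ?_ hp0.le
      rw [norm_smul]
      have h1 : ‖Real.smoothTransition ((z n).1 x) - Real.smoothTransition (v.1 x)‖ ≤ 1 := by
        rw [Real.norm_eq_abs, abs_le]
        have := Real.smoothTransition.le_one ((z n).1 x)
        have := Real.smoothTransition.le_one (v.1 x)
        have := Real.smoothTransition.nonneg ((z n).1 x)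
        have := Real.smoothTransition.nonneg (v.1 x)
        constructor <;> linarith
      have h2 := norm_nonneg (v.2 x)
      nlinarith
    · filter_upwards [hae] with x hx
      have h1 : Tendsto (fun n => Real.smoothTransition ((z n).1 x)) atTop
          (𝓝 (Real.smoothTransition (v.1 x))) :=
        (Real.smoothTransition.continuous.tendsto _).comp hx
      have h2 : Tendsto (fun n => (Real.smoothTransition ((z n).1 x)
          - Real.smoothTransition (v.1 x)) • v.2 x) atTop (𝓝 ((Real.smoothTransition (v.1 x)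
          - Real.smoothTransition (v.1 x)) • v.2 x)) :=
        (h1.sub tendsto_const_nhds).smul tendsto_const_nhds
      rw [sub_self, zero_smul] at h2
      have h3 : Tendsto (fun n => ‖(Real.smoothTransition ((z n).1 x)
          - Real.smoothTransition (v.1 x)) • v.2 x‖ ^ p) atTop (𝓝 (‖(0 : E N)‖ ^ p)) :=
        h2.norm.rpow_const (Or.inr hp0.le)
      rwa [norm_zero, Real.zero_rpow hp0.ne'] at h3
  have hblim' : Tendsto (fun n => ‖(hmb n).toLp _‖) atTop (𝓝 0) := by
    have h1 : Tendsto (fun n => (‖(hmb n).toLp _‖ ^ p) ^ (1 / p)) atTop (𝓝 ((0 : ℝ) ^ (1 / p))) :=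
      hblim.rpow_const (Or.inr (by positivity))
    rw [Real.zero_rpow (by positivity)] at h1
    refine h1.congr fun n => ?_
    rw [← Real.rpow_mul (norm_nonneg _), mul_one_div, div_self hp0.ne', Real.rpow_one]
  have hc2 : Tendsto (fun n => (chain (z n)).2) atTop (𝓝 (chain v).2) := by
    rw [tendsto_iff_norm_sub_tendsto_zero]
    have hbd : ∀ n, ‖(chain (z n)).2 - (chain v).2‖ ≤ ‖(z n).2 - v.2‖ + ‖(hmb n).toLp _‖ := by
      intro n
      have h1 : ‖(chain (z n)).2 - (chain v).2 - (hmb n).toLp _‖ ≤ ‖(z n).2 - v.2‖ := by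
        refine Lp.norm_le_norm_of_ae_le ?_
        filter_upwards [Lp.coeFn_sub ((chain (z n)).2 - (chain v).2) ((hmb n).toLp _),
          Lp.coeFn_sub (chain (z n)).2 (chain v).2, (hmb n).coeFn_toLp,
          (chain_mem (z n)).coeFn_toLp, (chain_mem v).coeFn_toLp, Lp.coeFn_sub (z n).2 v.2]
          with x h1 h2 h3 h4 h5 h6
        have h4' : (chain (z n)).2 x = Real.smoothTransition ((z n).1 x) • (z n).2 x := h4
        have h5' : (chain v).2 x = Real.smoothTransition (v.1 x) • v.2 x := h5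
        rw [h1, Pi.sub_apply, h2, Pi.sub_apply, h3, h4', h5', h6, Pi.sub_apply]
        have h7 : Real.smoothTransition ((z n).1 x) • (z n).2 x
            - Real.smoothTransition (v.1 x) • v.2 x
            - (Real.smoothTransition ((z n).1 x) - Real.smoothTransition (v.1 x)) • v.2 x
            = Real.smoothTransition ((z n).1 x) • ((z n).2 x - v.2 x) := by
          rw [sub_smul, smul_sub]
          abel
        rw [h7, norm_smul, Real.norm_of_nonneg (Real.smoothTransition.nonneg _)]
        have h8 := Real.smoothTransition.le_one ((z n).1 x)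
        have h9 := norm_nonneg ((z n).2 x - v.2 x)
        nlinarith
      calc ‖(chain (z n)).2 - (chain v).2‖
          = ‖((chain (z n)).2 - (chain v).2 - (hmb n).toLp _) + (hmb n).toLp _‖ := by
            rw [sub_add_cancel]
        _ ≤ ‖(chain (z n)).2 - (chain v).2 - (hmb n).toLp _‖ + ‖(hmb n).toLp _‖ :=
            norm_add_le _ _
        _ ≤ ‖(z n).2 - v.2‖ + ‖(hmb n).toLp _‖ := by linarith
    have h2 : Tendsto (fun n => ‖(z n).2 - v.2‖ + ‖(hmb n).toLp _‖) atTop (𝓝 (0 + 0)) :=
      (tendsto_iff_norm_sub_tendsto_zero.1 hz2).add hblim'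
    rw [add_zero] at h2
    exact squeeze_zero (fun n => norm_nonneg _) hbd h2
  have hlim : Tendsto (fun n => chain (z n)) atTop (𝓝 (chain v)) := hc1.prodMk_nhds hc2
  exact W0_closed.mem_of_tendsto hlim (Eventually.of_forall fun n =>
    (V0 Ω p).le_topologicalClosure (chain_V0 (hy (ns n))))

end Pool.Agent.V1180.MS
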