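import Pool.Agent.V1180.MSd

/-!
# Existence, comparison and domination of countably many solutions
-/

namespace Pool.Agent.V1180.MS

open MeasureTheory Filter Topology Set Metric
open scoped InnerProductSpace ENNReal ContDiff

section general

variable {α : Type*} [MeasurableSpace α] {μ : Measure α} {H : Type*} [NormedAddCommGroup H]
  [InnerProductSpace ℝ H] {p : ℝ}

theorem pA_memLp (hp : 1 < p) {G : α → H} (hG : MemLp G (ENNReal.ofReal p) μ) :
    MemLp (fun x => pA p (G x)) (ENNReal.ofReal (p / (p - 1))) μ := by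
  have h1 := hG.norm_rpow_div (ENNReal.ofReal (p - 1))
  rw [ENNReal.toReal_ofReal (by linarith), ← ENNReal.ofReal_div_of_pos (by linarith)] at h1
  refine h1.of_le ((pA_cont hp).comp_aestronglyMeasurable hG.1) (Eventually.of_forall fun x => ?_)
  rw [pA_norm hp, Real.norm_of_nonneg (Real.rpow_nonneg (norm_nonneg _) _)]

theorem pA_smul {c : ℝ} (hc : 0 < c) (b : H) : pA p (c • b) = c ^ (p - 1) • pA p b := by
  unfold pA
  rw [norm_smul, Real.norm_of_nonneg hc.le, Real.mul_rpow hc.le (norm_nonneg _), smul_smul,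
    smul_smul]
  congr 1
  have : c ^ (p - 1) = c ^ (p - 2) * c := by
    nth_rewrite 3 [← Real.rpow_one c]
    rw [← Real.rpow_add hc]
    congr 1
    ring
  rw [this]
  ring

/-- countable domination in `L^q` -/
theorem dominate {q : ℝ≥0∞} [Fact (1 ≤ q)] {F : ℕ → α → ℝ} (hF : ∀ k, MemLp (F k) q μ) :
    ∃ (G : α → ℝ) (ε : ℕ → ℝ), MemLp G q μ ∧ (∀ k, 0 < ε k) ∧
      ∀ k, ∀ᵐ x ∂μ, ε k * F k x ≤ G x := by
  set f : ℕ → Lp ℝ q μ := fun k => (hF k).norm.toLp _ with hf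
  set ε : ℕ → ℝ := fun k => (1 / 2) ^ k * (1 + ‖f k‖)⁻¹ with hε
  have hε0 : ∀ k, 0 < ε k := fun k => by positivity
  have hfn : ∀ k, 0 ≤ ε k • f k := by
    intro k
    rw [← Lp.coeFn_nonneg]
    filter_upwards [Lp.coeFn_smul (ε k) (f k), (hF k).norm.coeFn_toLp] with x hx hx'
    rw [hx, Pi.smul_apply, hf]
    simp only
    rw [hx']
    exact mul_nonneg (hε0 k).le (norm_nonneg _)
  have hs : Summable fun k => ε k • f k := by
    refine Summable.of_norm_bounded (g := fun k => (1 / 2 : ℝ) ^ k) (summable_geometric_of_lt_one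
      (by norm_num) (by norm_num)) fun k => ?_
    rw [norm_smul, Real.norm_of_nonneg (hε0 k).le, hε]
    simp only
    rw [mul_assoc, inv_mul_eq_div]
    have h1 : ‖f k‖ / (1 + ‖f k‖) ≤ 1 := by
      rw [div_le_one (by positivity)]
      linarith
    have h2 : (0 : ℝ) < (1 / 2) ^ k := by positivity
    nlinarith
  refine ⟨fun x => (∑' k, ε k • f k : Lp ℝ q μ) x, ε, Lp.memLp _, hε0, fun k => ?_⟩
  have h1 : ε k • f k ≤ ∑' k, ε k • f k := hs.le_tsum k fun j _ => hfn j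
  rw [← Lp.coeFn_le] at h1
  filter_upwards [h1, Lp.coeFn_smul (ε k) (f k), (hF k).norm.coeFn_toLp] with x hx hx' hx''
  refine le_trans ?_ hx
  rw [hx', Pi.smul_apply, hf]
  simp only
  rw [hx'', smul_eq_mul]
  exact mul_le_mul_of_nonneg_left (Real.le_norm_self _) (hε0 k).le

end general

variable {N : ℕ} {Ω : Set (E N)} {p : ℝ} [Fact (1 ≤ ENNReal.ofReal p)]

/-- weak equation for all pairs in `W₀^{1,p}` -/
def Sol (Ω : Set (E N)) (p : ℝ) [Fact (1 ≤ ENNReal.ofReal p)] (G : E N → E N) (F : E N → ℝ) :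
    Prop :=
  ∀ v ∈ W0 Ω p, ∫ x in Ω, ⟪pA p (G x), v.2 x⟫_ℝ = ∫ x in Ω, F x * v.1 x

theorem sol_ext (hp : 1 < p) {G : E N → E N}
    (hG : MemLp G (ENNReal.ofReal p) (volume.restrict Ω)) {F : E N → ℝ}
    (hF : MemLp F (ENNReal.ofReal (p / (p - 1))) (volume.restrict Ω))
    (h : ∀ φ, IsTest Ω φ → ∫ x in Ω, ⟪pA p (G x), gradient φ x⟫_ℝ = ∫ x in Ω, F x * φ x) :
    Sol Ω p G F := by
  have hpq : p.HolderConjugate (p / (p - 1)) := Real.HolderConjugate.conjExponent hp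
  haveI hc : ENNReal.HolderConjugate (ENNReal.ofReal (p / (p - 1))) (ENNReal.ofReal p) :=
    hpq.symm.ennrealOfReal
  haveI hf : Fact (1 ≤ ENNReal.ofReal (p / (p - 1))) := ⟨by
    rw [ENNReal.one_le_ofReal]
    exact hpq.symm.lt.le⟩
  set Λ₁ := (innerSL ℝ : E N →L[ℝ] E N →L[ℝ] ℝ).lpPairing (volume.restrict Ω)
    (ENNReal.ofReal (p / (p - 1))) (ENNReal.ofReal p) ((pA_memLp hp hG).toLp _) with hΛ₁
  set Λ₂ := (ContinuousLinearMap.mul ℝ ℝ).lpPairing (volume.restrict Ω)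
    (ENNReal.ofReal (p / (p - 1))) (ENNReal.ofReal p) (hF.toLp _) with hΛ₂
  have e₁ : ∀ f : Lp (E N) (ENNReal.ofReal p) (volume.restrict Ω),
      Λ₁ f = ∫ x in Ω, ⟪pA p (G x), f x⟫_ℝ := by
    intro f
    rw [hΛ₁, ContinuousLinearMap.lpPairing_eq_integral]
    refine integral_congr_ae ?_
    filter_upwards [(pA_memLp hp hG).coeFn_toLp] with x hx
    rw [hx]
    rfl
  have e₂ : ∀ f : Lp ℝ (ENNReal.ofReal p) (volume.restrict Ω),
      Λ₂ f = ∫ x in Ω, F x * f x := by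
    intro f
    rw [hΛ₂, ContinuousLinearMap.lpPairing_eq_integral]
    refine integral_congr_ae ?_
    filter_upwards [hF.coeFn_toLp] with x hx
    rw [hx]
    rfl
  have hcl : IsClosed {v : Lp ℝ (ENNReal.ofReal p) (volume.restrict Ω) ×
      Lp (E N) (ENNReal.ofReal p) (volume.restrict Ω) | Λ₁ v.2 = Λ₂ v.1} :=
    isClosed_eq (Λ₁.continuous.comp continuous_snd) (Λ₂.continuous.comp continuous_fst)
  have hsub : (V0 Ω p : Set (Lp ℝ (ENNReal.ofReal p) (volume.restrict Ω) ×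
      Lp (E N) (ENNReal.ofReal p) (volume.restrict Ω))) ⊆ {v | Λ₁ v.2 = Λ₂ v.1} := by
    rintro v ⟨φ, hφ, h1, h2⟩
    change Λ₁ v.2 = Λ₂ v.1
    rw [e₁, e₂]
    have h3 : ∫ x in Ω, ⟪pA p (G x), v.2 x⟫_ℝ = ∫ x in Ω, ⟪pA p (G x), gradient φ x⟫_ℝ := by
      refine integral_congr_ae ?_
      filter_upwards [h2] with x hx
      rw [hx]
    have h4 : ∫ x in Ω, F x * v.1 x = ∫ x in Ω, F x * φ x := by
      refine integral_congr_ae ?_
      filter_upwards [h1] with x hx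
      rw [hx]
    rw [h3, h4, h φ hφ]
  intro v hv
  have h1 : v ∈ closure (V0 Ω p : Set (Lp ℝ (ENNReal.ofReal p) (volume.restrict Ω) ×
      Lp (E N) (ENNReal.ofReal p) (volume.restrict Ω))) := by
    rw [← Submodule.topologicalClosure_coe]
    exact hv
  have h2 : Λ₁ v.2 = Λ₂ v.1 := closure_minimal hsub hcl h1
  rw [← e₁, ← e₂, h2]

/-- Existence for the Dirichlet problem. -/
theorem exists_sol (hN : 0 < N) {R : ℝ} (hR : 0 ≤ R) (hΩ : Ω ⊆ ball 0 R) (hp : 1 < p)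
    {F : E N → ℝ} (hF : MemLp F (ENNReal.ofReal (p / (p - 1))) (volume.restrict Ω)) :
    ∃ z ∈ W0 Ω p, Sol Ω p z.2 F := by
  have hpq : p.HolderConjugate (p / (p - 1)) := Real.HolderConjugate.conjExponent hp
  haveI hc : ENNReal.HolderConjugate (ENNReal.ofReal (p / (p - 1))) (ENNReal.ofReal p) :=
    hpq.symm.ennrealOfReal
  haveI hf : Fact (1 ≤ ENNReal.ofReal (p / (p - 1))) := ⟨by
    rw [ENNReal.one_le_ofReal]
    exact hpq.symm.lt.le⟩
  set Λ₂ := (ContinuousLinearMap.mul ℝ ℝ).lpPairing (volume.restrict Ω)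
    (ENNReal.ofReal (p / (p - 1))) (ENNReal.ofReal p) (hF.toLp _) with hΛ₂
  have e₂ : ∀ f : Lp ℝ (ENNReal.ofReal p) (volume.restrict Ω),
      Λ₂ f = ∫ x in Ω, F x * f x := by
    intro f
    rw [hΛ₂, ContinuousLinearMap.lpPairing_eq_integral]
    refine integral_congr_ae ?_
    filter_upwards [hF.coeFn_toLp] with x hx
    rw [hx]
    rfl
  have hp0 : 0 < p := by linarith
  obtain ⟨z, hz, hmin⟩ := exists_min hp (W0 Ω p) W0_closed (K := p * R) (by positivity)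
    (W0_poincare hN hR hΩ hp) Λ₂
  refine ⟨z, hz, fun v hv => ?_⟩
  rw [← e₂]
  exact euler hp (W0 Ω p) Λ₂ hz hmin v hv

/-- The comparison principle. -/
theorem comparison (hN : 0 < N) {R : ℝ} (hR : 0 ≤ R) (hΩ : Ω ⊆ ball 0 R) (hp : 1 < p)
    {z₁ z₂ : Lp ℝ (ENNReal.ofReal p) (volume.restrict Ω) ×
      Lp (E N) (ENNReal.ofReal p) (volume.restrict Ω)} (hz₁ : z₁ ∈ W0 Ω p) (hz₂ : z₂ ∈ W0 Ω p)
    {F₁ F₂ : E N → ℝ} (hF₁ : MemLp F₁ (ENNReal.ofReal (p / (p - 1))) (volume.restrict Ω))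
    (hF₂ : MemLp F₂ (ENNReal.ofReal (p / (p - 1))) (volume.restrict Ω))
    (h₁ : Sol Ω p z₁.2 F₁) (h₂ : Sol Ω p z₂.2 F₂)
    (hF : ∀ᵐ x ∂(volume.restrict Ω), F₂ x ≤ F₁ x) :
    ∀ᵐ x ∂(volume.restrict Ω), z₂.1 x ≤ z₁.1 x := by
  have hpq : p.HolderConjugate (p / (p - 1)) := Real.HolderConjugate.conjExponent hp
  haveI hc : ENNReal.HolderConjugate (ENNReal.ofReal (p / (p - 1))) (ENNReal.ofReal p) :=
    hpq.symm.ennrealOfReal
  have hw : z₂ - z₁ ∈ W0 Ω p := (W0 Ω p).sub_mem hz₂ hz₁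
  set w := z₂ - z₁ with hwdef
  set v := chain w with hvdef
  have hv : v ∈ W0 Ω p := chain_W0 hp hw
  have hv1 : ∀ᵐ x ∂(volume.restrict Ω), v.1 x = psi (w.1 x) := by
    filter_upwards [psi_lip.coeFn_compLp psi_zero w.1] with x hx
    exact hx
  have hv2 : ∀ᵐ x ∂(volume.restrict Ω), v.2 x = Real.smoothTransition (w.1 x) • w.2 x := by
    filter_upwards [(chain_mem w).coeFn_toLp] with x hx
    exact hx
  have hw2 : ∀ᵐ x ∂(volume.restrict Ω), w.2 x = z₂.2 x - z₁.2 x := by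
    filter_upwards [Lp.coeFn_sub z₂.2 z₁.2] with x hx
    exact hx
  have hw1 : ∀ᵐ x ∂(volume.restrict Ω), w.1 x = z₂.1 x - z₁.1 x := by
    filter_upwards [Lp.coeFn_sub z₂.1 z₁.1] with x hx
    exact hx
  have hi1 := int_pair hp (Lp.memLp z₁.2) (Lp.memLp v.2)
  have hi2 := int_pair hp (Lp.memLp z₂.2) (Lp.memLp v.2)
  have hj1 : Integrable (fun x => F₁ x * v.1 x) (volume.restrict Ω) :=
    hF₁.integrable_mul (Lp.memLp v.1)
  have hj2 : Integrable (fun x => F₂ x * v.1 x) (volume.restrict Ω) :=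
    hF₂.integrable_mul (Lp.memLp v.1)
  have e1 : ∫ x in Ω, (⟪pA p (z₂.2 x), v.2 x⟫_ℝ - ⟪pA p (z₁.2 x), v.2 x⟫_ℝ)
      = ∫ x in Ω, (F₂ x * v.1 x - F₁ x * v.1 x) := by
    rw [integral_sub hi2 hi1, integral_sub hj2 hj1, h₁ v hv, h₂ v hv]
  have e2 : ∫ x in Ω, (F₂ x * v.1 x - F₁ x * v.1 x) ≤ 0 := by
    refine integral_nonpos_of_ae ?_
    filter_upwards [hF, hv1] with x hx hx'
    rw [hx', Pi.zero_apply]
    have := psi_nonneg (w.1 x)
    nlinarith
  have hnn : 0 ≤ᵐ[volume.restrict Ω]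
      fun x => ⟪pA p (z₂.2 x), v.2 x⟫_ℝ - ⟪pA p (z₁.2 x), v.2 x⟫_ℝ := by
    filter_upwards [hv2, hw2] with x hx hx'
    rw [hx, hx', ← inner_sub_left, inner_smul_right, Pi.zero_apply]
    exact mul_nonneg (Real.smoothTransition.nonneg _) (pA_mono hp _ _)
  have e3 : ∫ x in Ω, (⟪pA p (z₂.2 x), v.2 x⟫_ℝ - ⟪pA p (z₁.2 x), v.2 x⟫_ℝ) = 0 :=
    le_antisymm (e1.le.trans e2) (integral_nonneg_of_ae hnn)
  have h0 := (integral_eq_zero_iff_of_nonneg_ae hnn (hi2.sub hi1)).1 e3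
  have hv20 : v.2 = 0 := by
    rw [Lp.eq_zero_iff_ae_eq_zero]
    filter_upwards [h0, hv2, hw2] with x hx hx' hx''
    rw [hx', hx'', ← inner_sub_left, inner_smul_right, Pi.zero_apply] at hx
    rw [hx', hx'', Pi.zero_apply]
    rcases mul_eq_zero.1 hx with h3 | h3
    · rw [h3, zero_smul]
    · rw [pA_strict hp h3, sub_self, smul_zero]
  have hv10 : v.1 = 0 := by
    have h3 := W0_poincare hN hR hΩ hp v hv
    rw [hv20, norm_zero, mul_zero] at h3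
    exact norm_le_zero_iff.1 h3
  filter_upwards [hv1, hw1, (Lp.eq_zero_iff_ae_eq_zero.1 hv10)] with x hx hx' hx''
  rw [hx, Pi.zero_apply] at hx''
  by_contra hlt
  rw [not_le] at hlt
  have h4 : 0 < w.1 x := by rw [hx']; linarith
  exact absurd hx'' (psi_pos h4).ne'

theorem Sol.smul (hp : 1 < p) {z : Lp ℝ (ENNReal.ofReal p) (volume.restrict Ω) ×
      Lp (E N) (ENNReal.ofReal p) (volume.restrict Ω)} {F : E N → ℝ} (h : Sol Ω p z.2 F) {c : ℝ}
    (hc : 0 < c) : Sol Ω p (c • z).2 (fun x => c ^ (p - 1) * F x) := by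
  intro v hv
  have h1 := h v hv
  have h2 : ∫ x in Ω, ⟪pA p ((c • z).2 x), v.2 x⟫_ℝ
      = c ^ (p - 1) * ∫ x in Ω, ⟪pA p (z.2 x), v.2 x⟫_ℝ := by
    rw [← integral_const_mul]
    refine integral_congr_ae ?_
    filter_upwards [Lp.coeFn_smul c z.2] with x hx
    have hx' : (c • z).2 x = c • z.2 x := hx
    rw [hx', pA_smul hc, inner_smul_left]
    rfl
  have h3 : ∫ x in Ω, c ^ (p - 1) * F x * v.1 x = c ^ (p - 1) * ∫ x in Ω, F x * v.1 x := by
    rw [← integral_const_mul]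
    refine integral_congr_ae (Eventually.of_forall fun x => ?_)
    simp only
    ring
  rw [h2, h3, h1]

/-- A countable family of solutions is dominated, up to factors, by one solution. -/
theorem dominating (hN : 0 < N) {R : ℝ} (hR : 0 ≤ R) (hΩ : Ω ⊆ ball 0 R) (hp : 1 < p)
    {z : ℕ → Lp ℝ (ENNReal.ofReal p) (volume.restrict Ω) ×
      Lp (E N) (ENNReal.ofReal p) (volume.restrict Ω)} (hz : ∀ k, z k ∈ W0 Ω p)
    {F : ℕ → E N → ℝ}
    (hF : ∀ k, MemLp (F k) (ENNReal.ofReal (p / (p - 1))) (volume.restrict Ω))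
    (h : ∀ k, Sol Ω p (z k).2 (F k)) :
    ∃ (v : Lp ℝ (ENNReal.ofReal p) (volume.restrict Ω) ×
      Lp (E N) (ENNReal.ofReal p) (volume.restrict Ω)) (F₀ : E N → ℝ) (c : ℕ → ℝ),
      v ∈ W0 Ω p ∧ MemLp F₀ (ENNReal.ofReal (p / (p - 1))) (volume.restrict Ω) ∧
      Sol Ω p v.2 F₀ ∧ (∀ k, 0 < c k) ∧
      ∀ k, ∀ᵐ x ∂(volume.restrict Ω), c k * (z k).1 x ≤ v.1 x := by
  have hpq : p.HolderConjugate (p / (p - 1)) := Real.HolderConjugate.conjExponent hp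
  haveI hf : Fact (1 ≤ ENNReal.ofReal (p / (p - 1))) := ⟨by
    rw [ENNReal.one_le_ofReal]
    exact hpq.symm.lt.le⟩
  have hp1 : 0 < p - 1 := by linarith
  obtain ⟨F₀, ε, hF₀, hε, hdom⟩ := dominate hF
  obtain ⟨v, hv, hsol⟩ := exists_sol hN hR hΩ hp hF₀
  refine ⟨v, F₀, fun k => ε k ^ (1 / (p - 1)), hv, hF₀, hsol,
    fun k => Real.rpow_pos_of_pos (hε k) _, fun k => ?_⟩
  have hc : 0 < ε k ^ (1 / (p - 1)) := Real.rpow_pos_of_pos (hε k) _
  have hce : (ε k ^ (1 / (p - 1))) ^ (p - 1) = ε k := by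
    rw [← Real.rpow_mul (hε k).le, one_div, inv_mul_cancel₀ hp1.ne', Real.rpow_one]
  have h1 := (h k).smul hp hc
  rw [hce] at h1
  have h2 := comparison hN hR hΩ hp hv ((W0 Ω p).smul_mem _ (hz k)) hF₀
    ((hF k).const_mul (ε k)) hsol h1 (hdom k)
  filter_upwards [h2, Lp.coeFn_smul (ε k ^ (1 / (p - 1))) (z k).1] with x hx hx'
  have hx'' : (ε k ^ (1 / (p - 1)) • z k).1 x = ε k ^ (1 / (p - 1)) * (z k).1 x := hx'
  rwa [hx''] at hx

end Pool.Agent.V1180.MS
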