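import Pool.Agent.V1180.Lap

set_option autoImplicit false

/-! Mollification tools. -/

open Set Filter Topology MeasureTheory InnerProductSpace Laplacian
open scoped ContDiff ENNReal Convolution

namespace Pool.Agent.V1180

section Translate

variable {E : Type*} [NormedAddCommGroup E] [NormedSpace ℝ E] [FiniteDimensional ℝ E]
  [MeasurableSpace E] [BorelSpace E] (μ : Measure E) [μ.IsAddHaarMeasure]

/-- continuity of translations in `L^1` -/
theorem translate_L1 {f : E → ℝ} (hf : Integrable f μ) :
    Tendsto (fun h => ∫ x, ‖f (x - h) - f x‖ ∂μ) (𝓝 0) (𝓝 0) := by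
  rw [Metric.tendsto_nhds]
  intro ε hε
  obtain ⟨g, hgs, hg1, hgc, hgi⟩ :=
    hf.exists_hasCompactSupport_integral_sub_le (show 0 < ε / 4 by positivity)
  -- uniform continuity of g
  have huc := hgs.uniformContinuous_of_continuous hgc
  set K : Set E := Metric.cthickening 1 (tsupport g) with hK
  have hKc : IsCompact K := by
    apply Metric.isCompact_of_isClosed_isBounded Metric.isClosed_cthickening
    exact hgs.isBounded.cthickening
  have hKm : μ K < (⊤ : ℝ≥0∞) := hKc.measure_lt_top
  set M := μ.real K with hM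
  have hM0 : 0 ≤ M := measureReal_nonneg
  rw [Metric.uniformContinuous_iff] at huc
  obtain ⟨δ, hδ, hδ'⟩ := huc (ε / (4 * (M + 1))) (by positivity)
  filter_upwards [Metric.ball_mem_nhds (0:E) (show 0 < min δ 1 by positivity)] with h hh
  rw [mem_ball_zero_iff] at hh
  have hh1 : ‖h‖ < δ := lt_of_lt_of_le hh (min_le_left _ _)
  have hh2 : ‖h‖ < 1 := lt_of_lt_of_le hh (min_le_right _ _)
  have hgb : ∀ x, ‖g (x - h) - g x‖ ≤ K.indicator (fun _ => ε / (4 * (M + 1))) x := by
    intro x
    by_cases hx : x ∈ K
    · rw [indicator_of_mem hx]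
      have := hδ' (a := x - h) (b := x) (by simpa [dist_eq_norm] using hh1)
      rw [dist_eq_norm] at this
      exact this.le
    · rw [indicator_of_notMem hx]
      have h1 : g x = 0 := by
        by_contra hne
        apply hx
        exact Metric.self_subset_cthickening _ (subset_tsupport _ hne)
      have h2 : g (x - h) = 0 := by
        by_contra hne
        apply hx
        apply Metric.mem_cthickening_of_dist_le x (x - h) 1 _ (subset_tsupport _ hne)
        rw [dist_eq_norm]
        simpa using hh2.le
      simp [h1, h2]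
  have hgi' : Integrable (fun x => g (x - h)) μ := hgi.comp_sub_right h
  have hfi' : Integrable (fun x => f (x - h)) μ := hf.comp_sub_right h
  have hindi : Integrable (K.indicator fun _ => ε / (4 * (M + 1))) μ :=
    (integrable_indicator_iff hKc.measurableSet).2 (integrableOn_const hKm.ne)
  have h1 : ∫ x, ‖g (x - h) - g x‖ ∂μ ≤ ε / 4 := by
    calc ∫ x, ‖g (x - h) - g x‖ ∂μ ≤ ∫ x, K.indicator (fun _ => ε / (4 * (M + 1))) x ∂μ := by
          apply integral_mono (hgi'.sub hgi).norm hindi
          exact hgb
      _ = M * (ε / (4 * (M + 1))) := by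
          rw [integral_indicator_const _ hKc.measurableSet, smul_eq_mul]
      _ ≤ (M + 1) * (ε / (4 * (M + 1))) := by gcongr; linarith
      _ = ε / 4 := by field_simp
  have h2 : ∫ x, ‖f (x - h) - g (x - h)‖ ∂μ = ∫ x, ‖f x - g x‖ ∂μ :=
    integral_sub_right_eq_self (fun x => ‖f x - g x‖) h
  have i1 : Integrable (fun x => ‖f (x - h) - g (x - h)‖) μ := (hfi'.sub hgi').norm
  have i2 : Integrable (fun x => ‖g (x - h) - g x‖) μ := (hgi'.sub hgi).norm
  have i12 : Integrable (fun x => ‖f (x - h) - g (x - h)‖ + ‖g (x - h) - g x‖) μ := i1.add i2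
  have i3 : Integrable (fun x => ‖f x - g x‖) μ := (hf.sub hgi).norm
  have i4 : Integrable (fun x => ‖f (x - h) - f x‖) μ := (hfi'.sub hf).norm
  have h3 : ∫ x, ‖f (x - h) - f x‖ ∂μ ≤ ∫ x, ‖f (x - h) - g (x - h)‖ ∂μ +
      ∫ x, ‖g (x - h) - g x‖ ∂μ + ∫ x, ‖f x - g x‖ ∂μ := by
    rw [← integral_add i1 i2, ← integral_add i12 i3]
    apply integral_mono i4 (i12.add i3)
    intro x
    calc ‖f (x - h) - f x‖ = ‖(f (x - h) - g (x - h)) + (g (x - h) - g x) + (g x - f x)‖ := by
          congr 1; ring
      _ ≤ ‖f (x - h) - g (x - h)‖ + ‖g (x - h) - g x‖ + ‖g x - f x‖ := norm_add₃_le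
      _ = _ := by rw [norm_sub_rev (g x)]; rfl
  rw [dist_zero_right, Real.norm_of_nonneg (integral_nonneg fun _ => norm_nonneg _)]
  rw [h2] at h3
  linarith

end Translate

section Mollify

variable {E : Type*} [NormedAddCommGroup E] [InnerProductSpace ℝ E] [FiniteDimensional ℝ E]
  [MeasurableSpace E] [BorelSpace E]

/-- the radius `1/(n+1)` -/
noncomputable def rad (n : ℕ) : ℝ := 1 / ((n : ℝ) + 1)

theorem rad_pos (n : ℕ) : 0 < rad n := by unfold rad; positivity

theorem rad_tendsto : Tendsto rad atTop (𝓝 0) := tendsto_one_div_add_atTop_nhds_zero_nat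

/-- bump functions of radius `1/(n+1)` -/
noncomputable def bmp (E : Type*) [NormedAddCommGroup E] [InnerProductSpace ℝ E] (n : ℕ) :
    ContDiffBump (0 : E) :=
  ⟨rad n / 2, rad n, half_pos (rad_pos n), half_lt_self (rad_pos n)⟩

/-- the mollifier -/
noncomputable def ker (n : ℕ) (x : E) : ℝ := (bmp E n).normed volume x

theorem ker_contDiff (n : ℕ) : ContDiff ℝ ∞ (ker n : E → ℝ) := (bmp E n).contDiff_normed

theorem ker_nonneg (n : ℕ) (x : E) : 0 ≤ ker n x := (bmp E n).nonneg_normed x

theorem ker_compact (n : ℕ) : HasCompactSupport (ker n : E → ℝ) :=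
  (bmp E n).hasCompactSupport_normed

theorem ker_tsupport (n : ℕ) : tsupport (ker n : E → ℝ) = Metric.closedBall 0 (rad n) :=
  (bmp E n).tsupport_normed_eq

theorem ker_integral (n : ℕ) : ∫ x : E, ker n x = 1 := (bmp E n).integral_normed

theorem ker_zero {n : ℕ} {x : E} (hx : rad n ≤ ‖x‖) : ker n x = 0 := by
  have h := (bmp E n).support_normed_eq (μ := volume)
  by_contra hne
  have : x ∈ Function.support ((bmp E n).normed volume) := hne
  rw [h, mem_ball_zero_iff] at this
  exact absurd this (not_lt.2 hx)

/-- mollification of a function -/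
noncomputable def moll (n : ℕ) (f : E → ℝ) (x : E) : ℝ := ∫ h, ker n h * f (x - h)

theorem moll_eq_conv (n : ℕ) (f : E → ℝ) :
    moll n f = ((ker n : E → ℝ) ⋆[ContinuousLinearMap.lsmul ℝ ℝ, volume] f) := by
  ext x
  simp [moll, convolution]

theorem moll_L1 {f : E → ℝ} (hf : Integrable f) :
    Tendsto (fun n => ∫ x, |moll n f x - f x|) atTop (𝓝 0) := by
  rw [Metric.tendsto_atTop]
  intro ε hε
  have ht := translate_L1 volume hf
  rw [Metric.tendsto_nhds_nhds] at ht
  obtain ⟨δ, hδ, ht⟩ := ht (ε / 2) (by positivity)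
  have hr := rad_tendsto
  rw [Metric.tendsto_atTop] at hr
  obtain ⟨n0, hn0⟩ := hr δ hδ
  refine ⟨n0, fun n hn => ?_⟩
  have hrad : rad n < δ := by
    have := hn0 n hn
    rwa [dist_zero_right, Real.norm_of_nonneg (rad_pos n).le] at this
  have hki : Integrable (ker n : E → ℝ) :=
    (ker_contDiff n).continuous.integrable_of_hasCompactSupport (ker_compact n)
  have hI1 : Integrable (fun p : E × E => ker n p.2 * f (p.1 - p.2)) (volume.prod volume) := by
    have := hki.convolution_integrand (ContinuousLinearMap.lsmul ℝ ℝ) hf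
    simpa using this
  have hI2 : Integrable (fun p : E × E => ker n p.2 * f p.1) (volume.prod volume) := by
    have := hf.mul_prod hki
    refine this.congr (ae_of_all _ fun p => ?_)
    simp [mul_comm]
  have hI3 : Integrable (fun p : E × E => ker n p.2 * |f (p.1 - p.2) - f p.1|)
      (volume.prod volume) := by
    refine (hI1.sub hI2).norm.congr (ae_of_all _ fun p => ?_)
    simp only [Pi.sub_apply, Real.norm_eq_abs]
    rw [← mul_sub, abs_mul, abs_of_nonneg (ker_nonneg n _)]
  have hI3' : Integrable (fun x => ∫ h, ker n h * |f (x - h) - f x|) := hI3.integral_prod_left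
  have hswap : ∫ x, ∫ h, ker n h * |f (x - h) - f x| = ∫ h, ∫ x, ker n h * |f (x - h) - f x| :=
    integral_integral_swap hI3
  have hae : ∀ᵐ x : E, |moll n f x - f x| ≤ ∫ h, ker n h * |f (x - h) - f x| := by
    filter_upwards [hI1.prod_right_ae, hI2.prod_right_ae] with x h1 h2
    have : moll n f x - f x = ∫ h, (ker n h * f (x - h) - ker n h * f x) := by
      rw [integral_sub h1 h2, integral_mul_const, ker_integral, one_mul]
      rfl
    rw [this]
    refine (abs_integral_le_integral_abs).trans (le_of_eq ?_)
    congr 1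
    ext h
    rw [← mul_sub, abs_mul, abs_of_nonneg (ker_nonneg n _)]
  have hmi : Integrable (fun x => |moll n f x - f x|) := by
    have : Integrable (fun x => moll n f x) := hI1.integral_prod_left
    exact (this.sub hf).abs
  have hfin : ∫ x, |moll n f x - f x| ≤ ε / 2 := by
    calc ∫ x, |moll n f x - f x| ≤ ∫ x, ∫ h, ker n h * |f (x - h) - f x| :=
          integral_mono_ae hmi hI3' hae
      _ = ∫ h, ∫ x, ker n h * |f (x - h) - f x| := hswap
      _ ≤ ∫ h : E, ker n h * (ε / 2) := by
          have hint : Integrable (fun h => ∫ x, ker n h * |f (x - h) - f x|) :=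
            hI3.integral_prod_right
          apply integral_mono hint (hki.mul_const _)
          intro h
          simp only
          rw [integral_const_mul]
          by_cases hh : rad n ≤ ‖h‖
          · rw [ker_zero hh]; simp
          · push Not at hh
            apply mul_le_mul_of_nonneg_left _ (ker_nonneg n h)
            have := ht (x := h) (by rw [dist_zero_right]; linarith)
            rw [dist_zero_right, Real.norm_of_nonneg (integral_nonneg fun _ => norm_nonneg _)]
              at this
            exact this.le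
      _ = ε / 2 := by rw [integral_mul_const, ker_integral, one_mul]
  rw [dist_zero_right, Real.norm_of_nonneg (integral_nonneg fun _ => abs_nonneg _)]
  linarith

end Mollify

end Pool.Agent.V1180
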