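import Pool.Agent.V1180.Moll

set_option autoImplicit false

/-! Derivatives of convolutions with smooth kernels, integration by parts. -/

open Set Filter Topology MeasureTheory InnerProductSpace Laplacian
open scoped ContDiff ENNReal Convolution

namespace Pool.Agent.V1180

variable {E : Type*} [NormedAddCommGroup E] [InnerProductSpace ℝ E] [FiniteDimensional ℝ E]
  [MeasurableSpace E] [BorelSpace E]

/-- convolution with a kernel -/
noncomputable def cv (k f : E → ℝ) (x : E) : ℝ := ∫ h, k h * f (x - h)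

theorem cv_eq_conv (k f : E → ℝ) :
    cv k f = (k ⋆[ContinuousLinearMap.lsmul ℝ ℝ, volume] f) := by
  ext x
  simp [cv, convolution]

theorem cv_contDiff {k f : E → ℝ} (hk : ContDiff ℝ ∞ k) (hkc : HasCompactSupport k)
    (hf : LocallyIntegrable f) : ContDiff ℝ ∞ (cv k f) := by
  rw [cv_eq_conv]
  exact hkc.contDiff_convolution_left _ hk hf

theorem cv_fderiv {k f : E → ℝ} (hk : ContDiff ℝ ∞ k) (hkc : HasCompactSupport k)
    (hf : LocallyIntegrable f) (x v : E) :
    fderiv ℝ (cv k f) x v = cv (fun y => fderiv ℝ k y v) f x := by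
  have h1 := hkc.hasFDerivAt_convolution_left (ContinuousLinearMap.lsmul ℝ ℝ)
    (hk.of_le (by norm_cast)) hf x
  rw [cv_eq_conv, h1.fderiv]
  have hc : Continuous (fderiv ℝ k) := hk.continuous_fderiv (by simp)
  have h2 := (hkc.fderiv (𝕜 := ℝ)).convolutionExists_left
    ((ContinuousLinearMap.lsmul ℝ ℝ : ℝ →L[ℝ] ℝ →L[ℝ] ℝ).precompL E) hc hf x
  rw [convolution_def, ContinuousLinearMap.integral_apply h2]
  simp [cv]

theorem cv_integrable {k f : E → ℝ} (hk : Continuous k) (hkc : HasCompactSupport k)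
    (hf : LocallyIntegrable f) (x : E) : Integrable (fun h => k h * f (x - h)) := by
  have := hkc.convolutionExists_left (ContinuousLinearMap.lsmul ℝ ℝ) hk hf x
  simpa [ConvolutionExistsAt] using this

theorem fderiv_apply_smooth {k : E → ℝ} (hk : ContDiff ℝ ∞ k) (v : E) :
    ContDiff ℝ ∞ (fun y => fderiv ℝ k y v) := by
  have : ContDiff ℝ ∞ (fderiv ℝ k) := hk.fderiv_right (by simp)
  exact this.clm_apply contDiff_const

theorem fderiv_apply_compact {k : E → ℝ} (hkc : HasCompactSupport k) (v : E) :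
    HasCompactSupport (fun y => fderiv ℝ k y v) := by
  exact (hkc.fderiv (𝕜 := ℝ)).comp_left (g := fun L : E →L[ℝ] ℝ => L v) (by simp)

theorem lap_smooth {k : E → ℝ} (hk : ContDiff ℝ ∞ k) : ContDiff ℝ ∞ (Δ k) := by
  have : Δ k = fun x => ∑ i, fderiv ℝ (fun y => fderiv ℝ k y (stdOrthonormalBasis ℝ E i)) x
      (stdOrthonormalBasis ℝ E i) := by
    ext x
    exact lap_eq_sum _ (hk.of_le (by norm_cast)).contDiffAt
  rw [this]
  exact ContDiff.sum fun i _ => fderiv_apply_smooth (fderiv_apply_smooth hk _) _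

theorem lap_tsupport (k : E → ℝ) (hk : ContDiff ℝ ∞ k) : tsupport (Δ k) ⊆ tsupport k := by
  have : Δ k = fun x => ∑ i, fderiv ℝ (fun y => fderiv ℝ k y (stdOrthonormalBasis ℝ E i)) x
      (stdOrthonormalBasis ℝ E i) := by
    ext x
    exact lap_eq_sum _ (hk.of_le (by norm_cast)).contDiffAt
  apply closure_minimal _ isClosed_closure
  intro x hx
  by_contra hcon
  apply hx
  have h0 : k =ᶠ[𝓝 x] 0 := notMem_tsupport_iff_eventuallyEq.1 hcon
  have : Δ k =ᶠ[𝓝 x] Δ (0 : E → ℝ) := by
    exact laplacian_congr_nhds h0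
  rw [this.self_of_nhds]
  have h3 : Δ (fun _ : E => (0:ℝ)) = 0 := laplacian_const
  exact congrFun h3 x

theorem lap_compact {k : E → ℝ} (hk : ContDiff ℝ ∞ k) (hkc : HasCompactSupport k) :
    HasCompactSupport (Δ k) := hkc.of_isClosed_subset isClosed_closure (lap_tsupport k hk)

theorem cv_lap {k f : E → ℝ} (hk : ContDiff ℝ ∞ k) (hkc : HasCompactSupport k)
    (hf : LocallyIntegrable f) (x : E) :
    Δ (cv k f) x = cv (Δ k) f x := by
  rw [lap_eq_sum (stdOrthonormalBasis ℝ E)
    ((cv_contDiff hk hkc hf).of_le (by norm_cast)).contDiffAt]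
  have h1 : ∀ v, (fun y => fderiv ℝ (cv k f) y v) = cv (fun y => fderiv ℝ k y v) f := by
    intro v
    ext y
    exact cv_fderiv hk hkc hf y v
  simp_rw [h1]
  have h2 : ∀ i, fderiv ℝ (cv (fun y => fderiv ℝ k y (stdOrthonormalBasis ℝ E i)) f) x
      (stdOrthonormalBasis ℝ E i) = ∫ h, fderiv ℝ (fun y => fderiv ℝ k y
        (stdOrthonormalBasis ℝ E i)) h (stdOrthonormalBasis ℝ E i) * f (x - h) := by
    intro i
    rw [cv_fderiv (fderiv_apply_smooth hk _) (fderiv_apply_compact hkc _) hf]
    rfl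
  simp_rw [h2]
  rw [← integral_finsetSum]
  · unfold cv
    congr 1
    ext h
    rw [lap_eq_sum (stdOrthonormalBasis ℝ E) (hk.of_le (by norm_cast)).contDiffAt,
      Finset.sum_mul]
  · intro i _
    exact cv_integrable (fderiv_apply_smooth (fderiv_apply_smooth hk _) _).continuous
      (fderiv_apply_compact (fderiv_apply_compact hkc _) _) hf x

/-- integration by parts twice -/
theorem green {W φ : E → ℝ} (hW : ContDiff ℝ ∞ W) (hφ : ContDiff ℝ ∞ φ)
    (hφc : HasCompactSupport φ) : ∫ x, W x * Δ φ x = ∫ x, Δ W x * φ x := by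
  have key : ∀ v : E, ∫ x, W x * fderiv ℝ (fun y => fderiv ℝ φ y v) x v =
      ∫ x, fderiv ℝ (fun y => fderiv ℝ W y v) x v * φ x := by
    intro v
    have hφ' := fderiv_apply_smooth hφ v
    have hφ'' := fderiv_apply_smooth hφ' v
    have hφc' := fderiv_apply_compact hφc v
    have hφc'' := fderiv_apply_compact hφc' v
    have hW' := fderiv_apply_smooth hW v
    have hW'' := fderiv_apply_smooth hW' v
    have d : ∀ {g : E → ℝ}, ContDiff ℝ ∞ g → Differentiable ℝ g := fun h =>
      h.differentiable (by simp)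
    have h1 := integral_mul_fderiv_eq_neg_fderiv_mul_of_integrable (μ := volume)
      (f := W) (g := fun y => fderiv ℝ φ y v) (v := v)
      ((hW'.continuous.mul hφ'.continuous).integrable_of_hasCompactSupport hφc'.mul_left)
      ((hW.continuous.mul hφ''.continuous).integrable_of_hasCompactSupport hφc''.mul_left)
      ((hW.continuous.mul hφ'.continuous).integrable_of_hasCompactSupport hφc'.mul_left)
      (fun x _ => d hW x) (fun x _ => d hφ' x)
    have h2 := integral_mul_fderiv_eq_neg_fderiv_mul_of_integrable (μ := volume)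
      (f := fun y => fderiv ℝ W y v) (g := φ) (v := v)
      ((hW''.continuous.mul hφ.continuous).integrable_of_hasCompactSupport hφc.mul_left)
      ((hW'.continuous.mul hφ'.continuous).integrable_of_hasCompactSupport hφc'.mul_left)
      ((hW'.continuous.mul hφ.continuous).integrable_of_hasCompactSupport hφc.mul_left)
      (fun x _ => d hW' x) (fun x _ => d hφ x)
    rw [h1, h2, neg_neg]
  have e1 : ∀ x, W x * Δ φ x = ∑ i, W x * fderiv ℝ (fun y => fderiv ℝ φ y
      (stdOrthonormalBasis ℝ E i)) x (stdOrthonormalBasis ℝ E i) := by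
    intro x
    rw [lap_eq_sum (stdOrthonormalBasis ℝ E) (hφ.of_le (by norm_cast)).contDiffAt,
      Finset.mul_sum]
  have e2 : ∀ x, Δ W x * φ x = ∑ i, fderiv ℝ (fun y => fderiv ℝ W y
      (stdOrthonormalBasis ℝ E i)) x (stdOrthonormalBasis ℝ E i) * φ x := by
    intro x
    rw [lap_eq_sum (stdOrthonormalBasis ℝ E) (hW.of_le (by norm_cast)).contDiffAt,
      Finset.sum_mul]
  simp_rw [e1, e2]
  rw [integral_finsetSum, integral_finsetSum]
  · exact Finset.sum_congr rfl fun i _ => key _
  · intro i _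
    exact ((fderiv_apply_smooth (fderiv_apply_smooth hW _) _).continuous.mul
      hφ.continuous).integrable_of_hasCompactSupport hφc.mul_left
  · intro i _
    exact (hW.continuous.mul (fderiv_apply_smooth (fderiv_apply_smooth hφ _)
      _).continuous).integrable_of_hasCompactSupport
      (fderiv_apply_compact (fderiv_apply_compact hφc _) _).mul_left

/-- Laplacian under reflection-translation -/
theorem lap_sub_left {k : E → ℝ} (hk : ContDiff ℝ ∞ k) (x y : E) :
    Δ (fun z => k (x - z)) y = Δ k (x - y) := by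
  have hk1 : ContDiff ℝ ∞ (fun z => k (x - z)) := hk.comp (contDiff_const.sub contDiff_id)
  have hd : ∀ {g : E → ℝ}, ContDiff ℝ ∞ g → ∀ z v, fderiv ℝ (fun z => g (x - z)) z v =
      - fderiv ℝ g (x - z) v := by
    intro g hg z v
    have h1 : HasFDerivAt (fun z : E => x - z) (-(ContinuousLinearMap.id ℝ E)) z := by
      simpa using (hasFDerivAt_id z).const_sub x
    have h2 := ((hg.differentiable (by simp) (x - z)).hasFDerivAt.comp z h1).fderiv
    have h3 : (g ∘ fun z => x - z) = fun z => g (x - z) := rfl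
    rw [h3] at h2
    rw [h2]
    simp
  rw [lap_eq_sum (stdOrthonormalBasis ℝ E) (hk.of_le (by norm_cast)).contDiffAt,
    lap_eq_sum (stdOrthonormalBasis ℝ E) (hk1.of_le (by norm_cast)).contDiffAt]
  refine Finset.sum_congr rfl fun i _ => ?_
  have h4 : (fun z => fderiv ℝ (fun z => k (x - z)) z (stdOrthonormalBasis ℝ E i)) =
      fun z => - fderiv ℝ k (x - z) (stdOrthonormalBasis ℝ E i) := by
    ext z
    exact hd hk z _
  rw [h4]
  have h5 : (fun z => - fderiv ℝ k (x - z) (stdOrthonormalBasis ℝ E i)) =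
      fun z => (fun w => - fderiv ℝ k w (stdOrthonormalBasis ℝ E i)) (x - z) := rfl
  rw [h5, hd (fderiv_apply_smooth hk _).neg]
  rw [fderiv_fun_neg]
  simp

end Pool.Agent.V1180
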