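import Mathlib
import Pool.Agent.V1180.Lap

set_option autoImplicit false
set_option linter.unusedSectionVars false

/-!
# The equation `κ w - Δ w = f` in the Schwartz class
-/

namespace Pool.Agent.V1180.NV

open Real MeasureTheory Filter Topology Set Laplacian SchwartzMap
open scoped SchwartzMap ContDiff

section yuk

variable {E : Type} [NormedAddCommGroup E] [InnerProductSpace ℝ E] [FiniteDimensional ℝ E]
  [MeasurableSpace E] [BorelSpace E]

/-- the symbol -/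
noncomputable def sym (κ : ℝ) (ξ : E) : ℝ := κ⁻¹ * (1 + ‖(2 * π / √κ) • ξ‖ ^ 2) ^ (-1 : ℝ)

theorem sym_growth (κ : ℝ) : Function.HasTemperateGrowth (sym κ : E → ℝ) := by
  unfold sym
  have h1 : Function.HasTemperateGrowth (fun ξ : E => (2 * π / √κ) • ξ) :=
    ((2 * π / √κ) • (ContinuousLinearMap.id ℝ E)).hasTemperateGrowth
  have h2 := (Function.hasTemperateGrowth_one_add_norm_sq_rpow E (-1)).comp h1
  exact (Function.HasTemperateGrowth.const κ⁻¹).mul h2

theorem sym_mul {κ : ℝ} (hκ : 0 < κ) (ξ : E) : κ * sym κ ξ + (2 * π) ^ 2 * (‖ξ‖ ^ 2 * sym κ ξ) = 1 := by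
  unfold sym
  rw [norm_smul, Real.norm_eq_abs, abs_of_nonneg (by positivity), Real.rpow_neg_one, mul_pow, div_pow, Real.sq_sqrt hκ.le]
  have h : 0 < 1 + (2 * π) ^ 2 / κ * ‖ξ‖ ^ 2 := by positivity
  field_simp

theorem exists_complex {κ : ℝ} (hκ : 0 < κ) (f : 𝓢(E, ℂ)) :
    ∃ w : 𝓢(E, ℂ), ∀ x, (κ : ℂ) * w x - Δ w x = f x := by
  have hg : Function.HasTemperateGrowth (sym κ : E → ℝ) := sym_growth κ
  have hn : Function.HasTemperateGrowth (fun x : E => ‖x‖ ^ 2) := by fun_prop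
  refine ⟨fourierMultiplierCLM ℂ (sym κ) f, fun x => ?_⟩
  have h1 : Δ (fourierMultiplierCLM ℂ (sym κ : E → ℝ) f) = -(2 * π) ^ 2 • fourierMultiplierCLM ℂ ((fun x : E => ‖x‖ ^ 2) * sym κ) f := by
    rw [laplacian_eq_fourierMultiplierCLM]
    congr 1
    exact fourierMultiplierCLM_fourierMultiplierCLM_apply hn hg f
  have h2 : fourierMultiplierCLM ℂ (fun _ : E => (1 : ℝ)) f = f := by
    rw [fourierMultiplierCLM_const]
    simp
  have h3 : (fun _ : E => (1:ℝ)) = κ • (sym κ) + (2 * π) ^ 2 • ((fun x : E => ‖x‖ ^ 2) * sym κ) := by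
    funext ξ
    simp only [Pi.add_apply, Pi.smul_apply, Pi.mul_apply, smul_eq_mul]
    exact (sym_mul hκ ξ).symm
  have h4 : fourierMultiplierCLM ℂ (κ • (sym κ : E → ℝ) + (2 * π) ^ 2 • ((fun x : E => ‖x‖ ^ 2) * sym κ)) f
      = κ • fourierMultiplierCLM ℂ (sym κ : E → ℝ) f + (2 * π) ^ 2 • fourierMultiplierCLM ℂ ((fun x : E => ‖x‖ ^ 2) * sym κ) f := by
    have hp : Function.HasTemperateGrowth ((fun x : E => ‖x‖ ^ 2) * sym κ) := hn.mul hg
    have hs1 : Function.HasTemperateGrowth (κ • (sym κ : E → ℝ)) := (Function.HasTemperateGrowth.const κ).mul hg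
    have hs2 : Function.HasTemperateGrowth ((2 * π) ^ 2 • ((fun x : E => ‖x‖ ^ 2) * sym κ)) :=
      (Function.HasTemperateGrowth.const ((2 * π) ^ 2)).mul hp
    have := fourierMultiplierCLM_sum (E := E) (𝕜 := ℝ) ℂ (s := (Finset.univ : Finset (Fin 2)))
      (g := ![κ • (sym κ : E → ℝ), (2 * π) ^ 2 • ((fun x : E => ‖x‖ ^ 2) * sym κ)]) (by
        intro i _
        fin_cases i
        · exact hs1
        · exact hs2)
    have h5 := DFunLike.congr_fun this f
    simp only [Fin.sum_univ_two, Matrix.cons_val_zero, Matrix.cons_val_one] at h5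
    rw [fourierMultiplierCLM_smul hg κ, fourierMultiplierCLM_smul hp ((2 * π) ^ 2)] at h5
    exact h5
  rw [h1]
  have h6 := DFunLike.congr_fun (h2.symm.trans (by rw [h3, h4])) x
  rw [h6]
  simp

/-- real part of a Schwartz function -/
theorem exists_re (w : 𝓢(E, ℂ)) : ∃ v : 𝓢(E, ℝ), ∀ x, v x = (w x).re := by
  refine ⟨SchwartzMap.postcompCLM Complex.reCLM w, fun x => ?_⟩
  rfl

theorem lap_re {w : 𝓢(E, ℂ)} {v : 𝓢(E, ℝ)} (h : ∀ x, v x = (w x).re) (x : E) : Δ v x = (Δ w x).re := by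
  rw [laplacian_apply, laplacian_apply]
  have h1 : (v : E → ℝ) = Complex.reCLM ∘ (w : E → ℂ) := by
    funext y
    simp [h y]
  rw [h1, (w.smooth 2).contDiffAt.laplacian_CLM_comp_left]
  rfl

theorem exists_real {κ : ℝ} (hκ : 0 < κ) (f : 𝓢(E, ℝ)) : ∃ w : 𝓢(E, ℝ), ∀ x, κ * w x - Δ w x = f x := by
  obtain ⟨wc, hwc⟩ := exists_complex hκ (SchwartzMap.postcompCLM Complex.ofRealCLM f)
  obtain ⟨w, hw⟩ := exists_re wc
  refine ⟨w, fun x => ?_⟩
  rw [lap_re hw x, hw x]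
  have h1 := congrArg Complex.re (hwc x)
  simp only [Complex.sub_re, Complex.mul_re, Complex.ofReal_re, Complex.ofReal_im, zero_mul, sub_zero] at h1
  rw [h1]
  rfl

theorem energy (w : 𝓢(E, ℝ)) : ∫ x, w x * Δ w x ≤ 0 := by
  rw [show (fun x => w x * Δ w x) = fun x => ∑ i, w x * (LineDeriv.lineDerivOp (stdOrthonormalBasis ℝ E i) (LineDeriv.lineDerivOp (stdOrthonormalBasis ℝ E i) w)) x by
    funext x
    rw [laplacian_eq_sum (stdOrthonormalBasis ℝ E)]
    simp [Finset.mul_sum]]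
  rw [integral_finsetSum]
  · apply Finset.sum_nonpos
    intro i _
    rw [integral_mul_lineDerivOp_right_eq_neg_left]
    rw [neg_nonpos]
    apply integral_nonneg
    intro x
    exact mul_self_nonneg _
  · intro i _
    exact (pairing (ContinuousLinearMap.mul ℝ ℝ) w (LineDeriv.lineDerivOp (stdOrthonormalBasis ℝ E i) (LineDeriv.lineDerivOp (stdOrthonormalBasis ℝ E i) w))).integrable

theorem mul_int (u v : 𝓢(E, ℝ)) : Integrable (fun x => u x * v x) :=
  (pairing (ContinuousLinearMap.mul ℝ ℝ) u v).integrable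

theorem l2_bound {κ : ℝ} (hκ : 0 < κ) {f w : 𝓢(E, ℝ)} (h : ∀ x, κ * w x - Δ w x = f x) :
    ∫ x, (Δ w x) ^ 2 ≤ ∫ x, (f x) ^ 2 := by
  have e : ∀ x, (f x) ^ 2 = κ ^ 2 * (w x * w x) - 2 * κ * (w x * Δ w x) + (Δ w x) * (Δ w x) := by
    intro x
    rw [← h x]
    ring
  have i1 := mul_int w w
  have i2 := mul_int w (Δ w)
  have i3 := mul_int (Δ w) (Δ w)
  have : ∫ x, (f x) ^ 2 = κ ^ 2 * (∫ x, w x * w x) - 2 * κ * (∫ x, w x * Δ w x) + ∫ x, (Δ w x) * (Δ w x) := by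
    simp_rw [e]
    have j1 : Integrable (fun x => κ ^ 2 * (w x * w x)) := i1.const_mul _
    have j2 : Integrable (fun x => 2 * κ * (w x * Δ w x)) := i2.const_mul _
    rw [integral_add (f := fun x => κ ^ 2 * (w x * w x) - 2 * κ * (w x * Δ w x)) (j1.sub j2) i3, integral_sub j1 j2,
      integral_const_mul, integral_const_mul]
  rw [this]
  have h1 : 0 ≤ ∫ x, w x * w x := integral_nonneg fun x => mul_self_nonneg _
  have h2 := energy w
  have h3 : ∫ x, (Δ w x) ^ 2 = ∫ x, (Δ w x) * (Δ w x) := by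
    congr 1
    funext x
    ring
  rw [h3]
  have h4 : 0 ≤ κ ^ 2 * ∫ x, w x * w x := by positivity
  have h5 : 2 * κ * (∫ x, w x * Δ w x) ≤ 0 := mul_nonpos_of_nonneg_of_nonpos (by positivity) h2
  linarith

/-- a Schwartz function with a negative value has a negative minimum -/
theorem exists_min (w : 𝓢(E, ℝ)) {x₁ : E} (h : w x₁ < 0) : ∃ x₀, w x₀ < 0 ∧ ∀ x, w x₀ ≤ w x := by
  have h1 : Tendsto w (cocompact E) (𝓝 0) := zero_at_infty w
  have h2 : ∀ᶠ x in cocompact E, w x₁ < w x := h1.eventually (lt_mem_nhds h)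
  obtain ⟨x₀, hx₀⟩ := w.continuous.exists_forall_le' x₁ (h2.mono fun x hx => hx.le)
  exact ⟨x₀, (hx₀ x₁).trans_lt h, hx₀⟩

theorem w_nonneg {κ : ℝ} (hκ : 0 < κ) {f w : 𝓢(E, ℝ)} (h : ∀ x, κ * w x - Δ w x = f x) (hf : ∀ x, 0 ≤ f x) (x : E) :
    0 ≤ w x := by
  by_contra hcon
  push Not at hcon
  obtain ⟨x₀, h0, hmin⟩ := exists_min w hcon
  have h1 := h x₀
  have h2 := hf x₀
  have hneg : Δ (fun y => -w y) x₀ ≤ 0 := by
    apply lap_nonpos_of_isLocalMax
    · exact ((w.smooth 2).neg).contDiffAt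
    · exact Filter.Eventually.of_forall fun y => neg_le_neg (hmin y)
  have h3 : Δ (fun y => -w y) x₀ = - Δ w x₀ := by
    rw [laplacian_apply]
    exact congrFun (InnerProductSpace.laplacian_neg (f := (w : E → ℝ))) x₀
  rw [h3] at hneg
  nlinarith

end yuk

end Pool.Agent.V1180.NV
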