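import Pool.Agent.V1180.NVa

set_option autoImplicit false
set_option linter.unusedSectionVars false

/-!
# Comparison with the solution of `κ w - Δ w = f`, and smooth functions above a given function
-/

namespace Pool.Agent.V1180.NV

open Real MeasureTheory Filter Topology Set Laplacian SchwartzMap
open scoped SchwartzMap ContDiff

variable {E : Type} [NormedAddCommGroup E] [InnerProductSpace ℝ E] [FiniteDimensional ℝ E]
  [MeasurableSpace E] [BorelSpace E]

/-- the maximum principle, for one sign -/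
theorem compare_aux {κ ε : ℝ} (hκ : 0 < κ) (hε : 0 < ε) {f w : 𝓢(E, ℝ)} (h : ∀ x, κ * w x - Δ w x = f x)
    (hw : ∀ x, 0 ≤ w x) {D : Set E} (hD : IsOpen D) {u : E → ℝ} (hu : ContDiffOn ℝ 2 u D)
    (hK : IsCompact {x | x ∈ D ∧ ε ≤ u x}) (hf : ∀ x ∈ D, ε ≤ u x → |Δ u x| + κ * u x ≤ f x)
    {x : E} (hx : x ∈ D) (hxu : ε ≤ u x) : u x - ε ≤ w x := by
  have hsub : {x | x ∈ D ∧ ε ≤ u x} ⊆ D := fun y hy => hy.1
  have hc : ContinuousOn (fun y => w y - u y) {x | x ∈ D ∧ ε ≤ u x} :=
    w.continuous.continuousOn.sub (hu.continuousOn.mono hsub)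
  obtain ⟨x₀, hx₀, hmin⟩ := hK.exists_isMinOn ⟨x, hx, hxu⟩ hc
  have key : -ε ≤ w x₀ - u x₀ := by
    by_contra hcon
    push Not at hcon
    have h1 : ε < u x₀ := by linarith [hw x₀]
    have hua : ContDiffAt ℝ 2 u x₀ := hu.contDiffAt (hD.mem_nhds hx₀.1)
    have hev : ∀ᶠ y in 𝓝 x₀, y ∈ D ∧ ε ≤ u y := by
      filter_upwards [hD.mem_nhds hx₀.1, hua.continuousAt.eventually (lt_mem_nhds h1)] with y hy1 hy2
      exact ⟨hy1, hy2.le⟩
    have hloc : IsLocalMax (fun y => u y - w y) x₀ := by
      filter_upwards [hev] with y hy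
      have := hmin hy
      simp only [mem_setOf_eq] at this
      linarith
    have hwa : ContDiffAt ℝ 2 (w : E → ℝ) x₀ := (w.smooth 2).contDiffAt
    have h2 := lap_nonpos_of_isLocalMax (hua.sub hwa) hloc
    have h3 : Δ (fun y => u y - w y) x₀ = Δ u x₀ - Δ (w : E → ℝ) x₀ := hua.laplacian_sub hwa
    rw [h3, ← laplacian_apply] at h2
    have h4 := h x₀
    have h5 := hf x₀ hx₀.1 h1.le
    have h6 := neg_abs_le (Δ u x₀)
    have h7 : κ * (w x₀ - u x₀) < κ * (-ε) := mul_lt_mul_of_pos_left hcon hκ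
    have h8 : 0 < κ * ε := mul_pos hκ hε
    nlinarith
  have := hmin (show x ∈ {x | x ∈ D ∧ ε ≤ u x} from ⟨hx, hxu⟩)
  simp only [mem_setOf_eq] at this
  linarith

theorem lap_neg_apply (u : E → ℝ) (x : E) : Δ (fun y => -u y) x = -Δ u x :=
  congrFun (InnerProductSpace.laplacian_neg (f := u)) x

/-- the maximum principle -/
theorem compare {κ ε : ℝ} (hκ : 0 < κ) (hε : 0 < ε) {f w : 𝓢(E, ℝ)} (h : ∀ x, κ * w x - Δ w x = f x)
    (hw : ∀ x, 0 ≤ w x) {D : Set E} (hD : IsOpen D) {u : E → ℝ} (hu : ContDiffOn ℝ 2 u D)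
    (hK : IsCompact {x | x ∈ D ∧ ε ≤ |u x|}) (hf : ∀ x ∈ D, ε ≤ |u x| → |Δ u x| + κ * |u x| ≤ f x)
    {x : E} (hx : x ∈ D) (hxu : ε ≤ |u x|) : |u x| - ε ≤ w x := by
  have hsub : {x | x ∈ D ∧ ε ≤ |u x|} ⊆ D := fun y hy => hy.1
  have hcu : ContinuousOn u {x | x ∈ D ∧ ε ≤ |u x|} := hu.continuousOn.mono hsub
  rcases le_total 0 (u x) with h0 | h0
  · rw [abs_of_nonneg h0] at hxu ⊢
    refine compare_aux hκ hε h hw hD hu ?_ ?_ hx hxu
    · have e : {x | x ∈ D ∧ ε ≤ u x} = {x | x ∈ D ∧ ε ≤ |u x|} ∩ u ⁻¹' Ici 0 := by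
        ext y
        simp only [mem_setOf_eq, mem_inter_iff, mem_preimage, mem_Ici]
        constructor
        · rintro ⟨a, b⟩
          have : 0 ≤ u y := by linarith
          exact ⟨⟨a, by rwa [abs_of_nonneg this]⟩, this⟩
        · rintro ⟨⟨a, b⟩, c⟩
          rw [abs_of_nonneg c] at b
          exact ⟨a, b⟩
      rw [e]
      have hcl := hcu.preimage_isClosed_of_isClosed hK.isClosed (isClosed_Ici (a := (0:ℝ)))
      exact hK.of_isClosed_subset hcl inter_subset_left
    · intro y hy hyu
      have := hf y hy (hyu.trans (le_abs_self _))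
      rwa [abs_of_nonneg (by linarith : 0 ≤ u y)] at this
  · rw [abs_of_nonpos h0] at hxu ⊢
    refine compare_aux (u := fun y => -u y) hκ hε h hw hD hu.neg ?_ ?_ hx hxu
    · have e : {x | x ∈ D ∧ ε ≤ -u x} = {x | x ∈ D ∧ ε ≤ |u x|} ∩ u ⁻¹' Iic 0 := by
        ext y
        simp only [mem_setOf_eq, mem_inter_iff, mem_preimage, mem_Iic]
        constructor
        · rintro ⟨a, b⟩
          have : u y ≤ 0 := by linarith
          exact ⟨⟨a, by rwa [abs_of_nonpos this]⟩, this⟩
        · rintro ⟨⟨a, b⟩, c⟩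
          rw [abs_of_nonpos c] at b
          exact ⟨a, b⟩
      rw [e]
      have hcl := hcu.preimage_isClosed_of_isClosed hK.isClosed (isClosed_Iic (a := (0:ℝ)))
      exact hK.of_isClosed_subset hcl inter_subset_left
    · intro y hy hyu
      have := hf y hy (hyu.trans (neg_le_abs _))
      rw [abs_of_nonpos (by linarith : u y ≤ 0)] at this
      rw [lap_neg_apply, abs_neg]
      exact this

/-- a continuous compactly supported nonnegative function is approximated from above by test functions -/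
theorem smooth_above {h : E → ℝ} (hc : Continuous h) (hcs : HasCompactSupport h) (h0 : ∀ x, 0 ≤ h x)
    {η : ℝ} (hη : 0 < η) :
    ∃ f : E → ℝ, ContDiff ℝ ∞ f ∧ HasCompactSupport f ∧ (∀ x, 0 ≤ f x) ∧ (∀ x, h x ≤ f x) ∧
      (∫ x, f x ^ 2) ≤ (∫ x, h x ^ 2) + η := by
  -- radius of the support and a bound
  obtain ⟨R, hR⟩ := hcs.isCompact.isBounded.subset_closedBall (0 : E)
  obtain ⟨M, hM⟩ := hcs.exists_bound_of_continuous hc
  have hM0 : 0 ≤ M := (norm_nonneg _).trans (hM 0)
  set R' : ℝ := max R 0 + 1 with hR'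
  have hR'1 : 1 ≤ R' := by
    have := le_max_right R 0
    linarith
  set V : ℝ := (volume (Metric.closedBall (0:E) (R' + 1))).toReal with hV
  have hV0 : 0 ≤ V := ENNReal.toReal_nonneg
  obtain ⟨δ, hδ, hδη⟩ : ∃ δ : ℝ, 0 < δ ∧ (4 * δ * M + 4 * δ ^ 2) * V ≤ η := by
    have hcont : Tendsto (fun δ : ℝ => (4 * δ * M + 4 * δ ^ 2) * V) (𝓝[>] 0) (𝓝 0) := by
      have : Tendsto (fun δ : ℝ => (4 * δ * M + 4 * δ ^ 2) * V) (𝓝 0) (𝓝 ((4 * 0 * M + 4 * 0 ^ 2) * V)) := by
        apply Continuous.tendsto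
        fun_prop
      simp only [mul_zero, zero_mul, ne_eq, OfNat.ofNat_ne_zero, not_false_eq_true, zero_pow, add_zero] at this
      exact this.mono_left nhdsWithin_le_nhds
    obtain ⟨δ, h1, h2⟩ := ((hcont.eventually (gt_mem_nhds hη)).and self_mem_nhdsWithin).exists
    exact ⟨δ, h2, h1.le⟩
  have huc : UniformContinuous h := hcs.uniformContinuous_of_continuous hc
  obtain ⟨r, hr, hrr⟩ := Metric.uniformContinuous_iff.1 huc δ hδ
  set r' : ℝ := min r 1 with hr'
  have hr'0 : 0 < r' := lt_min hr one_pos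
  let φ : ContDiffBump (0 : E) := ⟨r' / 2, r', by positivity, by linarith⟩
  set f1 : E → ℝ := MeasureTheory.convolution (φ.normed volume) h (ContinuousLinearMap.lsmul ℝ ℝ) volume with hf1
  have hf1s : ContDiff ℝ ∞ f1 :=
    φ.hasCompactSupport_normed.contDiff_convolution_left _ φ.contDiff_normed hc.locallyIntegrable
  have hf1c : HasCompactSupport f1 := φ.hasCompactSupport_normed.convolution _ hcs
  have hdist : ∀ x, |f1 x - h x| ≤ δ := by
    intro x
    rw [← Real.dist_eq]
    apply φ.dist_normed_convolution_le hc.aestronglyMeasurable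
    intro y hy
    rw [Metric.mem_ball] at hy
    exact (hrr (hy.trans_le (min_le_left _ _))).le
  have hf10 : ∀ x, 0 ≤ f1 x := by
    intro x
    rw [hf1]
    unfold MeasureTheory.convolution
    apply integral_nonneg
    intro t
    simp only [ContinuousLinearMap.lsmul_apply, smul_eq_mul, Pi.zero_apply]
    exact mul_nonneg (φ.nonneg_normed t) (h0 _)
  have hzero : ∀ x, R' < ‖x‖ → f1 x = 0 := by
    intro x hx
    rw [hf1]
    unfold MeasureTheory.convolution
    apply integral_eq_zero_of_ae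
    refine Filter.Eventually.of_forall fun t => ?_
    simp only [ContinuousLinearMap.lsmul_apply, smul_eq_mul, Pi.zero_apply, mul_eq_zero]
    by_cases ht : ‖t‖ < r'
    · right
      by_contra hcon
      have h1 : x - t ∈ tsupport h := subset_tsupport _ hcon
      have h2 := hR h1
      rw [mem_closedBall_zero_iff] at h2
      have h3 : ‖x‖ ≤ ‖x - t‖ + ‖t‖ := by
        have := norm_add_le (x - t) t
        rwa [sub_add_cancel] at this
      have h4 : r' ≤ 1 := min_le_right _ _
      have h5 := le_max_left R 0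
      linarith
    · left
      have : t ∉ Function.support (φ.normed volume) := by
        rw [φ.support_normed_eq]
        simpa using ht
      exact Function.notMem_support.1 this
  let ψ : ContDiffBump (0 : E) := ⟨R', R' + 1, by linarith, by linarith⟩
  refine ⟨fun x => f1 x + δ * ψ x, hf1s.add (contDiff_const.mul ψ.contDiff), hf1c.add (ψ.hasCompactSupport.mul_left), ?_, ?_, ?_⟩
  · intro x
    exact add_nonneg (hf10 x) (mul_nonneg hδ.le ψ.nonneg)
  · intro x
    by_cases hx : ‖x‖ ≤ R'
    · have h1 : ψ x = 1 := ψ.one_of_mem_closedBall (by simpa using hx)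
      show h x ≤ f1 x + δ * ψ x
      rw [h1]
      have := (abs_le.1 (hdist x)).1
      linarith
    · have h1 : h x = 0 := by
        by_contra hcon
        have h2 := hR (subset_tsupport _ hcon)
        rw [mem_closedBall_zero_iff] at h2
        have h5 := le_max_left R 0
        apply hx
        linarith
      rw [h1]
      exact add_nonneg (hf10 x) (mul_nonneg hδ.le ψ.nonneg)
  · have hpt : ∀ x, (f1 x + δ * ψ x) ^ 2 ≤ h x ^ 2 + (Metric.closedBall (0:E) (R' + 1)).indicator (fun _ => 4 * δ * M + 4 * δ ^ 2) x := by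
      intro x
      by_cases hx : ‖x‖ ≤ R' + 1
      · rw [indicator_of_mem (by simpa using hx)]
        have h1 : f1 x ≤ h x + δ := by
          have := (abs_le.1 (hdist x)).2
          linarith
        have h2 : δ * ψ x ≤ δ := by
          have := ψ.le_one (x := x)
          nlinarith
        have h3 : 0 ≤ f1 x + δ * ψ x := add_nonneg (hf10 x) (mul_nonneg hδ.le ψ.nonneg)
        have h4 : h x ≤ M := by
          have := hM x
          rwa [Real.norm_eq_abs, abs_of_nonneg (h0 x)] at this
        have h5 : f1 x + δ * ψ x ≤ h x + 2 * δ := by linarith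
        have h6 : (f1 x + δ * ψ x) ^ 2 ≤ (h x + 2 * δ) ^ 2 := pow_le_pow_left₀ h3 h5 2
        nlinarith [h0 x]
      · rw [indicator_of_notMem (by simpa using hx)]
        have h1 : f1 x = 0 := hzero x (by push Not at hx; linarith)
        have h2 : ψ x = 0 := ψ.zero_of_le_dist (by push Not at hx; simpa using hx.le)
        rw [h1, h2]
        simp
        positivity
    have i1 : Integrable (fun x => h x ^ 2) := by
      have h1 : HasCompactSupport (fun x => h x * h x) := hcs.mul_left
      have h2 : Integrable (fun x => h x * h x) := (hc.mul hc).integrable_of_hasCompactSupport h1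
      refine h2.congr (Filter.Eventually.of_forall fun x => ?_)
      simp only
      ring
    have i2 : Integrable ((Metric.closedBall (0:E) (R' + 1)).indicator (fun _ => 4 * δ * M + 4 * δ ^ 2)) volume := by
      rw [integrable_indicator_iff measurableSet_closedBall]
      exact integrableOn_const (isCompact_closedBall _ _).measure_ne_top
    have i3 : ∫ x, (Metric.closedBall (0:E) (R' + 1)).indicator (fun _ => 4 * δ * M + 4 * δ ^ 2) x = (4 * δ * M + 4 * δ ^ 2) * V := by
      rw [integral_indicator measurableSet_closedBall, setIntegral_const, smul_eq_mul, mul_comm]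
      rfl
    calc ∫ x, (f1 x + δ * ψ x) ^ 2 ≤ ∫ x, (h x ^ 2 + (Metric.closedBall (0:E) (R' + 1)).indicator (fun _ => 4 * δ * M + 4 * δ ^ 2) x) :=
          integral_mono_of_nonneg (Filter.Eventually.of_forall fun x => sq_nonneg _) (i1.add i2) (Filter.Eventually.of_forall hpt)
      _ = (∫ x, h x ^ 2) + ∫ x, (Metric.closedBall (0:E) (R' + 1)).indicator (fun _ => 4 * δ * M + 4 * δ ^ 2) x := integral_add i1 i2
      _ ≤ _ := by rw [i3]; linarith

end Pool.Agent.V1180.NV
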