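import Pool.Agent.V1180.NVb
import Mathlib.Analysis.Calculus.ContDiff.Bounds

set_option autoImplicit false
set_option linter.unusedSectionVars false

/-!
# Smooth functions above a given function on a compact set; scaling of the Laplacian
-/

namespace Pool.Agent.V1180.NV

open Real MeasureTheory Filter Topology Set Laplacian SchwartzMap InnerProductSpace
open scoped SchwartzMap ContDiff

variable {E : Type} [NormedAddCommGroup E] [InnerProductSpace ℝ E] [FiniteDimensional ℝ E]
  [MeasurableSpace E] [BorelSpace E]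

/-- test functions above a nonnegative continuous function on a compact subset of an open set -/
theorem above_on {D K : Set E} (hD : IsOpen D) (hK : IsCompact K) (hKD : K ⊆ D) {g : E → ℝ}
    (hg : ContinuousOn g D) (hg0 : ∀ x, 0 ≤ g x) {η : ℝ} (hη : 0 < η) :
    ∃ f : E → ℝ, ContDiff ℝ ∞ f ∧ HasCompactSupport f ∧ (∀ x, 0 ≤ f x) ∧ (∀ x ∈ K, g x ≤ f x) ∧
      (∫ x, f x ^ 2) ≤ (∫ x in K, g x ^ 2) + η := by
  rcases K.eq_empty_or_nonempty with hKe | hKne
  · refine ⟨fun _ => 0, contDiff_const, HasCompactSupport.zero, fun _ => le_rfl, ?_, ?_⟩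
    · intro x hx
      rw [hKe] at hx
      exact absurd hx (notMem_empty x)
    · rw [hKe]
      simp
      exact hη.le
  obtain ⟨K', hK', hKK', hK'D⟩ := exists_compact_between hK hD hKD
  obtain ⟨χ, hχ1, hχz, hχc, hχI⟩ := exists_continuous_one_zero_of_isCompact hK (isOpen_interior (s := K')).isClosed_compl
    (disjoint_compl_right_iff_subset.mpr hKK')
  have hχ0 : tsupport χ ⊆ D := by
    refine Subset.trans ?_ hK'D
    apply closure_minimal _ hK'.isClosed
    intro y hy
    by_contra hcon
    exact hy (hχz (fun h => hcon (interior_subset h)))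
  set h : E → ℝ := fun x => χ x * g x with hh
  have hhc : Continuous h := by
    rw [continuous_iff_continuousAt]
    intro x
    by_cases hx : x ∈ D
    · exact χ.continuous.continuousAt.mul (hg.continuousAt (hD.mem_nhds hx))
    · have h1 : (tsupport χ)ᶜ ∈ 𝓝 x := (isClosed_tsupport _).isOpen_compl.mem_nhds (fun h => hx (hχ0 h))
      have h2 : h =ᶠ[𝓝 x] fun _ => 0 := by
        filter_upwards [h1] with y hy
        rw [hh]
        simp only
        rw [image_eq_zero_of_notMem_tsupport hy, zero_mul]
      exact (continuousAt_const (y := (0:ℝ))).congr h2.symm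
  have hhcs : HasCompactSupport h := hχc.mul_right
  have hh0 : ∀ x, 0 ≤ h x := fun x => mul_nonneg (hχI x).1 (hg0 x)
  have hhK : ∀ x ∈ K, h x = g x := by
    intro x hx
    have : χ x = 1 := hχ1 hx
    rw [hh]
    simp only
    rw [this, one_mul]
  -- the truncations
  set c : ℕ → E → ℝ := fun j x => max 0 (1 - j * Metric.infDist x K) with hcdef
  have hcc : ∀ j, Continuous (c j) := fun j =>
    continuous_const.max (continuous_const.sub (continuous_const.mul (Metric.continuous_infDist_pt K)))
  have hc0 : ∀ j x, 0 ≤ c j x := fun j x => le_max_left _ _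
  have hc1 : ∀ j x, c j x ≤ 1 := by
    intro j x
    apply max_le zero_le_one
    have : 0 ≤ (j : ℝ) * Metric.infDist x K := mul_nonneg (Nat.cast_nonneg j) Metric.infDist_nonneg
    linarith
  have hcK : ∀ j, ∀ x ∈ K, c j x = 1 := by
    intro j x hx
    rw [hcdef]
    simp only
    rw [Metric.infDist_zero_of_mem hx]
    simp
  have hcout : ∀ x ∉ K, ∀ᶠ j : ℕ in atTop, c j x = 0 := by
    intro x hx
    have h1 : 0 < Metric.infDist x K := (hK.isClosed.notMem_iff_infDist_pos hKne).1 hx
    obtain ⟨N, hN⟩ := exists_nat_gt (1 / Metric.infDist x K)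
    filter_upwards [eventually_ge_atTop N] with j hj
    apply max_eq_left
    have h2 : (N : ℝ) ≤ j := by exact_mod_cast hj
    have h3 : 1 < (j : ℝ) * Metric.infDist x K := by
      rw [div_lt_iff₀ h1] at hN
      nlinarith
    linarith
  have hI : Integrable (fun x => h x ^ 2) := by
    have h1 : HasCompactSupport (fun x => h x * h x) := hhcs.mul_left
    have h2 : Integrable (fun x => h x * h x) := (hhc.mul hhc).integrable_of_hasCompactSupport h1
    refine h2.congr (Filter.Eventually.of_forall fun x => ?_)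
    simp only
    ring
  have hlim : Tendsto (fun j : ℕ => ∫ x, (h x * c j x) ^ 2) atTop (𝓝 (∫ x, K.indicator (fun x => h x ^ 2) x)) := by
    refine tendsto_integral_of_dominated_convergence (fun x => h x ^ 2) ?_ hI ?_ ?_
    · intro j
      exact ((hhc.mul (hcc j)).pow 2).aestronglyMeasurable
    · intro j
      refine Filter.Eventually.of_forall fun x => ?_
      rw [Real.norm_eq_abs, abs_of_nonneg (sq_nonneg _), mul_pow]
      have := pow_le_one₀ (n := 2) (hc0 j x) (hc1 j x)
      nlinarith [sq_nonneg (h x)]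
    · refine Filter.Eventually.of_forall fun x => ?_
      by_cases hx : x ∈ K
      · rw [indicator_of_mem hx]
        refine tendsto_const_nhds.congr' ?_
        refine Filter.Eventually.of_forall fun j => ?_
        simp only
        rw [hcK j x hx, mul_one]
      · rw [indicator_of_notMem hx]
        refine tendsto_const_nhds.congr' ?_
        filter_upwards [hcout x hx] with j hj
        rw [hj]
        simp
  have hval : ∫ x, K.indicator (fun x => h x ^ 2) x = ∫ x in K, g x ^ 2 := by
    rw [integral_indicator hK.isClosed.measurableSet]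
    apply setIntegral_congr_fun hK.isClosed.measurableSet
    intro x hx
    simp only
    rw [hhK x hx]
  rw [hval] at hlim
  obtain ⟨j, hj⟩ := (hlim.eventually (gt_mem_nhds (show (∫ x in K, g x ^ 2) < (∫ x in K, g x ^ 2) + η / 2 by linarith))).exists
  obtain ⟨f, hf1, hf2, hf3, hf4, hf5⟩ := smooth_above (h := fun x => h x * c j x) (hhc.mul (hcc j)) hhcs.mul_right
    (fun x => mul_nonneg (hh0 x) (hc0 j x)) (half_pos hη)
  refine ⟨f, hf1, hf2, hf3, ?_, by linarith⟩
  intro x hx
  have := hf4 x
  rwa [hcK j x hx, mul_one, hhK x hx] at this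

/-- the Laplacian is bounded by the second derivative -/
theorem abs_lap_le (u : E → ℝ) (x : E) : |Δ u x| ≤ Module.finrank ℝ E * ‖iteratedFDeriv ℝ 2 u x‖ := by
  rw [laplacian_eq_iteratedFDeriv_stdOrthonormalBasis]
  calc |∑ i, iteratedFDeriv ℝ 2 u x ![stdOrthonormalBasis ℝ E i, stdOrthonormalBasis ℝ E i]|
      ≤ ∑ i, |iteratedFDeriv ℝ 2 u x ![stdOrthonormalBasis ℝ E i, stdOrthonormalBasis ℝ E i]| := Finset.abs_sum_le_sum_abs _ _
    _ ≤ ∑ _i : Fin (Module.finrank ℝ E), ‖iteratedFDeriv ℝ 2 u x‖ := by
        apply Finset.sum_le_sum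
        intro i _
        have := (iteratedFDeriv ℝ 2 u x).le_opNorm ![stdOrthonormalBasis ℝ E i, stdOrthonormalBasis ℝ E i]
        simpa [Fin.prod_univ_two] using this
    _ = _ := by simp

/-- precomposition with a homothety -/
theorem iter_comp_smul {u : E → ℝ} {m : ℕ∞} (hu : ContDiff ℝ m u) (c : ℝ) {i : ℕ} (hi : (i : ℕ∞) ≤ m) (x : E) :
    iteratedFDeriv ℝ i (fun y => u (c • y)) x =
      (iteratedFDeriv ℝ i u (c • x)).compContinuousLinearMap fun _ => c • ContinuousLinearMap.id ℝ E := by
  have := ContinuousLinearMap.iteratedFDeriv_comp_right (c • ContinuousLinearMap.id ℝ E) hu x (i := i) (by exact_mod_cast hi)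
  simpa [Function.comp_def] using this

theorem norm_iter_comp_smul_le {u : E → ℝ} {m : ℕ∞} (hu : ContDiff ℝ m u) {c : ℝ} (hc : |c| ≤ 1) {i : ℕ} (hi : (i : ℕ∞) ≤ m) (x : E) :
    ‖iteratedFDeriv ℝ i (fun y => u (c • y)) x‖ ≤ ‖iteratedFDeriv ℝ i u (c • x)‖ := by
  rw [iter_comp_smul hu c hi x]
  refine (ContinuousMultilinearMap.norm_compContinuousLinearMap_le _ _).trans ?_
  have h1 : ∏ _j : Fin i, ‖c • ContinuousLinearMap.id ℝ E‖ ≤ 1 := by
    apply Finset.prod_le_one
    · intro j _
      exact norm_nonneg _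
    · intro j _
      rw [norm_smul]
      have h2 := ContinuousLinearMap.norm_id_le (𝕜 := ℝ) (E := E)
      rw [Real.norm_eq_abs]
      have h3 := abs_nonneg c
      have h4 := norm_nonneg (ContinuousLinearMap.id ℝ E)
      nlinarith
  have h5 := norm_nonneg (iteratedFDeriv ℝ i u (c • x))
  nlinarith

theorem lap_comp_smul {u : E → ℝ} (hu : ContDiff ℝ 2 u) (c : ℝ) (x : E) :
    Δ (fun y => u (c • y)) x = c ^ 2 * Δ u (c • x) := by
  rw [laplacian_eq_iteratedFDeriv_stdOrthonormalBasis, laplacian_eq_iteratedFDeriv_stdOrthonormalBasis]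
  simp only
  rw [Finset.mul_sum]
  apply Finset.sum_congr rfl
  intro i _
  rw [iter_comp_smul (m := 2) hu c le_rfl x]
  rw [ContinuousMultilinearMap.compContinuousLinearMap_apply]
  have h1 : (fun j : Fin 2 => (c • ContinuousLinearMap.id ℝ E) (![stdOrthonormalBasis ℝ E i, stdOrthonormalBasis ℝ E i] j)) =
      fun j => c • (![stdOrthonormalBasis ℝ E i, stdOrthonormalBasis ℝ E i] j) := by
    ext j
    simp
  rw [h1, ContinuousMultilinearMap.map_smul_univ]
  simp [sq]

theorem lap_comp_sub (u : E → ℝ) (a x : E) : Δ (fun y => u (y - a)) x = Δ u (x - a) := by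
  rw [laplacian_eq_iteratedFDeriv_stdOrthonormalBasis, laplacian_eq_iteratedFDeriv_stdOrthonormalBasis]
  simp only
  rw [iteratedFDeriv_comp_sub]

end Pool.Agent.V1180.NV
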