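import Pool.Agent.V1180.NVc

set_option autoImplicit false
set_option linter.unusedSectionVars false

/-!
# The Sobolev quotient: from test functions to Schwartz functions
-/

namespace Pool.Agent.V1180.NV

open Real MeasureTheory Filter Topology Set Laplacian SchwartzMap InnerProductSpace
open scoped SchwartzMap ContDiff

variable {E : Type} [NormedAddCommGroup E] [InnerProductSpace ℝ E] [FiniteDimensional ℝ E]
  [MeasurableSpace E] [BorelSpace E]

/-- the biharmonic Sobolev quotient over a set -/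
noncomputable def quot (p : ℝ) (D : Set E) (u : E → ℝ) : ℝ :=
  (∫ x in D, Δ u x ^ 2) / (∫ x in D, |u x| ^ p) ^ (2 / p)

/-- the infimum of the quotient over nonzero test functions on the whole space -/
noncomputable def Sst (E : Type) [NormedAddCommGroup E] [InnerProductSpace ℝ E] [FiniteDimensional ℝ E]
    [MeasurableSpace E] [BorelSpace E] (p : ℝ) : ℝ :=
  sInf {q | ∃ φ : E → ℝ, ContDiff ℝ ∞ φ ∧ HasCompactSupport φ ∧ φ ≠ 0 ∧ q = quot p univ φ}

theorem quot_nonneg (p : ℝ) (D : Set E) (u : E → ℝ) : 0 ≤ quot p D u := by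
  unfold quot
  apply div_nonneg
  · exact integral_nonneg fun x => sq_nonneg _
  · exact rpow_nonneg (integral_nonneg fun x => rpow_nonneg (abs_nonneg _) _) _

theorem Sst_nonneg (p : ℝ) : 0 ≤ Sst E p := by
  apply Real.sInf_nonneg
  rintro q ⟨φ, _, _, _, rfl⟩
  exact quot_nonneg _ _ _

/-- the defining inequality -/
theorem Sst_test {p : ℝ} (hp : 0 < p) {φ : E → ℝ} (h1 : ContDiff ℝ ∞ φ) (h2 : HasCompactSupport φ) :
    Sst E p * (∫ x, |φ x| ^ p) ^ (2 / p) ≤ ∫ x, Δ φ x ^ 2 := by
  by_cases h3 : φ = 0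
  · have : ∫ x, |φ x| ^ p = 0 := by
      rw [h3]
      simp [zero_rpow hp.ne']
    rw [this, zero_rpow (by positivity), mul_zero]
    exact integral_nonneg fun x => sq_nonneg _
  have hq : Sst E p ≤ quot p univ φ := by
    apply csInf_le
    · refine ⟨0, ?_⟩
      rintro q ⟨ψ, _, _, _, rfl⟩
      exact quot_nonneg _ _ _
    · exact ⟨φ, h1, h2, h3, rfl⟩
  unfold quot at hq
  rw [setIntegral_univ, setIntegral_univ] at hq
  have hpos : 0 ≤ (∫ x, |φ x| ^ p) ^ (2 / p) :=
    rpow_nonneg (integral_nonneg fun x => rpow_nonneg (abs_nonneg _) _) _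
  rcases hpos.eq_or_lt with h0 | h0
  · rw [← h0, mul_zero]
    exact integral_nonneg fun x => sq_nonneg _
  · rwa [le_div_iff₀ h0] at hq

/-- the inequality for Schwartz functions -/
theorem Sst_schwartz {p : ℝ} (hp : 1 ≤ p) (w : 𝓢(E, ℝ)) :
    Sst E p * (∫ x, |w x| ^ p) ^ (2 / p) ≤ ∫ x, Δ w x ^ 2 := by
  have hp0 : 0 < p := by linarith
  let η : ContDiffBump (0 : E) := ⟨1, 2, one_pos, one_lt_two⟩
  set c : ℕ → ℝ := fun k => 1 / ((k : ℝ) + 1) with hc
  have hc0 : ∀ k, 0 < c k := fun k => by rw [hc]; positivity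
  have hc1 : ∀ k, |c k| ≤ 1 := by
    intro k
    rw [abs_of_pos (hc0 k), hc]
    simp only
    rw [div_le_one (by positivity)]
    have : (0:ℝ) ≤ k := Nat.cast_nonneg k
    linarith
  set e : ℕ → E → ℝ := fun k x => η (c k • x) with he
  have hes : ∀ k, ContDiff ℝ ∞ (e k) := fun k => η.contDiff.comp (contDiff_const_smul (c k))
  have hec : ∀ k, HasCompactSupport (e k) := by
    intro k
    have := η.hasCompactSupport.comp_homeomorph (Homeomorph.smulOfNeZero (c k) (hc0 k).ne')
    exact this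
  have he0 : ∀ k x, 0 ≤ e k x := fun k x => η.nonneg
  have he1 : ∀ k x, e k x ≤ 1 := fun k x => η.le_one
  have hev : ∀ x, ∀ᶠ k in atTop, e k =ᶠ[𝓝 x] fun _ => 1 := by
    intro x
    obtain ⟨N, hN⟩ := exists_nat_gt (‖x‖ + 1)
    filter_upwards [eventually_ge_atTop N] with k hk
    filter_upwards [Metric.ball_mem_nhds x one_pos] with y hy
    apply η.one_of_mem_closedBall
    rw [mem_closedBall_zero_iff, norm_smul, Real.norm_eq_abs, abs_of_pos (hc0 k), hc]
    show 1 / ((k:ℝ) + 1) * ‖y‖ ≤ 1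
    rw [one_div, inv_mul_le_iff₀ (by positivity)]
    rw [mem_ball_iff_norm] at hy
    have h1 : ‖y‖ ≤ ‖x‖ + ‖y - x‖ := by
      have := norm_add_le x (y - x)
      rwa [add_sub_cancel] at this
    have h2 : (N : ℝ) ≤ k := by exact_mod_cast hk
    linarith
  -- bounds for the derivatives of the cutoffs
  have hB : ∃ B : ℝ, 0 ≤ B ∧ ∀ k x, ∀ i : ℕ, i ≤ 2 → ‖iteratedFDeriv ℝ i (e k) x‖ ≤ B := by
    have hb : ∀ i : ℕ, ∃ B : ℝ, ∀ x, ‖iteratedFDeriv ℝ i (η : E → ℝ) x‖ ≤ B := by
      intro i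
      have h1 : Continuous (iteratedFDeriv ℝ i (η : E → ℝ)) := (η.contDiff (n := ⊤)).continuous_iteratedFDeriv (by exact_mod_cast le_top)
      exact (η.hasCompactSupport.iteratedFDeriv i).exists_bound_of_continuous h1
    obtain ⟨B0, h0⟩ := hb 0
    obtain ⟨B1, h1⟩ := hb 1
    obtain ⟨B2, h2⟩ := hb 2
    have hB0 : 0 ≤ B0 := (norm_nonneg _).trans (h0 0)
    have hB1 : 0 ≤ B1 := (norm_nonneg _).trans (h1 0)
    have hB2 : 0 ≤ B2 := (norm_nonneg _).trans (h2 0)
    refine ⟨B0 + B1 + B2, by positivity, ?_⟩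
    intro k x i hi
    have h3 := norm_iter_comp_smul_le (m := ⊤) (u := (η : E → ℝ)) η.contDiff (hc1 k) (i := i) le_top x
    have h4 : ‖iteratedFDeriv ℝ i (η : E → ℝ) (c k • x)‖ ≤ B0 + B1 + B2 := by
      interval_cases i
      · linarith [h0 (c k • x)]
      · linarith [h1 (c k • x)]
      · linarith [h2 (c k • x)]
    exact h3.trans h4
  obtain ⟨B, hB0, hB⟩ := hB
  -- the truncated functions
  set v : ℕ → E → ℝ := fun k x => e k x * w x with hv
  have hvs : ∀ k, ContDiff ℝ ∞ (v k) := fun k => (hes k).mul (w.smooth ⊤)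
  have hvc : ∀ k, HasCompactSupport (v k) := fun k => (hec k).mul_right
  have hmain : ∀ k, Sst E p * (∫ x, |v k x| ^ p) ^ (2 / p) ≤ ∫ x, Δ (v k) x ^ 2 := fun k => Sst_test hp0 (hvs k) (hvc k)
  -- dominating function
  set n := Module.finrank ℝ E with hn
  set G : E → ℝ := fun x => 2 * n * B * (‖iteratedFDeriv ℝ 0 w x‖ + ‖iteratedFDeriv ℝ 1 w x‖ + ‖iteratedFDeriv ℝ 2 w x‖) with hG
  have hG0 : ∀ x, 0 ≤ G x := fun x => by rw [hG]; positivity
  have hGint : Integrable G := by
    have h1 : ∀ i : ℕ, Integrable (fun x => ‖iteratedFDeriv ℝ i w x‖) := by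
      intro i
      have := w.integrable_pow_mul_iteratedFDeriv volume 0 i
      simpa using this
    exact (((h1 0).add (h1 1)).add (h1 2)).const_mul _
  have hGb : ∃ M : ℝ, ∀ x, G x ≤ M := by
    have h1 : ∀ i : ℕ, ∃ M : ℝ, ∀ x, ‖iteratedFDeriv ℝ i w x‖ ≤ M := by
      intro i
      obtain ⟨M, hM⟩ := w.decay 0 i
      refine ⟨M, fun x => ?_⟩
      have := hM.2 x
      simpa using this
    obtain ⟨M0, h0⟩ := h1 0
    obtain ⟨M1, h1'⟩ := h1 1
    obtain ⟨M2, h2⟩ := h1 2
    refine ⟨2 * n * B * (M0 + M1 + M2), fun x => ?_⟩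
    rw [hG]
    have := h0 x
    have := h1' x
    have := h2 x
    have h5 : 0 ≤ 2 * (n:ℝ) * B := by positivity
    exact mul_le_mul_of_nonneg_left (by linarith) h5
  obtain ⟨M, hM⟩ := hGb
  have hG2 : Integrable (fun x => G x ^ 2) := by
    have hcG : Continuous G := by
      have : ∀ i : ℕ, Continuous (iteratedFDeriv ℝ i w) := fun i => (w.smooth ⊤).continuous_iteratedFDeriv (by exact_mod_cast le_top)
      exact continuous_const.mul ((((this 0).norm).add ((this 1).norm)).add ((this 2).norm))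
    refine (hGint.const_mul M).mono' (hcG.pow 2).aestronglyMeasurable ?_
    refine Filter.Eventually.of_forall fun x => ?_
    rw [Real.norm_eq_abs, abs_of_nonneg (sq_nonneg _)]
    nlinarith [hM x, hG0 x]
  have hdom : ∀ k x, |Δ (v k) x| ≤ G x := by
    intro k x
    refine (abs_lap_le _ x).trans ?_
    have h1 := norm_iteratedFDeriv_mul_le (hes k) (w.smooth ⊤) x (n := 2) (WithTop.coe_le_coe.2 le_top)
    rw [Finset.sum_range_succ, Finset.sum_range_succ, Finset.sum_range_one] at h1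
    simp only [Nat.choose_zero_right, Nat.cast_one, one_mul, Nat.sub_zero, Nat.choose_one_right, Nat.cast_ofNat,
      Nat.reduceSub, Nat.choose_self] at h1
    have h2 := hB k x 0 (by norm_num)
    have h3 := hB k x 1 (by norm_num)
    have h4 := hB k x 2 le_rfl
    have h5 : ‖iteratedFDeriv ℝ 2 (v k) x‖ ≤ 2 * B * (‖iteratedFDeriv ℝ 0 w x‖ + ‖iteratedFDeriv ℝ 1 w x‖ + ‖iteratedFDeriv ℝ 2 w x‖) := by
      refine h1.trans ?_
      have a0 := norm_nonneg (iteratedFDeriv ℝ 0 w x)
      have a1 := norm_nonneg (iteratedFDeriv ℝ 1 w x)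
      have a2 := norm_nonneg (iteratedFDeriv ℝ 2 w x)
      have b0 := mul_le_mul_of_nonneg_right h2 a2
      have b1 := mul_le_mul_of_nonneg_right h3 a1
      have b2 := mul_le_mul_of_nonneg_right h4 a0
      nlinarith [mul_nonneg hB0 a0, mul_nonneg hB0 a1, mul_nonneg hB0 a2]
    calc (Module.finrank ℝ E : ℝ) * ‖iteratedFDeriv ℝ 2 (v k) x‖
        ≤ n * (2 * B * (‖iteratedFDeriv ℝ 0 w x‖ + ‖iteratedFDeriv ℝ 1 w x‖ + ‖iteratedFDeriv ℝ 2 w x‖)) :=
          mul_le_mul_of_nonneg_left h5 (Nat.cast_nonneg _)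
      _ = G x := by rw [hG]; ring
  have hlapc : ∀ k, Continuous (Δ (v k)) := by
    intro k
    rw [laplacian_eq_iteratedFDeriv_stdOrthonormalBasis]
    apply continuous_finsetSum
    intro i _
    have : Continuous (iteratedFDeriv ℝ 2 (v k)) := (hvs k).continuous_iteratedFDeriv (WithTop.coe_le_coe.2 le_top)
    exact this.eval_const _
  have hlim1 : Tendsto (fun k => ∫ x, Δ (v k) x ^ 2) atTop (𝓝 (∫ x, Δ w x ^ 2)) := by
    refine tendsto_integral_of_dominated_convergence (fun x => G x ^ 2) ?_ hG2 ?_ ?_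
    · intro k
      exact ((hlapc k).pow 2).aestronglyMeasurable
    · intro k
      refine Filter.Eventually.of_forall fun x => ?_
      rw [Real.norm_eq_abs, abs_of_nonneg (sq_nonneg _)]
      exact sq_le_sq' (by linarith [(abs_le.1 (hdom k x)).1]) (abs_le.1 (hdom k x)).2
    · refine Filter.Eventually.of_forall fun x => ?_
      refine tendsto_const_nhds.congr' ?_
      filter_upwards [hev x] with k hk
      have h1 : v k =ᶠ[𝓝 x] w := by
        filter_upwards [hk] with y hy
        rw [hv]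
        simp only
        rw [hy, one_mul]
      rw [laplacian_apply, (laplacian_congr_nhds h1).eq_of_nhds]
  have hwp : Integrable (fun x => |w x| ^ p) := by
    have h1 : MemLp w (ENNReal.ofReal p) volume := w.memLp _ _
    have h2 := h1.integrable_norm_rpow (by simpa using hp0) ENNReal.ofReal_ne_top
    rw [ENNReal.toReal_ofReal hp0.le] at h2
    simpa [Real.norm_eq_abs] using h2
  have hlim2 : Tendsto (fun k => ∫ x, |v k x| ^ p) atTop (𝓝 (∫ x, |w x| ^ p)) := by
    refine tendsto_integral_of_dominated_convergence (fun x => |w x| ^ p) ?_ hwp ?_ ?_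
    · intro k
      exact ((hvs k).continuous.abs.rpow_const (fun x => Or.inr hp0.le)).aestronglyMeasurable
    · intro k
      refine Filter.Eventually.of_forall fun x => ?_
      rw [Real.norm_eq_abs, abs_of_nonneg (rpow_nonneg (abs_nonneg _) _)]
      apply rpow_le_rpow (abs_nonneg _) _ hp0.le
      rw [hv]
      simp only
      rw [abs_mul, abs_of_nonneg (he0 k x)]
      nlinarith [he1 k x, abs_nonneg (w x)]
    · refine Filter.Eventually.of_forall fun x => ?_
      refine tendsto_const_nhds.congr' ?_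
      filter_upwards [hev x] with k hk
      rw [hv]
      simp only
      rw [hk.eq_of_nhds, one_mul]
  have hlim3 : Tendsto (fun k => Sst E p * (∫ x, |v k x| ^ p) ^ (2 / p)) atTop (𝓝 (Sst E p * (∫ x, |w x| ^ p) ^ (2 / p))) :=
    (hlim2.rpow_const (Or.inr (by positivity))).const_mul _
  exact le_of_tendsto_of_tendsto' hlim3 hlim1 hmain

end Pool.Agent.V1180.NV
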