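import Pool.Agent.V1180.NVd

set_option autoImplicit false
set_option linter.unusedSectionVars false

/-!
# The Sobolev inequality with the whole-space constant for functions vanishing on the boundary
-/

namespace Pool.Agent.V1180.NV

open Real MeasureTheory Filter Topology Set Laplacian SchwartzMap InnerProductSpace
open scoped SchwartzMap ContDiff

variable {E : Type} [NormedAddCommGroup E] [InnerProductSpace ℝ E] [FiniteDimensional ℝ E]
  [MeasurableSpace E] [BorelSpace E]

theorem lap_continuousOn {D : Set E} (hD : IsOpen D) {u : E → ℝ} (hu : ContDiffOn ℝ 2 u D) :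
    ContinuousOn (Δ u) D := by
  intro x hx
  have h1 : ContDiffAt ℝ 2 u x := hu.contDiffAt (hD.mem_nhds hx)
  have h2 : ContDiffAt ℝ 0 (iteratedFDeriv ℝ 2 u) x := h1.iteratedFDeriv_right (by norm_num)
  have h3 : ContinuousAt (iteratedFDeriv ℝ 2 u) x := h2.continuousAt
  apply ContinuousAt.continuousWithinAt
  rw [laplacian_eq_iteratedFDeriv_stdOrthonormalBasis]
  exact tendsto_finsetSum _ (fun i _ => h3.eval_const _)

theorem step {p κ ε : ℝ} (hp : 1 ≤ p) (hκ : 0 < κ) (hε : 0 < ε) {D : Set E} (hD : IsOpen D) {u : E → ℝ}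
    (hu : ContDiffOn ℝ 2 u D) (hK : IsCompact {x | x ∈ D ∧ ε ≤ |u x|}) :
    Sst E p * (∫ x in D, (max (|u x| - ε) 0) ^ p) ^ (2 / p) ≤
      (∫ x in {x | x ∈ D ∧ ε ≤ |u x|}, (|Δ u x| + κ * |u x|) ^ 2) + κ := by
  have hp0 : 0 < p := by linarith
  set K : Set E := {x | x ∈ D ∧ ε ≤ |u x|} with hKdef
  have hKD : K ⊆ D := fun x hx => hx.1
  have hgc : ContinuousOn (fun x => |Δ u x| + κ * |u x|) D :=
    (lap_continuousOn hD hu).abs.add (continuousOn_const.mul hu.continuousOn.abs)
  have hg0 : ∀ x, 0 ≤ |Δ u x| + κ * |u x| := fun x => add_nonneg (abs_nonneg _) (mul_nonneg hκ.le (abs_nonneg _))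
  obtain ⟨f, hf1, hf2, hf3, hf4, hf5⟩ := above_on hD hK hKD hgc hg0 hκ
  let F : 𝓢(E, ℝ) := hf2.toSchwartzMap hf1
  have hF : ∀ x, F x = f x := fun x => rfl
  obtain ⟨w, hw⟩ := exists_real hκ F
  have hw0 : ∀ x, 0 ≤ w x := fun x => w_nonneg hκ hw (fun y => by rw [hF]; exact hf3 y) x
  have hcmp : ∀ x ∈ D, ε ≤ |u x| → |u x| - ε ≤ w x := by
    intro x hx hxu
    refine compare hκ hε hw hw0 hD hu hK ?_ hx hxu
    intro y hy hyu
    rw [hF]
    exact hf4 y ⟨hy, hyu⟩
  have hl2 := l2_bound hκ hw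
  have hS := Sst_schwartz hp w
  have hwp : Integrable (fun x => |w x| ^ p) := by
    have h1 : MemLp w (ENNReal.ofReal p) volume := w.memLp _ _
    have h2 := h1.integrable_norm_rpow (by simpa using hp0) ENNReal.ofReal_ne_top
    rw [ENNReal.toReal_ofReal hp0.le] at h2
    simpa [Real.norm_eq_abs] using h2
  have h1 : ∫ x in D, (max (|u x| - ε) 0) ^ p ≤ ∫ x, |w x| ^ p := by
    calc ∫ x in D, (max (|u x| - ε) 0) ^ p ≤ ∫ x in D, |w x| ^ p := by
          apply integral_mono_of_nonneg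
          · exact Filter.Eventually.of_forall fun x => rpow_nonneg (le_max_right _ _) _
          · exact hwp.integrableOn
          · filter_upwards [ae_restrict_mem hD.measurableSet] with x hx
            apply rpow_le_rpow (le_max_right _ _) _ hp0.le
            rw [abs_of_nonneg (hw0 x)]
            apply max_le _ (hw0 x)
            by_cases h : ε ≤ |u x|
            · exact hcmp x hx h
            · push Not at h
              linarith [hw0 x]
      _ ≤ ∫ x, |w x| ^ p := setIntegral_le_integral hwp (Filter.Eventually.of_forall fun x => rpow_nonneg (abs_nonneg _) _)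
  have h2 : (∫ x in D, (max (|u x| - ε) 0) ^ p) ^ (2 / p) ≤ (∫ x, |w x| ^ p) ^ (2 / p) :=
    rpow_le_rpow (integral_nonneg fun x => rpow_nonneg (le_max_right _ _) _) h1 (by positivity)
  have h3 := mul_le_mul_of_nonneg_left h2 (Sst_nonneg (E := E) p)
  have h4 : ∫ x, F x ^ 2 = ∫ x, f x ^ 2 := rfl
  linarith

theorem step2 {p ε : ℝ} (hp : 1 ≤ p) (hε : 0 < ε) {D : Set E} (hD : IsOpen D) {u : E → ℝ}
    (hu : ContDiffOn ℝ 2 u D) (hK : IsCompact {x | x ∈ D ∧ ε ≤ |u x|})
    (hI : IntegrableOn (fun x => Δ u x ^ 2) D) :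
    Sst E p * (∫ x in D, (max (|u x| - ε) 0) ^ p) ^ (2 / p) ≤ ∫ x in D, Δ u x ^ 2 := by
  set K : Set E := {x | x ∈ D ∧ ε ≤ |u x|} with hKdef
  have hKD : K ⊆ D := fun x hx => hx.1
  have hΔ : ContinuousOn (Δ u) K := (lap_continuousOn hD hu).mono hKD
  have huc : ContinuousOn u K := hu.continuousOn.mono hKD
  have i1 : IntegrableOn (fun x => Δ u x ^ 2) K := (hΔ.pow 2).integrableOn_compact hK
  have i2 : IntegrableOn (fun x => 2 * (|Δ u x| * |u x|) + |u x| ^ 2) K :=
    ((continuousOn_const.mul (hΔ.abs.mul huc.abs)).add (huc.abs.pow 2)).integrableOn_compact hK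
  set J := ∫ x in K, (2 * (|Δ u x| * |u x|) + |u x| ^ 2) with hJ
  have hJ0 : 0 ≤ J := integral_nonneg fun x => by positivity
  have hle : ∀ κ : ℝ, 0 < κ → κ ≤ 1 → Sst E p * (∫ x in D, (max (|u x| - ε) 0) ^ p) ^ (2 / p) ≤
      (∫ x in D, Δ u x ^ 2) + κ * (J + 1) := by
    intro κ hκ hκ1
    have h1 := step hp hκ hε hD hu hK
    have h2 : ∫ x in K, (|Δ u x| + κ * |u x|) ^ 2 ≤ ∫ x in K, (Δ u x ^ 2 + κ * (2 * (|Δ u x| * |u x|) + |u x| ^ 2)) := by
      apply integral_mono_of_nonneg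
      · exact Filter.Eventually.of_forall fun x => sq_nonneg _
      · exact i1.add (i2.const_mul κ)
      · refine Filter.Eventually.of_forall fun x => ?_
        simp only
        have h3 := sq_abs (Δ u x)
        have h4 : κ ^ 2 * |u x| ^ 2 ≤ κ * |u x| ^ 2 := by
          apply mul_le_mul_of_nonneg_right _ (sq_nonneg _)
          nlinarith
        nlinarith
    have h3 : ∫ x in K, (Δ u x ^ 2 + κ * (2 * (|Δ u x| * |u x|) + |u x| ^ 2)) = (∫ x in K, Δ u x ^ 2) + κ * J := by
      rw [integral_add i1 (i2.const_mul κ), integral_const_mul]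
    have h4 : ∫ x in K, Δ u x ^ 2 ≤ ∫ x in D, Δ u x ^ 2 :=
      setIntegral_mono_set hI (Filter.Eventually.of_forall fun x => sq_nonneg _) (Filter.Eventually.of_forall hKD)
    linarith
  by_contra hcon
  push Not at hcon
  set A := Sst E p * (∫ x in D, (max (|u x| - ε) 0) ^ p) ^ (2 / p) with hA
  set B := ∫ x in D, Δ u x ^ 2 with hB
  have hpos : 0 < A - B := by linarith
  set κ := min 1 ((A - B) / (2 * (J + 1))) with hκ
  have hκ0 : 0 < κ := lt_min one_pos (by positivity)
  have h1 := hle κ hκ0 (min_le_left _ _)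
  have h2 : κ * (J + 1) ≤ (A - B) / 2 := by
    have h3 : κ ≤ (A - B) / (2 * (J + 1)) := min_le_right _ _
    calc κ * (J + 1) ≤ (A - B) / (2 * (J + 1)) * (J + 1) := mul_le_mul_of_nonneg_right h3 (by positivity)
      _ = (A - B) / 2 := by field_simp
  linarith

/-- **The main inequality.** -/
theorem main_ineq {p : ℝ} (hp : 1 ≤ p) {D : Set E} (hD : IsOpen D) {u : E → ℝ}
    (hu : ContDiffOn ℝ 2 u D) (hK : ∀ ε > 0, IsCompact {x | x ∈ D ∧ ε ≤ |u x|})
    (hI : IntegrableOn (fun x => Δ u x ^ 2) D) (hup : IntegrableOn (fun x => |u x| ^ p) D) :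
    Sst E p * (∫ x in D, |u x| ^ p) ^ (2 / p) ≤ ∫ x in D, Δ u x ^ 2 := by
  have hp0 : 0 < p := by linarith
  have hlim0 : Tendsto (fun k : ℕ => 1 / ((k : ℝ) + 1)) atTop (𝓝 0) := tendsto_one_div_add_atTop_nhds_zero_nat
  have hlim : Tendsto (fun k : ℕ => ∫ x in D, (max (|u x| - 1 / ((k : ℝ) + 1)) 0) ^ p) atTop (𝓝 (∫ x in D, |u x| ^ p)) := by
    refine tendsto_integral_of_dominated_convergence (fun x => |u x| ^ p) ?_ hup ?_ ?_
    · intro k
      apply ContinuousOn.aestronglyMeasurable _ hD.measurableSet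
      apply ContinuousOn.rpow_const _ (fun x _ => Or.inr hp0.le)
      exact (hu.continuousOn.abs.sub continuousOn_const).sup continuousOn_const
    · intro k
      refine Filter.Eventually.of_forall fun x => ?_
      rw [Real.norm_eq_abs, abs_of_nonneg (rpow_nonneg (le_max_right _ _) _)]
      apply rpow_le_rpow (le_max_right _ _) _ hp0.le
      apply max_le _ (abs_nonneg _)
      have : 0 ≤ 1 / ((k:ℝ) + 1) := by positivity
      linarith
    · refine Filter.Eventually.of_forall fun x => ?_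
      apply Tendsto.rpow_const _ (Or.inr hp0.le)
      have h1 : Tendsto (fun k : ℕ => max (|u x| - 1 / ((k : ℝ) + 1)) 0) atTop (𝓝 (max (|u x| - 0) 0)) :=
        (tendsto_const_nhds.sub hlim0).max tendsto_const_nhds
      rwa [sub_zero, max_eq_left (abs_nonneg _)] at h1
  have hlim3 := (hlim.rpow_const (p := 2 / p) (Or.inr (by positivity))).const_mul (Sst E p)
  refine le_of_tendsto' hlim3 fun k => ?_
  have hk : 0 < 1 / ((k : ℝ) + 1) := by positivity
  exact step2 hp hk hD hu (hK _ hk) hI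

end Pool.Agent.V1180.NV
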