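import Pool.Agent.V1180.NVe

set_option autoImplicit false
set_option linter.unusedSectionVars false

/-!
# Scaling of the quotient; the Navier and Dirichlet classes; the space D²
-/

namespace Pool.Agent.V1180.NV

open Real MeasureTheory Filter Topology Set Laplacian SchwartzMap InnerProductSpace
open scoped SchwartzMap ContDiff

variable {E : Type} [NormedAddCommGroup E] [InnerProductSpace ℝ E] [FiniteDimensional ℝ E]
  [MeasurableSpace E] [BorelSpace E]

theorem lap_zero_of_notMem_tsupport {u : E → ℝ} {x : E} (hx : x ∉ tsupport u) : Δ u x = 0 := by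
  have h1 : u =ᶠ[𝓝 x] fun _ => 0 := by
    filter_upwards [(isClosed_tsupport u).isOpen_compl.mem_nhds hx] with y hy
    exact image_eq_zero_of_notMem_tsupport hy
  rw [(laplacian_congr_nhds h1).eq_of_nhds]
  have : Δ (fun _ : E => (0:ℝ)) = 0 := laplacian_const
  rw [this]
  rfl

/-- a scaled copy of a test function, supported in a given open set, with the same quotient -/
theorem scaled_copy {p : ℝ} (hn : 4 < Module.finrank ℝ E)
    (hp : p = 2 * Module.finrank ℝ E / (Module.finrank ℝ E - 4)) {D : Set E} (hD : IsOpen D) (hne : D.Nonempty)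
    {φ : E → ℝ} (h1 : ContDiff ℝ ∞ φ) (h2 : HasCompactSupport φ) (h3 : φ ≠ 0) :
    ∃ u : E → ℝ, ContDiff ℝ ∞ u ∧ HasCompactSupport u ∧ tsupport u ⊆ D ∧ u ≠ 0 ∧ quot p D u = quot p univ φ := by
  obtain ⟨a, ha⟩ := hne
  obtain ⟨ρ, hρ, hball⟩ := Metric.isOpen_iff.1 hD a ha
  obtain ⟨R, hR⟩ := h2.isCompact.isBounded.subset_closedBall (0 : E)
  set R' := max R 0 + 1 with hR'
  have hR'0 : 0 < R' := by have := le_max_right R 0; linarith
  set c : ℝ := R' / ρ with hc
  have hc0 : 0 < c := by positivity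
  set u : E → ℝ := fun y => φ (c • (y - a)) with hu
  have hus : ContDiff ℝ ∞ u := h1.comp ((contDiff_const_smul c).comp (contDiff_id.sub contDiff_const))
  have hts : tsupport u ⊆ Metric.ball a ρ := by
    have hsub : Function.support u ⊆ Metric.closedBall a (max R 0 / c) := by
      intro y hy
      have h5 : c • (y - a) ∈ tsupport φ := subset_tsupport _ hy
      have h6 := hR h5
      rw [mem_closedBall_zero_iff, norm_smul, Real.norm_eq_abs, abs_of_pos hc0] at h6
      rw [mem_closedBall_iff_norm, le_div_iff₀ hc0]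
      have := le_max_left R 0
      linarith
    have h7 : tsupport u ⊆ Metric.closedBall a (max R 0 / c) := closure_minimal hsub Metric.isClosed_closedBall
    refine h7.trans (Metric.closedBall_subset_ball ?_)
    rw [div_lt_iff₀ hc0, hc]
    have : ρ * (R' / ρ) = R' := by field_simp
    rw [this]
    linarith
  have htD : tsupport u ⊆ D := hts.trans hball
  have huc : HasCompactSupport u := by
    apply IsCompact.of_isClosed_subset (isCompact_closedBall a ρ) (isClosed_tsupport u)
    exact hts.trans Metric.ball_subset_closedBall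
  have hune : u ≠ 0 := by
    intro h
    apply h3
    ext x
    have h5 := congrFun h (c⁻¹ • x + a)
    simp only [hu, add_sub_cancel_right, smul_smul, mul_inv_cancel₀ hc0.ne', one_smul] at h5
    exact h5
  refine ⟨u, hus, huc, htD, hune, ?_⟩
  unfold quot
  have e1 : ∫ x in D, Δ u x ^ 2 = ∫ x, Δ u x ^ 2 := by
    apply setIntegral_eq_integral_of_forall_compl_eq_zero
    intro x hx
    rw [lap_zero_of_notMem_tsupport (fun h => hx (htD h))]
    simp
  have hpn : (0:ℝ) < Module.finrank ℝ E - 4 := by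
    have : (4:ℝ) < Module.finrank ℝ E := by exact_mod_cast hn
    linarith
  have hn0 : (0:ℝ) < Module.finrank ℝ E := by linarith
  have hp0 : 0 < p := by rw [hp]; positivity
  have e2 : ∫ x in D, |u x| ^ p = ∫ x, |u x| ^ p := by
    apply setIntegral_eq_integral_of_forall_compl_eq_zero
    intro x hx
    rw [image_eq_zero_of_notMem_tsupport (fun h => hx (htD h)), abs_zero, zero_rpow hp0.ne']
  have e3 : ∫ x, Δ u x ^ 2 = c ^ 4 * ((c ^ Module.finrank ℝ E)⁻¹ * ∫ x, Δ φ x ^ 2) := by
    have h5 : ∀ x, Δ u x ^ 2 = c ^ 4 * (Δ φ (c • (x - a))) ^ 2 := by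
      intro x
      have h6 : Δ u x = Δ (fun y => φ (c • y)) (x - a) := lap_comp_sub (fun y => φ (c • y)) a x
      rw [h6, lap_comp_smul (h1.of_le (WithTop.coe_le_coe.2 le_top)) c]
      ring
    simp_rw [h5]
    rw [integral_const_mul]
    congr 1
    rw [integral_sub_right_eq_self (fun x => Δ φ (c • x) ^ 2) a]
    rw [Measure.integral_comp_smul volume (fun x => Δ φ x ^ 2) c]
    rw [smul_eq_mul, abs_of_pos (by positivity)]
  have e4 : ∫ x, |u x| ^ p = (c ^ Module.finrank ℝ E)⁻¹ * ∫ x, |φ x| ^ p := by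
    rw [hu]
    simp only
    rw [integral_sub_right_eq_self (fun x => |φ (c • x)| ^ p) a]
    rw [Measure.integral_comp_smul volume (fun x => |φ x| ^ p) c]
    rw [smul_eq_mul, abs_of_pos (by positivity)]
  rw [setIntegral_univ, setIntegral_univ, e1, e2, e3, e4]
  rw [mul_rpow (by positivity) (integral_nonneg fun x => rpow_nonneg (abs_nonneg _) _)]
  have e5 : ((c ^ Module.finrank ℝ E)⁻¹ : ℝ) ^ (2 / p) = c ^ 4 * (c ^ Module.finrank ℝ E)⁻¹ := by
    have h6 : (c ^ Module.finrank ℝ E)⁻¹ = c ^ (-(Module.finrank ℝ E : ℝ)) := by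
      rw [rpow_neg hc0.le, rpow_natCast]
    have h7 : c ^ 4 = c ^ (4:ℝ) := by
      rw [← rpow_natCast]
      norm_num
    rw [h6, h7, ← rpow_mul hc0.le, ← rpow_add hc0]
    congr 1
    rw [hp]
    field_simp
    ring
  rw [e5]
  have h8 : 0 < c ^ 4 * (c ^ Module.finrank ℝ E)⁻¹ := by positivity
  rw [← mul_assoc, mul_div_mul_left _ _ h8.ne']

end Pool.Agent.V1180.NV
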