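import Pool.Agent.V1180.LPe

/-!
# Logarithmic potentials: continuity, behaviour at infinity, minimum principle
-/

namespace Pool.Agent.V1180.PZ

open MeasureTheory Filter Topology Set Metric
open scoped InnerProductSpace ENNReal
open Pool.Agent.V1180.LP

/-- the potential -/
noncomputable def pot (S : Set ℂ) (w : ℂ → ℝ) (x : ℂ) : ℝ := ∫ y in S, lk x y * w y

theorem lk_memLp {S : Set ℂ} {ρ : ℝ} (hS : S ⊆ ball 0 ρ) (x : ℂ) :
    MemLp (lk x) 2 (volume.restrict S) := by
  have h1 : S ⊆ ball 0 (max ρ (‖x‖ + 1)) := hS.trans (ball_subset_ball (le_max_left _ _))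
  have h2 : x ∈ ball (0 : ℂ) (max ρ (‖x‖ + 1)) := by
    rw [mem_ball_zero_iff]
    exact lt_of_lt_of_le (by linarith) (le_max_right _ _)
  exact row_memLp lk_meas (row_bound h1 h2).1

theorem kd_memLp {S : Set ℂ} {ρ : ℝ} (hm : MeasurableSet S) (hS : S ⊆ ball 0 ρ) {δ : ℝ}
    (hδ : 0 < δ) (x : ℂ) : MemLp (kd δ x) 2 (volume.restrict S) := by
  have hfin := fin_of_ball hS
  obtain ⟨b, hb⟩ := (isCompact_closedBall (0 : ℂ) ρ).exists_bound_of_continuousOn
    (kd_cont hδ x).continuousOn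
  refine MemLp.of_bound (C := b) (kd_cont hδ x).aestronglyMeasurable ?_
  filter_upwards [ae_restrict_mem hm] with y hy
  exact hb y (ball_subset_closedBall (hS hy))

theorem ae_ne (S : Set ℂ) (x : ℂ) : ∀ᵐ y ∂(volume.restrict S), y ≠ x := by
  have : ∀ᵐ y ∂(volume : Measure ℂ), y ≠ x := by
    rw [ae_iff]
    simp
  exact ae_restrict_of_ae this

theorem lk_kd_sq (S : Set ℂ) {δ : ℝ}
    (hδ : 0 < δ) (hδ1 : δ ≤ 1) (x : ℂ) :
    ∫ y in S, (lk x y - kd δ x y) ^ 2 ≤ c2 δ := by
  have hshift := shift_int (logsq_int δ) x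
  have hind : Integrable ((ball x δ).indicator fun y => Real.log ‖x - y‖ ^ 2) volume :=
    (integrable_indicator_iff measurableSet_ball).2 hshift.1
  have h2 : ∫ y in S, (lk x y - kd δ x y) ^ 2
      ≤ ∫ y in S, (ball x δ).indicator (fun y => Real.log ‖x - y‖ ^ 2) y := by
    refine integral_mono_of_nonneg (Eventually.of_forall fun y => sq_nonneg _)
      (hind.mono_measure Measure.restrict_le_self) ?_
    filter_upwards [ae_ne S x] with y hy
    exact kd_lk hδ hδ1 hy
  refine h2.trans ((setIntegral_le_integral hind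
    (Eventually.of_forall fun y => indicator_nonneg (fun _ _ => sq_nonneg _) y)).trans_eq ?_)
  rw [integral_indicator measurableSet_ball]
  exact hshift.2

theorem row_cont {S : Set ℂ} {ρ : ℝ} (hm : MeasurableSet S) (hS : S ⊆ ball 0 ρ) (ε : ℝ)
    (hε : 0 < ε) : ∃ d : ℝ, 0 < d ∧ ∀ x x' : ℂ, ‖x - x'‖ < d →
      ∫ y in S, (lk x y - lk x' y) ^ 2 ≤ ε := by
  have hfin := fin_of_ball hS
  obtain ⟨δ, hδ, hδ1, hδc⟩ := c2_small (ε / 9) (by positivity)
  set V : ℝ := (volume.restrict S).real univ with hV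
  have hV0 : 0 ≤ V := measureReal_nonneg
  refine ⟨δ * min 1 (ε / (9 * (V + 1))), by positivity, fun x x' hxx => ?_⟩
  set q : ℝ := min 1 (ε / (9 * (V + 1))) with hq
  have hq0 : 0 < q := by positivity
  have hq1 : q ≤ 1 := min_le_left _ _
  have hqV : q ≤ ε / (9 * (V + 1)) := min_le_right _ _
  have hkd : ∀ y, (kd δ x y - kd δ x' y) ^ 2 ≤ q := by
    intro y
    have h1 := kd_close hδ x x' y
    have h2 : ‖x - x'‖ / δ ≤ q := by
      rw [div_le_iff₀ hδ]
      linarith
    have h3 : |kd δ x y - kd δ x' y| ≤ q := h1.trans h2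
    rw [← sq_abs]
    nlinarith [abs_nonneg (kd δ x y - kd δ x' y)]
  have hI1 : Integrable (fun y => (lk x y - kd δ x y) ^ 2) (volume.restrict S) :=
    ((lk_memLp hS x).sub (kd_memLp hm hS hδ x)).integrable_sq
  have hI2 : Integrable (fun y => (lk x' y - kd δ x' y) ^ 2) (volume.restrict S) :=
    ((lk_memLp hS x').sub (kd_memLp hm hS hδ x')).integrable_sq
  have h1 : ∫ y in S, (lk x y - lk x' y) ^ 2 ≤ ∫ y in S, (3 * (lk x y - kd δ x y) ^ 2
      + 3 * (lk x' y - kd δ x' y) ^ 2 + 3 * q) := by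
    refine integral_mono_of_nonneg (Eventually.of_forall fun y => sq_nonneg _)
      (((hI1.const_mul 3).add (hI2.const_mul 3)).add (integrable_const _))
      (Eventually.of_forall fun y => ?_)
    simp only
    have h2 := hkd y
    have e : lk x y - lk x' y = (lk x y - kd δ x y) + (kd δ x y - kd δ x' y)
        - (lk x' y - kd δ x' y) := by ring
    rw [e]
    nlinarith [sq_nonneg ((lk x y - kd δ x y) - (kd δ x y - kd δ x' y)),
      sq_nonneg ((lk x y - kd δ x y) + (lk x' y - kd δ x' y)),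
      sq_nonneg ((kd δ x y - kd δ x' y) + (lk x' y - kd δ x' y))]
  refine h1.trans ?_
  have hI12 : Integrable (fun y => 3 * (lk x y - kd δ x y) ^ 2 + 3 * (lk x' y - kd δ x' y) ^ 2)
      (volume.restrict S) := (hI1.const_mul 3).add (hI2.const_mul 3)
  rw [integral_add hI12 (integrable_const _),
    integral_add (hI1.const_mul 3) (hI2.const_mul 3), integral_const_mul, integral_const_mul,
    integral_const, smul_eq_mul]
  have h2 := lk_kd_sq S hδ hδ1 x
  have h3 := lk_kd_sq S hδ hδ1 x'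
  have h4 : V * (3 * q) ≤ ε / 3 := by
    calc V * (3 * q) ≤ V * (3 * (ε / (9 * (V + 1)))) := by gcongr
      _ = (V / (V + 1)) * (ε / 3) := by
          field_simp
          ring
      _ ≤ 1 * (ε / 3) := by
          have : V / (V + 1) ≤ 1 := by
            rw [div_le_one (by positivity)]
            linarith
          gcongr
      _ = ε / 3 := one_mul _
  linarith

theorem lk_mul_int {S : Set ℂ} {ρ : ℝ} (hS : S ⊆ ball 0 ρ) {w : ℂ → ℝ}
    (hw : MemLp w 2 (volume.restrict S)) (x : ℂ) :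
    Integrable (fun y => lk x y * w y) (volume.restrict S) :=
  (lk_memLp hS x).integrable_mul hw

theorem pot_sub_le {S : Set ℂ} {ρ : ℝ} (hS : S ⊆ ball 0 ρ) {w : ℂ → ℝ}
    (hw : MemLp w 2 (volume.restrict S)) (x x' : ℂ) :
    |pot S w x - pot S w x'| ≤ Real.sqrt (∫ y in S, (lk x y - lk x' y) ^ 2)
      * Real.sqrt (∫ y in S, w y ^ 2) := by
  unfold pot
  rw [← integral_sub (lk_mul_int hS hw x) (lk_mul_int hS hw x')]
  have h := cs ((lk_memLp hS x).sub (lk_memLp hS x')) hw
  have e : ∫ y in S, (lk x y * w y - lk x' y * w y)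
      = ∫ y in S, (lk x - lk x') y * w y :=
    integral_congr_ae (Eventually.of_forall fun y => by
      simp only [Pi.sub_apply]
      ring)
  rw [e]
  exact h

theorem pot_cont {S : Set ℂ} {ρ : ℝ} (hm : MeasurableSet S) (hS : S ⊆ ball 0 ρ) {w : ℂ → ℝ}
    (hw : MemLp w 2 (volume.restrict S)) : Continuous (pot S w) := by
  rw [Metric.continuous_iff]
  intro x ε hε
  set N : ℝ := Real.sqrt (∫ y in S, w y ^ 2) with hN
  have hN0 : 0 ≤ N := Real.sqrt_nonneg _
  obtain ⟨d, hd, h⟩ := row_cont hm hS ((ε / (N + 1)) ^ 2) (by positivity)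
  refine ⟨d, hd, fun x' hx' => ?_⟩
  rw [dist_eq_norm] at hx'
  rw [Real.dist_eq]
  have h1 := pot_sub_le hS hw x' x
  have h2 : Real.sqrt (∫ y in S, (lk x' y - lk x y) ^ 2) ≤ ε / (N + 1) := by
    rw [Real.sqrt_le_left (by positivity)]
    exact h x' x hx'
  calc |pot S w x' - pot S w x| ≤ (ε / (N + 1)) * N := h1.trans (by gcongr)
    _ < ε := by
        have : (ε / (N + 1)) * N = ε * (N / (N + 1)) := by ring
        rw [this]
        have h3 : N / (N + 1) < 1 := by
          rw [div_lt_one (by positivity)]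
          linarith
        nlinarith

theorem pot_infty {S : Set ℂ} {ρ : ℝ} (hρ : 0 < ρ) (hm : MeasurableSet S) (hS : S ⊆ ball 0 ρ)
    {w : ℂ → ℝ} (hw : MemLp w 2 (volume.restrict S)) (ε : ℝ) (hε : 0 < ε) :
    ∃ R : ℝ, 1 ≤ R ∧ ∀ x : ℂ, R ≤ ‖x‖ → |pot S w x + Real.log ‖x‖ * ∫ y in S, w y| ≤ ε := by
  have hfin := fin_of_ball hS
  have hw1 : Integrable w (volume.restrict S) := hw.integrable (by norm_num)
  set N : ℝ := ∫ y in S, |w y| with hN
  have hN0 : 0 ≤ N := integral_nonneg fun y => abs_nonneg _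
  refine ⟨1 + ρ + ρ * (N + 1) / ε, ?_, fun x hx => ?_⟩
  · have : 0 ≤ ρ * (N + 1) / ε := by positivity
    linarith
  have hpos : 0 < ρ * (N + 1) / ε := by positivity
  have hxρ : 0 < ‖x‖ - ρ := by linarith
  have hx2 : ρ * (N + 1) / ε ≤ ‖x‖ - ρ := by linarith
  unfold pot
  rw [← integral_const_mul, ← integral_add (lk_mul_int hS hw x) (hw1.const_mul _)]
  have h1 : |∫ y in S, (lk x y * w y + Real.log ‖x‖ * w y)|
      ≤ ∫ y in S, (ρ / (‖x‖ - ρ)) * |w y| := by
    rw [← Real.norm_eq_abs]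
    refine norm_integral_le_of_norm_le (hw1.abs.const_mul _) ?_
    filter_upwards [ae_restrict_mem hm] with y hy
    have hy' : ‖y‖ < ρ := by simpa using hS hy
    have h2 : ‖x‖ - ρ ≤ ‖x - y‖ := by
      have := norm_sub_norm_le x y
      linarith
    have h3 := log_lip hxρ (show ‖x‖ - ρ ≤ ‖x‖ by linarith) h2
    have h4 : |‖x‖ - ‖x - y‖| ≤ ρ := by
      refine (abs_norm_sub_norm_le x (x - y)).trans ?_
      rw [sub_sub_cancel]
      exact hy'.le
    rw [lk_eq, Real.norm_eq_abs]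
    have e : -Real.log ‖x - y‖ * w y + Real.log ‖x‖ * w y
        = (Real.log ‖x‖ - Real.log ‖x - y‖) * w y := by ring
    rw [e, abs_mul]
    refine mul_le_mul_of_nonneg_right (h3.trans ?_) (abs_nonneg _)
    gcongr
  refine h1.trans ?_
  rw [integral_const_mul, ← hN]
  have h5 : ρ / (‖x‖ - ρ) ≤ ε / (N + 1) := by
    rw [div_le_div_iff₀ hxρ (by positivity)]
    rw [div_le_iff₀ hε] at hx2
    linarith
  calc ρ / (‖x‖ - ρ) * N ≤ (ε / (N + 1)) * N := by gcongr
    _ = ε * (N / (N + 1)) := by ring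
    _ ≤ ε * 1 := by
        have : N / (N + 1) ≤ 1 := by
          rw [div_le_one (by positivity)]
          linarith
        gcongr
    _ = ε := mul_one _

/-- circle averages of the kernel -/
theorem avg_lk (x₀ y : ℂ) {r : ℝ} (hr : 0 < r) :
    ∫ θ in (0 : ℝ)..(2 * Real.pi), lk (circleMap x₀ r θ) y = 2 * Real.pi * kd r x₀ y := by
  have h := circleAverage_log_norm_sub_const_eq_log_radius_add_posLog (c := x₀) (a := y) hr.ne'
  unfold Real.circleAverage at h
  have hpi := Real.pi_pos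
  have h1 : ∫ θ in (0 : ℝ)..(2 * Real.pi), Real.log ‖circleMap x₀ r θ - y‖
      = 2 * Real.pi * (Real.log r + Real.posLog (r⁻¹ * ‖x₀ - y‖)) := by
    rw [smul_eq_mul] at h
    rw [← h]
    field_simp
  have h2 : Real.log r + Real.posLog (r⁻¹ * ‖x₀ - y‖) = Real.log (max ‖x₀ - y‖ r) := by
    rcases le_total ‖x₀ - y‖ r with hle | hle
    · rw [max_eq_right hle]
      have : Real.posLog (r⁻¹ * ‖x₀ - y‖) = 0 := by
        rw [Real.posLog_eq_zero_iff, abs_of_nonneg (by positivity), inv_mul_le_iff₀ hr, mul_one]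
        exact hle
      rw [this, add_zero]
    · rw [max_eq_left hle]
      have hpos : 0 < ‖x₀ - y‖ := hr.trans_le hle
      rw [Real.posLog_eq_log, Real.log_mul (by positivity) hpos.ne', Real.log_inv]
      · ring
      · rw [abs_of_nonneg (by positivity), ← div_eq_inv_mul, le_div_iff₀ hr, one_mul]
        exact hle
  have h3 : ∫ θ in (0 : ℝ)..(2 * Real.pi), lk (circleMap x₀ r θ) y
      = -∫ θ in (0 : ℝ)..(2 * Real.pi), Real.log ‖circleMap x₀ r θ - y‖ := by
    rw [← intervalIntegral.integral_neg]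
    exact intervalIntegral.integral_congr fun θ _ => lk_eq _ _
  rw [h3, h1, h2]
  unfold kd
  ring

end Pool.Agent.V1180.PZ
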