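import Pool.Agent.V1180.PZa

/-!
# Minimum principle for logarithmic potentials
-/

namespace Pool.Agent.V1180.PZ

open MeasureTheory Filter Topology Set Metric
open scoped InnerProductSpace ENNReal
open Pool.Agent.V1180.LP

/-- circle averages of a potential -/
theorem avg_pot {S : Set ℂ} {ρ : ℝ} (hm : MeasurableSet S) (hS : S ⊆ ball 0 ρ) {w : ℂ → ℝ}
    (hw : MemLp w 2 (volume.restrict S)) (x₀ : ℂ) {r : ℝ} (hr : 0 < r) :
    ∫ θ in (0 : ℝ)..(2 * Real.pi), pot S w (circleMap x₀ r θ)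
      = 2 * Real.pi * ∫ y in S, kd r x₀ y * w y := by
  have hfin := fin_of_ball hS
  have hpi := Real.pi_pos
  obtain ⟨w', hw'm, hww'⟩ := hw.1
  have hw' : MemLp w' 2 (volume.restrict S) := hw.ae_eq hww'
  have hpw : ∀ x, pot S w x = pot S w' x := by
    intro x
    refine integral_congr_ae ?_
    filter_upwards [hww'] with y hy
    rw [hy]
  set ν : Measure ℝ := volume.restrict (Ioc 0 (2 * Real.pi)) with hν
  have hmeas : Measurable fun p : ℝ × ℂ => lk (circleMap x₀ r p.1) p.2 * w' p.2 := by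
    refine Measurable.mul ?_ (hw'm.measurable.comp measurable_snd)
    have : Measurable fun p : ℝ × ℂ => (circleMap x₀ r p.1, p.2) :=
      ((continuous_circleMap x₀ r).measurable.comp measurable_fst).prodMk measurable_snd
    exact lk_meas.comp this
  -- uniform bound of the rows
  set ρ' : ℝ := max ρ (‖x₀‖ + r + 1) with hρ'
  have hS' : S ⊆ ball 0 ρ' := hS.trans (ball_subset_ball (le_max_left _ _))
  have hcirc : ∀ θ, circleMap x₀ r θ ∈ ball (0 : ℂ) ρ' := by
    intro θ
    rw [mem_ball_zero_iff]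
    have h1 : ‖circleMap x₀ r θ‖ ≤ ‖x₀‖ + r := by
      unfold circleMap
      refine (norm_add_le _ _).trans ?_
      rw [norm_mul, Complex.norm_real, Complex.norm_exp_ofReal_mul_I, mul_one, Real.norm_eq_abs,
        abs_of_pos hr]
    exact lt_of_lt_of_le (by linarith) (le_max_right _ _)
  have hrow : ∀ θ, ∫ y in S, ‖lk (circleMap x₀ r θ) y * w' y‖
      ≤ Real.sqrt (c2 (2 * ρ')) * Real.sqrt (∫ y in S, w' y ^ 2) := by
    intro θ
    have h1 := cs (lk_memLp hS' (circleMap x₀ r θ)).norm hw'.norm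
    have h2 : ∫ y in S, ‖lk (circleMap x₀ r θ) y * w' y‖
        = ∫ y in S, ‖lk (circleMap x₀ r θ) y‖ * ‖w' y‖ :=
      integral_congr_ae (Eventually.of_forall fun y => norm_mul _ _)
    rw [h2]
    refine (le_abs_self _).trans (h1.trans ?_)
    have h3 : ∫ y in S, ‖w' y‖ ^ 2 = ∫ y in S, w' y ^ 2 :=
      integral_congr_ae (Eventually.of_forall fun y => by simp)
    have h4 : ∫ y in S, ‖lk (circleMap x₀ r θ) y‖ ^ 2 ≤ c2 (2 * ρ') := by
      refine le_trans (le_of_eq ?_) (row_bound hS' (hcirc θ)).2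
      exact integral_congr_ae (Eventually.of_forall fun y => by simp)
    rw [h3]
    gcongr
  have hint : Integrable (fun p : ℝ × ℂ => lk (circleMap x₀ r p.1) p.2 * w' p.2)
      (ν.prod (volume.restrict S)) := by
    rw [integrable_prod_iff hmeas.aestronglyMeasurable]
    have hA : ∀ θ, Integrable (fun y => lk (circleMap x₀ r θ) y * w' y) (volume.restrict S) :=
      fun θ => lk_mul_int hS' hw' _
    have hsm : StronglyMeasurable fun θ => ∫ y in S, ‖lk (circleMap x₀ r θ) y * w' y‖ :=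
      hmeas.norm.stronglyMeasurable.integral_prod_right'
    refine ⟨Eventually.of_forall hA, ?_⟩
    have hB : ∀ θ : ℝ, ‖∫ y in S, ‖lk (circleMap x₀ r θ) y * w' y‖‖
        ≤ Real.sqrt (c2 (2 * ρ')) * Real.sqrt (∫ y in S, w' y ^ 2) := by
      intro θ
      rw [Real.norm_eq_abs, abs_of_nonneg (integral_nonneg fun y => norm_nonneg _)]
      exact hrow θ
    exact Integrable.of_bound hsm.aestronglyMeasurable
      (Real.sqrt (c2 (2 * ρ')) * Real.sqrt (∫ y in S, w' y ^ 2)) (Eventually.of_forall hB)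
  have h1 : ∫ θ in (0 : ℝ)..(2 * Real.pi), pot S w (circleMap x₀ r θ)
      = ∫ θ, (∫ y in S, lk (circleMap x₀ r θ) y * w' y) ∂ν := by
    rw [intervalIntegral.integral_of_le (by positivity)]
    refine integral_congr_ae (Eventually.of_forall fun θ => ?_)
    exact hpw _
  rw [h1, integral_integral_swap hint]
  have h2 : ∀ y, ∫ θ, lk (circleMap x₀ r θ) y * w' y ∂ν = 2 * Real.pi * (kd r x₀ y * w' y) := by
    intro y
    rw [integral_mul_const, ← intervalIntegral.integral_of_le (by positivity), avg_lk x₀ y hr]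
    ring
  simp only [h2]
  rw [integral_const_mul]
  congr 1
  refine integral_congr_ae ?_
  filter_upwards [hww'] with y hy
  rw [hy]

/-- Local minimum principle. -/
theorem local_min {S : Set ℂ} {ρ : ℝ} (hm : MeasurableSet S) (hS : S ⊆ ball 0 ρ) {w : ℂ → ℝ}
    (hw : MemLp w 2 (volume.restrict S)) {x₀ : ℂ} {r₀ : ℝ}
    (hpos : ∀ᵐ y ∂(volume.restrict S), y ∈ ball x₀ r₀ → 0 ≤ w y)
    (hmin : ∀ x ∈ ball x₀ r₀, pot S w x₀ ≤ pot S w x) :
    ∀ x ∈ ball x₀ r₀, pot S w x = pot S w x₀ := by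
  have hpi := Real.pi_pos
  have hcont := pot_cont hm hS hw
  intro x hx
  rw [mem_ball, dist_eq_norm] at hx
  by_cases hxx : x = x₀
  · rw [hxx]
  set r : ℝ := ‖x - x₀‖ with hr
  have hr0 : 0 < r := norm_pos_iff.2 (sub_ne_zero.2 hxx)
  have havg := avg_pot hm hS hw x₀ hr0
  have hle : ∫ y in S, kd r x₀ y * w y ≤ pot S w x₀ := by
    unfold pot
    refine integral_mono_ae ((kd_memLp hm hS hr0 x₀).integrable_mul hw) (lk_mul_int hS hw x₀) ?_
    filter_upwards [hpos, ae_ne S x₀] with y hy hyx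
    change kd r x₀ y * w y ≤ lk x₀ y * w y
    unfold kd
    rw [lk_eq]
    by_cases hyr : ‖x₀ - y‖ < r
    · rw [max_eq_right hyr.le]
      have hpos' : 0 < ‖x₀ - y‖ := norm_pos_iff.2 (sub_ne_zero.2 hyx.symm)
      have h1 := Real.log_le_log hpos' hyr.le
      have h2 : 0 ≤ w y := hy (by
        rw [mem_ball, dist_eq_norm, norm_sub_rev]
        linarith)
      nlinarith
    · rw [max_eq_left (not_lt.1 hyr)]
  have hcirc : ∀ θ, circleMap x₀ r θ ∈ ball x₀ r₀ := by
    intro θ
    have h1 : circleMap x₀ r θ ∈ sphere x₀ r := circleMap_mem_sphere x₀ hr0.le θ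
    rw [mem_sphere] at h1
    rw [mem_ball, h1]
    exact hx
  have hgc : Continuous fun θ => pot S w (circleMap x₀ r θ) - pot S w x₀ :=
    (hcont.comp (continuous_circleMap x₀ r)).sub continuous_const
  have hgn : ∀ θ, 0 ≤ pot S w (circleMap x₀ r θ) - pot S w x₀ := fun θ => by
    linarith [hmin _ (hcirc θ)]
  have hzero : ∫ θ in (0 : ℝ)..(2 * Real.pi), (pot S w (circleMap x₀ r θ) - pot S w x₀) = 0 := by
    refine le_antisymm ?_ ?_
    · have hi1 : IntervalIntegrable (fun θ => pot S w (circleMap x₀ r θ)) volume 0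
          (2 * Real.pi) := (hcont.comp (continuous_circleMap x₀ r)).intervalIntegrable _ _
      rw [intervalIntegral.integral_sub hi1
        (continuous_const.intervalIntegrable _ _), havg, intervalIntegral.integral_const]
      rw [smul_eq_mul, sub_zero]
      nlinarith
    · exact intervalIntegral.integral_nonneg (by positivity) fun θ _ => hgn θ
  rw [intervalIntegral.integral_of_le (by positivity)] at hzero
  have hae : (fun θ => pot S w (circleMap x₀ r θ) - pot S w x₀)
      =ᵐ[volume.restrict (Ioc 0 (2 * Real.pi))] 0 :=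
    (integral_eq_zero_iff_of_nonneg hgn (hgc.integrableOn_Ioc)).1 hzero
  rw [Measure.restrict_congr_set Ioc_ae_eq_Icc] at hae
  have heq := Measure.eqOn_Icc_of_ae_eq (μ := volume) (by positivity : (0 : ℝ) ≠ 2 * Real.pi) hae
    hgc.continuousOn continuousOn_const
  have hxs : x ∈ circleMap x₀ r '' Ioc 0 (2 * Real.pi) := by
    rw [image_circleMap_Ioc, abs_of_pos hr0, mem_sphere, dist_eq_norm]
  obtain ⟨θ, hθ, hxθ⟩ := hxs
  have := heq (Ioc_subset_Icc_self hθ)
  simp only [Pi.zero_apply] at this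
  rw [hxθ] at this
  linarith

/-- Global minimum principle on a closed set `C`. -/
theorem global_min {S : Set ℂ} {ρ : ℝ} (hm : MeasurableSet S) (hS : S ⊆ ball 0 ρ) {w : ℂ → ℝ}
    (hw : MemLp w 2 (volume.restrict S)) {C : Set ℂ} (hC : IsClosed C)
    (hbd : ∀ x ∈ C, x ∉ interior C → 0 ≤ pot S w x)
    (hinf : ∀ ε : ℝ, 0 < ε → ∃ R : ℝ, ∀ x ∈ C, R ≤ ‖x‖ → -ε ≤ pot S w x)
    (hpos : ∀ᵐ y ∂(volume.restrict S), y ∈ C → pot S w y < 0 → 0 ≤ w y) :
    ∀ x ∈ C, 0 ≤ pot S w x := by
  by_contra hcon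
  push Not at hcon
  obtain ⟨x₁, hx₁, hneg⟩ := hcon
  have hcont := pot_cont hm hS hw
  obtain ⟨R, hR⟩ := hinf (-pot S w x₁ / 2) (by linarith)
  set R' : ℝ := max R ‖x₁‖ with hR'
  have hcomp : IsCompact (C ∩ closedBall 0 R') := (isCompact_closedBall _ _).inter_left hC
  obtain ⟨x₀, hx₀, hx₀m⟩ := hcomp.exists_isMinOn
    ⟨x₁, hx₁, by rw [mem_closedBall_zero_iff]; exact le_max_right _ _⟩ hcont.continuousOn
  have hx01 : pot S w x₀ ≤ pot S w x₁ :=
    hx₀m ⟨hx₁, by rw [mem_closedBall_zero_iff]; exact le_max_right _ _⟩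
  set mn := pot S w x₀ with hmn
  have hmn0 : mn < 0 := hx01.trans_lt hneg
  have hall : ∀ x ∈ C, mn ≤ pot S w x := by
    intro x hx
    by_cases hxR : ‖x‖ ≤ R'
    · exact hx₀m ⟨hx, by rw [mem_closedBall_zero_iff]; exact hxR⟩
    · have h1 : R ≤ ‖x‖ := (le_max_left _ _).trans (not_le.1 hxR).le
      have := hR x hx h1
      linarith
  set M : Set ℂ := {x | x ∈ C ∧ pot S w x = mn} with hM
  have hMclosed : IsClosed M := hC.inter (isClosed_eq hcont continuous_const)
  have hMopen : IsOpen M := by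
    rw [Metric.isOpen_iff]
    rintro x ⟨hxC, hxm⟩
    have hxint : x ∈ interior C := by
      by_contra h
      have := hbd x hxC h
      linarith
    have hev : ∀ᶠ y in 𝓝 x, y ∈ C := mem_interior_iff_mem_nhds.1 hxint
    have hev2 : ∀ᶠ y in 𝓝 x, pot S w y < 0 :=
      hcont.continuousAt.eventually (gt_mem_nhds (by rw [hxm]; exact hmn0))
    have h1 : ∀ᶠ y in 𝓝 x, y ∈ C ∧ pot S w y < 0 := hev.and hev2
    obtain ⟨d, hd, hball⟩ := Metric.eventually_nhds_iff_ball.1 h1
    refine ⟨d, hd, fun y hy => ⟨(hball y hy).1, ?_⟩⟩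
    have h2 := local_min hm hS hw (x₀ := x) (r₀ := d)
      (by
        filter_upwards [hpos] with z hz hzb
        exact hz (hball z hzb).1 (hball z hzb).2)
      (fun z hz => by rw [hxm]; exact hall z (hball z hz).1) y hy
    rw [h2, hxm]
  have hMuniv : M = univ := IsClopen.eq_univ ⟨hMclosed, hMopen⟩ ⟨x₀, hx₀.1, rfl⟩
  obtain ⟨R2, hR2⟩ := hinf (-mn / 2) (by linarith)
  have hbig : ((max R2 0 : ℝ) : ℂ) ∈ M := by rw [hMuniv]; exact mem_univ _
  have := hR2 _ hbig.1 (by
    rw [Complex.norm_real, Real.norm_eq_abs, abs_of_nonneg (le_max_right _ _)]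
    exact le_max_left _ _)
  rw [hbig.2] at this
  linarith

end Pool.Agent.V1180.PZ
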