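import Pool.Agent.V1180.PZb

/-!
# Reflections and odd functions
-/

namespace Pool.Agent.V1180.PZ

open MeasureTheory Filter Topology Set Metric
open scoped InnerProductSpace ENNReal
open Pool.Agent.V1180.LP

/-- An isometric involution `σ` with a closed fundamental half `C`. -/
structure Sym (σ : ℂ → ℂ) (C : Set ℂ) : Prop where
  inv : ∀ x, σ (σ x) = x
  iso : ∀ x y, ‖σ x - σ y‖ = ‖x - y‖
  mp : MeasurePreserving σ volume volume
  cl : IsClosed C
  bd : ∀ x ∈ C, x ∉ interior C → σ x = x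
  half : ∀ x, x ∉ C → σ x ∈ C

namespace Sym

variable {σ : ℂ → ℂ} {C : Set ℂ} (h : Sym σ C)

include h

theorem emb : MeasurableEmbedding σ := by
  have h1 : Isometry σ := Isometry.of_dist_eq fun x y => by
    rw [dist_eq_norm, dist_eq_norm, h.iso]
  exact h1.isClosedEmbedding.measurableEmbedding

theorem mpS {S : Set ℂ} (hm : MeasurableSet S) (hS : ∀ x, σ x ∈ S ↔ x ∈ S) :
    MeasurePreserving σ (volume.restrict S) (volume.restrict S) := by
  have h1 := h.mp.restrict_preimage hm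
  have h2 : σ ⁻¹' S = S := by
    ext x
    exact hS x
  rwa [h2] at h1

theorem lk_refl (x y : ℂ) : lk (σ x) (σ y) = lk x y := by
  unfold lk
  rw [h.iso]

theorem pot_refl {S : Set ℂ} (hm : MeasurableSet S) (hS : ∀ x, σ x ∈ S ↔ x ∈ S) (w : ℂ → ℝ)
    (x : ℂ) : pot S (fun y => w (σ y)) x = pot S w (σ x) := by
  unfold pot
  have h1 := (h.mpS hm hS).integral_comp h.emb (fun y => lk (σ x) y * w y)
  rw [← h1]
  refine integral_congr_ae (Eventually.of_forall fun y => ?_)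
  simp only
  rw [h.lk_refl]

theorem odd_pot {S : Set ℂ} (hm : MeasurableSet S) (hS : ∀ x, σ x ∈ S ↔ x ∈ S) {w : ℂ → ℝ}
    (hodd : ∀ᵐ y ∂(volume.restrict S), w (σ y) = -w y) (x : ℂ) :
    pot S w (σ x) = -pot S w x := by
  rw [← h.pot_refl hm hS]
  unfold pot
  rw [← integral_neg]
  refine integral_congr_ae ?_
  filter_upwards [hodd] with y hy
  rw [hy]
  ring

theorem odd_int {S : Set ℂ} (hm : MeasurableSet S) (hS : ∀ x, σ x ∈ S ↔ x ∈ S) {w : ℂ → ℝ}
    (hodd : ∀ᵐ y ∂(volume.restrict S), w (σ y) = -w y) : ∫ y in S, w y = 0 := by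
  have h1 := (h.mpS hm hS).integral_comp h.emb w
  have h2 : ∫ y in S, w (σ y) = -∫ y in S, w y := by
    rw [← integral_neg]
    exact integral_congr_ae hodd
  linarith

/-- Minimum principle for odd functions on the half `C`. -/
theorem half_min {S : Set ℂ} {ρ : ℝ} (hρ : 0 < ρ) (hm : MeasurableSet S) (hSρ : S ⊆ ball 0 ρ)
    (hS : ∀ x, σ x ∈ S ↔ x ∈ S) {w : ℂ → ℝ} (hw : MemLp w 2 (volume.restrict S))
    (hodd : ∀ᵐ y ∂(volume.restrict S), w (σ y) = -w y)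
    (hpos : ∀ᵐ y ∂(volume.restrict S), y ∈ C → pot S w y < 0 → 0 ≤ w y) :
    ∀ x ∈ C, 0 ≤ pot S w x := by
  refine global_min hm hSρ hw h.cl ?_ ?_ hpos
  · intro x hx hxi
    have h1 := h.odd_pot hm hS hodd x
    rw [h.bd x hx hxi] at h1
    linarith
  · intro ε hε
    obtain ⟨R, -, hR⟩ := pot_infty hρ hm hSρ hw ε hε
    refine ⟨R, fun x _ hx => ?_⟩
    have h1 := hR x hx
    rw [h.odd_int hm hS hodd, mul_zero, add_zero] at h1
    exact (abs_le.1 h1).1

/-- The reflection operator. -/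
noncomputable def J {S : Set ℂ} (hm : MeasurableSet S) (hS : ∀ x, σ x ∈ S ↔ x ∈ S) :
    Lp ℝ 2 (volume.restrict S) →L[ℝ] Lp ℝ 2 (volume.restrict S) :=
  (Lp.compMeasurePreservingₗᵢ ℝ σ (h.mpS hm hS)).toContinuousLinearMap

theorem J_apply {S : Set ℂ} (hm : MeasurableSet S) (hS : ∀ x, σ x ∈ S ↔ x ∈ S)
    (u : Lp ℝ 2 (volume.restrict S)) : h.J hm hS u =ᵐ[volume.restrict S] fun x => u (σ x) :=
  Lp.coeFn_compMeasurePreserving u (h.mpS hm hS)

theorem J_J {S : Set ℂ} (hm : MeasurableSet S) (hS : ∀ x, σ x ∈ S ↔ x ∈ S)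
    (u : Lp ℝ 2 (volume.restrict S)) : h.J hm hS (h.J hm hS u) = u := by
  apply Lp.ext
  have h1 := h.J_apply hm hS u
  have h2 := (h.mpS hm hS).quasiMeasurePreserving.ae h1
  filter_upwards [h.J_apply hm hS (h.J hm hS u), h2] with x h3 h4
  rw [h3, h4, h.inv]

theorem J_inner {S : Set ℂ} (hm : MeasurableSet S) (hS : ∀ x, σ x ∈ S ↔ x ∈ S)
    (u v : Lp ℝ 2 (volume.restrict S)) : ⟪h.J hm hS u, v⟫_ℝ = ⟪u, h.J hm hS v⟫_ℝ := by
  have h1 : ⟪h.J hm hS u, h.J hm hS (h.J hm hS v)⟫_ℝ = ⟪u, h.J hm hS v⟫_ℝ :=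
    (Lp.compMeasurePreservingₗᵢ ℝ σ (h.mpS hm hS)).inner_map_map u (h.J hm hS v)
  rwa [h.J_J] at h1

theorem KOp_pot {S : Set ℂ} (hm : MeasurableSet S) {ρ : ℝ} (hSρ : S ⊆ ball 0 ρ)
    [IsFiniteMeasure (volume.restrict S)] (u : Lp ℝ 2 (volume.restrict S)) :
    KOp (hsk_lk hm hSρ) u =ᵐ[volume.restrict S] pot S u := KOp_apply (hsk_lk hm hSρ) u

theorem T_J {S : Set ℂ} (hm : MeasurableSet S) (hS : ∀ x, σ x ∈ S ↔ x ∈ S) {ρ : ℝ}
    (hSρ : S ⊆ ball 0 ρ) [IsFiniteMeasure (volume.restrict S)]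
    (u : Lp ℝ 2 (volume.restrict S)) :
    KOp (hsk_lk hm hSρ) (h.J hm hS u) = h.J hm hS (KOp (hsk_lk hm hSρ) u) := by
  apply Lp.ext
  have h2 := (h.mpS hm hS).quasiMeasurePreserving.ae (KOp_apply (hsk_lk hm hSρ) u)
  filter_upwards [KOp_apply (hsk_lk hm hSρ) (h.J hm hS u),
    h.J_apply hm hS (KOp (hsk_lk hm hSρ) u), h2] with x h3 h4 h5
  rw [h3, h4, h5]
  change _ = pot S u (σ x)
  rw [← h.pot_refl hm hS]
  unfold pot
  refine integral_congr_ae ?_
  filter_upwards [h.J_apply hm hS u] with y hy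
  rw [hy]

/-- Positivity on odd functions. -/
theorem odd_nonneg {S : Set ℂ} (hm : MeasurableSet S) (hS : ∀ x, σ x ∈ S ↔ x ∈ S) {ρ : ℝ}
    (hρ : 0 < ρ) (hSρ : S ⊆ ball 0 ρ) [IsFiniteMeasure (volume.restrict S)]
    (e : Lp ℝ 2 (volume.restrict S)) (he : h.J hm hS e = -e) :
    0 ≤ ⟪KOp (hsk_lk hm hSρ) e, e⟫_ℝ := by
  by_contra hcon
  push Not at hcon
  set T := KOp (hsk_lk hm hSρ) with hT
  set Jo := h.J hm hS with hJo
  have he0 : e ≠ 0 := by
    intro h0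
    rw [h0] at hcon
    simp at hcon
  have hen : 0 < ‖e‖ := norm_pos_iff.2 he0
  set Pi : Lp ℝ 2 (volume.restrict S) →L[ℝ] Lp ℝ 2 (volume.restrict S) :=
    (2⁻¹ : ℝ) • (ContinuousLinearMap.id ℝ _ - Jo) with hPi
  have hPia : ∀ u, Pi u = (2⁻¹ : ℝ) • (u - Jo u) := fun u => rfl
  have hJJ : ∀ u, Jo (Jo u) = u := h.J_J hm hS
  have hTJ : ∀ u, T (Jo u) = Jo (T u) := h.T_J hm hS hSρ
  have hTsym : ∀ u v, ⟪T u, v⟫_ℝ = ⟪u, T v⟫_ℝ := KOp_symm (hsk_lk hm hSρ) lk_symm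
  have hJsym : ∀ u v, ⟪Jo u, v⟫_ℝ = ⟪u, Jo v⟫_ℝ := h.J_inner hm hS
  have hTP : ∀ u, T (Pi u) = Pi (T u) := by
    intro u
    rw [hPia, hPia, map_smul, map_sub, hTJ]
  have hPsym : ∀ u v, ⟪Pi u, v⟫_ℝ = ⟪u, Pi v⟫_ℝ := by
    intro u v
    rw [hPia, hPia, inner_smul_left, inner_smul_right, inner_sub_left, inner_sub_right, hJsym]
    simp
  have hcomp : IsCompactOperator (T.comp Pi) :=
    (lk_compact hm hSρ).comp_clm Pi
  have hPe : Pi e = e := by
    rw [hPia, he, sub_neg_eq_add, ← two_smul ℝ e, smul_smul]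
    norm_num
  obtain ⟨lam, hlam, w, hw0, hw⟩ := exists_neg_eig (T.comp Pi)
    (by
      intro u v
      change ⟪T (Pi u), v⟫_ℝ = ⟪u, T (Pi v)⟫_ℝ
      rw [hTsym, hPsym, hTP])
    hcomp (c := -⟪T e, e⟫_ℝ / ‖e‖ ^ 2) (by
      apply div_pos (by linarith) (by positivity)) he0 (by
      change ⟪T (Pi e), e⟫_ℝ ≤ _
      rw [hPe]
      apply le_of_eq
      field_simp)
  have hlam0 : lam < 0 := by
    have : 0 < -⟪T e, e⟫_ℝ / ‖e‖ ^ 2 := div_pos (by linarith) (by positivity)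
    linarith
  replace hw : T (Pi w) = lam • w := hw
  have hJP : ∀ u, Jo (Pi u) = -Pi u := by
    intro u
    rw [hPia, map_smul, map_sub, hJJ, ← smul_neg, neg_sub]
  have hwodd : Jo w = -w := by
    have h1 : lam • Jo w = lam • (-w) := by
      rw [← map_smul, ← hw, ← hTJ, hJP, map_neg, smul_neg, hw]
    exact smul_right_injective _ hlam0.ne h1
  have hPw : Pi w = w := by
    rw [hPia, hwodd, sub_neg_eq_add, ← two_smul ℝ w, smul_smul]
    norm_num
  rw [hPw] at hw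
  have hwodd' : ∀ᵐ y ∂(volume.restrict S), w (σ y) = -w y := by
    filter_upwards [h.J_apply hm hS w, Lp.coeFn_neg w] with y h1 h2
    rw [← h1]
    change (Jo w) y = _
    rw [hwodd, h2]
    rfl
  have hpw : ∀ᵐ y ∂(volume.restrict S), pot S w y = lam * w y := by
    filter_upwards [KOp_apply (hsk_lk hm hSρ) w, Lp.coeFn_smul lam w] with y h1 h2
    change T w y = pot S w y at h1
    rw [← h1, hw, h2]
    rfl
  have hw2 : MemLp w 2 (volume.restrict S) := Lp.memLp w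
  have h1 := h.half_min hρ hm hSρ hS hw2 hwodd' (by
    filter_upwards [hpw] with y hy _ hneg
    rw [hy] at hneg
    nlinarith)
  have hpneg : ∀ x, pot S (fun y => -w y) x = -pot S w x := by
    intro x
    unfold pot
    rw [← integral_neg]
    refine integral_congr_ae (Eventually.of_forall fun y => ?_)
    simp only
    ring
  have h2 := h.half_min hρ hm hSρ hS (w := fun y => -w y) hw2.neg (by
      filter_upwards [hwodd'] with y hy
      rw [hy]) (by
    filter_upwards [hpw] with y hy _ hneg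
    rw [hpneg, hy] at hneg
    nlinarith)
  have h3 : ∀ x ∈ C, pot S w x = 0 := by
    intro x hx
    have h4 := h1 x hx
    have h5 := h2 x hx
    rw [hpneg] at h5
    linarith
  have h4 : ∀ x, pot S w x = 0 := by
    intro x
    by_cases hx : x ∈ C
    · exact h3 x hx
    · have h5 := h3 _ (h.half x hx)
      rw [h.odd_pot hm hS hwodd'] at h5
      linarith
  apply hw0
  rw [Lp.eq_zero_iff_ae_eq_zero]
  filter_upwards [hpw] with y hy
  rw [h4] at hy
  have := mul_eq_zero.1 hy.symm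
  rcases this with h5 | h5
  · exact absurd h5 hlam0.ne
  · exact h5

end Sym

end Pool.Agent.V1180.PZ
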