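import Pool.Agent.V1180.PZc

/-!
# Solving on the symmetric part
-/

namespace Pool.Agent.V1180.PZ

open MeasureTheory Filter Topology Set Metric
open scoped InnerProductSpace ENNReal NNReal
open Pool.Agent.V1180.LP

/-- multiplication by an indicator function -/
noncomputable def Ind (μ : Measure ℂ) {D : Set ℂ} (hD : MeasurableSet D) :
    Lp ℝ 2 μ →L[ℝ] Lp ℝ 2 μ :=
  LinearMap.mkContinuous
    { toFun := fun u => ((Lp.memLp u).indicator hD).toLp _
      map_add' := by
        intro u v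
        apply Lp.ext
        refine (MemLp.coeFn_toLp _).trans ?_
        refine EventuallyEq.trans ?_ (Lp.coeFn_add _ _).symm
        filter_upwards [((Lp.memLp u).indicator hD).coeFn_toLp,
          ((Lp.memLp v).indicator hD).coeFn_toLp, Lp.coeFn_add u v] with x h1 h2 h3
        rw [Pi.add_apply, h1, h2]
        by_cases hx : x ∈ D
        · rw [indicator_of_mem hx, indicator_of_mem hx, indicator_of_mem hx, h3, Pi.add_apply]
        · rw [indicator_of_notMem hx, indicator_of_notMem hx, indicator_of_notMem hx, add_zero]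
      map_smul' := by
        intro c u
        apply Lp.ext
        refine (MemLp.coeFn_toLp _).trans ?_
        refine EventuallyEq.trans ?_ (Lp.coeFn_smul _ _).symm
        filter_upwards [((Lp.memLp u).indicator hD).coeFn_toLp, Lp.coeFn_smul c u] with x h1 h2
        rw [RingHom.id_apply, Pi.smul_apply, h1]
        by_cases hx : x ∈ D
        · rw [indicator_of_mem hx, indicator_of_mem hx, h2, Pi.smul_apply]
        · rw [indicator_of_notMem hx, indicator_of_notMem hx, smul_zero] }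
    1 (by
      intro u
      rw [one_mul]
      refine Lp.norm_le_norm_of_ae_le ?_
      change ∀ᵐ x ∂μ, ‖(((Lp.memLp u).indicator hD).toLp _ : Lp ℝ 2 μ) x‖ ≤ ‖u x‖
      filter_upwards [((Lp.memLp u).indicator hD).coeFn_toLp] with x h1
      rw [h1]
      exact norm_indicator_le_norm_self _ _)

theorem Ind_apply (μ : Measure ℂ) {D : Set ℂ} (hD : MeasurableSet D) (u : Lp ℝ 2 μ) :
    Ind μ hD u =ᵐ[μ] D.indicator u := ((Lp.memLp u).indicator hD).coeFn_toLp

theorem Ind_symm (μ : Measure ℂ) {D : Set ℂ} (hD : MeasurableSet D) (u v : Lp ℝ 2 μ) :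
    ⟪Ind μ hD u, v⟫_ℝ = ⟪u, Ind μ hD v⟫_ℝ := by
  rw [L2.inner_def, L2.inner_def]
  refine integral_congr_ae ?_
  filter_upwards [Ind_apply μ hD u, Ind_apply μ hD v] with x h1 h2
  rw [h1, h2]
  by_cases hx : x ∈ D
  · rw [indicator_of_mem hx, indicator_of_mem hx]
  · rw [indicator_of_notMem hx, indicator_of_notMem hx, inner_zero_left, inner_zero_right]

namespace Sym

variable {σ : ℂ → ℂ} {C : Set ℂ} (h : Sym σ C)

include h

theorem Ind_J {S : Set ℂ} (hm : MeasurableSet S) (hS : ∀ x, σ x ∈ S ↔ x ∈ S) {D : Set ℂ}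
    (hD : MeasurableSet D) (hDσ : ∀ x, σ x ∈ D ↔ x ∈ D) (u : Lp ℝ 2 (volume.restrict S)) :
    Ind _ hD (h.J hm hS u) = h.J hm hS (Ind _ hD u) := by
  apply Lp.ext
  have h2 := (h.mpS hm hS).quasiMeasurePreserving.ae (Ind_apply _ hD u)
  filter_upwards [Ind_apply _ hD (h.J hm hS u), h.J_apply hm hS (Ind _ hD u), h2,
    h.J_apply hm hS u] with x h3 h4 h5 h6
  rw [h3, h4, h5]
  by_cases hx : x ∈ D
  · rw [indicator_of_mem hx, indicator_of_mem ((hDσ x).2 hx), h6]
  · rw [indicator_of_notMem hx, indicator_of_notMem (fun hc => hx ((hDσ x).1 hc))]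

theorem exists_chi {S : Set ℂ} (hm : MeasurableSet S) (hS : ∀ x, σ x ∈ S ↔ x ∈ S) {ρ : ℝ}
    (hρ : 0 < ρ) (hSρ : S ⊆ ball 0 ρ) [IsFiniteMeasure (volume.restrict S)] {t : ℝ} (ht : 0 < t)
    {D : Set ℂ} (hD : MeasurableSet D) (hDσ : ∀ x, σ x ∈ D ↔ x ∈ D)
    (b : Lp ℝ 2 (volume.restrict S)) (hb : h.J hm hS b = -b) :
    ∃ χ : Lp ℝ 2 (volume.restrict S), h.J hm hS χ = -χ ∧
      (∀ᵐ x ∂(volume.restrict S), x ∉ D → χ x = 0) ∧
      ∀ᵐ x ∂(volume.restrict S), x ∈ D →
        (KOp (hsk_lk hm hSρ) (χ + b) + t • (χ + b)) x = 0 := by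
  set T := KOp (hsk_lk hm hSρ) with hT
  set Jo := h.J hm hS with hJo
  set I := Ind (volume.restrict S) hD with hI
  set Pi : Lp ℝ 2 (volume.restrict S) →L[ℝ] Lp ℝ 2 (volume.restrict S) :=
    (2⁻¹ : ℝ) • (ContinuousLinearMap.id ℝ _ - Jo) with hPi
  have hPia : ∀ u, Pi u = (2⁻¹ : ℝ) • (u - Jo u) := fun u => rfl
  have hJJ : ∀ u, Jo (Jo u) = u := h.J_J hm hS
  have hTJ : ∀ u, T (Jo u) = Jo (T u) := h.T_J hm hS hSρ
  have hIJ : ∀ u, I (Jo u) = Jo (I u) := h.Ind_J hm hS hD hDσ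
  have hJsym : ∀ u v, ⟪Jo u, v⟫_ℝ = ⟪u, Jo v⟫_ℝ := h.J_inner hm hS
  have hIsym : ∀ u v, ⟪I u, v⟫_ℝ = ⟪u, I v⟫_ℝ := Ind_symm _ hD
  have hIP : ∀ u, I (Pi u) = Pi (I u) := by
    intro u
    rw [hPia, hPia, map_smul, map_sub, hIJ]
  have hPsym : ∀ u v, ⟪Pi u, v⟫_ℝ = ⟪u, Pi v⟫_ℝ := by
    intro u v
    rw [hPia, hPia, inner_smul_left, inner_smul_right, inner_sub_left, inner_sub_right, hJsym]
    simp
  have hJP : ∀ u, Jo (Pi u) = -Pi u := by
    intro u
    rw [hPia, map_smul, map_sub, hJJ, ← smul_neg, neg_sub]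
  have hPodd : ∀ u, Jo u = -u → Pi u = u := by
    intro u hu
    rw [hPia, hu, sub_neg_eq_add, ← two_smul ℝ u, smul_smul]
    norm_num
  have hII : ∀ u, I (I u) = I u := by
    intro u
    apply Lp.ext
    filter_upwards [Ind_apply _ hD (I u), Ind_apply _ hD u] with x h1 h2
    change (I (I u)) x = (D.indicator (I u)) x at h1
    change (I u) x = _ at h2
    rw [h1]
    by_cases hx : x ∈ D
    · rw [indicator_of_mem hx]
    · rw [indicator_of_notMem hx, h2, indicator_of_notMem hx]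
  set Q : Lp ℝ 2 (volume.restrict S) →L[ℝ] Lp ℝ 2 (volume.restrict S) := I.comp Pi with hQ
  have hQa : ∀ u, Q u = I (Pi u) := fun u => rfl
  have hQsym : ∀ u v, ⟪Q u, v⟫_ℝ = ⟪u, Q v⟫_ℝ := by
    intro u v
    rw [hQa, hQa, hIsym, hPsym, hIP]
  have hJQ : ∀ u, Jo (Q u) = -Q u := by
    intro u
    rw [hQa, ← hIJ, hJP, map_neg]
  have hQQ : ∀ u, Q (Q u) = Q u := by
    intro u
    rw [hQa (Q u), hPodd _ (hJQ u), hQa, hII]
  set A : Lp ℝ 2 (volume.restrict S) →L[ℝ] Lp ℝ 2 (volume.restrict S) :=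
    Q.comp (T.comp Q) + t • ContinuousLinearMap.id ℝ _ with hA
  have hAa : ∀ u, A u = Q (T (Q u)) + t • u := fun u => rfl
  have hcoer : ∀ u, ‖u‖ ^ 2 * t ≤ ‖⟪A u, u⟫_ℝ‖ := by
    intro u
    rw [hAa, inner_add_left, hQsym, inner_smul_left, real_inner_self_eq_norm_sq]
    have h1 := h.odd_nonneg hm hS hρ hSρ (Q u) (hJQ u)
    refine le_trans ?_ (le_abs_self _)
    simp only [conj_trivial]
    change 0 ≤ ⟪T (Q u), Q u⟫_ℝ at h1
    linarith
  have hunit : IsUnit A :=
    ContinuousLinearMap.isUnit_of_forall_le_norm_inner_map A (c := ⟨t, ht.le⟩) ht hcoer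
  have hsurj : Function.Surjective A := (ContinuousLinearMap.isUnit_iff_bijective.1 hunit).2
  obtain ⟨χ, hχ⟩ := hsurj (-(Q (T b + t • b)))
  have h1 : χ = Q (t⁻¹ • (-(T b + t • b) - T (Q χ))) := by
    have h2 : t • χ = Q (-(T b + t • b) - T (Q χ)) := by
      rw [map_sub, map_neg, ← hχ, hAa]
      abel
    rw [map_smul, ← h2, smul_smul, inv_mul_cancel₀ ht.ne', one_smul]
  have hJχ : Jo χ = -χ := by
    rw [h1]
    exact hJQ _
  have hQχ : Q χ = χ := by
    rw [h1]
    exact hQQ _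
  refine ⟨χ, hJχ, ?_, ?_⟩
  · have h2 : I χ = χ := by
      have := hQχ
      rwa [hQa, hPodd _ hJχ] at this
    filter_upwards [Ind_apply _ hD χ] with x h3 hx
    change (I χ) x = _ at h3
    rw [h2, indicator_of_notMem hx] at h3
    exact h3
  · set r := T (χ + b) + t • (χ + b) with hr
    have hJr : Jo r = -r := by
      rw [hr, map_add, map_smul, ← hTJ, map_add, hJχ, hb, ← neg_add, map_neg, smul_neg]
      abel
    have hQr : Q r = 0 := by
      have h2 : Q (T (Q χ)) + t • χ = -(Q (T b + t • b)) := hχ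
      rw [hQχ] at h2
      have h3 : Q r = Q (T χ) + t • Q χ + Q (T b + t • b) := by
        rw [hr]
        simp only [map_add, map_smul, smul_add]
        abel
      rw [h3, hQχ, h2]
      abel
    rw [hQa, hPodd _ hJr] at hQr
    filter_upwards [Ind_apply _ hD r, Lp.coeFn_zero ℝ 2 (volume.restrict S)] with x h3 h4 hx
    change (I r) x = _ at h3
    rw [hQr, h4, indicator_of_mem hx] at h3
    exact h3.symm

end Sym

/-- sign of eigenfunctions with negative eigenvalue -/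
theorem sign {S : Set ℂ} {ρ : ℝ} (hρ : 0 < ρ) (hm : MeasurableSet S) (hSρ : S ⊆ ball 0 ρ)
    {v : ℂ → ℝ} (hv : MemLp v 2 (volume.restrict S)) {t : ℝ} (ht : 0 < t)
    (hP : ∀ᵐ x ∂(volume.restrict S), v x = 0 ∨ pot S v x = -t * v x) (hint : 0 ≤ ∫ x in S, v x) :
    ∀ᵐ x ∂(volume.restrict S), 0 ≤ v x := by
  have hpneg : ∀ x, pot S (fun y => -v y) x = -pot S v x := by
    intro x
    unfold pot
    rw [← integral_neg]
    refine integral_congr_ae (Eventually.of_forall fun y => ?_)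
    simp only
    ring
  have hmin := global_min hm hSρ (w := fun y => -v y) hv.neg (C := univ) isClosed_univ
    (fun x _ hx => absurd (by rw [interior_univ]; exact mem_univ x) hx)
    (by
      intro ε hε
      obtain ⟨R, hR1, hR⟩ := pot_infty hρ hm hSρ hv ε hε
      refine ⟨R, fun x _ hx => ?_⟩
      have h1 := (abs_le.1 (hR x hx)).2
      rw [hpneg]
      have h2 : 0 ≤ Real.log ‖x‖ * ∫ y in S, v y :=
        mul_nonneg (Real.log_nonneg (hR1.trans hx)) hint
      linarith)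
    (by
      filter_upwards [hP] with x hx _ hneg
      rw [hpneg] at hneg
      rcases hx with hx | hx
      · rw [hx, neg_zero]
      · rw [hx] at hneg
        nlinarith)
  filter_upwards [hP] with x hx
  rcases hx with hx | hx
  · rw [hx]
  · have h1 := hmin x (mem_univ x)
    rw [hpneg, hx] at h1
    nlinarith

end Pool.Agent.V1180.PZ
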