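import Pool.Agent.V1180.PZd

/-!
# The main step
-/

namespace Pool.Agent.V1180.PZ

open MeasureTheory Filter Topology Set Metric
open scoped InnerProductSpace ENNReal NNReal
open Pool.Agent.V1180.LP

theorem restrict_form {S Ω : Set ℂ} (hΩm : MeasurableSet Ω) (hΩS : Ω ⊆ S) {u : ℂ → ℝ}
    (hu0 : ∀ᵐ x ∂(volume.restrict S), x ∉ Ω → u x = 0) (g : ℂ → ℝ) :
    ∫ x in S, g x * u x = ∫ x in Ω, g x * u x := by
  have : ∫ x in S, g x * u x = ∫ x in S, Ω.indicator (fun x => g x * u x) x := by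
    refine integral_congr_ae ?_
    filter_upwards [hu0] with x hx
    by_cases h : x ∈ Ω
    · rw [indicator_of_mem h]
    · rw [indicator_of_notMem h, hx h, mul_zero]
  rw [this, setIntegral_indicator hΩm, inter_eq_self_of_subset_right hΩS]

theorem pos_eig {S P : Set ℂ} {ρ : ℝ} (hρ : 0 < ρ) (hm : MeasurableSet S) (hSρ : S ⊆ ball 0 ρ)
    (hPm : MeasurableSet P) (hPS : P ⊆ S) {t : ℝ} (ht : 0 < t) (heig : IsEig P (-t)) :
    ∃ v : ℂ → ℝ, MemLp v 2 (volume.restrict S) ∧ (∀ x, x ∉ P → v x = 0) ∧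
      (∀ᵐ x ∂(volume.restrict S), x ∈ P → pot S v x = -t * v x) ∧
      (∀ᵐ x ∂(volume.restrict S), 0 ≤ v x) ∧ ¬ (v =ᵐ[volume.restrict S] 0) := by
  obtain ⟨v₀, hv₀, hv₀0, hv₀e⟩ := heig
  set v : ℂ → ℝ := P.indicator v₀ with hv
  have hrr : (volume.restrict S).restrict P = (volume : Measure ℂ).restrict P := by
    rw [Measure.restrict_restrict_of_subset hPS]
  have hvm : MemLp v 2 (volume.restrict S) := by
    rw [hv, memLp_indicator_iff_restrict hPm, hrr]
    exact hv₀
  have hvP : ∀ x, x ∉ P → v x = 0 := fun x hx => indicator_of_notMem hx _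
  have hpot : ∀ x, pot S v x = ∫ y in P, lk x y * v₀ y := by
    intro x
    unfold pot
    rw [restrict_form hPm hPS (Eventually.of_forall hvP)]
    refine setIntegral_congr_fun hPm fun y hy => ?_
    rw [hv]
    change lk x y * P.indicator v₀ y = _
    rw [indicator_of_mem hy]
  have heq : ∀ᵐ x ∂(volume.restrict S), x ∈ P → pot S v x = -t * v x := by
    have h1 : ∀ᵐ x ∂((volume.restrict S).restrict P),
        (∫ y in P, lk x y * v₀ y) = -t * v₀ x := by
      rw [hrr]
      exact hv₀e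
    rw [ae_restrict_iff' hPm] at h1
    filter_upwards [h1] with x hx hxP
    rw [hpot, hv, indicator_of_mem hxP]
    exact hx hxP
  have hne : ¬ (v =ᵐ[volume.restrict S] 0) := by
    intro h0
    apply hv₀0
    have h1 : ∀ᵐ x ∂((volume.restrict S).restrict P), v₀ x = (0 : ℂ → ℝ) x := by
      rw [ae_restrict_iff' hPm]
      filter_upwards [h0] with x hx hxP
      rw [hv, indicator_of_mem hxP] at hx
      exact hx
    rw [hrr] at h1
    exact h1
  rcases le_total 0 (∫ x in S, v x) with hint | hint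
  · refine ⟨v, hvm, hvP, heq, ?_, hne⟩
    refine sign hρ hm hSρ hvm ht ?_ hint
    filter_upwards [heq] with x hx
    by_cases hxP : x ∈ P
    · exact Or.inr (hx hxP)
    · exact Or.inl (hvP x hxP)
  · have hpneg : ∀ x, pot S (fun y => -v y) x = -pot S v x := by
      intro x
      unfold pot
      rw [← integral_neg]
      refine integral_congr_ae (Eventually.of_forall fun y => ?_)
      simp only
      ring
    have heq' : ∀ᵐ x ∂(volume.restrict S), x ∈ P → pot S (fun y => -v y) x = -t * -v x := by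
      filter_upwards [heq] with x hx hxP
      rw [hpneg, hx hxP]
      ring
    refine ⟨fun x => -v x, hvm.neg, fun x hx => by simp only [hvP x hx, neg_zero], heq', ?_, ?_⟩
    · refine sign hρ hm hSρ hvm.neg ht ?_ ?_
      · filter_upwards [heq'] with x hx
        by_cases hxP : x ∈ P
        · exact Or.inr (hx hxP)
        · refine Or.inl ?_
          rw [hvP x hxP, neg_zero]
      · have : ∫ x in S, -v x = -∫ x in S, v x := integral_neg _
        rw [this]
        linarith
    · intro h0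
      apply hne
      filter_upwards [h0] with x hx
      have : -v x = 0 := hx
      rw [neg_eq_zero] at this
      exact this

/-- a function supported in `Ω` with small form gives an eigenvalue of `Ω` -/
theorem eig_of_form {S Ω : Set ℂ} {ρ : ℝ} (hm : MeasurableSet S) (hSρ : S ⊆ ball 0 ρ)
    (hΩm : MeasurableSet Ω) (hΩS : Ω ⊆ S) [IsFiniteMeasure (volume.restrict S)] {t : ℝ}
    (ht : 0 < t) (u : Lp ℝ 2 (volume.restrict S)) (hu : u ≠ 0)
    (hu0 : ∀ᵐ x ∂(volume.restrict S), x ∉ Ω → u x = 0)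
    (hF : ⟪KOp (hsk_lk hm hSρ) u + t • u, u⟫_ℝ ≤ 0) : ∃ lam : ℝ, lam ≤ -t ∧ IsEig Ω lam := by
  have hΩρ : Ω ⊆ ball 0 ρ := hΩS.trans hSρ
  have hfin := fin_of_ball hΩρ
  have hu2 : MemLp u 2 (volume.restrict Ω) := (Lp.memLp u).mono_measure
    (Measure.restrict_mono_set _ hΩS)
  set w : Lp ℝ 2 (volume.restrict Ω) := hu2.toLp u with hw
  have hwn : ⟪w, w⟫_ℝ = ⟪u, u⟫_ℝ := by
    rw [L2.inner_def, L2.inner_def]
    have h1 : ∫ x in S, ⟪u x, u x⟫_ℝ = ∫ x in S, u x * u x :=
      integral_congr_ae (Eventually.of_forall fun x => by simp [sq])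
    have h2 : ∫ x in Ω, ⟪w x, w x⟫_ℝ = ∫ x in Ω, u x * u x := by
      refine integral_congr_ae ?_
      filter_upwards [hu2.coeFn_toLp] with x hx
      rw [hx]
      simp [sq]
    rw [h1, h2, restrict_form hΩm hΩS hu0]
  have hpot : ∀ x, pot S u x = pot Ω w x := by
    intro x
    unfold pot
    rw [restrict_form hΩm hΩS hu0]
    refine integral_congr_ae ?_
    filter_upwards [hu2.coeFn_toLp] with y hy
    rw [hy]
  have hTn : ⟪KOp (hsk_lk hΩm hΩρ) w, w⟫_ℝ = ⟪KOp (hsk_lk hm hSρ) u, u⟫_ℝ := by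
    rw [L2.inner_def, L2.inner_def]
    have h1 : ∫ x in S, ⟪KOp (hsk_lk hm hSρ) u x, u x⟫_ℝ = ∫ x in S, pot S u x * u x := by
      refine integral_congr_ae ?_
      filter_upwards [KOp_apply (hsk_lk hm hSρ) u] with x hx
      rw [hx]
      unfold pot
      simp [mul_comm]
    have h2 : ∫ x in Ω, ⟪KOp (hsk_lk hΩm hΩρ) w x, w x⟫_ℝ = ∫ x in Ω, pot S u x * u x := by
      refine integral_congr_ae ?_
      filter_upwards [KOp_apply (hsk_lk hΩm hΩρ) w, hu2.coeFn_toLp] with x hx hx2
      rw [hx, hpot, hx2]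
      unfold pot
      simp [mul_comm]
    rw [h1, h2, restrict_form hΩm hΩS hu0]
  have hun : 0 < ‖u‖ := norm_pos_iff.2 hu
  have hw0 : w ≠ 0 := by
    intro h0
    rw [h0, inner_zero_left, real_inner_self_eq_norm_sq] at hwn
    nlinarith
  obtain ⟨lam, hlam, e, he0, he⟩ := exists_neg_eig (KOp (hsk_lk hΩm hΩρ))
    (KOp_symm (hsk_lk hΩm hΩρ) lk_symm) (lk_compact hΩm hΩρ) ht hw0 (by
      rw [hTn, ← real_inner_self_eq_norm_sq, hwn]
      rw [inner_add_left, inner_smul_left] at hF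
      simp only [conj_trivial] at hF
      linarith)
  exact ⟨lam, hlam, eig_of_op hΩm hΩρ he0 he⟩

end Pool.Agent.V1180.PZ
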