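import Pool.Agent.V1180.PZe

/-!
# The main step: comparison of `Ω` and its polarization
-/

namespace Pool.Agent.V1180.PZ

open MeasureTheory Filter Topology Set Metric
open scoped InnerProductSpace ENNReal NNReal
open Pool.Agent.V1180.LP

theorem main_step {σ : ℂ → ℂ} {C : Set ℂ} (h : Sym σ C) {H : Set ℂ} (hHm : MeasurableSet H)
    (hHC : H ⊆ C) (hH1 : ∀ x ∈ H, σ x ∉ C) (hH2 : ∀ x, x ∈ H ∨ σ x ∈ H ∨ σ x = x)
    {Ω S : Set ℂ} (hΩm : MeasurableSet Ω) (hm : MeasurableSet S)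
    (hSΩ : ∀ x, x ∈ S ↔ x ∈ Ω ∨ σ x ∈ Ω) {ρ : ℝ} (hρ : 0 < ρ) (hSρ : S ⊆ ball 0 ρ) {P : Set ℂ}
    (hPm : MeasurableSet P) (hP : ∀ x, x ∈ P ↔ (x ∈ S ∧ x ∈ H) ∨ (x ∈ Ω ∧ σ x ∈ Ω)) {t : ℝ}
    (ht : 0 < t) (heig : IsEig P (-t)) : ∃ lam : ℝ, lam ≤ -t ∧ IsEig Ω lam := by
  have hfin := fin_of_ball hSρ
  have hσm : Measurable σ := h.mp.measurable
  have hS : ∀ x, σ x ∈ S ↔ x ∈ S := by
    intro x
    rw [hSΩ, hSΩ, h.inv]
    exact or_comm
  have hΩS : Ω ⊆ S := fun x hx => (hSΩ x).2 (Or.inl hx)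
  have hPS : P ⊆ S := by
    intro x hx
    rcases (hP x).1 hx with h1 | h1
    · exact h1.1
    · exact hΩS h1.1
  set D : Set ℂ := Ω ∩ σ ⁻¹' Ω with hDdef
  have hDmem : ∀ x, x ∈ D ↔ x ∈ Ω ∧ σ x ∈ Ω := fun x => Iff.rfl
  have hD : MeasurableSet D := hΩm.inter (hσm hΩm)
  have hDσ : ∀ x, σ x ∈ D ↔ x ∈ D := by
    intro x
    rw [hDmem, hDmem, h.inv]
    exact and_comm
  set B : Set ℂ := H ∩ (Ω \ σ ⁻¹' Ω) with hBdef
  have hBmem : ∀ x, x ∈ B ↔ x ∈ H ∧ x ∈ Ω ∧ σ x ∉ Ω := fun x => Iff.rfl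
  have hB : MeasurableSet B := hHm.inter (hΩm.diff (hσm hΩm))
  obtain ⟨v, hv, hvP, hveq, hvnn, hvne⟩ := pos_eig hρ hm hSρ hPm hPS ht heig
  set T := KOp (hsk_lk hm hSρ) with hT
  set Jo := h.J hm hS with hJo
  set vL : Lp ℝ 2 (volume.restrict S) := hv.toLp v with hvL
  have hvLa : vL =ᵐ[volume.restrict S] v := hv.coeFn_toLp
  have hqm := (h.mpS hm hS).quasiMeasurePreserving
  have hJJ : ∀ u, Jo (Jo u) = u := h.J_J hm hS
  have hTJ : ∀ u, T (Jo u) = Jo (T u) := h.T_J hm hS hSρ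
  have hJsym : ∀ u v, ⟪Jo u, v⟫_ℝ = ⟪u, Jo v⟫_ℝ := h.J_inner hm hS
  have hTsym : ∀ u v, ⟪T u, v⟫_ℝ = ⟪u, T v⟫_ℝ := KOp_symm (hsk_lk hm hSρ) lk_symm
  have hJv : ∀ᵐ x ∂(volume.restrict S), (Jo vL) x = v (σ x) := by
    filter_upwards [h.J_apply hm hS vL, hqm.ae hvLa] with x h1 h2
    change (Jo vL) x = _ at h1
    rw [h1, h2]
  set I := Ind (volume.restrict S) hB with hI
  set b : Lp ℝ 2 (volume.restrict S) := I vL - Jo (I vL) with hb
  have hJb : Jo b = -b := by
    rw [hb, map_sub, hJJ, neg_sub]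
  have hIv : ∀ᵐ x ∂(volume.restrict S), (I vL) x = B.indicator v x := by
    filter_upwards [Ind_apply _ hB vL, hvLa] with x h1 h2
    change (I vL) x = _ at h1
    rw [h1]
    by_cases hx : x ∈ B
    · rw [indicator_of_mem hx, indicator_of_mem hx, h2]
    · rw [indicator_of_notMem hx, indicator_of_notMem hx]
  have hba : ∀ᵐ x ∂(volume.restrict S), b x = B.indicator v x - B.indicator v (σ x) := by
    filter_upwards [Lp.coeFn_sub (I vL) (Jo (I vL)), hIv, h.J_apply hm hS (I vL), hqm.ae hIv]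
      with x h1 h2 h3 h4
    change b x = _ at h1
    change (Jo (I vL)) x = _ at h3
    rw [h1, Pi.sub_apply, h2, h3, h4]
  obtain ⟨χ, hJχ, hχ0, hχeq⟩ := h.exists_chi hm hS hρ hSρ ht hD hDσ b hJb
  set w : Lp ℝ 2 (volume.restrict S) := χ + b with hw
  have hJw : Jo w = -w := by
    rw [hw, map_add, hJb]
    change h.J hm hS χ + _ = _
    rw [hJχ, ← neg_add]
  have hwa : ∀ᵐ x ∂(volume.restrict S),
      w x = χ x + (B.indicator v x - B.indicator v (σ x)) := by
    filter_upwards [Lp.coeFn_add χ b, hba] with x h1 h2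
    rw [h1, Pi.add_apply, h2]
  set r : Lp ℝ 2 (volume.restrict S) := T w + t • w with hr
  have hra : ∀ᵐ x ∂(volume.restrict S), r x = pot S w x + t * w x := by
    filter_upwards [Lp.coeFn_add (T w) (t • w), KOp_apply (hsk_lk hm hSρ) w,
      Lp.coeFn_smul t w] with x h1 h2 h3
    change (T w) x = _ at h2
    change r x = _ at h1
    rw [h1, Pi.add_apply, h2, h3]
    rfl
  have hwodd : ∀ᵐ y ∂(volume.restrict S), w (σ y) = -w y := by
    filter_upwards [h.J_apply hm hS w, Lp.coeFn_neg w] with y h1 h2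
    rw [← h1]
    change (Jo w) y = _
    rw [hJw, h2]
    rfl
  have hS' : ∀ᵐ x ∂(volume.restrict S), x ∈ S := ae_restrict_mem hm
  -- position facts
  have hHσ : ∀ x ∈ H, σ x ∉ H := fun x hx hc => hH1 x hx (hHC hc)
  have hPσ : ∀ x ∈ H, x ∉ D → σ x ∉ P := by
    intro x hx hxD hc
    rcases (hP _).1 hc with h1 | h1
    · exact hHσ x hx h1.2
    · exact hxD ((hDσ x).1 h1)
  -- the potential of `w` is nonnegative on `C`
  have hpotw : ∀ x ∈ C, 0 ≤ pot S w x := by
    refine h.half_min hρ hm hSρ hS (Lp.memLp w) hwodd ?_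
    filter_upwards [hwa, hra, hχeq, hχ0, hvnn, hS'] with x h1 h2 h3 h4 h5 h6 hxC hneg
    by_cases hxD : x ∈ D
    · have h7 : r x = 0 := h3 hxD
      rw [h2] at h7
      nlinarith
    · rw [h1, h4 hxD, zero_add]
      have hxH : x ∈ H := by
        rcases hH2 x with h7 | h7 | h7
        · exact h7
        · exact absurd hxC (by
            have := hH1 _ h7
            rwa [h.inv] at this)
        · exfalso
          rcases (hSΩ x).1 h6 with h8 | h8
          · exact hxD ⟨h8, by rw [mem_preimage, h7]; exact h8⟩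
          · exact hxD ⟨by rw [h7] at h8; exact h8, h8⟩
      have h8 : σ x ∉ B := fun hc => hHσ x hxH hc.1
      rw [indicator_of_notMem h8, sub_zero]
      by_cases hxB : x ∈ B
      · rw [indicator_of_mem hxB]
        exact h5
      · rw [indicator_of_notMem hxB]
  -- the test function
  set u : Lp ℝ 2 (volume.restrict S) := Jo vL + w with hu
  have hua : ∀ᵐ x ∂(volume.restrict S), u x = v (σ x) + w x := by
    filter_upwards [Lp.coeFn_add (Jo vL) w, hJv] with x h1 h2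
    change u x = _ at h1
    rw [h1, Pi.add_apply, h2]
  -- alternatives for points outside `D`
  have halt : ∀ x ∈ S, x ∉ D →
      (x ∈ H ∧ x ∈ Ω ∧ σ x ∉ Ω) ∨ (x ∈ H ∧ x ∉ Ω ∧ σ x ∈ Ω) ∨
      (x ∉ H ∧ σ x ∈ H ∧ x ∈ Ω ∧ σ x ∉ Ω) ∨ (x ∉ H ∧ σ x ∈ H ∧ x ∉ Ω ∧ σ x ∈ Ω) := by
    intro x hxS hxD
    have h1 : (x ∈ Ω ∧ σ x ∉ Ω) ∨ (x ∉ Ω ∧ σ x ∈ Ω) := by
      rcases (hSΩ x).1 hxS with h2 | h2
      · exact Or.inl ⟨h2, fun hc => hxD ⟨h2, hc⟩⟩
      · exact Or.inr ⟨fun hc => hxD ⟨hc, h2⟩, h2⟩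
    by_cases hxH : x ∈ H
    · rcases h1 with h1 | h1
      · exact Or.inl ⟨hxH, h1⟩
      · exact Or.inr (Or.inl ⟨hxH, h1⟩)
    · have h2 : σ x ∈ H := by
        rcases hH2 x with h3 | h3 | h3
        · exact absurd h3 hxH
        · exact h3
        · exfalso
          rw [h3] at h1
          rcases h1 with h1 | h1
          · exact h1.2 h1.1
          · exact h1.1 h1.2
      rcases h1 with h1 | h1
      · exact Or.inr (Or.inr (Or.inl ⟨hxH, h2, h1⟩))
      · exact Or.inr (Or.inr (Or.inr ⟨hxH, h2, h1⟩))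
  have hu0 : ∀ᵐ x ∂(volume.restrict S), x ∉ Ω → u x = 0 := by
    filter_upwards [hua, hwa, hχ0, hS'] with x h1 h2 h3 h4 hxΩ
    have hxD : x ∉ D := fun hc => hxΩ hc.1
    rw [h1, h2, h3 hxD, zero_add]
    have hxB : x ∉ B := fun hc => hxΩ hc.2.1
    rw [indicator_of_notMem hxB, zero_sub]
    rcases halt x h4 hxD with h5 | h5 | h5 | h5
    · exact absurd h5.2.1 hxΩ
    · rw [hvP _ (hPσ x h5.1 hxD), zero_add, indicator_of_notMem (fun hc => hHσ x h5.1 hc.1),
        neg_zero]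
    · exact absurd h5.2.2.1 hxΩ
    · have h6 : σ x ∈ B := ⟨h5.2.1, h5.2.2.2, by
        rw [mem_preimage, h.inv]
        exact hxΩ⟩
      rw [indicator_of_mem h6, add_neg_cancel]
  have hvσnn : ∀ᵐ x ∂(volume.restrict S), 0 ≤ v (σ x) := hqm.ae hvnn
  have hune : u ≠ 0 := by
    intro h0
    apply hvne
    have h1 : w = -Jo vL := by
      rw [hu] at h0
      exact (neg_eq_of_add_eq_zero_right h0).symm
    have h2 : Jo vL = -vL := by
      have h3 := hJw
      rw [h1, map_neg, hJJ, neg_neg] at h3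
      exact h3.symm
    filter_upwards [hJv, hvnn, hvσnn, hvLa, Lp.coeFn_neg vL] with x h3 h4 h5 h6 h7
    rw [h2, h7, Pi.neg_apply, h6] at h3
    change v x = 0
    linarith
  -- the form
  have hF : ⟪T u + t • u, u⟫_ℝ ≤ 0 := by
    have hGv : ⟪T vL + t • vL, vL⟫_ℝ = 0 := by
      rw [L2.inner_def]
      have : ∫ x in S, ⟪(T vL + t • vL) x, vL x⟫_ℝ = ∫ x in S, (0 : ℝ) := by
        refine integral_congr_ae ?_
        filter_upwards [Lp.coeFn_add (T vL) (t • vL), KOp_apply (hsk_lk hm hSρ) vL,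
          Lp.coeFn_smul t vL, hvLa, hveq] with x h1 h2 h3 h4 h5
        change (T vL) x = _ at h2
        by_cases hxP : x ∈ P
        · have h6 : (T vL + t • vL) x = 0 := by
            rw [h1, Pi.add_apply, h2, h3, Pi.smul_apply, smul_eq_mul, h4]
            have h7 : ∫ y in S, lk x y * vL y = pot S v x := by
              unfold pot
              refine integral_congr_ae ?_
              filter_upwards [hvLa] with y hy
              rw [hy]
            rw [h7, h5 hxP]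
            ring
          rw [h6, inner_zero_left]
        · rw [h4, hvP x hxP, inner_zero_right]
      rw [this, integral_zero]
    have hkey : ⟪T u + t • u, u⟫_ℝ = ⟪r, w - vL + Jo vL⟫_ℝ := by
      have e1 : ⟪T (Jo vL), Jo vL⟫_ℝ = ⟪T vL, vL⟫_ℝ := by
        rw [hTJ, hJsym, hJJ]
      have e2 : ⟪Jo vL, Jo vL⟫_ℝ = ⟪vL, vL⟫_ℝ := by
        rw [hJsym, hJJ]
      have e3 : ⟪T w, vL⟫_ℝ = -⟪T w, Jo vL⟫_ℝ := by
        rw [← hJsym, ← hTJ, hJw, map_neg, inner_neg_left, neg_neg]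
      have e4 : ⟪w, vL⟫_ℝ = -⟪w, Jo vL⟫_ℝ := by
        rw [← hJsym, hJw, inner_neg_left, neg_neg]
      have e5 : ⟪T (Jo vL), w⟫_ℝ = ⟪T w, Jo vL⟫_ℝ := by
        rw [hTsym, real_inner_comm]
      have e6 : ⟪Jo vL, w⟫_ℝ = ⟪w, Jo vL⟫_ℝ := real_inner_comm _ _
      have e7 : ⟪T vL, vL⟫_ℝ + t * ⟪vL, vL⟫_ℝ = 0 := by
        rw [inner_add_left, inner_smul_left] at hGv
        simpa using hGv
      rw [hr, hu]
      simp only [map_add, smul_add, inner_add_left, inner_add_right, inner_sub_right,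
        inner_smul_left, conj_trivial]
      rw [e1, e2, e3, e4, e5, e6]
      linarith
    rw [hkey, L2.inner_def]
    refine integral_nonpos_of_ae ?_
    have hwodd2 := hwodd
    filter_upwards [Lp.coeFn_add (w - vL) (Jo vL), Lp.coeFn_sub w vL, hJv, hvLa, hra, hχeq, hwa,
      hχ0, hS', hvnn, hvσnn] with x h1 h2 h3 h4 h5 h6 h7 h8 h9 h10 h11
    have e1 : (w - vL + Jo vL) x = w x - v x + v (σ x) := by
      rw [h1, Pi.add_apply, h2, Pi.sub_apply, h3, h4]
    change ⟪r x, (w - vL + Jo vL) x⟫_ℝ ≤ 0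
    rw [e1]
    have e2 : ⟪r x, w x - v x + v (σ x)⟫_ℝ = (w x - v x + v (σ x)) * r x := by
      simp
    rw [e2]
    by_cases hxD : x ∈ D
    · have h12 : r x = 0 := h6 hxD
      rw [h12, mul_zero]
    · rw [h8 hxD, zero_add] at h7
      rcases halt x h9 hxD with h12 | h12 | h12 | h12
      · have hxB : x ∈ B := h12
        rw [indicator_of_mem hxB, indicator_of_notMem (fun hc => hHσ x h12.1 hc.1), sub_zero] at h7
        rw [h7, hvP _ (hPσ x h12.1 hxD)]
        simp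
      · have hxB : x ∉ B := fun hc => h12.2.1 hc.2.1
        rw [indicator_of_notMem hxB, indicator_of_notMem (fun hc => hHσ x h12.1 hc.1),
          sub_zero] at h7
        have h13 := hpotw x (hHC h12.1)
        rw [h7, hvP _ (hPσ x h12.1 hxD), h5, h7]
        nlinarith
      · have hxB : x ∉ B := fun hc => h12.1 hc.1
        have hxB' : σ x ∉ B := fun hc => h12.2.2.2 hc.2.1
        rw [indicator_of_notMem hxB, indicator_of_notMem hxB', sub_zero] at h7
        have h13 := hpotw _ (hHC h12.2.1)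
        rw [h.odd_pot hm hS hwodd] at h13
        have hxP : x ∉ P := by
          intro hc
          rcases (hP _).1 hc with h14 | h14
          · exact h12.1 h14.2
          · exact hxD h14
        rw [h5, h7, hvP _ hxP]
        nlinarith
      · have hxB : x ∉ B := fun hc => h12.1 hc.1
        have hxB' : σ x ∈ B := ⟨h12.2.1, h12.2.2.2, by
          rw [mem_preimage, h.inv]
          exact h12.2.2.1⟩
        have hxP : x ∉ P := by
          intro hc
          rcases (hP _).1 hc with h14 | h14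
          · exact h12.1 h14.2
          · exact hxD h14
        rw [indicator_of_notMem hxB, indicator_of_mem hxB', zero_sub] at h7
        rw [h7, hvP _ hxP]
        simp
  exact eig_of_form hm hSρ hΩm hΩS ht u hune hu0 hF

end Pool.Agent.V1180.PZ
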