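import Pool.Agent.V1180.PZf

/-!
# Uniqueness of the negative eigenvalue, and the reflections of the plane
-/

namespace Pool.Agent.V1180.PZ

open MeasureTheory Filter Topology Set Metric
open scoped InnerProductSpace ENNReal NNReal ComplexConjugate
open Pool.Agent.V1180.LP

theorem pot_symm {S : Set ℂ} {ρ : ℝ} (hm : MeasurableSet S) (hSρ : S ⊆ ball 0 ρ) {f g : ℂ → ℝ}
    (hf : MemLp f 2 (volume.restrict S)) (hg : MemLp g 2 (volume.restrict S)) :
    ∫ x in S, pot S f x * g x = ∫ x in S, pot S g x * f x := by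
  have hfin := fin_of_ball hSρ
  have key : ∀ {f g : ℂ → ℝ} (hf : MemLp f 2 (volume.restrict S))
      (hg : MemLp g 2 (volume.restrict S)),
      ⟪KOp (hsk_lk hm hSρ) (hf.toLp f), hg.toLp g⟫_ℝ = ∫ x in S, pot S f x * g x := by
    intro f g hf hg
    rw [L2.inner_def]
    refine integral_congr_ae ?_
    filter_upwards [KOp_apply (hsk_lk hm hSρ) (hf.toLp f), hg.coeFn_toLp] with x h1 h2
    rw [h1, h2]
    have h3 : ∫ y in S, lk x y * (hf.toLp f) y = pot S f x := by
      unfold pot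
      refine integral_congr_ae ?_
      filter_upwards [hf.coeFn_toLp] with y hy
      rw [hy]
    rw [h3]
    simp [mul_comm]
  rw [← key hf hg, ← key hg hf, KOp_symm (hsk_lk hm hSρ) lk_symm, real_inner_comm]

/-- There is at most one negative eigenvalue. -/
theorem uniq {S : Set ℂ} {ρ : ℝ} (hρ : 0 < ρ) (hm : MeasurableSet S) (hSρ : S ⊆ ball 0 ρ)
    {s t : ℝ} (hs : 0 < s) (ht : 0 < t) (h1 : IsEig S (-s)) (h2 : IsEig S (-t)) : s = t := by
  have hfin := fin_of_ball hSρ
  by_contra hst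
  obtain ⟨v₁, hv₁, -, he₁, hn₁, hne₁⟩ := pos_eig hρ hm hSρ hm (subset_refl S) hs h1
  obtain ⟨v₂, hv₂, -, he₂, hn₂, hne₂⟩ := pos_eig hρ hm hSρ hm (subset_refl S) ht h2
  have hS' : ∀ᵐ x ∂(volume.restrict S), x ∈ S := ae_restrict_mem hm
  have hi₁ : Integrable v₁ (volume.restrict S) := hv₁.integrable (by norm_num)
  have hi₂ : Integrable v₂ (volume.restrict S) := hv₂.integrable (by norm_num)
  have hi : Integrable (fun x => v₁ x * v₂ x) (volume.restrict S) := hv₁.integrable_mul hv₂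
  have horth : ∫ x in S, v₁ x * v₂ x = 0 := by
    have e1 : ∫ x in S, pot S v₁ x * v₂ x = -s * ∫ x in S, v₁ x * v₂ x := by
      rw [← integral_const_mul]
      refine integral_congr_ae ?_
      filter_upwards [he₁, hS'] with x hx hxS
      rw [hx hxS]
      ring
    have e2 : ∫ x in S, pot S v₂ x * v₁ x = -t * ∫ x in S, v₁ x * v₂ x := by
      rw [← integral_const_mul]
      refine integral_congr_ae ?_
      filter_upwards [he₂, hS'] with x hx hxS
      rw [hx hxS]
      ring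
    have e3 := pot_symm hm hSρ hv₁ hv₂
    rw [e1, e2] at e3
    have e4 : (s - t) * ∫ x in S, v₁ x * v₂ x = 0 := by linarith
    rcases mul_eq_zero.1 e4 with e5 | e5
    · exact absurd (by linarith) hst
    · exact e5
  have hprod : ∀ᵐ x ∂(volume.restrict S), v₁ x * v₂ x = 0 := by
    have hnn : 0 ≤ᵐ[volume.restrict S] fun x => v₁ x * v₂ x := by
      filter_upwards [hn₁, hn₂] with x h3 h4
      exact mul_nonneg h3 h4
    exact (integral_eq_zero_iff_of_nonneg_ae hnn hi).1 horth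
  have hI₁ : 0 < ∫ x in S, v₁ x := by
    rcases (integral_nonneg_of_ae hn₁).lt_or_eq with h3 | h3
    · exact h3
    · exact absurd ((integral_eq_zero_iff_of_nonneg_ae hn₁ hi₁).1 h3.symm) hne₁
  have hI₂ : 0 < ∫ x in S, v₂ x := by
    rcases (integral_nonneg_of_ae hn₂).lt_or_eq with h3 | h3
    · exact h3
    · exact absurd ((integral_eq_zero_iff_of_nonneg_ae hn₂ hi₂).1 h3.symm) hne₂
  set a : ℝ := ∫ x in S, v₂ x with ha
  set b : ℝ := ∫ x in S, v₁ x with hb
  -- the difference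
  have hgen : ∀ {a b : ℝ} (f g : ℂ → ℝ), MemLp f 2 (volume.restrict S) →
      MemLp g 2 (volume.restrict S) → ∀ x, pot S (fun y => a * f y - b * g y) x
        = a * pot S f x - b * pot S g x := by
    intro a b f g hf hg x
    unfold pot
    rw [← integral_const_mul, ← integral_const_mul,
      ← integral_sub ((lk_mul_int hSρ hf x).const_mul a) ((lk_mul_int hSρ hg x).const_mul b)]
    refine integral_congr_ae (Eventually.of_forall fun y => ?_)
    simp only
    ring
  have main : ∀ {f g : ℂ → ℝ} {s t a b : ℝ}, 0 < s → 0 < t → 0 < a → 0 < b →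
      MemLp f 2 (volume.restrict S) → MemLp g 2 (volume.restrict S) →
      (∀ᵐ x ∂(volume.restrict S), pot S f x = -s * f x) →
      (∀ᵐ x ∂(volume.restrict S), pot S g x = -t * g x) →
      (∀ᵐ x ∂(volume.restrict S), 0 ≤ f x) → (∀ᵐ x ∂(volume.restrict S), 0 ≤ g x) →
      (∀ᵐ x ∂(volume.restrict S), f x * g x = 0) →
      a * ∫ x in S, f x = b * ∫ x in S, g x →
      ∀ x, 0 ≤ a * pot S f x - b * pot S g x := by
    intro f g s t a b hs ht ha hb hf hg hfe hge hfn hgn hfg hab x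
    have hif : Integrable f (volume.restrict S) := hf.integrable (by norm_num)
    have hig : Integrable g (volume.restrict S) := hg.integrable (by norm_num)
    have hmem : MemLp (fun y => a * f y - b * g y) 2 (volume.restrict S) :=
      (hf.const_mul a).sub (hg.const_mul b)
    have hzero : ∫ y in S, (a * f y - b * g y) = 0 := by
      rw [integral_sub (hif.const_mul a) (hig.const_mul b), integral_const_mul,
        integral_const_mul, hab, sub_self]
    have h3 := global_min hm hSρ hmem (C := univ) isClosed_univ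
      (fun x _ hx => absurd (by rw [interior_univ]; exact mem_univ x) hx)
      (by
        intro ε hε
        obtain ⟨R, -, hR⟩ := pot_infty hρ hm hSρ hmem ε hε
        refine ⟨R, fun x _ hx => ?_⟩
        have h4 := (abs_le.1 (hR x hx)).1
        rw [hzero, mul_zero, add_zero] at h4
        exact h4)
      (by
        filter_upwards [hfe, hge, hfn, hgn, hfg] with y k1 k2 k3 k4 k5 _ hneg
        rw [hgen f g hf hg, k1, k2] at hneg
        rcases mul_eq_zero.1 k5 with k6 | k6
        · rw [k6] at hneg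
          have : 0 ≤ b * (t * g y) := by positivity
          nlinarith
        · rw [k6]
          have : 0 ≤ a * f y := by positivity
          linarith) x (mem_univ x)
    rwa [hgen f g hf hg] at h3
  have he₁' : ∀ᵐ x ∂(volume.restrict S), pot S v₁ x = -s * v₁ x := by
    filter_upwards [he₁, hS'] with x hx hxS using hx hxS
  have he₂' : ∀ᵐ x ∂(volume.restrict S), pot S v₂ x = -t * v₂ x := by
    filter_upwards [he₂, hS'] with x hx hxS using hx hxS
  have m1 := main hs ht hI₂ hI₁ hv₁ hv₂ he₁' he₂' hn₁ hn₂ hprod (mul_comm _ _)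
  have m2 := main ht hs hI₁ hI₂ hv₂ hv₁ he₂' he₁' hn₂ hn₁
    (by filter_upwards [hprod] with x hx; rw [mul_comm]; exact hx) (mul_comm _ _)
  apply hne₁
  filter_upwards [he₁', he₂', hn₁, hn₂, hprod] with x k1 k2 k3 k4 k5
  have k6 := m1 x
  have k7 := m2 x
  rw [k1, k2] at k6 k7
  rcases mul_eq_zero.1 k5 with k8 | k8
  · exact k8
  · rw [k8] at k6 k7
    have k9 : 0 ≤ a * (s * v₁ x) := by positivity
    have k10 : a * (s * v₁ x) = 0 := by nlinarith
    rcases mul_eq_zero.1 k10 with k11 | k11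
    · exact absurd k11 hI₂.ne'
    · rcases mul_eq_zero.1 k11 with k12 | k12
      · exact absurd k12 hs.ne'
      · exact k12

/-- Reflection in the line `Re(conj ω z) = c`, where `‖ω‖ = 1`. -/
noncomputable def refl (ω : ℂ) (c : ℝ) (z : ℂ) : ℂ := z + 2 * ((c - (conj ω * z).re : ℝ) : ℂ) * ω

/-- Open half-plane. -/
def halfPlane (ω : ℂ) (c : ℝ) : Set ℂ := {z | c < (conj ω * z).re}

/-- Polarization of a set with respect to a half-plane. -/
def polarize (ω : ℂ) (c : ℝ) (Ω : Set ℂ) : Set ℂ :=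
  ((Ω ∪ refl ω c '' Ω) ∩ halfPlane ω c) ∪ ((Ω ∩ refl ω c '' Ω) \ halfPlane ω c)

theorem om {ω : ℂ} (hω : ‖ω‖ = 1) : ω * conj ω = 1 := by
  rw [Complex.mul_conj, Complex.normSq_eq_norm_sq, hω]
  norm_num

theorem refl_eq {ω : ℂ} (hω : ‖ω‖ = 1) (c : ℝ) (z : ℂ) :
    refl ω c z = 2 * c * ω + -(ω ^ 2) * conj z := by
  unfold refl
  have h1 : (((conj ω * z).re : ℝ) : ℂ) = (conj ω * z + ω * conj z) / 2 := by
    rw [Complex.re_eq_add_conj]
    simp
  have h2 := om hω
  push_cast
  rw [h1]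
  linear_combination (-z) * h2

theorem refl_re {ω : ℂ} (hω : ‖ω‖ = 1) (c : ℝ) (z : ℂ) :
    (conj ω * refl ω c z).re = 2 * c - (conj ω * z).re := by
  have h2 := om hω
  have : conj ω * refl ω c z = conj ω * z + ((2 * (c - (conj ω * z).re) : ℝ) : ℂ) := by
    unfold refl
    push_cast
    linear_combination (2 * ((c : ℂ) - ((conj ω * z).re : ℂ))) * h2
  rw [this, Complex.add_re, Complex.ofReal_re]
  ring

theorem refl_refl {ω : ℂ} (hω : ‖ω‖ = 1) (c : ℝ) (z : ℂ) : refl ω c (refl ω c z) = z := by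
  have h2 := om hω
  rw [refl_eq hω, refl_eq hω]
  simp only [map_add, map_mul, map_neg, map_pow, Complex.conj_conj, Complex.conj_ofReal,
    map_ofNat]
  linear_combination (z * (ω * conj ω + 1) - 2 * (c : ℂ) * ω) * h2

theorem refl_iso {ω : ℂ} (hω : ‖ω‖ = 1) (c : ℝ) (x y : ℂ) :
    ‖refl ω c x - refl ω c y‖ = ‖x - y‖ := by
  rw [refl_eq hω, refl_eq hω]
  have : 2 * (c : ℂ) * ω + -(ω ^ 2) * conj x - (2 * c * ω + -(ω ^ 2) * conj y)
      = -(ω ^ 2) * conj (x - y) := by
    rw [map_sub]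
    ring
  rw [this, norm_mul, norm_neg, norm_pow, hω, one_pow, one_mul, RCLike.norm_conj]

theorem refl_mp {ω : ℂ} (hω : ‖ω‖ = 1) (c : ℝ) : MeasurePreserving (refl ω c) volume volume := by
  set L : ℂ →ₗᵢ[ℝ] ℂ :=
    { toLinearMap := (LinearMap.mulLeft ℝ (-(ω ^ 2))).comp Complex.conjAe.toLinearMap
      norm_map' := by
        intro x
        change ‖-(ω ^ 2) * conj x‖ = ‖x‖
        rw [norm_mul, norm_neg, norm_pow, hω, one_pow, one_mul, RCLike.norm_conj] } with hL
  have h1 : MeasurePreserving (L.toLinearIsometryEquiv rfl) (volume : Measure ℂ) volume :=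
    (L.toLinearIsometryEquiv rfl).measurePreserving
  have h2 := (measurePreserving_add_left (volume : Measure ℂ) (2 * (c : ℂ) * ω)).comp h1
  have h3 : refl ω c = (fun x => 2 * (c : ℂ) * ω + x) ∘ (L.toLinearIsometryEquiv rfl) := by
    funext z
    rw [refl_eq hω]
    rfl
  rw [h3]
  exact h2

theorem refl_sym {ω : ℂ} (hω : ‖ω‖ = 1) (c : ℝ) :
    Sym (refl ω c) {z : ℂ | c ≤ (conj ω * z).re} where
  inv := refl_refl hω c
  iso := refl_iso hω c
  mp := refl_mp hω c
  cl := isClosed_le continuous_const (by fun_prop)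
  bd := by
    intro x hx hxi
    have h1 : halfPlane ω c ⊆ interior {z : ℂ | c ≤ (conj ω * z).re} :=
      interior_maximal (fun z (hz : c < (conj ω * z).re) => hz.le)
        (isOpen_lt continuous_const (by fun_prop))
    have h2 : ¬ c < (conj ω * x).re := fun hc => hxi (h1 hc)
    have h3 : (conj ω * x).re = c := le_antisymm (not_lt.1 h2) hx
    unfold refl
    rw [h3]
    simp
  half := by
    intro x hx
    change c ≤ _
    rw [refl_re hω]
    have : (conj ω * x).re < c := not_le.1 hx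
    linarith

theorem tau_le {Ω : Set ℂ} (hm : MeasurableSet Ω) {ρ : ℝ} (hΩρ : Ω ⊆ ball 0 ρ) {x : ℝ}
    (hx : x = 0 ∨ (x < 0 ∧ IsEig Ω x)) : tau Ω ≤ x := by
  refine csInf_le ?_ ?_
  · refine ⟨-(1 + volume.real Ω * c2 (2 * ρ)), ?_⟩
    rintro y (hy | ⟨hy1, hy2⟩)
    · have h1 : y = 0 := hy
      have h2 : 0 ≤ volume.real Ω * c2 (2 * ρ) := mul_nonneg measureReal_nonneg (c2_nonneg _)
      linarith
    · have h1 := eig_bound hm hΩρ hy2
      nlinarith
  · rcases hx with hx | hx
    · exact Or.inl hx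
    · exact Or.inr hx

theorem main {Ω : Set ℂ} (hΩo : IsOpen Ω) (hΩb : Bornology.IsBounded Ω) {ω : ℂ} (hω : ‖ω‖ = 1)
    (c : ℝ) : tau Ω ≤ tau (polarize ω c Ω) := by
  obtain ⟨ρ₀, hρ₀⟩ := hΩb.subset_ball 0
  set σ : ℂ → ℂ := refl ω c with hσ
  have h := refl_sym hω c
  set H : Set ℂ := halfPlane ω c with hH
  have hHo : IsOpen H := isOpen_lt continuous_const (by fun_prop)
  have himg : σ '' Ω = σ ⁻¹' Ω := by
    ext x
    constructor
    · rintro ⟨y, hy, rfl⟩
      rw [mem_preimage, hσ, refl_refl hω]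
      exact hy
    · intro hx
      exact ⟨σ x, hx, refl_refl hω c x⟩
  have hσm : Measurable σ := h.mp.measurable
  set S : Set ℂ := Ω ∪ σ ⁻¹' Ω with hS
  set ρ : ℝ := |ρ₀| + ‖σ 0‖ + 1 with hρ
  have hρ0 : 0 < ρ := by positivity
  have hΩρ : Ω ⊆ ball 0 ρ := hρ₀.trans (ball_subset_ball (by
    have := le_abs_self ρ₀
    have := norm_nonneg (σ 0)
    linarith))
  have hSρ : S ⊆ ball 0 ρ := by
    rintro x (hx | hx)
    · exact hΩρ hx
    · have h1 := hρ₀ hx
      rw [mem_ball_zero_iff] at h1 ⊢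
      have h2 := refl_iso hω c x 0
      rw [sub_zero] at h2
      have h3 := norm_sub_le (refl ω c x) (refl ω c 0)
      have h4 := le_abs_self ρ₀
      change ‖refl ω c x‖ < ρ₀ at h1
      change ‖x‖ < |ρ₀| + ‖refl ω c 0‖ + 1
      linarith
  have hΩm := hΩo.measurableSet
  have hSm : MeasurableSet S := hΩm.union (hσm hΩm)
  have hPm : MeasurableSet (polarize ω c Ω) := by
    unfold polarize
    rw [← hσ, himg]
    exact (hSm.inter hHo.measurableSet).union ((hΩm.inter (hσm hΩm)).diff hHo.measurableSet)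
  have hP : ∀ x, x ∈ polarize ω c Ω ↔ (x ∈ S ∧ x ∈ H) ∨ (x ∈ Ω ∧ σ x ∈ Ω) := by
    intro x
    unfold polarize
    rw [← hσ, himg]
    constructor
    · rintro (⟨h1, h2⟩ | ⟨h1, h2⟩)
      · exact Or.inl ⟨h1, h2⟩
      · exact Or.inr h1
    · rintro (⟨h1, h2⟩ | h1)
      · exact Or.inl ⟨h1, h2⟩
      · by_cases hx : x ∈ H
        · exact Or.inl ⟨Or.inl h1.1, hx⟩
        · exact Or.inr ⟨h1, hx⟩
  refine le_csInf ⟨0, Or.inl rfl⟩ ?_
  rintro x (hx | ⟨hx1, hx2⟩)
  · exact tau_le hΩm hΩρ (Or.inl hx)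
  · have hHC : H ⊆ {z : ℂ | c ≤ (conj ω * z).re} := fun z (hz : c < (conj ω * z).re) => hz.le
    have hH1 : ∀ x ∈ H, σ x ∉ {z : ℂ | c ≤ (conj ω * z).re} := by
      intro z hz hc
      have h1 : c ≤ (conj ω * refl ω c z).re := hc
      rw [refl_re hω] at h1
      have h2 : c < (conj ω * z).re := hz
      linarith
    have hH2 : ∀ x, x ∈ H ∨ σ x ∈ H ∨ σ x = x := by
      intro z
      rcases lt_trichotomy c (conj ω * z).re with h1 | h1 | h1
      · exact Or.inl h1
      · refine Or.inr (Or.inr ?_)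
        rw [hσ]
        unfold refl
        rw [← h1]
        simp
      · refine Or.inr (Or.inl ?_)
        change c < (conj ω * refl ω c z).re
        rw [refl_re hω]
        linarith
    obtain ⟨lam, hlam, hlame⟩ := main_step h hHo.measurableSet hHC hH1 hH2 hΩm hSm
      (fun x => Iff.rfl) hρ0 hSρ hPm hP (t := -x) (by linarith) (by rw [neg_neg]; exact hx2)
    refine (tau_le hΩm hΩρ (Or.inr ⟨?_, hlame⟩)).trans ?_
    · linarith
    · linarith

theorem tau_spec {Ω : Set ℂ} (hΩo : IsOpen Ω) (hΩb : Bornology.IsBounded Ω) :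
    (∀ lam : ℝ, lam < 0 → IsEig Ω lam → tau Ω = lam) ∧
      ((∀ lam : ℝ, lam < 0 → ¬ IsEig Ω lam) → tau Ω = 0) := by
  obtain ⟨ρ₀, hρ₀⟩ := hΩb.subset_ball 0
  have hρ0 : 0 < |ρ₀| + 1 := by positivity
  have hΩρ : Ω ⊆ ball 0 (|ρ₀| + 1) := hρ₀.trans (ball_subset_ball (by
    have := le_abs_self ρ₀
    linarith))
  have hΩm := hΩo.measurableSet
  constructor
  · intro lam hlam hE
    refine le_antisymm (tau_le hΩm hΩρ (Or.inr ⟨hlam, hE⟩)) ?_
    refine le_csInf ⟨0, Or.inl rfl⟩ ?_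
    rintro y (hy | ⟨hy1, hy2⟩)
    · have h1 : y = 0 := hy
      linarith
    · have := uniq hρ0 hΩm hΩρ (s := -lam) (t := -y) (by linarith) (by linarith)
        (by rw [neg_neg]; exact hE) (by rw [neg_neg]; exact hy2)
      linarith
  · intro hno
    refine le_antisymm (tau_le hΩm hΩρ (Or.inl rfl)) ?_
    refine le_csInf ⟨0, Or.inl rfl⟩ ?_
    rintro y (hy | ⟨hy1, hy2⟩)
    · have h1 : y = 0 := hy
      linarith
    · exact absurd hy2 (hno y hy1)

end Pool.Agent.V1180.PZ
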