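import Pool.Agent.V1180.Moll2

set_option autoImplicit false

/-! Renormalised inequality for distributional supersolutions. -/

open Set Filter Topology MeasureTheory InnerProductSpace Laplacian
open scoped ContDiff ENNReal Convolution

namespace Pool.Agent.V1180

variable {E : Type*} [NormedAddCommGroup E] [InnerProductSpace ℝ E] [FiniteDimensional ℝ E]
  [MeasurableSpace E] [BorelSpace E]

/-- a subsequence of an `L^1` convergent sequence converges a.e. -/
theorem ae_subseq {f : ℕ → E → ℝ} {g : E → ℝ} (hf : ∀ n, Integrable (f n)) (hg : Integrable g)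
    (h : Tendsto (fun n => ∫ x, |f n x - g x|) atTop (𝓝 0)) :
    ∃ ns : ℕ → ℕ, StrictMono ns ∧ ∀ᵐ x, Tendsto (fun i => f (ns i) x) atTop (𝓝 (g x)) := by
  have h1 : TendstoInMeasure volume f atTop g := by
    apply tendstoInMeasure_of_tendsto_eLpNorm one_ne_zero
      (fun n => (hf n).aestronglyMeasurable) hg.aestronglyMeasurable
    have h2 : ∀ n, eLpNorm (f n - g) 1 volume = ENNReal.ofReal (∫ x, |f n x - g x|) := by
      intro n
      rw [eLpNorm_one_eq_lintegral_enorm]
      have := ofReal_integral_norm_eq_lintegral_enorm ((hf n).sub hg)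
      rw [← this]
      rfl
    simp_rw [h2]
    have := ENNReal.tendsto_ofReal h
    simpa using this
  exact h1.exists_seq_tendsto_ae

theorem tendsto_mul_bdd {a : ℕ → E → ℝ} {A b : E → ℝ} (ha : ∀ n, Integrable (a n))
    (hA : Integrable A) (h : Tendsto (fun n => ∫ x, |a n x - A x|) atTop (𝓝 0))
    (hb : AEStronglyMeasurable b volume) {C : ℝ} (hC : ∀ x, |b x| ≤ C) :
    Tendsto (fun n => ∫ x, a n x * b x) atTop (𝓝 (∫ x, A x * b x)) := by
  have hC0 : 0 ≤ C := (abs_nonneg _).trans (hC 0)
  have hi : ∀ n, Integrable (fun x => a n x * b x) := fun n =>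
    (ha n).mul_bdd (c := C) hb (ae_of_all _ fun x => hC x)
  have hiA : Integrable (fun x => A x * b x) := hA.mul_bdd (c := C) hb (ae_of_all _ fun x => hC x)
  rw [tendsto_iff_norm_sub_tendsto_zero]
  have hlim : Tendsto (fun n => (∫ x, |a n x - A x|) * C) atTop (𝓝 0) := by
    simpa using h.mul_const C
  refine squeeze_zero (fun _ => norm_nonneg _) (fun n => ?_) hlim
  rw [← integral_sub (hi n) hiA, ← integral_mul_const]
  refine (norm_integral_le_integral_norm _).trans ?_
  apply integral_mono ((hi n).sub hiA).norm (((ha n).sub hA).abs.mul_const C)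
  intro x
  simp only [Pi.sub_apply, Real.norm_eq_abs]
  rw [← sub_mul, abs_mul]
  exact mul_le_mul_of_nonneg_left (hC x) (abs_nonneg _)

/-- `0 ≤ ∫ v (-Δφ) + ∫ G φ` for all admissible tests -/
def Super (Ω : Set E) (v G : E → ℝ) : Prop :=
  ∀ φ : E → ℝ, ContDiff ℝ ∞ φ → HasCompactSupport φ → tsupport φ ⊆ Ω → (∀ x, 0 ≤ φ x) →
    0 ≤ (∫ x, v x * (-(Δ φ x))) + ∫ x, G x * φ x

theorem moll_super {Ω : Set E} {v G : E → ℝ} (hv : Integrable v) (hs : Super Ω v G)
    {n : ℕ} {x : E} (hx : Metric.closedBall x (rad n) ⊆ Ω) :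
    Δ (moll n v) x ≤ moll n G x := by
  have hk := ker_contDiff (E := E) n
  have hkc := ker_compact (E := E) n
  have h1 : Δ (moll n v) x = ∫ y, v y * Δ (ker n : E → ℝ) (x - y) := by
    have := cv_lap hk hkc hv.locallyIntegrable x
    have h2 : (cv (ker n) v) = moll n v := rfl
    rw [h2] at this
    rw [this, cv]
    rw [← integral_sub_left_eq_self (fun y => v y * Δ (ker n : E → ℝ) (x - y)) volume x]
    congr 1
    ext h
    rw [sub_sub_cancel, mul_comm]
  have h2 : moll n G x = ∫ y, G y * ker n (x - y) := by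
    rw [moll, ← integral_sub_left_eq_self (fun y => G y * ker n (x - y)) volume x]
    congr 1
    ext h
    rw [sub_sub_cancel, mul_comm]
  have hsupp : tsupport (fun y => ker n (x - y)) ⊆ Metric.closedBall x (rad n) := by
    apply closure_minimal _ Metric.isClosed_closedBall
    intro y hy
    by_contra hcon
    apply hy
    apply ker_zero
    rw [Metric.mem_closedBall, dist_comm, dist_eq_norm] at hcon
    exact (not_le.1 hcon).le
  have h3 := hs (fun y => ker n (x - y)) (hk.comp (contDiff_const.sub contDiff_id))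
    ((isCompact_closedBall x (rad n)).of_isClosed_subset isClosed_closure hsupp)
    (hsupp.trans hx) (fun y => ker_nonneg n _)
  have h4 : ∀ y, Δ (fun y => ker n (x - y)) y = Δ (ker n : E → ℝ) (x - y) :=
    fun y => lap_sub_left hk x y
  simp_rw [h4, mul_neg] at h3
  rw [integral_neg] at h3
  rw [h1, h2]
  linarith

/-- Laplacian of a concave nondecreasing function of a smooth function -/
theorem lap_comp_concave {Φ η : ℝ → ℝ} (hΦ : ContDiff ℝ ∞ Φ) 
    (hconc : ∀ s t, Φ s ≤ Φ t + η t * (s - t)) {W : E → ℝ} (hW : ContDiff ℝ ∞ W) (x : E) :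
    Δ (fun y => Φ (W y)) x ≤ η (W x) * Δ W x := by
  have hΦW : ContDiffAt ℝ 2 (fun y => Φ (W y)) x := ((hΦ.comp hW).of_le (by norm_cast)).contDiffAt
  have hW2 : ContDiffAt ℝ 2 W x := (hW.of_le (by norm_cast)).contDiffAt
  have hW3 : ContDiffAt ℝ 2 (η (W x) • W) x := contDiffAt_const.smul hW2
  have hmax : IsLocalMax ((fun y => Φ (W y)) - η (W x) • W) x := by
    refine Eventually.of_forall fun y => ?_
    have := hconc (W y) (W x)
    simp only [Pi.sub_apply, Pi.smul_apply, smul_eq_mul]
    linarith
  have h1 : Δ ((fun y => Φ (W y)) - η (W x) • W) x ≤ 0 :=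
    lap_nonpos_of_isLocalMax (hΦW.sub hW3) hmax
  have h2 := hΦW.laplacian_sub hW3
  have h3 := laplacian_smul (η (W x)) hW2
  rw [h2, h3, smul_eq_mul] at h1
  linarith

/-- renormalised inequality -/
theorem renorm {Ω : Set E} (hΩ : IsOpen Ω) {v G : E → ℝ} (hv : Integrable v) (hG : Integrable G)
    (hs : Super Ω v G) {Φ η : ℝ → ℝ} (hΦ : ContDiff ℝ ∞ Φ) (hη : Continuous η)
    (hη0 : ∀ s, 0 ≤ η s) (hη1 : ∀ s, η s ≤ 1)
    (hlip : ∀ s t, |Φ s - Φ t| ≤ |s - t|) (hΦ0 : Φ 0 = 0)
    (hconc : ∀ s t, Φ s ≤ Φ t + η t * (s - t))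
    {φ : E → ℝ} (hφ : ContDiff ℝ ∞ φ) (hφc : HasCompactSupport φ) (hφs : tsupport φ ⊆ Ω)
    (hφ0 : ∀ x, 0 ≤ φ x) :
    ∫ x, Φ (v x) * Δ φ x ≤ ∫ x, η (v x) * G x * φ x := by
  have hmi : ∀ {f : E → ℝ}, Integrable f → ∀ n, Integrable (moll n f) := by
    intro f hf n
    rw [moll_eq_conv]
    exact ((ker_contDiff n).continuous.integrable_of_hasCompactSupport
      (ker_compact n)).integrable_convolution _ hf
  have hmc : ∀ {f : E → ℝ}, Integrable f → ∀ n, ContDiff ℝ ∞ (moll n f) := fun hf n =>
    cv_contDiff (ker_contDiff n) (ker_compact n) hf.locallyIntegrable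
  have hΦi : ∀ {f : E → ℝ}, Integrable f → Integrable (fun x => Φ (f x)) := by
    intro f hf
    apply hf.mono (hΦ.continuous.comp_aestronglyMeasurable hf.aestronglyMeasurable)
    refine ae_of_all _ fun x => ?_
    have := hlip (f x) 0
    rw [hΦ0] at this
    simpa using this
  have hηi : ∀ {f g : E → ℝ}, Integrable f → Integrable g →
      Integrable (fun x => η (f x) * g x) := by
    intro f g hf hg
    apply hg.bdd_mul (c := 1) (hη.comp_aestronglyMeasurable hf.aestronglyMeasurable)
    refine ae_of_all _ fun x => ?_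
    rw [Real.norm_of_nonneg (hη0 _)]
    exact hη1 _
  -- bounds on φ and Δ φ
  have hΔc := lap_smooth hφ
  obtain ⟨C1, hC1⟩ := (lap_compact hφ hφc).exists_bound_of_continuous hΔc.continuous
  obtain ⟨C2, hC2⟩ := hφc.exists_bound_of_continuous hφ.continuous
  -- inequality for mollified
  obtain ⟨δ, hδ, hδ'⟩ := hφc.exists_cthickening_subset_open hΩ hφs
  have hev : ∀ᶠ n in atTop, ∫ x, Φ (moll n v x) * Δ φ x ≤ ∫ x, η (moll n v x) * moll n G x * φ x := by
    have hr : ∀ᶠ n in atTop, rad n < δ := rad_tendsto.eventually_lt_const hδ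
    filter_upwards [hr] with n hn
    have hW := hmc hv n
    have hΦW : ContDiff ℝ ∞ (fun x => Φ (moll n v x)) := hΦ.comp hW
    rw [green hΦW hφ hφc]
    apply integral_mono
    · exact ((lap_smooth hΦW).continuous.mul hφ.continuous).integrable_of_hasCompactSupport
        hφc.mul_left
    · exact (((hη.comp hW.continuous).mul (hmc hG n).continuous).mul
        hφ.continuous).integrable_of_hasCompactSupport hφc.mul_left
    · intro x
      by_cases hx : x ∈ tsupport φ
      · apply mul_le_mul_of_nonneg_right _ (hφ0 x)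
        refine (lap_comp_concave hΦ hconc hW x).trans ?_
        apply mul_le_mul_of_nonneg_left _ (hη0 _)
        apply moll_super hv hs
        exact ((Metric.closedBall_subset_cthickening hx _).trans
          (Metric.cthickening_mono hn.le _)).trans hδ'
      · simp [image_eq_zero_of_notMem_tsupport hx]
  -- limits
  obtain ⟨ns, hns, hae⟩ := ae_subseq (hmi hv) hv (moll_L1 hv)
  have hv' : Tendsto (fun n => ∫ x, |moll (ns n) v x - v x|) atTop (𝓝 0) :=
    (moll_L1 hv).comp hns.tendsto_atTop
  have hG' : Tendsto (fun n => ∫ x, |moll (ns n) G x - G x|) atTop (𝓝 0) :=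
    (moll_L1 hG).comp hns.tendsto_atTop
  have hL : Tendsto (fun n => ∫ x, Φ (moll (ns n) v x) * Δ φ x) atTop
      (𝓝 (∫ x, Φ (v x) * Δ φ x)) := by
    apply tendsto_mul_bdd (fun n => hΦi (hmi hv (ns n))) (hΦi hv) _
      hΔc.continuous.aestronglyMeasurable hC1
    refine squeeze_zero (fun _ => integral_nonneg fun _ => abs_nonneg _) (fun n => ?_) hv'
    apply integral_mono ((hΦi (hmi hv (ns n))).sub (hΦi hv)).abs ((hmi hv (ns n)).sub hv).abs
    intro x
    exact hlip _ _
  have hR : Tendsto (fun n => ∫ x, η (moll (ns n) v x) * moll (ns n) G x * φ x) atTop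
      (𝓝 (∫ x, η (v x) * G x * φ x)) := by
    apply tendsto_mul_bdd (fun n => hηi (hmi hv (ns n)) (hmi hG (ns n))) (hηi hv hG) _
      hφ.continuous.aestronglyMeasurable hC2
    have h1 : Tendsto (fun n => ∫ x, |(η (moll (ns n) v x) - η (v x)) * G x|) atTop (𝓝 0) := by
      have h2 : Tendsto (fun n => ∫ x, |(η (moll (ns n) v x) - η (v x)) * G x|) atTop
          (𝓝 (∫ x : E, (0:ℝ))) := by
        apply tendsto_integral_of_dominated_convergence (fun x => |G x|)
        · intro n
          exact (((hη.comp_aestronglyMeasurable (hmi hv (ns n)).aestronglyMeasurable).sub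
            (hη.comp_aestronglyMeasurable hv.aestronglyMeasurable)).mul
            hG.aestronglyMeasurable).norm
        · exact hG.abs
        · intro n
          refine ae_of_all _ fun x => ?_
          rw [Real.norm_eq_abs, abs_abs, abs_mul]
          have : |η (moll (ns n) v x) - η (v x)| ≤ 1 := by
            rw [abs_le]
            constructor <;> linarith [hη0 (moll (ns n) v x), hη1 (moll (ns n) v x), hη0 (v x),
              hη1 (v x)]
          exact mul_le_of_le_one_left (abs_nonneg _) this
        · filter_upwards [hae] with x hx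
          have h3 : Tendsto (fun n => η (moll (ns n) v x)) atTop (𝓝 (η (v x))) :=
            (hη.tendsto _).comp hx
          have h4 := ((h3.sub_const (η (v x))).mul_const (G x)).abs
          simpa using h4
      simpa using h2
    have h2 := hG'.add h1
    rw [add_zero] at h2
    refine squeeze_zero (fun _ => integral_nonneg fun _ => abs_nonneg _) (fun n => ?_) h2
    have i1 : Integrable (fun x => |moll (ns n) G x - G x|) := ((hmi hG (ns n)).sub hG).abs
    have i2 : Integrable (fun x => |(η (moll (ns n) v x) - η (v x)) * G x|) := by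
      have := ((hηi (hmi hv (ns n)) hG).sub (hηi hv hG)).abs
      refine this.congr (ae_of_all _ fun x => ?_)
      simp only [Pi.sub_apply, Pi.abs_apply]
      rw [sub_mul]
    rw [← integral_add i1 i2]
    apply integral_mono ((hηi (hmi hv (ns n)) (hmi hG (ns n))).sub (hηi hv hG)).abs (i1.add i2)
    intro x
    simp only [Pi.sub_apply, Pi.abs_apply, Pi.add_apply]
    have h3 : η (moll (ns n) v x) * moll (ns n) G x - η (v x) * G x =
        η (moll (ns n) v x) * (moll (ns n) G x - G x) + (η (moll (ns n) v x) - η (v x)) * G x := by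
      ring
    rw [h3]
    refine (abs_add_le _ _).trans ?_
    apply add_le_add_left
    rw [abs_mul, abs_of_nonneg (hη0 _)]
    exact mul_le_of_le_one_left (abs_nonneg _) (hη1 _)
  exact le_of_tendsto_of_tendsto hL hR (hns.tendsto_atTop.eventually hev)

end Pool.Agent.V1180
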