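import Mathlib

/-! Two-phase Serrin problem: the divergence identity for the radial fields
`x ↦ (A ‖x‖^(-N) - 1/N) x`. -/

open MeasureTheory Set Filter Topology Metric
open scoped ContDiff RealInnerProductSpace

namespace Pool.Agent.V1180.TP

abbrev E (N : ℕ) := EuclideanSpace ℝ (Fin N)

theorem hasFDerivAt_norm' {N : ℕ} {x : E N} (hx : x ≠ 0) :
    HasFDerivAt (fun y : E N => ‖y‖) ((‖x‖⁻¹) • innerSL ℝ x) x := by
  have hn : ‖x‖ ≠ 0 := norm_ne_zero_iff.2 hx
  have h := (hasStrictFDerivAt_norm_sq x).hasFDerivAt.sqrt (by positivity)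
  have e : (fun y : E N => √(‖y‖ ^ 2)) = fun y => ‖y‖ := by
    ext y
    exact Real.sqrt_sq (norm_nonneg y)
  rw [e] at h
  refine h.congr_fderiv ?_
  rw [Real.sqrt_sq (norm_nonneg x)]
  ext v
  simp
  field_simp

theorem int_mul {N : ℕ} {f g : E N → ℝ} (hf : ∀ x ∈ tsupport g, ContinuousAt f x)
    (hg : Continuous g) (hc : HasCompactSupport g) : Integrable (fun x => f x * g x) := by
  have hcont : Continuous (fun x => f x * g x) := by
    refine continuous_of_tsupport fun x hx => ?_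
    have hx' : x ∈ tsupport g := by
      refine closure_mono ?_ hx
      intro y hy
      simp only [Function.mem_support, ne_eq, mul_eq_zero, not_or] at hy ⊢
      exact hy.2
    exact (hf x hx').mul hg.continuousAt
  exact hcont.integrable_of_hasCompactSupport (hc.mul_left)

/-- the profile `A r^(-N) - 1/N` -/
noncomputable def Q (N : ℕ) (A r : ℝ) : ℝ := A * (r ^ N)⁻¹ - 1 / N

theorem hasDerivAt_Q {N : ℕ} (A : ℝ) {r : ℝ} (hr : r ≠ 0) :
    HasDerivAt (Q N A) (A * (-(N * r ^ (N - 1)) / (r ^ N) ^ 2)) r := by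
  unfold Q
  exact (((hasDerivAt_pow N r).inv (pow_ne_zero _ hr)).const_mul A).sub_const _

noncomputable def dQ (N : ℕ) (A r : ℝ) : ℝ := A * (-(N * r ^ (N - 1)) / (r ^ N) ^ 2)

theorem hasFDerivAt_Qn {N : ℕ} (A : ℝ) {x : E N} (hx : A = 0 ∨ x ≠ 0) :
    HasFDerivAt (fun y : E N => Q N A ‖y‖) ((dQ N A ‖x‖ * ‖x‖⁻¹) • innerSL ℝ x) x := by
  rcases hx with hA | hx
  · subst hA
    have : (fun y : E N => Q N 0 ‖y‖) = fun _ => (0 - 1 / (N:ℝ)) := by
      ext y; simp [Q]
    rw [this]
    have e : ((dQ N 0 ‖x‖ * ‖x‖⁻¹) • innerSL ℝ x : E N →L[ℝ] ℝ) = 0 := by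
      simp [dQ]
    rw [e]
    exact hasFDerivAt_const _ _
  · have h := (hasDerivAt_Q (N := N) A (norm_ne_zero_iff.2 hx)).comp_hasFDerivAt x
      (hasFDerivAt_norm' hx)
    rw [smul_smul] at h
    exact h

theorem dQ_id {N : ℕ} (hN : N ≠ 0) (A : ℝ) {r : ℝ} (hr : A = 0 ∨ r ≠ 0) :
    dQ N A r * r⁻¹ * r ^ 2 + N * Q N A r = -1 := by
  have hN' : (N:ℝ) ≠ 0 := by exact_mod_cast hN
  rcases hr with hA | hr
  · subst hA
    simp [dQ, Q, hN']
  · obtain ⟨k, rfl⟩ : ∃ k, N = k + 1 := ⟨N - 1, by omega⟩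
    unfold dQ Q
    simp only [Nat.add_sub_cancel]
    have h1 : r ^ k ≠ 0 := pow_ne_zero _ hr
    rw [pow_succ]
    field_simp
    ring

theorem div_lemma {N : ℕ} (hN : N ≠ 0) (A : ℝ) {φ : E N → ℝ} (hφ : ContDiff ℝ ∞ φ)
    (hc : HasCompactSupport φ) (h0 : A = 0 ∨ (0 : E N) ∉ tsupport φ) :
    ∫ x, fderiv ℝ φ x (Q N A ‖x‖ • x) = ∫ x, φ x := by
  set e : Fin N → E N := fun i => EuclideanSpace.single i 1 with he
  have hne : ∀ x ∈ tsupport φ, A = 0 ∨ x ≠ 0 := by
    intro x hx
    rcases h0 with h | h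
    · exact Or.inl h
    · right
      rintro rfl
      exact h hx
  set f : Fin N → E N → ℝ := fun i x => Q N A ‖x‖ * x i with hf
  set f' : Fin N → E N → (E N →L[ℝ] ℝ) := fun i x =>
    Q N A ‖x‖ • (EuclideanSpace.proj i : E N →L[ℝ] ℝ) +
      x i • ((dQ N A ‖x‖ * ‖x‖⁻¹) • innerSL ℝ x) with hf'
  have hfd : ∀ i, ∀ x ∈ tsupport φ, HasFDerivAt (f i) (f' i x) x := by
    intro i x hx
    have h1 := hasFDerivAt_Qn (N := N) A (hne x hx)
    have h2 : HasFDerivAt (fun y : E N => y i) (EuclideanSpace.proj i : E N →L[ℝ] ℝ) x :=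
      (EuclideanSpace.proj i : E N →L[ℝ] ℝ).hasFDerivAt
    exact h1.mul h2
  have hφd : Differentiable ℝ φ := hφ.differentiable (by simp)
  have hφc : Continuous φ := hφ.continuous
  have hdc : ∀ v : E N, Continuous (fun x => fderiv ℝ φ x v) := fun v =>
    (hφ.continuous_fderiv (by simp)).clm_apply continuous_const
  have hfi : ∀ i, Integrable (fun x => f i x * φ x) := fun i =>
    int_mul (fun x hx => (hfd i x hx).continuousAt) hφc hc
  have hfdi : ∀ i, Integrable (fun x => f i x * fderiv ℝ φ x (e i)) := fun i =>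
    int_mul (fun x hx => (hfd i x (tsupport_fderiv_apply_subset ℝ (e i) hx)).continuousAt)
      (hdc (e i)) (hc.fderiv_apply ℝ (e i))
  have hQc : ∀ x ∈ tsupport φ, ContinuousAt (fun y : E N => Q N A ‖y‖) x := fun x hx =>
    (hasFDerivAt_Qn (N := N) A (hne x hx)).continuousAt
  have hval : ∀ i x, f' i x (e i) = Q N A ‖x‖ + dQ N A ‖x‖ * ‖x‖⁻¹ * x i ^ 2 := by
    intro i x
    simp [hf', he, EuclideanSpace.inner_single_right]
    ring
  have hdQc : ∀ x ∈ tsupport φ, ContinuousAt (fun y : E N => dQ N A ‖y‖ * ‖y‖⁻¹) x := by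
    intro x hx
    rcases hne x hx with hA | hx0
    · subst hA
      have : (fun y : E N => dQ N 0 ‖y‖ * ‖y‖⁻¹) = fun _ => 0 := by
        ext y; simp [dQ]
      rw [this]; exact continuousAt_const
    · have hn : ‖x‖ ≠ 0 := norm_ne_zero_iff.2 hx0
      unfold dQ
      have : ContinuousAt (fun y : E N => ‖y‖) x := continuous_norm.continuousAt
      refine ContinuousAt.mul (ContinuousAt.mul continuousAt_const ?_) (this.inv₀ hn)
      refine ContinuousAt.div ?_ ((this.pow N).pow 2) (pow_ne_zero _ (pow_ne_zero _ hn))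
      exact (continuousAt_const.mul (this.pow _)).neg
  have hf'i : ∀ i, Integrable (fun x => f' i x (e i) * φ x) := by
    intro i
    simp only [hval]
    refine int_mul (fun x hx => ?_) hφc hc
    refine (hQc x hx).add ((hdQc x hx).mul ?_)
    have : Continuous (fun y : E N => y i) := (EuclideanSpace.proj i : E N →L[ℝ] ℝ).continuous
    exact (this.pow 2).continuousAt
  have ibp : ∀ i, ∫ x, f i x * fderiv ℝ φ x (e i) = - ∫ x, f' i x (e i) * φ x := by
    intro i
    have := integral_bilinear_hasFDerivAt_right_eq_neg_left_of_integrable (μ := volume)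
      (B := ContinuousLinearMap.mul ℝ ℝ) (f := f i) (f' := f' i) (g := φ) (g' := fderiv ℝ φ)
      (v := e i) (by simpa using hf'i i) (by simpa using hfdi i) (by simpa using hfi i)
      (hfd i) (fun x _ => (hφd x).hasFDerivAt)
    simpa using this
  have hexp : ∀ x, fderiv ℝ φ x (Q N A ‖x‖ • x) = ∑ i, f i x * fderiv ℝ φ x (e i) := by
    intro x
    have hx : x = ∑ i, x i • e i := by
      have := (EuclideanSpace.basisFun (Fin N) ℝ).sum_repr x
      simpa [he] using this.symm
    have h1 : fderiv ℝ φ x x = ∑ i, x i * fderiv ℝ φ x (e i) := by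
      have h2 : fderiv ℝ φ x (∑ i, x i • e i) = ∑ i, x i * fderiv ℝ φ x (e i) := by
        rw [map_sum]
        simp
      rw [← hx] at h2
      exact h2
    rw [map_smul, h1, smul_eq_mul, Finset.mul_sum]
    refine Finset.sum_congr rfl fun i _ => ?_
    simp only [hf]
    ring
  have hsum : ∀ x, ∑ i, f' i x (e i) * φ x = - φ x := by
    intro x
    by_cases hx : x ∈ tsupport φ
    · have h1 : ∑ i, f' i x (e i) = -1 := by
        simp only [hval]
        rw [Finset.sum_add_distrib, ← Finset.mul_sum]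
        simp only [Finset.sum_const, Finset.card_univ, Fintype.card_fin, nsmul_eq_mul]
        have h2 : ∑ i, x i ^ 2 = ‖x‖ ^ 2 := by
          rw [EuclideanSpace.norm_sq_eq]
          simp
        rw [h2, add_comm]
        refine dQ_id hN A ?_
        rcases hne x hx with h | h
        · exact Or.inl h
        · exact Or.inr (norm_ne_zero_iff.2 h)
      rw [← Finset.sum_mul, h1]
      ring
    · rw [image_eq_zero_of_notMem_tsupport hx]
      simp
  calc ∫ x, fderiv ℝ φ x (Q N A ‖x‖ • x) = ∫ x, ∑ i, f i x * fderiv ℝ φ x (e i) := by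
        simp only [hexp]
    _ = ∑ i, ∫ x, f i x * fderiv ℝ φ x (e i) := integral_finset_sum _ fun i _ => hfdi i
    _ = ∑ i, - ∫ x, f' i x (e i) * φ x := Finset.sum_congr rfl fun i _ => ibp i
    _ = - ∫ x, ∑ i, f' i x (e i) * φ x := by
        rw [integral_finset_sum _ fun i _ => hf'i i, Finset.sum_neg_distrib]
    _ = ∫ x, φ x := by
        simp only [hsum]
        rw [integral_neg, neg_neg]

end Pool.Agent.V1180.TP
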