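import Pool.Agent.V1180.TPa

/-! Two-phase Serrin problem: definitions and the radial solutions. -/

open MeasureTheory Set Filter Topology Metric
open scoped ContDiff RealInnerProductSpace

namespace Pool.Agent.V1180.TP

/-- `n` is the outward unit normal of the open set `Ω` at the point `x`, near which the
boundary of `Ω` is smooth: `Ω` is given near `x` as `{ρ < 0}` with `ρ` smooth and
`∇ρ(x) = t n`, `t > 0`. -/
def IsOuterNormal {N : ℕ} (Ω : Set (E N)) (x n : E N) : Prop :=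
  ‖n‖ = 1 ∧ ∃ (U : Set (E N)) (ρ : E N → ℝ), IsOpen U ∧ x ∈ U ∧ ContDiff ℝ ∞ ρ ∧
    Ω ∩ U = {y | y ∈ U ∧ ρ y < 0} ∧ ∃ t : ℝ, 0 < t ∧ gradient ρ x = t • n

/-- a domain: bounded, connected, open, with smooth boundary -/
def IsSmoothDomain {N : ℕ} (Ω : Set (E N)) : Prop :=
  IsOpen Ω ∧ IsConnected Ω ∧ Bornology.IsBounded Ω ∧ ∀ x ∈ frontier Ω, ∃ n, IsOuterNormal Ω x n

/-- the conductivity: `σc` in the core `D`, `1` outside -/
noncomputable def cond {N : ℕ} (σc : ℝ) (D : Set (E N)) (x : E N) : ℝ := by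
  classical exact if x ∈ D then σc else 1

/-- `(D, Ω)` is a solution of the two-phase Serrin problem with conductivity `σc` -/
def IsSolution {N : ℕ} (σc : ℝ) (D Ω : Set (E N)) : Prop :=
  IsSmoothDomain D ∧ IsSmoothDomain Ω ∧ closure D ⊆ Ω ∧ ∃ (c : ℝ) (u : E N → ℝ),
    (∃ L, LipschitzWith L u) ∧ (∀ x, x ∉ Ω → u x = 0) ∧
    (∀ φ : E N → ℝ, ContDiff ℝ ∞ φ → HasCompactSupport φ → tsupport φ ⊆ Ω →
      ∫ x in Ω, cond σc D x * inner ℝ (gradient u x) (gradient φ x) = ∫ x in Ω, φ x) ∧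
    ∀ x ∈ frontier Ω, ∃ n, IsOuterNormal Ω x n ∧
      Tendsto (fun t : ℝ => (u x - u (x - t • n)) / t) (𝓝[>] 0) (𝓝 c)

/-- the flux `A s^(1-N) - s/N` -/
noncomputable def m (N : ℕ) (A s : ℝ) : ℝ := A * (s ^ (N - 1))⁻¹ - s / N

theorem m_eq {N : ℕ} (hN : N ≠ 0) (A : ℝ) {s : ℝ} (hs : s ≠ 0) : m N A s = Q N A s * s := by
  obtain ⟨k, rfl⟩ : ∃ k, N = k + 1 := ⟨N - 1, by omega⟩
  unfold m Q
  simp only [Nat.add_sub_cancel]
  rw [pow_succ]
  field_simp

/-- the radial conductivity -/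
noncomputable def sg (σc a b s : ℝ) : ℝ := if a < s ∧ s < b then σc else 1

/-- the radial derivative of the solution -/
noncomputable def w (N : ℕ) (A σc a b r0 r1 s : ℝ) : ℝ :=
  if r0 < s ∧ s < r1 then m N A s / sg σc a b s else 0

/-- the radial solution -/
noncomputable def V (N : ℕ) (A σc a b r0 r1 r : ℝ) : ℝ :=
  ∫ s in r1..r, w N A σc a b r0 r1 s

/-- the shell -/
def Ann (N : ℕ) (r0 r1 : ℝ) : Set (E N) := {x | r0 < ‖x‖ ∧ ‖x‖ < r1}

theorem continuousAt_m {N : ℕ} {A s : ℝ} (h : A = 0 ∨ s ≠ 0) : ContinuousAt (m N A) s := by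
  rcases h with h | h
  · subst h
    have : m N 0 = fun s : ℝ => - (s / N) := by ext s; simp [m]
    rw [this]
    fun_prop
  · unfold m
    exact (continuousAt_const.mul ((continuousAt_id.pow _).inv₀ (pow_ne_zero _ h))).sub
      (continuousAt_id.div_const _)

theorem measurable_m {N : ℕ} {A : ℝ} : Measurable (m N A) := by
  unfold m
  fun_prop

theorem measurable_w {N : ℕ} {A σc a b r0 r1 : ℝ} : Measurable (w N A σc a b r0 r1) := by
  unfold w sg
  refine Measurable.ite measurableSet_Ioo ?_ measurable_const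
  exact measurable_m.div (Measurable.ite measurableSet_Ioo measurable_const measurable_const)

theorem bound_w {N : ℕ} {A σc a b r0 r1 : ℝ} (hσ : 0 < σc) (hA : A = 0 ∨ 0 < r0) :
    ∃ M : ℝ, 0 ≤ M ∧ ∀ s, |w N A σc a b r0 r1 s| ≤ M := by
  have hc : ContinuousOn (m N A) (Icc r0 r1) := by
    intro s hs
    refine (continuousAt_m ?_).continuousWithinAt
    rcases hA with h | h
    · exact Or.inl h
    · exact Or.inr (lt_of_lt_of_le h hs.1).ne'
  obtain ⟨M, hM⟩ := isCompact_Icc.exists_bound_of_continuousOn hc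
  refine ⟨max M 0 * (σc⁻¹ + 1), by positivity, fun s => ?_⟩
  unfold w
  split_ifs with h
  · have h1 : |m N A s| ≤ max M 0 := (hM s ⟨h.1.le, h.2.le⟩).trans (le_max_left _ _)
    have h2 : |(sg σc a b s)⁻¹| ≤ σc⁻¹ + 1 := by
      unfold sg
      split_ifs
      · rw [abs_of_pos (inv_pos.2 hσ)]; linarith
      · simp; positivity
    rw [div_eq_mul_inv, abs_mul]
    exact mul_le_mul h1 h2 (abs_nonneg _) (le_max_right _ _)
  · simp; positivity

theorem ii_w {N : ℕ} {A σc a b r0 r1 : ℝ} (hσ : 0 < σc) (hA : A = 0 ∨ 0 < r0) (p q : ℝ) :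
    IntervalIntegrable (w N A σc a b r0 r1) volume p q := by
  obtain ⟨M, hM0, hM⟩ := bound_w (N := N) (a := a) (b := b) (r1 := r1) hσ hA
  refine (intervalIntegrable_const (c := M)).mono_fun
    measurable_w.aestronglyMeasurable ?_
  refine Eventually.of_forall fun s => ?_
  simp only [Real.norm_eq_abs]
  rw [abs_of_nonneg hM0]
  exact hM s

theorem V_sub {N : ℕ} {A σc a b r0 r1 : ℝ} (hσ : 0 < σc) (hA : A = 0 ∨ 0 < r0) (p q : ℝ) :
    V N A σc a b r0 r1 q - V N A σc a b r0 r1 p = ∫ s in p..q, w N A σc a b r0 r1 s := by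
  unfold V
  exact intervalIntegral.integral_interval_sub_left (ii_w hσ hA _ _) (ii_w hσ hA _ _)

theorem V_lip {N : ℕ} {A σc a b r0 r1 : ℝ} (hσ : 0 < σc) (hA : A = 0 ∨ 0 < r0) :
    ∃ L, LipschitzWith L (V N A σc a b r0 r1) := by
  obtain ⟨M, hM0, hM⟩ := bound_w (N := N) (a := a) (b := b) (r1 := r1) hσ hA
  refine ⟨⟨M, hM0⟩, LipschitzWith.of_dist_le_mul fun p q => ?_⟩
  rw [Real.dist_eq, Real.dist_eq, V_sub hσ hA]
  have := intervalIntegral.norm_integral_le_of_norm_le_const (f := w N A σc a b r0 r1)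
    (a := q) (b := p) (C := M) (fun s _ => hM s)
  rw [Real.norm_eq_abs] at this
  exact this

theorem V_zero_right {N : ℕ} {A σc a b r0 r1 r : ℝ} (hr : r1 ≤ r) :
    V N A σc a b r0 r1 r = 0 := by
  unfold V
  rw [← intervalIntegral.integral_zero (a := r1) (b := r) (E := ℝ) (μ := volume)]
  refine intervalIntegral.integral_congr fun s hs => ?_
  rw [uIcc_of_le hr] at hs
  unfold w
  rw [if_neg]
  intro h
  exact absurd h.2 (not_lt.2 hs.1)

theorem V_zero_left {N : ℕ} {A σc a b r0 r1 r : ℝ} (hσ : 0 < σc) (hA : A = 0 ∨ 0 < r0)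
    (hI : ∫ s in r0..r1, w N A σc a b r0 r1 s = 0) (hr : r ≤ r0) :
    V N A σc a b r0 r1 r = 0 := by
  have h1 := V_sub (N := N) (a := a) (b := b) (r1 := r1) hσ hA r r0
  have h2 := V_sub (N := N) (a := a) (b := b) (r1 := r1) hσ hA r0 r1
  rw [hI, V_zero_right le_rfl] at h2
  have h3 : ∫ s in r..r0, w N A σc a b r0 r1 s = 0 := by
    rw [← intervalIntegral.integral_zero (a := r) (b := r0) (E := ℝ) (μ := volume)]
    refine intervalIntegral.integral_congr fun s hs => ?_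
    rw [uIcc_of_le hr] at hs
    unfold w
    rw [if_neg]
    intro h
    exact absurd h.1 (not_lt.2 hs.2)
  linarith

theorem V_deriv {N : ℕ} {A σc a b r0 r1 r : ℝ} (hσ : 0 < σc) (hA : A = 0 ∨ 0 < r0)
    (h0 : r0 < r) (h1 : r < r1) (ha : r ≠ a) (hb : r ≠ b) :
    HasDerivAt (V N A σc a b r0 r1) (m N A r / sg σc a b r) r := by
  have hm : ContinuousAt (m N A) r := continuousAt_m (by
    rcases hA with h | h
    · exact Or.inl h
    · exact Or.inr (h.trans h0).ne')
  have hev : ∀ᶠ s in 𝓝 r, w N A σc a b r0 r1 s = m N A s / sg σc a b r := by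
    have e1 : ∀ᶠ s in 𝓝 r, r0 < s := lt_mem_nhds h0
    have e2 : ∀ᶠ s in 𝓝 r, s < r1 := gt_mem_nhds h1
    have e3 : ∀ᶠ s in 𝓝 r, (a < s ↔ a < r) := by
      rcases lt_or_gt_of_ne ha with h | h
      · filter_upwards [gt_mem_nhds h] with s hs
        exact ⟨fun h' => absurd h' (not_lt.2 hs.le), fun h' => absurd h' (not_lt.2 h.le)⟩
      · filter_upwards [lt_mem_nhds h] with s hs
        exact ⟨fun _ => h, fun _ => hs⟩
    have e4 : ∀ᶠ s in 𝓝 r, (s < b ↔ r < b) := by
      rcases lt_or_gt_of_ne hb with h | h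
      · filter_upwards [gt_mem_nhds h] with s hs
        exact ⟨fun _ => h, fun _ => hs⟩
      · filter_upwards [lt_mem_nhds h] with s hs
        exact ⟨fun h' => absurd h' (not_lt.2 hs.le), fun h' => absurd h' (not_lt.2 h.le)⟩
    filter_upwards [e1, e2, e3, e4] with s k1 k2 k3 k4
    unfold w
    rw [if_pos ⟨k1, k2⟩]
    unfold sg
    simp only [k3, k4]
  have hwr : w N A σc a b r0 r1 r = m N A r / sg σc a b r := hev.self_of_nhds
  have hcw : ContinuousAt (w N A σc a b r0 r1) r := by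
    have : ContinuousAt (fun s => m N A s / sg σc a b r) r := hm.div_const _
    exact this.congr (hev.mono fun s hs => hs.symm)
  have := intervalIntegral.integral_hasDerivAt_right (ii_w (N := N) (σc := σc) (a := a) (b := b)
    (r1 := r1) hσ hA r1 r) (measurable_w.stronglyMeasurable.stronglyMeasurableAtFilter) hcw
  rw [hwr] at this
  exact this

end Pool.Agent.V1180.TP
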