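import Pool.Agent.V1180.TPb

/-! Two-phase Serrin problem: radial solutions in shells and balls. -/

open MeasureTheory Set Filter Topology Metric
open scoped ContDiff

namespace Pool.Agent.V1180.TP

theorem tendsto_right_end {N : ℕ} {A σc a b r0 r1 : ℝ} (hA : A = 0 ∨ 0 < r0)
    (h01 : r0 < r1) (hb : b < r1) :
    Tendsto (fun t : ℝ => (V N A σc a b r0 r1 r1 - V N A σc a b r0 r1 (r1 - t)) / t) (𝓝[>] 0)
      (𝓝 (m N A r1)) := by
  have hcont : ContinuousAt (m N A) r1 := continuousAt_m (by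
    rcases hA with h | h
    · exact Or.inl h
    · exact Or.inr (h.trans h01).ne')
  have hG : HasDerivAt (fun r => ∫ s in r1..r, m N A s) (m N A r1) r1 :=
    intervalIntegral.integral_hasDerivAt_right (by simp)
      (measurable_m.stronglyMeasurable.stronglyMeasurableAtFilter) hcont
  have h1 := hasDerivAt_iff_tendsto_slope_zero.1 hG
  have h2 : Tendsto (fun t : ℝ => -t) (𝓝[>] 0) (𝓝[≠] 0) := by
    refine tendsto_nhdsWithin_iff.2 ⟨?_, ?_⟩
    · have : Tendsto (fun t : ℝ => -t) (𝓝 0) (𝓝 (-0)) := continuous_neg.tendsto 0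
      rw [neg_zero] at this
      exact this.mono_left nhdsWithin_le_nhds
    · filter_upwards [self_mem_nhdsWithin] with t ht
      have : (0:ℝ) < t := ht
      simp only [mem_compl_iff, mem_singleton_iff, neg_eq_zero]
      exact this.ne'
  have h3 := h1.comp h2
  refine h3.congr' ?_
  have hpos : 0 < r1 - max b r0 := by
    have := max_lt hb h01
    linarith
  have hev : ∀ᶠ t in 𝓝[>] (0:ℝ), t < r1 - max b r0 :=
    nhdsWithin_le_nhds (gt_mem_nhds hpos)
  filter_upwards [self_mem_nhdsWithin, hev] with t ht ht'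
  have ht0 : (0:ℝ) < t := ht
  have k1 : b < r1 - t := by have := le_max_left b r0; linarith
  have k2 : r0 < r1 - t := by have := le_max_right b r0; linarith
  have hV : V N A σc a b r0 r1 (r1 - t) = ∫ s in r1..(r1 - t), m N A s := by
    unfold V
    refine intervalIntegral.integral_congr_ae ?_
    have hne : ∀ᵐ s : ℝ, s ≠ r1 := by simp [ae_iff]
    filter_upwards [hne] with s hs hs'
    rw [uIoc_of_ge (by linarith : r1 - t ≤ r1)] at hs'
    unfold w sg
    rw [if_pos ⟨by linarith [hs'.1], lt_of_le_of_ne hs'.2 hs⟩, if_neg, div_one]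
    rintro ⟨-, h⟩
    linarith [hs'.1]
  have hV1 : V N A σc a b r0 r1 r1 = 0 := V_zero_right le_rfl
  simp only [Function.comp, hV1, hV, intervalIntegral.integral_same, smul_eq_mul, sub_zero]
  rw [← sub_eq_add_neg]
  field_simp
  ring

theorem tendsto_left_end {N : ℕ} {A σc a b r0 r1 : ℝ} (hσ : 0 < σc) (hr0 : 0 < r0)
    (h01 : r0 < r1) (ha : r0 < a) :
    Tendsto (fun t : ℝ => (V N A σc a b r0 r1 r0 - V N A σc a b r0 r1 (r0 + t)) / t) (𝓝[>] 0)
      (𝓝 (- m N A r0)) := by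
  have hcont : ContinuousAt (m N A) r0 := continuousAt_m (Or.inr hr0.ne')
  have hG : HasDerivAt (fun r => ∫ s in r0..r, m N A s) (m N A r0) r0 :=
    intervalIntegral.integral_hasDerivAt_right (by simp)
      (measurable_m.stronglyMeasurable.stronglyMeasurableAtFilter) hcont
  have h1 := hasDerivAt_iff_tendsto_slope_zero.1 hG
  have h2 : (𝓝[>] (0:ℝ)) ≤ 𝓝[≠] 0 := nhdsWithin_mono _ fun t ht => ne_of_gt ht
  have h3 := (h1.mono_left h2).neg
  refine h3.congr' ?_
  have hpos : 0 < min a r1 - r0 := by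
    have := lt_min ha h01
    linarith
  have hev : ∀ᶠ t in 𝓝[>] (0:ℝ), t < min a r1 - r0 :=
    nhdsWithin_le_nhds (gt_mem_nhds hpos)
  filter_upwards [self_mem_nhdsWithin, hev] with t ht ht'
  have ht0 : (0:ℝ) < t := ht
  have k1 : r0 + t < a := by have := min_le_left a r1; linarith
  have k2 : r0 + t < r1 := by have := min_le_right a r1; linarith
  have hV := V_sub (N := N) (A := A) (a := a) (b := b) (r1 := r1) hσ (Or.inr hr0) r0 (r0 + t)
  have hV' : ∫ s in r0..(r0 + t), w N A σc a b r0 r1 s = ∫ s in r0..(r0 + t), m N A s := by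
    refine intervalIntegral.integral_congr_ae ?_
    refine Eventually.of_forall fun s hs' => ?_
    rw [uIoc_of_le (by linarith : r0 ≤ r0 + t)] at hs'
    unfold w sg
    rw [if_pos ⟨hs'.1, by linarith [hs'.2]⟩, if_neg, div_one]
    rintro ⟨h, -⟩
    linarith [hs'.2]
  rw [hV'] at hV
  simp only [intervalIntegral.integral_same, smul_eq_mul, sub_zero]
  rw [← hV]
  field_simp
  ring

theorem isOpen_Ann {N : ℕ} {r0 r1 : ℝ} : IsOpen (Ann N r0 r1) :=
  (isOpen_lt continuous_const continuous_norm).inter (isOpen_lt continuous_norm continuous_const)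

theorem closure_Ann {N : ℕ} {r0 r1 : ℝ} {x : E N} (hx : x ∈ closure (Ann N r0 r1)) :
    r0 ≤ ‖x‖ ∧ ‖x‖ ≤ r1 := by
  have hcl : IsClosed {x : E N | r0 ≤ ‖x‖ ∧ ‖x‖ ≤ r1} :=
    (isClosed_le continuous_const continuous_norm).inter
      (isClosed_le continuous_norm continuous_const)
  have hsub : Ann N r0 r1 ⊆ {x : E N | r0 ≤ ‖x‖ ∧ ‖x‖ ≤ r1} :=
    fun y hy => ⟨le_of_lt hy.1, le_of_lt hy.2⟩
  exact closure_minimal hsub hcl hx

theorem frontier_Ann {N : ℕ} {r0 r1 : ℝ} {x : E N} (hx : x ∈ frontier (Ann N r0 r1)) :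
    ‖x‖ = r0 ∨ ‖x‖ = r1 := by
  have h1 := closure_Ann hx.1
  have h2 : x ∉ Ann N r0 r1 := by
    have := hx.2
    rwa [isOpen_Ann.interior_eq] at this
  by_contra hcon
  rw [not_or] at hcon
  exact h2 ⟨lt_of_le_of_ne h1.1 (fun h => hcon.1 h.symm), lt_of_le_of_ne h1.2 hcon.2⟩

theorem grad_sq {N : ℕ} (x : E N) (c : ℝ) :
    gradient (fun y : E N => ‖y‖ ^ 2 - c) x = (2:ℝ) • x := by
  have h := ((hasStrictFDerivAt_norm_sq x).hasFDerivAt).sub_const c
  have h' : HasGradientAt (fun y : E N => ‖y‖ ^ 2 - c) ((2:ℝ) • x) x := by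
    rw [hasGradientAt_iff_hasFDerivAt]
    refine h.congr_fderiv ?_
    ext v
    simp
  exact h'.gradient

theorem grad_sq' {N : ℕ} (x : E N) (c : ℝ) :
    gradient (fun y : E N => c - ‖y‖ ^ 2) x = -((2:ℝ) • x) := by
  have h := ((hasStrictFDerivAt_norm_sq x).hasFDerivAt).const_sub c
  have h' : HasGradientAt (fun y : E N => c - ‖y‖ ^ 2) (-((2:ℝ) • x)) x := by
    rw [hasGradientAt_iff_hasFDerivAt]
    refine h.congr_fderiv ?_
    ext v
    simp
  exact h'.gradient

theorem normal_out {N : ℕ} {r0 r1 : ℝ} (h01 : r0 < r1) (h1 : 0 < r1) {x : E N} (hx : ‖x‖ = r1) :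
    IsOuterNormal (Ann N r0 r1) x (r1⁻¹ • x) := by
  refine ⟨?_, {y | r0 < ‖y‖}, fun y => ‖y‖ ^ 2 - r1 ^ 2, ?_, ?_, ?_, ?_, 2 * r1, by positivity, ?_⟩
  · rw [norm_smul, hx, norm_inv, Real.norm_eq_abs, abs_of_pos h1, inv_mul_cancel₀ h1.ne']
  · exact isOpen_lt continuous_const continuous_norm
  · simp only [mem_ofPred_eq, hx]; exact h01
  · exact (contDiff_norm_sq ℝ).sub contDiff_const
  · ext y
    simp only [Ann, mem_inter_iff, mem_ofPred_eq]
    constructor
    · rintro ⟨⟨h2, h3⟩, -⟩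
      refine ⟨h2, ?_⟩
      have := norm_nonneg y
      nlinarith
    · rintro ⟨h2, h3⟩
      refine ⟨⟨h2, ?_⟩, h2⟩
      have := norm_nonneg y
      nlinarith
  · rw [grad_sq, smul_smul]
    congr 1
    field_simp

theorem normal_in {N : ℕ} {r0 r1 : ℝ} (h01 : r0 < r1) (h0 : 0 < r0) {x : E N} (hx : ‖x‖ = r0) :
    IsOuterNormal (Ann N r0 r1) x (-(r0⁻¹ • x)) := by
  refine ⟨?_, {y | ‖y‖ < r1}, fun y => r0 ^ 2 - ‖y‖ ^ 2, ?_, ?_, ?_, ?_, 2 * r0, by positivity, ?_⟩
  · rw [norm_neg, norm_smul, hx, norm_inv, Real.norm_eq_abs, abs_of_pos h0,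
      inv_mul_cancel₀ h0.ne']
  · exact isOpen_lt continuous_norm continuous_const
  · simp only [mem_ofPred_eq, hx]; exact h01
  · exact contDiff_const.sub (contDiff_norm_sq ℝ)
  · ext y
    simp only [Ann, mem_inter_iff, mem_ofPred_eq]
    constructor
    · rintro ⟨⟨h2, h3⟩, -⟩
      refine ⟨h3, ?_⟩
      have := norm_nonneg y
      nlinarith
    · rintro ⟨h2, h3⟩
      refine ⟨⟨?_, h2⟩, h2⟩
      have := norm_nonneg y
      nlinarith
  · rw [grad_sq', smul_neg, smul_smul]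
    congr 2
    field_simp

theorem smooth_Ann {N : ℕ} {r0 r1 : ℝ} (h01 : r0 < r1) (h1 : 0 < r1) (h0 : r0 < 0 ∨ 0 < r0)
    (hc : IsConnected (Ann N r0 r1)) : IsSmoothDomain (Ann N r0 r1) := by
  refine ⟨isOpen_Ann, hc, ?_, fun x hx => ?_⟩
  · refine (isBounded_iff_forall_norm_le.2 ⟨r1, fun x hx => hx.2.le⟩)
  · rcases frontier_Ann hx with h | h
    · rcases h0 with h0 | h0
      · have := norm_nonneg x
        linarith
      · exact ⟨_, normal_in h01 h0 h⟩
    · exact ⟨_, normal_out h01 h1 h⟩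

theorem grad_radial {N : ℕ} {f : ℝ → ℝ} {f' : ℝ} {x : E N} (hx : x ≠ 0)
    (hf : HasDerivAt f f' ‖x‖) : gradient (fun y : E N => f ‖y‖) x = (f' * ‖x‖⁻¹) • x := by
  have h := hf.comp_hasFDerivAt x (hasFDerivAt_norm' hx)
  have h' : HasGradientAt (fun y : E N => f ‖y‖) ((f' * ‖x‖⁻¹) • x) x := by
    rw [hasGradientAt_iff_hasFDerivAt]
    refine HasFDerivAt.congr_fderiv h ?_
    ext v
    simp [mul_assoc]
  exact h'.gradient

theorem inner_grad {N : ℕ} (φ : E N → ℝ) (x v : E N) :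
    inner ℝ v (gradient φ x) = fderiv ℝ φ x v := by
  rw [real_inner_comm]
  unfold gradient
  simp

end Pool.Agent.V1180.TP
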