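import Pool.Agent.V1180.TPc

/-! Two-phase Serrin problem: the radial functions are solutions. -/

open MeasureTheory Set Filter Topology Metric
open scoped ContDiff

namespace Pool.Agent.V1180.TP

theorem cond_Ann {N : ℕ} {σc a b : ℝ} (x : E N) :
    cond σc (Ann N a b) x = sg σc a b ‖x‖ := by
  unfold cond sg
  by_cases h : a < ‖x‖ ∧ ‖x‖ < b
  · rw [if_pos h, if_pos (show x ∈ Ann N a b from h)]
  · rw [if_neg h, if_neg (show x ∉ Ann N a b from h)]

theorem weak_Ann {N : ℕ} (hN : 2 ≤ N) {A σc a b r0 r1 : ℝ} (hσ : 0 < σc)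
    (hA : A = 0 ∨ 0 < r0)
    {φ : E N → ℝ} (hφ : ContDiff ℝ ∞ φ) (hc : HasCompactSupport φ)
    (hs : tsupport φ ⊆ Ann N r0 r1) :
    ∫ x in Ann N r0 r1, cond σc (Ann N a b) x *
      inner ℝ (gradient (fun y : E N => V N A σc a b r0 r1 ‖y‖) x) (gradient φ x) =
        ∫ x in Ann N r0 r1, φ x := by
  haveI : Nonempty (Fin N) := ⟨⟨0, by omega⟩⟩
  haveI : Nontrivial (E N) := inferInstance
  have hN0 : N ≠ 0 := by omega
  have hgr0 : ∀ x, x ∉ tsupport φ → fderiv ℝ φ x = 0 := fun x hx => by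
    have := tsupport_fderiv_subset ℝ (f := φ)
    by_contra hcon
    exact hx (this (subset_tsupport _ hcon))
  have e1 : ∫ x in Ann N r0 r1, cond σc (Ann N a b) x *
      inner ℝ (gradient (fun y : E N => V N A σc a b r0 r1 ‖y‖) x) (gradient φ x) =
      ∫ x, cond σc (Ann N a b) x *
      inner ℝ (gradient (fun y : E N => V N A σc a b r0 r1 ‖y‖) x) (gradient φ x) := by
    refine setIntegral_eq_integral_of_forall_compl_eq_zero fun x hx => ?_
    rw [inner_grad, hgr0 x (fun h => hx (hs h))]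
    simp
  have e2 : ∫ x in Ann N r0 r1, φ x = ∫ x, φ x := by
    refine setIntegral_eq_integral_of_forall_compl_eq_zero fun x hx => ?_
    exact image_eq_zero_of_notMem_tsupport (fun h => hx (hs h))
  have h0 : A = 0 ∨ (0 : E N) ∉ tsupport φ := by
    rcases hA with h | h
    · exact Or.inl h
    · right
      intro h'
      have := (hs h').1
      rw [norm_zero] at this
      linarith
  rw [e1, e2, ← div_lemma hN0 A hφ hc h0]
  refine integral_congr_ae ?_
  have n0 : ∀ᵐ x : E N, x ≠ 0 := by simp [ae_iff]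
  have na : ∀ᵐ x : E N, ‖x‖ ≠ a := by
    have := Measure.addHaar_sphere (volume : Measure (E N)) 0 a
    rw [ae_iff]
    convert this using 2
    ext x
    simp
  have nb : ∀ᵐ x : E N, ‖x‖ ≠ b := by
    have := Measure.addHaar_sphere (volume : Measure (E N)) 0 b
    rw [ae_iff]
    convert this using 2
    ext x
    simp
  filter_upwards [n0, na, nb] with x hx0 hxa hxb
  rw [inner_grad]
  by_cases hx : x ∈ tsupport φ
  · have hxA := hs hx
    have hd := V_deriv (N := N) hσ hA hxA.1 hxA.2 hxa hxb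
    rw [grad_radial hx0 hd, cond_Ann, map_smul, map_smul, smul_eq_mul, smul_eq_mul,
      m_eq hN0 A (norm_ne_zero_iff.2 hx0)]
    have hn : ‖x‖ ≠ 0 := norm_ne_zero_iff.2 hx0
    have hsg : sg σc a b ‖x‖ ≠ 0 := by
      unfold sg
      split_ifs
      · exact hσ.ne'
      · exact one_ne_zero
    field_simp
  · rw [hgr0 x hx]
    simp

theorem core {N : ℕ} (hN : 2 ≤ N) {A σc a b r0 r1 : ℝ} (hσ : 0 < σc) (ha0 : 0 < a)
    (hab : a < b) (hr0a : r0 < a) (hbr1 : b < r1) (hA : A = 0 ∨ 0 < r0) (h0 : r0 < 0 ∨ 0 < r0)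
    (hI : 0 < r0 → ∫ s in r0..r1, w N A σc a b r0 r1 s = 0)
    (hc : 0 < r0 → m N A r1 = - m N A r0)
    (hcD : IsConnected (Ann N a b)) (hcΩ : IsConnected (Ann N r0 r1)) :
    IsSolution σc (Ann N a b) (Ann N r0 r1) := by
  have h1 : 0 < r1 := by linarith
  have h01 : r0 < r1 := by linarith
  refine ⟨smooth_Ann hab (by linarith) (Or.inr ha0) hcD, smooth_Ann h01 h1 h0 hcΩ, ?_,
    m N A r1, fun y => V N A σc a b r0 r1 ‖y‖, ?_, ?_, ?_, ?_⟩
  · intro x hx
    have := closure_Ann hx
    exact ⟨by linarith [this.1], by linarith [this.2]⟩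
  · obtain ⟨L, hL⟩ := V_lip (N := N) (A := A) (a := a) (b := b) (r1 := r1) hσ hA
    exact ⟨L * 1, hL.comp lipschitzWith_one_norm⟩
  · intro x hx
    by_cases hx1 : r1 ≤ ‖x‖
    · exact V_zero_right hx1
    · have hx0 : ‖x‖ ≤ r0 := by
        by_contra hcon
        exact hx ⟨not_le.1 hcon, not_le.1 hx1⟩
      have hp : 0 < r0 := by
        rcases h0 with h | h
        · have := norm_nonneg x
          linarith
        · exact h
      exact V_zero_left hσ hA (hI hp) hx0
  · intro φ hφ hcs hs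
    exact weak_Ann hN hσ hA hφ hcs hs
  · intro x hx
    rcases frontier_Ann hx with h | h
    · have hp : 0 < r0 := by
        rcases h0 with h' | h'
        · have := norm_nonneg x
          linarith
        · exact h'
      refine ⟨_, normal_in h01 hp h, ?_⟩
      rw [hc hp]
      refine (tendsto_left_end (N := N) (A := A) (b := b) hσ hp h01 hr0a).congr' ?_
      filter_upwards [self_mem_nhdsWithin] with t ht
      have ht0 : (0:ℝ) < t := ht
      have e : x - t • (-(r0⁻¹ • x)) = ((r0 + t) * r0⁻¹) • x := by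
        rw [smul_neg, sub_neg_eq_add, smul_smul, add_mul, mul_inv_cancel₀ hp.ne', add_smul,
          one_smul]
      rw [e, norm_smul, h, Real.norm_eq_abs, abs_of_pos (by positivity), mul_assoc,
        inv_mul_cancel₀ hp.ne', mul_one]
    · refine ⟨_, normal_out h01 h1 h, ?_⟩
      refine (tendsto_right_end (N := N) (A := A) (σc := σc) (a := a) hA h01 hbr1).congr' ?_
      filter_upwards [self_mem_nhdsWithin, nhdsWithin_le_nhds (gt_mem_nhds h1)] with t ht ht'
      have ht0 : (0:ℝ) < t := ht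
      have e : x - t • (r1⁻¹ • x) = ((r1 - t) * r1⁻¹) • x := by
        rw [smul_smul, sub_mul, mul_inv_cancel₀ h1.ne', sub_smul, one_smul]
      have hp : 0 < r1 - t := by linarith
      rw [e, norm_smul, h, Real.norm_eq_abs, abs_of_pos (by positivity), mul_assoc,
        inv_mul_cancel₀ h1.ne', mul_one]

theorem connected_Ann {N : ℕ} (hN : 2 ≤ N) {r0 r1 : ℝ} (h0 : 0 ≤ r0) (h01 : r0 < r1) :
    IsConnected (Ann N r0 r1) := by
  have hr : 1 < Module.rank ℝ (E N) := by
    rw [rank_eq_card_basis (EuclideanSpace.basisFun (Fin N) ℝ).toBasis]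
    simp only [Fintype.card_fin]
    exact_mod_cast hN
  have h1 : IsConnected (sphere (0 : E N) 1) := isConnected_sphere hr 0 zero_le_one
  have h2 : IsConnected (Ioo r0 r1) := isConnected_Ioo h01
  have h3 : IsConnected (Ioo r0 r1 ×ˢ sphere (0 : E N) 1) := h2.prod h1
  have h4 := h3.image (fun p : ℝ × E N => p.1 • p.2) (by fun_prop)
  convert h4 using 1
  ext x
  simp only [Ann, mem_ofPred_eq, mem_image, mem_prod, mem_Ioo, mem_sphere_iff_norm, sub_zero,
    Prod.exists]
  constructor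
  · intro hx
    have hpos : 0 < ‖x‖ := lt_of_le_of_lt h0 hx.1
    refine ⟨‖x‖, ‖x‖⁻¹ • x, ⟨hx, ?_⟩, ?_⟩
    · rw [norm_smul, norm_inv, norm_norm, inv_mul_cancel₀ hpos.ne']
    · rw [smul_smul, mul_inv_cancel₀ hpos.ne', one_smul]
  · rintro ⟨t, y, ⟨ht, hy⟩, rfl⟩
    have htp : 0 < t := lt_of_le_of_lt h0 ht.1
    rw [norm_smul, hy, mul_one, Real.norm_eq_abs, abs_of_pos htp]
    exact ht

theorem Ann_neg {N : ℕ} {r1 : ℝ} : Ann N (-1) r1 = ball (0 : E N) r1 := by
  ext x
  simp only [Ann, mem_ofPred_eq, mem_ball_zero_iff]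
  constructor
  · exact fun h => h.2
  · intro h
    have := norm_nonneg x
    exact ⟨by linarith, h⟩

theorem connected_ball' {N : ℕ} {r1 : ℝ} (h1 : 0 < r1) : IsConnected (Ann N (-1) r1) := by
  rw [Ann_neg]
  exact (convex_ball _ _).isConnected ⟨0, mem_ball_self h1⟩

end Pool.Agent.V1180.TP
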