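import Pool.Agent.V1180.TPd

/-! Two-phase Serrin problem: choice of the shell. -/

open MeasureTheory Set Filter Topology Metric
open scoped ContDiff

namespace Pool.Agent.V1180.TP

theorem ii_m {N : ℕ} {A p q : ℝ} (hp : 0 < p) (hq : 0 < q) :
    IntervalIntegrable (m N A) volume p q := by
  refine ContinuousOn.intervalIntegrable fun s hs => ?_
  have : 0 < s := by
    have := hs.1
    exact lt_of_lt_of_le (lt_min hp hq) this
  exact (continuousAt_m (Or.inr this.ne')).continuousWithinAt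

theorem w_integral {N : ℕ} {A σc a b R : ℝ} (hσ : 0 < σc) (h1a : 1 < a) (hab : a < b)
    (hbR : b < R) :
    ∫ s in (1:ℝ)..R, w N A σc a b 1 R s =
      (∫ s in (1:ℝ)..R, m N A s) + (σc⁻¹ - 1) * ∫ s in a..b, m N A s := by
  have hii := fun p q => ii_w (N := N) (A := A) (a := a) (b := b) (r0 := 1) (r1 := R) hσ
    (Or.inr one_pos) p q
  have s1 : ∫ s in (1:ℝ)..R, w N A σc a b 1 R s = (∫ s in (1:ℝ)..a, w N A σc a b 1 R s) +
      (∫ s in a..b, w N A σc a b 1 R s) + ∫ s in b..R, w N A σc a b 1 R s := by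
    rw [intervalIntegral.integral_add_adjacent_intervals (hii _ _) (hii _ _),
      intervalIntegral.integral_add_adjacent_intervals (hii _ _) (hii _ _)]
  have i1 := ii_m (N := N) (A := A) (p := 1) (q := a) one_pos (by linarith)
  have i2 := ii_m (N := N) (A := A) (p := a) (q := b) (by linarith) (by linarith)
  have i3 := ii_m (N := N) (A := A) (p := b) (q := R) (by linarith) (by linarith)
  have s2 : ∫ s in (1:ℝ)..R, m N A s = (∫ s in (1:ℝ)..a, m N A s) +
      (∫ s in a..b, m N A s) + ∫ s in b..R, m N A s := by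
    rw [intervalIntegral.integral_add_adjacent_intervals i1 i2,
      intervalIntegral.integral_add_adjacent_intervals (i1.trans i2) i3]
  have e1 : ∫ s in (1:ℝ)..a, w N A σc a b 1 R s = ∫ s in (1:ℝ)..a, m N A s := by
    refine intervalIntegral.integral_congr_ae (Eventually.of_forall fun s hs => ?_)
    rw [uIoc_of_le h1a.le] at hs
    unfold w sg
    rw [if_pos ⟨hs.1, by linarith [hs.2]⟩, if_neg, div_one]
    rintro ⟨h, -⟩
    linarith [hs.2]
  have e2 : ∫ s in a..b, w N A σc a b 1 R s = σc⁻¹ * ∫ s in a..b, m N A s := by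
    rw [← intervalIntegral.integral_const_mul]
    refine intervalIntegral.integral_congr_ae ?_
    have hne : ∀ᵐ s : ℝ, s ≠ b := by simp [ae_iff]
    filter_upwards [hne] with s hsb hs
    rw [uIoc_of_le hab.le] at hs
    unfold w sg
    rw [if_pos ⟨by linarith [hs.1], by linarith [hs.2]⟩,
      if_pos ⟨hs.1, lt_of_le_of_ne hs.2 hsb⟩, div_eq_inv_mul]
  have e3 : ∫ s in b..R, w N A σc a b 1 R s = ∫ s in b..R, m N A s := by
    refine intervalIntegral.integral_congr_ae ?_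
    have hne : ∀ᵐ s : ℝ, s ≠ R := by simp [ae_iff]
    filter_upwards [hne] with s hsb hs
    rw [uIoc_of_le hbR.le] at hs
    unfold w sg
    rw [if_pos ⟨by linarith [hs.1], lt_of_le_of_ne hs.2 hsb⟩, if_neg, div_one]
    rintro ⟨-, h⟩
    linarith [hs.1]
  rw [s1, s2, e1, e2, e3]
  ring

/-- Lipschitz bound for negative powers on `[1, ∞)`. -/
theorem inv_pow_lip (k : ℕ) {s t : ℝ} (hs : 1 ≤ s) (hst : s ≤ t) :
    0 ≤ (s ^ k)⁻¹ - (t ^ k)⁻¹ ∧ (s ^ k)⁻¹ - (t ^ k)⁻¹ ≤ k * (t - s) := by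
  have hs0 : 0 < s := by linarith
  have ht0 : 0 < t := by linarith
  induction k with
  | zero => simp
  | succ k ih =>
    have h1 : (s ^ (k+1))⁻¹ - (t ^ (k+1))⁻¹ =
        ((s ^ k)⁻¹ - (t ^ k)⁻¹) * s⁻¹ + (t ^ k)⁻¹ * (s⁻¹ - t⁻¹) := by
      rw [pow_succ, pow_succ, mul_inv, mul_inv]
      ring
    have h2 : 0 ≤ s⁻¹ - t⁻¹ := by
      have := inv_anti₀ hs0 hst
      linarith
    have h3 : s⁻¹ - t⁻¹ ≤ t - s := by
      have : s⁻¹ - t⁻¹ = (t - s) * (s⁻¹ * t⁻¹) := by field_simp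
      rw [this]
      have h4 : s⁻¹ * t⁻¹ ≤ 1 := by
        have a1 : s⁻¹ ≤ 1 := inv_le_one_of_one_le₀ hs
        have a2 : t⁻¹ ≤ 1 := inv_le_one_of_one_le₀ (hs.trans hst)
        have a3 : 0 ≤ t⁻¹ := by positivity
        have a4 : 0 ≤ s⁻¹ := by positivity
        nlinarith
      have : 0 ≤ t - s := by linarith
      nlinarith
    have h5 : s⁻¹ ≤ 1 := inv_le_one_of_one_le₀ hs
    have h5' : 0 ≤ s⁻¹ := by positivity
    have h6 : (t ^ k)⁻¹ ≤ 1 := inv_le_one_of_one_le₀ (one_le_pow₀ (hs.trans hst))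
    have h6' : 0 ≤ (t ^ k)⁻¹ := by positivity
    rw [h1]
    refine ⟨by nlinarith [ih.1, mul_nonneg ih.1 h5', mul_nonneg h6' h2], ?_⟩
    have h7 : ((s ^ k)⁻¹ - (t ^ k)⁻¹) * s⁻¹ ≤ k * (t - s) := by
      refine (mul_le_of_le_one_right ih.1 h5).trans ih.2
    have h8 : (t ^ k)⁻¹ * (s⁻¹ - t⁻¹) ≤ t - s := (mul_le_of_le_one_left h2 h6).trans h3
    push_cast
    linarith

/-- symmetric second difference of negative powers -/
theorem second_diff (k : ℕ) {R s : ℝ} (hs : 1 ≤ s) (hsR : s ≤ R) :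
    |((s ^ k)⁻¹ + ((1 + R - s) ^ k)⁻¹) - ((1 ^ k)⁻¹ + (R ^ k)⁻¹)| ≤
      k * (k + 1) * (R - 1) * (R - 1) := by
  have hR : 1 ≤ R := hs.trans hsR
  have hd : ∀ x ∈ Icc 1 R, HasDerivWithinAt (fun x : ℝ => (x ^ k)⁻¹ + ((1 + R - x) ^ k)⁻¹)
      (-(k * (x ^ (k+1))⁻¹) + k * ((1 + R - x) ^ (k+1))⁻¹) (Icc 1 R) x := by
    intro x hx
    have hx0 : 0 < x := by linarith [hx.1]
    have hy0 : 0 < 1 + R - x := by linarith [hx.2]
    have hp : ∀ y : ℝ, 0 < y → HasDerivAt (fun y : ℝ => (y ^ k)⁻¹) (-(k * (y ^ (k+1))⁻¹)) y := by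
      intro y hy
      have := (hasDerivAt_pow k y).inv (pow_ne_zero _ hy.ne')
      refine this.congr_deriv ?_
      rcases k with _ | k
      · simp
      · simp only [Nat.add_sub_cancel]
        have : y ^ k ≠ 0 := pow_ne_zero _ hy.ne'
        rw [pow_succ, pow_succ]
        field_simp
        ring
    have h1 := hp x hx0
    have h2 : HasDerivAt (fun x : ℝ => 1 + R - x) (-1) x := by
      simpa using (hasDerivAt_id x).const_sub (1 + R)
    have h3 := (hp (1 + R - x) hy0).comp x h2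
    have h4 := h1.add h3
    refine HasDerivAt.hasDerivWithinAt ?_
    refine HasDerivAt.congr_deriv h4 ?_
    ring
  have hb : ∀ x ∈ Icc 1 R, ‖-(k * (x ^ (k+1))⁻¹) + k * ((1 + R - x) ^ (k+1))⁻¹‖ ≤
      k * (k + 1) * (R - 1) := by
    intro x hx
    rw [Real.norm_eq_abs]
    have hk : (0:ℝ) ≤ k := Nat.cast_nonneg k
    rcases le_total x (1 + R - x) with h | h
    · have := inv_pow_lip (k+1) hx.1 h
      push_cast at this
      rw [abs_le]
      have h9 : (1 + R - x) - x ≤ R - 1 := by linarith [hx.1]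
      have h10 : ((k:ℝ) + 1) * ((1 + R - x) - x) ≤ (k + 1) * (R - 1) := by
        apply mul_le_mul_of_nonneg_left h9; positivity
      constructor <;> nlinarith [this.1, this.2, mul_nonneg hk this.1,
        mul_le_mul_of_nonneg_left (this.2.trans h10) hk, mul_nonneg hk hk,
        mul_nonneg (mul_nonneg hk (by positivity : (0:ℝ) ≤ k + 1)) (by linarith : (0:ℝ) ≤ R - 1)]
    · have := inv_pow_lip (k+1) (by linarith [hx.2] : 1 ≤ 1 + R - x) h
      push_cast at this
      rw [abs_le]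
      have h9 : x - (1 + R - x) ≤ R - 1 := by linarith [hx.2]
      have h10 : ((k:ℝ) + 1) * (x - (1 + R - x)) ≤ (k + 1) * (R - 1) := by
        apply mul_le_mul_of_nonneg_left h9; positivity
      constructor <;> nlinarith [this.1, this.2, mul_nonneg hk this.1,
        mul_le_mul_of_nonneg_left (this.2.trans h10) hk, mul_nonneg hk hk,
        mul_nonneg (mul_nonneg hk (by positivity : (0:ℝ) ≤ k + 1)) (by linarith : (0:ℝ) ≤ R - 1)]
  have hmv := (convex_Icc (1:ℝ) R).norm_image_sub_le_of_norm_hasDerivWithin_le hd hb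
    (left_mem_Icc.2 hR) (⟨hs, hsR⟩ : s ∈ Icc 1 R)
  rw [Real.norm_eq_abs, Real.norm_eq_abs, abs_of_nonneg (by linarith : 0 ≤ s - 1)] at hmv
  have e : (1:ℝ) + R - 1 = R := by ring
  rw [e] at hmv
  refine hmv.trans ?_
  have hk : (0:ℝ) ≤ k := Nat.cast_nonneg k
  apply mul_le_mul_of_nonneg_left (by linarith)
  have : (0:ℝ) ≤ R - 1 := by linarith
  positivity

end Pool.Agent.V1180.TP
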