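import Pool.Agent.V1180.TPe

/-! Two-phase Serrin problem: choice of the shell (continued). -/

open MeasureTheory Set Filter Topology Metric
open scoped ContDiff

namespace Pool.Agent.V1180.TP

theorem exists_shell {k : ℕ} {κ : ℝ} (hκ : κ ≠ 0) :
    ∃ R A a b : ℝ, 1 < a ∧ a < b ∧ b < R ∧ m (k+1) A R = - m (k+1) A 1 ∧
      (∫ s in (1:ℝ)..R, m (k+1) A s) + κ * ∫ s in a..b, m (k+1) A s = 0 := by
  set n : ℝ := (k:ℝ) + 1 with hn
  have hk0 : (0:ℝ) ≤ k := Nat.cast_nonneg k
  have hn1 : 1 ≤ n := by linarith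
  have hn0 : 0 < n := by linarith
  have hκ' : 0 < |κ| := abs_pos.2 hκ
  set h : ℝ := min 1 (|κ| / (96 * n ^ 3)) with hh
  have h0 : 0 < h := lt_min one_pos (by positivity)
  have h1 : h ≤ 1 := min_le_left _ _
  have h2 : 96 * n ^ 3 * h ≤ |κ| := by
    have : h ≤ |κ| / (96 * n ^ 3) := min_le_right _ _
    rwa [le_div_iff₀ (by positivity), mul_comm] at this
  set R : ℝ := 1 + h with hR
  have hR1 : 1 < R := by linarith
  have hR2 : R ≤ 2 := by linarith
  have hden : 1 ≤ 1 + (R ^ k)⁻¹ := by
    have : 0 ≤ (R ^ k)⁻¹ := by positivity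
    linarith
  set A : ℝ := (1 + R) / (n * (1 + (R ^ k)⁻¹)) with hA
  have hA0 : 0 < A := by positivity
  have hA3 : A * n ≤ 3 := by
    have e : A * n = (1 + R) / (1 + (R ^ k)⁻¹) := by
      rw [hA]; field_simp
    rw [e, div_le_iff₀ (by positivity)]
    nlinarith
  have hms : ∀ s, m (k+1) A s = A * (s ^ k)⁻¹ - s / n := by
    intro s
    unfold m
    push_cast
    rfl
  have hsum : m (k+1) A R = - m (k+1) A 1 := by
    rw [hms, hms, one_pow, inv_one, mul_one]
    have e : A * (1 + (R ^ k)⁻¹) = (1 + R) / n := by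
      rw [hA]
      field_simp
    have e2 : (1 + R) / n = 1 / n + R / n := add_div _ _ _
    linarith
  have hlip : ∀ s t, 1 ≤ s → s ≤ t → (t - s) / n ≤ m (k+1) A s - m (k+1) A t ∧
      m (k+1) A s - m (k+1) A t ≤ 3 * (t - s) := by
    intro s t hs hst
    have hl := inv_pow_lip k hs hst
    rw [hms, hms]
    have e : A * (s ^ k)⁻¹ - s / n - (A * (t ^ k)⁻¹ - t / n) =
        A * ((s ^ k)⁻¹ - (t ^ k)⁻¹) + (t - s) / n := by ring
    rw [e]
    have hts : 0 ≤ t - s := by linarith
    constructor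
    · have := mul_nonneg hA0.le hl.1
      linarith
    · have q1 : A * ((s ^ k)⁻¹ - (t ^ k)⁻¹) ≤ A * (k * (t - s)) :=
        mul_le_mul_of_nonneg_left hl.2 hA0.le
      have q2 : A * k + 1 / n ≤ 3 := by
        have q3 : A * k = A * n - A := by rw [hn]; ring
        have q4 : 1 / n ≤ A := by
          rw [hA, div_le_div_iff₀ hn0 (by positivity)]
          have : (R ^ k)⁻¹ ≤ 1 := inv_le_one_of_one_le₀ (one_le_pow₀ hR1.le)
          nlinarith
        linarith
      have q5 : A * (k * (t - s)) + (t - s) / n = (A * k + 1 / n) * (t - s) := by ring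
      have q6 := mul_le_mul_of_nonneg_right q2 hts
      linarith
  have hmu : h / (2 * n) ≤ m (k+1) A 1 := by
    have := (hlip 1 R le_rfl hR1.le).1
    rw [hsum] at this
    have e : R - 1 = h := by rw [hR]; ring
    rw [e] at this
    have e2 : h / (2 * n) = h / n / 2 := by field_simp
    linarith
  set η : ℝ := 1 / (12 * n) with hη
  have hη0 : 0 < η := by positivity
  have hη1 : η ≤ 1 / 12 := by
    rw [hη]
    apply one_div_le_one_div_of_le (by norm_num)
    linarith
  have hηn : 3 * (η * h) = h / (4 * n) := by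
    rw [hη]; field_simp; ring
  have hhalf : h / (2 * n) = 2 * (h / (4 * n)) := by field_simp; ring
  have hηh : 0 < η * h := by positivity
  have hηh' : η * h ≤ h / 12 := by nlinarith
  have hpos : ∀ s ∈ Icc 1 (1 + η * h), h / (4 * n) ≤ m (k+1) A s := by
    intro s hs
    have := (hlip 1 s le_rfl hs.1).2
    linarith [hs.2]
  have hneg : ∀ s ∈ Icc (R - η * h) R, m (k+1) A s ≤ - (h / (4 * n)) := by
    intro s hs
    have := (hlip s R (by linarith [hs.1]) hs.2).2
    rw [hsum] at this
    linarith [hs.1]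
  -- smallness of the total integral
  have hI0 : |∫ s in (1:ℝ)..R, m (k+1) A s| ≤ 3 / 2 * n * h ^ 3 := by
    have hii := ii_m (N := k+1) (A := A) (p := 1) (q := R) one_pos (by linarith)
    have hrefl : ∫ s in (1:ℝ)..R, m (k+1) A (1 + R - s) = ∫ s in (1:ℝ)..R, m (k+1) A s := by
      rw [intervalIntegral.integral_comp_sub_left (fun s => m (k+1) A s) (1 + R)]
      congr 1 <;> ring
    have hii' : IntervalIntegrable (fun s => m (k+1) A (1 + R - s)) volume 1 R := by
      have := (hii.comp_sub_left (1 + R)).symm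
      convert this using 1 <;> ring
    have h2I : 2 * ∫ s in (1:ℝ)..R, m (k+1) A s =
        ∫ s in (1:ℝ)..R, (m (k+1) A s + m (k+1) A (1 + R - s)) := by
      rw [intervalIntegral.integral_add hii hii', hrefl]
      ring
    have hb : ∀ s ∈ uIoc (1:ℝ) R, ‖m (k+1) A s + m (k+1) A (1 + R - s)‖ ≤ 3 * n * h ^ 2 := by
      intro s hs
      rw [uIoc_of_le hR1.le] at hs
      have hsd := second_diff k hs.1.le hs.2
      have e : m (k+1) A s + m (k+1) A (1 + R - s) =
          A * (((s ^ k)⁻¹ + ((1 + R - s) ^ k)⁻¹) - ((1 ^ k)⁻¹ + (R ^ k)⁻¹)) := by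
        have hs0 : m (k+1) A R + m (k+1) A 1 = 0 := by rw [hsum]; ring
        rw [hms, hms] at hs0 ⊢
        have : A * (((s ^ k)⁻¹ + ((1 + R - s) ^ k)⁻¹) - ((1 ^ k)⁻¹ + (R ^ k)⁻¹)) =
          (A * (s ^ k)⁻¹ - s / n + (A * ((1 + R - s) ^ k)⁻¹ - (1 + R - s) / n)) -
          (A * (R ^ k)⁻¹ - R / n + (A * (1 ^ k)⁻¹ - 1 / n)) := by ring
        rw [this, hs0, sub_zero]
      rw [e, norm_mul, Real.norm_eq_abs, Real.norm_eq_abs, abs_of_pos hA0]
      have e2 : R - 1 = h := by rw [hR]; ring
      rw [e2] at hsd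
      have e3 : (k:ℝ) + 1 = n := rfl
      rw [e3] at hsd
      have q1 := mul_le_mul_of_nonneg_left hsd hA0.le
      refine q1.trans ?_
      have q2 : A * (k * n * h * h) = (A * n) * (k * h ^ 2) := by ring
      rw [q2]
      have q3 : (A * n) * (k * h ^ 2) ≤ 3 * (k * h ^ 2) :=
        mul_le_mul_of_nonneg_right hA3 (by positivity)
      have q4 : (k:ℝ) * h ^ 2 ≤ n * h ^ 2 :=
        mul_le_mul_of_nonneg_right (by linarith) (by positivity)
      linarith
    have hnorm := intervalIntegral.norm_integral_le_of_norm_le_const hb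
    rw [← h2I, Real.norm_eq_abs, abs_mul, abs_two, abs_of_pos (by linarith : 0 < R - 1)] at hnorm
    have e2 : R - 1 = h := by rw [hR]; ring
    rw [e2] at hnorm
    have e3 : 3 * n * h ^ 2 * h = 2 * (3 / 2 * n * h ^ 3) := by ring
    linarith
  -- a continuous extension of m
  set mt : ℝ → ℝ := fun s => m (k+1) A (max s 1) with hmt
  have hmtc : Continuous mt := by
    rw [continuous_iff_continuousAt]
    intro s
    have hmax : (max s 1 : ℝ) ≠ 0 := (lt_of_lt_of_le one_pos (le_max_right s 1)).ne'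
    exact ContinuousAt.comp (f := fun s : ℝ => max s 1) (continuousAt_m (Or.inr hmax))
      (by fun_prop)
  have hmti : ∀ p q, IntervalIntegrable mt volume p q := fun p q => hmtc.intervalIntegrable p q
  have hmte : ∀ p q, 1 ≤ p → p ≤ q → ∫ s in p..q, mt s = ∫ s in p..q, m (k+1) A s := by
    intro p q hp hpq
    refine intervalIntegral.integral_congr fun s hs => ?_
    rw [uIcc_of_le hpq] at hs
    simp only [hmt]
    rw [max_eq_left (by linarith [hs.1])]
  set w0 : ℝ := 3 / 4 * (η * h) with hw0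
  have hw0p : 0 < w0 := by positivity
  set p0 : ℝ := 1 + (η * h) / 4 with hp0
  set p1 : ℝ := R - η * h with hp1
  have hp01 : p0 ≤ p1 := by
    rw [hp0, hp1, hR]
    linarith
  set H : ℝ → ℝ := fun x => ∫ s in x..(x + w0), mt s with hH
  have hHc : Continuous H := by
    have hprim := intervalIntegral.continuous_primitive hmti 1
    have e : H = fun x => (∫ s in (1:ℝ)..(x + w0), mt s) - ∫ s in (1:ℝ)..x, mt s := by
      ext x
      simp only [hH]
      rw [intervalIntegral.integral_interval_sub_left (hmti _ _) (hmti _ _)]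
    rw [e]
    exact (hprim.comp (continuous_id.add continuous_const)).sub hprim
  have hconst : w0 * (h / (4 * n)) = h ^ 2 / (64 * n ^ 2) := by
    rw [hw0, hη]; field_simp; ring
  have hHp0 : h ^ 2 / (64 * n ^ 2) ≤ H p0 := by
    have : ∫ s in p0..(p0 + w0), h / (4 * n) ≤ ∫ s in p0..(p0 + w0), mt s := by
      refine intervalIntegral.integral_mono_on (by linarith) (by simp) (hmti _ _) fun s hs => ?_
      have s1 : 1 ≤ s := by
        have := hs.1
        rw [hp0] at this
        linarith
      simp only [hmt]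
      rw [max_eq_left s1]
      refine hpos s ⟨s1, ?_⟩
      have := hs.2
      rw [hp0, hw0] at this
      linarith
    rw [intervalIntegral.integral_const, smul_eq_mul, add_sub_cancel_left, hconst] at this
    exact this
  have hHp1 : H p1 ≤ - (h ^ 2 / (64 * n ^ 2)) := by
    have : ∫ s in p1..(p1 + w0), mt s ≤ ∫ s in p1..(p1 + w0), -(h / (4 * n)) := by
      refine intervalIntegral.integral_mono_on (by linarith) (hmti _ _) (by simp) fun s hs => ?_
      have s1 : 1 ≤ s := by
        have := hs.1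
        linarith [hp01]
      simp only [hmt]
      rw [max_eq_left s1]
      refine hneg s ⟨hs.1, ?_⟩
      have := hs.2
      rw [hp1, hw0] at this
      linarith
    rw [intervalIntegral.integral_const, smul_eq_mul, add_sub_cancel_left, mul_neg, hconst] at this
    exact this
  set τ : ℝ := - (∫ s in (1:ℝ)..R, m (k+1) A s) / κ with hτ
  have hτb : |τ| ≤ h ^ 2 / (64 * n ^ 2) := by
    rw [hτ, abs_div, abs_neg, div_le_iff₀ hκ']
    refine hI0.trans ?_
    have q1 : h ^ 2 / (64 * n ^ 2) * |κ| ≥ h ^ 2 / (64 * n ^ 2) * (96 * n ^ 3 * h) :=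
      mul_le_mul_of_nonneg_left h2 (by positivity)
    have q2 : h ^ 2 / (64 * n ^ 2) * (96 * n ^ 3 * h) = 3 / 2 * n * h ^ 3 := by
      field_simp
      ring
    linarith
  have hτI : τ ∈ Icc (H p1) (H p0) := by
    have := abs_le.1 hτb
    exact ⟨by linarith [this.1], by linarith [this.2]⟩
  obtain ⟨a, ha, haτ⟩ := intermediate_value_Icc' hp01 hHc.continuousOn hτI
  have ha1 : 1 < a := by
    have := ha.1
    rw [hp0] at this
    linarith
  refine ⟨R, A, a, a + w0, ha1, by linarith, ?_, hsum, ?_⟩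
  · have := ha.2
    rw [hp1] at this
    rw [hw0]
    linarith
  · have e : ∫ s in a..(a + w0), m (k+1) A s = τ := by
      rw [← hmte a (a + w0) ha1.le (by linarith)]
      exact haτ
    rw [e, hτ]
    field_simp
    ring

end Pool.Agent.V1180.TP
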