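import Pool.Agent.V1180.TPf

/-! Two-phase Serrin problem: thick shells, for large conductivity of the core. -/

open MeasureTheory Set Filter Topology Metric
open scoped ContDiff

namespace Pool.Agent.V1180.TP

theorem exists_thick {k : ℕ} (hk : 1 ≤ k) :
    ∃ R A a b : ℝ, 1 < a ∧ a < b ∧ b < R ∧ b ^ (k+1) < R ^ (k+1) - 1 ∧
      m (k+1) A R = - m (k+1) A 1 ∧
      0 < (∫ s in (1:ℝ)..a, m (k+1) A s) + (∫ s in b..R, m (k+1) A s) ∧
      (∫ s in b..R, m (k+1) A s) ≤ 0 ∧ (∫ s in (1:ℝ)..b, m (k+1) A s) < 0 := by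
  set n : ℝ := (k:ℝ) + 1 with hn
  have hk1 : (1:ℝ) ≤ k := by exact_mod_cast hk
  have hn2 : 2 ≤ n := by linarith
  have hn0 : 0 < n := by linarith
  set R : ℝ := 8 * (n + 1) with hR
  have hR24 : 24 ≤ R := by linarith
  have hR0 : 0 < R := by linarith
  have hk0 : k ≠ 0 := by omega
  have hRk : R ≤ R ^ k := le_self_pow₀ (by linarith) hk0
  have hRk0 : 0 < R ^ k := by positivity
  set q : ℝ := (R ^ k)⁻¹ with hq
  have hq0 : 0 < q := inv_pos.2 hRk0
  have hRq : R * q ≤ 1 := by
    rw [hq, ← div_eq_mul_inv, div_le_one hRk0]; exact hRk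
  have hq1 : q ≤ 1 / 24 := by
    have : 24 * q ≤ R * q := mul_le_mul_of_nonneg_right hR24 hq0.le
    linarith
  have hden : 0 < 1 + q := by linarith
  set A : ℝ := (1 + R) / (n * (1 + q)) with hA
  have hA0 : 0 < A := by positivity
  have hA1 : R / n ≤ A := by
    rw [hA, div_le_div_iff₀ hn0 (by positivity)]
    have : R * (1 + q) ≤ 1 + R := by linarith
    nlinarith
  have hA2 : A ≤ (1 + R) / n := by
    rw [hA]
    apply div_le_div_of_nonneg_left (by positivity) hn0
    nlinarith
  have hms : ∀ s, m (k+1) A s = A * (s ^ k)⁻¹ - s / n := by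
    intro s
    unfold m
    push_cast
    rfl
  have hsum : m (k+1) A R = - m (k+1) A 1 := by
    rw [hms, hms, one_pow, inv_one, mul_one]
    have e : A * (1 + q) = (1 + R) / n := by
      rw [hA]
      field_simp
    have e2 : (1 + R) / n = 1 / n + R / n := add_div _ _ _
    linarith
  set a : ℝ := 1 + 1 / (2 * n) with ha
  have ha1 : 1 < a := by
    have : 0 < 1 / (2 * n) := by positivity
    linarith
  have ha2 : a ≤ 2 := by
    have : 1 / (2 * n) ≤ 1 := by
      rw [div_le_one (by positivity)]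
      linarith
    linarith
  set b : ℝ := R - q with hb
  have hbR : b < R := by linarith
  have hb23 : R - 1 ≤ b := by linarith
  have hab : a < b := by linarith
  have hb0 : 0 < b := by linarith
  have hpow : b ^ (k+1) < R ^ (k+1) - 1 := by
    have h1 : b ^ k < R ^ k := pow_lt_pow_left₀ hbR hb0.le hk0
    have h2 : b ^ (k+1) < R ^ k * b := by
      rw [pow_succ]
      exact mul_lt_mul_of_pos_right h1 hb0
    have h3 : R ^ k * b = R ^ (k+1) - 1 := by
      rw [hb, mul_sub, hq, mul_inv_cancel₀ hRk0.ne', pow_succ]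
    linarith
  have hii : ∀ p r, 0 < p → 0 < r → IntervalIntegrable (m (k+1) A) volume p r :=
    fun p r hp hr => ii_m hp hr
  -- lower bound near 1
  have hlow : ∀ s ∈ Icc 1 a, 4 ≤ m (k+1) A s := by
    intro s hs
    rw [hms]
    have hl := (inv_pow_lip k le_rfl hs.1).2
    rw [one_pow, inv_one] at hl
    have h1 : (k:ℝ) * (s - 1) ≤ 1 / 2 := by
      have h2 : s - 1 ≤ 1 / (2 * n) := by linarith [hs.2]
      have h3 : (k:ℝ) * (s - 1) ≤ n * (1 / (2 * n)) :=
        mul_le_mul (by linarith) h2 (by linarith [hs.1]) hn0.le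
      have h4 : n * (1 / (2 * n)) = 1 / 2 := by field_simp
      linarith
    have h2 : 1 / 2 ≤ (s ^ k)⁻¹ := by linarith
    have h3 : R / n * (1 / 2) ≤ A * (s ^ k)⁻¹ :=
      mul_le_mul hA1 h2 (by norm_num) hA0.le
    have h4 : R / n * (1 / 2) - s / n = (R / 2 - s) / n := by ring
    have h5 : 4 ≤ (R / 2 - s) / n := by
      rw [le_div_iff₀ hn0]
      have := hs.2
      linarith
    linarith
  have hPa : 2 / n ≤ ∫ s in (1:ℝ)..a, m (k+1) A s := by
    have : ∫ s in (1:ℝ)..a, (4:ℝ) ≤ ∫ s in (1:ℝ)..a, m (k+1) A s :=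
      intervalIntegral.integral_mono_on ha1.le (by simp) (hii _ _ one_pos (by linarith)) hlow
    rw [intervalIntegral.integral_const, smul_eq_mul] at this
    have e : (a - 1) * 4 = 2 / n := by
      rw [ha]; field_simp; ring
    linarith
  have hQb : -(1 / n) ≤ ∫ s in b..R, m (k+1) A s := by
    have : ∫ s in b..R, (-(R / n)) ≤ ∫ s in b..R, m (k+1) A s := by
      refine intervalIntegral.integral_mono_on hbR.le (by simp) (hii _ _ hb0 hR0) fun s hs => ?_
      rw [hms]
      have hs0 : 0 < s := by linarith [hs.1]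
      have h1 : 0 ≤ A * (s ^ k)⁻¹ := by positivity
      have h2 : s / n ≤ R / n := by
        apply div_le_div_of_nonneg_right hs.2 hn0.le
      linarith
    rw [intervalIntegral.integral_const, smul_eq_mul] at this
    have e : (R - b) * -(R / n) = -((R * q) / n) := by
      rw [hb]; ring
    have e2 : (R * q) / n ≤ 1 / n := div_le_div_of_nonneg_right hRq hn0.le
    linarith
  -- upper bounds
  have hup : ∀ s, 1 ≤ s → m (k+1) A s ≤ ((1 + R) / s - s) / n := by
    intro s hs
    rw [hms]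
    have hs0 : 0 < s := by linarith
    have h1 : s ≤ s ^ k := le_self_pow₀ hs hk0
    have h2 : (s ^ k)⁻¹ ≤ s⁻¹ := inv_anti₀ hs0 h1
    have h3 : A * (s ^ k)⁻¹ ≤ (1 + R) / n * s⁻¹ :=
      mul_le_mul hA2 h2 (by positivity) (by positivity)
    have h4 : ((1 + R) / s - s) / n = (1 + R) / n * s⁻¹ - s / n := by
      field_simp
    linarith
  have hQneg : ∫ s in b..R, m (k+1) A s ≤ 0 := by
    have : ∫ s in b..R, m (k+1) A s ≤ ∫ s in b..R, (0:ℝ) := by
      refine intervalIntegral.integral_mono_on hbR.le (hii _ _ hb0 hR0) (by simp) fun s hs => ?_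
      have hs1 : R - 1 ≤ s := by linarith [hs.1]
      have hs0 : 0 < s := by linarith
      refine (hup s (by linarith)).trans ?_
      apply div_nonpos_of_nonpos_of_nonneg _ hn0.le
      rw [sub_nonpos, div_le_iff₀ hs0]
      nlinarith
    simpa using this
  have hneg : ∫ s in (1:ℝ)..b, m (k+1) A s < 0 := by
    have hb4 : 4 < b := by linarith
    have hsplit : (∫ s in (1:ℝ)..4, m (k+1) A s) + ∫ s in (4:ℝ)..b, m (k+1) A s =
        ∫ s in (1:ℝ)..b, m (k+1) A s :=
      intervalIntegral.integral_add_adjacent_intervals (hii _ _ one_pos (by norm_num))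
        (hii _ _ (by norm_num) hb0)
    have h1 : ∫ s in (1:ℝ)..4, m (k+1) A s ≤ ∫ s in (1:ℝ)..4, R / n := by
      refine intervalIntegral.integral_mono_on (by norm_num) (hii _ _ one_pos (by norm_num))
        (by simp) fun s hs => ?_
      refine (hup s hs.1).trans ?_
      apply div_le_div_of_nonneg_right _ hn0.le
      have hs0 : 0 < s := by linarith [hs.1]
      have : (1 + R) / s ≤ 1 + R := div_le_self (by linarith) hs.1
      linarith [hs.1]
    have h2 : ∫ s in (4:ℝ)..b, m (k+1) A s ≤ ∫ s in (4:ℝ)..b, ((1 + R) / (4 * n) - s / n) := by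
      refine intervalIntegral.integral_mono_on hb4.le (hii _ _ (by norm_num) hb0)
        (Continuous.intervalIntegrable (by fun_prop) _ _) fun s hs => ?_
      refine (hup s (by linarith [hs.1])).trans ?_
      have hs0 : 0 < s := by linarith [hs.1]
      have h3 : (1 + R) / s ≤ (1 + R) / 4 :=
        div_le_div_of_nonneg_left (by linarith) (by norm_num) hs.1
      have h4 : (1 + R) / (4 * n) - s / n = ((1 + R) / 4 - s) / n := by
        field_simp
      rw [h4]
      apply div_le_div_of_nonneg_right _ hn0.le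
      linarith
    have e1 : ∫ s in (1:ℝ)..4, R / n = 3 * R / n := by
      rw [intervalIntegral.integral_const, smul_eq_mul]; ring
    have e2 : ∫ s in (4:ℝ)..b, ((1 + R) / (4 * n) - s / n) =
        ((1 + R) / 4 * (b - 4) - (b ^ 2 - 16) / 2) / n := by
      rw [intervalIntegral.integral_sub (by simp)
        (Continuous.intervalIntegrable (by fun_prop) _ _), intervalIntegral.integral_const,
        intervalIntegral.integral_div, integral_id, smul_eq_mul]
      field_simp
      ring
    have e3 : 3 * R / n + ((1 + R) / 4 * (b - 4) - (b ^ 2 - 16) / 2) / n < 0 := by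
      rw [← add_div]
      apply div_neg_of_neg_of_pos _ hn0
      have hb2 : (R - 1) ^ 2 ≤ b ^ 2 := pow_le_pow_left₀ (by linarith) hb23 2
      have hb3 : (1 + R) / 4 * (b - 4) ≤ (1 + R) / 4 * (R - 4) :=
        mul_le_mul_of_nonneg_left (by linarith) (by linarith)
      nlinarith
    linarith
  refine ⟨R, A, a, b, ha1, hab, hbR, hpow, hsum, ?_, hQneg, hneg⟩
  have : 2 / n = 1 / n + 1 / n := by ring
  have h1 : 0 < 1 / n := by positivity
  linarith

/-- for large `σc` the inner radius of the core can be chosen so that the shell `1 < |x| < R`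
is a solution -/
theorem exists_core {k : ℕ} (hk : 1 ≤ k) :
    ∃ σs : ℝ, 1 ≤ σs ∧ ∀ σc : ℝ, σs < σc → ∃ R A a b : ℝ, 1 < a ∧ a < b ∧ b < R ∧
      b ^ (k+1) < R ^ (k+1) - 1 ∧ m (k+1) A R = - m (k+1) A 1 ∧
      (∫ s in (1:ℝ)..R, m (k+1) A s) + (σc⁻¹ - 1) * (∫ s in a..b, m (k+1) A s) = 0 := by
  obtain ⟨R, A, a, b, h1a, hab, hbR, hpow, hsum, hJ, hQ, hneg⟩ := exists_thick hk
  set J := (∫ s in (1:ℝ)..a, m (k+1) A s) + (∫ s in b..R, m (k+1) A s) with hJdef
  set K := |∫ s in a..b, m (k+1) A s| with hK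
  refine ⟨max 1 (K / J), le_max_left _ _, fun σc hσ => ?_⟩
  have hσ1 : 1 < σc := lt_of_le_of_lt (le_max_left _ _) hσ
  have hσ0 : 0 < σc := by linarith
  have hσK : K / J < σc := lt_of_le_of_lt (le_max_right _ _) hσ
  set mt : ℝ → ℝ := fun s => m (k+1) A (max s 1) with hmt
  have hmtc : Continuous mt := by
    rw [continuous_iff_continuousAt]
    intro s
    have hmax : (max s 1 : ℝ) ≠ 0 := (lt_of_lt_of_le one_pos (le_max_right s 1)).ne'
    exact ContinuousAt.comp (f := fun s : ℝ => max s 1) (continuousAt_m (Or.inr hmax))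
      (by fun_prop)
  have hmti : ∀ p q, IntervalIntegrable mt volume p q := fun p q => hmtc.intervalIntegrable p q
  have hmte : ∀ p q, 1 ≤ p → p ≤ q → ∫ s in p..q, mt s = ∫ s in p..q, m (k+1) A s := by
    intro p q hp hpq
    refine intervalIntegral.integral_congr fun s hs => ?_
    rw [uIcc_of_le hpq] at hs
    simp only [hmt]
    rw [max_eq_left (by linarith [hs.1])]
  set Φ : ℝ → ℝ := fun x => (∫ s in (1:ℝ)..x, mt s) + (∫ s in b..R, m (k+1) A s) +
    σc⁻¹ * ((∫ s in (1:ℝ)..b, mt s) - ∫ s in (1:ℝ)..x, mt s) with hΦ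
  have hΦc : Continuous Φ := by
    have hprim := intervalIntegral.continuous_primitive hmti 1
    exact (hprim.add continuous_const).add
      (continuous_const.mul (continuous_const.sub hprim))
  have hΦ1 : Φ 1 < 0 := by
    simp only [hΦ, intervalIntegral.integral_same, sub_zero, zero_add]
    rw [hmte 1 b le_rfl (by linarith)]
    have : σc⁻¹ * (∫ s in (1:ℝ)..b, m (k+1) A s) < 0 :=
      mul_neg_of_pos_of_neg (inv_pos.2 hσ0) hneg
    linarith
  have hΦx : ∀ x, 1 ≤ x → x ≤ b → Φ x = (∫ s in (1:ℝ)..x, m (k+1) A s) +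
      (∫ s in b..R, m (k+1) A s) + σc⁻¹ * ∫ s in x..b, m (k+1) A s := by
    intro x hx hxb
    simp only [hΦ]
    rw [intervalIntegral.integral_interval_sub_left (hmti _ _) (hmti _ _),
      hmte 1 x le_rfl hx, hmte x b hx hxb]
  have hΦa : 0 < Φ a := by
    rw [hΦx a h1a.le hab.le]
    have h1 : σc⁻¹ * K < J := by
      rw [div_lt_iff₀ hJ] at hσK
      rw [inv_mul_lt_iff₀ hσ0]
      exact hσK
    have h2 : -K ≤ ∫ s in a..b, m (k+1) A s := neg_abs_le _
    have h3 : σc⁻¹ * (-K) ≤ σc⁻¹ * ∫ s in a..b, m (k+1) A s :=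
      mul_le_mul_of_nonneg_left h2 (inv_pos.2 hσ0).le
    rw [← hJdef]
    linarith
  obtain ⟨x, hx, hx0⟩ := intermediate_value_Ioo h1a.le hΦc.continuousOn
    (⟨hΦ1, hΦa⟩ : (0:ℝ) ∈ Ioo (Φ 1) (Φ a))
  have hxb : x < b := hx.2.trans hab
  refine ⟨R, A, x, b, hx.1, hxb, hbR, hpow, hsum, ?_⟩
  rw [hΦx x hx.1.le hxb.le] at hx0
  have hx1 : 0 < x := by linarith [hx.1]
  have hb0 : 0 < b := by linarith
  have hR0 : 0 < R := by linarith
  have i1 := ii_m (N := k+1) (A := A) (p := 1) (q := x) one_pos hx1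
  have i2 := ii_m (N := k+1) (A := A) (p := x) (q := b) hx1 hb0
  have i3 := ii_m (N := k+1) (A := A) (p := b) (q := R) hb0 hR0
  have s2 : ∫ s in (1:ℝ)..R, m (k+1) A s = (∫ s in (1:ℝ)..x, m (k+1) A s) +
      (∫ s in x..b, m (k+1) A s) + ∫ s in b..R, m (k+1) A s := by
    rw [intervalIntegral.integral_add_adjacent_intervals i1 i2,
      intervalIntegral.integral_add_adjacent_intervals (i1.trans i2) i3]
  rw [s2]
  linarith

end Pool.Agent.V1180.TP
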