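import Pool.Agent.H24R2.JP.Had

set_option autoImplicit false

/-!
# Finite cosine transforms of positive kernels: a criterion for nonreal zeros off the imaginary axis
-/

namespace Pool.Agent.V1180.Xi

open Complex MeasureTheory Polynomial Filter Topology Set

/-- the finite cosine transform -/
noncomputable def FT (φ : ℝ → ℝ) (R : ℝ) (z : ℂ) : ℂ :=
  ∫ x in (0:ℝ)..R, ((φ x : ℝ) : ℂ) * Complex.cos (z * x)

/-- coefficients -/
noncomputable def cf (φ : ℝ → ℝ) (R : ℝ) (m : ℕ) : ℝ :=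
  (-1) ^ m / ((2 * m).factorial : ℝ) * ∫ x in (0:ℝ)..R, φ x * x ^ (2 * m)

/-- the function of the square -/
noncomputable def GT (φ : ℝ → ℝ) (R : ℝ) (w : ℂ) : ℂ := ∑' m : ℕ, ((cf φ R m : ℝ) : ℂ) * w ^ m

variable {φ : ℝ → ℝ} {R M : ℝ}

theorem cf_bound (hR : 0 ≤ R) (hM : ∀ x ∈ Icc (0:ℝ) R, |φ x| ≤ M) (m : ℕ) :
    |cf φ R m| ≤ M * R * (R ^ 2) ^ m / ((2 * m).factorial : ℝ) := by
  unfold cf
  rw [abs_mul, abs_div, abs_pow, abs_neg, abs_one, one_pow, abs_of_pos (by positivity : (0:ℝ) < ((2 * m).factorial : ℝ))]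
  have h1 : ‖∫ x in (0:ℝ)..R, φ x * x ^ (2 * m)‖ ≤ M * R ^ (2 * m) * |R - 0| := by
    apply intervalIntegral.norm_integral_le_of_norm_le_const
    intro x hx
    rw [uIoc_of_le hR] at hx
    rw [Real.norm_eq_abs, abs_mul, abs_pow, abs_of_pos hx.1]
    have := hM x ⟨hx.1.le, hx.2⟩
    have h2 : x ^ (2 * m) ≤ R ^ (2 * m) := pow_le_pow_left₀ hx.1.le hx.2 _
    have h3 : 0 ≤ M := (abs_nonneg _).trans this
    exact mul_le_mul this h2 (pow_nonneg hx.1.le _) h3
  rw [Real.norm_eq_abs, sub_zero, abs_of_nonneg hR] at h1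
  have h4 : M * R * (R ^ 2) ^ m / ((2 * m).factorial : ℝ) = 1 / ((2 * m).factorial : ℝ) * (M * R ^ (2 * m) * R) := by
    rw [← pow_mul]
    ring
  rw [h4]
  exact mul_le_mul_of_nonneg_left h1 (by positivity)

theorem hasSum_cosh_sq (a : ℝ) : HasSum (fun m : ℕ => a ^ (2 * m) / ((2 * m).factorial : ℝ)) (Real.cosh a) := by
  exact Real.hasSum_cosh a

theorem summ_bd (C t : ℝ) (ht : 0 ≤ t) :
    HasSum (fun m : ℕ => C * t ^ m / ((2 * m).factorial : ℝ)) (C * Real.cosh (Real.sqrt t)) := by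
  have h := (hasSum_cosh_sq (Real.sqrt t)).mul_left C
  have e : (fun m : ℕ => C * t ^ m / ((2 * m).factorial : ℝ)) =
      fun m : ℕ => C * (Real.sqrt t ^ (2 * m) / ((2 * m).factorial : ℝ)) := by
    funext m
    rw [pow_mul, Real.sq_sqrt ht]
    ring
  rw [e]
  exact h

theorem GT_diff (hR : 0 ≤ R) (hφ : ContinuousOn φ (Icc 0 R)) (hM : ∀ x ∈ Icc (0:ℝ) R, |φ x| ≤ M) :
    Differentiable ℂ (GT φ R) := by
  intro w
  have hd : DifferentiableOn ℂ (GT φ R) (Metric.ball 0 (‖w‖ + 1)) := by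
    unfold GT
    refine differentiableOn_tsum_of_summable_norm (summ_bd (M * R) (R ^ 2 * (‖w‖ + 1)) (by positivity)).summable
      (fun m => (by fun_prop)) Metric.isOpen_ball ?_
    intro m x hx
    rw [norm_mul, Complex.norm_real, Real.norm_eq_abs, norm_pow]
    have h1 := cf_bound hR hM m
    have h2 : ‖x‖ ^ m ≤ (‖w‖ + 1) ^ m := pow_le_pow_left₀ (norm_nonneg _) (by simpa using (mem_ball_zero_iff.1 hx).le) _
    calc |cf φ R m| * ‖x‖ ^ m ≤ (M * R * (R ^ 2) ^ m / ((2 * m).factorial : ℝ)) * (‖w‖ + 1) ^ m :=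
          mul_le_mul h1 h2 (by positivity) ((abs_nonneg _).trans h1)
      _ = M * R * (R ^ 2 * (‖w‖ + 1)) ^ m / ((2 * m).factorial : ℝ) := by
          rw [mul_pow]
          ring
  exact hd.differentiableAt (Metric.isOpen_ball.mem_nhds (by simp))

theorem GT_bound (hR : 0 ≤ R) (hφ : ContinuousOn φ (Icc 0 R)) (hM : ∀ x ∈ Icc (0:ℝ) R, |φ x| ≤ M) (w : ℂ) :
    ‖GT φ R w‖ ≤ M * R * Real.cosh (Real.sqrt (R ^ 2 * ‖w‖)) := by
  unfold GT
  refine tsum_of_norm_bounded (summ_bd (M * R) (R ^ 2 * ‖w‖) (by positivity)) ?_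
  intro m
  rw [norm_mul, Complex.norm_real, Real.norm_eq_abs, norm_pow]
  have h1 := cf_bound hR hM m
  calc |cf φ R m| * ‖w‖ ^ m ≤ (M * R * (R ^ 2) ^ m / ((2 * m).factorial : ℝ)) * ‖w‖ ^ m :=
        mul_le_mul_of_nonneg_right h1 (by positivity)
    _ = M * R * (R ^ 2 * ‖w‖) ^ m / ((2 * m).factorial : ℝ) := by
        rw [mul_pow]
        ring

theorem GT_sq (hR : 0 ≤ R) (hφ : ContinuousOn φ (Icc 0 R)) (hM : ∀ x ∈ Icc (0:ℝ) R, |φ x| ≤ M) (z : ℂ) :
    FT φ R z = GT φ R (z ^ 2) := by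
  unfold FT GT
  have h := intervalIntegral.hasSum_integral_of_dominated_convergence (μ := volume) (a := 0) (b := R)
    (F := fun (m : ℕ) (x : ℝ) => ((φ x : ℝ) : ℂ) * ((-1) ^ m * (z * x) ^ (2 * m) / ((2 * m).factorial : ℂ)))
    (f := fun x : ℝ => ((φ x : ℝ) : ℂ) * Complex.cos (z * x))
    (bound := fun (m : ℕ) (_ : ℝ) => M * (R ^ 2 * ‖z‖ ^ 2) ^ m / ((2 * m).factorial : ℝ))
    ?_ ?_ ?_ ?_ ?_
  · rw [← h.tsum_eq]
    apply tsum_congr
    intro m
    unfold cf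
    have : (fun x : ℝ => ((φ x : ℝ) : ℂ) * ((-1) ^ m * (z * x) ^ (2 * m) / ((2 * m).factorial : ℂ))) =
        fun x : ℝ => ((-1) ^ m / ((2 * m).factorial : ℂ) * (z ^ 2) ^ m) * (((φ x * x ^ (2 * m) : ℝ)) : ℂ) := by
      funext x
      push_cast
      rw [mul_pow, ← pow_mul z]
      ring
    rw [this, intervalIntegral.integral_const_mul, intervalIntegral.integral_ofReal]
    push_cast
    ring
  · intro m
    rw [uIoc_of_le hR]
    apply ContinuousOn.aestronglyMeasurable _ measurableSet_Ioc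
    apply ContinuousOn.mul
    · exact Complex.continuous_ofReal.comp_continuousOn (hφ.mono Ioc_subset_Icc_self)
    · fun_prop
  · intro m
    refine Eventually.of_forall fun x hx => ?_
    rw [uIoc_of_le hR] at hx
    rw [norm_mul, norm_div, norm_mul, norm_pow, norm_pow, norm_neg, norm_one, one_pow, one_mul, norm_mul,
      Complex.norm_real, Complex.norm_real, Complex.norm_natCast, Real.norm_eq_abs, Real.norm_eq_abs, abs_of_pos hx.1]
    have h1 := hM x ⟨hx.1.le, hx.2⟩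
    have h2 : (‖z‖ * x) ^ (2 * m) ≤ (R ^ 2 * ‖z‖ ^ 2) ^ m := by
      rw [pow_mul]
      apply pow_le_pow_left₀ (by positivity)
      rw [mul_pow, mul_comm]
      exact mul_le_mul_of_nonneg_right (pow_le_pow_left₀ hx.1.le hx.2 2) (by positivity)
    have h0 : 0 ≤ M := (abs_nonneg _).trans h1
    have hx0 := hx.1
    calc |φ x| * ((‖z‖ * x) ^ (2 * m) / ((2 * m).factorial : ℝ)) ≤ M * ((R ^ 2 * ‖z‖ ^ 2) ^ m / ((2 * m).factorial : ℝ)) :=
          mul_le_mul h1 (div_le_div_of_nonneg_right h2 (by positivity)) (by positivity) h0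
      _ = _ := by ring
  · refine Eventually.of_forall fun x _ => ?_
    exact (summ_bd M (R ^ 2 * ‖z‖ ^ 2) (by positivity)).summable
  · exact intervalIntegrable_const
  · refine Eventually.of_forall fun x _ => ?_
    exact (Complex.hasSum_cos (z * x)).mul_left _

theorem GT_conj (w : ℂ) : GT φ R ((starRingEnd ℂ) w) = (starRingEnd ℂ) (GT φ R w) := by
  unfold GT
  rw [Complex.conj_tsum]
  apply tsum_congr
  intro m
  rw [map_mul, map_pow, Complex.conj_ofReal]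

/-- a real polynomial whose complex roots are squares of real numbers is at least as large at `z^2` as at
`(Re z)^2`. -/
theorem poly_mono (P : ℝ[X]) (hP : ∀ a : ℂ, aeval a P = 0 → ∃ r : ℝ, a = (r : ℂ) ^ 2) (z : ℂ) :
    ‖aeval (((z.re : ℝ) : ℂ) ^ 2) P‖ ≤ ‖aeval (z ^ 2) P‖ := by
  set Q : ℂ[X] := P.map (algebraMap ℝ ℂ) with hQ
  have hQe : ∀ a : ℂ, aeval a P = Q.eval a := by
    intro a
    rw [hQ, eval_map, aeval_def]
  have hsp : Q.Splits := IsAlgClosed.splits Q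
  have hprod : Q = C Q.leadingCoeff * (Q.roots.map (fun a => X - C a)).prod := hsp.eq_prod_roots
  have hev : ∀ a : ℂ, Q.eval a = Q.leadingCoeff * (Q.roots.map (fun b => a - b)).prod := by
    intro a
    conv_lhs => rw [hprod]
    rw [eval_mul, eval_C, eval_multiset_prod, Multiset.map_map]
    congr 2
    apply Multiset.map_congr rfl
    intro b _
    simp
  by_cases hP0 : P = 0
  · simp [hP0]
  have hQ0 : Q ≠ 0 := (Polynomial.map_ne_zero_iff (algebraMap ℝ ℂ).injective).2 hP0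
  rw [hQe, hQe, hev, hev, norm_mul, norm_mul]
  apply mul_le_mul_of_nonneg_left _ (norm_nonneg _)
  have key : ∀ s : Multiset ℂ, (∀ b ∈ s, ∃ r : ℝ, b = (r : ℂ) ^ 2) →
      ‖(s.map (fun b => ((z.re : ℝ) : ℂ) ^ 2 - b)).prod‖ ≤ ‖(s.map (fun b => z ^ 2 - b)).prod‖ := by
    intro s
    induction s using Multiset.induction_on with
    | empty => intro _; simp
    | cons a s ih =>
      intro h
      rw [Multiset.map_cons, Multiset.map_cons, Multiset.prod_cons, Multiset.prod_cons, norm_mul, norm_mul]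
      apply mul_le_mul _ (ih fun b hb => h b (Multiset.mem_cons_of_mem hb)) (norm_nonneg _) (norm_nonneg _)
      obtain ⟨r, hr⟩ := h a (Multiset.mem_cons_self a s)
      rw [hr]
      have e1 : ((z.re : ℝ) : ℂ) ^ 2 - (r : ℂ) ^ 2 = (((z.re - r : ℝ)) : ℂ) * (((z.re + r : ℝ)) : ℂ) := by
        push_cast; ring
      have e2 : z ^ 2 - (r : ℂ) ^ 2 = (z - r) * (z + r) := by ring
      rw [e1, e2, norm_mul, norm_mul, Complex.norm_real, Complex.norm_real, Real.norm_eq_abs, Real.norm_eq_abs]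
      apply mul_le_mul _ _ (abs_nonneg _) (norm_nonneg _)
      · have := Complex.abs_re_le_norm (z - r)
        simpa using this
      · have := Complex.abs_re_le_norm (z + r)
        simpa using this
  apply key
  intro b hb
  apply hP
  rw [hQe]
  exact (mem_roots hQ0).1 hb

theorem growth_aux {C ρ t : ℝ} (hC : 0 ≤ C) (hρ : 0 ≤ ρ) (ht : 0 ≤ t) :
    C * Real.cosh (Real.sqrt (ρ ^ 2 * t)) ≤ Real.exp ((C + ρ) * (1 + t) ^ (3 / 4 : ℝ)) := by
  have h1 : Real.sqrt (ρ ^ 2 * t) = ρ * Real.sqrt t := by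
    rw [Real.sqrt_mul (by positivity), Real.sqrt_sq hρ]
  have h2 : Real.cosh (Real.sqrt (ρ ^ 2 * t)) ≤ Real.exp (ρ * Real.sqrt t) := by
    rw [h1, Real.cosh_eq]
    have h3 : Real.exp (-(ρ * Real.sqrt t)) ≤ Real.exp (ρ * Real.sqrt t) := by
      apply Real.exp_le_exp.2
      have : 0 ≤ ρ * Real.sqrt t := by positivity
      linarith
    linarith
  have h4 : C ≤ Real.exp C := by
    have := Real.add_one_le_exp C
    linarith
  have h5 : (1 : ℝ) ≤ (1 + t) ^ (3 / 4 : ℝ) := Real.one_le_rpow (by linarith) (by norm_num)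
  have h6 : Real.sqrt t ≤ (1 + t) ^ (3 / 4 : ℝ) := by
    rw [Real.sqrt_eq_rpow]
    calc t ^ (1 / 2 : ℝ) ≤ (1 + t) ^ (1 / 2 : ℝ) := Real.rpow_le_rpow ht (by linarith) (by norm_num)
      _ ≤ (1 + t) ^ (3 / 4 : ℝ) := Real.rpow_le_rpow_of_exponent_le (by linarith) (by norm_num)
  calc C * Real.cosh (Real.sqrt (ρ ^ 2 * t)) ≤ Real.exp C * Real.exp (ρ * Real.sqrt t) :=
        mul_le_mul h4 h2 (Real.cosh_pos _).le (Real.exp_pos _).le
    _ = Real.exp (C + ρ * Real.sqrt t) := by rw [Real.exp_add]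
    _ ≤ _ := by
        apply Real.exp_le_exp.2
        have h7 : ρ * Real.sqrt t ≤ ρ * (1 + t) ^ (3 / 4 : ℝ) := mul_le_mul_of_nonneg_left h6 hρ
        have h8 : C * 1 ≤ C * (1 + t) ^ (3 / 4 : ℝ) := mul_le_mul_of_nonneg_left h5 hC
        nlinarith

theorem FT_imag (z : ℂ) (hz : z.re = 0) (hR : 0 < R) (hφ : ContinuousOn φ (Icc 0 R))
    (hpos : ∀ x ∈ Icc (0:ℝ) R, 0 < φ x) : FT φ R z ≠ 0 := by
  have h1 : FT φ R z = ((∫ x in (0:ℝ)..R, φ x * Real.cosh (z.im * x) : ℝ) : ℂ) := by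
    unfold FT
    rw [← intervalIntegral.integral_ofReal]
    apply intervalIntegral.integral_congr
    intro x _
    dsimp only
    have h2 : z * x = ((z.im * x : ℝ) : ℂ) * I := by
      apply Complex.ext <;> simp [hz]
    rw [h2, Complex.cos_mul_I]
    push_cast
    rfl
  rw [h1]
  have h3 : 0 < ∫ x in (0:ℝ)..R, φ x * Real.cosh (z.im * x) := by
    apply intervalIntegral.intervalIntegral_pos_of_pos_on
    · apply ContinuousOn.intervalIntegrable
      rw [uIcc_of_le hR.le]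
      apply ContinuousOn.mul hφ
      fun_prop
    · intro x hx
      exact mul_pos (hpos x ⟨hx.1.le, hx.2.le⟩) (Real.cosh_pos _)
    · exact hR
  exact_mod_cast h3.ne'

/-- **Criterion.** If `|F(z0)| < |F(Re z0)|` then `F` has a zero off both axes. -/
theorem exists_zero (hR : 0 < R) (hφ : ContinuousOn φ (Icc 0 R)) (hpos : ∀ x ∈ Icc (0:ℝ) R, 0 < φ x)
    (z0 : ℂ) (h : ‖FT φ R z0‖ < ‖FT φ R ((z0.re : ℝ) : ℂ)‖) :
    ∃ w : ℂ, FT φ R w = 0 ∧ w.re ≠ 0 ∧ w.im ≠ 0 := by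
  by_contra hcon
  push Not at hcon
  have hreal : ∀ w : ℂ, FT φ R w = 0 → w.im = 0 := by
    intro w hw
    by_cases hre : w.re = 0
    · exact absurd hw (FT_imag w hre hR hφ hpos)
    · exact hcon w hw hre
  obtain ⟨M, hM⟩ : ∃ M, ∀ x ∈ Icc (0:ℝ) R, |φ x| ≤ M := by
    obtain ⟨M, hM⟩ := isCompact_Icc.exists_bound_of_continuousOn hφ
    exact ⟨M, hM⟩
  have hM0 : 0 ≤ M := (abs_nonneg _).trans (hM 0 ⟨le_rfl, hR.le⟩)
  have hsq := GT_sq hR.le hφ hM
  have hG0 : GT φ R 0 ≠ 0 := by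
    have := FT_imag (0:ℂ) rfl hR hφ hpos
    rw [hsq] at this
    simpa using this
  obtain ⟨P, hP1, hP2⟩ := Pool.Agent.H24R2.JP.had (GT φ R) (M * R + R) (GT_diff hR.le hφ hM) hG0
    (fun x => GT_conj x) (fun x => (GT_bound hR.le hφ hM x).trans (growth_aux (by positivity) hR.le (norm_nonneg _)))
  have hroot : ∀ N, ∀ a : ℂ, aeval a (P N) = 0 → ∃ r : ℝ, a = (r : ℂ) ^ 2 := by
    intro N a ha
    have h1 := hP1 N a ha
    obtain ⟨z, hz⟩ := IsAlgClosed.exists_pow_nat_eq a (n := 2) (by norm_num)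
    have h2 : FT φ R z = 0 := by rw [hsq, hz, h1]
    have h3 := hreal z h2
    refine ⟨z.re, ?_⟩
    rw [← hz]
    congr 1
    apply Complex.ext <;> simp [h3]
  have hlim : ∀ w : ℂ, Tendsto (fun N => ‖aeval w (P N)‖) atTop (𝓝 ‖GT φ R w‖) := fun w =>
    ((tendstoLocallyUniformlyOn_univ.2 hP2).tendsto_at (mem_univ w)).norm
  have hle : ‖GT φ R (((z0.re : ℝ) : ℂ) ^ 2)‖ ≤ ‖GT φ R (z0 ^ 2)‖ :=
    le_of_tendsto_of_tendsto' (hlim _) (hlim _) fun N => poly_mono (P N) (hroot N) z0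
  rw [← hsq, ← hsq] at hle
  exact absurd h (not_lt.2 hle)

end Pool.Agent.V1180.Xi
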