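import Mathlib

set_option autoImplicit false

/-!
# The kernel Phi: positivity, continuity, and the tail bound
-/

namespace Pool.Agent.V1180.Xi

open Real MeasureTheory Filter Topology Set

/-- the terms of the kernel -/
noncomputable def tm (n : ℕ) (t : ℝ) : ℝ :=
  (2 * π ^ 2 * ((n : ℝ) + 1) ^ 4 * exp (9 * t / 2) - 3 * π * ((n : ℝ) + 1) ^ 2 * exp (5 * t / 2)) *
    exp (-(π * ((n : ℝ) + 1) ^ 2 * exp (2 * t)))

/-- the kernel -/
noncomputable def Phi (t : ℝ) : ℝ := 2 * ∑' n : ℕ, tm n t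

/-- the argument -/
noncomputable def ww (n : ℕ) (t : ℝ) : ℝ := π * ((n : ℝ) + 1) ^ 2 * exp (2 * t)

theorem tm_eq (n : ℕ) (t : ℝ) :
    tm n t = exp (t / 2) * (2 * ww n t ^ 2 - 3 * ww n t) * exp (-ww n t) := by
  unfold tm ww
  have h1 : exp (9 * t / 2) = exp (t / 2) * exp (2 * t) ^ 2 := by
    rw [← Real.exp_nat_mul, ← Real.exp_add]
    congr 1
    push_cast
    ring
  have h2 : exp (5 * t / 2) = exp (t / 2) * exp (2 * t) := by
    rw [← Real.exp_add]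
    congr 1
    ring
  rw [h1, h2]
  ring

theorem ww_ge (n : ℕ) {t : ℝ} (ht : 0 ≤ t) : π ≤ ww n t := by
  unfold ww
  have h1 : (1 : ℝ) ≤ exp (2 * t) := Real.one_le_exp (by linarith)
  have h2 : (1 : ℝ) ≤ ((n : ℝ) + 1) ^ 2 := by
    have : (0 : ℝ) ≤ n := Nat.cast_nonneg n
    nlinarith
  have h3 : 1 * 1 ≤ ((n : ℝ) + 1) ^ 2 * exp (2 * t) := mul_le_mul h2 h1 (by norm_num) (by linarith)
  have h4 := Real.pi_pos
  nlinarith

theorem tm_pos (n : ℕ) {t : ℝ} (ht : 0 ≤ t) : 0 < tm n t := by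
  rw [tm_eq]
  have h1 := ww_ge n ht
  have h2 := Real.pi_gt_three
  have h3 : 0 < 2 * ww n t ^ 2 - 3 * ww n t := by nlinarith
  positivity

theorem pow_le (k : ℕ) : ((k : ℝ) + 2) ^ 4 ≤ 16 * exp (2 * k) := by
  have h1 : (k : ℝ) / 2 + 1 ≤ exp ((k : ℝ) / 2) := Real.add_one_le_exp _
  have h0 : (0 : ℝ) ≤ k := Nat.cast_nonneg k
  have h2 : ((k : ℝ) / 2 + 1) ^ 4 ≤ exp ((k : ℝ) / 2) ^ 4 := pow_le_pow_left₀ (by positivity) h1 4
  have h3 : exp ((k : ℝ) / 2) ^ 4 = exp (2 * k) := by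
    rw [← Real.exp_nat_mul]
    congr 1
    push_cast
    ring
  rw [h3] at h2
  have h4 : ((k : ℝ) + 2) ^ 4 = 16 * ((k : ℝ) / 2 + 1) ^ 4 := by ring
  rw [h4]
  linarith

/-- the bound of the tail terms -/
noncomputable def bd (k : ℕ) : ℝ := 32 * π ^ 2 * exp (-(4 * π)) * exp (-10) ^ k

theorem tm_le (k : ℕ) {t : ℝ} (ht : 0 ≤ t) : tm (k + 1) t ≤ bd k * exp (-(20.6 * t)) := by
  have hw := ww_ge (k + 1) ht
  have hpi := Real.pi_gt_d2
  have h0 : (0 : ℝ) ≤ k := Nat.cast_nonneg k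
  have hw0 : 0 < ww (k + 1) t := by linarith [Real.pi_pos]
  have h1 : tm (k + 1) t ≤ exp (t / 2) * (2 * ww (k + 1) t ^ 2) * exp (-ww (k + 1) t) := by
    rw [tm_eq]
    apply mul_le_mul_of_nonneg_right _ (Real.exp_pos _).le
    apply mul_le_mul_of_nonneg_left _ (Real.exp_pos _).le
    linarith
  have h2 : exp (t / 2) * (2 * ww (k + 1) t ^ 2) = 2 * π ^ 2 * ((k : ℝ) + 2) ^ 4 * exp (4.5 * t) := by
    unfold ww
    have : exp (4.5 * t) = exp (t / 2) * exp (2 * t) ^ 2 := by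
      rw [← Real.exp_nat_mul, ← Real.exp_add]
      congr 1
      push_cast
      ring
    rw [this]
    push_cast
    ring
  have h3 : 4 * π + 4 * π * k + 8 * π * t ≤ ww (k + 1) t := by
    unfold ww
    have e1 : 2 * t + 1 ≤ exp (2 * t) := Real.add_one_le_exp _
    push_cast
    have e2 : (4 : ℝ) + 4 * k ≤ ((k : ℝ) + 1 + 1) ^ 2 := by nlinarith
    have e3 : (4 + 4 * (k : ℝ)) * (2 * t + 1) ≤ ((k : ℝ) + 1 + 1) ^ 2 * exp (2 * t) :=
      mul_le_mul e2 e1 (by positivity) (by positivity)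
    have e4 : 4 + 4 * (k : ℝ) + 8 * t ≤ (4 + 4 * (k : ℝ)) * (2 * t + 1) := by nlinarith [mul_nonneg h0 ht]
    have e5 := Real.pi_pos
    nlinarith
  have h4 : exp (-ww (k + 1) t) ≤ exp (-(4 * π) - 4 * π * k - 8 * π * t) := by
    apply Real.exp_le_exp.2
    linarith
  calc tm (k + 1) t ≤ exp (t / 2) * (2 * ww (k + 1) t ^ 2) * exp (-ww (k + 1) t) := h1
    _ = 2 * π ^ 2 * ((k : ℝ) + 2) ^ 4 * exp (4.5 * t) * exp (-ww (k + 1) t) := by rw [h2]
    _ ≤ 2 * π ^ 2 * (16 * exp (2 * k)) * exp (4.5 * t) * exp (-(4 * π) - 4 * π * k - 8 * π * t) := by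
        apply mul_le_mul _ h4 (Real.exp_pos _).le (by positivity)
        apply mul_le_mul_of_nonneg_right _ (Real.exp_pos _).le
        exact mul_le_mul_of_nonneg_left (pow_le k) (by positivity)
    _ = 32 * π ^ 2 * exp (2 * k + 4.5 * t + (-(4 * π) - 4 * π * k - 8 * π * t)) := by
        rw [Real.exp_add, Real.exp_add]
        ring
    _ ≤ 32 * π ^ 2 * exp (-(4 * π) + k * (-10) + -(20.6 * t)) := by
        apply mul_le_mul_of_nonneg_left _ (by positivity)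
        apply Real.exp_le_exp.2
        nlinarith [mul_nonneg h0 (by linarith : (0:ℝ) ≤ π - 3.14), mul_nonneg ht (by linarith : (0:ℝ) ≤ π - 3.14)]
    _ = bd k * exp (-(20.6 * t)) := by
        unfold bd
        rw [Real.exp_add, Real.exp_add, Real.exp_nat_mul]
        ring

theorem bd_sum : Summable bd ∧ 2 * ∑' k, bd k ≤ 0.0023 := by
  have hx : exp (-10) ≤ 1 / 1000 := by
    have h1 : (2 : ℝ) ≤ exp 1 := by linarith [Real.add_one_le_exp (1:ℝ)]
    have h2 : exp (-10) = (exp 1 ^ 10)⁻¹ := by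
      rw [← Real.exp_nat_mul, ← Real.exp_neg]
      norm_num
    rw [h2, inv_eq_one_div]
    apply one_div_le_one_div_of_le (by norm_num)
    calc (1000 : ℝ) ≤ 2 ^ 10 := by norm_num
      _ ≤ exp 1 ^ 10 := pow_le_pow_left₀ (by norm_num) h1 10
  have hx' : exp (-10) ≤ 1 / 22000 := by
    have h1 : (2.718 : ℝ) ≤ exp 1 := by linarith [Real.exp_one_gt_d9]
    have h2 : exp (-10) = (exp 1 ^ 10)⁻¹ := by
      rw [← Real.exp_nat_mul, ← Real.exp_neg]
      norm_num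
    rw [h2, inv_eq_one_div]
    apply one_div_le_one_div_of_le (by norm_num)
    calc (22000 : ℝ) ≤ 2.718 ^ 10 := by norm_num
      _ ≤ exp 1 ^ 10 := pow_le_pow_left₀ (by norm_num) h1 10
  have hx0 := Real.exp_pos (-10)
  have hs := hasSum_geometric_of_lt_one hx0.le (by linarith)
  have hs2 := hs.mul_left (32 * π ^ 2 * exp (-(4 * π)))
  refine ⟨hs2.summable, ?_⟩
  have : ∑' k, bd k = 32 * π ^ 2 * exp (-(4 * π)) * (1 - exp (-10))⁻¹ := hs2.tsum_eq
  rw [this]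
  have h4 : exp (-(4 * π)) ≤ 1 / 279000 := by
    have e1 : exp (-(4 * π)) ≤ exp (-12.56) := by
      apply Real.exp_le_exp.2
      linarith [Real.pi_gt_d2]
    have e2 : exp (-12.56) = (exp 1 ^ 12 * exp 0.56)⁻¹ := by
      rw [← Real.exp_nat_mul, ← Real.exp_add, ← Real.exp_neg]
      norm_num
    have e3 : (2.7182818 : ℝ) ≤ exp 1 := by linarith [Real.exp_one_gt_d9]
    have e4 : (1 + 0.56 + 0.56 ^ 2 / 2 : ℝ) ≤ exp 0.56 := Real.quadratic_le_exp_of_nonneg (by norm_num)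
    refine e1.trans ?_
    rw [e2, inv_eq_one_div]
    apply one_div_le_one_div_of_le (by norm_num)
    calc (279000 : ℝ) ≤ 2.7182818 ^ 12 * (1 + 0.56 + 0.56 ^ 2 / 2) := by norm_num
      _ ≤ exp 1 ^ 12 * exp 0.56 := by
        apply mul_le_mul (pow_le_pow_left₀ (by norm_num) e3 12) e4 (by norm_num) (by positivity)
  have h5 : (1 - exp (-10))⁻¹ ≤ 1.0001 := by
    rw [inv_eq_one_div, div_le_iff₀ (by linarith)]
    linarith
  have h6 : π ^ 2 ≤ 9.8697 := by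
    have := Real.pi_lt_d4
    have := Real.pi_pos
    nlinarith
  calc 2 * (32 * π ^ 2 * exp (-(4 * π)) * (1 - exp (-10))⁻¹)
      ≤ 2 * (32 * 9.8697 * (1 / 279000) * 1.0001) := by
        have : 0 ≤ (1 - exp (-10))⁻¹ := inv_nonneg.2 (by linarith)
        gcongr
    _ ≤ 0.0023 := by norm_num

theorem summ {t : ℝ} (ht : 0 ≤ t) : Summable (fun k => tm (k + 1) t) :=
  Summable.of_nonneg_of_le (fun k => (tm_pos (k + 1) ht).le) (fun k => tm_le k ht)
    (bd_sum.1.mul_right _)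

/-- the tail -/
noncomputable def Tl (t : ℝ) : ℝ := 2 * ∑' k : ℕ, tm (k + 1) t

theorem Phi_eq {t : ℝ} (ht : 0 ≤ t) : Phi t = 2 * tm 0 t + Tl t := by
  unfold Phi Tl
  rw [Summable.tsum_eq_zero_add ((summable_nat_add_iff 1).1 (summ ht))]
  ring

theorem Tl_nonneg {t : ℝ} (ht : 0 ≤ t) : 0 ≤ Tl t := by
  unfold Tl
  have h : 0 ≤ ∑' k : ℕ, tm (k + 1) t := tsum_nonneg (fun k => (tm_pos (k + 1) ht).le)
  linarith

theorem Tl_le {t : ℝ} (ht : 0 ≤ t) : Tl t ≤ 0.0023 * exp (-(20.6 * t)) := by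
  unfold Tl
  have h1 : ∑' k, tm (k + 1) t ≤ ∑' k, bd k * exp (-(20.6 * t)) :=
    (summ ht).tsum_le_tsum (fun k => tm_le k ht) (bd_sum.1.mul_right _)
  rw [tsum_mul_right] at h1
  have h2 := bd_sum.2
  have h3 := Real.exp_pos (-(20.6 * t))
  nlinarith

theorem Phi_pos {t : ℝ} (ht : 0 ≤ t) : 0 < Phi t := by
  rw [Phi_eq ht]
  have := tm_pos 0 ht
  have := Tl_nonneg ht
  linarith

theorem tm_cont (n : ℕ) : Continuous (tm n) := by
  unfold tm
  fun_prop

theorem Tl_cont : ContinuousOn Tl (Ici 0) := by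
  unfold Tl
  apply ContinuousOn.mul continuousOn_const
  refine continuousOn_tsum (fun k => (tm_cont (k + 1)).continuousOn) bd_sum.1 ?_
  intro k t ht
  rw [Real.norm_eq_abs, abs_of_pos (tm_pos (k + 1) ht)]
  refine (tm_le k ht).trans ?_
  have h1 : exp (-(20.6 * t)) ≤ 1 := by
    apply Real.exp_le_one_iff.2
    have : (0:ℝ) ≤ t := ht
    linarith
  have h2 : 0 ≤ bd k := by
    unfold bd
    positivity
  nlinarith

theorem Phi_cont : ContinuousOn Phi (Ici 0) := by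
  have h : ContinuousOn (fun t => 2 * tm 0 t + Tl t) (Ici 0) :=
    ((continuous_const.mul (tm_cont 0)).continuousOn).add Tl_cont
  exact h.congr fun t ht => Phi_eq ht

end Pool.Agent.V1180.Xi
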