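import Pool.Agent.V1180.XiA
import Pool.Agent.V1180.XiB

set_option autoImplicit false

/-!
# Approximation of the kernel by an exponential polynomial on `[0, log 3 / 2]`
-/

namespace Pool.Agent.V1180.Xi

open Real MeasureTheory Filter Topology Set

/-- a rational approximation of pi -/
noncomputable def pp : ℝ := 355 / 113

theorem pp_err : |π - pp| ≤ 3 / 10000000 := by
  unfold pp
  rw [abs_le]
  constructor
  · linarith [Real.pi_gt_d20]
  · linarith [Real.pi_lt_d20]

/-- the upper limit -/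
noncomputable def RR : ℝ := log 3 / 2

theorem RR_pos : 0 < RR := by
  unfold RR
  have := Real.log_pos (by norm_num : (1:ℝ) < 3)
  linarith

theorem exp_RR : exp (2 * RR) = 3 := by
  unfold RR
  rw [show 2 * (log 3 / 2) = log 3 by ring, Real.exp_log (by norm_num)]

theorem RR_lt : RR < 0.56 := by
  have h : exp (2 * RR) < exp (2 * 0.56) := by
    rw [exp_RR]
    have e1 : exp (2 * 0.56) = exp 1 * exp 0.12 := by
      rw [← Real.exp_add]; norm_num
    have e2 : (1 + 0.12 + 0.12 ^ 2 / 2 : ℝ) ≤ exp 0.12 := Real.quadratic_le_exp_of_nonneg (by norm_num)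
    have e3 := Real.exp_one_gt_d9
    rw [e1]
    nlinarith
  have := Real.exp_lt_exp.1 h
  linarith

/-- the profile -/
noncomputable def gg (w : ℝ) : ℝ := (2 * w ^ 2 - 3 * w) * exp (-w)

theorem gg_lip (a b : ℝ) (ha : 0 ≤ a) (hb : 0 ≤ b) : |gg a - gg b| ≤ 7 * |a - b| := by
  have hder : ∀ x ∈ Ici (0:ℝ), HasDerivWithinAt gg ((-2 * x ^ 2 + 7 * x - 3) * exp (-x)) (Ici 0) x := by
    intro x _
    have h1 : HasDerivAt (fun w : ℝ => 2 * w ^ 2 - 3 * w) (4 * x - 3) x := by
      refine HasDerivAt.congr_deriv (HasDerivAt.sub ((hasDerivAt_pow 2 x).const_mul 2)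
        ((hasDerivAt_id' x).const_mul 3)) ?_
      push_cast
      ring
    have h3 : HasDerivAt (fun w : ℝ => exp (-w)) (-exp (-x)) x := by
      have := (hasDerivAt_neg x).exp
      simpa using this
    have h4 := h1.mul h3
    have h5 : HasDerivAt gg ((-2 * x ^ 2 + 7 * x - 3) * exp (-x)) x := by
      refine HasDerivAt.congr_deriv h4 ?_
      ring
    exact h5.hasDerivWithinAt
  have hbound : ∀ x ∈ Ici (0:ℝ), ‖(-2 * x ^ 2 + 7 * x - 3) * exp (-x)‖ ≤ 7 := by
    intro x hx
    have hx' : 0 ≤ x := hx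
    rw [norm_mul, Real.norm_eq_abs, Real.norm_eq_abs, abs_of_pos (Real.exp_pos _), Real.exp_neg,
      ← div_eq_mul_inv, div_le_iff₀ (Real.exp_pos _)]
    have h1 := Real.quadratic_le_exp_of_nonneg hx'
    rw [abs_le]
    constructor <;> nlinarith
  have := (convex_Ici (0:ℝ)).norm_image_sub_le_of_norm_hasDerivWithin_le hder hbound hb ha
  simpa [Real.norm_eq_abs] using this

theorem exp_tay (x : ℝ) (h0 : 0 ≤ x) (h1 : x ≤ 9.4248) :
    |exp (-x) - ∑ m ∈ Finset.range 38, (-x) ^ m / (m.factorial : ℝ)| ≤ 4.1e-8 := by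
  have h := Complex.exp_bound' (x := ((-x : ℝ) : ℂ)) (n := 38) (by
    rw [Complex.norm_real, Real.norm_eq_abs, abs_neg, abs_of_nonneg h0]
    norm_num
    linarith)
  have e1 : Complex.exp ((-x : ℝ) : ℂ) - ∑ m ∈ Finset.range 38, ((-x : ℝ) : ℂ) ^ m / (m.factorial : ℂ) =
      ((exp (-x) - ∑ m ∈ Finset.range 38, (-x) ^ m / (m.factorial : ℝ) : ℝ) : ℂ) := by
    push_cast
    rfl
  rw [e1, Complex.norm_real, Complex.norm_real, Real.norm_eq_abs, Real.norm_eq_abs, abs_neg, abs_of_nonneg h0] at h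
  refine h.trans ?_
  calc x ^ 38 / (Nat.factorial 38 : ℝ) * 2 ≤ 9.4248 ^ 38 / (Nat.factorial 38 : ℝ) * 2 := by gcongr
    _ ≤ 4.1e-8 := by norm_num [Nat.factorial]

/-- the exponential polynomial -/
noncomputable def qf (t : ℝ) : ℝ := ∑ m ∈ Finset.range 38, (-1) ^ m / (m.factorial : ℝ) *
  (4 * pp ^ (m + 2) * exp ((2 * (m + 2) + 1 / 2) * t) - 6 * pp ^ (m + 1) * exp ((2 * (m + 1) + 1 / 2) * t))

theorem qf_eq (t : ℝ) : qf t = 2 * exp (t / 2) * (2 * (pp * exp (2 * t)) ^ 2 - 3 * (pp * exp (2 * t))) *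
    ∑ m ∈ Finset.range 38, (-(pp * exp (2 * t))) ^ m / (m.factorial : ℝ) := by
  unfold qf
  rw [Finset.mul_sum]
  apply Finset.sum_congr rfl
  intro m _
  have h1 : exp ((2 * ((m:ℝ) + 2) + 1 / 2) * t) = exp (t / 2) * exp (2 * t) ^ (m + 2) := by
    rw [← Real.exp_nat_mul, ← Real.exp_add]
    congr 1
    push_cast
    ring
  have h2 : exp ((2 * ((m:ℝ) + 1) + 1 / 2) * t) = exp (t / 2) * exp (2 * t) ^ (m + 1) := by
    rw [← Real.exp_nat_mul, ← Real.exp_add]
    congr 1
    push_cast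
    ring
  rw [h1, h2, neg_pow (pp * exp (2 * t)) m, mul_pow]
  ring

theorem exp_half_le {t : ℝ} (ht : t ≤ RR) : exp (t / 2) ≤ 1.3161 := by
  have h1 : exp (t / 2) ^ 4 ≤ 3 := by
    rw [← exp_RR, ← Real.exp_nat_mul]
    apply Real.exp_le_exp.2
    push_cast
    linarith
  by_contra hcon
  push Not at hcon
  have h2 : (1.3161 : ℝ) ^ 4 < exp (t / 2) ^ 4 := pow_lt_pow_left₀ hcon (by norm_num) (by norm_num)
  norm_num at h2
  linarith

theorem qf_err {t : ℝ} (h0 : 0 ≤ t) (h1 : t ≤ RR) : |Phi t - qf t| ≤ 4e-5 + 0.0023 * exp (-(20.6 * t)) := by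
  have hv1 : exp (2 * t) ≤ 3 := by
    rw [← exp_RR]
    apply Real.exp_le_exp.2
    linarith
  have hv0 := Real.exp_pos (2 * t)
  have he := exp_half_le h1
  have he0 := Real.exp_pos (t / 2)
  set v := exp (2 * t) with hv
  have hw : ww 0 t = π * v := by
    unfold ww
    simp [hv]
  have hP : Phi t = 2 * exp (t / 2) * gg (π * v) + Tl t := by
    rw [Phi_eq h0, tm_eq, hw]
    unfold gg
    ring
  have hpp0 : 0 < pp := by unfold pp; norm_num
  have hpp1 : pp ≤ 3.1415930 := by unfold pp; norm_num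
  have hy0 : 0 ≤ pp * v := by positivity
  have hy1 : pp * v ≤ 9.4248 := by nlinarith
  have hA : |gg (π * v) - gg (pp * v)| ≤ 7 * (3 * (3 / 10000000)) := by
    refine (gg_lip _ _ (by positivity) hy0).trans ?_
    rw [← sub_mul, abs_mul, abs_of_pos hv0]
    have := pp_err
    have := abs_nonneg (π - pp)
    nlinarith
  have hB := exp_tay (pp * v) hy0 hy1
  set S := ∑ m ∈ Finset.range 38, (-(pp * v)) ^ m / (m.factorial : ℝ) with hS
  have hq : qf t = 2 * exp (t / 2) * ((2 * (pp * v) ^ 2 - 3 * (pp * v)) * S) := by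
    rw [qf_eq]
    ring
  have hC : |gg (pp * v) - (2 * (pp * v) ^ 2 - 3 * (pp * v)) * S| ≤ 150 * 4.1e-8 := by
    unfold gg
    rw [← mul_sub, abs_mul]
    have h5 : |2 * (pp * v) ^ 2 - 3 * (pp * v)| ≤ 150 := by
      rw [abs_le]
      constructor <;> nlinarith
    exact mul_le_mul h5 hB (abs_nonneg _) (by norm_num)
  have hT0 := Tl_nonneg h0
  have hT1 := Tl_le h0
  have hD : Phi t - qf t = 2 * exp (t / 2) * ((gg (π * v) - gg (pp * v)) +
      (gg (pp * v) - (2 * (pp * v) ^ 2 - 3 * (pp * v)) * S)) + Tl t := by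
    rw [hP, hq]
    ring
  rw [hD]
  refine (abs_add_le _ _).trans ?_
  have hE : |2 * exp (t / 2) * ((gg (π * v) - gg (pp * v)) +
      (gg (pp * v) - (2 * (pp * v) ^ 2 - 3 * (pp * v)) * S))| ≤
      2 * 1.3161 * (7 * (3 * (3 / 10000000)) + 150 * 4.1e-8) := by
    rw [abs_mul, abs_of_pos (by positivity : (0:ℝ) < 2 * exp (t / 2))]
    apply mul_le_mul (by linarith) _ (abs_nonneg _) (by norm_num)
    exact (abs_add_le _ _).trans (add_le_add hA hC)
  rw [abs_of_nonneg hT0]
  have : (2 * 1.3161 * (7 * (3 * (3 / 10000000)) + 150 * 4.1e-8) : ℝ) ≤ 4e-5 := by norm_num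
  linarith

theorem qf_cont : Continuous qf := by
  unfold qf
  fun_prop

theorem cos_bd (z : ℂ) (t : ℝ) (ht : 0 ≤ t) (hz : |z.im| ≤ 3 / 2) :
    ‖Complex.cos (z * t)‖ ≤ exp (3 / 2 * t) := by
  have h1 : Complex.cos (z * t) = (Complex.exp (z * t * Complex.I) + Complex.exp (-(z * t) * Complex.I)) / 2 := rfl
  rw [h1, norm_div]
  have h2 : ‖Complex.exp (z * t * Complex.I)‖ ≤ exp (3 / 2 * t) := by
    rw [Complex.norm_exp]
    apply Real.exp_le_exp.2
    have : (z * t * Complex.I).re = -(z.im * t) := by simp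
    rw [this]
    have := (abs_le.1 hz).1
    nlinarith
  have h3 : ‖Complex.exp (-(z * t) * Complex.I)‖ ≤ exp (3 / 2 * t) := by
    rw [Complex.norm_exp]
    apply Real.exp_le_exp.2
    have : (-(z * t) * Complex.I).re = z.im * t := by simp
    rw [this]
    have := (abs_le.1 hz).2
    nlinarith
  have h4 := norm_add_le (Complex.exp (z * t * Complex.I)) (Complex.exp (-(z * t) * Complex.I))
  have h5 : ‖(2:ℂ)‖ = 2 := by simp
  rw [h5]
  linarith

/-- replacing the kernel by the exponential polynomial -/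
theorem FT_err (z : ℂ) (hz : |z.im| ≤ 3 / 2) :
    ‖FT Phi RR z - ∫ x in (0:ℝ)..RR, ((qf x : ℝ) : ℂ) * Complex.cos (z * x)‖ ≤ 1.8e-4 := by
  have hR := RR_pos
  have hsub : uIcc 0 RR ⊆ Ici (0:ℝ) := by
    rw [uIcc_of_le hR.le]
    exact fun x hx => hx.1
  have i1 : IntervalIntegrable (fun x : ℝ => ((Phi x : ℝ) : ℂ) * Complex.cos (z * x)) volume 0 RR := by
    apply ContinuousOn.intervalIntegrable
    apply ContinuousOn.mul
    · exact Complex.continuous_ofReal.comp_continuousOn (Phi_cont.mono hsub)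
    · fun_prop
  have i2 : IntervalIntegrable (fun x : ℝ => ((qf x : ℝ) : ℂ) * Complex.cos (z * x)) volume 0 RR := by
    apply Continuous.intervalIntegrable
    have := qf_cont
    fun_prop
  unfold FT
  rw [← intervalIntegral.integral_sub i1 i2]
  have hb : ‖∫ x in (0:ℝ)..RR, (((Phi x : ℝ) : ℂ) * Complex.cos (z * x) - ((qf x : ℝ) : ℂ) * Complex.cos (z * x))‖ ≤
      ∫ x in (0:ℝ)..RR, (1e-4 + 0.0023 * exp (-19.1 * x)) := by
    apply intervalIntegral.norm_integral_le_of_norm_le hR.le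
    · refine Eventually.of_forall fun x hx => ?_
      rw [← sub_mul, norm_mul, ← Complex.ofReal_sub, Complex.norm_real, Real.norm_eq_abs]
      have h1 := qf_err hx.1.le hx.2
      have h2 := cos_bd z x hx.1.le hz
      have h3 : exp (3 / 2 * x) ≤ 2.5 := by
        have e1 : exp (3 / 2 * x) ≤ exp (3 / 2 * 0.56) := by
          apply Real.exp_le_exp.2
          have := RR_lt
          linarith [hx.2]
        have e2 : exp (3 / 2 * 0.56) ^ 25 ≤ (2.5:ℝ) ^ 25 := by
          rw [← Real.exp_nat_mul]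
          have : exp (((25:ℕ):ℝ) * (3 / 2 * 0.56)) = exp 1 ^ 21 := by
            rw [← Real.exp_nat_mul]
            norm_num
          rw [this]
          have e3 := Real.exp_one_lt_d9
          calc exp 1 ^ 21 ≤ 2.7182818286 ^ 21 := pow_le_pow_left₀ (Real.exp_pos _).le e3.le 21
            _ ≤ 2.5 ^ 25 := by norm_num
        have e4 := (pow_le_pow_iff_left₀ (Real.exp_pos _).le (by norm_num : (0:ℝ) ≤ 2.5) (by norm_num)).1 e2
        linarith
      have h4 : exp (-19.1 * x) = exp (-(20.6 * x)) * exp (3 / 2 * x) := by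
        rw [← Real.exp_add]
        congr 1
        ring
      rw [h4]
      calc |Phi x - qf x| * ‖Complex.cos (z * x)‖ ≤ (4e-5 + 0.0023 * exp (-(20.6 * x))) * exp (3 / 2 * x) :=
            mul_le_mul h1 h2 (norm_nonneg _) (by positivity)
        _ ≤ _ := by
            have := Real.exp_pos (3 / 2 * x)
            nlinarith
    · apply Continuous.intervalIntegrable
      fun_prop
  refine hb.trans ?_
  have hint : ∫ x in (0:ℝ)..RR, (1e-4 + 0.0023 * exp (-19.1 * x)) =
      1e-4 * RR + 0.0023 * ((exp (-19.1 * RR) - 1) / (-19.1)) := by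
    rw [intervalIntegral.integral_add (by simp) (by apply Continuous.intervalIntegrable; fun_prop),
      intervalIntegral.integral_const_mul, intervalIntegral.integral_const]
    have : ∫ x in (0:ℝ)..RR, exp (-19.1 * x) = (exp (-19.1 * RR) - 1) / (-19.1) := by
      rw [intervalIntegral.integral_comp_mul_left (fun x => exp x) (by norm_num : (-19.1:ℝ) ≠ 0), integral_exp]
      simp
      ring
    rw [this]
    simp
    ring
  rw [hint]
  have h5 := Real.exp_pos (-19.1 * RR)
  have h6 := RR_lt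
  have h7 : (exp (-19.1 * RR) - 1) / (-19.1) ≤ 1 / 19.1 := by
    have e : (exp (-19.1 * RR) - 1) / (-19.1) = (1 - exp (-19.1 * RR)) / 19.1 := by ring
    rw [e]
    apply div_le_div_of_nonneg_right _ (by norm_num)
    linarith
  linarith

end Pool.Agent.V1180.Xi
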