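import Pool.Agent.V1180.XiC

set_option autoImplicit false

/-!
# Numerical evaluation of the truncated transform at `27/2` and `27/2 + 3/2 i`
-/

namespace Pool.Agent.V1180.Xi

open Real MeasureTheory Filter Topology Set

/-- cosine sums -/
noncomputable def SR (V a : ℝ) : ℝ := ∑ m ∈ Finset.range 38, (-1) ^ m / (m.factorial : ℝ) *
  (4 * (355 / 113) ^ (m + 2) * V ^ (m + 2) * ((2 * (m + 2) + a) / ((2 * (m + 2) + a) ^ 2 + (27 / 2) ^ 2)) -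
   6 * (355 / 113) ^ (m + 1) * V ^ (m + 1) * ((2 * (m + 1) + a) / ((2 * (m + 1) + a) ^ 2 + (27 / 2) ^ 2)))

/-- sine sums -/
noncomputable def SI (V a : ℝ) : ℝ := ∑ m ∈ Finset.range 38, (-1) ^ m / (m.factorial : ℝ) *
  (4 * (355 / 113) ^ (m + 2) * V ^ (m + 2) * ((27 / 2) / ((2 * (m + 2) + a) ^ 2 + (27 / 2) ^ 2)) -
   6 * (355 / 113) ^ (m + 1) * V ^ (m + 1) * ((27 / 2) / ((2 * (m + 1) + a) ^ 2 + (27 / 2) ^ 2)))

theorem n1 : |SR 3 (1/2) - 0.0010596| ≤ 1e-6 ∧ |SI 3 (1/2) - 0.0006901| ≤ 1e-6 ∧ |SR 1 (1/2) - 0.0004913| ≤ 1e-6 := by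
  unfold SR SI
  simp only [abs_le]
  refine ⟨⟨?_, ?_⟩, ⟨?_, ?_⟩, ⟨?_, ?_⟩⟩ <;> norm_num [Finset.sum_range_succ, Nat.factorial]

theorem n2 : |SR 3 (-1) - 0.0004955| ≤ 1e-6 ∧ |SI 3 (-1) - 0.0028636| ≤ 1e-6 ∧ |SR 1 (-1) + 0.0103725| ≤ 1e-6 ∧
    |SI 1 (-1) - 0.0738714| ≤ 1e-6 := by
  unfold SR SI
  simp only [abs_le]
  refine ⟨⟨?_, ?_⟩, ⟨?_, ?_⟩, ⟨?_, ?_⟩, ⟨?_, ?_⟩⟩ <;> norm_num [Finset.sum_range_succ, Nat.factorial]

theorem n3 : |SR 3 2 + 0.0000867| ≤ 1e-6 ∧ |SI 3 2 + 0.0004703| ≤ 1e-6 ∧ |SR 1 2 - 0.0109223| ≤ 1e-6 ∧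
    |SI 1 2 - 0.0731449| ≤ 1e-6 := by
  unfold SR SI
  simp only [abs_le]
  refine ⟨⟨?_, ?_⟩, ⟨?_, ?_⟩, ⟨?_, ?_⟩, ⟨?_, ?_⟩⟩ <;> norm_num [Finset.sum_range_succ, Nat.factorial]

theorem tay : |cos 1.1324 - 0.42454| ≤ 0.0001 ∧ |sin 1.1324 - 0.90541| ≤ 0.0001 := by
  have h := Complex.exp_bound' (x := ((1.1324 : ℝ) : ℂ) * Complex.I) (n := 12) (by
    rw [norm_mul, Complex.norm_real, Complex.norm_I]
    norm_num)
  have hn : ‖((1.1324 : ℝ) : ℂ) * Complex.I‖ = 1.1324 := by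
    rw [norm_mul, Complex.norm_real, Complex.norm_I]
    norm_num
  rw [hn] at h
  have h1 := (Complex.abs_re_le_norm _).trans h
  have h2 := (Complex.abs_im_le_norm _).trans h
  rw [Complex.sub_re, Complex.exp_ofReal_mul_I_re] at h1
  rw [Complex.sub_im, Complex.exp_ofReal_mul_I_im] at h2
  have e1 : (∑ m ∈ Finset.range 12, (((1.1324 : ℝ) : ℂ) * Complex.I) ^ m / (m.factorial : ℂ)).re =
    1 - 1.1324 ^ 2 / 2 + 1.1324 ^ 4 / 24 - 1.1324 ^ 6 / 720 + 1.1324 ^ 8 / 40320 - 1.1324 ^ 10 / 3628800 := by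
    simp [Finset.sum_range_succ, Nat.factorial, pow_succ]
    norm_num
  have e2 : (∑ m ∈ Finset.range 12, (((1.1324 : ℝ) : ℂ) * Complex.I) ^ m / (m.factorial : ℂ)).im =
    1.1324 - 1.1324 ^ 3 / 6 + 1.1324 ^ 5 / 120 - 1.1324 ^ 7 / 5040 + 1.1324 ^ 9 / 362880 - 1.1324 ^ 11 / 39916800 := by
    simp [Finset.sum_range_succ, Nat.factorial, pow_succ]
    norm_num
  rw [e1] at h1
  rw [e2] at h2
  simp only [abs_le] at *
  norm_num [Nat.factorial] at h1 h2 ⊢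
  obtain ⟨a1, a2⟩ := h1
  obtain ⟨b1, b2⟩ := h2
  refine ⟨⟨?_, ?_⟩, ⟨?_, ?_⟩⟩ <;> linarith

theorem log3 : 1.0985 < log 3 ∧ log 3 < 1.0987 := by
  constructor
  · rw [Real.lt_log_iff_exp_lt (by norm_num)]
    have e1 : exp 1.0985 = exp 1 * exp 0.0985 := by
      rw [← Real.exp_add]; norm_num
    have e2 := Real.exp_bound' (x := 0.0985) (by norm_num) (by norm_num) (n := 4) (by norm_num)
    have e3 := Real.exp_one_lt_d9
    rw [e1]
    norm_num [Finset.sum_range_succ, Nat.factorial] at e2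
    have e4 := Real.exp_pos 1
    have e5 : exp 0.0985 ≤ 1.103516 := by
      norm_num
      linarith
    nlinarith [Real.exp_pos 0.0985]
  · rw [Real.log_lt_iff_lt_exp (by norm_num)]
    have e1 : exp 1.0987 = exp 1 * (exp 0.04935 * exp 0.04935) := by
      rw [← Real.exp_add, ← Real.exp_add]; norm_num
    have e2 := Real.quadratic_le_exp_of_nonneg (x := 0.04935) (by norm_num)
    have e3 := Real.exp_one_gt_d9
    rw [e1]
    have e4 : (1.05056 : ℝ) ≤ exp 0.04935 := by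
      refine le_trans ?_ e2
      norm_num
    have e5 : (1.05056 : ℝ) * 1.05056 ≤ exp 0.04935 * exp 0.04935 :=
      mul_le_mul e4 e4 (by norm_num) (Real.exp_pos _).le
    nlinarith

theorem cs : |cos (27 / 2 * RR) - 0.42454| ≤ 0.001 ∧ |sin (27 / 2 * RR) - 0.90541| ≤ 0.001 := by
  have h1 := log3
  have hp := Real.pi_gt_d4
  have hp' := Real.pi_lt_d4
  have h2 : |27 / 2 * RR - 2 * π - 1.1324| ≤ 0.0009 := by
    unfold RR
    rw [abs_le]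
    constructor <;> norm_num <;> linarith
  have h3 := abs_cos_sub_cos_le (27 / 2 * RR - 2 * π) 1.1324
  have h4 := abs_sin_sub_sin_le (27 / 2 * RR - 2 * π) 1.1324
  rw [Real.cos_sub_two_pi] at h3
  rw [Real.sin_sub_two_pi] at h4
  obtain ⟨h5, h6⟩ := tay
  constructor
  · calc |cos (27 / 2 * RR) - 0.42454| ≤ |cos (27 / 2 * RR) - cos 1.1324| + |cos 1.1324 - 0.42454| := by
          apply abs_sub_le
      _ ≤ 0.001 := by
          refine (add_le_add (h3.trans h2) h5).trans ?_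
          norm_num
  · calc |sin (27 / 2 * RR) - 0.90541| ≤ |sin (27 / 2 * RR) - sin 1.1324| + |sin 1.1324 - 0.90541| := by
          apply abs_sub_le
      _ ≤ 0.001 := by
          refine (add_le_add (h4.trans h2) h6).trans ?_
          norm_num

theorem e2R : exp (2 * RR) = 3 := exp_RR

theorem e1R : |exp (-1 * RR) - 0.57735| ≤ 0.0001 := by
  have h1 : exp (-1 * RR) ^ 2 * 3 = 1 := by
    rw [← exp_RR, ← Real.exp_nat_mul, ← Real.exp_add]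
    apply Real.exp_eq_one_iff _ |>.2
    push_cast
    ring
  have h0 := Real.exp_pos (-1 * RR)
  rw [abs_le]
  constructor <;> nlinarith

theorem ehR : |exp (1 / 2 * RR) - 1.31607| ≤ 0.0001 := by
  have h1 : exp (1 / 2 * RR) ^ 4 = 3 := by
    rw [← exp_RR, ← Real.exp_nat_mul]
    congr 1
    push_cast
    ring
  have h0 := Real.exp_pos (1 / 2 * RR)
  have h2 : (exp (1 / 2 * RR) ^ 2) ^ 2 = 3 := by rw [← pow_mul]; exact h1
  have h3 : 1.73205 ≤ exp (1 / 2 * RR) ^ 2 := by nlinarith [sq_nonneg (exp (1 / 2 * RR))]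
  have h4 : exp (1 / 2 * RR) ^ 2 ≤ 1.73206 := by nlinarith [sq_nonneg (exp (1 / 2 * RR))]
  rw [abs_le]
  constructor <;> nlinarith

/-- the exponential transform of the exponential polynomial -/
noncomputable def IE (u : ℂ) : ℂ := ∫ x in (0:ℝ)..RR, ((qf x : ℝ) : ℂ) * Complex.exp (u * x)

theorem int_one (j : ℕ) (a : ℝ) :
    ∫ x in (0:ℝ)..RR, Complex.exp ((⟨2 * j + a, 27 / 2⟩ : ℂ) * x) =
      ⟨((3 ^ j * (exp (a * RR) * cos (27 / 2 * RR)) - 1) * (2 * j + a) + 3 ^ j * (exp (a * RR) * sin (27 / 2 * RR)) * (27 / 2)) /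
          ((2 * j + a) ^ 2 + (27 / 2) ^ 2),
        (3 ^ j * (exp (a * RR) * sin (27 / 2 * RR)) * (2 * j + a) - (3 ^ j * (exp (a * RR) * cos (27 / 2 * RR)) - 1) * (27 / 2)) /
          ((2 * j + a) ^ 2 + (27 / 2) ^ 2)⟩ := by
  have hc : (⟨2 * j + a, 27 / 2⟩ : ℂ) ≠ 0 := by
    intro h
    have := congrArg Complex.im h
    norm_num at this
  rw [integral_exp_mul_complex hc, div_eq_iff hc]
  have hD : (2 * (j:ℝ) + a) ^ 2 + (27 / 2) ^ 2 ≠ 0 := by positivity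
  have he : exp ((2 * j + a) * RR) = 3 ^ j * exp (a * RR) := by
    rw [← exp_RR, ← Real.exp_nat_mul, ← Real.exp_add]
    congr 1
    ring
  apply Complex.ext
  · have e1 : (Complex.exp ((⟨2 * j + a, 27 / 2⟩ : ℂ) * RR)).re = 3 ^ j * exp (a * RR) * cos (27 / 2 * RR) := by
      rw [Complex.exp_re]
      have : ((⟨2 * j + a, 27 / 2⟩ : ℂ) * RR).re = (2 * j + a) * RR := by simp
      rw [this, he]
      have : ((⟨2 * j + a, 27 / 2⟩ : ℂ) * RR).im = 27 / 2 * RR := by simp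
      rw [this]
    rw [Complex.sub_re, e1, Complex.mul_re]
    simp only [Complex.ofReal_zero, mul_zero, Complex.exp_zero, Complex.one_re]
    field_simp
    ring
  · have e1 : (Complex.exp ((⟨2 * j + a, 27 / 2⟩ : ℂ) * RR)).im = 3 ^ j * exp (a * RR) * sin (27 / 2 * RR) := by
      rw [Complex.exp_im]
      have : ((⟨2 * j + a, 27 / 2⟩ : ℂ) * RR).re = (2 * j + a) * RR := by simp
      rw [this, he]
      have : ((⟨2 * j + a, 27 / 2⟩ : ℂ) * RR).im = 27 / 2 * RR := by simp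
      rw [this]
    rw [Complex.sub_im, e1, Complex.mul_im]
    simp only [Complex.ofReal_zero, mul_zero, Complex.exp_zero, Complex.one_im]
    field_simp
    ring

theorem IE_eq (a : ℝ) : IE ⟨a - 1 / 2, 27 / 2⟩ = ∑ m ∈ Finset.range 38,
    (((-1) ^ m / (m.factorial : ℝ) : ℝ) : ℂ) *
      (((4 * pp ^ (m + 2) : ℝ) : ℂ) * (∫ x in (0:ℝ)..RR, Complex.exp ((⟨2 * ((m + 2 : ℕ) : ℝ) + a, 27 / 2⟩ : ℂ) * x)) -
       ((6 * pp ^ (m + 1) : ℝ) : ℂ) * (∫ x in (0:ℝ)..RR, Complex.exp ((⟨2 * ((m + 1 : ℕ) : ℝ) + a, 27 / 2⟩ : ℂ) * x))) := by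
  unfold IE
  have h1 : ∀ x : ℝ, ((qf x : ℝ) : ℂ) * Complex.exp ((⟨a - 1 / 2, 27 / 2⟩ : ℂ) * x) = ∑ m ∈ Finset.range 38,
    (((-1) ^ m / (m.factorial : ℝ) : ℝ) : ℂ) *
      (((4 * pp ^ (m + 2) : ℝ) : ℂ) * Complex.exp ((⟨2 * ((m + 2 : ℕ) : ℝ) + a, 27 / 2⟩ : ℂ) * x) -
       ((6 * pp ^ (m + 1) : ℝ) : ℂ) * Complex.exp ((⟨2 * ((m + 1 : ℕ) : ℝ) + a, 27 / 2⟩ : ℂ) * x)) := by
    intro x
    unfold qf
    rw [Complex.ofReal_sum, Finset.sum_mul]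
    apply Finset.sum_congr rfl
    intro m _
    have e : ∀ j : ℕ, Complex.exp ((⟨2 * (j : ℝ) + a, 27 / 2⟩ : ℂ) * x) =
        ((exp ((2 * j + 1 / 2) * x) : ℝ) : ℂ) * Complex.exp ((⟨a - 1 / 2, 27 / 2⟩ : ℂ) * x) := by
      intro j
      rw [Complex.ofReal_exp, ← Complex.exp_add]
      congr 1
      apply Complex.ext
      · simp
        ring
      · simp
    rw [e, e]
    push_cast
    ring
  simp_rw [h1]
  have hi : ∀ j : ℕ, IntervalIntegrable (fun x : ℝ => Complex.exp ((⟨2 * (j : ℝ) + a, 27 / 2⟩ : ℂ) * x)) volume 0 RR := by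
    intro j
    apply Continuous.intervalIntegrable
    fun_prop
  rw [intervalIntegral.integral_finsetSum]
  · apply Finset.sum_congr rfl
    intro m _
    rw [intervalIntegral.integral_const_mul, intervalIntegral.integral_sub ((hi _).const_mul _) ((hi _).const_mul _),
      intervalIntegral.integral_const_mul, intervalIntegral.integral_const_mul]
  · intro m _
    exact (((hi _).const_mul _).sub ((hi _).const_mul _)).const_mul _

theorem IE_re (a : ℝ) : (IE ⟨a - 1 / 2, 27 / 2⟩).re =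
    (exp (a * RR) * cos (27 / 2 * RR)) * SR 3 a + (exp (a * RR) * sin (27 / 2 * RR)) * SI 3 a - SR 1 a := by
  rw [IE_eq, Complex.re_sum]
  unfold SR SI
  rw [Finset.mul_sum, Finset.mul_sum, ← Finset.sum_add_distrib, ← Finset.sum_sub_distrib]
  apply Finset.sum_congr rfl
  intro m _
  rw [int_one, int_one, Complex.re_ofReal_mul, Complex.sub_re, Complex.re_ofReal_mul, Complex.re_ofReal_mul]
  unfold pp
  dsimp only
  push_cast
  ring

theorem IE_im (a : ℝ) : (IE ⟨a - 1 / 2, 27 / 2⟩).im =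
    (exp (a * RR) * sin (27 / 2 * RR)) * SR 3 a - (exp (a * RR) * cos (27 / 2 * RR)) * SI 3 a + SI 1 a := by
  rw [IE_eq, Complex.im_sum]
  unfold SR SI
  rw [Finset.mul_sum, Finset.mul_sum, ← Finset.sum_sub_distrib, ← Finset.sum_add_distrib]
  apply Finset.sum_congr rfl
  intro m _
  rw [int_one, int_one, Complex.im_ofReal_mul, Complex.sub_im, Complex.im_ofReal_mul, Complex.im_ofReal_mul]
  unfold pp
  dsimp only
  push_cast
  ring

theorem int_cos (y : ℝ) : ∫ x in (0:ℝ)..RR, ((qf x : ℝ) : ℂ) * Complex.cos ((⟨27 / 2, y⟩ : ℂ) * x) =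
    (IE ⟨-y, 27 / 2⟩ + (starRingEnd ℂ) (IE ⟨y, 27 / 2⟩)) / 2 := by
  unfold IE
  rw [← intervalIntegral.intervalIntegral_conj, ← intervalIntegral.integral_add, ← intervalIntegral.integral_div]
  · apply intervalIntegral.integral_congr
    intro x _
    dsimp only
    rw [map_mul, Complex.conj_ofReal, ← Complex.exp_conj, map_mul, Complex.conj_ofReal]
    have h1 : Complex.cos ((⟨27 / 2, y⟩ : ℂ) * x) = (Complex.exp ((⟨27 / 2, y⟩ : ℂ) * x * Complex.I) +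
      Complex.exp (-((⟨27 / 2, y⟩ : ℂ) * x) * Complex.I)) / 2 := rfl
    rw [h1]
    have h2 : (⟨27 / 2, y⟩ : ℂ) * x * Complex.I = (⟨-y, 27 / 2⟩ : ℂ) * x := by
      apply Complex.ext <;> simp
    have h3 : -((⟨27 / 2, y⟩ : ℂ) * x) * Complex.I = (starRingEnd ℂ) (⟨y, 27 / 2⟩ : ℂ) * x := by
      apply Complex.ext <;> simp
    rw [h2, h3]
    ring
  · apply Continuous.intervalIntegrable
    have := qf_cont
    fun_prop
  · apply Continuous.intervalIntegrable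
    have := qf_cont
    have h4 : Continuous (fun x : ℝ => ((qf x : ℝ) : ℂ) * Complex.exp ((⟨y, 27 / 2⟩ : ℂ) * x)) := by fun_prop
    exact Complex.continuous_conj.comp h4

theorem mul_bd {x y x0 y0 ε δ : ℝ} (hx : |x - x0| ≤ ε) (hy : |y - y0| ≤ δ) :
    |x * y - x0 * y0| ≤ ε * (|y0| + δ) + |x0| * δ := by
  have e : x * y - x0 * y0 = (x - x0) * y + x0 * (y - y0) := by ring
  rw [e]
  refine (abs_add_le _ _).trans ?_
  rw [abs_mul, abs_mul]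
  have h1 : |y| ≤ |y0| + δ := by
    have := abs_sub_abs_le_abs_sub y y0
    linarith
  have h2 : 0 ≤ ε := (abs_nonneg _).trans hx
  apply add_le_add
  · exact mul_le_mul hx h1 (abs_nonneg _) h2
  · exact mul_le_mul_of_nonneg_left hy (abs_nonneg _)

theorem big : 8.8e-4 ≤ ‖∫ x in (0:ℝ)..RR, ((qf x : ℝ) : ℂ) * Complex.cos ((⟨27 / 2, 0⟩ : ℂ) * x)‖ := by
  rw [int_cos]
  have h0 : (IE ⟨-0, 27 / 2⟩ + (starRingEnd ℂ) (IE ⟨0, 27 / 2⟩)) / 2 = (((IE ⟨1 / 2 - 1 / 2, 27 / 2⟩).re : ℝ) : ℂ) := by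
    rw [neg_zero, show (1 / 2 - 1 / 2 : ℝ) = 0 by norm_num, Complex.add_conj]
    push_cast
    ring
  rw [h0, Complex.norm_real, Real.norm_eq_abs]
  refine le_trans ?_ (le_abs_self _)
  rw [IE_re]
  obtain ⟨a1, a2, a3⟩ := n1
  have hX := mul_bd ehR cs.1
  have hY := mul_bd ehR cs.2
  have hX' := mul_bd hX a1
  have hY' := mul_bd hY a2
  simp only [abs_le] at hX' hY' a3
  norm_num [abs_of_pos] at hX' hY' a3 ⊢
  linarith [hX'.1, hY'.1, a3.2]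

theorem small : ‖∫ x in (0:ℝ)..RR, ((qf x : ℝ) : ℂ) * Complex.cos ((⟨27 / 2, 3 / 2⟩ : ℂ) * x)‖ ≤ 4e-4 := by
  rw [int_cos]
  have e1 : (⟨-(3 / 2), 27 / 2⟩ : ℂ) = ⟨-1 - 1 / 2, 27 / 2⟩ := by norm_num
  have e2 : (⟨3 / 2, 27 / 2⟩ : ℂ) = ⟨2 - 1 / 2, 27 / 2⟩ := by norm_num
  rw [e1, e2]
  refine (Complex.norm_le_abs_re_add_abs_im _).trans ?_
  have r1 : ((IE ⟨-1 - 1 / 2, 27 / 2⟩ + (starRingEnd ℂ) (IE ⟨2 - 1 / 2, 27 / 2⟩)) / 2).re =
    ((IE ⟨-1 - 1 / 2, 27 / 2⟩).re + (IE ⟨2 - 1 / 2, 27 / 2⟩).re) / 2 := by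
    simp
  have r2 : ((IE ⟨-1 - 1 / 2, 27 / 2⟩ + (starRingEnd ℂ) (IE ⟨2 - 1 / 2, 27 / 2⟩)) / 2).im =
    ((IE ⟨-1 - 1 / 2, 27 / 2⟩).im - (IE ⟨2 - 1 / 2, 27 / 2⟩).im) / 2 := by
    simp
    ring
  rw [r1, r2, IE_re, IE_re, IE_im, IE_im]
  obtain ⟨a1, a2, a3, a4⟩ := n2
  obtain ⟨b1, b2, b3, b4⟩ := n3
  have hX := mul_bd e1R cs.1
  have hY := mul_bd e1R cs.2
  have e2R' : |exp (2 * RR) - 3| ≤ 0 := by rw [e2R]; simp
  have hZ := mul_bd e2R' cs.1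
  have hW := mul_bd e2R' cs.2
  have b1' : |SR 3 2 - (-0.0000867)| ≤ 1e-6 := by rw [sub_neg_eq_add]; exact b1
  have b2' : |SI 3 2 - (-0.0004703)| ≤ 1e-6 := by rw [sub_neg_eq_add]; exact b2
  have c1 := mul_bd hX a1
  have c2 := mul_bd hY a2
  have c3 := mul_bd hY a1
  have c4 := mul_bd hX a2
  have d1 := mul_bd hZ b1'
  have d2 := mul_bd hW b2'
  have d3 := mul_bd hW b1'
  have d4 := mul_bd hZ b2'
  set X1 := exp (-1 * RR) * cos (27 / 2 * RR) * SR 3 (-1)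
  set X2 := exp (-1 * RR) * sin (27 / 2 * RR) * SI 3 (-1)
  set X3 := exp (-1 * RR) * sin (27 / 2 * RR) * SR 3 (-1)
  set X4 := exp (-1 * RR) * cos (27 / 2 * RR) * SI 3 (-1)
  set Y1 := exp (2 * RR) * cos (27 / 2 * RR) * SR 3 2
  set Y2 := exp (2 * RR) * sin (27 / 2 * RR) * SI 3 2
  set Y3 := exp (2 * RR) * sin (27 / 2 * RR) * SR 3 2
  set Y4 := exp (2 * RR) * cos (27 / 2 * RR) * SI 3 2
  simp only [abs_mul] at c1 c2 c3 c4 d1 d2 d3 d4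
  have f1 : |(X1 + X2 - SR 1 (-1) + (Y1 + Y2 - SR 1 2)) / 2| ≤ 2.5e-4 := by
    norm_num [abs_le] at c1 c2 d1 d2 a3 b3 ⊢
    constructor <;> linarith [c1.1, c1.2, c2.1, c2.2, d1.1, d1.2, d2.1, d2.2, a3.1, a3.2, b3.1, b3.2]
  have f2 : |(X3 - X4 + SI 1 (-1) - (Y3 - Y4 + SI 1 2)) / 2| ≤ 1.5e-4 := by
    norm_num [abs_le] at c3 c4 d3 d4 a4 b4 ⊢
    constructor <;> linarith [c3.1, c3.2, c4.1, c4.2, d3.1, d3.2, d4.1, d4.2, a4.1, a4.2, b4.1, b4.2]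
  refine (add_le_add f1 f2).trans ?_
  norm_num

/-- **Main theorem**: the truncated transform at `R = log 3 / 2` has a zero off both axes. -/
theorem main : ∃ w : ℂ, FT Phi RR w = 0 ∧ w.re ≠ 0 ∧ w.im ≠ 0 := by
  refine exists_zero RR_pos (Phi_cont.mono fun x hx => hx.1) (fun x hx => Phi_pos hx.1) ⟨27 / 2, 3 / 2⟩ ?_
  have h1 := FT_err ⟨27 / 2, 3 / 2⟩ (by norm_num [abs_le])
  have h2 := FT_err ⟨27 / 2, 0⟩ (by norm_num)
  have h3 := big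
  have h4 := small
  set A := ∫ x in (0:ℝ)..RR, ((qf x : ℝ) : ℂ) * Complex.cos ((⟨27 / 2, 3 / 2⟩ : ℂ) * x)
  set B := ∫ x in (0:ℝ)..RR, ((qf x : ℝ) : ℂ) * Complex.cos ((⟨27 / 2, 0⟩ : ℂ) * x)
  have h5 : ‖FT Phi RR ⟨27 / 2, 3 / 2⟩‖ ≤ ‖A‖ + 1.8e-4 := by
    have := norm_sub_norm_le (FT Phi RR ⟨27 / 2, 3 / 2⟩) A
    linarith
  have h6 : ‖B‖ - 1.8e-4 ≤ ‖FT Phi RR ⟨27 / 2, 0⟩‖ := by
    have := norm_sub_norm_le B (FT Phi RR ⟨27 / 2, 0⟩)
    rw [norm_sub_rev] at this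
    linarith
  have h7 : (((⟨27 / 2, 3 / 2⟩ : ℂ).re : ℝ) : ℂ) = ⟨27 / 2, 0⟩ := rfl
  rw [h7]
  norm_num at h3 h4 h5 h6
  linarith

end Pool.Agent.V1180.Xi
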