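import Mathlib

set_option autoImplicit false

/-! The solution operator of `-φ'' + κ² φ = h` on the half line with `φ(0) = 0`. -/

open Set Filter Topology MeasureTheory

namespace Pool.Agent.V1180.Yuk

/-- measurable with linear growth -/
structure Good (B : ℝ) (h : ℝ → ℝ) : Prop where
  meas : Measurable h
  bound : ∀ s, |h s| ≤ B * (1 + |s|)

noncomputable def P1 (κ : ℝ) (h : ℝ → ℝ) (r : ℝ) : ℝ := ∫ s in (0:ℝ)..r, Real.sinh (κ * s) * h s

noncomputable def P2 (κ : ℝ) (h : ℝ → ℝ) (r : ℝ) : ℝ := ∫ s in Ioi r, Real.exp (-κ * s) * h s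

noncomputable def Phi (κ : ℝ) (h : ℝ → ℝ) (r : ℝ) : ℝ :=
  κ⁻¹ * (Real.exp (-κ * r) * P1 κ h r + Real.sinh (κ * r) * P2 κ h r)

noncomputable def Phi1 (κ : ℝ) (h : ℝ → ℝ) (r : ℝ) : ℝ :=
  - Real.exp (-κ * r) * P1 κ h r + Real.cosh (κ * r) * P2 κ h r

variable {κ B : ℝ} {h : ℝ → ℝ}

theorem Good.B_nonneg (hg : Good B h) : 0 ≤ B := by
  have := hg.bound 0
  simp at this
  exact (abs_nonneg _).trans this

theorem int1 (hg : Good B h) (a b : ℝ) :
    IntervalIntegrable (fun s => Real.sinh (κ * s) * h s) volume a b := by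
  have hB := hg.B_nonneg
  have hc : Continuous (fun s => |Real.sinh (κ * s)| * (B * (1 + |s|))) := by fun_prop
  refine (hc.intervalIntegrable a b).mono_fun' ?_ ?_
  · exact ((Real.measurable_sinh.comp (measurable_const.mul measurable_id)).mul
      hg.meas).aestronglyMeasurable
  · refine ae_of_all _ fun s => ?_
    simp only [Real.norm_eq_abs, abs_mul]
    exact mul_le_mul_of_nonneg_left (hg.bound s) (abs_nonneg _)

theorem exp_dom (hκ : 0 < κ) {s : ℝ} (hs : 0 ≤ s) :
    Real.exp (-κ * s) * (1 + s) ≤ (1 + 2 / κ) * Real.exp (-(κ / 2) * s) := by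
  have h1 : 1 + κ / 2 * s ≤ Real.exp (κ / 2 * s) := by
    have := Real.add_one_le_exp (κ / 2 * s)
    linarith
  have h2 : (1 + s) ≤ (1 + 2 / κ) * Real.exp (κ / 2 * s) := by
    have h3 : 0 ≤ κ / 2 * s := by positivity
    have h4 : 1 ≤ Real.exp (κ / 2 * s) := by linarith
    have h5 : s ≤ 2 / κ * Real.exp (κ / 2 * s) := by
      have : 2 / κ * (κ / 2 * s) = s := by field_simp
      calc s = 2 / κ * (κ / 2 * s) := this.symm
        _ ≤ 2 / κ * Real.exp (κ / 2 * s) := by gcongr; linarith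
    linarith
  calc Real.exp (-κ * s) * (1 + s) ≤ Real.exp (-κ * s) * ((1 + 2 / κ) * Real.exp (κ / 2 * s)) := by
        gcongr
    _ = (1 + 2 / κ) * (Real.exp (-κ * s) * Real.exp (κ / 2 * s)) := by ring
    _ = (1 + 2 / κ) * Real.exp (-(κ / 2) * s) := by
        rw [← Real.exp_add]; congr 2; ring

theorem dom_int (hκ : 0 < κ) (B : ℝ) {a : ℝ} :
    IntegrableOn (fun s => B * ((1 + 2 / κ) * Real.exp (-(κ / 2) * s))) (Ioi a) :=
  ((exp_neg_integrableOn_Ioi a (by positivity : 0 < κ / 2)).const_mul _).const_mul _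

theorem dom_bound (hκ : 0 < κ) (hg : Good B h) {s : ℝ} (hs : 0 ≤ s) :
    |Real.exp (-κ * s) * h s| ≤ B * ((1 + 2 / κ) * Real.exp (-(κ / 2) * s)) := by
  have hB := hg.B_nonneg
  rw [abs_mul, abs_of_pos (Real.exp_pos _)]
  calc Real.exp (-κ * s) * |h s| ≤ Real.exp (-κ * s) * (B * (1 + |s|)) := by
        gcongr; exact hg.bound s
    _ = B * (Real.exp (-κ * s) * (1 + s)) := by rw [abs_of_nonneg hs]; ring
    _ ≤ _ := mul_le_mul_of_nonneg_left (exp_dom hκ hs) hB

theorem int2 (hκ : 0 < κ) (hg : Good B h) {a : ℝ} (ha : 0 ≤ a) :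
    IntegrableOn (fun s => Real.exp (-κ * s) * h s) (Ioi a) := by
  refine (dom_int hκ B).mono' ?_ ?_
  · exact ((Real.measurable_exp.comp (measurable_const.mul measurable_id)).mul
      hg.meas).aestronglyMeasurable
  · refine (ae_restrict_iff' measurableSet_Ioi).2 (ae_of_all _ fun s hs => ?_)
    exact dom_bound hκ hg (ha.trans (le_of_lt hs))

theorem int2' (hg : Good B h) (a b : ℝ) :
    IntervalIntegrable (fun s => Real.exp (-κ * s) * h s) volume a b := by
  have hB := hg.B_nonneg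
  have hc : Continuous (fun s => |Real.exp (-κ * s)| * (B * (1 + |s|))) := by fun_prop
  refine (hc.intervalIntegrable a b).mono_fun' ?_ ?_
  · exact ((Real.measurable_exp.comp (measurable_const.mul measurable_id)).mul
      hg.meas).aestronglyMeasurable
  · refine ae_of_all _ fun s => ?_
    simp only [Real.norm_eq_abs, abs_mul]
    exact mul_le_mul_of_nonneg_left (hg.bound s) (abs_nonneg _)

theorem P2_eq (hκ : 0 < κ) (hg : Good B h) {r : ℝ} (hr : 0 ≤ r) :
    P2 κ h r = P2 κ h 0 - ∫ s in (0:ℝ)..r, Real.exp (-κ * s) * h s := by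
  unfold P2
  have h1 := intervalIntegral.integral_interval_add_Ioi (int2 hκ hg le_rfl) (int2 hκ hg hr)
  linarith

theorem P1_continuous (hg : Good B h) : Continuous (P1 κ h) :=
  intervalIntegral.continuous_primitive (fun a b => int1 hg a b) 0

/-- continuous extension of `P2` -/
noncomputable def P2' (κ : ℝ) (h : ℝ → ℝ) (r : ℝ) : ℝ :=
  P2 κ h 0 - ∫ s in (0:ℝ)..r, Real.exp (-κ * s) * h s

theorem P2'_continuous (hg : Good B h) : Continuous (P2' κ h) :=
  continuous_const.sub (intervalIntegral.continuous_primitive (fun a b => int2' hg a b) 0)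

noncomputable def Phi' (κ : ℝ) (h : ℝ → ℝ) (r : ℝ) : ℝ :=
  κ⁻¹ * (Real.exp (-κ * r) * P1 κ h r + Real.sinh (κ * r) * P2' κ h r)

noncomputable def Phi1' (κ : ℝ) (h : ℝ → ℝ) (r : ℝ) : ℝ :=
  - Real.exp (-κ * r) * P1 κ h r + Real.cosh (κ * r) * P2' κ h r

theorem Phi_eq (hκ : 0 < κ) (hg : Good B h) {r : ℝ} (hr : 0 ≤ r) : Phi κ h r = Phi' κ h r := by
  unfold Phi Phi' P2'
  rw [P2_eq hκ hg hr]

theorem Phi'_continuous (hg : Good B h) : Continuous (Phi' κ h) := by
  have h1 := P1_continuous (κ := κ) hg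
  have h2 := P2'_continuous (κ := κ) hg
  unfold Phi'
  fun_prop

theorem Phi1'_continuous (hg : Good B h) : Continuous (Phi1' κ h) := by
  have h1 := P1_continuous (κ := κ) hg
  have h2 := P2'_continuous (κ := κ) hg
  unfold Phi1'
  fun_prop

theorem Phi'_zero (κ : ℝ) (h : ℝ → ℝ) : Phi' κ h 0 = 0 := by
  unfold Phi' P1
  simp

theorem Phi1'_zero (κ : ℝ) (h : ℝ → ℝ) : Phi1' κ h 0 = P2 κ h 0 := by
  unfold Phi1' P1 P2'
  simp

theorem P1_deriv (hg : Good B h) {r : ℝ} (hc : ContinuousAt h r) :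
    HasDerivAt (P1 κ h) (Real.sinh (κ * r) * h r) r := by
  apply intervalIntegral.integral_hasDerivAt_right (int1 hg 0 r)
  · exact ((Real.measurable_sinh.comp (measurable_const.mul measurable_id)).mul
      hg.meas).stronglyMeasurable.stronglyMeasurableAtFilter
  · apply ContinuousAt.mul _ hc
    fun_prop

theorem P2'_deriv (hg : Good B h) {r : ℝ} (hc : ContinuousAt h r) :
    HasDerivAt (P2' κ h) (-(Real.exp (-κ * r) * h r)) r := by
  have : HasDerivAt (fun r => ∫ s in (0:ℝ)..r, Real.exp (-κ * s) * h s)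
      (Real.exp (-κ * r) * h r) r := by
    apply intervalIntegral.integral_hasDerivAt_right (int2' hg 0 r)
    · exact ((Real.measurable_exp.comp (measurable_const.mul measurable_id)).mul
        hg.meas).stronglyMeasurable.stronglyMeasurableAtFilter
    · apply ContinuousAt.mul _ hc
      fun_prop
  exact this.const_sub (P2 κ h 0)

theorem dexp (κ r : ℝ) : HasDerivAt (fun r => Real.exp (-κ * r)) (-κ * Real.exp (-κ * r)) r := by
  have := ((hasDerivAt_id r).const_mul (-κ)).exp
  simpa [mul_comm] using this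

theorem dsinh (κ r : ℝ) : HasDerivAt (fun r => Real.sinh (κ * r)) (κ * Real.cosh (κ * r)) r := by
  have := ((hasDerivAt_id r).const_mul κ).sinh
  simpa [mul_comm] using this

theorem dcosh (κ r : ℝ) : HasDerivAt (fun r => Real.cosh (κ * r)) (κ * Real.sinh (κ * r)) r := by
  have := ((hasDerivAt_id r).const_mul κ).cosh
  simpa [mul_comm] using this

theorem Phi'_deriv (hκ : 0 < κ) (hg : Good B h) {r : ℝ} (hc : ContinuousAt h r) :
    HasDerivAt (Phi' κ h) (Phi1' κ h r) r := by
  have h1 := ((dexp κ r).mul (P1_deriv (κ := κ) hg hc)).add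
    ((dsinh κ r).mul (P2'_deriv (κ := κ) hg hc))
  have h2 := h1.const_mul κ⁻¹
  refine h2.congr_deriv ?_
  unfold Phi1'
  field_simp
  ring

theorem Phi1'_deriv (hκ : 0 < κ) (hg : Good B h) {r : ℝ} (hc : ContinuousAt h r) :
    HasDerivAt (Phi1' κ h) (κ ^ 2 * Phi' κ h r - h r) r := by
  have h1 := (((dexp κ r).neg).mul (P1_deriv (κ := κ) hg hc)).add
    ((dcosh κ r).mul (P2'_deriv (κ := κ) hg hc))
  refine h1.congr_deriv ?_
  unfold Phi'
  have e1 : Real.exp (-κ * r) * (Real.cosh (κ * r) + Real.sinh (κ * r)) = 1 := by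
    rw [Real.cosh_add_sinh, ← Real.exp_add]
    simp
  have hk : κ ≠ 0 := hκ.ne'
  simp only [neg_mul] at e1 ⊢
  field_simp
  simp only [Pi.neg_apply]
  linear_combination (-h r) * e1

/-- monotonicity of the solution operator -/
theorem Phi_mono (hκ : 0 < κ) {h₁ h₂ : ℝ → ℝ} {B₁ B₂ : ℝ} (hg₁ : Good B₁ h₁) (hg₂ : Good B₂ h₂)
    (hle : ∀ s, 0 < s → h₁ s ≤ h₂ s) {r : ℝ} (hr : 0 ≤ r) : Phi κ h₁ r ≤ Phi κ h₂ r := by
  unfold Phi
  have h1 : P1 κ h₁ r ≤ P1 κ h₂ r := by
    unfold P1
    rw [intervalIntegral.integral_of_le hr, intervalIntegral.integral_of_le hr]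
    apply setIntegral_mono_on (int1 hg₁ 0 r).1 (int1 hg₂ 0 r).1 measurableSet_Ioc
    intro s hs
    have : 0 ≤ Real.sinh (κ * s) := Real.sinh_nonneg_iff.2 (mul_nonneg hκ.le hs.1.le)
    exact mul_le_mul_of_nonneg_left (hle s hs.1) this
  have h2 : P2 κ h₁ r ≤ P2 κ h₂ r := by
    unfold P2
    apply setIntegral_mono_on (int2 hκ hg₁ hr) (int2 hκ hg₂ hr) measurableSet_Ioi
    intro s hs
    exact mul_le_mul_of_nonneg_left (hle s (lt_of_le_of_lt hr hs)) (Real.exp_pos _).le
  have h3 : 0 ≤ Real.sinh (κ * r) := Real.sinh_nonneg_iff.2 (mul_nonneg hκ.le hr)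
  gcongr

/-- dominated convergence for the solution operator -/
theorem Phi_lim (hκ : 0 < κ) {hn : ℕ → ℝ → ℝ} (hgn : ∀ n, Good B (hn n))
    (hlim : ∀ s, 0 < s → Tendsto (fun n => hn n s) atTop (𝓝 (h s))) {r : ℝ} (hr : 0 ≤ r) :
    Tendsto (fun n => Phi κ (hn n) r) atTop (𝓝 (Phi κ h r)) := by
  have hB := (hgn 0).B_nonneg
  unfold Phi
  have h1 : Tendsto (fun n => P1 κ (hn n) r) atTop (𝓝 (P1 κ h r)) := by
    unfold P1
    simp_rw [intervalIntegral.integral_of_le hr]
    have hc : Continuous (fun s => |Real.sinh (κ * s)| * (B * (1 + |s|))) := by fun_prop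
    apply tendsto_integral_of_dominated_convergence (fun s => |Real.sinh (κ * s)| * (B * (1 + |s|)))
    · exact fun n => (int1 (hgn n) 0 r).1.aestronglyMeasurable
    · exact (hc.intervalIntegrable 0 r).1
    · intro n
      refine ae_of_all _ fun s => ?_
      rw [Real.norm_eq_abs, abs_mul]
      exact mul_le_mul_of_nonneg_left ((hgn n).bound s) (abs_nonneg _)
    · refine (ae_restrict_iff' measurableSet_Ioc).2 (ae_of_all _ fun s hs => ?_)
      exact (hlim s hs.1).const_mul _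
  have h2 : Tendsto (fun n => P2 κ (hn n) r) atTop (𝓝 (P2 κ h r)) := by
    unfold P2
    apply tendsto_integral_of_dominated_convergence
      (fun s => B * ((1 + 2 / κ) * Real.exp (-(κ / 2) * s)))
    · exact fun n => (int2 hκ (hgn n) hr).aestronglyMeasurable
    · exact dom_int hκ B
    · intro n
      refine (ae_restrict_iff' measurableSet_Ioi).2 (ae_of_all _ fun s hs => ?_)
      exact dom_bound hκ (hgn n) (hr.trans (le_of_lt hs))
    · refine (ae_restrict_iff' measurableSet_Ioi).2 (ae_of_all _ fun s hs => ?_)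
      exact (hlim s (lt_of_le_of_lt hr hs)).const_mul _
  exact ((h1.const_mul _).add (h2.const_mul _)).const_mul _

/-- representation of a smooth function vanishing at the origin -/
theorem Phi_rep (hκ : 0 < κ) {φ φ1 φ2 : ℝ → ℝ} (h0 : φ 0 = 0)
    (hd1 : ∀ s, HasDerivAt φ (φ1 s) s) (hd2 : ∀ s, HasDerivAt φ1 (φ2 s) s)
    (hg : Good B h) (heq : ∀ s, 0 < s → h s = κ ^ 2 * φ s - φ2 s)
    (hdec : Tendsto (fun s => Real.exp (-κ * s) * (κ * φ s + φ1 s)) atTop (𝓝 0))
    {r : ℝ} (hr : 0 ≤ r) : Phi κ h r = φ r := by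
  have h1 : P1 κ h r = κ * Real.cosh (κ * r) * φ r - Real.sinh (κ * r) * φ1 r := by
    unfold P1
    have hd : ∀ s, HasDerivAt (fun s => κ * Real.cosh (κ * s) * φ s - Real.sinh (κ * s) * φ1 s)
        (Real.sinh (κ * s) * (κ ^ 2 * φ s - φ2 s)) s := by
      intro s
      have := (((dcosh κ s).const_mul κ).mul (hd1 s)).sub ((dsinh κ s).mul (hd2 s))
      refine this.congr_deriv ?_
      ring
    have hcongr : ∫ s in (0:ℝ)..r, Real.sinh (κ * s) * h s =
        ∫ s in (0:ℝ)..r, Real.sinh (κ * s) * (κ ^ 2 * φ s - φ2 s) := by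
      rw [intervalIntegral.integral_of_le hr, intervalIntegral.integral_of_le hr]
      apply setIntegral_congr_fun measurableSet_Ioc
      intro s hs
      simp only
      rw [heq s hs.1]
    have hint : IntervalIntegrable (fun s => Real.sinh (κ * s) * (κ ^ 2 * φ s - φ2 s))
        volume 0 r := by
      rw [intervalIntegrable_iff_integrableOn_Ioc_of_le hr]
      refine ((int1 (κ := κ) hg 0 r).1).congr_fun ?_ measurableSet_Ioc
      intro s hs
      simp only
      rw [heq s hs.1]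
    rw [hcongr, intervalIntegral.integral_eq_sub_of_hasDerivAt (fun s _ => hd s) hint]
    simp [h0]
  have h2 : P2 κ h r = Real.exp (-κ * r) * (κ * φ r + φ1 r) := by
    unfold P2
    have hd : ∀ s, HasDerivAt (fun s => -(Real.exp (-κ * s) * (κ * φ s + φ1 s)))
        (Real.exp (-κ * s) * (κ ^ 2 * φ s - φ2 s)) s := by
      intro s
      have := ((dexp κ s).mul (((hd1 s).const_mul κ).add (hd2 s))).neg
      refine this.congr_deriv ?_
      simp only [Pi.add_apply]
      ring
    have hcongr : ∫ s in Ioi r, Real.exp (-κ * s) * h s =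
        ∫ s in Ioi r, Real.exp (-κ * s) * (κ ^ 2 * φ s - φ2 s) := by
      apply setIntegral_congr_fun measurableSet_Ioi
      intro s hs
      simp only
      rw [heq s (lt_of_le_of_lt hr hs)]
    have hint : IntegrableOn (fun s => Real.exp (-κ * s) * (κ ^ 2 * φ s - φ2 s)) (Ioi r) := by
      refine (int2 hκ hg hr).congr_fun ?_ measurableSet_Ioi
      intro s hs
      simp only
      rw [heq s (lt_of_le_of_lt hr hs)]
    rw [hcongr, integral_Ioi_of_hasDerivAt_of_tendsto' (fun s _ => hd s) hint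
      (by simpa using hdec.neg)]
    ring
  unfold Phi
  rw [h1, h2]
  have e1 : Real.exp (-κ * r) * (Real.cosh (κ * r) + Real.sinh (κ * r)) = 1 := by
    rw [Real.cosh_add_sinh, ← Real.exp_add]
    simp
  simp only [neg_mul] at e1 ⊢
  field_simp
  linear_combination (κ * φ r) * e1

end Pool.Agent.V1180.Yuk
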