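import Pool.Agent.V1180.Yuk

set_option autoImplicit false

/-! Monotone iteration for the radial equation. -/

open Set Filter Topology MeasureTheory

namespace Pool.Agent.V1180.Yuk

/-- power inequality -/
theorem pow_diff {m M a b : ℝ} (hm : 1 < m) (ha : 0 ≤ a) (hab : a ≤ b) (hb : b ≤ M) :
    b ^ m - a ^ m ≤ m * M ^ (m - 1) * (b - a) := by
  have hM : 0 ≤ M := ha.trans (hab.trans hb)
  have hmono : MonotoneOn (fun t : ℝ => m * M ^ (m - 1) * t - t ^ m) (Icc 0 M) := by
    have hd : ∀ t : ℝ, HasDerivAt (fun t : ℝ => m * M ^ (m - 1) * t - t ^ m)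
        (m * M ^ (m - 1) - m * t ^ (m - 1)) t := by
      intro t
      have h1 := (hasDerivAt_id t).const_mul (m * M ^ (m - 1))
      have h2 := Real.hasDerivAt_rpow_const (x := t) (p := m) (Or.inr hm.le)
      exact (h1.sub h2).congr_deriv (by simp)
    apply monotoneOn_of_deriv_nonneg (convex_Icc 0 M)
    · exact fun t _ => (hd t).continuousAt.continuousWithinAt
    · exact fun t _ => (hd t).differentiableAt.differentiableWithinAt
    · intro t ht
      rw [interior_Icc] at ht
      rw [(hd t).deriv]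
      have : t ^ (m - 1) ≤ M ^ (m - 1) := Real.rpow_le_rpow ht.1.le ht.2.le (by linarith)
      have hm0 : 0 ≤ m := by linarith
      nlinarith
  have := hmono ⟨ha, hab.trans hb⟩ ⟨ha.trans hab, hb⟩ hab
  simp only at this
  linarith

section Params

variable {p : ℝ}

/-- upper constant -/
noncomputable def cC (p : ℝ) : ℝ := 2 ^ (1 / (2 * p - 2))

/-- lower constant -/
noncomputable def cE (p : ℝ) : ℝ := (1 / 4) ^ (1 / (2 * p - 2))

/-- shift -/
noncomputable def cK (p : ℝ) : ℝ := (2 * p - 1) * (2 * cC p) ^ (2 * p - 2) + 1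

noncomputable def kap (p : ℝ) : ℝ := √(cK p)

theorem cC_pos (p : ℝ) : 0 < cC p := by unfold cC; positivity

theorem cE_pos (p : ℝ) : 0 < cE p := by unfold cE; positivity

theorem cC_pow (hp : 1 < p) : cC p ^ (2 * p - 2) = 2 := by
  unfold cC
  rw [← Real.rpow_mul (by norm_num), one_div, inv_mul_cancel₀ (by linarith), Real.rpow_one]

theorem cE_pow (hp : 1 < p) : cE p ^ (2 * p - 2) = 1 / 4 := by
  unfold cE
  rw [← Real.rpow_mul (by norm_num), one_div (2 * p - 2), inv_mul_cancel₀ (by linarith),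
    Real.rpow_one]

theorem cE_le (hp : 1 < p) : cE p ≤ cC p := by
  unfold cE cC
  apply Real.rpow_le_rpow (by norm_num) (by norm_num)
  rw [one_div]
  exact inv_nonneg.2 (by linarith)

theorem cK_pos (hp : 1 < p) : 0 < cK p := by
  have := cC_pos p
  have h1 : 0 < 2 * p - 1 := by linarith
  unfold cK
  positivity

theorem kap_pos (hp : 1 < p) : 0 < kap p := Real.sqrt_pos.2 (cK_pos hp)

theorem kap_sq (hp : 1 < p) : kap p ^ 2 = cK p := Real.sq_sqrt (cK_pos hp).le

/-- the source -/
noncomputable def hh (p : ℝ) (ψ : ℝ → ℝ) (s : ℝ) : ℝ :=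
  if 0 < s then cK p * s * ψ s + ψ s - s * ψ s ^ (2 * p - 1) else 0

noncomputable def sub (p : ℝ) (s : ℝ) : ℝ := cE p * Real.exp (-(1 / 2) * s)

noncomputable def sup (p : ℝ) (s : ℝ) : ℝ := cC p * (1 + Real.exp (-1 * s))

theorem sub_pos (s : ℝ) : 0 < sub p s := mul_pos (cE_pos p) (Real.exp_pos _)

theorem sup_le {s : ℝ} (hs : 0 ≤ s) : sup p s ≤ 2 * cC p := by
  unfold sup
  have : Real.exp (-1 * s) ≤ 1 := Real.exp_le_one_iff.2 (by linarith)
  nlinarith [cC_pos p]

theorem sub_le_sup (hp : 1 < p) {s : ℝ} (hs : 0 ≤ s) : sub p s ≤ sup p s := by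
  unfold sub sup
  have h1 : Real.exp (-(1 / 2) * s) ≤ 1 := Real.exp_le_one_iff.2 (by linarith)
  have h2 := Real.exp_pos (-1 * s)
  have h3 := cE_pos p
  have h4 := cC_pos p
  have h5 := cE_le hp
  calc cE p * Real.exp (-(1 / 2) * s) ≤ cE p * 1 := by gcongr
    _ ≤ cC p := by linarith
    _ ≤ cC p * (1 + Real.exp (-1 * s)) := by nlinarith

/-- the bound for the source -/
noncomputable def cB (p : ℝ) : ℝ := 2 * cC p * cK p + 2 * cC p + (2 * cC p) ^ (2 * p - 1)

theorem hh_good (hp : 1 < p) {ψ : ℝ → ℝ} (hm : Measurable ψ)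
    (h0 : ∀ s, 0 < s → 0 ≤ ψ s) (h1 : ∀ s, 0 < s → ψ s ≤ 2 * cC p) : Good (cB p) (hh p ψ) := by
  have hC := cC_pos p
  have hK := cK_pos hp
  refine ⟨?_, fun s => ?_⟩
  · apply Measurable.ite measurableSet_Ioi _ measurable_const
    exact ((measurable_const.mul measurable_id).mul hm).add hm |>.sub
      (measurable_id.mul (hm.pow_const _))
  · unfold hh
    have hpow : 0 < (2 * cC p) ^ (2 * p - 1) := by positivity
    have hB : 0 ≤ cB p := by unfold cB; positivity
    split_ifs with hs
    · have a0 := h0 s hs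
      have a1 := h1 s hs
      have a2 : ψ s ^ (2 * p - 1) ≤ (2 * cC p) ^ (2 * p - 1) :=
        Real.rpow_le_rpow a0 a1 (by linarith)
      have a3 : 0 ≤ ψ s ^ (2 * p - 1) := Real.rpow_nonneg a0 _
      rw [abs_of_pos hs]
      have t1 : cK p * s * ψ s ≤ cK p * s * (2 * cC p) := by gcongr
      have t2 : s * ψ s ^ (2 * p - 1) ≤ s * (2 * cC p) ^ (2 * p - 1) := by gcongr
      have t3 : 0 ≤ cK p * s * ψ s := by positivity
      have t4 : 0 ≤ s * ψ s ^ (2 * p - 1) := by positivity
      have e : cB p * (1 + s) = cK p * s * (2 * cC p) + 2 * cC p + s * (2 * cC p) ^ (2 * p - 1) +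
          (2 * cC p * cK p + (2 * cC p) ^ (2 * p - 1) + 2 * cC p * s) := by
        unfold cB; ring
      have t5 : 0 ≤ 2 * cC p * cK p + (2 * cC p) ^ (2 * p - 1) + 2 * cC p * s := by positivity
      rw [e, abs_le]
      constructor <;> linarith
    · rw [abs_zero]
      positivity

theorem hh_mono (hp : 1 < p) {ψ₁ ψ₂ : ℝ → ℝ} {s : ℝ} (hs : 0 < s) (h0 : 0 ≤ ψ₁ s)
    (h12 : ψ₁ s ≤ ψ₂ s) (h2 : ψ₂ s ≤ 2 * cC p) : hh p ψ₁ s ≤ hh p ψ₂ s := by
  unfold hh
  rw [if_pos hs, if_pos hs]
  have h := pow_diff (m := 2 * p - 1) (by linarith) h0 h12 h2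
  have e : 2 * p - 1 - 1 = 2 * p - 2 := by ring
  rw [e] at h
  have h3 : (2 * p - 1) * (2 * cC p) ^ (2 * p - 2) * (ψ₂ s - ψ₁ s) ≤
      cK p * (ψ₂ s - ψ₁ s) := by
    apply mul_le_mul_of_nonneg_right _ (by linarith)
    unfold cK; linarith
  have h4 : s * (ψ₂ s ^ (2 * p - 1) - ψ₁ s ^ (2 * p - 1)) ≤ s * (cK p * (ψ₂ s - ψ₁ s)) := by
    gcongr; exact h.trans h3
  nlinarith

theorem exp_mul_tendsto {c κ : ℝ} (hκ : 0 < κ) (hc : 0 ≤ c) (a b : ℝ) :
    Tendsto (fun s => Real.exp (-κ * s) * ((a * s + b) * Real.exp (-c * s))) atTop (𝓝 0) := by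
  have h1 : Tendsto (fun s : ℝ => s * Real.exp (-(κ + c) * s)) atTop (𝓝 0) := by
    have := Real.tendsto_pow_mul_exp_neg_atTop_nhds_zero 1
    have h2 : Tendsto (fun s : ℝ => (κ + c) * s) atTop atTop :=
      tendsto_id.const_mul_atTop (by positivity)
    have h3 := (this.comp h2).const_mul (κ + c)⁻¹
    rw [mul_zero] at h3
    refine h3.congr fun s => ?_
    simp only [Function.comp, pow_one]
    field_simp
  have h2 : Tendsto (fun s : ℝ => Real.exp (-(κ + c) * s)) atTop (𝓝 0) := by
    have h2 : Tendsto (fun s : ℝ => (κ + c) * s) atTop atTop :=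
      tendsto_id.const_mul_atTop (by positivity)
    have := Real.tendsto_exp_neg_atTop_nhds_zero.comp h2
    refine this.congr fun s => ?_
    simp only [Function.comp]
    congr 1; ring
  have h3 := (h1.const_mul a).add (h2.const_mul b)
  rw [mul_zero, mul_zero, add_zero] at h3
  refine h3.congr fun s => ?_
  have : Real.exp (-κ * s) * Real.exp (-c * s) = Real.exp (-(κ + c) * s) := by
    rw [← Real.exp_add]; congr 1; ring
  rw [← this]
  ring

/-- the subsolution is below its image -/
theorem sub_le_Phi (hp : 1 < p) {r : ℝ} (hr : 0 < r) :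
    r * sub p r ≤ Phi (kap p) (hh p (sub p)) r := by
  have hE := cE_pos p
  have hK := cK_pos hp
  have hκ := kap_pos hp
  set φ : ℝ → ℝ := fun s => cE p * s * Real.exp (-(1 / 2) * s) with hφ
  set φ1 : ℝ → ℝ := fun s => cE p * (1 - s / 2) * Real.exp (-(1 / 2) * s) with hφ1
  set φ2 : ℝ → ℝ := fun s => cE p * (s / 4 - 1) * Real.exp (-(1 / 2) * s) with hφ2
  have d1 : ∀ s, HasDerivAt φ (φ1 s) s := by
    intro s
    have := ((hasDerivAt_id s).const_mul (cE p)).mul (dexp (1 / 2) s)
    refine this.congr_deriv ?_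
    simp only [hφ1, id]
    ring
  have d2 : ∀ s, HasDerivAt φ1 (φ2 s) s := by
    intro s
    have := (((((hasDerivAt_id s).div_const 2).const_sub 1)).const_mul (cE p)).mul
      (dexp (1 / 2) s)
    refine this.congr_deriv ?_
    simp only [hφ2, id]
    ring
  have hm : Measurable (sub p) := by
    unfold sub; fun_prop
  have hg1 := hh_good hp hm (fun s _ => (sub_pos s).le)
    (fun s hs => (sub_le_sup hp hs.le).trans (sup_le hs.le))
  set h2 : ℝ → ℝ := fun s => if 0 < s then kap p ^ 2 * φ s - φ2 s else 0 with hh2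
  have hg2 : Good (cK p * cE p + cE p) h2 := by
    refine ⟨?_, fun s => ?_⟩
    · apply Measurable.ite measurableSet_Ioi _ measurable_const
      simp only [hφ, hφ2]
      fun_prop
    · simp only [hh2]
      split_ifs with hs
      · rw [abs_of_pos hs, kap_sq hp]
        simp only [hφ, hφ2]
        have e0 := Real.exp_pos (-(1 / 2) * s)
        have e1 : Real.exp (-(1 / 2) * s) ≤ 1 := Real.exp_le_one_iff.2 (by linarith)
        set e := Real.exp (-(1 / 2) * s)
        have f : cK p * (cE p * s * e) - cE p * (s / 4 - 1) * e =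
          (cK p * cE p * s - cE p * (s / 4 - 1)) * e := by ring
        rw [f, abs_mul, abs_of_pos e0]
        have t1 : 0 < cK p * cE p * s := by positivity
        have t2 : 0 < cE p * s := by positivity
        have f2 : |cK p * cE p * s - cE p * (s / 4 - 1)| ≤ (cK p * cE p + cE p) * (1 + s) := by
          rw [abs_le]
          constructor <;> nlinarith
        calc |cK p * cE p * s - cE p * (s / 4 - 1)| * e ≤
            (cK p * cE p + cE p) * (1 + s) * 1 := by
              apply mul_le_mul f2 e1 e0.le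
              positivity
          _ = _ := mul_one _
      · rw [abs_zero]; positivity
  have hrep : Phi (kap p) h2 r = φ r := by
    apply Phi_rep hκ _ d1 d2 hg2 _ _ hr.le
    · simp [hφ]
    · intro s hs
      simp only [hh2, if_pos hs]
    · have := exp_mul_tendsto (c := 1 / 2) hκ (by norm_num) (kap p * cE p - cE p / 2) (cE p)
      refine this.congr fun s => ?_
      simp only [hφ, hφ1]
      ring
  have e : r * sub p r = φ r := by simp only [hφ, sub]; ring
  rw [e, ← hrep]
  apply Phi_mono hκ hg2 hg1 _ hr.le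
  intro s hs
  simp only [hh2, if_pos hs]
  unfold hh
  rw [if_pos hs, kap_sq hp]
  have hpow : sub p s ^ (2 * p - 1) = sub p s * sub p s ^ (2 * p - 2) := by
    have := sub_pos (p := p) s
    rw [show 2 * p - 1 = 1 + (2 * p - 2) by ring, Real.rpow_add this, Real.rpow_one]
  have hq : sub p s ^ (2 * p - 2) ≤ 1 / 4 := by
    rw [← cE_pow hp]
    apply Real.rpow_le_rpow (sub_pos s).le _ (by linarith)
    unfold sub
    have e1 : Real.exp (-(1 / 2) * s) ≤ 1 := Real.exp_le_one_iff.2 (by linarith)
    calc cE p * Real.exp (-(1 / 2) * s) ≤ cE p * 1 := by gcongr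
      _ = cE p := mul_one _
  rw [hpow]
  set Y := sub p s ^ (2 * p - 2)
  have e2 : cK p * φ s - φ2 s = cK p * s * sub p s - (s / 4 - 1) * sub p s := by
    simp only [hφ, hφ2, sub]; ring
  rw [e2]
  have h3 := sub_pos (p := p) s
  have h4 : 0 ≤ s * sub p s * (1 / 4 - Y) := by
    apply mul_nonneg (by positivity); linarith
  nlinarith

/-- the supersolution is above its image -/
theorem Phi_le_sup (hp : 1 < p) {r : ℝ} (hr : 0 < r) :
    Phi (kap p) (hh p (sup p)) r ≤ r * sup p r := by
  have hC := cC_pos p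
  have hK := cK_pos hp
  have hκ := kap_pos hp
  set φ : ℝ → ℝ := fun s => cC p * s * (1 + Real.exp (-1 * s)) with hφ
  set φ1 : ℝ → ℝ := fun s => cC p * (1 + (1 - s) * Real.exp (-1 * s)) with hφ1
  set φ2 : ℝ → ℝ := fun s => cC p * ((s - 2) * Real.exp (-1 * s)) with hφ2
  have d1 : ∀ s, HasDerivAt φ (φ1 s) s := by
    intro s
    have := ((hasDerivAt_id s).const_mul (cC p)).mul ((dexp 1 s).const_add 1)
    refine this.congr_deriv ?_
    simp only [hφ1, id]
    ring
  have d2 : ∀ s, HasDerivAt φ1 (φ2 s) s := by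
    intro s
    have := ((((hasDerivAt_id s).const_sub 1).mul (dexp 1 s)).const_add 1).const_mul (cC p)
    refine this.congr_deriv ?_
    simp only [hφ2, id]
    ring
  have hm : Measurable (sup p) := by
    unfold sup; fun_prop
  have hsup0 : ∀ s, 0 < sup p s := fun s => by
    unfold sup; have := Real.exp_pos (-1 * s); positivity
  have hg1 := hh_good hp hm (fun s _ => (hsup0 s).le) (fun s hs => sup_le hs.le)
  set h2 : ℝ → ℝ := fun s => if 0 < s then kap p ^ 2 * φ s - φ2 s else 0 with hh2
  have hg2 : Good (2 * cK p * cC p + 2 * cC p) h2 := by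
    refine ⟨?_, fun s => ?_⟩
    · apply Measurable.ite measurableSet_Ioi _ measurable_const
      simp only [hφ, hφ2]
      fun_prop
    · simp only [hh2]
      split_ifs with hs
      · rw [abs_of_pos hs, kap_sq hp]
        simp only [hφ, hφ2]
        have e0 := Real.exp_pos (-1 * s)
        have e1 : Real.exp (-1 * s) ≤ 1 := Real.exp_le_one_iff.2 (by linarith)
        set e := Real.exp (-1 * s)
        have t1 : 0 < cK p * cC p * s := by positivity
        have t2 : 0 < cC p * s := by positivity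
        have t3 : cK p * cC p * s * e ≤ cK p * cC p * s * 1 := by gcongr
        have t4 : cC p * s * e ≤ cC p * s * 1 := by gcongr
        have t5 : cC p * e ≤ cC p * 1 := by gcongr
        have t6 : 0 < cK p * cC p * s * e := by positivity
        have t7 : 0 < cC p * s * e := by positivity
        have t8 : 0 < cC p * e := by positivity
        have t9 : 0 < cK p * cC p := by positivity
        rw [abs_le]
        constructor <;> nlinarith
      · rw [abs_zero]; positivity
  have hrep : Phi (kap p) h2 r = φ r := by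
    apply Phi_rep hκ _ d1 d2 hg2 _ _ hr.le
    · simp [hφ]
    · intro s hs
      simp only [hh2, if_pos hs]
    · have a1 := exp_mul_tendsto (c := 0) hκ le_rfl (kap p * cC p) (cC p)
      have a2 := exp_mul_tendsto (c := 1) hκ zero_le_one (kap p * cC p - cC p) (cC p)
      have := a1.add a2
      rw [add_zero] at this
      refine this.congr fun s => ?_
      simp only [hφ, hφ1]
      rw [neg_zero, zero_mul, Real.exp_zero]
      ring
  have e : r * sup p r = φ r := by simp only [hφ, sup]; ring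
  rw [e, ← hrep]
  apply Phi_mono hκ hg1 hg2 _ hr.le
  intro s hs
  simp only [hh2, if_pos hs]
  unfold hh
  rw [if_pos hs, kap_sq hp]
  have hpow : sup p s ^ (2 * p - 1) = sup p s * sup p s ^ (2 * p - 2) := by
    rw [show 2 * p - 1 = 1 + (2 * p - 2) by ring, Real.rpow_add (hsup0 s), Real.rpow_one]
  have hq : 2 ≤ sup p s ^ (2 * p - 2) := by
    have hle : cC p ≤ sup p s := by
      unfold sup
      have := Real.exp_pos (-1 * s)
      nlinarith
    calc (2:ℝ) = cC p ^ (2 * p - 2) := (cC_pow hp).symm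
      _ ≤ _ := Real.rpow_le_rpow hC.le hle (by linarith)
  rw [hpow]
  set Y := sup p s ^ (2 * p - 2)
  have e0 := Real.exp_pos (-1 * s)
  have e1 : 1 - s ≤ Real.exp (-1 * s) := by
    have := Real.add_one_le_exp (-1 * s)
    linarith
  simp only [hφ, hφ2]
  have hS : sup p s = cC p * (1 + Real.exp (-1 * s)) := rfl
  have h4 : 0 ≤ s * sup p s * (Y - 2) := by
    apply mul_nonneg (mul_nonneg hs.le (hsup0 s).le); linarith
  rw [hS] at h4 ⊢
  set e := Real.exp (-1 * s)
  have h5 : 1 - 2 * s ≤ (1 + s) * e := by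
    rcases le_total s 1 with h | h
    · nlinarith
    · nlinarith [mul_pos (show 0 < 1 + s by linarith) e0]
  have h6 : 0 ≤ cC p * ((1 + s) * e - (1 - 2 * s)) := by
    apply mul_nonneg hC.le; linarith
  nlinarith

end Params

end Pool.Agent.V1180.Yuk
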