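import Pool.Agent.V1180.Yuk2

set_option autoImplicit false

/-! The fixed point. -/

open Set Filter Topology MeasureTheory

namespace Pool.Agent.V1180.Yuk

variable {p : ℝ}

/-- the iteration -/
noncomputable def itr (p : ℝ) : ℕ → ℝ → ℝ
  | 0 => fun r => if 0 < r then sub p r else 0
  | n + 1 => fun r => if 0 < r then Phi (kap p) (hh p (itr p n)) r / r else 0

/-- dependence of the source on positive values only -/
theorem hh_congr {ψ₁ ψ₂ : ℝ → ℝ} (h : ∀ s, 0 < s → ψ₁ s = ψ₂ s) : hh p ψ₁ = hh p ψ₂ := by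
  ext s
  unfold hh
  split_ifs with hs
  · rw [h s hs]
  · rfl

theorem itr_props (hp : 1 < p) (n : ℕ) : Measurable (itr p n) ∧
    (∀ r, 0 < r → sub p r ≤ itr p n r) ∧ (∀ r, 0 < r → itr p n r ≤ sup p r) := by
  have hκ := kap_pos hp
  induction n with
  | zero =>
    refine ⟨?_, fun r hr => ?_, fun r hr => ?_⟩
    · apply Measurable.ite measurableSet_Ioi _ measurable_const
      unfold sub; fun_prop
    · simp only [itr, if_pos hr]; exact le_rfl
    · simp only [itr, if_pos hr]; exact sub_le_sup hp hr.le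
  | succ n ih =>
    obtain ⟨hm, h1, h2⟩ := ih
    have hg := hh_good hp hm (fun s hs => (sub_pos s).le.trans (h1 s hs))
      (fun s hs => (h2 s hs).trans (sup_le hs.le))
    have hsub : Measurable (sub p) := by unfold sub; fun_prop
    have hsup : Measurable (sup p) := by unfold sup; fun_prop
    have hsup0 : ∀ s, 0 < sup p s := fun s => by
      unfold sup; have := Real.exp_pos (-1 * s); have := cC_pos p; positivity
    have hg1 := hh_good hp hsub (fun s _ => (sub_pos s).le)
      (fun s hs => (sub_le_sup hp hs.le).trans (sup_le hs.le))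
    have hg2 := hh_good hp hsup (fun s _ => (hsup0 s).le) (fun s hs => sup_le hs.le)
    refine ⟨?_, fun r hr => ?_, fun r hr => ?_⟩
    · have he : itr p (n + 1) = fun r => if 0 < r then Phi' (kap p) (hh p (itr p n)) r / r
          else 0 := by
        ext r
        simp only [itr]
        split_ifs with hr
        · rw [Phi_eq hκ hg hr.le]
        · rfl
      rw [he]
      exact Measurable.ite measurableSet_Ioi ((Phi'_continuous hg).measurable.div measurable_id)
        measurable_const
    · simp only [itr, if_pos hr]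
      rw [le_div_iff₀ hr, mul_comm]
      refine (sub_le_Phi hp hr).trans (Phi_mono hκ hg1 hg ?_ hr.le)
      intro s hs
      exact hh_mono hp hs (sub_pos s).le (h1 s hs) ((h2 s hs).trans (sup_le hs.le))
    · simp only [itr, if_pos hr]
      rw [div_le_iff₀ hr, mul_comm]
      refine (Phi_mono hκ hg hg2 ?_ hr.le).trans (Phi_le_sup hp hr)
      intro s hs
      exact hh_mono hp hs ((sub_pos s).le.trans (h1 s hs)) (h2 s hs) (sup_le hs.le)

theorem itr_good (hp : 1 < p) (n : ℕ) : Good (cB p) (hh p (itr p n)) := by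
  obtain ⟨hm, h1, h2⟩ := itr_props hp n
  exact hh_good hp hm (fun s hs => (sub_pos s).le.trans (h1 s hs))
      (fun s hs => (h2 s hs).trans (sup_le hs.le))

theorem itr_mono (hp : 1 < p) (n : ℕ) {r : ℝ} (hr : 0 < r) : itr p n r ≤ itr p (n + 1) r := by
  have hκ := kap_pos hp
  induction n generalizing r with
  | zero =>
    have := (itr_props hp 1).2.1 r hr
    simpa only [itr, if_pos hr] using this
  | succ n ih =>
    obtain ⟨hm, h1, h2⟩ := itr_props hp n
    obtain ⟨hm', h1', h2'⟩ := itr_props hp (n + 1)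
    have e1 : itr p (n + 1) r = Phi (kap p) (hh p (itr p n)) r / r := by
      simp only [itr, if_pos hr]
    have e2 : itr p (n + 1 + 1) r = Phi (kap p) (hh p (itr p (n + 1))) r / r := by
      simp only [itr, if_pos hr]
    rw [e1, e2]
    apply div_le_div_of_nonneg_right _ hr.le
    apply Phi_mono hκ (itr_good hp n) (itr_good hp (n + 1)) _ hr.le
    intro s hs
    exact hh_mono hp hs ((sub_pos s).le.trans (h1 s hs)) (ih hs) ((h2' s hs).trans (sup_le hs.le))

/-- the profile -/
noncomputable def prof (p : ℝ) (r : ℝ) : ℝ := ⨆ n, itr p n r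

theorem prof_tendsto (hp : 1 < p) {r : ℝ} (hr : 0 < r) :
    Tendsto (fun n => itr p n r) atTop (𝓝 (prof p r)) := by
  apply tendsto_atTop_ciSup (monotone_nat_of_le_succ fun n => itr_mono hp n hr)
  refine ⟨sup p r, ?_⟩
  rintro _ ⟨n, rfl⟩
  exact (itr_props hp n).2.2 r hr

theorem prof_ge (hp : 1 < p) {r : ℝ} (hr : 0 < r) : sub p r ≤ prof p r :=
  ge_of_tendsto' (prof_tendsto hp hr) fun n => (itr_props hp n).2.1 r hr

theorem prof_le (hp : 1 < p) {r : ℝ} (hr : 0 < r) : prof p r ≤ sup p r :=
  le_of_tendsto' (prof_tendsto hp hr) fun n => (itr_props hp n).2.2 r hr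

/-- measurable representative -/
noncomputable def prf (p : ℝ) (r : ℝ) : ℝ := if 0 < r then prof p r else 0

theorem prf_meas (hp : 1 < p) : Measurable (prf p) := by
  have h1 : ∀ n, Measurable fun r => if 0 < r then itr p n r else 0 := fun n =>
    Measurable.ite measurableSet_Ioi (itr_props hp n).1 measurable_const
  refine measurable_of_tendsto_metrizable h1 ?_
  rw [tendsto_pi_nhds]
  intro r
  unfold prf
  split_ifs with hr
  · exact prof_tendsto hp hr
  · exact tendsto_const_nhds

theorem prf_good (hp : 1 < p) : Good (cB p) (hh p (prf p)) := by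
  apply hh_good hp (prf_meas hp)
  · intro s hs
    simp only [prf, if_pos hs]
    exact (sub_pos s).le.trans (prof_ge hp hs)
  · intro s hs
    simp only [prf, if_pos hs]
    exact (prof_le hp hs).trans (sup_le hs.le)

/-- the source of the fixed point -/
noncomputable def src (p : ℝ) : ℝ → ℝ := hh p (prf p)

theorem fixed (hp : 1 < p) {r : ℝ} (hr : 0 < r) : Phi (kap p) (src p) r = r * prf p r := by
  have hκ := kap_pos hp
  have h1 : Tendsto (fun n => Phi (kap p) (hh p (itr p n)) r) atTop
      (𝓝 (Phi (kap p) (src p) r)) := by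
    apply Phi_lim hκ (fun n => itr_good hp n) _ hr.le
    intro s hs
    unfold src hh
    simp only [if_pos hs, prf]
    have ht := prof_tendsto hp hs
    have hpow : Tendsto (fun n => itr p n s ^ (2 * p - 1)) atTop (𝓝 (prof p s ^ (2 * p - 1))) :=
      ht.rpow_const (Or.inr (by linarith))
    exact ((ht.const_mul _).add ht).sub (hpow.const_mul _)
  have h2 : Tendsto (fun n => Phi (kap p) (hh p (itr p n)) r) atTop (𝓝 (r * prof p r)) := by
    have h3 := ((prof_tendsto hp hr).comp (tendsto_add_atTop_nat 1)).const_mul r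
    refine h3.congr fun n => ?_
    simp only [Function.comp, itr, if_pos hr]
    field_simp
  have := tendsto_nhds_unique h1 h2
  rw [this]
  simp only [prf, if_pos hr]

/-- `φ = r ψ` -/
noncomputable def ph (p : ℝ) : ℝ → ℝ := Phi' (kap p) (src p)

noncomputable def ph1 (p : ℝ) : ℝ → ℝ := Phi1' (kap p) (src p)

theorem prf_eq (hp : 1 < p) {r : ℝ} (hr : 0 < r) : prf p r = ph p r / r := by
  have h1 := fixed hp hr
  have hg : Good (cB p) (src p) := prf_good hp
  rw [Phi_eq (kap_pos hp) hg hr.le] at h1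
  rw [eq_div_iff hr.ne', mul_comm]
  exact h1.symm

theorem ph_continuous (hp : 1 < p) : Continuous (ph p) := Phi'_continuous (prf_good hp)

theorem ph1_continuous (hp : 1 < p) : Continuous (ph1 p) := Phi1'_continuous (prf_good hp)

theorem prf_contAt (hp : 1 < p) {r : ℝ} (hr : 0 < r) : ContinuousAt (prf p) r := by
  have h1 : ContinuousAt (fun r => ph p r / r) r :=
    (ph_continuous hp).continuousAt.div continuousAt_id hr.ne'
  refine h1.congr ?_
  filter_upwards [lt_mem_nhds hr] with s hs
  exact (prf_eq hp hs).symm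

theorem src_contAt (hp : 1 < p) {r : ℝ} (hr : 0 < r) : ContinuousAt (src p) r := by
  have h1 := prf_contAt hp hr
  have h2 : ContinuousAt (fun s => cK p * s * prf p s + prf p s - s * prf p s ^ (2 * p - 1)) r := by
    have h3 : ContinuousAt (fun s => prf p s ^ (2 * p - 1)) r :=
      h1.rpow_const (Or.inr (by linarith))
    exact (((continuousAt_const.mul continuousAt_id).mul h1).add h1).sub (continuousAt_id.mul h3)
  refine h2.congr ?_
  filter_upwards [lt_mem_nhds hr] with s hs
  simp only [src, hh, if_pos hs]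

theorem ph_deriv (hp : 1 < p) {r : ℝ} (hr : 0 < r) : HasDerivAt (ph p) (ph1 p r) r :=
  Phi'_deriv (kap_pos hp) (prf_good hp) (src_contAt hp hr)

/-- the second derivative -/
noncomputable def ph2 (p : ℝ) (r : ℝ) : ℝ := r * prf p r ^ (2 * p - 1) - prf p r

theorem ph1_deriv (hp : 1 < p) {r : ℝ} (hr : 0 < r) : HasDerivAt (ph1 p) (ph2 p r) r := by
  refine (Phi1'_deriv (kap_pos hp) (prf_good hp) (src_contAt hp hr)).congr_deriv ?_
  have h1 : Phi' (kap p) (hh p (prf p)) r = r * prf p r := by
    rw [prf_eq hp hr]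
    unfold ph src
    field_simp
  rw [h1, kap_sq hp]
  simp only [hh, if_pos hr, ph2]
  ring

theorem ph2_contAt (hp : 1 < p) {r : ℝ} (hr : 0 < r) : ContinuousAt (ph2 p) r := by
  have h1 := prf_contAt hp hr
  have h3 : ContinuousAt (fun s => prf p s ^ (2 * p - 1)) r :=
    h1.rpow_const (Or.inr (by linarith))
  exact (continuousAt_id.mul h3).sub h1

theorem ph_zero (p : ℝ) : ph p 0 = 0 := Phi'_zero _ _

theorem prf_bounds (hp : 1 < p) {r : ℝ} (hr : 0 < r) : 0 < prf p r ∧ prf p r ≤ 2 * cC p := by
  simp only [prf, if_pos hr]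
  exact ⟨(sub_pos r).trans_le (prof_ge hp hr), (prof_le hp hr).trans (sup_le hr.le)⟩

/-- a bound for the second derivative on `(0,T]` -/
noncomputable def cD (p T : ℝ) : ℝ := T * (2 * cC p) ^ (2 * p - 1) + 2 * cC p

theorem ph2_bound (hp : 1 < p) {r T : ℝ} (hr : 0 < r) (hT : r ≤ T) : |ph2 p r| ≤ cD p T := by
  obtain ⟨h1, h2⟩ := prf_bounds hp hr
  have h3 : prf p r ^ (2 * p - 1) ≤ (2 * cC p) ^ (2 * p - 1) :=
    Real.rpow_le_rpow h1.le h2 (by linarith)
  have h4 : 0 ≤ prf p r ^ (2 * p - 1) := Real.rpow_nonneg h1.le _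
  have h5 : r * prf p r ^ (2 * p - 1) ≤ T * (2 * cC p) ^ (2 * p - 1) := by
    apply mul_le_mul hT h3 h4 (hr.le.trans hT)
  have h6 : 0 ≤ r * prf p r ^ (2 * p - 1) := by positivity
  have h7 : 0 ≤ T * (2 * cC p) ^ (2 * p - 1) := h6.trans h5
  unfold ph2 cD
  rw [abs_le]
  constructor <;> linarith

/-- `r φ' - φ = O(r²)` -/
theorem quot_bound (hp : 1 < p) {r T : ℝ} (hr : 0 < r) (hT : r ≤ T) :
    |r * ph1 p r - ph p r| ≤ cD p T * r ^ 2 := by
  have hcont : ContinuousOn (fun r => r * ph1 p r - ph p r) (Icc 0 r) :=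
    ((continuous_id.mul (ph1_continuous hp)).sub (ph_continuous hp)).continuousOn
  have hd : ∀ s ∈ Ico 0 r, 0 < s → HasDerivAt (fun r => r * ph1 p r - ph p r) (s * ph2 p s) s := by
    intro s _ hs
    have := ((hasDerivAt_id s).mul (ph1_deriv hp hs)).sub (ph_deriv hp hs)
    refine this.congr_deriv ?_
    simp only [id]
    ring
  -- mean value theorem
  obtain ⟨c, hc, hc'⟩ := exists_hasDerivAt_eq_slope (fun r => r * ph1 p r - ph p r)
    (fun s => s * ph2 p s) hr hcont (fun s hs => hd s ⟨hs.1.le, hs.2⟩ hs.1)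
  simp only [ph_zero, zero_mul, sub_zero] at hc'
  have h1 : r * ph1 p r - ph p r = c * ph2 p c * r := by
    rw [hc']; field_simp
  rw [h1, abs_mul, abs_mul, abs_of_pos hc.1, abs_of_pos hr]
  have h2 := ph2_bound hp hc.1 (hc.2.le.trans hT)
  have h3 : 0 ≤ cD p T := (abs_nonneg _).trans h2
  calc c * |ph2 p c| * r ≤ r * cD p T * r := by gcongr; exact hc.2.le
    _ = _ := by ring

/-- value at the origin -/
theorem prf_lim (hp : 1 < p) : Tendsto (prf p) (𝓝[>] 0) (𝓝 (ph1 p 0)) := by
  -- difference quotient of ph at 0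
  have h1 : HasDerivWithinAt (ph p) (ph1 p 0) (Ioi 0) 0 := by
    refine HasDerivWithinAt.mono ?_ Ioi_subset_Ici_self
    apply hasDerivWithinAt_Ici_of_tendsto_deriv (s := Ioi 0)
    · intro x hx
      exact (ph_deriv hp hx).differentiableAt.differentiableWithinAt
    · exact (ph_continuous hp).continuousWithinAt
    · exact self_mem_nhdsWithin
    · have h2 : Tendsto (ph1 p) (𝓝[>] 0) (𝓝 (ph1 p 0)) :=
        (ph1_continuous hp).continuousWithinAt
      refine h2.congr' ?_
      filter_upwards [self_mem_nhdsWithin] with x hx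
      exact (ph_deriv hp hx).deriv.symm
  rw [hasDerivWithinAt_iff_tendsto_slope' (by simp)] at h1
  refine h1.congr' ?_
  filter_upwards [self_mem_nhdsWithin] with r hr
  rw [slope_def_field, ph_zero, sub_zero, sub_zero, prf_eq hp hr]

theorem ph1_zero_pos (hp : 1 < p) : 0 < ph1 p 0 := by
  have h1 : Tendsto (sub p) (𝓝[>] 0) (𝓝 (sub p 0)) := by
    have : Continuous (sub p) := by unfold sub; fun_prop
    exact this.continuousWithinAt
  refine (sub_pos 0).trans_le (le_of_tendsto_of_tendsto h1 (prf_lim hp) ?_)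
  filter_upwards [self_mem_nhdsWithin] with r hr
  have hr' : 0 < r := hr
  simp only [prf, if_pos hr']
  exact prof_ge hp hr'

end Pool.Agent.V1180.Yuk
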